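import Pool.Agent.Work.MP_88b7aa_gt.PQ.Sys

/-!
# A fast check of systems

`Sys.okQ` decides the same as `Sys.ok` with bit masks; it is meant for the kernel (`Sys.ok_of`).
-/

set_option autoImplicit false

namespace Pool.Agent.Work.MP_88b7aa_gt.PQ

namespace SQ

theorem cond_and {a b : Bool} (h : cond a b false = true) : a = true ∧ b = true := by
  cases a
  · exact Bool.noConfusion h
  · exact ⟨rfl, h⟩

/-- Force the evaluation of a natural number. -/
@[reducible] noncomputable def evN {α : Type} (n : Nat) (k : Nat → α) : α :=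
  Nat.rec (motive := fun _ => α) (k (nat_lit 0)) (fun m _ => k (Nat.succ m)) n

theorem evN_eq {α : Type} (n : Nat) (k : Nat → α) : evN n k = k n := by
  cases n <;> rfl

/-- Test of a bit. -/
def tb (x n : Nat) : Bool := Nat.beq (Nat.land (Nat.shiftRight x n) (nat_lit 1)) (nat_lit 1)

theorem tb_sound {x n : ℕ} (h : tb x n = true) : x.testBit n = true := by
  have h1 : (x >>> n) &&& 1 = 1 := Nat.eq_of_beq_eq_true h
  rw [Nat.testBit, Nat.and_comm, h1]
  rfl

/-- Inclusion of masks. -/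
def sub (a b : Nat) : Bool := Nat.beq (Nat.land a b) a

theorem sub_sound {a b : ℕ} (h : sub a b = true) {n : ℕ} (hn : a.testBit n = true) : b.testBit n = true := by
  have h1 : a &&& b = a := Nat.eq_of_beq_eq_true h
  rw [← h1, Nat.testBit_and, Bool.and_eq_true] at hn
  exact hn.2

/-- One bit. -/
def b1 (n : Nat) : Nat := Nat.pow (nat_lit 2) n

theorem b1_iff {n m : ℕ} : (b1 n).testBit m = true ↔ n = m := by
  show (2 ^ n).testBit m = true ↔ n = m
  rw [Nat.testBit_two_pow, decide_eq_true_iff]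

/-- The sources of the inclusions into `u`. -/
def col (M u : Nat) : Nat :=
  Nat.mod (Nat.shiftRight M (Nat.mul u (nat_lit 64))) (nat_lit 18446744073709551616)

theorem col_sound {M u s : ℕ} (h : (col M u).testBit s = true) : s < 64 ∧ M.testBit (u * 64 + s) = true := by
  have h1 : ((M >>> (u * 64)) % 2 ^ 64).testBit s = true := h
  rw [Nat.testBit_mod_two_pow, Bool.and_eq_true, decide_eq_true_iff, Nat.testBit_shiftRight] at h1
  exact h1

/-- The union over a list. -/
noncomputable def un {β : Type} (p : β → Bool) (g : β → Nat) (L : List β) : Nat :=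
  List.rec (motive := fun _ => Nat) (nat_lit 0) (fun c _ ih => cond (p c) (Nat.lor (g c) ih) ih) L

theorem un_iff {β : Type} (p : β → Bool) (g : β → Nat) (L : List β) (n : ℕ) :
    (un p g L).testBit n = true ↔ ∃ c ∈ L, p c = true ∧ (g c).testBit n = true := by
  induction L with
  | nil =>
    show (0 : ℕ).testBit n = true ↔ _
    simp
  | cons c L ih =>
    have e : un p g (c :: L) = cond (p c) ((g c) ||| un p g L) (un p g L) := rfl
    rw [e]
    cases hp : p c
    · rw [cond_false, ih]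
      constructor
      · rintro ⟨d, hd, h⟩
        exact ⟨d, List.mem_cons_of_mem _ hd, h⟩
      · rintro ⟨d, hd, h1, h2⟩
        rcases List.mem_cons.1 hd with rfl | hd
        · rw [hp] at h1; exact absurd h1 (by decide)
        · exact ⟨d, hd, h1, h2⟩
    · rw [cond_true, Nat.testBit_or, Bool.or_eq_true, ih]
      constructor
      · rintro (h | ⟨d, hd, h⟩)
        · exact ⟨c, List.mem_cons_self, hp, h⟩
        · exact ⟨d, List.mem_cons_of_mem _ hd, h⟩
      · rintro ⟨d, hd, h1, h2⟩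
        rcases List.mem_cons.1 hd with rfl | hd
        · exact Or.inl h2
        · exact Or.inr ⟨d, hd, h1, h2⟩

/-- Build a list of evaluated numbers. -/
noncomputable def bl {α β : Type} (p : β → Bool) (g : β → Nat) (L : List β) (k : List Nat → α) : α :=
  List.rec (motive := fun _ => (List Nat → α) → α) (fun k => k [])
    (fun f _ ih k => cond (p f) (evN (g f) fun c => ih fun L => k (c :: L)) (ih k)) L k

theorem bl_eq {α β : Type} (p : β → Bool) (g : β → Nat) (L : List β) (k : List Nat → α) :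
    bl p g L k = k ((L.filter p).map g) := by
  induction L generalizing k with
  | nil => rfl
  | cons f L ih =>
    have e : bl p g (f :: L) k = cond (p f) (evN (g f) fun c => bl p g L fun L => k (c :: L)) (bl p g L k) := rfl
    rw [e, evN_eq, ih, ih]
    cases hp : p f
    · rw [cond_false, List.filter_cons_of_neg (by rw [hp]; decide)]
    · rw [cond_true, List.filter_cons_of_pos hp, List.map_cons]

/-- All numbers from 2 to `m - 1`. -/
noncomputable def al (f : Nat → Bool) (m : Nat) : Bool :=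
  Nat.rec (motive := fun _ => Bool) true (fun l ih => cond (cond (Nat.ble l (nat_lit 1)) true (f l)) ih false) m

theorem al_sound {f : ℕ → Bool} {m : ℕ} (h : al f m = true) {l : ℕ} (h1 : 2 ≤ l) (h2 : l < m) : f l = true := by
  induction m with
  | zero => omega
  | succ m ih =>
    have e : al f (m + 1) = cond (cond (Nat.ble m 1) true (f m)) (al f m) false := rfl
    rw [e] at h
    obtain ⟨hc, h⟩ := cond_and h
    by_cases hlm : l = m
    · subst hlm
      have h3 : Nat.ble l 1 = false := by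
        rw [Bool.eq_false_iff]
        intro h4
        have := Nat.le_of_ble_eq_true h4
        omega
      rw [h3, cond_false] at hc
      exact hc
    · exact ih h (by omega)

/-- The code of a source. -/
noncomputable def oc (s : Option Nat) : Nat := Option.rec (motive := fun _ => Nat) (nat_lit 0) (fun u => Nat.succ u) s

theorem oc_inj {s t : Option ℕ} (h : oc s = oc t) : s = t := by
  rcases s with _ | s <;> rcases t with _ | t
  · rfl
  · exact absurd h (Nat.succ_ne_zero t).symm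
  · exact absurd h (Nat.succ_ne_zero s)
  · exact congrArg some (Nat.succ.inj h)

/-- The key of a word. -/
def ky (i j : Fin 3) (l : Nat) : Nat :=
  Nat.add (Nat.mul (Nat.add (Nat.mul i.val (nat_lit 3)) j.val) (nat_lit 64)) l

/-- The key of a word, `0` for the trivial words. -/
def kz (i j : Fin 3) (l : Nat) : Nat := cond (Nat.beq l (nat_lit 0)) (nat_lit 0) (ky i j l)

theorem kz_zero {i j : Fin 3} {l : ℕ} (h : kz i j l = 0) : l = 0 := by
  unfold kz at h
  cases hl : Nat.beq l 0
  · rw [hl, cond_false] at h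
    have : (i.val * 3 + j.val) * 64 + l = 0 := h
    omega
  · exact Nat.eq_of_beq_eq_true hl

theorem kz_eq {i j i' j' : Fin 3} {l l' : ℕ} (h1 : 1 ≤ l) (h2 : l < 64) (h3 : l' < 64) (h : kz i' j' l' = ky i j l) :
    i' = i ∧ j' = j ∧ l' = l := by
  have hk : ky i j l = (i.val * 3 + j.val) * 64 + l := rfl
  have hi := i.isLt
  have hj := j.isLt
  have hi' := i'.isLt
  have hj' := j'.isLt
  unfold kz at h
  cases hl : Nat.beq l' 0
  · rw [hl, cond_false] at h
    have hk' : ky i' j' l' = (i'.val * 3 + j'.val) * 64 + l' := rfl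
    rw [hk, hk'] at h
    refine ⟨Fin.ext (by omega), Fin.ext (by omega), by omega⟩
  · rw [hl, cond_true, hk] at h
    have : (0 : ℕ) = (i.val * 3 + j.val) * 64 + l := h
    omega

/-- The code of a fact. -/
noncomputable def cd (f : Fct) : Nat :=
  Nat.add (Nat.mul (Nat.add (Nat.mul (kz f.i f.j f.l) (nat_lit 64)) (oc f.s)) (nat_lit 64)) f.t

/-- The fact can be coded. -/
noncomputable def fit (f : Fct) : Bool :=
  cond (Nat.ble f.l (nat_lit 63)) (cond (Nat.ble (oc f.s) (nat_lit 63)) (Nat.ble f.t (nat_lit 63)) false) false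

theorem fit_sound {f : Fct} (h : fit f = true) : f.l < 64 ∧ oc f.s < 64 ∧ f.t < 64 := by
  unfold fit at h
  obtain ⟨h1, h⟩ := cond_and h
  obtain ⟨h2, h3⟩ := cond_and h
  have h1 : f.l ≤ 63 := Nat.le_of_ble_eq_true h1
  have h2 : oc f.s ≤ 63 := Nat.le_of_ble_eq_true h2
  have h3 : f.t ≤ 63 := Nat.le_of_ble_eq_true h3
  omega

theorem cd_dec {f : Fct} (h : fit f = true) : cd f / 4096 = kz f.i f.j f.l ∧ cd f / 64 % 64 = oc f.s ∧ cd f % 64 = f.t := by
  obtain ⟨h1, h2, h3⟩ := fit_sound h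
  have e : cd f = (kz f.i f.j f.l * 64 + oc f.s) * 64 + f.t := rfl
  rw [e]
  omega

/-- The codes of the facts. -/
noncomputable def cds (fs : List Fct) : List Nat := (fs.filter fit).map cd

theorem mem_cds {fs : List Fct} {c : ℕ} (h : c ∈ cds fs) : ∃ f ∈ fs, c / 4096 = kz f.i f.j f.l ∧ c / 64 % 64 = oc f.s ∧
    c % 64 = f.t ∧ f.l < 64 := by
  unfold cds at h
  rw [List.mem_map] at h
  obtain ⟨f, hf, rfl⟩ := h
  rw [List.mem_filter] at hf
  obtain ⟨h1, h2, h3⟩ := cd_dec hf.2
  exact ⟨f, hf.1, h1, h2, h3, (fit_sound hf.2).1⟩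

/-- The matrix of the inclusions. -/
noncomputable def mx (C : List Nat) : Nat :=
  un (fun c => Nat.ble c (nat_lit 4095))
    (fun c => b1 (Nat.add (Nat.mul (Nat.mod c (nat_lit 64)) (nat_lit 64)) (Nat.div c (nat_lit 64)))) C

theorem col_mx {fs : List Fct} {s : Option ℕ} {u : ℕ} (h : (col (mx (cds fs)) u).testBit (oc s) = true) :
    Sys.has0 fs s u = true := by
  obtain ⟨h1, h2⟩ := col_sound h
  unfold mx at h2
  rw [un_iff] at h2
  obtain ⟨c, hc, h3, h4⟩ := h2
  have h3 : c ≤ 4095 := Nat.le_of_ble_eq_true h3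
  rw [b1_iff] at h4
  have h4 : c % 64 * 64 + c / 64 = u * 64 + oc s := h4
  obtain ⟨f, hf, g1, g2, g3, g4⟩ := mem_cds hc
  have h5 : kz f.i f.j f.l = 0 := by omega
  have h6 : f.l = 0 := kz_zero h5
  have h7 : f.s = s := oc_inj (by omega)
  have h8 : f.t = u := by omega
  unfold Sys.has0
  rw [List.any_eq_true]
  refine ⟨f, hf, ?_⟩
  rw [h6, h7, h8]
  simp

/-- The sources below the source with the code `c`. -/
def srm (M c : Nat) : Nat := cond (Nat.beq c (nat_lit 0)) (nat_lit 1) (Nat.lor (b1 c) (col M (Nat.sub c (nat_lit 1))))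

theorem srm_zero {M n : ℕ} (h : (srm M 0).testBit n = true) : n = 0 := by
  have h1 : (1 : ℕ).testBit n = true := h
  rcases n with _ | n
  · rfl
  · rw [Nat.testBit_succ] at h1
    simp at h1

theorem srm_succ {M c n : ℕ} (h : (srm M (c + 1)).testBit n = true) : c + 1 = n ∨ (col M c).testBit n = true := by
  have e : srm M (c + 1) = (b1 (c + 1)) ||| (col M c) := rfl
  rw [e, Nat.testBit_or, Bool.or_eq_true, b1_iff] at h
  exact h

/-- The sources of the facts with a key and a target in a set. -/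
noncomputable def acc (M k T : Nat) (C : List Nat) : Nat :=
  un (fun c => cond (Nat.beq (Nat.div c (nat_lit 4096)) k) (tb T (Nat.mod c (nat_lit 64))) false)
    (fun c => srm M (Nat.mod (Nat.div c (nat_lit 64)) (nat_lit 64))) C

/-- The condition on the sources in `Sys.reach`. -/
def smt (fs : List Fct) (f : Fct) (s : Option ℕ) : Bool :=
  match f.s with
  | none => s == none
  | some u => match s with
    | none => Sys.has0 fs none u
    | some v => Sys.le0 fs v u

theorem acc_sound {fs : List Fct} {k T : ℕ} {s : Option ℕ} (h : (acc (mx (cds fs)) k T (cds fs)).testBit (oc s) = true) :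
    ∃ f ∈ fs, kz f.i f.j f.l = k ∧ f.l < 64 ∧ T.testBit f.t = true ∧ smt fs f s = true := by
  unfold acc at h
  rw [un_iff] at h
  obtain ⟨c, hc, h1, h2⟩ := h
  obtain ⟨f, hf, g1, g2, g3, g4⟩ := mem_cds hc
  obtain ⟨h3, h1'⟩ := cond_and h1
  have h4 : c / 4096 = k := Nat.eq_of_beq_eq_true h3
  have h5 : T.testBit (c % 64) = true := tb_sound h1'
  have h6 : (srm (mx (cds fs)) (c / 64 % 64)).testBit (oc s) = true := h2
  rw [g2] at h6
  refine ⟨f, hf, by rw [← g1, h4], g4, by rw [← g3]; exact h5, ?_⟩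
  unfold smt
  rcases hfs : f.s with _ | u
  · rw [hfs] at h6
    have h7 : s = none := oc_inj (srm_zero h6)
    subst h7
    rfl
  · rw [hfs] at h6
    rcases srm_succ (c := u) h6 with h7 | h7
    · have h8 : s = some u := oc_inj h7.symm
      subst h8
      show Sys.le0 fs u u = true
      unfold Sys.le0
      simp
    · have h8 := col_mx h7
      rcases s with _ | v
      · exact h8
      · show Sys.le0 fs v u = true
        unfold Sys.le0
        rw [h8, Bool.or_true]

/-- The sets contained in the set `E`. -/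
def lem (M E : Nat) : Nat := Nat.lor (b1 E) (Nat.shiftRight (col M E) (nat_lit 1))

theorem lem_sound {fs : List Fct} {E t : ℕ} (h : (lem (mx (cds fs)) E).testBit t = true) : Sys.le0 fs t E = true := by
  have e : lem (mx (cds fs)) E = b1 E ||| (col (mx (cds fs)) E >>> 1) := rfl
  rw [e, Nat.testBit_or, Bool.or_eq_true, b1_iff, Nat.testBit_shiftRight] at h
  unfold Sys.le0
  rcases h with h | h
  · rw [h]; simp
  · have h1 : (col (mx (cds fs)) E).testBit (oc (some t)) = true := by
      have e : oc (some t) = 1 + t := Nat.add_comm t 1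
      rw [e]
      exact h
    rw [col_mx h1, Bool.or_true]

theorem reach_of {fs : List Fct} {T : ℕ} {i j : Fin 3} {l : ℕ} (hl : 1 ≤ l) (hl' : l < 64) {s : Option ℕ}
    (h : (acc (mx (cds fs)) (ky i j l) T (cds fs)).testBit (oc s) = true) {P : ℕ → Prop}
    (hT : ∀ t, T.testBit t = true → ∃ u, P u ∧ Sys.le0 fs t u = true) : ∃ u, P u ∧ Sys.reach fs i j l s u = true := by
  obtain ⟨f, hf, h1, h2, h3, h4⟩ := acc_sound h
  obtain ⟨u, hu, h5⟩ := hT _ h3
  obtain ⟨e1, e2, e3⟩ := kz_eq hl hl' h2 h1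
  refine ⟨u, hu, ?_⟩
  unfold Sys.reach
  rw [List.any_eq_true]
  refine ⟨f, hf, ?_⟩
  simp only [Bool.and_eq_true, beq_iff_eq]
  exact ⟨e1, e2, e3, h4, h5⟩

/-- The sources of the inclusions, in at most three steps. -/
noncomputable def h2m (M a : Nat) (C : List Nat) : Nat := Nat.lor (col M a) (acc M (nat_lit 0) (lem M a) C)

theorem h2m_sound {fs : List Fct} {a : ℕ} {s : Option ℕ} (h : (h2m (mx (cds fs)) a (cds fs)).testBit (oc s) = true) :
    Sys.has2 fs s a = true := by
  have e : h2m (mx (cds fs)) a (cds fs) = col (mx (cds fs)) a ||| acc (mx (cds fs)) 0 (lem (mx (cds fs)) a) (cds fs) := rfl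
  rw [e, Nat.testBit_or, Bool.or_eq_true] at h
  unfold Sys.has2
  rw [Bool.or_eq_true]
  rcases h with h | h
  · exact Or.inl (col_mx h)
  · obtain ⟨f, hf, h1, h2, h3, h4⟩ := acc_sound h
    refine Or.inr ?_
    rw [List.any_eq_true]
    refine ⟨f, hf, ?_⟩
    simp only [Bool.and_eq_true, beq_iff_eq]
    exact ⟨kz_zero h1, h4, lem_sound h3⟩

/-- The states of a label. -/
noncomputable def tm (st : List (ℕ × Fin 3)) (i : Fin 3) : Nat := un (fun x => Nat.beq x.2.val i.val) (fun x => b1 x.1) st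

theorem tm_of {S : Sys} {i : Fin 3} {t : ℕ} (h : t ∈ S.tgt i) : (tm S.st i).testBit t = true := by
  unfold Sys.tgt at h
  rw [List.mem_filterMap] at h
  obtain ⟨x, hx, hh⟩ := h
  split_ifs at hh with hi
  unfold tm
  rw [un_iff]
  refine ⟨x, hx, ?_, b1_iff.2 (Option.some.inj hh)⟩
  show Nat.beq x.2.val i.val = true
  rw [hi]
  exact Nat.beq_refl _

/-- The sets contained in a state of a label. -/
noncomputable def tg (M : Nat) (st : List (ℕ × Fin 3)) (i : Fin 3) : Nat :=
  un (fun x => Nat.beq x.2.val i.val) (fun x => lem M x.1) st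

theorem tg_sound {S : Sys} {i : Fin 3} {t : ℕ} (h : (tg (mx (cds S.facts)) S.st i).testBit t = true) :
    ∃ u, u ∈ S.tgt i ∧ Sys.le0 S.facts t u = true := by
  unfold tg at h
  rw [un_iff] at h
  obtain ⟨x, hx, h1, h2⟩ := h
  refine ⟨x.1, ?_, lem_sound h2⟩
  have h3 : x.2 = i := Fin.ext (Nat.eq_of_beq_eq_true h1)
  unfold Sys.tgt
  exact List.mem_filterMap.2 ⟨x, hx, by rw [if_pos h3]⟩

/-- The mask of the sources from the mask of the states. -/
def sr (T : Nat) : Nat := Nat.lor (nat_lit 1) (Nat.shiftLeft T (nat_lit 1))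

theorem sr_of {S : Sys} {k : Fin 3} {s : Option ℕ} (h : s ∈ S.src k) : (sr (tm S.st k)).testBit (oc s) = true := by
  have e : sr (tm S.st k) = 1 ||| (tm S.st k <<< 1) := rfl
  rw [e, Nat.testBit_or, Bool.or_eq_true]
  unfold Sys.src at h
  rcases List.mem_cons.1 h with h | h
  · rw [h]
    exact Or.inl rfl
  · rw [List.mem_filterMap] at h
    obtain ⟨x, hx, hh⟩ := h
    split_ifs at hh with hi
    have h1 : s = some x.1 := (Option.some.inj hh).symm
    have h2 : x.1 ∈ S.tgt k := by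
      unfold Sys.tgt
      exact List.mem_filterMap.2 ⟨x, hx, by rw [if_pos hi]⟩
    refine Or.inr ?_
    rw [Nat.testBit_shiftLeft, h1, Bool.and_eq_true, decide_eq_true_iff]
    have e2 : oc (some x.1) = x.1 + 1 := rfl
    rw [e2, Nat.add_sub_cancel]
    exact ⟨by omega, tm_of h2⟩

/-- The code of a negativity fact. -/
noncomputable def nc (x : Fin 3 × Fin 3 × ℕ × ℕ) : Nat :=
  Nat.add (Nat.mul (kz x.1 x.2.1 x.2.2.1) (nat_lit 64)) x.2.2.2

/-- The fact can be coded. -/
noncomputable def nfit (x : Fin 3 × Fin 3 × ℕ × ℕ) : Bool :=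
  cond (Nat.ble x.2.2.1 (nat_lit 63)) (Nat.ble x.2.2.2 (nat_lit 63)) false

/-- The codes of the negativity facts. -/
noncomputable def ncs (L : List (Fin 3 × Fin 3 × ℕ × ℕ)) : List Nat := (L.filter nfit).map nc

theorem mem_ncs {L : List (Fin 3 × Fin 3 × ℕ × ℕ)} {c : ℕ} (h : c ∈ ncs L) : ∃ x ∈ L, c / 64 = kz x.1 x.2.1 x.2.2.1 ∧
    c % 64 = x.2.2.2 ∧ x.2.2.1 < 64 := by
  unfold ncs at h
  rw [List.mem_map] at h
  obtain ⟨x, hx, rfl⟩ := h
  rw [List.mem_filter] at hx
  obtain ⟨h0, h⟩ := hx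
  unfold nfit at h
  obtain ⟨h1, h3⟩ := cond_and h
  have h1 : x.2.2.1 ≤ 63 := Nat.le_of_ble_eq_true h1
  have h3 : x.2.2.2 ≤ 63 := Nat.le_of_ble_eq_true h3
  have e : nc x = kz x.1 x.2.1 x.2.2.1 * 64 + x.2.2.2 := rfl
  exact ⟨x, h0, by rw [e]; omega, by rw [e]; omega, by omega⟩

/-- The negative forms after a word. -/
noncomputable def nm (k : Nat) (N : List Nat) : Nat :=
  un (fun c => Nat.beq (Nat.div c (nat_lit 64)) k) (fun c => b1 (Nat.mod c (nat_lit 64))) N

theorem nm_sound {L : List (Fin 3 × Fin 3 × ℕ × ℕ)} {k t : ℕ} (h : (nm k (ncs L)).testBit t = true) :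
    ∃ x ∈ L, kz x.1 x.2.1 x.2.2.1 = k ∧ x.2.2.2 = t ∧ x.2.2.1 < 64 := by
  unfold nm at h
  rw [un_iff] at h
  obtain ⟨c, hc, h1, h2⟩ := h
  obtain ⟨x, hx, g1, g2, g3⟩ := mem_ncs hc
  have h1 : c / 64 = k := Nat.eq_of_beq_eq_true h1
  rw [b1_iff] at h2
  have h2 : c % 64 = t := h2
  exact ⟨x, hx, by rw [← g1, h1], by rw [← g2, h2], g3⟩

theorem isNeg0_of {S : Sys} {t : ℕ} (h : (nm 0 (ncs S.neg)).testBit t = true) : S.isNeg0 t = true := by
  obtain ⟨x, hx, h1, h2, h3⟩ := nm_sound h
  unfold Sys.isNeg0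
  rw [List.any_eq_true]
  refine ⟨x, hx, ?_⟩
  rw [kz_zero h1, h2]
  simp

theorem isNeg_of {S : Sys} {i j : Fin 3} {l t : ℕ} (hl : 1 ≤ l) (hl' : l < 64)
    (h : (nm (ky i j l) (ncs S.neg)).testBit t = true) : S.isNeg i j l t = true := by
  obtain ⟨x, hx, h1, h2, h3⟩ := nm_sound h
  obtain ⟨e1, e2, e3⟩ := kz_eq hl hl' h3 h1
  unfold Sys.isNeg
  rw [List.any_eq_true]
  refine ⟨x, hx, ?_⟩
  rw [e1, e2, e3, h2]
  simp

/-- The check of a vertex: `M` inclusions, `C` facts, `N` negativity facts, `n0` the forms which are negative at the base point, `T`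
the sets contained in the targets, `K` the states with the third label, `R` the sources. -/
noncomputable def okV (M : Nat) (C N : List Nat) (n0 : Nat) (i j : Fin 3) (T K R : Nat) (v : Vsp) : Bool :=
  Vsp.rec (motive := fun _ => Bool)
    (fun m E => cond (cond (Nat.ble (nat_lit 1) m) (Nat.ble m (nat_lit 63)) false)
      (cond (al (fun l => sub R (acc M (ky i j l) T C)) m)
        (cond (sub K (nm (ky i j m) N))
          (cond (tb n0 E) (tb (acc M (ky i j m) (lem M E) C) (nat_lit 0)) false) false) false) false)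
    (fun l0 v a b => cond (Nat.ble l0 (nat_lit 63))
      (cond (al (fun l => sub R (acc M (ky i j l) T C)) l0)
        (cond (sub R (h2m M a C)) (cond (sub R (h2m M b C)) (tb T v) false) false) false) false) v

theorem okW_of {S : Sys} {i j : Fin 3} {l : ℕ} (hl : 1 ≤ l) (hl' : l < 64)
    (h : sub (sr (tm S.st (Sys.third i j))) (acc (mx (cds S.facts)) (ky i j l) (tg (mx (cds S.facts)) S.st i) (cds S.facts)) =
      true) : S.okW i j l = true := by
  unfold Sys.okW
  rw [List.all_eq_true]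
  intro s hs
  obtain ⟨u, hu, h1⟩ := reach_of hl hl' (sub_sound h (sr_of hs)) (P := fun u => u ∈ S.tgt i) fun t ht => tg_sound ht
  rw [List.any_eq_true]
  exact ⟨u, hu, h1⟩

theorem okV_of {S : Sys} {i j : Fin 3}
    (h : okV (mx (cds S.facts)) (cds S.facts) (ncs S.neg) (nm 0 (ncs S.neg)) i j (tg (mx (cds S.facts)) S.st i)
      (tm S.st (Sys.third i j)) (sr (tm S.st (Sys.third i j))) (S.vx i j) = true) : S.okV i j = true := by
  unfold Sys.okV
  rcases hc : S.vx i j with ⟨m, E⟩ | ⟨l0, v, a, b⟩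
  · rw [hc] at h
    obtain ⟨h0, h⟩ := cond_and h
    obtain ⟨h01, h02⟩ := cond_and h0
    have h01 : 1 ≤ m := Nat.le_of_ble_eq_true h01
    have h02 : m ≤ 63 := Nat.le_of_ble_eq_true h02
    obtain ⟨h1, h⟩ := cond_and h
    obtain ⟨h2, h⟩ := cond_and h
    obtain ⟨h3, h4⟩ := cond_and h
    simp only [Bool.and_eq_true, List.all_eq_true, List.mem_range]
    refine ⟨fun l hl => ?_, fun t ht => isNeg_of h01 (by omega) (sub_sound h2 (tm_of ht)), isNeg0_of (tb_sound h3), ?_⟩
    · by_cases h5 : l < 2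
      · rw [Bool.or_eq_true]
        exact Or.inl (decide_eq_true h5)
      · rw [Bool.or_eq_true]
        exact Or.inr (okW_of (by omega) (by omega) (al_sound h1 (by omega) hl))
    · obtain ⟨u, hu, h5⟩ := reach_of (s := none) h01 (by omega) (tb_sound h4) (P := fun u => u = E)
        fun t ht => ⟨E, rfl, lem_sound ht⟩
      rw [← hu]
      exact h5
  · rw [hc] at h
    obtain ⟨h0, h⟩ := cond_and h
    have h0 : l0 ≤ 63 := Nat.le_of_ble_eq_true h0
    obtain ⟨h1, h⟩ := cond_and h
    obtain ⟨h2, h⟩ := cond_and h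
    obtain ⟨h3, h4⟩ := cond_and h
    simp only [Bool.and_eq_true, List.all_eq_true, List.mem_range, List.any_eq_true]
    refine ⟨fun l hl => ?_, fun s hs => ⟨h2m_sound (sub_sound h2 (sr_of hs)), h2m_sound (sub_sound h3 (sr_of hs))⟩,
      tg_sound (tb_sound h4)⟩
    by_cases h5 : l < 2
    · rw [Bool.or_eq_true]
      exact Or.inl (decide_eq_true h5)
    · rw [Bool.or_eq_true]
      exact Or.inr (okW_of (by omega) (by omega) (al_sound h1 (by omega) hl))

/-- The check with the masks. -/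
noncomputable def okM (S : Sys) (M : Nat) (C N : List Nat) (n0 T0 T1 T2 K0 K1 K2 R0 R1 R2 : Nat) : Bool :=
  cond (okV M C N n0 0 1 T0 K2 R2 (S.vx 0 1))
  (cond (okV M C N n0 0 2 T0 K1 R1 (S.vx 0 2))
  (cond (okV M C N n0 1 0 T1 K2 R2 (S.vx 1 0))
  (cond (okV M C N n0 1 2 T1 K0 R0 (S.vx 1 2))
  (cond (okV M C N n0 2 0 T2 K1 R1 (S.vx 2 0))
  (cond (okV M C N n0 2 1 T2 K0 R0 (S.vx 2 1))
  (cond (tb (acc M (ky 0 1 (nat_lit 1)) T0 C) (nat_lit 0))
  (cond (tb (acc M (ky 1 2 (nat_lit 1)) T1 C) (nat_lit 0))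
  (cond (tb (acc M (ky 2 0 (nat_lit 1)) T2 C) (nat_lit 0))
  (cond (sub K0 n0) (cond (sub K1 n0) (sub K2 n0) false) false) false) false) false) false) false) false) false) false) false

end SQ

open SQ

/-- The fast check of a system. -/
noncomputable def Sys.okQ (S : Sys) : Bool :=
  bl fit cd S.facts fun C => bl nfit nc S.neg fun N => evN (mx C) fun M => evN (nm (nat_lit 0) N) fun n0 =>
  evN (tg M S.st 0) fun T0 => evN (tg M S.st 1) fun T1 => evN (tg M S.st 2) fun T2 =>
  evN (tm S.st 0) fun K0 => evN (tm S.st 1) fun K1 => evN (tm S.st 2) fun K2 =>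
  evN (sr K0) fun R0 => evN (sr K1) fun R1 => evN (sr K2) fun R2 => okM S M C N n0 T0 T1 T2 K0 K1 K2 R0 R1 R2

/-- A system which passes the fast check is correct. -/
theorem Sys.ok_of {S : Sys} (h : S.okQ = true) : S.ok = true := by
  unfold Sys.okQ at h
  simp only [bl_eq, evN_eq] at h
  change okM S (mx (cds S.facts)) (cds S.facts) (ncs S.neg) (nm 0 (ncs S.neg)) (tg (mx (cds S.facts)) S.st 0)
    (tg (mx (cds S.facts)) S.st 1) (tg (mx (cds S.facts)) S.st 2) (tm S.st 0) (tm S.st 1) (tm S.st 2)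
    (sr (tm S.st 0)) (sr (tm S.st 1)) (sr (tm S.st 2)) = true at h
  obtain ⟨h1, h⟩ := cond_and h
  obtain ⟨h2, h⟩ := cond_and h
  obtain ⟨h3, h⟩ := cond_and h
  obtain ⟨h4, h⟩ := cond_and h
  obtain ⟨h5, h⟩ := cond_and h
  obtain ⟨h6, h⟩ := cond_and h
  obtain ⟨h7, h⟩ := cond_and h
  obtain ⟨h8, h⟩ := cond_and h
  obtain ⟨h9, h⟩ := cond_and h
  obtain ⟨ha, h⟩ := cond_and h
  obtain ⟨hb, hc⟩ := cond_and h
  have hr : ∀ i j : Fin 3, tb (acc (mx (cds S.facts)) (ky i j 1) (tg (mx (cds S.facts)) S.st i) (cds S.facts)) 0 = true →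
      ((S.tgt i).any fun t => Sys.reach S.facts i j 1 none t) = true := by
    intro i j hh
    obtain ⟨u, hu, h10⟩ := reach_of (s := none) le_rfl (by omega) (tb_sound hh) (P := fun u => u ∈ S.tgt i)
      fun t ht => tg_sound ht
    rw [List.any_eq_true]
    exact ⟨u, hu, h10⟩
  unfold Sys.ok
  simp only [Bool.and_eq_true]
  refine ⟨⟨okV_of h1, okV_of h2, okV_of h3, okV_of h4, okV_of h5, okV_of h6⟩, ⟨hr 0 1 h7, hr 1 2 h8, hr 2 0 h9⟩, ?_⟩
  rw [List.all_eq_true]
  intro x hx
  have hm : ∀ i : Fin 3, x.2 = i → x.1 ∈ S.tgt i := by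
    intro i hi
    unfold Sys.tgt
    exact List.mem_filterMap.2 ⟨x, hx, by rw [if_pos hi]⟩
  have h3 : x.2 = 0 ∨ x.2 = 1 ∨ x.2 = 2 := by
    have : ∀ i : Fin 3, i = 0 ∨ i = 1 ∨ i = 2 := by decide
    exact this _
  rcases h3 with h3 | h3 | h3
  · exact isNeg0_of (sub_sound ha (tm_of (hm _ h3)))
  · exact isNeg0_of (sub_sound hb (tm_of (hm _ h3)))
  · exact isNeg0_of (sub_sound hc (tm_of (hm _ h3)))

end Pool.Agent.Work.MP_88b7aa_gt.PQ
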