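import Pool.Agent.Work.MP_88b7aa_gt.PQ.Col4
import Pool.Agent.Work.MP_88b7aa_gt.Cb.Fin

/-!
# The union of the classes, the final theorem
-/

namespace Pool.Agent.Work.MP_88b7aa_gt.PQ

open Pool.Agent.Work.MP_88b7aa_gt.CH
open ComplexConjugate Complex Matrix

def Side.memb : Side → ℕ → Bool
  | .ex m, n => Nat.beq m n
  | .iv lo hi, n => Nat.ble lo n && (Nat.beq hi 0 || Nat.ble n hi)

def Side.small : Side → Bool
  | .ex m => Nat.ble m 20
  | .iv _ hi => Nat.ble hi 20

theorem Side.memb_mem {S : Side} (hs : S.small = true) {n : ℕ} (h : S.memb (min n 21) = true) : S.mem n := by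
  rcases S with m | ⟨lo, hi⟩
  · unfold Side.small at hs
    unfold Side.memb at h
    rw [Nat.ble_eq] at hs
    have h' := Nat.eq_of_beq_eq_true h
    show n = m
    omega
  · unfold Side.small at hs
    unfold Side.memb at h
    rw [Nat.ble_eq] at hs
    simp only [Bool.and_eq_true, Bool.or_eq_true, Nat.ble_eq] at h
    show lo ≤ n ∧ (hi = 0 ∨ n ≤ hi)
    refine ⟨by omega, ?_⟩
    rcases h.2 with h2 | h2
    · exact Or.inl (Nat.eq_of_beq_eq_true h2)
    · exact Or.inr (by omega)

/-- A class. -/
structure C3 where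
  p : Side
  q : Side
  r : Side

def C3.K (c : C3) : ℕ → ℕ → ℕ → Prop := KS c.p c.q c.r

/-- All classes of the list are done. -/
def All (l : List C3) : Prop := ∀ c ∈ l, Done c.K

theorem All.nil : All [] := by
  intro c hc
  exact absurd hc (by simp)

theorem All.cons {SP SQ SR : Side} {l : List C3} (h : Done (KS SP SQ SR)) (t : All l) : All (⟨SP, SQ, SR⟩ :: l) := by
  intro c hc
  rcases List.mem_cons.mp hc with rfl | hc
  · exact h
  · exact t c hc

theorem All.append {l m : List C3} (h : All l) (t : All m) : All (l ++ m) := by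
  intro c hc
  rcases List.mem_append.mp hc with hc | hc
  · exact h c hc
  · exact t c hc

def C3.small (c : C3) : Bool := c.p.small && (c.q.small && c.r.small)

/-- One of the classes contains the triple. -/
def cov1 (l : List C3) (p q r : ℕ) : Bool := match l with
  | [] => false
  | c :: l => (c.p.memb p && (c.q.memb q && c.r.memb r)) || cov1 l p q r

/-- The classes whose first side contains `p`. -/
def selP (l : List C3) (p : ℕ) : List C3 := match l with
  | [] => []
  | c :: l => if c.p.memb p then c :: selP l p else selP l p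

def selQ (l : List C3) (q : ℕ) : List C3 := match l with
  | [] => []
  | c :: l => if c.q.memb q then c :: selQ l q else selQ l q

/-- All `n` with `lo ≤ n < lo + k`. -/
def rng (f : ℕ → Bool) : ℕ → ℕ → Bool
  | 0, _ => true
  | k + 1, lo => f lo && rng f k (lo + 1)

theorem rng_mem {f : ℕ → Bool} (k : ℕ) : ∀ lo, rng f k lo = true → ∀ n, lo ≤ n → n < lo + k → f n = true := by
  induction k with
  | zero => intro lo _ n h1 h2; omega
  | succ k ih =>
    intro lo h n h1 h2
    unfold rng at h
    rw [Bool.and_eq_true] at h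
    rcases Nat.eq_or_lt_of_le h1 with e | e
    · rw [← e]
      exact h.1
    · exact ih (lo + 1) h.2 n (by omega) (by omega)

def anyR (l : List C3) (r : ℕ) : Bool := match l with
  | [] => false
  | c :: l => c.r.memb r || anyR l r

/-- All triples `3 ≤ p ≤ q ≤ r ≤ 21`, `r ≥ 4`, are covered. -/
def cover (l : List C3) : Bool :=
  rng (fun p => let lp := selP l p
    rng (fun q => let lq := selQ lp q
      rng (fun r => anyR lq r) (22 - max q 4) (max q 4)) (22 - p) p) 19 3

theorem selP_mem {l : List C3} {p : ℕ} {c : C3} (h : c ∈ selP l p) : c ∈ l ∧ c.p.memb p = true := by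
  induction l with
  | nil => exact absurd h (by simp [selP])
  | cons d l ih =>
    unfold selP at h
    by_cases hd : d.p.memb p = true
    · rw [if_pos hd] at h
      rcases List.mem_cons.mp h with rfl | h
      · exact ⟨List.mem_cons_self, hd⟩
      · exact ⟨List.mem_cons_of_mem _ (ih h).1, (ih h).2⟩
    · rw [if_neg hd] at h
      exact ⟨List.mem_cons_of_mem _ (ih h).1, (ih h).2⟩

theorem selQ_mem {l : List C3} {p : ℕ} {c : C3} (h : c ∈ selQ l p) : c ∈ l ∧ c.q.memb p = true := by
  induction l with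
  | nil => exact absurd h (by simp [selQ])
  | cons d l ih =>
    unfold selQ at h
    by_cases hd : d.q.memb p = true
    · rw [if_pos hd] at h
      rcases List.mem_cons.mp h with rfl | h
      · exact ⟨List.mem_cons_self, hd⟩
      · exact ⟨List.mem_cons_of_mem _ (ih h).1, (ih h).2⟩
    · rw [if_neg hd] at h
      exact ⟨List.mem_cons_of_mem _ (ih h).1, (ih h).2⟩

theorem anyR_mem {l : List C3} {r : ℕ} (h : anyR l r = true) : ∃ c ∈ l, c.r.memb r = true := by
  induction l with
  | nil => exact absurd h (by simp [anyR])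
  | cons d l ih =>
    unfold anyR at h
    rw [Bool.or_eq_true] at h
    rcases h with h | h
    · exact ⟨d, List.mem_cons_self, h⟩
    · obtain ⟨c, hc, h⟩ := ih h
      exact ⟨c, List.mem_cons_of_mem _ hc, h⟩

def smalls : List C3 → Bool
  | [] => true
  | c :: l => c.small && smalls l

theorem smalls_mem {l : List C3} (h : smalls l = true) {c : C3} (hc : c ∈ l) : c.small = true := by
  induction l with
  | nil => exact absurd hc (by simp)
  | cons d l ih =>
    unfold smalls at h
    rw [Bool.and_eq_true] at h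
    rcases List.mem_cons.mp hc with rfl | hc
    · exact h.1
    · exact ih h.2 hc

theorem cover_mem {l : List C3} (hs : smalls l = true) (h : cover l = true) (p q r : ℕ) (hp : 3 ≤ p) (hpq : p ≤ q) (hqr : q ≤ r)
    (hr : 4 ≤ r) : ∃ c ∈ l, c.K p q r := by
  unfold cover at h
  have h1 : rng (fun q => rng (fun r => anyR (selQ (selP l (min p 21)) q) r) (22 - max q 4) (max q 4)) (22 - min p 21) (min p 21) = true :=
    rng_mem _ _ h (min p 21) (by omega) (by omega)
  have h2 : rng (fun r => anyR (selQ (selP l (min p 21)) (min q 21)) r) (22 - max (min q 21) 4) (max (min q 21) 4) = true :=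
    rng_mem _ _ h1 (min q 21) (by omega) (by omega)
  have h3 := rng_mem _ _ h2 (min r 21) (by omega) (by omega)
  obtain ⟨c, hc, h4⟩ := anyR_mem h3
  obtain ⟨hc, h5⟩ := selQ_mem hc
  obtain ⟨hc, h6⟩ := selP_mem hc
  have h7 := smalls_mem hs hc
  unfold C3.small at h7
  simp only [Bool.and_eq_true] at h7
  exact ⟨c, hc, Side.memb_mem h7.1 h6, Side.memb_mem h7.2.1 h5, Side.memb_mem h7.2.2 h4⟩

/-- Every triple is done. -/
theorem All.done {l : List C3} (hl : All l) (hs : smalls l = true) (h : cover l = true) : Done fun _ _ _ => True := by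
  intro p q r hp hpq hqr hr _
  obtain ⟨c, hc, hK⟩ := cover_mem hs h p q r hp hpq hqr hr
  exact hl c hc p q r hp hpq hqr hr hK

/-- The final theorem for the triples of a class that is done. -/
theorem Full {K : ℕ → ℕ → ℕ → Prop} (hD : Done K) (p q r : ℕ) (hp : 3 ≤ p) (hpq : p ≤ q) (hqr : q ≤ r) (hr : 4 ≤ r) (hK : K p q r) :
    ∃ θs : ℝ, 0 < θs ∧ θs < Real.pi ∧
      (∀ θ : ℝ, |θ| ≤ θs → ∃ n, IsTriangle p q r θ n) ∧
      ∀ (θ : ℝ) (n : Fin 3 → Fin 3 → ℂ), |θ| ≤ Real.pi → IsTriangle p q r θ n →
        ((¬ Elliptic (WA n) ∧ ¬ Elliptic (WB n)) ↔ |θ| ≤ θs) ∧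
        (DF (mcox p q r (by omega) (by omega) (by omega)) n ↔ |θ| ≤ θs) := by
  obtain ⟨us, hu1, hu2, hus⟩ := Cb.Itv p q r hp hpq hqr hr
  obtain ⟨θs, h0, h1, h2, h3, h4, _⟩ := Cb.Main p q r hp hpq hqr hr
  refine ⟨θs, h0, h1, h2, fun θ n hθ hT => ⟨h3 θ n hθ hT, fun h => (h3 θ n hθ hT).mp (h4 θ n hT h), fun h => ?_⟩⟩
  -- both inequalities hold
  have key : ∀ (θ : ℝ) (n : Fin 3 → Fin 3 → ℂ), IsTriangle p q r θ n → |θ| ≤ θs → 0 ≤ θ →
      DF (mcox p q r (by omega) (by omega) (by omega)) n := by
    intro θ n hT h hθ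
    have hθπ : |θ| ≤ Real.pi := h.trans h1.le
    obtain ⟨hA, hB⟩ := (h3 θ n hθπ hT).mpr h
    refine hD p q r hp hpq hqr hr hK θ n hθ (by rwa [abs_of_nonneg hθ] at hθπ) hT ?_ ?_
    · by_contra hc
      exact hA (EllA p q r θ n hT (not_le.mp hc))
    · by_contra hc
      exact hB (EllB p q r θ n hT (not_le.mp hc))
  rcases le_total 0 θ with h' | h'
  · exact key θ n hT h h'
  · exact DF_conj _ n (key (-θ) _ (tri_conj p q r θ n hT) (by rwa [abs_neg]) (by linarith))

end Pool.Agent.Work.MP_88b7aa_gt.PQ
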