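import Pool.Agent.Work.MP_88b7aa_gt.PQ.Col3

/-!
# Recursive columns

`Cr` is a column whose slabs may be subdivided in `a, b, c` at any height; the current top `P` is passed down.
-/

namespace Pool.Agent.Work.MP_88b7aa_gt.PQ

open Pool.Agent.Work.MP_88b7aa_gt.CH
open ComplexConjugate Complex Matrix

/-- Recursive columns. -/
inductive Cr (D E : Type)
  | top (T : Tr E)
  | slab (L : Lin) (S : Tr D) (rest : Cr D E)
  | node (j : Fin 4) (l r : Cr D E)

/-- Half of the current top, rounded downwards. -/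
def Lin.halfD (j : Fin 4) (s : Bool) (P : Lin) : Lin :=
  ⟨(P.half j s).v - (P.cf j - 2 * (P.cf j / 2)), (P.half j s).a1, (P.half j s).a2, (P.half j s).a3, (P.half j s).a4, 0⟩

def Cr.chk {D E : Type} (k : ℕ) (f : Bx4 → D → Bool) (g : Bx4 → E → Bool) : Cr D E → Lin → Lin → Lin → Lin → Bool
  | .top T, A, B, C, P => P.nng && T.chk k g ⟨A, B, C, P⟩
  | .slab L S rest, A, B, C, P => L.bot P && (S.chk k f ⟨A, B, C, L⟩ && rest.chk k f g A B C L.top)
  | .node j l r, A, B, C, P => Nat.blt j.val k &&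
      (l.chk k f g (A.half j false) (B.half j false) (C.half j false) (P.halfD j false) &&
      r.chk k f g (A.half j true) (B.half j true) (C.half j true) (P.halfD j true))

theorem Lin.halfD_val (P : Lin) (x : Fin 4 → ℝ) (j : Fin 4) (s : Bool) (hj : |x j| ≤ 1) :
    (P.halfD j s).val (hx j s x) ≤ P.val x := by
  have h1 : (P.halfD j s).val (hx j s x) = (P.half j s).val (hx j s x) - ((P.cf j - 2 * (P.cf j / 2) : Int) : ℝ) := by
    unfold Lin.val Lin.halfD
    push_cast
    ring
  have hr0 : 0 ≤ P.cf j - 2 * (P.cf j / 2) := by omega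
  have hρ0 : (0 : ℝ) ≤ ((P.cf j - 2 * (P.cf j / 2) : Int) : ℝ) := by exact_mod_cast hr0
  rw [h1, P.half_val]
  rw [abs_le] at hj
  nlinarith

theorem Cr.good {D E : Type} {K : ℕ → ℕ → ℕ → Prop} {k : ℕ} (hk : 0 < k) {f : Bx4 → D → Bool} {g : Bx4 → E → Bool}
    (hf : ∀ B d, f B d = true → Good K k B) (hg : ∀ B d, g B d = true → Outs K k B) (T : Cr D E) :
    ∀ A B C P : Lin, A.a1 = 0 → B.a1 = 0 → C.a1 = 0 → T.chk k f g A B C P = true → CGood K k A B C P := by
  induction T with
  | top T =>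
    intro A B C P hA hB hC h
    refine stk_good hk hf hg hA hB hC T [] P ?_
    unfold stk
    exact h
  | slab L S rest ih =>
    intro A B C P hA hB hC h
    unfold Cr.chk at h
    simp only [Bool.and_eq_true] at h
    obtain ⟨h1, h2, h3⟩ := h
    unfold Lin.bot at h1
    simp only [Bool.and_eq_true, decide_eq_true_eq] at h1
    obtain ⟨hpos, hP0, hbot⟩ := h1
    exact slab_good hk hA hB hC hpos hP0 hbot (Tr.good hf S _ h2) (ih A B C L.top hA hB hC h3)
  | node j l r ihl ihr =>
    intro A B C P hA hB hC h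
    unfold Cr.chk at h
    simp only [Bool.and_eq_true] at h
    obtain ⟨h1, h2, h3⟩ := h
    have g0 := ihl _ _ _ _ (Lin.half_a1 hA j false) (Lin.half_a1 hB j false) (Lin.half_a1 hC j false) h2
    have g1 := ihr _ _ _ _ (Lin.half_a1 hA j true) (Lin.half_a1 hB j true) (Lin.half_a1 hC j true) h3
    intro p q r hp hpq hqr hr hK x hx ha hb hc θ n hθ hθπ hT hfA hfB
    obtain ⟨s, hs⟩ := hx_cub hx (j := j) (by simpa using h1)
    have hle := Lin.halfD_val P x j s (hx.le j)
    have hle' : (P.halfD j s).val (PQ.hx j s x) / 281474976710656 ≤ θ / 6 :=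
      le_trans (div_le_div_of_nonneg_right hle (by norm_num)) hθ
    cases s
    · exact g0 p q r hp hpq hqr hr hK _ hs (Lin.half_holds j false (hx.le j) ha) (Lin.half_holds j false (hx.le j) hb)
        (Lin.half_holds j false (hx.le j) hc) θ n hle' hθπ hT hfA hfB
    · exact g1 p q r hp hpq hqr hr hK _ hs (Lin.half_holds j true (hx.le j) ha) (Lin.half_holds j true (hx.le j) hb)
        (Lin.half_holds j true (hx.le j) hc) θ n hle' hθπ hT hfA hfB

/-- A class is done. -/
theorem columnR {D E : Type} {cN : ℕ → Int} (hcN : CosN cN) {k : ℕ} (hk : 0 < k) {f : Bx4 → D → Bool} {g : Bx4 → E → Bool}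
    (SP SQ SR : Side) (hf : ∀ B d, f B d = true → Good (KS SP SQ SR) k B) (hg : ∀ B d, g B d = true → Outs (KS SP SQ SR) k B)
    (A B C : Lin) (T : Cr D E)
    (h : (SP.chk cN 3 k A && (SQ.chk cN 2 k B && (SR.chk cN 1 k C && T.chk k f g A B C ⟨0, 0, 0, 0, 0, 0⟩))) = true) :
    Done (KS SP SQ SR) := by
  simp only [Bool.and_eq_true] at h
  obtain ⟨h1, h2, h3, h4⟩ := h
  exact CGood.done hcN h1 h2 h3
    (Cr.good hk hf hg T A B C _ (Side.chk_a1 (by decide) h1) (Side.chk_a1 (by decide) h2) (Side.chk_a1 (by decide) h3) h4)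

end Pool.Agent.Work.MP_88b7aa_gt.PQ
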