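import Pool.Agent.Work.MP_88b7aa_gt.PQ.Eng2

/-!
# Composition with reflections at the level of functionals

`Fn.push j f` is `f ∘ I_j`, `FE.push j F` is `F ∘ I_j`; the reflections are moved to the rows and cancelled (`I_j I_j = 1`,
`row j ∘ I_j = row j`).  `FE.pushL w F` is `F ∘ (I_a I_b ...)` for the word `w = a, b, ...`.
-/

namespace Pool.Agent.Work.MP_88b7aa_gt.PQ

open Pool.Agent.Work.MP_88b7aa_gt.CH
open ComplexConjugate Complex Matrix

def Fn.push (j : Fin 3) : Fn → Fn
  | .row i => if i = j then .row i else .comp j (.row i)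
  | .crd i => .comp j (.crd i)
  | .add f g => .add (Fn.push j f) (Fn.push j g)
  | .sub f g => .sub (Fn.push j f) (Fn.push j g)
  | .smul c f => .smul c (Fn.push j f)
  | .comp i f => if i = j then f else .comp j (.comp i f)
  | .word i k l f => .comp j (.word i k l f)

def FE.push (j : Fin 3) : FE → FE
  | .gram => .gram
  | .mat d0 d1 d2 p01 q01 p02 q02 p12 q12 => .comp j (.mat d0 d1 d2 p01 q01 p02 q02 p12 q12)
  | .mats d0 d1 d2 e01 e02 e12 => .comp j (.mats d0 d1 d2 e01 e02 e12)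
  | .nsq f => .nsq (Fn.push j f)
  | .re2 f g => .re2 (Fn.push j f) (Fn.push j g)
  | .add F H => .add (FE.push j F) (FE.push j H)
  | .sub F H => .sub (FE.push j F) (FE.push j H)
  | .smul c F => .smul c (FE.push j F)
  | .comp i F => if i = j then F else .comp j (.comp i F)
  | .word i k l F => .comp j (.word i k l F)

def Fn.pushL : List (Fin 3) → Fn → Fn
  | [], f => f
  | a :: w, f => Fn.pushL w (Fn.push a f)

def FE.pushL : List (Fin 3) → FE → FE
  | [], F => F
  | a :: w, F => FE.pushL w (FE.push a F)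

theorem push_row_Sg {G : Matrix (Fin 3) (Fin 3) ℂ} (hG : IsGram G) (j : Fin 3) (x : Fin 3 → ℂ) :
    ∑ b, G j b * (Sg G j *ᵥ x) b = ∑ b, G j b * x b := by
  rw [G_Sg, hG.dg]
  ring

theorem push_v (e : Ev ℝ) (j : Fin 3) (f : Fn) (x : Fin 3 → ℂ) :
    (evF OR e (Fn.push j f)).v x = (evF OR e f).v (Sg (gm e.g) j *ᵥ x) := by
  induction f with
  | row i =>
    unfold Fn.push
    by_cases h : i = j
    · rw [if_pos h, h]
      show (e.g.row OR j).v x = (e.g.row OR j).v _
      rw [v_row, v_row, push_row_Sg (gm_gram e.g)]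
    · rw [if_neg h]
      exact v_comp _ _ _ _
  | crd i => exact v_comp _ _ _ _
  | add f g hf hg =>
    show (Rw.add OR (evF OR e (Fn.push j f)) (evF OR e (Fn.push j g))).v x = (Rw.add OR (evF OR e f) (evF OR e g)).v _
    rw [v_add, v_add, hf, hg]
  | sub f g hf hg =>
    show (Rw.sub OR (evF OR e (Fn.push j f)) (evF OR e (Fn.push j g))).v x = (Rw.sub OR (evF OR e f) (evF OR e g)).v _
    rw [v_sub, v_sub, hf, hg]
  | smul c f hf =>
    show (Rw.smul OR (evS OR e c) (evF OR e (Fn.push j f))).v x = (Rw.smul OR (evS OR e c) (evF OR e f)).v _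
    rw [v_smul, v_smul, hf]
  | comp i f hf =>
    unfold Fn.push
    by_cases h : i = j
    · rw [if_pos h, h]
      show (evF OR e f).v x = (Rw.comp OR e.g j (evF OR e f)).v _
      rw [v_comp, Sg_sq _ (gm_gram e.g)]
    · rw [if_neg h]
      exact v_comp _ _ _ _
  | word i k l f hf => exact v_comp _ _ _ _

theorem push_qf (e : Ev ℝ) (j : Fin 3) (F : FE) (x : Fin 3 → ℂ) :
    qf (hm (evQ OR e (FE.push j F))) x = qf (hm (evQ OR e F)) (Sg (gm e.g) j *ᵥ x) := by
  induction F with
  | gram =>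
    show qf (hm (H9.gram OR e.g)) x = qf (hm (H9.gram OR e.g)) _
    rw [hm_gram, qf_gram_Sg _ (gm_gram e.g)]
  | mat => exact comp_qf _ _ _ _
  | mats => exact comp_qf _ _ _ _
  | nsq f =>
    show qf (hm (H9.nsq OR (evF OR e (Fn.push j f)))) x = qf (hm (H9.nsq OR (evF OR e f))) _
    rw [qf_nsq, qf_nsq, push_v]
  | re2 f g =>
    show qf (hm (H9.re2 OR (evF OR e (Fn.push j f)) (evF OR e (Fn.push j g)))) x = qf (hm (H9.re2 OR (evF OR e f) (evF OR e g))) _
    rw [qf_re2, qf_re2, push_v, push_v]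
  | add F H hF hH =>
    show qf (hm ((evQ OR e (FE.push j F)).add OR (evQ OR e (FE.push j H)))) x = qf (hm ((evQ OR e F).add OR (evQ OR e H))) _
    rw [qf_hadd, qf_hadd, hF, hH]
  | sub F H hF hH =>
    show qf (hm ((evQ OR e (FE.push j F)).sub OR (evQ OR e (FE.push j H)))) x = qf (hm ((evQ OR e F).sub OR (evQ OR e H))) _
    rw [qf_hsub, qf_hsub, hF, hH]
  | smul c F hF =>
    show qf (hm ((evQ OR e (FE.push j F)).smul OR (evS OR e c).re)) x = qf (hm ((evQ OR e F).smul OR (evS OR e c).re)) _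
    rw [qf_hsmul, qf_hsmul, hF]
  | comp i F hF =>
    unfold FE.push
    by_cases h : i = j
    · rw [if_pos h, h]
      show qf (hm (evQ OR e F)) x = qf (hm ((evQ OR e F).comp OR e.g j)) _
      rw [comp_qf, Sg_sq _ (gm_gram e.g)]
    · rw [if_neg h]
      exact comp_qf _ _ _ _
  | word i k l F hF => exact comp_qf _ _ _ _

theorem pushL_v (e : Ev ℝ) (w : List (Fin 3)) : ∀ (f : Fn) (x : Fin 3 → ℂ),
    (evF OR e (Fn.pushL w f)).v x = (evF OR e f).v (actL (gm e.g) w x) := by
  induction w with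
  | nil => intro f x; rfl
  | cons a w ih =>
    intro f x
    show (evF OR e (Fn.pushL w (Fn.push a f))).v x = _
    rw [ih, push_v]
    rfl

theorem pushL_qf (e : Ev ℝ) (w : List (Fin 3)) : ∀ (F : FE) (x : Fin 3 → ℂ),
    qf (hm (evQ OR e (FE.pushL w F))) x = qf (hm (evQ OR e F)) (actL (gm e.g) w x) := by
  induction w with
  | nil => intro F x; rfl
  | cons a w ih =>
    intro F x
    show qf (hm (evQ OR e (FE.pushL w (FE.push a F)))) x = _
    rw [ih, push_qf]
    rfl

end Pool.Agent.Work.MP_88b7aa_gt.PQ
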