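import Pool.Agent.Work.MP_88b7aa_gt.PQ.Num
import Pool.Agent.Work.MP_88b7aa_gt.PQ.Push

/-!
# Programs: shared evaluation of the conditions of a cell

A program is a list of instructions; each creates a slot: a form of the list `fes`, or an earlier slot composed with a reflection.  The
slots are numbered from the last one backwards.  After the program some slots are packed; conditions refer to packed slots.
-/

noncomputable section

namespace Pool.Agent.Work.MP_88b7aa_gt.PQ

open Pool.Agent.Work.MP_88b7aa_gt.CH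
open ComplexConjugate Complex Matrix

/-- An arithmetic with packed matrices and tests; `fH`, `fP` force the evaluation. -/
structure Arp (R P : Type) where
  O : Ops R
  pos : R → Bool
  pk : H9 R → P
  tst : P → P → P → R → R → Bool
  fH : H9 R → (H9 R → Bool) → Bool
  fP : P → (P → Bool) → Bool

/-- Soundness. -/
structure ArpOK {R P : Type} (A : Arp R P) (Rel : ℝ → R → Prop) (RelP : H9 ℝ → P → Prop) : Prop where
  rel : OpsRel A.O Rel
  pos : ∀ {x : ℝ} {t : R}, Rel x t → A.pos t = true → 0 < x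
  pk : ∀ {Q : H9 ℝ} {t : H9 R}, RH Rel Q t → RelP Q (A.pk t)
  tst : ∀ {T X G : H9 ℝ} {t x g : P} {lam mu : ℝ} {l m : R}, RelP T t → RelP X x → RelP G g → Rel lam l → Rel mu m →
    A.tst t x g l m = true → ∀ v, 0 ≤ qf (hm T) v - lam * qf (hm X) v + mu * qf (hm G) v
  fH : ∀ (Q : H9 R) (k : H9 R → Bool), A.fH Q k = k Q
  fP : ∀ (Q : P) (k : P → Bool), A.fP Q k = k Q

/-- Instructions. -/
inductive Ins
  | form (t : ℕ)
  | comp (j : Fin 3) (m : ℕ)
  | word (i j : Fin 3) (l m : ℕ)
  /-- the form `t` composed with the word `w` at the level of functionals -/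
  | push (t : ℕ) (w : List (Fin 3))

/-- Slots: the matrix, the number of the form, the word. -/
structure Slot (R : Type) where
  q : H9 R
  t : ℕ
  w : List (Fin 3)

/-- Packed slots. -/
structure PSlot (P : Type) where
  p : P
  t : ℕ
  w : List (Fin 3)

section

variable {R : Type} (O : Ops R)

def dft (e : Ev R) (fes : List FE) : Slot R := ⟨frm O e fes 0, 0, []⟩

/-- One instruction. -/
def Ins.ex (e : Ev R) (fes : List FE) (L : List (Slot R)) : Ins → H9 R × ℕ × List (Fin 3)
  | .form t => (frm O e fes t, t, [])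
  | .comp j m => ((L.getD m (dft O e fes)).q.comp O e.g j, (L.getD m (dft O e fes)).t, (L.getD m (dft O e fes)).w ++ [j])
  | .word i j l m => ((L.getD m (dft O e fes)).q.word O e.g i j (evS O e (.par (cpar i j))).re (evS O e (wph i j)) l,
      (L.getD m (dft O e fes)).t, (L.getD m (dft O e fes)).w ++ wrd i j l)
  | .push t w => (evQ O e (FE.pushL w (fes.getD t .gram)), t, w)

/-- The slots, without forcing. -/
def slots (e : Ev R) (fes : List FE) : List Ins → List (Slot R) → List (Slot R)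
  | [], L => L
  | i :: is, L => slots e fes is (⟨(i.ex O e fes L).1, (i.ex O e fes L).2.1, (i.ex O e fes L).2.2⟩ :: L)

end

section

variable {R P : Type} (A : Arp R P)

/-- The slots, with forcing. -/
def run (e : Ev R) (fes : List FE) : List Ins → List (Slot R) → (List (Slot R) → Bool) → Bool
  | [], L, k => k L
  | i :: is, L, k => A.fH (i.ex A.O e fes L).1 fun q => run e fes is (⟨q, (i.ex A.O e fes L).2.1, (i.ex A.O e fes L).2.2⟩ :: L) k

theorem run_eq (hA : ∀ (Q : H9 R) (k : H9 R → Bool), A.fH Q k = k Q) (e : Ev R) (fes : List FE) (is : List Ins) :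
    ∀ (L : List (Slot R)) (k : List (Slot R) → Bool), run A e fes is L k = k (slots A.O e fes is L) := by
  induction is with
  | nil => intro L k; rfl
  | cons i is ih =>
    intro L k
    show A.fH (i.ex A.O e fes L).1 (fun q => run A e fes is (⟨q, (i.ex A.O e fes L).2.1, (i.ex A.O e fes L).2.2⟩ :: L) k) = _
    rw [hA, ih]
    rfl

def pdft (e : Ev R) (fes : List FE) : PSlot P := ⟨A.pk (frm A.O e fes 0), 0, []⟩

/-- The packed slots. -/
def pslots (e : Ev R) (fes : List FE) (L : List (Slot R)) (pks : List ℕ) : List (PSlot P) :=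
  pks.map fun m => ⟨A.pk (L.getD m (dft A.O e fes)).q, (L.getD m (dft A.O e fes)).t, (L.getD m (dft A.O e fes)).w⟩

def packs (e : Ev R) (fes : List FE) (L : List (Slot R)) : List ℕ → (List (PSlot P) → Bool) → Bool
  | [], k => k []
  | m :: ms, k => A.fP (A.pk (L.getD m (dft A.O e fes)).q) fun p =>
      packs e fes L ms fun l => k (⟨p, (L.getD m (dft A.O e fes)).t, (L.getD m (dft A.O e fes)).w⟩ :: l)

theorem packs_eq (hA : ∀ (Q : P) (k : P → Bool), A.fP Q k = k Q) (e : Ev R) (fes : List FE) (L : List (Slot R)) (pks : List ℕ) :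
    ∀ k : List (PSlot P) → Bool, packs A e fes L pks k = k (pslots A e fes L pks) := by
  induction pks with
  | nil => intro k; rfl
  | cons m ms ih =>
    intro k
    show A.fP (A.pk (L.getD m (dft A.O e fes)).q) _ = _
    rw [hA, ih]
    rfl

/-- A condition: the fact, the length of the first part of the word, the packed slots of target and source, the multipliers. -/
structure CN where
  i : Fin 3
  j : Fin 3
  l : ℕ
  l1 : ℕ
  s : ℕ
  t : ℕ
  si : ℕ
  ti : ℕ
  lam : Sc
  mu : Sc

def CN.fct (f : CN) : Fct := ⟨f.i, f.j, f.l, some f.s, f.t⟩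

def CN.chk (e : Ev R) (L : List (PSlot P)) (d : PSlot P) (pg : P) (f : CN) : Bool :=
  ((L.getD f.ti d).t == f.t && ((L.getD f.ti d).w == (wrd f.i f.j f.l).take f.l1 && ((L.getD f.si d).t == f.s &&
    (L.getD f.si d).w == ((wrd f.i f.j f.l).drop f.l1).reverse))) &&
  (A.pos (evS A.O e f.lam).re && (A.pos (evS A.O e f.mu).re &&
    A.tst (L.getD f.ti d).p (L.getD f.si d).p pg (evS A.O e f.lam).re (evS A.O e f.mu).re))

/-- A point condition: the word, the form, the slot of the form composed with the word; `sg` = positive. -/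
structure PN where
  i : Fin 3
  j : Fin 3
  l : ℕ
  t : ℕ
  ti : ℕ

def PN.fct (f : PN) : Fct := ⟨f.i, f.j, f.l, none, f.t⟩
def PN.neg (f : PN) : Fin 3 × Fin 3 × ℕ × ℕ := (f.i, f.j, f.l, f.t)

def PN.dsc (L : List (Slot R)) (d : Slot R) (f : PN) : Bool :=
  (L.getD f.ti d).t == f.t && (L.getD f.ti d).w == wrd f.i f.j f.l

def PN.chkP (L : List (Slot R)) (d : Slot R) (o : Rw R) (f : PN) : Bool :=
  f.dsc L d && A.pos (val A.O (L.getD f.ti d).q o)

def PN.chkN (L : List (Slot R)) (d : Slot R) (o : Rw R) (f : PN) : Bool :=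
  f.dsc L d && A.pos (A.O.neg (val A.O (L.getD f.ti d).q o))

end

/-- The data of a cell: forms, base point, program, slots to be packed, conditions, positive and negative point conditions. -/
structure CD where
  fes : List FE
  o : Sc × Sc × Sc
  is : List Ins
  pks : List ℕ
  cn : List CN
  pp : List PN
  pn : List PN

def CD.pt {R : Type} (O : Ops R) (e : Ev R) (c : CD) : Rw R := ⟨evS O e c.o.1, evS O e c.o.2.1, evS O e c.o.2.2⟩

/-- The check of a cell. -/
def CD.chk {R P : Type} (A : Arp R P) (e : Ev R) (c : CD) : Bool :=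
  run A e c.fes c.is [] fun L => packs A e c.fes L c.pks fun Ps => A.fP (A.pk (H9.gram A.O e.g)) fun pg =>
    (c.cn.all fun f => f.chk A e Ps (pdft A e c.fes) pg) &&
    ((c.pp.all fun f => f.chkP A L (dft A.O e c.fes) (c.pt A.O e)) &&
    ((c.pn.all fun f => f.chkN A L (dft A.O e c.fes) (c.pt A.O e)) &&
    A.pos (A.O.neg (val A.O (H9.gram A.O e.g) (c.pt A.O e)))))

/-- The meaning of a slot over the real numbers. -/
def Slot.Ok (e : Ev ℝ) (fes : List FE) (s : Slot ℝ) : Prop :=
  ∀ x, qf (hm s.q) x = qf (hm (frm OR e fes s.t)) (actL (gm e.g) s.w x)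

/-- Related slots. -/
structure RS {R : Type} (Rel : ℝ → R → Prop) (e : Ev ℝ) (fes : List FE) (s : Slot ℝ) (s' : Slot R) : Prop where
  q : RH Rel s.q s'.q
  t : s.t = s'.t
  w : s.w = s'.w
  ok : s.Ok e fes

theorem getD_rel {α β : Type*} {r : α → β → Prop} {l : List α} {l' : List β} (h : List.Forall₂ r l l') {d : α} {d' : β}
    (hd : r d d') : ∀ n, r (l.getD n d) (l'.getD n d') := by
  induction h with
  | nil => intro n; simpa using hd
  | cons hx _ ih =>
    intro n
    cases n with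
    | zero => simpa using hx
    | succ n => simpa using ih n

theorem actL_concat (G : Matrix (Fin 3) (Fin 3) ℂ) (w : List (Fin 3)) (j : Fin 3) (x : Fin 3 → ℂ) :
    actL G (w ++ [j]) x = actL G w (Sg G j *ᵥ x) := by
  rw [actL_append]
  rfl

section

variable {R P : Type} {A : Arp R P} {Rel : ℝ → R → Prop} {RelP : H9 ℝ → P → Prop}

theorem RS_dft (hA : ArpOK A Rel RelP) {e : Ev ℝ} {e' : Ev R} (he : REv Rel e e') (fes : List FE) :
    RS Rel e fes (dft OR e fes) (dft A.O e' fes) :=
  ⟨RH.evQ hA.rel he _, rfl, rfl, fun _ => rfl⟩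

theorem RS_slots (hA : ArpOK A Rel RelP) {e : Ev ℝ} {e' : Ev R} (he : REv Rel e e') (ho : EvOK e) (fes : List FE)
    (is : List Ins) :
    ∀ {L : List (Slot ℝ)} {L' : List (Slot R)}, List.Forall₂ (RS Rel e fes) L L' →
      List.Forall₂ (RS Rel e fes) (slots OR e fes is L) (slots A.O e' fes is L') := by
  induction is with
  | nil => intro L L' h; exact h
  | cons i is ih =>
    intro L L' h
    refine ih (List.Forall₂.cons ?_ h)
    rcases i with t | ⟨j, m⟩ | ⟨i, j, l, m⟩ | ⟨t, w⟩
    · exact ⟨RH.evQ hA.rel he _, rfl, rfl, fun _ => rfl⟩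
    · have hs := getD_rel h (RS_dft hA he fes) m
      refine ⟨RH.comp hA.rel he.g j hs.q, hs.t, ?_, ?_⟩
      · show (L.getD m (dft OR e fes)).w ++ [j] = (L'.getD m (dft A.O e' fes)).w ++ [j]
        rw [hs.w]
      · intro x
        show qf (hm ((L.getD m (dft OR e fes)).q.comp OR e.g j)) x =
          qf (hm (frm OR e fes (L.getD m (dft OR e fes)).t)) (actL (gm e.g) ((L.getD m (dft OR e fes)).w ++ [j]) x)
        rw [comp_qf, hs.ok, actL_concat]
    · have hs := getD_rel h (RS_dft hA he fes) m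
      refine ⟨RH.word hA.rel he.g i j (RC.evS hA.rel he _).re (RC.evS hA.rel he _) l hs.q, hs.t, ?_, ?_⟩
      · show (L.getD m (dft OR e fes)).w ++ wrd i j l = (L'.getD m (dft A.O e' fes)).w ++ wrd i j l
        rw [hs.w]
      · intro x
        show qf (hm ((L.getD m (dft OR e fes)).q.word OR e.g i j (evS OR e (.par (cpar i j))).re (evS OR e (wph i j)) l)) x =
          qf (hm (frm OR e fes (L.getD m (dft OR e fes)).t)) (actL (gm e.g) ((L.getD m (dft OR e fes)).w ++ wrd i j l) x)
        rw [word_ev ho, hs.ok, actL_append, actL_wrd]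
    · exact ⟨RH.evQ hA.rel he _, rfl, rfl, fun x => pushL_qf e w _ x⟩

/-- Related packed slots. -/
structure RPS (RelP : H9 ℝ → P → Prop) (e : Ev ℝ) (fes : List FE) (s : Slot ℝ) (s' : PSlot P) : Prop where
  q : RelP s.q s'.p
  t : s.t = s'.t
  w : s.w = s'.w
  ok : s.Ok e fes

theorem RPS_pslots (hA : ArpOK A Rel RelP) {e : Ev ℝ} {e' : Ev R} (he : REv Rel e e') (fes : List FE) {L : List (Slot ℝ)}
    {L' : List (Slot R)} (hL : List.Forall₂ (RS Rel e fes) L L') (pks : List ℕ) :
    List.Forall₂ (RPS RelP e fes) (pks.map fun m => L.getD m (dft OR e fes)) (pslots A e' fes L' pks) := by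
  induction pks with
  | nil => exact List.Forall₂.nil
  | cons m ms ih =>
    have hs := getD_rel hL (RS_dft hA he fes) m
    exact List.Forall₂.cons ⟨hA.pk hs.q, hs.t, hs.w, hs.ok⟩ ih

/-- Soundness of a condition. -/
theorem CN.sound (hA : ArpOK A Rel RelP) {e : Ev ℝ} {e' : Ev R} (he : REv Rel e e') (fes : List FE) {L : List (Slot ℝ)}
    {L' : List (PSlot P)} (hL : List.Forall₂ (RPS RelP e fes) L L') (o : Fin 3 → ℂ) (f : CN)
    (hc : f.chk A e' L' (pdft A e' fes) (A.pk (H9.gram A.O e'.g)) = true) :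
    f.fct.Holds (gm e.g) (fun t => hm (frm OR e fes t)) o := by
  obtain ⟨i, j, l, l1, s, t, si, ti, lam, mu⟩ := f
  unfold CN.chk at hc
  simp only [Bool.and_eq_true, beq_iff_eq] at hc
  obtain ⟨⟨h1, h2, h3, h4⟩, h5, h6, h7⟩ := hc
  have hd : RPS RelP e fes (dft OR e fes) (pdft A e' fes) := ⟨hA.pk (RH.evQ hA.rel he _), rfl, rfl, fun _ => rfl⟩
  have hT := getD_rel hL hd ti
  have hS := getD_rel hL hd si
  set T := L.getD ti (dft OR e fes) with hTd
  set X := L.getD si (dft OR e fes) with hXd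
  have rl := (RC.evS hA.rel he lam).re
  have rm := (RC.evS hA.rel he mu).re
  have hlam := hA.pos rl h5
  have hmu := hA.pos rm h6
  have hG := gm_gram e.g
  show Incl (gm e.g) (altS (gm e.g) i j l) (hm (frm OR e fes s)) (hm (frm OR e fes t))
  refine Inc.incl ⟨(evS OR e lam).re, (evS OR e mu).re, hlam.le, hmu.le, by linarith, fun x => ?_⟩
  have key := hA.tst hT.q hS.q (hA.pk (RH.gram hA.rel he.g)) rl rm h7 (actL (gm e.g) ((wrd i j l).drop l1) x)
  rw [hT.ok, hS.ok, hT.t, hT.w, hS.t, hS.w, h1, h2, h3, h4, hm_gram, ← actL_append, List.take_append_drop, actL_wrd,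
    actL_reverse _ hG, qf_gram_actL _ hG] at key
  exact key

theorem PN.val_eq {e : Ev ℝ} {fes : List FE} {s : Slot ℝ} (hs : s.Ok e fes) (v : Rw ℝ) :
    val OR s.q v = qf (hm (frm OR e fes s.t)) (actL (gm e.g) s.w v.vec) := by
  rw [val_vec, hs]

/-- Soundness of a positive point condition. -/
theorem PN.soundP (hA : ArpOK A Rel RelP) {e : Ev ℝ} {e' : Ev R} (he : REv Rel e e') (fes : List FE) {L : List (Slot ℝ)}
    {L' : List (Slot R)} (hL : List.Forall₂ (RS Rel e fes) L L') {o : Rw ℝ} {o' : Rw R} (ho : RRw Rel o o') (f : PN)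
    (hc : f.chkP A L' (dft A.O e' fes) o' = true) : f.fct.Holds (gm e.g) (fun t => hm (frm OR e fes t)) o.vec := by
  unfold PN.chkP PN.dsc at hc
  simp only [Bool.and_eq_true, beq_iff_eq] at hc
  obtain ⟨⟨h1, h2⟩, h3⟩ := hc
  have hT := getD_rel hL (RS_dft hA he fes) f.ti
  have h4 := hA.pos (Rval hA.rel hT.q ho) h3
  rw [PN.val_eq hT.ok, hT.t, hT.w, h1, h2, actL_wrd] at h4
  exact h4

theorem PN.soundN (hA : ArpOK A Rel RelP) {e : Ev ℝ} {e' : Ev R} (he : REv Rel e e') (fes : List FE) {L : List (Slot ℝ)}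
    {L' : List (Slot R)} (hL : List.Forall₂ (RS Rel e fes) L L') {o : Rw ℝ} {o' : Rw R} (ho : RRw Rel o o') (f : PN)
    (hc : f.chkN A L' (dft A.O e' fes) o' = true) : qf (hm (frm OR e fes f.t)) (altS (gm e.g) f.i f.j f.l *ᵥ o.vec) < 0 := by
  unfold PN.chkN PN.dsc at hc
  simp only [Bool.and_eq_true, beq_iff_eq] at hc
  obtain ⟨⟨h1, h2⟩, h3⟩ := hc
  have hT := getD_rel hL (RS_dft hA he fes) f.ti
  have h4 := hA.pos (hA.rel.neg (Rval hA.rel hT.q ho)) h3
  rw [PN.val_eq hT.ok, hT.t, hT.w, h1, h2, actL_wrd] at h4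
  linarith

/-- Soundness of the check of a cell. -/
theorem CD.sound (hA : ArpOK A Rel RelP) {e : Ev ℝ} {e' : Ev R} (he : REv Rel e e') (hk : EvOK e) (c : CD) (hc : c.chk A e' = true) :
    (∀ f ∈ c.cn, f.fct.Holds (gm e.g) (fun t => hm (frm OR e c.fes t)) (c.pt OR e).vec) ∧
    (∀ f ∈ c.pp, f.fct.Holds (gm e.g) (fun t => hm (frm OR e c.fes t)) (c.pt OR e).vec) ∧
    (∀ f ∈ c.pn, qf (hm (frm OR e c.fes f.t)) (altS (gm e.g) f.i f.j f.l *ᵥ (c.pt OR e).vec) < 0) ∧
    qf (gm e.g) (c.pt OR e).vec < 0 := by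
  unfold CD.chk at hc
  rw [run_eq A hA.fH, packs_eq A hA.fP, hA.fP] at hc
  simp only [Bool.and_eq_true, List.all_eq_true] at hc
  obtain ⟨h1, h2, h3, h4⟩ := hc
  have hL := RS_slots hA he hk c.fes c.is (List.Forall₂.nil (R := RS Rel e c.fes))
  have ho : RRw Rel (c.pt OR e) (c.pt A.O e') := ⟨RC.evS hA.rel he _, RC.evS hA.rel he _, RC.evS hA.rel he _⟩
  refine ⟨fun f hf => CN.sound hA he c.fes (RPS_pslots hA he c.fes hL c.pks) _ f (h1 f hf),
    fun f hf => PN.soundP hA he c.fes hL ho f (h2 f hf), fun f hf => PN.soundN hA he c.fes hL ho f (h3 f hf), ?_⟩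
  have h5 := hA.pos (hA.rel.neg (Rval hA.rel (RH.gram hA.rel he.g) ho)) h4
  rw [val_vec, hm_gram] at h5
  linarith

end

end Pool.Agent.Work.MP_88b7aa_gt.PQ
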