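import Pool.Agent.Work.MP_88b7aa_gt.PQ.Prog

/-!
# The check of a cell with few reductions

The descriptions of the slots (number of the form, word) do not depend on the data of the cell; they are checked once (`CD.stat`).
The check `CD.chkF` contains the numbers only.  All recursions are written with recursors.
-/

namespace Pool.Agent.Work.MP_88b7aa_gt.PQ

open Pool.Agent.Work.MP_88b7aa_gt.CH
open ComplexConjugate Complex Matrix

/-! ### Descriptions -/

/-- The description of a slot. -/
def Ins.dx (L : List (ℕ × List (Fin 3))) : Ins → ℕ × List (Fin 3)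
  | .form t => (t, [])
  | .comp j m => ((L.getD m (0, [])).1, (L.getD m (0, [])).2 ++ [j])
  | .word i j l m => ((L.getD m (0, [])).1, (L.getD m (0, [])).2 ++ wrd i j l)
  | .push t w => (t, w)

def dsl : List Ins → List (ℕ × List (Fin 3)) → List (ℕ × List (Fin 3))
  | [], L => L
  | i :: is, L => dsl is (i.dx L :: L)

def dpk (L : List (ℕ × List (Fin 3))) (pks : List ℕ) : List (ℕ × List (Fin 3)) := pks.map fun m => L.getD m (0, [])

def dsc1 (L : List (ℕ × List (Fin 3))) (m t : ℕ) (w : List (Fin 3)) : Bool := (L.getD m (0, [])).1 == t && (L.getD m (0, [])).2 == w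

/-- The description of a condition. -/
def dscC (L : List (ℕ × List (Fin 3))) (i j : Fin 3) (l l1 s t si ti : ℕ) : Bool :=
  dsc1 L ti t ((wrd i j l).take l1) && dsc1 L si s ((wrd i j l).drop l1).reverse

def CN.dsc (L : List (ℕ × List (Fin 3))) (f : CN) : Bool := dscC L f.i f.j f.l f.l1 f.s f.t f.si f.ti

def PN.dscS (L : List (ℕ × List (Fin 3))) (f : PN) : Bool := dsc1 L f.ti f.t (wrd f.i f.j f.l)

/-- The static part of the check. -/
def statC (is : List Ins) (pks : List ℕ) (c : List (ℕ × List (Fin 3)) → Bool) (pp pn : List PN) : Bool :=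
  c (dpk (dsl is []) pks) && (pp.all (PN.dscS (dsl is [])) && pn.all (PN.dscS (dsl is [])))

def CD.stat (c : CD) : Bool := statC c.is c.pks (fun L => c.cn.all (CN.dsc L)) c.pp c.pn

/-! ### Numbers -/

/-- `all` with few reductions. -/
noncomputable def allK {α : Type} (p : α → Bool) (L : List α) : Bool :=
  List.rec (motive := fun _ => Bool) true (fun a _ ih => cond (p a) ih false) L

theorem allK_eq {α : Type} (p : α → Bool) (L : List α) : allK p L = L.all p := by
  induction L with
  | nil => rfl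
  | cons a L ih =>
    show cond (p a) (allK p L) false = _
    rw [ih]
    rcases h : p a <;> simp [h]

section

variable {R : Type} (O : Ops R)

/-- A matrix is fetched once. -/
noncomputable def H9.ex {β : Type} (x : H9 R) (k : H9 R → β) : β :=
  H9.rec (motive := fun _ => β) (fun d0 d1 d2 e01 e02 e12 => k ⟨d0, d1, d2, e01, e02, e12⟩) x

theorem H9.ex_eq {β : Type} (x : H9 R) (k : H9 R → β) : x.ex k = k x := by
  cases x
  rfl

noncomputable def frmF (e : Ev R) (fes : List FE) (t : ℕ) : H9 R := evQ O e (gt .gram fes t)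

theorem frmF_eq (e : Ev R) (fes : List FE) (t : ℕ) : frmF O e fes t = frm O e fes t := by
  unfold frmF
  rw [gt_eq]
  rfl

/-- One instruction. -/
noncomputable def Ins.exF (e : Ev R) (fes : List FE) (d : H9 R) (L : List (H9 R)) (i : Ins) : H9 R :=
  Ins.rec (motive := fun _ => H9 R) (fun t => frmF O e fes t) (fun j m => (gt d L m).ex fun x => x.comp O e.g j)
    (fun i j l m => (gt d L m).ex fun x => x.word O e.g i j (evS O e (.par (cpar i j))).re (evS O e (wph i j)) l)
    (fun t w => evQ O e (FE.pushL w (gt .gram fes t))) i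

end

section

variable {R P : Type} (A : Arp R P)

/-- The slots, with forcing. -/
noncomputable def runF (e : Ev R) (fes : List FE) (d : H9 R) (is : List Ins) : List (H9 R) → (List (H9 R) → Bool) → Bool :=
  List.rec (motive := fun _ => List (H9 R) → (List (H9 R) → Bool) → Bool) (fun L k => k L)
    (fun i _ ih L k => A.fH (i.exF A.O e fes d L) fun q => ih (q :: L) k) is

noncomputable def packsF (d : H9 R) (L : List (H9 R)) (pks : List ℕ) : (List P → Bool) → Bool :=
  List.rec (motive := fun _ => (List P → Bool) → Bool) (fun k => k [])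
    (fun m _ ih k => A.fP (A.pk (gt d L m)) fun p => ih fun l => k (p :: l)) pks

noncomputable def CN.chkF (e : Ev R) (L : List P) (d : P) (pg : P) (f : CN) : Bool :=
  cond (A.pos (evS A.O e f.lam).re) (cond (A.pos (evS A.O e f.mu).re)
    (A.tst (gt d L f.ti) (gt d L f.si) pg (evS A.O e f.lam).re (evS A.O e f.mu).re) false) false

noncomputable def PN.chkPF (L : List (H9 R)) (d : H9 R) (o : Rw R) (f : PN) : Bool :=
  (gt d L f.ti).ex fun q => A.pos (val A.O q o)

noncomputable def PN.chkNF (L : List (H9 R)) (d : H9 R) (o : Rw R) (f : PN) : Bool :=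
  (gt d L f.ti).ex fun q => A.pos (A.O.neg (val A.O q o))

/-- The numeric part of the check of a cell. -/
noncomputable def CD.chkF (e : Ev R) (c : CD) : Bool :=
  runF A e c.fes (frmF A.O e c.fes 0) c.is [] fun L => packsF A (frmF A.O e c.fes 0) L c.pks fun Ps =>
    A.fP (A.pk (H9.gram A.O e.g)) fun pg =>
    cond (allK (CN.chkF A e Ps (A.pk (frmF A.O e c.fes 0)) pg) c.cn)
      (cond (allK (PN.chkPF A L (frmF A.O e c.fes 0) (c.pt A.O e)) c.pp)
        (cond (allK (PN.chkNF A L (frmF A.O e c.fes 0) (c.pt A.O e)) c.pn)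
          (A.pos (A.O.neg (val A.O (H9.gram A.O e.g) (c.pt A.O e)))) false) false) false

/-! ### Equivalence -/

theorem exF_eq (e : Ev R) (fes : List FE) (L : List (Slot R)) (i : Ins) :
    i.exF A.O e fes (frmF A.O e fes 0) (L.map Slot.q) = (i.ex A.O e fes L).1 := by
  have hd : frmF A.O e fes 0 = (dft A.O e fes).q := frmF_eq _ _ _ _
  rcases i with t | ⟨j, m⟩ | ⟨i, j, l, m⟩ | ⟨t, w⟩
  · exact frmF_eq _ _ _ _
  · show (gt (frmF A.O e fes 0) (L.map Slot.q) m).ex (fun x => x.comp A.O e.g j) = _
    rw [H9.ex_eq, gt_eq, hd, List.getD_map]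
    rfl
  · show (gt (frmF A.O e fes 0) (L.map Slot.q) m).ex (fun x => x.word A.O e.g i j (evS A.O e (.par (cpar i j))).re
      (evS A.O e (wph i j)) l) = _
    rw [H9.ex_eq, gt_eq, hd, List.getD_map]
    rfl
  · show evQ A.O e (FE.pushL w (gt .gram fes t)) = _
    rw [gt_eq]
    rfl

theorem dx_eq (O : Ops R) (e : Ev R) (fes : List FE) (L : List (Slot R)) (i : Ins) :
    i.dx (L.map fun s => (s.t, s.w)) = (i.ex O e fes L).2 := by
  have hd : ((0, []) : ℕ × List (Fin 3)) = (fun s : Slot R => (s.t, s.w)) (dft O e fes) := rfl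
  rcases i with t | ⟨j, m⟩ | ⟨i, j, l, m⟩ | ⟨t, w⟩
  · rfl
  · show (((L.map fun s => (s.t, s.w)).getD m (0, [])).1, ((L.map fun s => (s.t, s.w)).getD m (0, [])).2 ++ [j]) = _
    rw [hd, List.getD_map]
    rfl
  · show (((L.map fun s => (s.t, s.w)).getD m (0, [])).1, ((L.map fun s => (s.t, s.w)).getD m (0, [])).2 ++ wrd i j l) = _
    rw [hd, List.getD_map]
    rfl
  · rfl

theorem dsl_eq (O : Ops R) (e : Ev R) (fes : List FE) (is : List Ins) : ∀ L : List (Slot R),
    dsl is (L.map fun s => (s.t, s.w)) = (slots O e fes is L).map fun s => (s.t, s.w) := by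
  induction is with
  | nil => intro L; rfl
  | cons i is ih =>
    intro L
    show dsl is (i.dx (L.map fun s => (s.t, s.w)) :: L.map fun s => (s.t, s.w)) = _
    rw [dx_eq O e fes]
    exact ih (⟨(i.ex O e fes L).1, (i.ex O e fes L).2.1, (i.ex O e fes L).2.2⟩ :: L)

theorem runF_eq (hA : ∀ (Q : H9 R) (k : H9 R → Bool), A.fH Q k = k Q) (e : Ev R) (fes : List FE) (is : List Ins) :
    ∀ (L : List (Slot R)) (k : List (H9 R) → Bool),
      runF A e fes (frmF A.O e fes 0) is (L.map Slot.q) k = k ((slots A.O e fes is L).map Slot.q) := by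
  induction is with
  | nil => intro L k; rfl
  | cons i is ih =>
    intro L k
    show A.fH (i.exF A.O e fes (frmF A.O e fes 0) (L.map Slot.q))
      (fun q => runF A e fes (frmF A.O e fes 0) is (q :: L.map Slot.q) k) = _
    rw [hA, exF_eq]
    exact ih (⟨(i.ex A.O e fes L).1, (i.ex A.O e fes L).2.1, (i.ex A.O e fes L).2.2⟩ :: L) k

theorem packsF_eq (hA : ∀ (Q : P) (k : P → Bool), A.fP Q k = k Q) (d : H9 R) (L : List (H9 R)) (pks : List ℕ) :
    ∀ k : List P → Bool, packsF A d L pks k = k (pks.map fun m => A.pk (L.getD m d)) := by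
  induction pks with
  | nil => intro k; rfl
  | cons m ms ih =>
    intro k
    show A.fP (A.pk (gt d L m)) (fun p => packsF A d L ms fun l => k (p :: l)) = _
    rw [hA, ih, gt_eq]
    rfl

theorem dsc1_eq {L : List (Slot R)} (O : Ops R) (e : Ev R) (fes : List FE) (m t : ℕ) (w : List (Fin 3)) :
    dsc1 (L.map fun s => (s.t, s.w)) m t w = ((L.getD m (dft O e fes)).t == t && (L.getD m (dft O e fes)).w == w) := by
  have hd : ((0, []) : ℕ × List (Fin 3)) = (fun s : Slot R => (s.t, s.w)) (dft O e fes) := rfl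
  unfold dsc1
  rw [hd, List.getD_map]

/-- The fast check implies the check. -/
theorem CD.chkF_chk (hH : ∀ (Q : H9 R) (k : H9 R → Bool), A.fH Q k = k Q) (hP : ∀ (Q : P) (k : P → Bool), A.fP Q k = k Q)
    (e : Ev R) (c : CD) (hs : c.stat = true) (h : c.chkF A e = true) : c.chk A e = true := by
  unfold CD.chkF at h
  have hr := runF_eq A hH e c.fes c.is []
  rw [List.map_nil] at hr
  rw [hr, packsF_eq A hP, hP] at h
  unfold CD.chk
  rw [run_eq A hH, packs_eq A hP, hP]
  unfold CD.stat statC at hs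
  have hd := dsl_eq A.O e c.fes c.is []
  rw [List.map_nil] at hd
  rw [hd] at hs
  set L := slots A.O e c.fes c.is [] with hL
  have hd0 : frmF A.O e c.fes 0 = (dft A.O e c.fes).q := frmF_eq _ _ _ _
  rw [hd0] at h
  have hg : ∀ m, (L.map Slot.q).getD m (dft A.O e c.fes).q = (L.getD m (dft A.O e c.fes)).q := fun m => List.getD_map ..
  -- the packed slots
  have hPs : (c.pks.map fun m => A.pk ((L.map Slot.q).getD m (dft A.O e c.fes).q)) =
      (pslots A e c.fes L c.pks).map PSlot.p := by
    unfold pslots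
    rw [List.map_map]
    refine List.map_congr_left fun m _ => ?_
    rw [hg]
    rfl
  have hDs : dpk (L.map fun s => (s.t, s.w)) c.pks = (pslots A e c.fes L c.pks).map fun s => (s.t, s.w) := by
    unfold pslots dpk
    rw [List.map_map]
    refine List.map_congr_left fun m _ => ?_
    have hd : ((0, []) : ℕ × List (Fin 3)) = (fun s : Slot R => (s.t, s.w)) (dft A.O e c.fes) := rfl
    rw [hd, List.getD_map]
    rfl
  rw [hPs] at h
  rw [hDs] at hs
  set Ps := pslots A e c.fes L c.pks with hPsd
  have hpd : A.pk (dft A.O e c.fes).q = (pdft A e c.fes).p := rfl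
  rw [hpd] at h
  have hgp : ∀ m, (Ps.map PSlot.p).getD m (pdft A e c.fes).p = (Ps.getD m (pdft A e c.fes)).p := fun m => List.getD_map ..
  have hgd : ∀ m t w, dsc1 (Ps.map fun s => (s.t, s.w)) m t w =
      ((Ps.getD m (pdft A e c.fes)).t == t && (Ps.getD m (pdft A e c.fes)).w == w) := by
    intro m t w
    have hd : ((0, []) : ℕ × List (Fin 3)) = (fun s : PSlot P => (s.t, s.w)) (pdft A e c.fes) := rfl
    unfold dsc1
    rw [hd, List.getD_map]
  simp only [allK_eq, List.all_eq_true, Bool.cond_false_right, Bool.and_eq_true] at h hs ⊢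
  obtain ⟨h1, h2, h3, h4⟩ := h
  obtain ⟨s1, s2, s3⟩ := hs
  refine ⟨fun f hf => ?_, fun f hf => ?_, fun f hf => ?_, h4⟩
  · have g1 := h1 f hf
    have g2 := s1 f hf
    unfold CN.chkF at g1
    simp only [Bool.cond_false_right, Bool.and_eq_true, gt_eq, hgp] at g1
    unfold CN.dsc dscC at g2
    rw [hgd, hgd] at g2
    simp only [Bool.and_eq_true] at g2
    unfold CN.chk
    simp only [Bool.and_eq_true]
    exact ⟨⟨g2.1.1, g2.1.2, g2.2.1, g2.2.2⟩, g1⟩
  · have g1 := h2 f hf
    have g2 := s2 f hf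
    unfold PN.chkPF at g1
    rw [H9.ex_eq, gt_eq, hg] at g1
    unfold PN.dscS at g2
    rw [dsc1_eq A.O e c.fes] at g2
    unfold PN.chkP PN.dsc
    rw [g2, g1]
    rfl
  · have g1 := h3 f hf
    have g2 := s3 f hf
    unfold PN.chkNF at g1
    rw [H9.ex_eq, gt_eq, hg] at g1
    unfold PN.dscS at g2
    rw [dsc1_eq A.O e c.fes] at g2
    unfold PN.chkN PN.dsc
    rw [g2, g1]
    rfl

end

end Pool.Agent.Work.MP_88b7aa_gt.PQ
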