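import Pool.Agent.Work.MP_88b7aa_gt.PQ.CC

/-!
# The forced condition at a vertex of order three in closed form

If `I_i I_j` has order three (`|G i j|² = 1/4`) and `g = |⟨n_i, I_j n_k⟩|² ≥ 1` then
`g H(z) - Q_i(z) - Q_j(I_i I_k I_j z) ≥ 0`, so `I_i I_j (I_k I_i {Q_j > 0}) ⊆ {Q_i > 0}` (`Q_i = QP G i`).
-/

namespace Pool.Agent.Work.MP_88b7aa_gt.PQ

open Pool.Agent.Work.MP_88b7aa_gt.CH
open ComplexConjugate Complex Matrix

/-- The sum of squares: `u = z_i`, `v = z_j + 2 B z_k`, `w = z_k`. -/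
theorem C3_ring (A B γ u v w : ℂ) :
    3 * normSq γ * (normSq γ * (conj u * (u + A * v - conj γ * w) + conj v * (conj A * u + v - B * w) -
        conj w * (γ * u + conj B * v - w)).re - (conj (u + A * v - conj γ * w) * (u - (u + A * v - conj γ * w))).re -
      ((conj ((1 - 2 * (γ * conj γ)) * u + (A - 2 * (conj γ * conj B)) * v + conj γ * w) * (u + 2 * (A * v))).re -
        normSq ((1 - 2 * (γ * conj γ)) * u + (A - 2 * (conj γ * conj B)) * v + conj γ * w))) =
      3 * (normSq γ - 1) * normSq (γ * conj γ * u + conj γ * conj B * v) +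
      normSq γ * normSq (3 * (γ * conj γ * u - conj γ * w) + (A + 3 * (conj γ * conj B)) * v) +
      normSq γ * ((3 * normSq γ + 3 * normSq B - normSq A - 6 * (conj A * (conj B * conj γ)).re) * normSq v) := by
  obtain ⟨A1, A2⟩ := A
  obtain ⟨B1, B2⟩ := B
  obtain ⟨g1, g2⟩ := γ
  obtain ⟨u1, u2⟩ := u
  obtain ⟨v1, v2⟩ := v
  obtain ⟨w1, w2⟩ := w
  simp only [normSq_apply, Complex.add_re, Complex.add_im, Complex.sub_re, Complex.sub_im, Complex.mul_re, Complex.mul_im,
    Complex.conj_re, Complex.conj_im, Complex.one_re, Complex.one_im, Complex.re_ofNat, Complex.im_ofNat]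
  ring

/-- The inequality for all points. -/
theorem C3_pt (G : Matrix (Fin 3) (Fin 3) ℂ) (hG : IsGram G) {i j k : Fin 3} (hij : i ≠ j) (hik : i ≠ k) (hjk : j ≠ k)
    (h3 : normSq (G i j) = 1 / 4) {g : ℝ} (hg : g = normSq (2 * conj (G i j) * conj (G j k) - conj (G i k))) (h1 : 1 ≤ g)
    (z : Fin 3 → ℂ) :
    0 ≤ g * qf G z - qf (QP G i) z - qf (QP G j) (Sg G i *ᵥ (Sg G k *ᵥ (Sg G j *ᵥ z))) := by
  set A := G i j with hA
  set B := G j k with hB
  set E := G i k with hE
  set γ := 2 * conj A * conj B - conj E with hγ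
  have h4 : 4 * (A * conj A) = 1 := by
    rw [Complex.mul_conj, h3]
    norm_num
  have hji : G j i = conj A := (hG.hm i j).symm
  have hkj : G k j = conj B := (hG.hm j k).symm
  have hki : G k i = conj E := (hG.hm i k).symm
  have hEγ : E = 2 * A * B - conj γ := by
    rw [hγ]
    simp only [map_sub, map_mul, Complex.conj_conj, Complex.conj_ofNat]
    ring
  have hEγ' : conj E = 2 * conj A * conj B - γ := by
    rw [hγ]
    ring
  have hyi : ∑ b, G i b * z b = z i + A * z j + E * z k := by rw [sum3 hij hik hjk, hG.dg, one_mul]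
  have hyj : ∑ b, G j b * z b = conj A * z i + z j + B * z k := by rw [sum3 hij hik hjk, hG.dg, one_mul, hji]
  have hyk : ∑ b, G k b * z b = conj E * z i + conj B * z j + z k := by rw [sum3 hij hik hjk, hG.dg, one_mul, hki, hkj]
  set v := z j + 2 * B * z k with hv
  set t := (1 - 2 * (γ * conj γ)) * z i + (A - 2 * (conj γ * conj B)) * v + conj γ * z k with ht
  -- the values
  have e1 : ∑ b, G i b * z b = z i + A * v - conj γ * z k := by
    rw [hyi, hEγ, hv]
    ring
  have e2 : ∑ b, G j b * z b = conj A * z i + v - B * z k := by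
    rw [hyj, hv]
    ring
  have k1 : ∑ b, G k b * (Sg G j *ᵥ z) b = γ * z i + conj B * v - z k := by
    rw [G_Sg, hkj, hyj, hyk, hEγ', hv]
    ring
  have i2 : ∑ b, G i b * (Sg G k *ᵥ (Sg G j *ᵥ z)) b = 2 * E * (γ * z i + conj B * v - z k) -
      (2 * A * (conj A * z i + v - B * z k) - (z i + A * v - conj γ * z k)) := by
    rw [G_Sg, k1, G_Sg, e1, e2]
  have j2 : ∑ b, G j b * (Sg G k *ᵥ (Sg G j *ᵥ z)) b = 2 * B * (γ * z i + conj B * v - z k) -
      (conj A * z i + v - B * z k) := by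
    rw [G_Sg, k1, G_Sg, e2, hG.dg]
    ring
  have j3 : ∑ b, G j b * (Sg G i *ᵥ (Sg G k *ᵥ (Sg G j *ᵥ z))) b = 2 * conj A * t := by
    rw [G_Sg, i2, j2, hji, hEγ, ht]
    linear_combination (2 * B * (γ * z i + conj B * v - z k) - (conj A * z i + v - B * z k)) * h4
  have y3 : (Sg G i *ᵥ (Sg G k *ᵥ (Sg G j *ᵥ z))) j = 2 * conj A * z i + v := by
    rw [Sg_mul, if_neg hij.symm, Sg_mul, if_neg hjk, Sg_mul, if_pos rfl, e2, hv]
    ring
  have hH : qf G z = (conj (z i) * (z i + A * v - conj γ * z k) + conj v * (conj A * z i + v - B * z k) -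
      conj (z k) * (γ * z i + conj B * v - z k)).re := by
    have h0 : qf G z = (conj (z i) * (∑ b, G i b * z b) + conj (z j) * (∑ b, G j b * z b) + conj (z k) * ∑ b, G k b * z b).re := by
      unfold qf
      simp only [mul_assoc, ← Finset.mul_sum]
      rw [sum3 hij hik hjk]
    rw [h0, e1, e2, hyk, hEγ']
    congr 1
    rw [hv]
    simp only [map_add, map_mul, Complex.conj_ofNat]
    ring
  have hQi : qf (QP G i) z = (conj (z i + A * v - conj γ * z k) * (z i - (z i + A * v - conj γ * z k))).re := by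
    rw [qf_QP, e1]
  have hQj : qf (QP G j) (Sg G i *ᵥ (Sg G k *ᵥ (Sg G j *ᵥ z))) = (conj t * (z i + 2 * (A * v))).re - normSq t := by
    rw [qf_QP, j3, y3]
    have h5 : conj (2 * conj A * t) * (2 * conj A * z i + v - 2 * conj A * t) = conj t * (z i + 2 * (A * v)) - t * conj t := by
      simp only [map_mul, Complex.conj_conj, Complex.conj_ofNat]
      linear_combination (conj t * z i - conj t * t) * h4
    rw [h5, Complex.sub_re, Complex.mul_conj, Complex.ofReal_re]
  have hgg : γ * conj γ = (g : ℂ) := by rw [Complex.mul_conj, hg]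
  have key := C3_ring A B γ (z i) v (z k)
  rw [← ht, ← hH, ← hQi, ← hQj, ← hg] at key
  -- the last coefficient
  have h6 : normSq (2 * A * B - conj γ) = normSq B + g - 4 * (conj A * (conj B * conj γ)).re := by
    have h7 : normSq (2 * A * B - conj γ) = 4 * normSq A * normSq B + normSq γ - 4 * (conj A * (conj B * conj γ)).re := by
      simp only [normSq_apply, Complex.sub_re, Complex.sub_im, Complex.mul_re, Complex.mul_im, Complex.conj_re, Complex.conj_im,
        Complex.re_ofNat, Complex.im_ofNat]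
      ring
    rw [h7, h3, ← hg]
    ring
  have h8 := normSq_nonneg (2 * A * B - conj γ)
  have h9 := normSq_nonneg B
  have h10 : 0 ≤ 3 * g + 3 * normSq B - normSq A - 6 * (conj A * (conj B * conj γ)).re := by
    rw [h3]
    linarith
  have h11 : 0 ≤ 3 * g * (g * qf G z - qf (QP G i) z - qf (QP G j) (Sg G i *ᵥ (Sg G k *ᵥ (Sg G j *ᵥ z)))) := by
    rw [key]
    have a1 : 0 ≤ 3 * (g - 1) := by linarith
    have a2 : 0 ≤ g := by linarith
    have a3 := mul_nonneg a1 (normSq_nonneg (γ * conj γ * z i + conj γ * conj B * v))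
    have a4 := mul_nonneg a2 (normSq_nonneg (3 * (γ * conj γ * z i - conj γ * z k) + (A + 3 * (conj γ * conj B)) * v))
    have a5 := mul_nonneg a2 (mul_nonneg h10 (normSq_nonneg v))
    linarith
  exact nonneg_of_mul_nonneg_right h11 (by linarith)

/-- `I_i I_j (I_k I_i {Q_j > 0}) ⊆ {Q_i > 0}` if `I_i I_j` has order three. -/
theorem C3_incl (G : Matrix (Fin 3) (Fin 3) ℂ) (hG : IsGram G) {i j k : Fin 3} (hij : i ≠ j) (hik : i ≠ k) (hjk : j ≠ k)
    (h3 : normSq (G i j) = 1 / 4) (h1 : 1 ≤ normSq (2 * conj (G i j) * conj (G j k) - conj (G i k))) (x : Fin 3 → ℂ)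
    (hx : qf G x < 0) (hQ : 0 < qf (QP G j) (Sg G i *ᵥ (Sg G k *ᵥ x))) : 0 < qf (QP G i) (Sg G i *ᵥ (Sg G j *ᵥ x)) := by
  rw [QP_anti G hG]
  have h := C3_pt G hG hij hik hjk h3 rfl h1 (Sg G j *ᵥ x)
  rw [Sg_sq G hG, qf_gram_Sg G hG] at h
  have : normSq (2 * conj (G i j) * conj (G j k) - conj (G i k)) * qf G x < 0 := mul_neg_of_pos_of_neg (by linarith) hx
  linarith

end Pool.Agent.Work.MP_88b7aa_gt.PQ
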