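import Pool.Agent.Work.MP_88b7aa_gt.PQ.TL

/-!
# Tied forms

`C_ij = κ H + D |l_i|² + F |l_x|² + 2 Re (E conj l_i l_y) + 2 Re (conj z_i ((q + A + iω) l_i + (q + iω) l_y))`, `x = I_j n_k`,
`l_y = - conj γ l_x`, `γ = ⟨n_i, x⟩`.  `I_i I_j {C_kj > 0} ⊆ {C_ij > 0}` if the two forms have the same `A`, `ω`, by the border test.
-/

namespace Pool.Agent.Work.MP_88b7aa_gt.PQ

open Pool.Agent.Work.MP_88b7aa_gt.CH
open ComplexConjugate Complex Matrix

set_option linter.unusedSectionVars false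

/-- The parameters of a tied form. -/
structure TP where
  κ : ℝ
  D : ℝ
  F : ℝ
  E : ℂ
  q : ℝ

/-- The value of a tied form: `x = l_i`, `y = l_x`, `u = z_i`. -/
def cval (p : TP) (A ω : ℝ) (γ x y u : ℂ) (H : ℝ) : ℝ :=
  p.κ * H + p.D * normSq x + p.F * normSq y + 2 * (conj x * (p.E * -(conj γ * y))).re +
    2 * (conj u * (((p.q : ℂ) + A + ω * I) * x + ((p.q : ℂ) + ω * I) * -(conj γ * y))).re

/-- The form `C_ij`. -/
def CfG (G : Matrix (Fin 3) (Fin 3) ℂ) (i j k : Fin 3) (p : TP) (A ω : ℝ) (z : Fin 3 → ℂ) : ℝ :=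
  cval p A ω (gaG G i j k) (∑ b, G i b * z b) (lmG G j k z) (z i) (qf G z)

/-- The value of `M` (target `p`, source `p'`): `x = l_i`, `y = l_x`, `u = z_i`, `v = z_k`. -/
def mval (p p' : TP) (A ω lam μ : ℝ) (γ x y u v : ℂ) (H : ℝ) : ℝ :=
  cval p A ω γ x y u H - lam * cval p' A ω (conj γ) (2 * γ * x - y) x v H + μ * H

/-- The value of `φ`. -/
def pval' (p p' : TP) (A ω lam1 mu1 lam δ : ℝ) (γ x y u v : ℂ) : ℂ :=
  mu1 * (x - conj γ * y) - p.D * x + p.E * (conj γ * y) - ((p.q : ℂ) + A - ω * I) * u - ((p'.q : ℂ) + 2 * A + ω * I) * x -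
    lam1 * (p'.κ * (x - conj γ * y) - ((p'.q : ℂ) + A + ω * I) * (conj γ * y) + (1 + δ) * (((p'.q : ℂ) + 2 * A + ω * I) * x)) +
    lam * ((2 * p'.D - conj p'.E) * (conj γ * (2 * γ * x - y)) + (p'.F - 2 * (1 + δ) * p'.E) * x +
      conj γ * (((p'.q : ℂ) + 2 * A - ω * I) * v))

/-- The number `al = φ η`. -/
def aval (p p' : TP) (A lam1 mu1 lam δ : ℝ) : ℝ :=
  p.D * δ - p.q - A + (p'.q + 2 * A) * δ + lam1 * δ * (p'.κ + (1 + δ) * (p'.q + 2 * A)) -
    lam * (4 * (1 + δ) * δ * p'.D + p'.F * δ - 4 * (1 + δ) * δ * p'.E.re - (1 + δ) * (p'.q + 2 * A)) - mu1 * δ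

theorem tied_ring (p p' : TP) (A ω lam1 mu1 H : ℝ) (γ x y u v t : ℂ) (δ : ℝ) (hδ : δ = normSq γ - 1) (lam μ : ℝ)
    (hl : lam = 1 + δ * lam1) (hm : μ = A + p'.κ + p'.q - p.κ - p.q + δ * mu1) :
    mval p p' A ω lam μ γ (x + t * -δ) y (u + t) (v + t * γ) (H + 2 * (t * conj (x - conj γ * y)).re - normSq t * δ) =
      mval p p' A ω lam μ γ x y u v H + 2 * δ * (t * conj (pval' p p' A ω lam1 mu1 lam δ γ x y u v)).re +
        normSq t * (δ * aval p p' A lam1 mu1 lam δ) := by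
  obtain ⟨κ, D, F, ⟨E1, E2⟩, q⟩ := p
  obtain ⟨κ', D', F', ⟨E1', E2'⟩, q'⟩ := p'
  obtain ⟨x1, x2⟩ := x
  obtain ⟨y1, y2⟩ := y
  obtain ⟨u1, u2⟩ := u
  obtain ⟨v1, v2⟩ := v
  obtain ⟨t1, t2⟩ := t
  obtain ⟨g1, g2⟩ := γ
  have hδ' : δ = g1 * g1 + g2 * g2 - 1 := hδ
  unfold mval cval pval' aval
  simp only [normSq_apply, Complex.add_re, Complex.sub_re, Complex.mul_re, Complex.mul_im, Complex.conj_re, Complex.conj_im,
    Complex.ofReal_re, Complex.ofReal_im, Complex.add_im, Complex.sub_im, Complex.neg_re, Complex.neg_im, Complex.I_re,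
    Complex.I_im, Complex.one_re, Complex.one_im, Complex.re_ofNat, Complex.im_ofNat]
  subst hl hm hδ'
  ring

theorem pval_ring (p p' : TP) (A ω lam1 mu1 : ℝ) (γ x y u v t : ℂ) (δ : ℝ) (hδ : δ = normSq γ - 1) (lam : ℝ)
    (hl : lam = 1 + δ * lam1) :
    pval' p p' A ω lam1 mu1 lam δ γ (x + t * -δ) y (u + t) (v + t * γ) =
      pval' p p' A ω lam1 mu1 lam δ γ x y u v + t * (aval p p' A lam1 mu1 lam δ : ℝ) := by
  obtain ⟨κ, D, F, ⟨E1, E2⟩, q⟩ := p
  obtain ⟨κ', D', F', ⟨E1', E2'⟩, q'⟩ := p'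
  obtain ⟨x1, x2⟩ := x
  obtain ⟨y1, y2⟩ := y
  obtain ⟨u1, u2⟩ := u
  obtain ⟨v1, v2⟩ := v
  obtain ⟨t1, t2⟩ := t
  obtain ⟨g1, g2⟩ := γ
  have hδ' : δ = g1 * g1 + g2 * g2 - 1 := hδ
  unfold pval' aval
  subst hl hδ'
  apply Complex.ext
  all_goals
    simp only [Complex.add_re, Complex.sub_re, Complex.mul_re, Complex.mul_im, Complex.conj_re, Complex.conj_im,
      Complex.ofReal_re, Complex.ofReal_im, Complex.add_im, Complex.sub_im, Complex.neg_re, Complex.neg_im, Complex.I_re,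
      Complex.I_im, Complex.one_re, Complex.one_im, Complex.re_ofNat, Complex.im_ofNat]
    ring

section

variable (G : Matrix (Fin 3) (Fin 3) ℂ) (hG : IsGram G) {i j k : Fin 3} (hij : i ≠ j) (hik : i ≠ k) (hjk : j ≠ k)

include hG hij hik hjk

/-- The source at `I_j I_i z`. -/
theorem CfG_src (p : TP) (A ω : ℝ) (z : Fin 3 → ℂ) : CfG G k j i p A ω (Sg G j *ᵥ (Sg G i *ᵥ z)) =
    cval p A ω (conj (gaG G i j k)) (2 * gaG G i j k * (∑ b, G i b * z b) - lmG G j k z) (∑ b, G i b * z b) (z k) (qf G z) := by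
  have h1 : ∑ b, G k b * (Sg G j *ᵥ (Sg G i *ᵥ z)) b = 2 * gaG G i j k * (∑ b, G i b * z b) - lmG G j k z := by
    rw [G_Sg, G_Sg, G_Sg]
    unfold gaG lmG
    ring
  have h2 : lmG G j i (Sg G j *ᵥ (Sg G i *ᵥ z)) = ∑ b, G i b * z b := by
    have r1 : ∑ b, G j b * (Sg G j *ᵥ (Sg G i *ᵥ z)) b = ∑ b, G j b * (Sg G i *ᵥ z) b := by
      rw [G_Sg, hG.dg]
      ring
    have r2 : ∑ b, G i b * (Sg G i *ᵥ z) b = ∑ b, G i b * z b := row_Sg G hG hij hik hjk z
    unfold lmG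
    rw [r1, G_Sg G j i, r2]
    ring
  have h3 : (Sg G j *ᵥ (Sg G i *ᵥ z)) k = z k := by
    rw [Sg_mul, Sg_mul, if_neg hjk.symm, if_neg hik.symm]
    ring
  have h4 : gaG G k j i = conj (gaG G i j k) := by
    rw [conj_gaG G hG]
    unfold gaG
    ring
  unfold CfG
  rw [h1, h2, h3, h4, qf_gram_Sg G hG, qf_gram_Sg G hG]

/-- The inclusion of tied forms. -/
theorem tied_incl (p p' : TP) (A ω lam1 mu1 c lam μ : ℝ) (hl : lam = 1 + (normSq (gaG G i j k) - 1) * lam1)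
    (hm : μ = A + p'.κ + p'.q - p.κ - p.q + (normSq (gaG G i j k) - 1) * mu1) (hlp : 0 < lam) (hmp : 0 < μ)
    (hδ : 1 ≤ normSq (gaG G i j k)) (hal : 0 < aval p p' A lam1 mu1 lam (normSq (gaG G i j k) - 1))
    (hN : ∀ z, 0 ≤ mval p p' A ω lam μ (gaG G i j k) (∑ b, G i b * z b) (lmG G j k z) (z i) (z k) (qf G z) +
      c * normSq (pval' p p' A ω lam1 mu1 lam (normSq (gaG G i j k) - 1) (gaG G i j k) (∑ b, G i b * z b) (lmG G j k z)
        (z i) (z k)))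
    {z : Fin 3 → ℂ} (hz : qf G z < 0) (hS : 0 < CfG G k j i p' A ω z) :
    0 < CfG G i j k p A ω (Sg G i *ᵥ (Sg G j *ᵥ z)) := by
  set δ : ℝ := normSq (gaG G i j k) - 1 with hδd
  have hd : 0 ≤ δ * aval p p' A lam1 mu1 lam δ := mul_nonneg (by linarith) hal.le
  have hb : ∀ (z : Fin 3 → ℂ) (t : ℂ), (z + t • etG G i j k) k = z k + t * gaG G i j k := by
    intro z t
    rw [Pi.add_apply, Pi.smul_apply, smul_eq_mul, etG_k G hij hik hjk]
  have ha : ∀ (z : Fin 3 → ℂ) (t : ℂ), (z + t • etG G i j k) i = z i + t := by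
    intro z t
    rw [Pi.add_apply, Pi.smul_apply, smul_eq_mul, etG_i G hij hik hjk, mul_one]
  have hr : ∀ (z : Fin 3 → ℂ) (t : ℂ), ∑ b, G i b * (z + t • etG G i j k) b = (∑ b, G i b * z b) + t * -(δ : ℂ) := by
    intro z t
    rw [row_line, li_et G hG hij hik hjk, hδd]
    push_cast
    ring
  have hlm : ∀ (z : Fin 3 → ℂ) (t : ℂ), lmG G j k (z + t • etG G i j k) = lmG G j k z := by
    intro z t
    rw [lm_line, lm_et G hG hij hik hjk, mul_zero, add_zero]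
  have key := bord_core (M := fun z => mval p p' A ω lam μ (gaG G i j k) (∑ b, G i b * z b) (lmG G j k z) (z i) (z k) (qf G z))
    (φ := fun z => pval' p p' A ω lam1 mu1 lam δ (gaG G i j k) (∑ b, G i b * z b) (lmG G j k z) (z i) (z k))
    (η := etG G i j k) (δ := δ) (al := aval p p' A lam1 mu1 lam δ) (c := c)
    (fun z t => by
      simp only [ha, hb, hr, hlm, qf_et G hG hij hik hjk]
      exact tied_ring p p' A ω lam1 mu1 _ _ _ _ _ _ t δ hδd lam μ hl hm)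
    (fun z t => by
      simp only [ha, hb, hr, hlm]
      exact pval_ring p p' A ω lam1 mu1 _ _ _ _ _ t δ hδd lam hl) hal.ne' hd hN (Sg G i *ᵥ (Sg G j *ᵥ z))
  have h1 := CfG_src G hG hij hik hjk p' A ω (Sg G i *ᵥ (Sg G j *ᵥ z))
  rw [Sg_sq G hG, Sg_sq G hG] at h1
  have h2 : mval p p' A ω lam μ (gaG G i j k) (∑ b, G i b * (Sg G i *ᵥ (Sg G j *ᵥ z)) b)
      (lmG G j k (Sg G i *ᵥ (Sg G j *ᵥ z))) ((Sg G i *ᵥ (Sg G j *ᵥ z)) i) ((Sg G i *ᵥ (Sg G j *ᵥ z)) k)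
      (qf G (Sg G i *ᵥ (Sg G j *ᵥ z))) =
      CfG G i j k p A ω (Sg G i *ᵥ (Sg G j *ᵥ z)) - lam * CfG G k j i p' A ω z + μ * qf G z := by
    unfold mval
    rw [← h1, qf_gram_Sg G hG, qf_gram_Sg G hG]
    unfold CfG
    rw [qf_gram_Sg G hG, qf_gram_Sg G hG]
  rw [h2] at key
  have h4 := mul_pos hlp hS
  have h5 : μ * qf G z < 0 := mul_neg_of_pos_of_neg hmp hz
  linarith

/-- If `I_i I_j` has order three then `C_ki = C_kj` (the same parameters). -/
theorem CfG_three (h3 : normSq (G i j) = 1 / 4) (p : TP) (A ω : ℝ) (z : Fin 3 → ℂ) :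
    CfG G k i j p A ω z = CfG G k j i p A ω z := by
  have h4 : 4 * (G i j * G j i) = 1 := by
    rw [← hG.hm i j, Complex.mul_conj, h3]
    norm_num
  have h5 : lmG G i j z = -(2 * G j i) * lmG G j i z := by
    unfold lmG
    linear_combination (∑ b, G j b * z b) * h4
  have h6 : conj (gaG G k i j) * -(2 * G j i) = conj (gaG G k j i) := by
    rw [conj_gaG G hG, conj_gaG G hG]
    linear_combination (-(G k i)) * h4
  have h7 : normSq (lmG G i j z) = normSq (lmG G j i z) := by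
    rw [h5, map_mul, normSq_neg, map_mul, ← hG.hm i j, normSq_conj, h3]
    norm_num
  have h8 : conj (gaG G k i j) * lmG G i j z = conj (gaG G k j i) * lmG G j i z := by
    rw [h5, ← mul_assoc, h6]
  unfold CfG cval
  rw [h7, h8]

end

/-! ## Expressions -/

/-- The parameters as expressions (of `κ`, `D`, `F`, `q` only the real parts are used). -/
structure TS where
  κ : Sc
  D : Sc
  F : Sc
  E : Sc
  q : Sc

noncomputable def TS.tp (e : Ev ℝ) (s : TS) : TP :=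
  ⟨(evS OR e s.κ).re, (evS OR e s.D).re, (evS OR e s.F).re, (evS OR e s.E).c, (evS OR e s.q).re⟩

/-- The number one. -/
def onS : Sc := .cst 1073741824 0
/-- The real part. -/
def rlS (a : Sc) : Sc := .mul (.cst 536870912 0) (tre a)
/-- `i` times the real part. -/
def imS (w : Sc) : Sc := .mul (.cst 0 536870912) (tre w)

/-- `conj γ l_x` -/
def clF (i j k : Fin 3) : Fn := .smul (.cj (gaS i j k)) (lmF j k)
/-- `2 γ l_i - l_x` -/
def LLF (i j k : Fin 3) : Fn := .comp i (lmF j k)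

/-- `q + A + iω` -/
def pAw (q A w : Sc) : Sc := .add (.add (rlS q) (rlS A)) (imS w)
/-- `q + iω` -/
def pww (q w : Sc) : Sc := .add (rlS q) (imS w)

/-- The form `C_ij`. -/
def CFE (i j k : Fin 3) (s : TS) (A w : Sc) : FE :=
  .add (.add (.add (.smul s.κ .gram) (.smul s.D (.nsq (.row i)))) (.smul s.F (.nsq (lmF j k))))
    (.sub (.re2 (.crd i) (.sub (.smul (pAw s.q A w) (.row i)) (.smul (pww s.q w) (clF i j k))))
      (.re2 (.row i) (.smul s.E (clF i j k))))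

/-- The form `C_kj ∘ I_j I_i`. -/
def CsE (i j k : Fin 3) (s : TS) (A w : Sc) : FE :=
  .add (.add (.add (.smul s.κ .gram) (.smul s.D (.nsq (LLF i j k)))) (.smul s.F (.nsq (.row i))))
    (.sub (.re2 (.crd k) (.sub (.smul (pAw s.q A w) (LLF i j k)) (.smul (.mul (pww s.q w) (gaS i j k)) (.row i))))
      (.re2 (LLF i j k) (.smul (.mul s.E (gaS i j k)) (.row i))))

/-- `1 + δ` -/
def odS (i j k : Fin 3) : Sc := .mul (gaS i j k) (.cj (gaS i j k))
/-- `δ` -/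
def deS (i j k : Fin 3) : Sc := .sub (odS i j k) onS
/-- `λ` -/
def laS (i j k : Fin 3) (lam1 : Sc) : Sc := .add onS (.mul (deS i j k) (rlS lam1))
/-- `μ` (target `s`, source `s'`) -/
def muT (i j k : Fin 3) (s s' : TS) (A mu1 : Sc) : Sc :=
  .add (.sub (.sub (.add (.add (rlS A) (rlS s'.κ)) (rlS s'.q)) (rlS s.κ)) (rlS s.q)) (.mul (deS i j k) (rlS mu1))

/-- `q' + 2 A` -/
def q2A (s' : TS) (A : Sc) : Sc := .add (rlS s'.q) (tre A)

/-- `al` -/
def alS (i j k : Fin 3) (s s' : TS) (A lam1 mu1 : Sc) : Sc :=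
  .sub (.sub (.add (.sub (.sub (.mul (deS i j k) (.add (rlS s.D) (q2A s' A))) (rlS s.q)) (rlS A))
    (.mul (.mul (rlS lam1) (deS i j k)) (.add (rlS s'.κ) (.mul (odS i j k) (q2A s' A)))))
    (.mul (laS i j k lam1) (.sub (.mul (deS i j k) (.add (rlS s'.F) (.mul (.mul (.cst 4294967296 0) (odS i j k))
      (.sub (rlS s'.D) (rlS s'.E))))) (.mul (odS i j k) (q2A s' A))))) (.mul (rlS mu1) (deS i j k))

/-- `2 D' - conj E'` -/
def dEE (s' : TS) : Sc := .sub (tre s'.D) (.cj s'.E)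

/-- The functional `φ`. -/
def phT (i j k : Fin 3) (s s' : TS) (A w lam1 mu1 : Sc) : Fn :=
  .add (.add (.smul (.add (.sub (.sub (.sub (rlS mu1) (rlS s.D)) (.add (q2A s' A) (imS w)))
      (.mul (rlS lam1) (.add (rlS s'.κ) (.mul (odS i j k) (.add (q2A s' A) (imS w))))))
      (.mul (laS i j k lam1) (.add (rlS s'.F) (.mul (.mul twS (odS i j k)) (.sub (dEE s') s'.E))))) (.row i))
    (.smul (.sub (.add (.sub s.E (rlS mu1)) (.mul (rlS lam1) (.add (rlS s'.κ) (pAw s'.q A w))))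
      (.mul (laS i j k lam1) (dEE s'))) (clF i j k)))
    (.sub (.smul (.mul (.mul (laS i j k lam1) (.cj (gaS i j k))) (.sub (q2A s' A) (imS w))) (.crd k))
      (.smul (.cj (pAw s.q A w)) (.crd i)))

/-- The form `M + c |φ|²`. -/
def NTE (i j k : Fin 3) (s s' : TS) (A w lam1 mu1 c : Sc) : FE :=
  .add (.add (.sub (CFE i j k s A w) (.smul (laS i j k lam1) (CsE i j k s' A w))) (.smul (muT i j k s s' A mu1) .gram))
    (.smul c (.nsq (phT i j k s s' A w lam1 mu1)))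

section

variable {e : Ev ℝ}

theorem ev_on : (evS OR e onS).c = 1 := by
  unfold onS
  rw [ev_cst0]
  norm_num

theorem ev_rl (a : Sc) : (evS OR e (rlS a)).c = ((evS OR e a).re : ℂ) := by
  unfold rlS
  rw [ev_mul, ev_tre, ev_cst0]
  have : ((((536870912 : Int) : ℝ) / 1073741824 : ℝ) : ℂ) = 1 / 2 := by norm_num
  rw [this]
  ring

theorem ev_im (a : Sc) : (evS OR e (imS a)).c = ((evS OR e a).re : ℂ) * I := by
  unfold imS
  rw [ev_mul, ev_tre, ev_cst]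
  apply Complex.ext
  · simp
  · simp
    ring

theorem ev_pAw (q A w : Sc) : (evS OR e (pAw q A w)).c =
    ((evS OR e q).re : ℂ) + ((evS OR e A).re : ℂ) + ((evS OR e w).re : ℂ) * I := by
  unfold pAw
  rw [ev_add, ev_add, ev_rl, ev_rl, ev_im]

theorem ev_pww (q w : Sc) : (evS OR e (pww q w)).c = ((evS OR e q).re : ℂ) + ((evS OR e w).re : ℂ) * I := by
  unfold pww
  rw [ev_add, ev_rl, ev_im]

theorem ev_q2A (s' : TS) (A : Sc) : (evS OR e (q2A s' A)).c = ((s'.tp e).q : ℂ) + 2 * ((evS OR e A).re : ℂ) := by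
  unfold q2A
  rw [ev_add, ev_rl, ev_tre]
  rfl

theorem ev_dEE (s' : TS) : (evS OR e (dEE s')).c = 2 * ((s'.tp e).D : ℂ) - conj (s'.tp e).E := by
  unfold dEE
  rw [ev_sub, ev_tre, ev_cj]
  rfl

theorem ev_cl (hk : EvOK e) {i j k : Fin 3} (hij : i ≠ j) (hik : i ≠ k) (hjk : j ≠ k) (z : Fin 3 → ℂ) :
    (evF OR e (clF i j k)).v z = conj (gaG (gm e.g) i j k) * lmG (gm e.g) j k z := by
  show (Rw.smul OR (evS OR e (.cj (gaS i j k))) (evF OR e (lmF j k))).v z = _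
  rw [v_smul, ev_lm, ev_cj, ev_ga hk hij hik hjk]

theorem lm_Sg (G : Matrix (Fin 3) (Fin 3) ℂ) (i j k : Fin 3) (z : Fin 3 → ℂ) :
    lmG G j k (Sg G i *ᵥ z) = 2 * gaG G i j k * (∑ b, G i b * z b) - lmG G j k z := by
  unfold lmG gaG
  rw [G_Sg, G_Sg]
  ring

theorem ev_LL (i j k : Fin 3) (z : Fin 3 → ℂ) : (evF OR e (LLF i j k)).v z =
    2 * gaG (gm e.g) i j k * (∑ b, gm e.g i b * z b) - lmG (gm e.g) j k z := by
  show (Rw.comp OR e.g i (evF OR e (lmF j k))).v z = _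
  rw [v_comp, ev_lm, lm_Sg]

theorem ev_C (hk : EvOK e) {i j k : Fin 3} (hij : i ≠ j) (hik : i ≠ k) (hjk : j ≠ k) (s : TS) (A w : Sc) (z : Fin 3 → ℂ) :
    qf (hm (evQ OR e (CFE i j k s A w))) z = CfG (gm e.g) i j k (s.tp e) (evS OR e A).re (evS OR e w).re z := by
  show qf (hm (((((H9.gram OR e.g).smul OR (evS OR e s.κ).re).add OR ((H9.nsq OR (e.g.row OR i)).smul OR (evS OR e s.D).re)).add OR
    ((H9.nsq OR (evF OR e (lmF j k))).smul OR (evS OR e s.F).re)).add OR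
    ((H9.re2 OR (crd OR i) (Rw.sub OR (Rw.smul OR (evS OR e (pAw s.q A w)) (e.g.row OR i))
      (Rw.smul OR (evS OR e (pww s.q w)) (evF OR e (clF i j k))))).sub OR
      (H9.re2 OR (e.g.row OR i) (Rw.smul OR (evS OR e s.E) (evF OR e (clF i j k))))))) z = _
  rw [qf_hadd, qf_hadd, qf_hadd, qf_hsub, qf_hsmul, qf_hsmul, qf_hsmul, qf_re2, qf_re2, qf_nsq, qf_nsq, hm_gram, v_sub, v_smul,
    v_smul, v_smul, v_crd, v_row, ev_lm, ev_cl hk hij hik hjk, ev_pAw, ev_pww]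
  show (evS OR e s.κ).re * qf (gm e.g) z + (evS OR e s.D).re * normSq (∑ b, gm e.g i b * z b) +
    (evS OR e s.F).re * normSq (lmG (gm e.g) j k z) + _ = (evS OR e s.κ).re * qf (gm e.g) z +
    (evS OR e s.D).re * normSq (∑ b, gm e.g i b * z b) + (evS OR e s.F).re * normSq (lmG (gm e.g) j k z) +
    2 * (conj (∑ b, gm e.g i b * z b) * ((evS OR e s.E).c * -(conj (gaG (gm e.g) i j k) * lmG (gm e.g) j k z))).re +
    2 * (conj (z i) * ((((evS OR e s.q).re : ℂ) + (evS OR e A).re + (evS OR e w).re * I) * (∑ b, gm e.g i b * z b) +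
      (((evS OR e s.q).re : ℂ) + (evS OR e w).re * I) * -(conj (gaG (gm e.g) i j k) * lmG (gm e.g) j k z))).re
  have e1 : ∀ a b : ℂ, (conj a * (b * -(conj (gaG (gm e.g) i j k) * lmG (gm e.g) j k z))).re =
      -(conj a * (b * (conj (gaG (gm e.g) i j k) * lmG (gm e.g) j k z))).re := by
    intro a b
    rw [← Complex.neg_re]
    congr 1
    ring
  rw [e1, mul_sub, mul_add, Complex.sub_re, Complex.add_re, e1]
  ring

theorem ev_Cs (hk : EvOK e) {i j k : Fin 3} (hij : i ≠ j) (hik : i ≠ k) (hjk : j ≠ k) (s : TS) (A w : Sc) (z : Fin 3 → ℂ) :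
    qf (hm (evQ OR e (CsE i j k s A w))) z =
      cval (s.tp e) (evS OR e A).re (evS OR e w).re (conj (gaG (gm e.g) i j k))
        (2 * gaG (gm e.g) i j k * (∑ b, gm e.g i b * z b) - lmG (gm e.g) j k z) (∑ b, gm e.g i b * z b) (z k) (qf (gm e.g) z) := by
  show qf (hm (((((H9.gram OR e.g).smul OR (evS OR e s.κ).re).add OR ((H9.nsq OR (evF OR e (LLF i j k))).smul OR (evS OR e s.D).re)).add OR
    ((H9.nsq OR (e.g.row OR i)).smul OR (evS OR e s.F).re)).add OR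
    ((H9.re2 OR (crd OR k) (Rw.sub OR (Rw.smul OR (evS OR e (pAw s.q A w)) (evF OR e (LLF i j k)))
      (Rw.smul OR (evS OR e (.mul (pww s.q w) (gaS i j k))) (e.g.row OR i)))).sub OR
      (H9.re2 OR (evF OR e (LLF i j k)) (Rw.smul OR (evS OR e (.mul s.E (gaS i j k))) (e.g.row OR i)))))) z = _
  rw [qf_hadd, qf_hadd, qf_hadd, qf_hsub, qf_hsmul, qf_hsmul, qf_hsmul, qf_re2, qf_re2, qf_nsq, qf_nsq, hm_gram, v_sub, v_smul,
    v_smul, v_smul, v_crd, v_row, ev_LL, ev_pAw, ev_mul, ev_mul, ev_pww, ev_ga hk hij hik hjk]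
  set x := ∑ b, gm e.g i b * z b
  set L := 2 * gaG (gm e.g) i j k * x - lmG (gm e.g) j k z
  set g := gaG (gm e.g) i j k
  show (evS OR e s.κ).re * qf (gm e.g) z + (evS OR e s.D).re * normSq L + (evS OR e s.F).re * normSq x + _ =
    (evS OR e s.κ).re * qf (gm e.g) z + (evS OR e s.D).re * normSq L + (evS OR e s.F).re * normSq x +
    2 * (conj L * ((evS OR e s.E).c * -(conj (conj g) * x))).re +
    2 * (conj (z k) * ((((evS OR e s.q).re : ℂ) + (evS OR e A).re + (evS OR e w).re * I) * L +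
      (((evS OR e s.q).re : ℂ) + (evS OR e w).re * I) * -(conj (conj g) * x))).re
  rw [Complex.conj_conj]
  have e1 : ∀ a b : ℂ, (conj a * (b * -(g * x))).re = -(conj a * (b * g * x)).re := by
    intro a b
    rw [← Complex.neg_re]
    congr 1
    ring
  rw [e1, mul_sub, mul_add, Complex.sub_re, Complex.add_re, e1]
  ring

theorem ev_od (hk : EvOK e) {i j k : Fin 3} (hij : i ≠ j) (hik : i ≠ k) (hjk : j ≠ k) :
    (evS OR e (odS i j k)).c = (normSq (gaG (gm e.g) i j k) : ℂ) := by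
  unfold odS
  rw [ev_mul, ev_cj, ev_ga hk hij hik hjk, Complex.mul_conj]

theorem ev_de (hk : EvOK e) {i j k : Fin 3} (hij : i ≠ j) (hik : i ≠ k) (hjk : j ≠ k) :
    (evS OR e (deS i j k)).c = ((normSq (gaG (gm e.g) i j k) - 1 : ℝ) : ℂ) := by
  unfold deS
  rw [ev_sub, ev_od hk hij hik hjk, ev_on]
  push_cast
  rfl

theorem ev_la (hk : EvOK e) {i j k : Fin 3} (hij : i ≠ j) (hik : i ≠ k) (hjk : j ≠ k) (lam1 : Sc) :
    (evS OR e (laS i j k lam1)).c = ((1 + (normSq (gaG (gm e.g) i j k) - 1) * (evS OR e lam1).re : ℝ) : ℂ) := by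
  unfold laS
  rw [ev_add, ev_on, ev_mul, ev_de hk hij hik hjk, ev_rl]
  push_cast
  rfl

theorem ev_muT (hk : EvOK e) {i j k : Fin 3} (hij : i ≠ j) (hik : i ≠ k) (hjk : j ≠ k) (s s' : TS) (A mu1 : Sc) :
    (evS OR e (muT i j k s s' A mu1)).c = (((evS OR e A).re + (s'.tp e).κ + (s'.tp e).q - (s.tp e).κ - (s.tp e).q +
      (normSq (gaG (gm e.g) i j k) - 1) * (evS OR e mu1).re : ℝ) : ℂ) := by
  unfold muT
  rw [ev_add, ev_sub, ev_sub, ev_add, ev_add, ev_rl, ev_rl, ev_rl, ev_rl, ev_rl, ev_mul, ev_de hk hij hik hjk, ev_rl]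
  show _ = (((evS OR e A).re + (evS OR e s'.κ).re + (evS OR e s'.q).re - (evS OR e s.κ).re - (evS OR e s.q).re +
      (normSq (gaG (gm e.g) i j k) - 1) * (evS OR e mu1).re : ℝ) : ℂ)
  push_cast
  rfl

theorem ev_al (hk : EvOK e) {i j k : Fin 3} (hij : i ≠ j) (hik : i ≠ k) (hjk : j ≠ k) (s s' : TS) (A lam1 mu1 : Sc) :
    (evS OR e (alS i j k s s' A lam1 mu1)).c = ((aval (s.tp e) (s'.tp e) (evS OR e A).re (evS OR e lam1).re (evS OR e mu1).re
      (1 + (normSq (gaG (gm e.g) i j k) - 1) * (evS OR e lam1).re) (normSq (gaG (gm e.g) i j k) - 1) : ℝ) : ℂ) := by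
  unfold alS aval
  simp only [ev_add, ev_sub, ev_mul, ev_rl, ev_q2A, ev_de hk hij hik hjk, ev_od hk hij hik hjk, ev_la hk hij hik hjk, ev_cst0]
  have h4 : ((((4294967296 : Int) : ℝ) / 1073741824 : ℝ) : ℂ) = 4 := by norm_num
  have hE : (s'.tp e).E.re = (evS OR e s'.E).re := rfl
  have hD : (s.tp e).D = (evS OR e s.D).re := rfl
  have hq : (s.tp e).q = (evS OR e s.q).re := rfl
  have hD' : (s'.tp e).D = (evS OR e s'.D).re := rfl
  have hF' : (s'.tp e).F = (evS OR e s'.F).re := rfl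
  have hκ' : (s'.tp e).κ = (evS OR e s'.κ).re := rfl
  rw [h4, hE, hD, hq, hD', hF', hκ']
  push_cast
  ring

theorem ev_phT (hk : EvOK e) {i j k : Fin 3} (hij : i ≠ j) (hik : i ≠ k) (hjk : j ≠ k) (s s' : TS) (A w lam1 mu1 : Sc)
    (z : Fin 3 → ℂ) : (evF OR e (phT i j k s s' A w lam1 mu1)).v z =
    pval' (s.tp e) (s'.tp e) (evS OR e A).re (evS OR e w).re (evS OR e lam1).re (evS OR e mu1).re
      (1 + (normSq (gaG (gm e.g) i j k) - 1) * (evS OR e lam1).re) (normSq (gaG (gm e.g) i j k) - 1)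
      (gaG (gm e.g) i j k) (∑ b, gm e.g i b * z b) (lmG (gm e.g) j k z) (z i) (z k) := by
  have hF : ∀ f g : Fn, (evF OR e (.add f g)).v z = (evF OR e f).v z + (evF OR e g).v z := fun f g => v_add _ _ _
  have hF' : ∀ f g : Fn, (evF OR e (.sub f g)).v z = (evF OR e f).v z - (evF OR e g).v z := fun f g => v_sub _ _ _
  have hF'' : ∀ (c : Sc) (g : Fn), (evF OR e (.smul c g)).v z = (evS OR e c).c * (evF OR e g).v z := fun c g => v_smul _ _ _
  have hr : (evF OR e (.row i)).v z = ∑ b, gm e.g i b * z b := v_row _ _ _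
  have hi : (evF OR e (.crd i)).v z = z i := v_crd _ _
  have hk' : (evF OR e (.crd k)).v z = z k := v_crd _ _
  unfold phT
  simp only [hF, hF', hF'', hr, hi, hk', ev_cl hk hij hik hjk, ev_add, ev_sub, ev_mul, ev_cj, ev_rl, ev_im, ev_q2A, ev_dEE,
    ev_two, ev_od hk hij hik hjk, ev_la hk hij hik hjk, ev_pAw, ev_ga hk hij hik hjk, map_add, map_mul,
    Complex.conj_ofReal, Complex.conj_I]
  unfold pval'
  have hE : (s'.tp e).E = (evS OR e s'.E).c := rfl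
  have hE2 : (s.tp e).E = (evS OR e s.E).c := rfl
  have hD : (s.tp e).D = (evS OR e s.D).re := rfl
  have hq : (s.tp e).q = (evS OR e s.q).re := rfl
  have hq' : (s'.tp e).q = (evS OR e s'.q).re := rfl
  have hD' : (s'.tp e).D = (evS OR e s'.D).re := rfl
  have hFF : (s'.tp e).F = (evS OR e s'.F).re := rfl
  have hκ' : (s'.tp e).κ = (evS OR e s'.κ).re := rfl
  rw [hE, hE2, hD, hq, hq', hD', hFF, hκ']
  set g := gaG (gm e.g) i j k
  have hn : (normSq g : ℂ) = g * conj g := (Complex.mul_conj g).symm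
  push_cast
  rw [hn]
  ring

theorem ev_NT (hk : EvOK e) {i j k : Fin 3} (hij : i ≠ j) (hik : i ≠ k) (hjk : j ≠ k) (s s' : TS) (A w lam1 mu1 c : Sc)
    (z : Fin 3 → ℂ) : qf (hm (evQ OR e (NTE i j k s s' A w lam1 mu1 c))) z =
    mval (s.tp e) (s'.tp e) (evS OR e A).re (evS OR e w).re (evS OR e (laS i j k lam1)).re (evS OR e (muT i j k s s' A mu1)).re
      (gaG (gm e.g) i j k) (∑ b, gm e.g i b * z b) (lmG (gm e.g) j k z) (z i) (z k) (qf (gm e.g) z) +
    (evS OR e c).re * normSq (pval' (s.tp e) (s'.tp e) (evS OR e A).re (evS OR e w).re (evS OR e lam1).re (evS OR e mu1).re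
      (1 + (normSq (gaG (gm e.g) i j k) - 1) * (evS OR e lam1).re) (normSq (gaG (gm e.g) i j k) - 1)
      (gaG (gm e.g) i j k) (∑ b, gm e.g i b * z b) (lmG (gm e.g) j k z) (z i) (z k)) := by
  show qf (hm (((((evQ OR e (CFE i j k s A w)).sub OR ((evQ OR e (CsE i j k s' A w)).smul OR (evS OR e (laS i j k lam1)).re)).add OR
    ((H9.gram OR e.g).smul OR (evS OR e (muT i j k s s' A mu1)).re)).add OR
    ((H9.nsq OR (evF OR e (phT i j k s s' A w lam1 mu1))).smul OR (evS OR e c).re)))) z = _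
  rw [qf_hadd, qf_hadd, qf_hsub, qf_hsmul, qf_hsmul, qf_hsmul, qf_nsq, hm_gram, ev_C hk hij hik hjk, ev_Cs hk hij hik hjk,
    ev_phT hk hij hik hjk]
  rfl

/-- The border test for tied forms and the word `I_i I_j`. -/
theorem tied_ev (hk : EvOK e) {i j k : Fin 3} (hij : i ≠ j) (hik : i ≠ k) (hjk : j ≠ k) (s s' : TS) (A w lam1 mu1 c : Sc)
    (hl : 0 < (evS OR e (laS i j k lam1)).re) (hμ : 0 < (evS OR e (muT i j k s s' A mu1)).re)
    (hal : 0 < (evS OR e (alS i j k s s' A lam1 mu1)).re) (hδ : 1 ≤ normSq (gaG (gm e.g) i j k))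
    (hN : ∀ v, 0 ≤ qf (hm (evQ OR e (NTE i j k s s' A w lam1 mu1 c))) v) :
    Incl (gm e.g) (altS (gm e.g) i j 2) (hm (evQ OR e (CFE k j i s' A w))) (hm (evQ OR e (CFE i j k s A w))) := by
  intro x hx hQ
  rw [ev_C hk hjk.symm hik.symm hij.symm] at hQ
  have e0 : altS (gm e.g) i j 2 *ᵥ x = Sg (gm e.g) i *ᵥ (Sg (gm e.g) j *ᵥ x) := by
    have : altS (gm e.g) i j 2 = Sg (gm e.g) i * (Sg (gm e.g) j * 1) := rfl
    rw [this, mul_one, Matrix.mulVec_mulVec]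
  rw [ev_C hk hij hik hjk, e0]
  have h1 : (evS OR e (laS i j k lam1)).re = 1 + (normSq (gaG (gm e.g) i j k) - 1) * (evS OR e lam1).re := by
    rw [← c_re, ev_la hk hij hik hjk, Complex.ofReal_re]
  have h2 : (evS OR e (muT i j k s s' A mu1)).re = (evS OR e A).re + (s'.tp e).κ + (s'.tp e).q - (s.tp e).κ - (s.tp e).q +
      (normSq (gaG (gm e.g) i j k) - 1) * (evS OR e mu1).re := by
    rw [← c_re, ev_muT hk hij hik hjk, Complex.ofReal_re]
  have h3 : (evS OR e (alS i j k s s' A lam1 mu1)).re = aval (s.tp e) (s'.tp e) (evS OR e A).re (evS OR e lam1).re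
      (evS OR e mu1).re (1 + (normSq (gaG (gm e.g) i j k) - 1) * (evS OR e lam1).re) (normSq (gaG (gm e.g) i j k) - 1) := by
    rw [← c_re, ev_al hk hij hik hjk, Complex.ofReal_re]
  refine tied_incl (gm e.g) (gm_gram e.g) hij hik hjk (s.tp e) (s'.tp e) (evS OR e A).re (evS OR e w).re (evS OR e lam1).re
    (evS OR e mu1).re (evS OR e c).re (evS OR e (laS i j k lam1)).re (evS OR e (muT i j k s s' A mu1)).re h1 h2 hl hμ hδ ?_ ?_
    hx hQ
  · rw [h1, ← h3]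
    exact hal
  · intro z
    have h4 := hN z
    rw [ev_NT hk hij hik hjk] at h4
    rw [h1] at h4 ⊢
    exact h4

/-- The same with the source `C_ki`, if `I_i I_j` has order three (the parameters of the source refer to `C_ki`). -/
theorem tied_ev' (hk : EvOK e) {i j k : Fin 3} (hij : i ≠ j) (hik : i ≠ k) (hjk : j ≠ k) (s s' : TS) (A w lam1 mu1 c : Sc)
    (h3 : normSq (gm e.g i j) = 1 / 4)
    (hl : 0 < (evS OR e (laS i j k lam1)).re) (hμ : 0 < (evS OR e (muT i j k s s' A mu1)).re)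
    (hal : 0 < (evS OR e (alS i j k s s' A lam1 mu1)).re) (hδ : 1 ≤ normSq (gaG (gm e.g) i j k))
    (hN : ∀ v, 0 ≤ qf (hm (evQ OR e (NTE i j k s s' A w lam1 mu1 c))) v) :
    Incl (gm e.g) (altS (gm e.g) i j 2) (hm (evQ OR e (CFE k i j s' A w))) (hm (evQ OR e (CFE i j k s A w))) := by
  intro x hx hQ
  rw [ev_C hk hik.symm hjk.symm hij, CfG_three (gm e.g) (gm_gram e.g) hij hik hjk h3, ← ev_C hk hjk.symm hik.symm hij.symm] at hQ
  exact tied_ev hk hij hik hjk s s' A w lam1 mu1 c hl hμ hal hδ hN x hx hQ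

end

end Pool.Agent.Work.MP_88b7aa_gt.PQ
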