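import Pool.Agent.Work.MP_88b7aa_gt.PQ.Mir
import Pool.Agent.Work.MP_88b7aa_gt.PQ.Tied
import Pool.Agent.Work.MP_88b7aa_gt.PQ.C3

/-!
# Special facts: images, the star condition, the inclusion of the explicit forms
-/

noncomputable section

namespace Pool.Agent.Work.MP_88b7aa_gt.PQ

open Pool.Agent.Work.MP_88b7aa_gt.CH
open ComplexConjugate Complex Matrix

/-- The first letter of the inverse of the word `j k j ...` of length `l`. -/
def rv1 (j k : Fin 3) (l : ℕ) : Fin 3 := if l % 2 = 0 then k else j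
def rv2 (j k : Fin 3) (l : ℕ) : Fin 3 := if l % 2 = 0 then j else k

theorem wrd_snoc (l : ℕ) : ∀ j k : Fin 3, wrd j k (l + 1) = wrd j k l ++ [if l % 2 = 0 then j else k] := by
  induction l with
  | zero => intro j k; rfl
  | succ l ih =>
    intro j k
    show j :: wrd k j (l + 1) = (j :: wrd k j l) ++ [if (l + 1) % 2 = 0 then j else k]
    rw [ih k j, List.cons_append]
    congr 3
    rcases Nat.mod_two_eq_zero_or_one l with h | h
    · rw [if_pos h, if_neg (by omega)]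
    · rw [if_neg (by omega), if_pos (by omega)]

theorem wrd_rev (l : ℕ) : ∀ j k : Fin 3, (wrd j k l).reverse = wrd (rv1 j k l) (rv2 j k l) l := by
  induction l with
  | zero => intro j k; rfl
  | succ l ih =>
    intro j k
    rw [wrd_snoc, List.reverse_append, ih]
    show (if l % 2 = 0 then j else k) :: wrd (rv1 j k l) (rv2 j k l) l = rv1 j k (l + 1) :: wrd (rv2 j k (l + 1)) (rv1 j k (l + 1)) l
    unfold rv1 rv2
    rcases Nat.mod_two_eq_zero_or_one l with h | h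
    · have h' : ¬ (l + 1) % 2 = 0 := by omega
      simp only [h, h', if_true, if_false]
    · have h' : (l + 1) % 2 = 0 := by omega
      have h'' : ¬ l % 2 = 0 := by omega
      simp only [h', h'', if_true, if_false]

/-- The inverse of an alternating word. -/
theorem alt_inv (G : Matrix (Fin 3) (Fin 3) ℂ) (hG : IsGram G) (j k : Fin 3) (l : ℕ) (x : Fin 3 → ℂ) :
    altS G (rv1 j k l) (rv2 j k l) l *ᵥ (altS G j k l *ᵥ x) = x := by
  rw [← actL_wrd, ← actL_wrd, ← wrd_rev, actL_reverse G hG]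

theorem alt_inv' (G : Matrix (Fin 3) (Fin 3) ℂ) (hG : IsGram G) (j k : Fin 3) (l : ℕ) (x : Fin 3 → ℂ) :
    altS G j k l *ᵥ (altS G (rv1 j k l) (rv2 j k l) l *ᵥ x) = x := by
  have h := alt_inv G hG (rv1 j k l) (rv2 j k l) l x
  have e1 : rv1 (rv1 j k l) (rv2 j k l) l = j := by
    unfold rv1 rv2
    split_ifs <;> rfl
  have e2 : rv2 (rv1 j k l) (rv2 j k l) l = k := by
    unfold rv1 rv2
    split_ifs <;> rfl
  rw [e1, e2] at h
  exact h

/-- The functional `x_i` with the sign of the word. -/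
def sgF (i : Fin 3) (l : ℕ) : Fn := if l % 2 = 0 then .crd i else .smul (.cst (-1073741824) 0) (.crd i)

/-- The image of `FEQ i` under the word `j k j ...` of length `l`, `j, k ≠ i`. -/
def FUT (i j k : Fin 3) (l : ℕ) : FE :=
  .sub (.re2 (.word (rv1 j k l) (rv2 j k l) l (.row i)) (sgF i l))
    (.add (.nsq (.word (rv1 j k l) (rv2 j k l) l (.row i))) (.nsq (.word (rv1 j k l) (rv2 j k l) l (.row i))))

theorem sgF_v {e : Ev ℝ} (he : EvOK e) {i j k : Fin 3} (hij : i ≠ j) (hik : i ≠ k) (hjk : j ≠ k) (l : ℕ) (x : Fin 3 → ℂ) :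
    (evF OR e (sgF i l)).v x = (altS (gm e.g) j k l *ᵥ x) i := by
  rw [altS_closed (gm_gram e.g) l (he.unit j k) (he.key j k hjk) x i, if_neg hij, if_neg hik]
  unfold sgF
  rcases Nat.mod_two_eq_zero_or_one l with h | h
  · rw [if_pos h, (Nat.even_iff.mpr h).neg_one_pow]
    show (crd OR i).v x = _
    rw [v_crd]
    simp
  · rw [if_neg (by omega), (Nat.odd_iff.mpr h).neg_one_pow]
    show (Rw.smul OR (evS OR e (.cst (-1073741824) 0)) (crd OR i)).v x = _
    rw [v_smul, v_crd, evS_cst' e (-1073741824) (-1) (by norm_num)]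
    simp

/-- The semantics of the image. -/
theorem qf_FUT {e : Ev ℝ} (he : EvOK e) {i j k : Fin 3} (hij : i ≠ j) (hik : i ≠ k) (hjk : j ≠ k) (l : ℕ) (x : Fin 3 → ℂ) :
    qf (hm (evQ OR e (FUT i j k l))) x = 2 * qf (QP (gm e.g) i) (altS (gm e.g) (rv1 j k l) (rv2 j k l) l *ᵥ x) := by
  have h1 : i ≠ rv1 j k l := by unfold rv1; split_ifs <;> assumption
  have h2 : i ≠ rv2 j k l := by unfold rv2; split_ifs <;> assumption
  have h3 : rv1 j k l ≠ rv2 j k l := by
    unfold rv1 rv2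
    split_ifs
    · exact hjk.symm
    · exact hjk
  show qf (hm ((H9.re2 OR (evF OR e (.word (rv1 j k l) (rv2 j k l) l (.row i))) (evF OR e (sgF i l))).sub OR
    ((H9.nsq OR (evF OR e (.word (rv1 j k l) (rv2 j k l) l (.row i)))).add OR
      (H9.nsq OR (evF OR e (.word (rv1 j k l) (rv2 j k l) l (.row i))))))) x = _
  rw [qf_hsub, qf_hadd, qf_re2, qf_nsq, sgF_v he h1 h2 h3, word_evF he]
  show 2 * (conj ((e.g.row OR i).v _) * _).re - (normSq ((e.g.row OR i).v _) + normSq ((e.g.row OR i).v _)) = _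
  rw [v_row, qf_QP]
  simp only [normSq_apply, Complex.mul_re, Complex.conj_re, Complex.conj_im, Complex.sub_re, Complex.sub_im]
  ring

/-- The functional composed with the word `j k j ...`, with the word at the atoms. -/
def Fn.pushW (j k : Fin 3) (l : ℕ) : Fn → Fn
  | .row i => .word j k l (.row i)
  | .crd i => if i ≠ j ∧ i ≠ k ∧ j ≠ k then sgF i l else .word j k l (.crd i)
  | .add f g => .add (f.pushW j k l) (g.pushW j k l)
  | .sub f g => .sub (f.pushW j k l) (g.pushW j k l)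
  | .smul c f => .smul c (f.pushW j k l)
  | .comp i f => .word j k l (.comp i f)
  | .word i i' l' f => .word j k l (.word i i' l' f)

/-- The form composed with the word `j k j ...`, with the word at the functionals. -/
def FE.pushW (j k : Fin 3) (l : ℕ) : FE → FE
  | .gram => .gram
  | .nsq f => .nsq (f.pushW j k l)
  | .re2 f g => .re2 (f.pushW j k l) (g.pushW j k l)
  | .add F H => .add (F.pushW j k l) (H.pushW j k l)
  | .sub F H => .sub (F.pushW j k l) (H.pushW j k l)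
  | .smul c F => .smul c (F.pushW j k l)
  | F => .word j k l F

theorem pushW_v {e : Ev ℝ} (he : EvOK e) (j k : Fin 3) (l : ℕ) (x : Fin 3 → ℂ) (f : Fn) :
    (evF OR e (f.pushW j k l)).v x = (evF OR e f).v (altS (gm e.g) j k l *ᵥ x) := by
  induction f with
  | row i => exact word_evF he j k l _ x
  | crd i =>
    unfold Fn.pushW
    split_ifs with h
    · rw [sgF_v he h.1 h.2.1 h.2.2]
      exact (v_crd i _).symm
    · exact word_evF he j k l _ x
  | add f g ihf ihg =>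
    show (Rw.add OR (evF OR e (f.pushW j k l)) (evF OR e (g.pushW j k l))).v x = (Rw.add OR (evF OR e f) (evF OR e g)).v _
    rw [v_add, v_add, ihf, ihg]
  | sub f g ihf ihg =>
    show (Rw.sub OR (evF OR e (f.pushW j k l)) (evF OR e (g.pushW j k l))).v x = (Rw.sub OR (evF OR e f) (evF OR e g)).v _
    rw [v_sub, v_sub, ihf, ihg]
  | smul c f ih =>
    show (Rw.smul OR (evS OR e c) (evF OR e (f.pushW j k l))).v x = (Rw.smul OR (evS OR e c) (evF OR e f)).v _
    rw [v_smul, v_smul, ih]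
  | comp i f _ => exact word_evF he j k l _ x
  | word i i' l' f _ => exact word_evF he j k l _ x

theorem pushW_q {e : Ev ℝ} (he : EvOK e) (j k : Fin 3) (l : ℕ) (x : Fin 3 → ℂ) (F : FE) :
    qf (hm (evQ OR e (F.pushW j k l))) x = qf (hm (evQ OR e F)) (altS (gm e.g) j k l *ᵥ x) := by
  induction F with
  | gram =>
    show qf (hm (H9.gram OR e.g)) x = qf (hm (H9.gram OR e.g)) _
    rw [hm_gram, qf_gram_alt _ (gm_gram e.g)]
  | mat => exact word_evQ he j k l _ x
  | mats => exact word_evQ he j k l _ x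
  | nsq f =>
    show qf (hm (H9.nsq OR (evF OR e (f.pushW j k l)))) x = qf (hm (H9.nsq OR (evF OR e f))) _
    rw [qf_nsq, qf_nsq, pushW_v he]
  | re2 f g =>
    show qf (hm (H9.re2 OR (evF OR e (f.pushW j k l)) (evF OR e (g.pushW j k l)))) x = qf (hm (H9.re2 OR (evF OR e f) (evF OR e g))) _
    rw [qf_re2, qf_re2, pushW_v he, pushW_v he]
  | add F H ihF ihH =>
    show qf (hm (H9.add OR (evQ OR e (F.pushW j k l)) (evQ OR e (H.pushW j k l)))) x = qf (hm (H9.add OR (evQ OR e F) (evQ OR e H))) _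
    rw [qf_hadd, qf_hadd, ihF, ihH]
  | sub F H ihF ihH =>
    show qf (hm (H9.sub OR (evQ OR e (F.pushW j k l)) (evQ OR e (H.pushW j k l)))) x = qf (hm (H9.sub OR (evQ OR e F) (evQ OR e H))) _
    rw [qf_hsub, qf_hsub, ihF, ihH]
  | smul c F ih =>
    show qf (hm ((evQ OR e (F.pushW j k l)).smul OR (evS OR e c).re)) x = qf (hm ((evQ OR e F).smul OR (evS OR e c).re)) _
    rw [qf_hsmul, qf_hsmul, ih]
  | comp i F _ => exact word_evQ he j k l _ x
  | word i i' l' F _ => exact word_evQ he j k l _ x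

/-- `fes t` is the image of `fes s` under the word `j k j ...`. -/
def ImOk (fes : List FE) (j k : Fin 3) (l s t : ℕ) : Prop :=
  fes.getD t .gram = .word (rv1 j k l) (rv2 j k l) l (fes.getD s .gram) ∨
    fes.getD t .gram = (fes.getD s .gram).pushW (rv1 j k l) (rv2 j k l) l

theorem ImOk.q {e : Ev ℝ} (he : EvOK e) {fes : List FE} {j k : Fin 3} {l s t : ℕ} (h : ImOk fes j k l s t) (x : Fin 3 → ℂ) :
    qf (hm (evQ OR e (fes.getD t .gram))) x =
      qf (hm (evQ OR e (fes.getD s .gram))) (altS (gm e.g) (rv1 j k l) (rv2 j k l) l *ᵥ x) := by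
  rcases h with h | h
  · rw [h, word_evQ he]
  · rw [h, pushW_q he]

/-- The parameters of a form `T`. -/
structure TD where
  A : Sc
  B : Sc
  a : Sc
  nu : Sc

/-- Special facts. -/
inductive SK
  | img (j k : Fin 3) (l s t : ℕ)
  | imgT (i j k : Fin 3) (l s t : ℕ)
  | star (i j k : Fin 3) (l s t : ℕ)
  | cc (i j k : Fin 3) (s t : ℕ)
  | bT (sw : Bool) (i j k : Fin 3) (s t : ℕ) (d : TD) (c : Sc)
  | tied (i j k : Fin 3) (s t : ℕ) (d d' : TS) (A w lam1 mu1 c : Sc)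
  /-- the source is the image of `FEQ j` under `I_k I_i`, the target is `FEQ i`, `I_i I_j` has order three -/
  | c3 (i j k : Fin 3) (s t : ℕ)

def SK.fct : SK → Fct
  | .img j k l s t => ⟨j, k, l, some s, t⟩
  | .imgT _ j k l s t => ⟨j, k, l, some s, t⟩
  | .star i j _ _ s t => ⟨i, j, 2, some s, t⟩
  | .cc i j _ s t => ⟨i, j, 2, some s, t⟩
  | .bT false i j _ s t _ _ => ⟨i, j, 2, some s, t⟩
  | .bT true i _ k s t _ _ => ⟨i, k, 2, some s, t⟩
  | .tied i j _ s t _ _ _ _ _ _ _ => ⟨i, j, 2, some s, t⟩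
  | .c3 i j _ s t => ⟨i, j, 2, some s, t⟩

/-- The conditions on the forms; `lb` is a lower bound for the orders, `oe` is the order or zero. -/
def SK.Ok (fes : List FE) (lb oe : Fin 3 → Fin 3 → ℕ) : SK → Prop
  | .img j k l s t => ImOk fes j k l s t
  | .imgT i j k l s t => i ≠ j ∧ i ≠ k ∧ j ≠ k ∧ fes.getD s .gram = FEQ i ∧ fes.getD t .gram = FUT i j k l
  | .star i j k l s t => i ≠ j ∧ i ≠ k ∧ j ≠ k ∧ l % 2 = 0 ∧ 2 ≤ l ∧ l + 1 ≤ lb j k ∧ fes.getD t .gram = FEQ i ∧
      fes.getD s .gram = FUT i k j l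
  | .cc i j k s t => i ≠ j ∧ i ≠ k ∧ j ≠ k ∧ fes.getD s .gram = FEQ k ∧ fes.getD t .gram = FEQ i
  | .bT false i j k s t d _ => i ≠ j ∧ i ≠ k ∧ j ≠ k ∧ fes.getD t .gram = TFE i j k d.A d.B d.a d.nu ∧ ImOk fes k j 2 t s
  | .bT true i j k s t d _ => i ≠ j ∧ i ≠ k ∧ j ≠ k ∧ fes.getD t .gram = TFE i j k d.A d.B d.a d.nu ∧ ImOk fes j k 2 t s
  | .tied i j k s t d d' A w _ _ _ => i ≠ j ∧ i ≠ k ∧ j ≠ k ∧ fes.getD t .gram = CFE i j k d A w ∧
      fes.getD s .gram = CFE k j i d' A w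
  | .c3 i j k s t => i ≠ j ∧ i ≠ k ∧ j ≠ k ∧ oe i j = 3 ∧ fes.getD t .gram = FEQ i ∧ fes.getD s .gram = FUT j k i 2

/-- The squares of the entries. -/
def sqS (i j : Fin 3) : Sc := .mul (.par (cpar i j)) (.par (cpar i j))

/-- an integer constant -/
def ic (n : Int) : Sc := .cst (n * 1073741824) 0

/-- `|⟨n_i, I_j n_k⟩|² = c_ik² + 4 c_ij² c_jk² + 4 a b c cos θ` -/
def ggS (i j k : Fin 3) : Sc := .add (sqS i k) (.add (.mul (ic 4) (.mul (sqS i j) (sqS j k)))
  (.mul (ic 2) (.mul (.mul (.par 0) (.mul (.par 1) (.par 2))) (.add W3 (.cj W3)))))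

/-- the first number of `CC_incl` -/
def ccD (i j k : Fin 3) : Sc :=
  let g := ggS i j k
  let a := sqS i j
  let b := sqS j k
  let c := sqS i k
  .sub (.add (.add (.add (.add (ic 1) (.mul (ic 3) (.mul g g))) (.mul (.mul (ic 2) c) (.add g (ic 3))))
    (.mul a (.sub (.sub (.mul (ic 14) g) (ic 5)) (.mul g g)))) (.mul b (.add (ic 4) (.mul (ic 4) g))))
    (.mul (.mul (.mul (ic 8) a) b) (.add g (ic 3)))

/-- the second number of `CC_incl` -/
def ccK (i j k : Fin 3) : Sc :=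
  let g := ggS i j k
  let a := sqS i j
  let b := sqS j k
  let c := sqS i k
  .add (.add (.add (.add (.sub (.mul (ic 10) (.mul g g)) (.mul g (.mul g g))) (.mul (ic 53) g)) (ic 18))
    (.mul (.sub c (.mul (.mul (ic 4) a) b)) (.sub (.add (.mul (ic 12) g) (ic 21)) (.mul g g))))
    (.mul (.sub (.sub (ic 2) a) b) (.sub (.sub (.mul (ic 2) (.mul g g)) (.mul (ic 24) g)) (ic 10)))

/-- The test that a form is semidefinite. -/
def psdC {R P : Type} (A : Arp R P) (e : Ev R) (F : FE) : Bool :=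
  A.tst (A.pk (evQ A.O e F)) (A.pk (H9.gram A.O e.g)) (A.pk (H9.gram A.O e.g)) (A.O.cst 0) (A.O.cst 0)

/-- The numeric part of the check. -/
def SK.chk {R P : Type} (A : Arp R P) (e : Ev R) : SK → Bool
  | .cc i j k _ _ => A.pos (evS A.O e (ccD i j k)).re && A.pos (evS A.O e (ccK i j k)).re
  | .bT false i j k _ _ d c => A.pos (evS A.O e (muS i j k d.A)).re && psdC A e (NFE i j k d.A d.B d.a c)
  | .bT true i j k _ _ d c => A.pos (evS A.O e (muS i k j d.B)).re && psdC A e (NFE i k j d.B d.A d.a c)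
  | .tied i j k _ _ d d' B w lam1 mu1 c => (A.pos (evS A.O e (laS i j k lam1)).re && A.pos (evS A.O e (muT i j k d d' B mu1)).re) &&
      (A.pos (evS A.O e (alS i j k d d' B lam1 mu1)).re && psdC A e (NTE i j k d d' B w lam1 mu1 c))
  | _ => true

theorem psdC_sound {R P : Type} {A : Arp R P} {Rel : ℝ → R → Prop} {RelP : H9 ℝ → P → Prop} (hA : ArpOK A Rel RelP)
    {e : Ev ℝ} {e' : Ev R} (he : REv Rel e e') (F : FE) (h : psdC A e' F = true) (v : Fin 3 → ℂ) : 0 ≤ qf (hm (evQ OR e F)) v := by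
  have hG := hA.pk (RH.gram hA.rel he.g)
  have h1 := hA.tst (hA.pk (RH.evQ hA.rel he F)) hG hG (hA.rel.cst 0) (hA.rel.cst 0) h v
  simp only [Int.cast_zero, zero_div, zero_mul, sub_zero, add_zero] at h1
  exact h1

theorem ic_c (e : Ev ℝ) (n : Int) : (evS OR e (ic n)).c = ((n : ℝ) : ℂ) := by
  refine evS_cst' e _ _ ?_
  push_cast
  ring

section env

variable (p q r : ℕ) (hp : 3 ≤ p) (hq : 3 ≤ q) (hr : 3 ≤ r) (θ : ℝ) (ex : List (Cx ℝ))

/-- the cosine of a pair -/
noncomputable def ccs (i j : Fin 3) : ℝ := Real.cos (Real.pi / mcox p q r (by omega) (by omega) (by omega) i j)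

theorem par_ccs {i j : Fin 3} (hij : i ≠ j) :
    (evS OR (tEv p q r θ ex) (.par (cpar i j))).c = (ccs p q r hp hq hr i j : ℂ) := by
  have h := cpar_c (a := Real.cos (Real.pi / p)) (b := Real.cos (Real.pi / q)) (c := Real.cos (Real.pi / r)) (z := zz (θ / 6))
    (ex := ex) i j
  rw [cpar_val p q r (by omega) (by omega) (by omega) (zz (θ / 6)) ex hij] at h
  exact h

/-- The entries of the Gram matrix. -/
theorem env_gen {i j k : Fin 3} (hij : i ≠ j) (hik : i ≠ k) (hjk : j ≠ k) : ∃ w : ℂ, normSq w = 1 ∧ (w * w * w).re = Real.cos θ ∧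
    gm (tEv p q r θ ex).g i j = -(ccs p q r hp hq hr i j : ℂ) * w ∧ gm (tEv p q r θ ex).g j k = -(ccs p q r hp hq hr j k : ℂ) * w ∧
    gm (tEv p q r θ ex).g k i = -(ccs p q r hp hq hr k i : ℂ) * w ∧
    ccs p q r hp hq hr i j * ccs p q r hp hq hr j k * ccs p q r hp hq hr k i =
      Real.cos (Real.pi / p) * (Real.cos (Real.pi / q) * Real.cos (Real.pi / r)) := by
  have hgx : gm (tEv p q r θ ex).g = Gx (Real.cos (Real.pi / p)) (Real.cos (Real.pi / q)) (Real.cos (Real.pi / r))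
      (conj (zz (θ / 6)).c * conj (zz (θ / 6)).c) :=
    mkEv_gm (Real.cos (Real.pi / p)) (Real.cos (Real.pi / q)) (Real.cos (Real.pi / r)) (zz (θ / 6)) ex
  have hw3 : ((conj (zz (θ / 6)).c * conj (zz (θ / 6)).c) * (conj (zz (θ / 6)).c * conj (zz (θ / 6)).c) *
      (conj (zz (θ / 6)).c * conj (zz (θ / 6)).c)).re = Real.cos θ := by
    have := W3_c 0 0 0 (θ / 6) ex
    have e : (evS OR (mkEv OR 0 0 0 (zz (θ / 6)) ex) W3).c = (conj (zz (θ / 6)).c * conj (zz (θ / 6)).c) *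
        (conj (zz (θ / 6)).c * conj (zz (θ / 6)).c) * (conj (zz (θ / 6)).c * conj (zz (θ / 6)).c) := by
      show (evS OR _ (.mul (.mul (.par 4) (.par 4)) (.par 4))).c = _
      rw [evS_mul, evS_mul, mkEv_w]
    rw [← e, this]
    show Real.cos (6 * (θ / 6)) = _
    congr 1
    ring
  have hwn : normSq (conj (zz (θ / 6)).c * conj (zz (θ / 6)).c) = 1 := by
    have h1 : normSq (zz (θ / 6)).c = 1 := by
      have := zz_unit (θ / 6)
      rw [Complex.mul_conj] at this
      exact_mod_cast this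
    rw [map_mul, Complex.normSq_conj, h1]
    norm_num
  set w := conj (zz (θ / 6)).c * conj (zz (θ / 6)).c with hwd
  have hwn' : normSq (conj w) = 1 := by rw [Complex.normSq_conj]; exact hwn
  have hw3' : (conj w * conj w * conj w).re = Real.cos θ := by
    rw [← map_mul, ← map_mul, Complex.conj_re]
    exact hw3
  have hwc : conj (conj w) = w := Complex.conj_conj w
  fin_cases i <;> fin_cases j <;> fin_cases k <;>
    first
    | exact absurd rfl hij
    | exact absurd rfl hik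
    | exact absurd rfl hjk
    | skip
  · refine ⟨w, hwn, hw3, ?_, ?_, ?_, ?_⟩
    · rw [hgx]; rfl
    · rw [hgx]; rfl
    · rw [hgx]; rfl
    · show Real.cos (Real.pi / q) * Real.cos (Real.pi / p) * Real.cos (Real.pi / r) = _
      ring
  · refine ⟨conj w, hwn', hw3', ?_, ?_, ?_, ?_⟩
    · rw [hgx]; rfl
    · rw [hgx]; rfl
    · rw [hgx]; rfl
    · show Real.cos (Real.pi / r) * Real.cos (Real.pi / p) * Real.cos (Real.pi / q) = _
      ring
  · refine ⟨conj w, hwn', hw3', ?_, ?_, ?_, ?_⟩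
    · rw [hgx]; rfl
    · rw [hgx]; rfl
    · rw [hgx]; rfl
    · show Real.cos (Real.pi / q) * Real.cos (Real.pi / r) * Real.cos (Real.pi / p) = _
      ring
  · refine ⟨w, hwn, hw3, ?_, ?_, ?_, ?_⟩
    · rw [hgx]; rfl
    · rw [hgx]; rfl
    · rw [hgx]; rfl
    · show Real.cos (Real.pi / p) * Real.cos (Real.pi / r) * Real.cos (Real.pi / q) = _
      ring
  · refine ⟨w, hwn, hw3, ?_, ?_, ?_, ?_⟩
    · rw [hgx]; rfl
    · rw [hgx]; rfl
    · rw [hgx]; rfl
    · show Real.cos (Real.pi / r) * Real.cos (Real.pi / q) * Real.cos (Real.pi / p) = _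
      ring
  · refine ⟨conj w, hwn', hw3', ?_, ?_, ?_, ?_⟩
    · rw [hgx]; rfl
    · rw [hgx]; rfl
    · rw [hgx]; rfl
    · show Real.cos (Real.pi / p) * Real.cos (Real.pi / q) * Real.cos (Real.pi / r) = _
      ring

include hp hq hr in
theorem ccs_sym (i j : Fin 3) : ccs p q r hp hq hr i j = ccs p q r hp hq hr j i := by
  unfold ccs
  rw [mcox_sym p q r (by omega) (by omega) (by omega) i j]

/-- `g` -/
theorem gg_eq {i j k : Fin 3} (hij : i ≠ j) (hik : i ≠ k) (hjk : j ≠ k) :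
    normSq (2 * conj (gm (tEv p q r θ ex).g i j) * conj (gm (tEv p q r θ ex).g j k) - conj (gm (tEv p q r θ ex).g i k)) =
      4 * ccs p q r hp hq hr i j ^ 2 * ccs p q r hp hq hr j k ^ 2 + ccs p q r hp hq hr i k ^ 2 +
        4 * (Real.cos (Real.pi / p) * (Real.cos (Real.pi / q) * Real.cos (Real.pi / r))) * Real.cos θ := by
  obtain ⟨w, h1, h2, h3, h4, h5, h6⟩ := env_gen p q r hp hq hr θ ex hij hik hjk
  rw [h3, h4, ← (gm_gram (tEv p q r θ ex).g).hm k i, h5, ← h6, ← h2, ccs_sym p q r hp hq hr i k]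
  set x := ccs p q r hp hq hr i j
  set y := ccs p q r hp hq hr j k
  set z := ccs p q r hp hq hr k i
  have e : normSq (2 * conj (-(x : ℂ) * w) * conj (-(y : ℂ) * w) - conj (conj (-(z : ℂ) * w))) =
      4 * x ^ 2 * y ^ 2 * (normSq w * normSq w) + z ^ 2 * normSq w + 4 * (x * y * z) * (w * w * w).re := by
    simp only [normSq_apply, Complex.sub_re, Complex.sub_im, Complex.mul_re, Complex.mul_im, Complex.neg_re, Complex.neg_im,
      Complex.ofReal_re, Complex.ofReal_im, Complex.conj_re, Complex.conj_im, Complex.re_ofNat, Complex.im_ofNat]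
    ring
  rw [e, h1]
  ring

theorem gg_ge (hpq : p ≤ q) (hqr : q ≤ r)
    (hfA : 1 ≤ fA (Real.cos (Real.pi / p)) (Real.cos (Real.pi / q)) (Real.cos (Real.pi / r)) (Real.cos θ))
    {i j k : Fin 3} (hij : i ≠ j) (hik : i ≠ k) (hjk : j ≠ k) :
    1 ≤ 4 * ccs p q r hp hq hr i j ^ 2 * ccs p q r hp hq hr j k ^ 2 + ccs p q r hp hq hr i k ^ 2 +
        4 * (Real.cos (Real.pi / p) * (Real.cos (Real.pi / q) * Real.cos (Real.pi / r))) * Real.cos θ := by
  have hab := cos_mono hp hpq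
  have hbc := cos_mono hq hqr
  have ha : 1 / 2 ≤ Real.cos (Real.pi / p) := by
    have := cos_mono (le_refl 3) hp
    have e : Real.cos (Real.pi / (3 : ℕ)) = 1 / 2 := by
      push_cast
      exact Real.cos_pi_div_three
    rw [e] at this
    exact this
  obtain ⟨g0, g1, g2⟩ := perm_ge ha hab hbc hfA
  fin_cases i <;> fin_cases j <;> fin_cases k <;>
    first
    | exact absurd rfl hij
    | exact absurd rfl hik
    | exact absurd rfl hjk
    | skip
  · show 1 ≤ 4 * Real.cos (Real.pi / q) ^ 2 * Real.cos (Real.pi / p) ^ 2 + Real.cos (Real.pi / r) ^ 2 + _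
    linarith
  · show 1 ≤ 4 * Real.cos (Real.pi / r) ^ 2 * Real.cos (Real.pi / p) ^ 2 + Real.cos (Real.pi / q) ^ 2 + _
    linarith
  · show 1 ≤ 4 * Real.cos (Real.pi / q) ^ 2 * Real.cos (Real.pi / r) ^ 2 + Real.cos (Real.pi / p) ^ 2 + _
    linarith
  · show 1 ≤ 4 * Real.cos (Real.pi / p) ^ 2 * Real.cos (Real.pi / r) ^ 2 + Real.cos (Real.pi / q) ^ 2 + _
    linarith
  · show 1 ≤ 4 * Real.cos (Real.pi / r) ^ 2 * Real.cos (Real.pi / q) ^ 2 + Real.cos (Real.pi / p) ^ 2 + _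
    linarith
  · show 1 ≤ 4 * Real.cos (Real.pi / p) ^ 2 * Real.cos (Real.pi / q) ^ 2 + Real.cos (Real.pi / r) ^ 2 + _
    linarith

theorem sqS_c {i j : Fin 3} (hij : i ≠ j) :
    (evS OR (tEv p q r θ ex) (sqS i j)).c = ((ccs p q r hp hq hr i j ^ 2 : ℝ) : ℂ) := by
  show (evS OR (tEv p q r θ ex) (.mul (.par (cpar i j)) (.par (cpar i j)))).c = _
  rw [evS_mul, par_ccs p q r hp hq hr θ ex hij]
  push_cast
  ring

theorem ggS_c {i j k : Fin 3} (hij : i ≠ j) (hik : i ≠ k) (hjk : j ≠ k) :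
    (evS OR (tEv p q r θ ex) (ggS i j k)).c = ((4 * ccs p q r hp hq hr i j ^ 2 * ccs p q r hp hq hr j k ^ 2 +
      ccs p q r hp hq hr i k ^ 2 + 4 * (Real.cos (Real.pi / p) * (Real.cos (Real.pi / q) * Real.cos (Real.pi / r))) *
        Real.cos θ : ℝ) : ℂ) := by
  have ha : (evS OR (tEv p q r θ ex) (.par 0)).c = (Real.cos (Real.pi / p) : ℂ) := mkEv_a _ _ _ _ ex
  have hb : (evS OR (tEv p q r θ ex) (.par 1)).c = (Real.cos (Real.pi / q) : ℂ) := mkEv_b _ _ _ _ ex
  have hc : (evS OR (tEv p q r θ ex) (.par 2)).c = (Real.cos (Real.pi / r) : ℂ) := mkEv_c _ _ _ _ ex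
  have hw : (evS OR (tEv p q r θ ex) W3).c = ⟨Real.cos (6 * (θ / 6)), -Real.sin (6 * (θ / 6))⟩ :=
    W3_c (Real.cos (Real.pi / p)) (Real.cos (Real.pi / q)) (Real.cos (Real.pi / r)) (θ / 6) ex
  have hww : (evS OR (tEv p q r θ ex) W3).c + conj (evS OR (tEv p q r θ ex) W3).c = ((2 * Real.cos θ : ℝ) : ℂ) := by
    rw [hw]
    have e6 : 6 * (θ / 6) = θ := by ring
    rw [e6]
    apply Complex.ext
    · show Real.cos θ + Real.cos θ = (((2 * Real.cos θ : ℝ) : ℂ)).re
      rw [Complex.ofReal_re]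
      ring
    · show -Real.sin θ + -(-Real.sin θ) = (((2 * Real.cos θ : ℝ) : ℂ)).im
      rw [Complex.ofReal_im]
      ring
  show (evS OR (tEv p q r θ ex) (.add (sqS i k) (.add (.mul (ic 4) (.mul (sqS i j) (sqS j k)))
    (.mul (ic 2) (.mul (.mul (.par 0) (.mul (.par 1) (.par 2))) (.add W3 (.cj W3))))))).c = _
  simp only [evS_add, evS_mul, evS_cj, ic_c, sqS_c p q r hp hq hr θ ex hij, sqS_c p q r hp hq hr θ ex hik,
    sqS_c p q r hp hq hr θ ex hjk, ha, hb, hc, hww]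
  push_cast
  ring

/-- The first number. -/
theorem ccD_c {i j k : Fin 3} (hij : i ≠ j) (hik : i ≠ k) (hjk : j ≠ k) {a b c g : ℝ} (ha : a = ccs p q r hp hq hr i j ^ 2)
    (hb : b = ccs p q r hp hq hr j k ^ 2) (hc : c = ccs p q r hp hq hr i k ^ 2)
    (hg : (evS OR (tEv p q r θ ex) (ggS i j k)).c = (g : ℂ)) :
    (evS OR (tEv p q r θ ex) (ccD i j k)).c =
      ((1 + 3 * g ^ 2 + 2 * c * (g + 3) + a * (14 * g - 5 - g ^ 2) + b * (4 + 4 * g) - 8 * a * b * (g + 3) : ℝ) : ℂ) := by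
  unfold ccD
  simp only [evS_add, evS_sub, evS_mul, ic_c, hg, sqS_c p q r hp hq hr θ ex hij, sqS_c p q r hp hq hr θ ex hik,
    sqS_c p q r hp hq hr θ ex hjk, ← ha, ← hb, ← hc]
  push_cast
  ring

/-- The second number. -/
theorem ccK_c {i j k : Fin 3} (hij : i ≠ j) (hik : i ≠ k) (hjk : j ≠ k) {a b c g : ℝ} (ha : a = ccs p q r hp hq hr i j ^ 2)
    (hb : b = ccs p q r hp hq hr j k ^ 2) (hc : c = ccs p q r hp hq hr i k ^ 2)
    (hg : (evS OR (tEv p q r θ ex) (ggS i j k)).c = (g : ℂ)) :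
    (evS OR (tEv p q r θ ex) (ccK i j k)).c =
      ((-g ^ 3 + 10 * g ^ 2 + 53 * g + 18 + (c - 4 * a * b) * (12 * g + 21 - g ^ 2) +
      (2 - a - b) * (2 * g ^ 2 - 24 * g - 10) : ℝ) : ℂ) := by
  unfold ccK
  simp only [evS_add, evS_sub, evS_mul, ic_c, hg, sqS_c p q r hp hq hr θ ex hij, sqS_c p q r hp hq hr θ ex hik,
    sqS_c p q r hp hq hr θ ex hjk, ← ha, ← hb, ← hc]
  push_cast
  ring

theorem nsq_ccs {i j : Fin 3} (hij : i ≠ j) : normSq (gm (tEv p q r θ ex).g i j) = ccs p q r hp hq hr i j ^ 2 := by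
  have hev := tEv_ok p q r θ ex
  have h := hev.key i j hij
  have h1 : normSq (evS OR (tEv p q r θ ex) (wph i j)).c = 1 := by
    have := hev.unit i j
    rw [Complex.mul_conj] at this
    exact_mod_cast this
  have h2 : (evS OR (tEv p q r θ ex) (.par (cpar i j))).re = ccs p q r hp hq hr i j := by
    rw [← c_re, par_ccs p q r hp hq hr θ ex hij]
    rfl
  rw [h, h2, map_mul, h1, mul_one, ← Complex.ofReal_neg, Complex.normSq_ofReal]
  ring

end env

/-- Soundness of the special facts. -/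
theorem SK.sound {R P : Type} {A : Arp R P} {Rel : ℝ → R → Prop} {RelP : H9 ℝ → P → Prop} (hA : ArpOK A Rel RelP)
    (p q r : ℕ) (hp : 3 ≤ p) (hpq : p ≤ q) (hqr : q ≤ r) (θ : ℝ) (ex : List (Cx ℝ))
    (hfA : 1 ≤ fA (Real.cos (Real.pi / p)) (Real.cos (Real.pi / q)) (Real.cos (Real.pi / r)) (Real.cos θ))
    {e' : Ev R} (he : REv Rel (tEv p q r θ ex) e') (fes : List FE) (o : Fin 3 → ℂ) (lb oe : Fin 3 → Fin 3 → ℕ)
    (hlb : ∀ i j, i ≠ j → lb i j ≤ mcox p q r (by omega) (by omega) (by omega) i j)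
    (hoe : ∀ i j, i ≠ j → oe i j ≠ 0 → mcox p q r (by omega) (by omega) (by omega) i j = oe i j) (S : SK) (hS : S.Ok fes lb oe)
    (hc : S.chk A e' = true) :
    S.fct.Holds (gm (tEv p q r θ ex).g) (fun t => hm (frm OR (tEv p q r θ ex) fes t)) o := by
  have hev := tEv_ok p q r θ ex
  have hG := gm_gram (tEv p q r θ ex).g
  rcases S with ⟨j, k, l, s, t⟩ | ⟨i, j, k, l, s, t⟩ | ⟨i, j, k, l, s, t⟩ | ⟨i, j, k, s, t⟩ | ⟨sw, i, j, k, s, t, d, c⟩ |
    ⟨i, j, k, s, t, d, d', B, w, lam1, mu1, c⟩ | ⟨i, j, k, s, t⟩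
  · intro x hx hQ
    show 0 < qf (hm (evQ OR (tEv p q r θ ex) (fes.getD t .gram))) (altS (gm (tEv p q r θ ex).g) j k l *ᵥ x)
    rw [ImOk.q hev hS, alt_inv _ hG]
    exact hQ
  · obtain ⟨hij, hik, hjk, h1, h2⟩ := hS
    intro x hx hQ
    have hQ' : 0 < qf (hm (evQ OR (tEv p q r θ ex) (fes.getD s .gram))) x := hQ
    show 0 < qf (hm (evQ OR (tEv p q r θ ex) (fes.getD t .gram))) _
    rw [h1, qf_FEQ] at hQ'
    rw [h2, qf_FUT hev hij hik hjk]
    show 0 < 2 * qf (QP (gm (tEv p q r θ ex).g) i) (altS (gm (tEv p q r θ ex).g) (rv1 j k l) (rv2 j k l) l *ᵥ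
      (altS (gm (tEv p q r θ ex).g) j k l *ᵥ x))
    rw [alt_inv _ hG]
    exact hQ'
  · obtain ⟨hij, hik, hjk, hl0, hl2, hlp, h1, h2⟩ := hS
    intro x hx hQ
    have hQ' : 0 < qf (hm (evQ OR (tEv p q r θ ex) (fes.getD s .gram))) x := hQ
    show 0 < qf (hm (evQ OR (tEv p q r θ ex) (fes.getD t .gram))) _
    rw [h2, qf_FUT hev hik hij hjk.symm] at hQ'
    rw [h1, qf_FEQ]
    -- `z = u⁻¹ x`
    set z := altS (gm (tEv p q r θ ex).g) (rv1 k j l) (rv2 k j l) l *ᵥ x with hzd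
    have hzx : altS (gm (tEv p q r θ ex).g) k j l *ᵥ z = x := alt_inv' _ hG k j l x
    have hz : qf (gm (tEv p q r θ ex).g) z < 0 := by
      rw [hzd, qf_gram_alt _ hG]
      exact hx
    have hQz : 0 < qf (QP (gm (tEv p q r θ ex).g) i) z := by linarith
    obtain ⟨n, rfl⟩ : ∃ n, l = 2 * n := ⟨l / 2, by omega⟩
    have hn : 1 ≤ n := by omega
    have hm : 2 * n + 1 ≤ mcox p q r (by omega) (by omega) (by omega) j k := le_trans hlp (hlb j k hjk)
    have key := mir_star p q r hp hpq hqr θ ex hfA hjk hij.symm hik.symm n hn hm z hz hQz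
    have e1 : altS (gm (tEv p q r θ ex).g) j k (2 * n + 1) *ᵥ z = Sg (gm (tEv p q r θ ex).g) j *ᵥ x := by
      show (Sg (gm (tEv p q r θ ex).g) j * altS (gm (tEv p q r θ ex).g) k j (2 * n)) *ᵥ z = _
      rw [← Matrix.mulVec_mulVec, hzx]
    rw [e1] at key
    have e2 : altS (gm (tEv p q r θ ex).g) i j 2 *ᵥ x = Sg (gm (tEv p q r θ ex).g) i *ᵥ (Sg (gm (tEv p q r θ ex).g) j *ᵥ x) := by
      have : altS (gm (tEv p q r θ ex).g) i j 2 = Sg (gm (tEv p q r θ ex).g) i * (Sg (gm (tEv p q r θ ex).g) j * 1) := rfl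
      rw [this, mul_one, Matrix.mulVec_mulVec]
    show 0 < 2 * qf (QP (gm (tEv p q r θ ex).g) i) (altS (gm (tEv p q r θ ex).g) i j 2 *ᵥ x)
    rw [e2, QP_anti _ hG]
    linarith
  · obtain ⟨hij, hik, hjk, h1, h2⟩ := hS
    unfold SK.chk at hc
    simp only [Bool.and_eq_true] at hc
    obtain ⟨hc1, hc2⟩ := hc
    have d1 := hA.pos (RC.evS hA.rel he (ccD i j k)).re hc1
    have d2 := hA.pos (RC.evS hA.rel he (ccK i j k)).re hc2
    rw [← c_re] at d1 d2
    have hg := ggS_c p q r hp (by omega) (by omega) θ ex hij hik hjk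
    rw [ccD_c p q r hp (by omega) (by omega) θ ex hij hik hjk rfl rfl rfl hg, Complex.ofReal_re] at d1
    rw [ccK_c p q r hp (by omega) (by omega) θ ex hij hik hjk rfl rfl rfl hg, Complex.ofReal_re] at d2
    have hge := gg_ge p q r hp (by omega) (by omega) θ hpq hqr hfA hij hik hjk
    have key := CC_incl _ hG hij hik hjk (nsq_ccs p q r hp (by omega) (by omega) θ ex hij).symm
      (nsq_ccs p q r hp (by omega) (by omega) θ ex hjk).symm (nsq_ccs p q r hp (by omega) (by omega) θ ex hik).symm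
      (gg_eq p q r hp (by omega) (by omega) θ ex hij hik hjk).symm hge d1 d2.le
    intro x hx hQ
    have hQ' : 0 < qf (hm (evQ OR (tEv p q r θ ex) (fes.getD s .gram))) x := hQ
    show 0 < qf (hm (evQ OR (tEv p q r θ ex) (fes.getD t .gram))) _
    rw [h1, qf_FEQ] at hQ'
    rw [h2, qf_FEQ]
    have := key x hx (by linarith)
    show 0 < 2 * qf (QP (gm (tEv p q r θ ex).g) i) (altS (gm (tEv p q r θ ex).g) i j 2 *ᵥ x)
    linarith

  · have gge : ∀ {i j k : Fin 3}, i ≠ j → i ≠ k → j ≠ k → 1 ≤ normSq (gaG (gm (tEv p q r θ ex).g) i j k) := by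
      intro i j k hij hik hjk
      have h1 := gg_eq p q r hp (by omega) (by omega) θ ex hij hik hjk
      have h2 := gg_ge p q r hp (by omega) (by omega) θ hpq hqr hfA hij hik hjk
      rw [← h1] at h2
      have e : 2 * conj (gm (tEv p q r θ ex).g i j) * conj (gm (tEv p q r θ ex).g j k) - conj (gm (tEv p q r θ ex).g i k) =
          gaG (gm (tEv p q r θ ex).g) i j k := by
        rw [hG.hm, hG.hm, hG.hm]
        unfold gaG
        ring
      rwa [e] at h2
    cases sw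
    · obtain ⟨hij, hik, hjk, h1, h2⟩ := hS
      unfold SK.chk at hc
      simp only [Bool.and_eq_true] at hc
      have d1 := hA.pos (RC.evS hA.rel he (muS i j k d.A)).re hc.1
      have d2 := psdC_sound hA he _ hc.2
      intro x hx hQ
      have hQ' : 0 < qf (hm (evQ OR (tEv p q r θ ex) (fes.getD s .gram))) x := hQ
      show 0 < qf (hm (evQ OR (tEv p q r θ ex) (fes.getD t .gram))) (altS (gm (tEv p q r θ ex).g) i j 2 *ᵥ x)
      rw [ImOk.q hev h2, h1] at hQ'
      rw [h1]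
      set z := altS (gm (tEv p q r θ ex).g) (rv1 k j 2) (rv2 k j 2) 2 *ᵥ x with hzd
      have hzx : altS (gm (tEv p q r θ ex).g) k j 2 *ᵥ z = x := alt_inv' _ hG k j 2 x
      have hz : qf (gm (tEv p q r θ ex).g) z < 0 := by
        rw [hzd, qf_gram_alt _ hG]
        exact hx
      have key := bordT_ev hev hij hik hjk d.A d.B d.a d.nu c d1 (gge hij hik hjk) d2 z hz hQ'
      have e1 : actL (gm (tEv p q r θ ex).g) [i, j, k, j] z = altS (gm (tEv p q r θ ex).g) i j 2 *ᵥ x := by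
        have e2 : ([i, j, k, j] : List (Fin 3)) = wrd i j 2 ++ wrd k j 2 := rfl
        rw [e2, actL_append, actL_wrd, actL_wrd, hzx]
      rw [e1] at key
      exact key
    · obtain ⟨hij, hik, hjk, h1, h2⟩ := hS
      unfold SK.chk at hc
      simp only [Bool.and_eq_true] at hc
      have d1 := hA.pos (RC.evS hA.rel he (muS i k j d.B)).re hc.1
      have d2 := psdC_sound hA he _ hc.2
      intro x hx hQ
      have hQ' : 0 < qf (hm (evQ OR (tEv p q r θ ex) (fes.getD s .gram))) x := hQ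
      show 0 < qf (hm (evQ OR (tEv p q r θ ex) (fes.getD t .gram))) (altS (gm (tEv p q r θ ex).g) i k 2 *ᵥ x)
      rw [ImOk.q hev h2, h1] at hQ'
      rw [h1]
      set z := altS (gm (tEv p q r θ ex).g) (rv1 j k 2) (rv2 j k 2) 2 *ᵥ x with hzd
      have hzx : altS (gm (tEv p q r θ ex).g) j k 2 *ᵥ z = x := alt_inv' _ hG j k 2 x
      have hz : qf (gm (tEv p q r θ ex).g) z < 0 := by
        rw [hzd, qf_gram_alt _ hG]
        exact hx
      have key := bordT'_ev hev hij hik hjk d.A d.B d.a d.nu c d1 (gge hik hij hjk.symm) d2 z hz hQ'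
      have e1 : actL (gm (tEv p q r θ ex).g) [i, k, j, k] z = altS (gm (tEv p q r θ ex).g) i k 2 *ᵥ x := by
        have e2 : ([i, k, j, k] : List (Fin 3)) = wrd i k 2 ++ wrd j k 2 := rfl
        rw [e2, actL_append, actL_wrd, actL_wrd, hzx]
      rw [e1] at key
      exact key
  · obtain ⟨hij, hik, hjk, h1, h2⟩ := hS
    unfold SK.chk at hc
    simp only [Bool.and_eq_true] at hc
    obtain ⟨⟨c1, c2⟩, c3, c4⟩ := hc
    have gge : 1 ≤ normSq (gaG (gm (tEv p q r θ ex).g) i j k) := by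
      have h1 := gg_eq p q r hp (by omega) (by omega) θ ex hij hik hjk
      have h2 := gg_ge p q r hp (by omega) (by omega) θ hpq hqr hfA hij hik hjk
      rw [← h1] at h2
      have e : 2 * conj (gm (tEv p q r θ ex).g i j) * conj (gm (tEv p q r θ ex).g j k) - conj (gm (tEv p q r θ ex).g i k) =
          gaG (gm (tEv p q r θ ex).g) i j k := by
        rw [hG.hm, hG.hm, hG.hm]
        unfold gaG
        ring
      rwa [e] at h2
    have key := tied_ev hev hij hik hjk d d' B w lam1 mu1 c (hA.pos (RC.evS hA.rel he _).re c1)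
      (hA.pos (RC.evS hA.rel he _).re c2) (hA.pos (RC.evS hA.rel he _).re c3) gge (psdC_sound hA he _ c4)
    intro x hx hQ
    have hQ' : 0 < qf (hm (evQ OR (tEv p q r θ ex) (fes.getD s .gram))) x := hQ
    show 0 < qf (hm (evQ OR (tEv p q r θ ex) (fes.getD t .gram))) (altS (gm (tEv p q r θ ex).g) i j 2 *ᵥ x)
    rw [h2] at hQ'
    rw [h1]
    exact key x hx hQ'
  · obtain ⟨hij, hik, hjk, h0, h1, h2⟩ := hS
    have hm3 := hoe i j hij (by rw [h0]; decide)
    rw [h0] at hm3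
    have g1 := gg_ge p q r hp (by omega) (by omega) θ hpq hqr hfA hij hik hjk
    rw [← gg_eq p q r hp (by omega) (by omega) θ ex hij hik hjk] at g1
    have g3 : normSq (gm (tEv p q r θ ex).g i j) = 1 / 4 := by
      rw [nsq_ccs p q r hp (by omega) (by omega) θ ex hij]
      unfold ccs
      rw [hm3]
      push_cast
      rw [Real.cos_pi_div_three]
      norm_num
    intro x hx hQ
    have hQ' : 0 < qf (hm (evQ OR (tEv p q r θ ex) (fes.getD s .gram))) x := hQ
    show 0 < qf (hm (evQ OR (tEv p q r θ ex) (fes.getD t .gram))) _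
    rw [h2, qf_FUT hev hjk hij.symm hik.symm] at hQ'
    rw [h1, qf_FEQ]
    have e1 : ∀ a b : Fin 3, altS (gm (tEv p q r θ ex).g) a b 2 *ᵥ x = Sg (gm (tEv p q r θ ex).g) a *ᵥ (Sg (gm (tEv p q r θ ex).g) b *ᵥ x) := by
      intro a b
      have : altS (gm (tEv p q r θ ex).g) a b 2 = Sg (gm (tEv p q r θ ex).g) a * (Sg (gm (tEv p q r θ ex).g) b * 1) := rfl
      rw [this, mul_one, Matrix.mulVec_mulVec]
    have hQ2 : 0 < 2 * qf (QP (gm (tEv p q r θ ex).g) j) (altS (gm (tEv p q r θ ex).g) i k 2 *ᵥ x) := hQ'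
    have key := C3_incl _ hG hij hik hjk g3 g1 x hx (by rw [← e1]; linarith)
    show 0 < 2 * qf (QP (gm (tEv p q r θ ex).g) i) (altS (gm (tEv p q r θ ex).g) i j 2 *ᵥ x)
    rw [e1]
    linarith

end Pool.Agent.Work.MP_88b7aa_gt.PQ
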