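import Pool.Agent.Work.MP_88b7aa_gt.PQ.Lib2

/-!
# Linear models

`Lin` is an affine function of four variables `x 0, ..., x 3` with integer coefficients over `2^48` and a remainder.  `Bld R` is an
arithmetic with a constructor for linear models.
-/

namespace Pool.Agent.Work.MP_88b7aa_gt.PQ

open Pool.Agent.Work.MP_88b7aa_gt.CH
open ComplexConjugate Complex Matrix

/-- A linear model. -/
structure Lin where
  v : Int
  a1 : Int
  a2 : Int
  a3 : Int
  a4 : Int
  r : ℕ

/-- The number `y` satisfies the model at the point `x`. -/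
def Lin.Holds (L : Lin) (x : Fin 4 → ℝ) (y : ℝ) : Prop :=
  |y * 281474976710656 - (L.v + L.a1 * x 0 + L.a2 * x 1 + L.a3 * x 2 + L.a4 * x 3)| ≤ L.r

/-- An arithmetic with linear models. -/
structure Bld (R : Type) where
  O : Ops R
  lin : Lin → R

structure BldOK {R : Type} (B : Bld R) (Rel : ℝ → R → Prop) (x : Fin 4 → ℝ) : Prop where
  rel : OpsRel B.O Rel
  lin : ∀ {L : Lin} {y : ℝ}, L.Holds x y → Rel y (B.lin L)

end Pool.Agent.Work.MP_88b7aa_gt.PQ
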