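import Pool.Agent.Work.MP_88b7aa_gt.PQ.Col3

/-!
# The test that a box is outside, and the cells of a class
-/

noncomputable section

namespace Pool.Agent.Work.MP_88b7aa_gt.PQ

open Pool.Agent.Work.MP_88b7aa_gt.CH
open ComplexConjugate Complex Matrix

def W3 : Sc := .mul (.mul (.par 4) (.par 4)) (.par 4)

/-- `fA` -/
def SA : Sc := .add (.mul (.par 2) (.par 2)) (.mul (.cst 4294967296 0)
  (.add (.mul (.mul (.par 0) (.par 0)) (.mul (.par 1) (.par 1))) (.mul (.mul (.par 0) (.mul (.par 1) (.par 2))) W3)))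

/-- The trace of `W_B`. -/
def ST : Sc := .sub (.sub (.cst 3221225472 0) (.mul (.cst 4294967296 0)
  (.add (.mul (.par 0) (.par 0)) (.add (.mul (.par 1) (.par 1)) (.mul (.par 2) (.par 2))))))
  (.mul (.cst 8589934592 0) (.mul (.mul (.par 0) (.mul (.par 1) (.par 2))) W3))

/-- `fB` -/
def SB : Sc := .sub (.add (.sub (.mul (.mul ST (.cj ST)) (.mul ST (.cj ST))) (.mul (.cst 8589934592 0) (.mul ST (.mul ST ST))))
  (.mul (.cst 19327352832 0) (.mul ST (.cj ST)))) (.cst 28991029248 0)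

/-- The number which is tested: `0` for `fA < 1`, `1` for `fB < 0`, `2` for `b > c`, `3` for `a > b`. -/
def outS : ℕ → Sc
  | 0 => .sub (.cst 1073741824 0) SA
  | 1 => .sub (.cst 0 0) SB
  | 2 => .sub (.par 1) (.par 2)
  | _ => .sub (.par 0) (.par 1)

/-- The test that a box is outside. -/
def outc {R P : Type} (A : Arp R P) (e : Ev R) (m : ℕ) : Bool := A.pos (evS A.O e (outS m)).re

section

variable (a b c t : ℝ) (ex : List (Cx ℝ))

theorem W3_c : (evS OR (mkEv OR a b c (zz t) ex) W3).c = ⟨Real.cos (6 * t), -Real.sin (6 * t)⟩ := by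
  have hw : (evS OR (mkEv OR a b c (zz t) ex) (.par 4)).c = exp (((-(2 * t) : ℝ) : ℂ) * I) := by
    rw [mkEv_w, zz_c, ← Complex.exp_conj, map_mul, Complex.conj_I, Complex.conj_ofReal, ← Complex.exp_add]
    congr 1
    push_cast
    ring
  have e : (evS OR (mkEv OR a b c (zz t) ex) W3).c = exp (((-(6 * t) : ℝ) : ℂ) * I) := by
    show (evS OR _ (.mul (.mul (.par 4) (.par 4)) (.par 4))).c = _
    rw [evS_mul, evS_mul, hw, ← Complex.exp_add, ← Complex.exp_add]
    congr 1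
    push_cast
    ring
  rw [e]
  apply Complex.ext
  · rw [Complex.exp_ofReal_mul_I_re, Real.cos_neg]
  · rw [Complex.exp_ofReal_mul_I_im, Real.sin_neg]

theorem evS_cst' (e : Ev ℝ) (m : Int) (x : ℝ) (h : (m : ℝ) = x * 1073741824) : (evS OR e (.cst m 0)).c = (x : ℂ) := by
  rw [evS_cst, h]
  congr 1
  field_simp

theorem SA_re : (evS OR (mkEv OR a b c (zz t) ex) SA).re = fA a b c (Real.cos (6 * t)) := by
  rw [← c_re]
  show (evS OR _ (.add (.mul (.par 2) (.par 2)) (.mul (.cst 4294967296 0)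
    (.add (.mul (.mul (.par 0) (.par 0)) (.mul (.par 1) (.par 1))) (.mul (.mul (.par 0) (.mul (.par 1) (.par 2))) W3))))).c.re = _
  simp only [evS_add, evS_mul, mkEv_a, mkEv_b, mkEv_c, W3_c]
  rw [evS_cst' _ _ 4 (by norm_num)]
  simp only [Complex.add_re, Complex.mul_re, Complex.mul_im, Complex.ofReal_re, Complex.ofReal_im]
  unfold fA
  ring

theorem ST_c : (evS OR (mkEv OR a b c (zz t) ex) ST).c =
    ⟨reB a b c (Real.cos (6 * t)), 8 * (a * (b * c)) * Real.sin (6 * t)⟩ := by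
  show (evS OR _ (.sub (.sub (.cst 3221225472 0) (.mul (.cst 4294967296 0)
    (.add (.mul (.par 0) (.par 0)) (.add (.mul (.par 1) (.par 1)) (.mul (.par 2) (.par 2))))))
    (.mul (.cst 8589934592 0) (.mul (.mul (.par 0) (.mul (.par 1) (.par 2))) W3)))).c = _
  simp only [evS_sub, evS_add, evS_mul, mkEv_a, mkEv_b, mkEv_c, W3_c]
  rw [evS_cst' _ _ 3 (by norm_num), evS_cst' _ _ 4 (by norm_num), evS_cst' _ _ 8 (by norm_num)]
  apply Complex.ext
  · simp only [Complex.add_re, Complex.sub_re, Complex.mul_re, Complex.mul_im, Complex.ofReal_re, Complex.ofReal_im,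
      Complex.add_im]
    unfold reB
    ring
  · simp only [Complex.add_re, Complex.sub_im, Complex.mul_re, Complex.mul_im, Complex.ofReal_re, Complex.ofReal_im,
      Complex.add_im]
    ring

theorem SB_re : (evS OR (mkEv OR a b c (zz t) ex) SB).re = fB a b c (Real.cos (6 * t)) := by
  rw [← c_re]
  show (evS OR _ (.sub (.add (.sub (.mul (.mul ST (.cj ST)) (.mul ST (.cj ST))) (.mul (.cst 8589934592 0) (.mul ST (.mul ST ST))))
    (.mul (.cst 19327352832 0) (.mul ST (.cj ST)))) (.cst 28991029248 0))).c.re = _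
  simp only [evS_sub, evS_add, evS_mul, evS_cj, ST_c]
  rw [evS_cst' _ _ 8 (by norm_num), evS_cst' _ _ 18 (by norm_num), evS_cst' _ _ 27 (by norm_num)]
  have hs : im2B a b c (Real.cos (6 * t)) = (8 * (a * (b * c)) * Real.sin (6 * t)) ^ 2 := by
    have e : (8 * (a * (b * c)) * Real.sin (6 * t)) ^ 2 = 64 * ((a * (b * c)) ^ 2 * Real.sin (6 * t) ^ 2) := by ring
    rw [e, Real.sin_sq]
    rfl
  unfold fB
  rw [hs]
  simp only [Complex.add_re, Complex.sub_re, Complex.mul_re, Complex.mul_im, Complex.ofReal_re, Complex.ofReal_im,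
    Complex.conj_re, Complex.conj_im]
  ring

end

/-- The environments of the boxes. -/
structure EnvOK {R : Type} (Rel : (Fin 4 → ℝ) → ℝ → R → Prop) (k : ℕ) (okE : Bx4 → Bool) (env : Bx4 → Ev R)
    (ex : ℝ → ℝ → ℝ → ℝ → (Fin 4 → ℝ) → List (Cx ℝ)) : Prop where
  ok : ∀ (B : Bx4), okE B = true → ∀ (x : Fin 4 → ℝ), Cub k x → ∀ (a b c t : ℝ), B.Holds x a b c t →
    REv (Rel x) (mkEv OR a b c (zz t) (ex a b c t x)) (env B)

theorem outc_sound {R P : Type} {A : Arp R P} {Rel : (Fin 4 → ℝ) → ℝ → R → Prop} {RelP : (Fin 4 → ℝ) → H9 ℝ → P → Prop}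
    {k : ℕ} (hA : ∀ x, Cub k x → ArpOK A (Rel x) (RelP x)) {okE : Bx4 → Bool} {env : Bx4 → Ev R}
    {ex : ℝ → ℝ → ℝ → ℝ → (Fin 4 → ℝ) → List (Cx ℝ)} (hE : EnvOK Rel k okE env ex) (K : ℕ → ℕ → ℕ → Prop) (B : Bx4) (m : ℕ)
    (h : (okE B && outc A (env B) m) = true) : Outs K k B := by
  simp only [Bool.and_eq_true] at h
  obtain ⟨h1, h2⟩ := h
  rintro p q r hp hpq hqr hK θ x hx hB ⟨hfA, hfB⟩
  have he := hE.ok B h1 x hx _ _ _ _ hB
  have hA' := hA x hx
  have e6 : 6 * (θ / 6) = θ := by ring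
  have h3 := hA'.pos (RC.evS hA'.rel he (outS m)).re h2
  rw [← c_re] at h3
  have hbc := cos_mono (by omega : 3 ≤ q) hqr
  have hab := cos_mono hp hpq
  rcases m with _ | _ | _ | m
  · rw [show outS 0 = .sub (.cst 1073741824 0) SA from rfl, evS_sub, evS_one, Complex.sub_re, c_re, SA_re, e6] at h3
    simp only [Complex.ofReal_re] at h3
    linarith
  · rw [show outS (0 + 1) = .sub (.cst 0 0) SB from rfl, evS_sub, evS_zero, Complex.sub_re, c_re, SB_re, e6] at h3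
    simp only [Complex.ofReal_re] at h3
    linarith
  · rw [show outS (0 + 1 + 1) = .sub (.par 1) (.par 2) from rfl, evS_sub, mkEv_b, mkEv_c] at h3
    simp only [Complex.sub_re, Complex.ofReal_re] at h3
    linarith
  · rw [show outS (m + 1 + 1 + 1) = .sub (.par 0) (.par 1) from rfl, evS_sub, mkEv_a, mkEv_b] at h3
    simp only [Complex.sub_re, Complex.ofReal_re] at h3
    linarith

/-- The cells of a class. -/
theorem cell_good {R P : Type} {A : Arp R P} {Rel : (Fin 4 → ℝ) → ℝ → R → Prop} {RelP : (Fin 4 → ℝ) → H9 ℝ → P → Prop}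
    {k : ℕ} (hA : ∀ x, Cub k x → ArpOK A (Rel x) (RelP x)) {okE : Bx4 → Bool} {env : Bx4 → Ev R}
    {ex : ℝ → ℝ → ℝ → ℝ → (Fin 4 → ℝ) → List (Cx ℝ)} (hE : EnvOK Rel k okE env ex) (K : ℕ → ℕ → ℕ → Prop) (B : Bx4)
    (cd : CD) (h : (okE B && cd.chk A (env B)) = true) (C : CS) (hS : (C.sys cd).ok = true)
    (hsp : ∀ (p q r : ℕ), K p q r → ∀ (θ : ℝ) (e : List (Cx ℝ)),
      1 ≤ fA (Real.cos (Real.pi / p)) (Real.cos (Real.pi / q)) (Real.cos (Real.pi / r)) (Real.cos θ) →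
      0 ≤ fB (Real.cos (Real.pi / p)) (Real.cos (Real.pi / q)) (Real.cos (Real.pi / r)) (Real.cos θ) →
      ∀ f ∈ C.sp, f.Holds (gm (tEv p q r θ e).g) (fun t => hm (frm OR (tEv p q r θ e) cd.fes t)) (cd.pt OR (tEv p q r θ e)).vec)
    (hvd : ∀ i j, i ≠ j → (C.vd i j).Ok cd.fes i j)
    (hcl : ∀ (p q r : ℕ) (hp : p ≠ 1) (hq : q ≠ 1) (hr : r ≠ 1), K p q r → ∀ i j, i ≠ j → ∀ m E, C.vd i j = .small m E →
      mcox p q r hp hq hr i j = m) :
    Good K k B := by
  simp only [Bool.and_eq_true] at h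
  obtain ⟨h1, h2⟩ := h
  intro p q r hp hpq hqr hr hK θ n x hx hB hT hfA hfB
  exact leaf (hA x hx) p q r hp hpq hqr hr θ n hT hfA _ (hE.ok B h1 x hx _ _ _ _ hB) cd h2 C hS
    (hsp p q r hK θ _ hfA hfB) hvd (hcl p q r (by omega) (by omega) (by omega) hK)

end Pool.Agent.Work.MP_88b7aa_gt.PQ
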