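import Pool.Agent.Work.MP_88b7aa_gt.PQ.CertF

/-!
# Positive semidefinite Hermitian 3x3 matrices by minors

The Hermitian matrix with the diagonal `d0, d1, d2` and the entries `(0,1) = p + iq`, `(0,2) = r + is`, `(1,2) = t + iw`.
-/

namespace Pool.Agent.Work.MP_88b7aa_gt.PQ

open ComplexConjugate Complex Matrix

/-- The Hermitian matrix with given real entries. -/
noncomputable def Hm (d0 d1 d2 p q r s t w : ℝ) : Matrix (Fin 3) (Fin 3) ℂ :=
  !![(d0 : ℂ), ⟨p, q⟩, ⟨r, s⟩; ⟨p, -q⟩, (d1 : ℂ), ⟨t, w⟩; ⟨r, -s⟩, ⟨t, -w⟩, (d2 : ℂ)]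

theorem qf_Hm (d0 d1 d2 p q r s t w : ℝ) (x : Fin 3 → ℂ) : qf (Hm d0 d1 d2 p q r s t w) x =
    d0 * ((x 0).re ^ 2 + (x 0).im ^ 2) + d1 * ((x 1).re ^ 2 + (x 1).im ^ 2) + d2 * ((x 2).re ^ 2 + (x 2).im ^ 2) +
    2 * (((x 0).re * p + (x 0).im * q) * (x 1).re - ((x 0).re * q - (x 0).im * p) * (x 1).im) +
    2 * (((x 0).re * r + (x 0).im * s) * (x 2).re - ((x 0).re * s - (x 0).im * r) * (x 2).im) +
    2 * (((x 1).re * t + (x 1).im * w) * (x 2).re - ((x 1).re * w - (x 1).im * t) * (x 2).im) := by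
  unfold qf Hm
  simp only [Fin.sum_univ_three, Matrix.of_apply, Matrix.cons_val', Matrix.cons_val_zero, Matrix.cons_val_one,
    Matrix.cons_val, Complex.add_re, Complex.mul_re, Complex.mul_im, Complex.conj_re, Complex.conj_im,
    Complex.ofReal_re, Complex.ofReal_im]
  ring

/-- Minors: `d0 > 0`, the second minor `A > 0`, and `A C - |B|² ≥ 0` (which is `d0` times the determinant). -/
theorem psd_Hm (d0 d1 d2 p q r s t w : ℝ) (h0 : 0 < d0) (hA : 0 < d0 * d1 - (p ^ 2 + q ^ 2))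
    (hD : (d0 * t - (p * r + q * s)) ^ 2 + (d0 * w - (p * s - q * r)) ^ 2 ≤
      (d0 * d1 - (p ^ 2 + q ^ 2)) * (d0 * d2 - (r ^ 2 + s ^ 2))) (x : Fin 3 → ℂ) :
    0 ≤ qf (Hm d0 d1 d2 p q r s t w) x := by
  rw [qf_Hm]
  set u0 := (x 0).re
  set v0 := (x 0).im
  set u1 := (x 1).re
  set v1 := (x 1).im
  set u2 := (x 2).re
  set v2 := (x 2).im
  set A := d0 * d1 - (p ^ 2 + q ^ 2) with hAd
  set C := d0 * d2 - (r ^ 2 + s ^ 2) with hCd
  set b1 := d0 * t - (p * r + q * s) with hb1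
  set b2 := d0 * w - (p * s - q * r) with hb2
  set F := d0 * (u0 ^ 2 + v0 ^ 2) + d1 * (u1 ^ 2 + v1 ^ 2) + d2 * (u2 ^ 2 + v2 ^ 2) +
    2 * ((u0 * p + v0 * q) * u1 - (u0 * q - v0 * p) * v1) +
    2 * ((u0 * r + v0 * s) * u2 - (u0 * s - v0 * r) * v2) +
    2 * ((u1 * t + v1 * w) * u2 - (u1 * w - v1 * t) * v2) with hF
  have key : A * (d0 * F) = A * ((d0 * u0 + (p * u1 - q * v1) + (r * u2 - s * v2)) ^ 2 +
      (d0 * v0 + (p * v1 + q * u1) + (r * v2 + s * u2)) ^ 2) +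
      ((A * u1 + (b1 * u2 - b2 * v2)) ^ 2 + (A * v1 + (b1 * v2 + b2 * u2)) ^ 2) +
      (A * C - (b1 ^ 2 + b2 ^ 2)) * (u2 ^ 2 + v2 ^ 2) := by
    rw [hF, hAd, hCd, hb1, hb2]
    ring
  have h1 : 0 ≤ A * (d0 * F) := by
    rw [key]
    have : 0 ≤ A * C - (b1 ^ 2 + b2 ^ 2) := by linarith
    positivity
  have h2 : 0 ≤ d0 * F := nonneg_of_mul_nonneg_right h1 hA
  exact nonneg_of_mul_nonneg_right h2 h0

/-- The value of a combination is the combination of the values. -/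
theorem qf_lin (A B C : Matrix (Fin 3) (Fin 3) ℂ) (a b : ℝ) (x : Fin 3 → ℂ) :
    qf (A - (a : ℂ) • B + (b : ℂ) • C) x = qf A x - a * qf B x + b * qf C x := by
  unfold qf
  rw [← Complex.re_ofReal_mul, ← Complex.re_ofReal_mul, ← Complex.sub_re, ← Complex.add_re]
  congr 1
  simp only [Finset.mul_sum]
  rw [← Finset.sum_sub_distrib, ← Finset.sum_add_distrib]
  refine Finset.sum_congr rfl fun i _ => ?_
  rw [← Finset.sum_sub_distrib, ← Finset.sum_add_distrib]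
  refine Finset.sum_congr rfl fun j _ => ?_
  simp only [Matrix.add_apply, Matrix.sub_apply, Matrix.smul_apply, smul_eq_mul]
  ring

/-- `Incl` from a semidefinite matrix. -/
theorem Incl_of (G Q X : Matrix (Fin 3) (Fin 3) ℂ) (i j : Fin 3) (l : ℕ) (a b : ℝ) (ha : 0 ≤ a) (hb : 0 ≤ b)
    (hab : 0 < a + b) (h : ∀ x, 0 ≤ qf (chn G Q i j l - (a : ℂ) • X + (b : ℂ) • G) x) :
    Incl G (altS G i j l) X Q := by
  refine Inc.incl ⟨a, b, ha, hb, hab, fun x => ?_⟩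
  have := h x
  rwa [qf_lin, qf_chn] at this

/-- `Incl` without a word. -/
theorem Incl_one (G Q X : Matrix (Fin 3) (Fin 3) ℂ) (a b : ℝ) (ha : 0 ≤ a) (hb : 0 ≤ b)
    (hab : 0 < a + b) (h : ∀ x, 0 ≤ qf (Q - (a : ℂ) • X + (b : ℂ) • G) x) : Incl G 1 X Q := by
  refine Inc.incl ⟨a, b, ha, hb, hab, fun x => ?_⟩
  have := h x
  rw [qf_lin] at this
  rw [Matrix.one_mulVec]
  exact this

/-- Hulls: a source may be replaced by any larger form. -/
theorem Incl.trans_left {G A X Y Q : Matrix (Fin 3) (Fin 3) ℂ} (h : Incl G 1 X Y) (h' : Incl G A Y Q) : Incl G A X Q := by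
  intro x hx hX
  have h1 := h x hx hX
  rw [Matrix.one_mulVec] at h1
  exact h' x hx h1

/-- A target may be replaced by any larger form. -/
theorem Incl.trans_right {G X Y Q : Matrix (Fin 3) (Fin 3) ℂ} (hG : IsGram G) {i j : Fin 3} {l : ℕ}
    (h : Incl G (altS G i j l) X Y) (h' : Incl G 1 Y Q) : Incl G (altS G i j l) X Q := by
  intro x hx hX
  have h1 := h' (altS G i j l *ᵥ x) (by rw [qf_gram_alt G hG]; exact hx) (h x hx hX)
  rwa [Matrix.one_mulVec] at h1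

/-- A positive multiple is harmless. -/
theorem Incl.smul_right {G A X Q : Matrix (Fin 3) (Fin 3) ℂ} {a : ℝ} (ha : 0 < a)
    (h : Incl G A X ((a : ℂ) • Q)) : Incl G A X Q := by
  intro x hx hX
  have h1 := h x hx hX
  have h2 := qf_lin 0 0 Q 0 a (A *ᵥ x)
  have h3 : qf (0 : Matrix (Fin 3) (Fin 3) ℂ) (A *ᵥ x) = 0 := by
    unfold qf
    simp
  rw [h3] at h2
  have h4 : (0 : Matrix (Fin 3) (Fin 3) ℂ) - ((0 : ℝ) : ℂ) • (0 : Matrix (Fin 3) (Fin 3) ℂ) + (a : ℂ) • Q = (a : ℂ) • Q := by simp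
  rw [h4] at h2
  rw [h2] at h1
  have h5 : 0 < a * qf Q (A *ᵥ x) := by linarith
  exact (mul_pos_iff_of_pos_left ha).1 h5

end Pool.Agent.Work.MP_88b7aa_gt.PQ
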