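import Pool.Agent.Work.MP_88b7aa_gt.PQ.CC

/-!
# The star condition

For a unit vector `m` in the span of the two polar vectors other than `n_i`, the reflection `R_m` moves `{Q_i > 0}` (in the ball) off itself
if `|⟨n_i, m⟩| ≥ 1`.
-/

namespace Pool.Agent.Work.MP_88b7aa_gt.PQ

open Pool.Agent.Work.MP_88b7aa_gt.CH
open ComplexConjugate Complex Matrix

/-- The Hermitian form `⟨u, v⟩`. -/
def hf (G : Matrix (Fin 3) (Fin 3) ℂ) (u v : Fin 3 → ℂ) : ℂ := ∑ a, conj (v a) * ∑ b, G a b * u b

/-- The reflection in `m`. -/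
def Rm (G : Matrix (Fin 3) (Fin 3) ℂ) (m z : Fin 3 → ℂ) : Fin 3 → ℂ := fun a => 2 * hf G z m * m a - z a

theorem qf_hf (G : Matrix (Fin 3) (Fin 3) ℂ) (z : Fin 3 → ℂ) : qf G z = (hf G z z).re := by
  unfold qf hf
  simp only [mul_assoc, Finset.mul_sum]

/-- Sums of squares. -/
theorem star_sos (α β γ μ φ : ℂ) (s : ℝ) (hs : 0 ≤ s) (hμ : 1 ≤ normSq μ) (ζ x : ℂ) (hζ : ζ = α + γ * conj μ)
    (hx : x = α * μ + β * φ + γ) :
    0 ≤ (conj α * (α + γ * conj μ) + s * (conj β * β) + conj β * (γ * conj φ) + conj γ * x).re -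
      (conj x * (γ - x)).re - (conj (2 * ζ * μ - x) * (-γ - (2 * ζ * μ - x))).re := by
  have e : (conj α * (α + γ * conj μ) + s * (conj β * β) + conj β * (γ * conj φ) + conj γ * x).re -
      (conj x * (γ - x)).re - (conj (2 * ζ * μ - x) * (-γ - (2 * ζ * μ - x))).re =
      (1 + 2 * normSq μ) * normSq ζ + s * normSq β + (normSq μ - 1) * normSq γ +
        2 * normSq (β * φ + (1 - (normSq μ : ℂ)) * γ) := by
    rw [hζ, hx]
    obtain ⟨α1, α2⟩ := α
    obtain ⟨β1, β2⟩ := β
    obtain ⟨γ1, γ2⟩ := γ
    obtain ⟨μ1, μ2⟩ := μ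
    obtain ⟨φ1, φ2⟩ := φ
    simp only [normSq_apply, Complex.add_re, Complex.sub_re, Complex.mul_re, Complex.mul_im, Complex.conj_re, Complex.conj_im,
      Complex.ofReal_re, Complex.ofReal_im, Complex.add_im, Complex.sub_im, Complex.one_re, Complex.one_im, Complex.re_ofNat,
      Complex.im_ofNat, Complex.neg_re, Complex.neg_im]
    ring
  rw [e]
  have h1 : 0 ≤ normSq μ - 1 := by linarith
  have h2 := normSq_nonneg μ
  have h3 := normSq_nonneg ζ
  have h4 := normSq_nonneg β
  have h5 := normSq_nonneg γ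
  have h6 := normSq_nonneg (β * φ + (1 - (normSq μ : ℂ)) * γ)
  positivity

theorem star_pt (G : Matrix (Fin 3) (Fin 3) ℂ) (hG : IsGram G) {i j k : Fin 3} (hij : i ≠ j) (hik : i ≠ k) (hjk : j ≠ k)
    (m : Fin 3 → ℂ) (hmi : m i = 0) (hm : hf G m m = 1) (hd : normSq (G j k) ≤ 1)
    (hge : 1 ≤ normSq (∑ b, G i b * m b)) (z : Fin 3 → ℂ) :
    0 ≤ qf G z - qf (QP G i) z - qf (QP G i) (Rm G m z) := by
  set U := ∑ b, G j b * m b with hU
  set V := ∑ b, G k b * m b with hV
  set μ := ∑ b, G i b * m b with hμd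
  have hU' : U = m j + G j k * m k := by
    rw [hU, sum3 hij hik hjk, hmi, hG.dg]
    ring
  have hV' : V = conj (G j k) * m j + m k := by
    rw [hV, sum3 hij hik hjk, hmi, hG.dg, hG.hm]
    ring
  have hμ' : μ = G i j * m j + G i k * m k := by
    rw [hμd, sum3 hij hik hjk, hmi]
    ring
  have hone : conj (m j) * U + conj (m k) * V = 1 := by
    rw [← hm]
    unfold hf
    rw [sum3 hij hik hjk, hmi]
    simp [hU, hV]
  have hone' : m j * conj U + m k * conj V = 1 := by
    have := congrArg conj hone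
    simpa only [map_add, map_mul, Complex.conj_conj, map_one] using this
  set β := m k * z j - m j * z k with hβ
  set α := z j * conj U + z k * conj V with hα
  set φ := G i j * conj V - G i k * conj U with hφ
  have hz1 : z j = α * m j + β * conj V := by
    rw [hα, hβ]
    linear_combination (-z j) * hone'
  have hz2 : z k = α * m k - β * conj U := by
    rw [hα, hβ]
    linear_combination (-z k) * hone'
  have hx : ∑ b, G i b * z b = α * μ + β * φ + z i := by
    rw [sum3 hij hik hjk, hG.dg, hμ', hφ]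
    conv_lhs => rw [hz1, hz2]
    ring
  have hζ : hf G z m = α + z i * conj μ := by
    have hcμ : conj μ = conj (G i j) * conj (m j) + conj (G i k) * conj (m k) := by
      rw [hμ']
      simp only [map_add, map_mul]
    unfold hf
    rw [sum3 hij hik hjk, hmi, map_zero, zero_mul, zero_add, sum3 hij hik hjk, sum3 hij hik hjk, hG.dg, hG.dg, ← hG.hm i j,
      ← hG.hm i k, ← hG.hm j k, hcμ, hα, hU', hV']
    simp only [map_add, map_mul, Complex.conj_conj]
    ring
  have hsd : conj U * U - G j k * conj U * V - conj (G j k) * U * conj V + conj V * V = ((1 - normSq (G j k) : ℝ) : ℂ) := by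
    have e1 : ((1 - normSq (G j k) : ℝ) : ℂ) = (1 - G j k * conj (G j k)) * (conj (m j) * U + conj (m k) * V) := by
      rw [hone, Complex.mul_conj]
      push_cast
      ring
    rw [e1, hU', hV']
    simp only [map_add, map_mul, Complex.conj_conj]
    ring
  have hH : qf G z = (conj α * (α + z i * conj μ) + ((1 - normSq (G j k) : ℝ) : ℂ) * (conj β * β) +
      conj β * (z i * conj φ) + conj (z i) * (α * μ + β * φ + z i)).re := by
    rw [qf_hf, ← hx, ← hsd]
    unfold hf
    congr 1
    rw [sum3 hij hik hjk (fun a => conj (z a) * ∑ b, G a b * z b), sum3 hij hik hjk (fun b => G i b * z b),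
      sum3 hij hik hjk (fun b => G j b * z b), sum3 hij hik hjk (fun b => G k b * z b), hG.dg, hG.dg, hG.dg, ← hG.hm i j,
      ← hG.hm i k, ← hG.hm j k]
    have hcj : conj (z j) = conj α * conj (m j) + conj β * V := by
      conv_lhs => rw [hz1]
      simp only [map_add, map_mul, Complex.conj_conj]
    have hck : conj (z k) = conj α * conj (m k) - conj β * U := by
      conv_lhs => rw [hz2]
      simp only [map_sub, map_mul, Complex.conj_conj]
    have hcμ : conj μ = conj (G i j) * conj (m j) + conj (G i k) * conj (m k) := by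
      rw [hμ']
      simp only [map_add, map_mul]
    have hcφ : conj φ = conj (G i j) * V - conj (G i k) * U := by
      rw [hφ]
      simp only [map_sub, map_mul, Complex.conj_conj]
    have ezj : conj (G i j) * z i + 1 * z j + G j k * z k = conj (G i j) * z i + α * U + β * (conj V - G j k * conj U) := by
      conv_lhs => rw [hz1, hz2]
      rw [hU']
      ring
    have ezk : conj (G i k) * z i + conj (G j k) * z j + 1 * z k =
        conj (G i k) * z i + α * V + β * (conj (G j k) * conj V - conj U) := by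
      conv_lhs => rw [hz1, hz2]
      rw [hV']
      ring
    rw [ezj, ezk, hcj, hck, hcμ, hcφ]
    have hcU : conj U = conj (m j) + conj (G j k) * conj (m k) := by
      rw [hU']
      simp only [map_add, map_mul]
    have hcV : conj V = G j k * conj (m j) + conj (m k) := by
      rw [hV']
      simp only [map_add, map_mul, Complex.conj_conj]
    linear_combination (conj α * α) * hone - (conj α * β * conj V) * hcU + (conj α * β * conj U) * hcV
  have hs := star_sos α β (z i) μ φ (1 - normSq (G j k)) (by linarith) hge (hf G z m) (α * μ + β * φ + z i) hζ rfl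
  rw [qf_QP, qf_QP, hH, hx]
  have e1 : Rm G m z i = -z i := by
    unfold Rm
    rw [hmi]
    ring
  have e2 : ∑ b, G i b * Rm G m z b = 2 * hf G z m * μ - (α * μ + β * φ + z i) := by
    unfold Rm
    rw [← hx, hμd, Finset.mul_sum, ← Finset.sum_sub_distrib]
    exact Finset.sum_congr rfl fun b _ => by ring
  rw [e1, e2]
  exact hs

/-- The star condition. -/
theorem star_neg (G : Matrix (Fin 3) (Fin 3) ℂ) (hG : IsGram G) {i j k : Fin 3} (hij : i ≠ j) (hik : i ≠ k) (hjk : j ≠ k)
    (m : Fin 3 → ℂ) (hmi : m i = 0) (hm : hf G m m = 1) (hd : normSq (G j k) ≤ 1)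
    (hge : 1 ≤ normSq (∑ b, G i b * m b)) (z : Fin 3 → ℂ) (hz : qf G z < 0) (hQ : 0 < qf (QP G i) z) :
    qf (QP G i) (Rm G m z) < 0 := by
  have := star_pt G hG hij hik hjk m hmi hm hd hge z
  linarith

end Pool.Agent.Work.MP_88b7aa_gt.PQ
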