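import Pool.Agent.Work.MP_88b7aa_gt.PQ.Sys
import Pool.Agent.Work.MP_88b7aa_gt.PQ.Star

/-!
# The engine: forms as expressions, evaluated over an arbitrary arithmetic

`Ops R` is a dictionary of operations, `OR` the one of the real numbers.  `Cx R`, `Rw R`, `H9 R`, `Gm R` are complex numbers, linear
functionals, Hermitian matrices and Gram matrices over `R`.  All functions are polymorphic; `OpsRel` transports them along an enclosure
relation.
-/

namespace Pool.Agent.Work.MP_88b7aa_gt.PQ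

open Pool.Agent.Work.MP_88b7aa_gt.CH
open ComplexConjugate Complex Matrix

/-- A dictionary of operations; `cst n` is `n / 2^30`. -/
structure Ops (R : Type) where
  add : R → R → R
  sub : R → R → R
  neg : R → R
  mul : R → R → R
  cst : Int → R
  /-- a better representation of the same number -/
  nrm : R → R

/-- The real numbers. -/
noncomputable def OR : Ops ℝ := ⟨fun x y => x + y, fun x y => x - y, fun x => -x, fun x y => x * y, fun n => (n : ℝ) / 1073741824,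
  fun x => x⟩

/-- An enclosure relation. -/
structure OpsRel {R : Type} (O : Ops R) (Rel : ℝ → R → Prop) : Prop where
  add : ∀ {x y s t}, Rel x s → Rel y t → Rel (x + y) (O.add s t)
  sub : ∀ {x y s t}, Rel x s → Rel y t → Rel (x - y) (O.sub s t)
  neg : ∀ {x s}, Rel x s → Rel (-x) (O.neg s)
  mul : ∀ {x y s t}, Rel x s → Rel y t → Rel (x * y) (O.mul s t)
  cst : ∀ n : Int, Rel ((n : ℝ) / 1073741824) (O.cst n)
  nrm : ∀ {x s}, Rel x s → Rel x (O.nrm s)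

/-- Complex numbers. -/
structure Cx (R : Type) where
  re : R
  im : R

/-- Linear functionals. -/
structure Rw (R : Type) where
  a : Cx R
  b : Cx R
  c : Cx R

/-- Hermitian matrices. -/
structure H9 (R : Type) where
  d0 : R
  d1 : R
  d2 : R
  e01 : Cx R
  e02 : Cx R
  e12 : Cx R

/-- Gram matrices with unit diagonal. -/
structure Gm (R : Type) where
  g01 : Cx R
  g02 : Cx R
  g12 : Cx R

section poly

variable {R : Type} (O : Ops R)

namespace Cx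

def add (x y : Cx R) : Cx R := ⟨O.add x.re y.re, O.add x.im y.im⟩
def sub (x y : Cx R) : Cx R := ⟨O.sub x.re y.re, O.sub x.im y.im⟩
def nrm (x : Cx R) : Cx R := ⟨O.nrm x.re, O.nrm x.im⟩
def neg (x : Cx R) : Cx R := ⟨O.neg x.re, O.neg x.im⟩
def cj (x : Cx R) : Cx R := ⟨x.re, O.neg x.im⟩
def mul (x y : Cx R) : Cx R :=
  ⟨O.sub (O.mul x.re y.re) (O.mul x.im y.im), O.add (O.mul x.re y.im) (O.mul x.im y.re)⟩
/-- `conj x * y` -/
def cml (x y : Cx R) : Cx R :=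
  ⟨O.add (O.mul x.re y.re) (O.mul x.im y.im), O.sub (O.mul x.re y.im) (O.mul x.im y.re)⟩
def smul (r : R) (x : Cx R) : Cx R := ⟨O.mul r x.re, O.mul r x.im⟩
/-- the constant with the numerators `m`, `n` -/
def cst (m n : Int) : Cx R := ⟨O.cst m, O.cst n⟩
def dbl (x : Cx R) : Cx R := ⟨O.add x.re x.re, O.add x.im x.im⟩

end Cx

namespace Rw

def add (x y : Rw R) : Rw R := ⟨x.a.add O y.a, x.b.add O y.b, x.c.add O y.c⟩
def sub (x y : Rw R) : Rw R := ⟨x.a.sub O y.a, x.b.sub O y.b, x.c.sub O y.c⟩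
def smul (r : Cx R) (x : Rw R) : Rw R := ⟨r.mul O x.a, r.mul O x.b, r.mul O x.c⟩
def get (x : Rw R) (i : Fin 3) : Cx R := match i with
  | 0 => x.a
  | 1 => x.b
  | 2 => x.c

end Rw

def one' : Cx R := ⟨O.cst 1073741824, O.cst 0⟩
def zero' : Cx R := ⟨O.cst 0, O.cst 0⟩

/-- The functional `⟨z, n_i⟩`. -/
def Gm.row (g : Gm R) (i : Fin 3) : Rw R := match i with
  | 0 => ⟨one' O, g.g01, g.g02⟩
  | 1 => ⟨g.g01.cj O, one' O, g.g12⟩
  | 2 => ⟨g.g02.cj O, g.g12.cj O, one' O⟩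

/-- The coordinate. -/
def crd (i : Fin 3) : Rw R := match i with
  | 0 => ⟨one' O, zero' O, zero' O⟩
  | 1 => ⟨zero' O, one' O, zero' O⟩
  | 2 => ⟨zero' O, zero' O, one' O⟩

/-- The functional `f ∘ I_j`. -/
def Rw.comp (g : Gm R) (j : Fin 3) (f : Rw R) : Rw R := Rw.sub O (Rw.smul O ((f.get j).dbl O) (g.row O j)) f

namespace H9

def add (x y : H9 R) : H9 R :=
  ⟨O.add x.d0 y.d0, O.add x.d1 y.d1, O.add x.d2 y.d2, x.e01.add O y.e01, x.e02.add O y.e02, x.e12.add O y.e12⟩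
def sub (x y : H9 R) : H9 R :=
  ⟨O.sub x.d0 y.d0, O.sub x.d1 y.d1, O.sub x.d2 y.d2, x.e01.sub O y.e01, x.e02.sub O y.e02, x.e12.sub O y.e12⟩
def smul (r : R) (x : H9 R) : H9 R :=
  ⟨O.mul r x.d0, O.mul r x.d1, O.mul r x.d2, x.e01.smul O r, x.e02.smul O r, x.e12.smul O r⟩

def gram (g : Gm R) : H9 R := ⟨O.cst 1073741824, O.cst 1073741824, O.cst 1073741824, g.g01, g.g02, g.g12⟩

/-- `|f|²` -/
def nsq (f : Rw R) : H9 R :=
  ⟨(f.a.cml O f.a).re, (f.b.cml O f.b).re, (f.c.cml O f.c).re, f.a.cml O f.b, f.a.cml O f.c, f.b.cml O f.c⟩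

/-- `2 Re (conj f g)` -/
def re2 (f g : Rw R) : H9 R :=
  ⟨((f.a.cml O g.a).dbl O).re, ((f.b.cml O g.b).dbl O).re, ((f.c.cml O g.c).dbl O).re,
   (f.a.cml O g.b).add O (g.a.cml O f.b), (f.a.cml O g.c).add O (g.a.cml O f.c), (f.b.cml O g.c).add O (g.b.cml O f.c)⟩

/-- cyclic relabelling -/
def rot (x : H9 R) : H9 R := ⟨x.d1, x.d2, x.d0, x.e12, x.e01.cj O, x.e02.cj O⟩

/-- `Q ∘ I_0` -/
def cmp0 (g : Gm R) (Q : H9 R) : H9 R :=
  let u1 := (Q.e01.sub O (g.g01.smul O Q.d0)).dbl O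
  let u2 := (Q.e02.sub O (g.g02.smul O Q.d0)).dbl O
  ⟨Q.d0, O.sub Q.d1 ((g.g01.cml O u1).dbl O).re, O.sub Q.d2 ((g.g02.cml O u2).dbl O).re,
   Q.e01.sub O u1, Q.e02.sub O u2, (Q.e12.sub O (g.g01.cml O u2)).sub O (u1.cml O g.g02)⟩

end H9

def Gm.rot (x : Gm R) : Gm R := ⟨x.g12, x.g01.cj O, x.g02.cj O⟩

/-- `Q ∘ I_j` -/
def H9.comp (g : Gm R) (j : Fin 3) (Q : H9 R) : H9 R := match j with
  | 0 => Q.cmp0 O g
  | 1 => ((Q.rot O).cmp0 O (g.rot O)).rot O |>.rot O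
  | 2 => (((Q.rot O).rot O).cmp0 O ((g.rot O).rot O)).rot O

/-- `Q ∘ (I_a I_b ...)` for the word `a, b, ...` -/
def H9.cmpL (g : Gm R) : List (Fin 3) → H9 R → H9 R
  | [], Q => Q
  | a :: w, Q => H9.cmpL g w (Q.comp O g a)

end poly

/-! ## Semantics over the real numbers -/

/-- The complex number. -/
noncomputable def Cx.c (x : Cx ℝ) : ℂ := ⟨x.re, x.im⟩

/-- The Hermitian matrix. -/
noncomputable def hm (Q : H9 ℝ) : Matrix (Fin 3) (Fin 3) ℂ :=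
  !![(Q.d0 : ℂ), Q.e01.c, Q.e02.c; conj Q.e01.c, (Q.d1 : ℂ), Q.e12.c; conj Q.e02.c, conj Q.e12.c, (Q.d2 : ℂ)]

/-- The Gram matrix. -/
noncomputable def gm (g : Gm ℝ) : Matrix (Fin 3) (Fin 3) ℂ :=
  !![1, g.g01.c, g.g02.c; conj g.g01.c, 1, g.g12.c; conj g.g02.c, conj g.g12.c, 1]

/-- The value of a functional. -/
noncomputable def Rw.v (f : Rw ℝ) (x : Fin 3 → ℂ) : ℂ := f.a.c * x 0 + f.b.c * x 1 + f.c.c * x 2

theorem gm_gram (g : Gm ℝ) : IsGram (gm g) := by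
  constructor
  · intro i j
    fin_cases i <;> fin_cases j <;> simp [gm]
  · intro i
    fin_cases i <;> simp [gm]

theorem qf_hm (Q : H9 ℝ) (x : Fin 3 → ℂ) : qf (hm Q) x =
    Q.d0 * normSq (x 0) + Q.d1 * normSq (x 1) + Q.d2 * normSq (x 2) + 2 * (conj (x 0) * Q.e01.c * x 1).re +
      2 * (conj (x 0) * Q.e02.c * x 2).re + 2 * (conj (x 1) * Q.e12.c * x 2).re := by
  unfold qf hm
  simp only [Fin.sum_univ_three, Matrix.of_apply, Matrix.cons_val', Matrix.cons_val_zero, Matrix.cons_val_one,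
    Matrix.cons_val, normSq_apply, Complex.add_re, Complex.mul_re, Complex.mul_im, Complex.conj_re, Complex.conj_im,
    Complex.ofReal_re, Complex.ofReal_im]
  ring

theorem OR_one : OR.cst 1073741824 = 1 := by
  show ((1073741824 : Int) : ℝ) / 1073741824 = 1
  norm_num

theorem OR_zero : OR.cst 0 = 0 := by
  show ((0 : Int) : ℝ) / 1073741824 = 0
  norm_num

theorem c_add (x y : Cx ℝ) : (x.add OR y).c = x.c + y.c := rfl
theorem c_sub (x y : Cx ℝ) : (x.sub OR y).c = x.c - y.c := rfl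
theorem c_cj (x : Cx ℝ) : (x.cj OR).c = conj x.c := rfl
theorem c_mul (x y : Cx ℝ) : (x.mul OR y).c = x.c * y.c := by
  apply Complex.ext <;> simp [Cx.c, Cx.mul, OR]
theorem c_cml (x y : Cx ℝ) : (x.cml OR y).c = conj x.c * y.c := by
  apply Complex.ext
  · simp [Cx.c, Cx.cml, OR]
  · simp [Cx.c, Cx.cml, OR]
    ring
theorem c_smul (r : ℝ) (x : Cx ℝ) : (x.smul OR r).c = r * x.c := by
  apply Complex.ext <;> simp [Cx.c, Cx.smul, OR]
theorem c_dbl (x : Cx ℝ) : (x.dbl OR).c = 2 * x.c := by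
  apply Complex.ext <;> simp [Cx.c, Cx.dbl, OR] <;> ring
theorem c_one : (one' OR).c = 1 := by
  unfold one' Cx.c
  rw [OR_one, OR_zero]
  rfl
theorem c_zero : (zero' OR).c = 0 := by
  unfold zero' Cx.c
  rw [OR_zero]
  rfl
theorem c_re (x : Cx ℝ) : x.c.re = x.re := rfl

theorem qf_hadd (P Q : H9 ℝ) (x : Fin 3 → ℂ) : qf (hm (P.add OR Q)) x = qf (hm P) x + qf (hm Q) x := by
  rw [qf_hm, qf_hm, qf_hm]
  have h0 : (P.add OR Q).d0 = P.d0 + Q.d0 := rfl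
  have h1 : (P.add OR Q).d1 = P.d1 + Q.d1 := rfl
  have h2 : (P.add OR Q).d2 = P.d2 + Q.d2 := rfl
  have h3 : (P.add OR Q).e01.c = P.e01.c + Q.e01.c := rfl
  have h4 : (P.add OR Q).e02.c = P.e02.c + Q.e02.c := rfl
  have h5 : (P.add OR Q).e12.c = P.e12.c + Q.e12.c := rfl
  rw [h0, h1, h2, h3, h4, h5]
  simp only [mul_add, add_mul, Complex.add_re]
  ring

theorem qf_hsub (P Q : H9 ℝ) (x : Fin 3 → ℂ) : qf (hm (P.sub OR Q)) x = qf (hm P) x - qf (hm Q) x := by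
  rw [qf_hm, qf_hm, qf_hm]
  have h0 : (P.sub OR Q).d0 = P.d0 - Q.d0 := rfl
  have h1 : (P.sub OR Q).d1 = P.d1 - Q.d1 := rfl
  have h2 : (P.sub OR Q).d2 = P.d2 - Q.d2 := rfl
  have h3 : (P.sub OR Q).e01.c = P.e01.c - Q.e01.c := rfl
  have h4 : (P.sub OR Q).e02.c = P.e02.c - Q.e02.c := rfl
  have h5 : (P.sub OR Q).e12.c = P.e12.c - Q.e12.c := rfl
  rw [h0, h1, h2, h3, h4, h5]
  simp only [mul_sub, sub_mul, Complex.sub_re]
  ring

theorem qf_hsmul (r : ℝ) (Q : H9 ℝ) (x : Fin 3 → ℂ) : qf (hm (Q.smul OR r)) x = r * qf (hm Q) x := by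
  rw [qf_hm, qf_hm]
  have h0 : (Q.smul OR r).d0 = r * Q.d0 := rfl
  have h1 : (Q.smul OR r).d1 = r * Q.d1 := rfl
  have h2 : (Q.smul OR r).d2 = r * Q.d2 := rfl
  have h3 : (Q.smul OR r).e01.c = r * Q.e01.c := c_smul _ _
  have h4 : (Q.smul OR r).e02.c = r * Q.e02.c := c_smul _ _
  have h5 : (Q.smul OR r).e12.c = r * Q.e12.c := c_smul _ _
  rw [h0, h1, h2, h3, h4, h5]
  simp only [Complex.mul_re, Complex.mul_im, Complex.ofReal_re, Complex.ofReal_im, Complex.conj_re, Complex.conj_im]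
  ring

theorem hm_gram (g : Gm ℝ) : hm (H9.gram OR g) = gm g := by
  unfold hm gm H9.gram
  simp only [OR_one, Complex.ofReal_one]

theorem qf_nsq (f : Rw ℝ) (x : Fin 3 → ℂ) : qf (hm (H9.nsq OR f)) x = normSq (f.v x) := by
  rw [qf_hm]
  have h0 : (H9.nsq OR f).d0 = (conj f.a.c * f.a.c).re := by rw [← c_cml]; rfl
  have h1 : (H9.nsq OR f).d1 = (conj f.b.c * f.b.c).re := by rw [← c_cml]; rfl
  have h2 : (H9.nsq OR f).d2 = (conj f.c.c * f.c.c).re := by rw [← c_cml]; rfl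
  have h3 : (H9.nsq OR f).e01.c = conj f.a.c * f.b.c := c_cml _ _
  have h4 : (H9.nsq OR f).e02.c = conj f.a.c * f.c.c := c_cml _ _
  have h5 : (H9.nsq OR f).e12.c = conj f.b.c * f.c.c := c_cml _ _
  rw [h0, h1, h2, h3, h4, h5]
  unfold Rw.v
  simp only [normSq_apply, Complex.add_re, Complex.add_im, Complex.mul_re, Complex.mul_im, Complex.conj_re, Complex.conj_im]
  ring

theorem qf_re2 (f g : Rw ℝ) (x : Fin 3 → ℂ) : qf (hm (H9.re2 OR f g)) x = 2 * (conj (f.v x) * g.v x).re := by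
  rw [qf_hm]
  have h0 : (H9.re2 OR f g).d0 = (2 * (conj f.a.c * g.a.c)).re := by rw [← c_cml, ← c_dbl]; rfl
  have h1 : (H9.re2 OR f g).d1 = (2 * (conj f.b.c * g.b.c)).re := by rw [← c_cml, ← c_dbl]; rfl
  have h2 : (H9.re2 OR f g).d2 = (2 * (conj f.c.c * g.c.c)).re := by rw [← c_cml, ← c_dbl]; rfl
  have h3 : (H9.re2 OR f g).e01.c = conj f.a.c * g.b.c + conj g.a.c * f.b.c := by rw [← c_cml, ← c_cml, ← c_add]; rfl
  have h4 : (H9.re2 OR f g).e02.c = conj f.a.c * g.c.c + conj g.a.c * f.c.c := by rw [← c_cml, ← c_cml, ← c_add]; rfl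
  have h5 : (H9.re2 OR f g).e12.c = conj f.b.c * g.c.c + conj g.b.c * f.c.c := by rw [← c_cml, ← c_cml, ← c_add]; rfl
  rw [h0, h1, h2, h3, h4, h5]
  unfold Rw.v
  simp only [normSq_apply, Complex.add_re, Complex.add_im, Complex.mul_re, Complex.mul_im, Complex.conj_re, Complex.conj_im,
    Complex.re_ofNat, Complex.im_ofNat]
  ring

theorem hm_rot (Q : H9 ℝ) (x : Fin 3 → ℂ) : qf (hm (Q.rot OR)) ![x 1, x 2, x 0] = qf (hm Q) x := by
  rw [qf_hm, qf_hm]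
  have h0 : (Q.rot OR).d0 = Q.d1 := rfl
  have h1 : (Q.rot OR).d1 = Q.d2 := rfl
  have h2 : (Q.rot OR).d2 = Q.d0 := rfl
  have h3 : (Q.rot OR).e01.c = Q.e12.c := rfl
  have h4 : (Q.rot OR).e02.c = conj Q.e01.c := rfl
  have h5 : (Q.rot OR).e12.c = conj Q.e02.c := rfl
  rw [h0, h1, h2, h3, h4, h5]
  simp only [Matrix.cons_val_zero, Matrix.cons_val_one, Matrix.cons_val, Complex.mul_re, Complex.mul_im, Complex.conj_re,
    Complex.conj_im]
  ring

theorem hm_cmp0 (g : Gm ℝ) (Q : H9 ℝ) : hm (Q.cmp0 OR g) = cmp (gm g) (hm Q) 0 := by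
  have u1 : ((Q.e01.sub OR (g.g01.smul OR Q.d0)).dbl OR).c = 2 * (Q.e01.c - Q.d0 * g.g01.c) := by
    rw [c_dbl, c_sub, c_smul]
  have u2 : ((Q.e02.sub OR (g.g02.smul OR Q.d0)).dbl OR).c = 2 * (Q.e02.c - Q.d0 * g.g02.c) := by
    rw [c_dbl, c_sub, c_smul]
  set U1 := (Q.e01.sub OR (g.g01.smul OR Q.d0)).dbl OR with hU1
  set U2 := (Q.e02.sub OR (g.g02.smul OR Q.d0)).dbl OR with hU2
  have h0 : (Q.cmp0 OR g).d0 = Q.d0 := rfl
  have h1 : (Q.cmp0 OR g).d1 = Q.d1 - (2 * (conj g.g01.c * U1.c)).re := by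
    rw [← c_cml, ← c_dbl]
    rfl
  have h2 : (Q.cmp0 OR g).d2 = Q.d2 - (2 * (conj g.g02.c * U2.c)).re := by
    rw [← c_cml, ← c_dbl]
    rfl
  have h3 : (Q.cmp0 OR g).e01.c = Q.e01.c - U1.c := rfl
  have h4 : (Q.cmp0 OR g).e02.c = Q.e02.c - U2.c := rfl
  have h5 : (Q.cmp0 OR g).e12.c = Q.e12.c - conj g.g01.c * U2.c - conj U1.c * g.g02.c := by
    rw [← c_cml, ← c_cml]
    rfl
  unfold hm
  rw [h0, h1, h2, h3, h4, h5, u1, u2]
  ext a b
  unfold cmp gm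
  fin_cases a <;> fin_cases b
  all_goals
    simp only [Fin.zero_eta, Fin.mk_one, Fin.reduceFinMk, Matrix.of_apply, Matrix.cons_val', Matrix.cons_val_zero,
      Matrix.cons_val_one, Matrix.cons_val, map_one, mul_one]
    apply Complex.ext
    all_goals
      simp only [Complex.add_re, Complex.add_im, Complex.sub_re, Complex.sub_im, Complex.mul_re, Complex.mul_im, Complex.conj_re,
        Complex.conj_im, Complex.ofReal_re, Complex.ofReal_im, Complex.re_ofNat, Complex.im_ofNat]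
      ring

theorem hm_rot' (Q : H9 ℝ) (y : Fin 3 → ℂ) : qf (hm (Q.rot OR)) y = qf (hm Q) ![y 2, y 0, y 1] := by
  have h := hm_rot Q ![y 2, y 0, y 1]
  rw [← h]
  congr 1
  ext a
  fin_cases a <;> rfl

/-- The rotation of a reflection. -/
theorem rot_Sg (g : Gm ℝ) (j : Fin 3) (y : Fin 3 → ℂ) :
    Sg (gm (g.rot OR)) j *ᵥ ![y 1, y 2, y 0] = ![(Sg (gm g) (j + 1) *ᵥ y) 1, (Sg (gm g) (j + 1) *ᵥ y) 2, (Sg (gm g) (j + 1) *ᵥ y) 0] := by
  have h3 : (g.rot OR).g01.c = g.g12.c := rfl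
  have h4 : (g.rot OR).g02.c = conj g.g01.c := rfl
  have h5 : (g.rot OR).g12.c = conj g.g02.c := rfl
  ext a
  fin_cases j <;> fin_cases a <;>
    simp [Sg_mul, gm, h3, h4, h5, Fin.sum_univ_three] <;> ring

theorem comp_qf (g : Gm ℝ) (j : Fin 3) (Q : H9 ℝ) (x : Fin 3 → ℂ) :
    qf (hm (Q.comp OR g j)) x = qf (hm Q) (Sg (gm g) j *ᵥ x) := by
  fin_cases j
  · show qf (hm (Q.cmp0 OR g)) x = _
    rw [hm_cmp0, qf_cmp]
    rfl
  · show qf (hm ((((Q.rot OR).cmp0 OR (g.rot OR)).rot OR).rot OR)) x = _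
    rw [hm_rot', hm_rot', hm_cmp0, qf_cmp]
    have e : (![(![x 2, x 0, x 1] : Fin 3 → ℂ) 2, (![x 2, x 0, x 1] : Fin 3 → ℂ) 0, (![x 2, x 0, x 1] : Fin 3 → ℂ) 1] : Fin 3 → ℂ) =
        ![x 1, x 2, x 0] := by
      ext a
      fin_cases a <;> rfl
    rw [e, rot_Sg, hm_rot]
    rfl
  · show qf (hm ((((Q.rot OR).rot OR).cmp0 OR ((g.rot OR).rot OR)).rot OR)) x = _
    rw [hm_rot', hm_cmp0, qf_cmp]
    set y : Fin 3 → ℂ := ![x 1, x 2, x 0] with hy
    have e : (![x 2, x 0, x 1] : Fin 3 → ℂ) = ![y 1, y 2, y 0] := by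
      ext a
      fin_cases a <;> rfl
    rw [e, rot_Sg, hm_rot]
    have e2 : Sg (gm (g.rot OR)) (0 + 1) *ᵥ y = ![(Sg (gm g) 2 *ᵥ x) 1, (Sg (gm g) 2 *ᵥ x) 2, (Sg (gm g) 2 *ᵥ x) 0] := by
      rw [hy]
      exact rot_Sg g 1 x
    rw [e2, hm_rot]
    rfl

/-- The action of a word on a point. -/
noncomputable def actL (G : Matrix (Fin 3) (Fin 3) ℂ) : List (Fin 3) → (Fin 3 → ℂ) → (Fin 3 → ℂ)
  | [], x => x
  | a :: w, x => Sg G a *ᵥ actL G w x

theorem cmpL_qf (g : Gm ℝ) (w : List (Fin 3)) : ∀ (Q : H9 ℝ) (x : Fin 3 → ℂ),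
    qf (hm (Q.cmpL OR g w)) x = qf (hm Q) (actL (gm g) w x) := by
  induction w with
  | nil => intro Q x; rfl
  | cons a w ih =>
    intro Q x
    show qf (hm ((Q.comp OR g a).cmpL OR g w)) x = _
    rw [ih, comp_qf]
    rfl

theorem actL_append (G : Matrix (Fin 3) (Fin 3) ℂ) (u v : List (Fin 3)) (x : Fin 3 → ℂ) :
    actL G (u ++ v) x = actL G u (actL G v x) := by
  induction u with
  | nil => rfl
  | cons a u ih =>
    show Sg G a *ᵥ actL G (u ++ v) x = Sg G a *ᵥ actL G u (actL G v x)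
    rw [ih]

theorem actL_reverse (G : Matrix (Fin 3) (Fin 3) ℂ) (hG : IsGram G) (u : List (Fin 3)) (x : Fin 3 → ℂ) :
    actL G u.reverse (actL G u x) = x := by
  induction u generalizing x with
  | nil => rfl
  | cons a u ih =>
    rw [List.reverse_cons, actL_append]
    show actL G u.reverse (Sg G a *ᵥ (Sg G a *ᵥ actL G u x)) = x
    rw [Sg_sq G hG, ih]

theorem qf_gram_actL (G : Matrix (Fin 3) (Fin 3) ℂ) (hG : IsGram G) (u : List (Fin 3)) (x : Fin 3 → ℂ) :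
    qf G (actL G u x) = qf G x := by
  induction u with
  | nil => rfl
  | cons a u ih =>
    show qf G (Sg G a *ᵥ actL G u x) = _
    rw [qf_gram_Sg G hG, ih]

/-- The alternating word. -/
def wrd : Fin 3 → Fin 3 → ℕ → List (Fin 3)
  | _, _, 0 => []
  | i, j, l + 1 => i :: wrd j i l

theorem actL_wrd (G : Matrix (Fin 3) (Fin 3) ℂ) (l : ℕ) : ∀ (i j : Fin 3) (x : Fin 3 → ℂ),
    actL G (wrd i j l) x = altS G i j l *ᵥ x := by
  induction l with
  | zero => intro i j x; exact (Matrix.one_mulVec x).symm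
  | succ l ih =>
    intro i j x
    show Sg G i *ᵥ actL G (wrd j i l) x = (Sg G i * altS G j i l) *ᵥ x
    rw [ih, Matrix.mulVec_mulVec]

/-! ## Functionals -/

theorem v_add (f g : Rw ℝ) (x : Fin 3 → ℂ) : (Rw.add OR f g).v x = f.v x + g.v x := by
  unfold Rw.v
  have h0 : (Rw.add OR f g).a.c = f.a.c + g.a.c := rfl
  have h1 : (Rw.add OR f g).b.c = f.b.c + g.b.c := rfl
  have h2 : (Rw.add OR f g).c.c = f.c.c + g.c.c := rfl
  rw [h0, h1, h2]
  ring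

theorem v_sub (f g : Rw ℝ) (x : Fin 3 → ℂ) : (Rw.sub OR f g).v x = f.v x - g.v x := by
  unfold Rw.v
  have h0 : (Rw.sub OR f g).a.c = f.a.c - g.a.c := rfl
  have h1 : (Rw.sub OR f g).b.c = f.b.c - g.b.c := rfl
  have h2 : (Rw.sub OR f g).c.c = f.c.c - g.c.c := rfl
  rw [h0, h1, h2]
  ring

theorem v_smul (r : Cx ℝ) (f : Rw ℝ) (x : Fin 3 → ℂ) : (Rw.smul OR r f).v x = r.c * f.v x := by
  unfold Rw.v
  have h0 : (Rw.smul OR r f).a.c = r.c * f.a.c := c_mul _ _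
  have h1 : (Rw.smul OR r f).b.c = r.c * f.b.c := c_mul _ _
  have h2 : (Rw.smul OR r f).c.c = r.c * f.c.c := c_mul _ _
  rw [h0, h1, h2]
  ring

theorem v_row (g : Gm ℝ) (i : Fin 3) (x : Fin 3 → ℂ) : (g.row OR i).v x = ∑ b, gm g i b * x b := by
  unfold Rw.v
  rw [Fin.sum_univ_three]
  fin_cases i
  · show (one' OR).c * x 0 + g.g01.c * x 1 + g.g02.c * x 2 = _
    rw [c_one]
    rfl
  · show (g.g01.cj OR).c * x 0 + (one' OR).c * x 1 + g.g12.c * x 2 = _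
    rw [c_one, c_cj]
    rfl
  · show (g.g02.cj OR).c * x 0 + (g.g12.cj OR).c * x 1 + (one' OR).c * x 2 = _
    rw [c_one, c_cj, c_cj]
    rfl

theorem v_crd (i : Fin 3) (x : Fin 3 → ℂ) : (crd OR i).v x = x i := by
  unfold Rw.v
  fin_cases i
  · show (one' OR).c * x 0 + (zero' OR).c * x 1 + (zero' OR).c * x 2 = x 0
    rw [c_one, c_zero]
    ring
  · show (zero' OR).c * x 0 + (one' OR).c * x 1 + (zero' OR).c * x 2 = x 1
    rw [c_one, c_zero]
    ring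
  · show (zero' OR).c * x 0 + (zero' OR).c * x 1 + (one' OR).c * x 2 = x 2
    rw [c_one, c_zero]
    ring

theorem v_comp (g : Gm ℝ) (j : Fin 3) (f : Rw ℝ) (x : Fin 3 → ℂ) :
    (Rw.comp OR g j f).v x = f.v (Sg (gm g) j *ᵥ x) := by
  show (Rw.sub OR (Rw.smul OR ((f.get j).dbl OR) (g.row OR j)) f).v x = _
  rw [v_sub, v_smul, c_dbl, v_row]
  unfold Rw.v
  simp only [Sg_mul]
  fin_cases j
  · simp [Rw.get]
    ring
  · simp [Rw.get]
    ring
  · simp [Rw.get]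
    ring

end Pool.Agent.Work.MP_88b7aa_gt.PQ
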