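import Pool.Agent.Work.MP_88b7aa_gt.PQ.Lin

/-!
# A checked cell implies discreteness and faithfulness
-/

namespace Pool.Agent.Work.MP_88b7aa_gt.PQ

open Pool.Agent.Work.MP_88b7aa_gt.CH
open ComplexConjugate Complex Matrix

/-- The number `e^{it}`. -/
noncomputable def zz (t : ℝ) : Cx ℝ := ⟨Real.cos t, Real.sin t⟩

theorem zz_c (t : ℝ) : (zz t).c = exp ((t : ℝ) * I) := by
  apply Complex.ext
  · show Real.cos t = _
    rw [Complex.exp_ofReal_mul_I_re]
  · show Real.sin t = _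
    rw [Complex.exp_ofReal_mul_I_im]

theorem zz_unit (t : ℝ) : (zz t).c * conj (zz t).c = 1 := by
  rw [Complex.mul_conj', zz_c, Complex.norm_exp_ofReal_mul_I]
  norm_num

/-- The Gram matrix of the environment. -/
theorem mkEv_tri {a b c : ℝ} (ha : 0 ≤ a) (hb : 0 ≤ b) (hc : 0 ≤ c) (θ : ℝ) (ex : List (Cx ℝ)) :
    TriG a b c θ (gm (mkEv OR a b c (zz (θ / 6)) ex).g) := by
  rw [mkEv_gm]
  have e : conj (zz (θ / 6)).c * conj (zz (θ / 6)).c = exp ((-(θ / 3) : ℝ) * I) := by
    rw [zz_c, ← Complex.exp_conj, map_mul, Complex.conj_I, Complex.conj_ofReal, ← Complex.exp_add]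
    congr 1
    push_cast
    ring
  rw [e]
  exact Gx_tri a b c θ ha hb hc

/-- The description of the vertex of an ordered pair. -/
inductive VD
  | small (m E : ℕ)
  | sym (sw : Bool) (f : Sc) (t v u1 u2 : ℕ)
  | anti (sw : Bool) (f : Sc) (t v u1 u2 : ℕ)

def VD.vsp : VD → Vsp
  | .small m E => .small m E
  | .sym false _ t v u1 u2 => .big (2 * t + 3) v u1 u2
  | .sym true _ t v u1 u2 => .big (2 * t + 3) v u2 u1
  | .anti false _ t v u1 u2 => .big (2 * t + 1) v u1 u2
  | .anti true _ t v u1 u2 => .big (2 * t + 1) v u2 u1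

/-- The forms of the description. -/
def VD.Ok (fes : List FE) (i j : Fin 3) : VD → Prop
  | .small _ _ => True
  | .sym false f t v u1 u2 =>
      fes.getD v .gram = FEV i j f (ngS (DpS (.par (cpar i j)) t)) (ngS (DpS (.par (cpar i j)) (t + 1))) ∧
      fes.getD u1 .gram = FEV i j f (DpS (.par (cpar i j)) (t + 2)) (DpS (.par (cpar i j)) (t + 1)) ∧
      fes.getD u2 .gram = FEV i j f (DpS (.par (cpar i j)) (t + 1)) (DpS (.par (cpar i j)) (t + 2))
  | .sym true f t v u1 u2 =>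
      fes.getD v .gram = FEV j i f (ngS (DpS (.par (cpar j i)) (t + 1))) (ngS (DpS (.par (cpar j i)) t)) ∧
      fes.getD u1 .gram = FEV j i f (DpS (.par (cpar j i)) (t + 2)) (DpS (.par (cpar j i)) (t + 1)) ∧
      fes.getD u2 .gram = FEV j i f (DpS (.par (cpar j i)) (t + 1)) (DpS (.par (cpar j i)) (t + 2))
  | .anti false f t v u1 u2 =>
      fes.getD v .gram = FEV i j f (ngS (UpS (.par (cpar i j)) t)) (ngS (UpS (.par (cpar i j)) (t + 1))) ∧
      fes.getD u1 .gram = FEV i j f (UpS (.par (cpar i j)) (t + 1)) (UpS (.par (cpar i j)) t) ∧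
      fes.getD u2 .gram = FEV i j f (UpS (.par (cpar i j)) t) (UpS (.par (cpar i j)) (t + 1))
  | .anti true f t v u1 u2 =>
      fes.getD v .gram = FEV j i f (ngS (UpS (.par (cpar j i)) (t + 1))) (ngS (UpS (.par (cpar j i)) t)) ∧
      fes.getD u1 .gram = FEV j i f (UpS (.par (cpar j i)) (t + 1)) (UpS (.par (cpar j i)) t) ∧
      fes.getD u2 .gram = FEV j i f (UpS (.par (cpar j i)) t) (UpS (.par (cpar j i)) (t + 1))

section

variable (p q r : ℕ) (hp : 3 ≤ p) (hq : 3 ≤ q) (hr : 3 ≤ r)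

include hp hq hr in
theorem mcox_ge {i j : Fin 3} (hij : i ≠ j) : 3 ≤ mcox p q r (by omega) (by omega) (by omega) i j := by
  fin_cases i <;> fin_cases j <;> first | exact absurd rfl hij | skip
  · exact hq
  · exact hr
  · exact hq
  · exact hp
  · exact hr
  · exact hp

theorem mcox_sym (i j : Fin 3) : mcox p q r (by omega) (by omega) (by omega) i j =
    mcox p q r (by omega) (by omega) (by omega) j i := by
  fin_cases i <;> fin_cases j <;> rfl

theorem cpar_sym (i j : Fin 3) : cpar i j = cpar j i := by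
  fin_cases i <;> fin_cases j <;> rfl

theorem cpar_val (z : Cx ℝ) (ex : List (Cx ℝ)) {i j : Fin 3} (hij : i ≠ j) :
    (evS OR (mkEv OR (Real.cos (Real.pi / p)) (Real.cos (Real.pi / q)) (Real.cos (Real.pi / r)) z ex) (.par (cpar i j))).re =
      Real.cos (Real.pi / mcox p q r (by omega) (by omega) (by omega) i j) := by
  fin_cases i <;> fin_cases j <;> first | exact absurd rfl hij | rfl

theorem VD.holds (z : Cx ℝ) (hz : z.c * conj z.c = 1) (ex : List (Cx ℝ)) (fes : List FE) {i j k : Fin 3} (hij : i ≠ j)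
    (hik : i ≠ k) (hjk : j ≠ k) (V : VD) (hV : V.Ok fes i j)
    (hs : ∀ m E, V = .small m E → mcox p q r (by omega) (by omega) (by omega) i j = m) :
    V.vsp.Holds (mcox p q r (by omega) (by omega) (by omega))
      (gm (mkEv OR (Real.cos (Real.pi / p)) (Real.cos (Real.pi / q)) (Real.cos (Real.pi / r)) z ex).g)
      (fun t => hm (frm OR (mkEv OR (Real.cos (Real.pi / p)) (Real.cos (Real.pi / q)) (Real.cos (Real.pi / r)) z ex) fes t))
      i j k := by
  have h3 := mcox_ge p q r hp hq hr hij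
  have hsy := mcox_sym p q r (by omega) (by omega) (by omega) i j
  have hcp := cpar_val p q r (by omega) (by omega) (by omega) z ex hij
  have hcp' := cpar_val p q r (by omega) (by omega) (by omega) z ex hij.symm
  set M := mcox p q r (by omega) (by omega) (by omega) with hM
  have hm3 : (3 : ℝ) ≤ M i j := by exact_mod_cast h3
  have hpi := Real.pi_pos
  have h0 : 0 < Real.pi / (M i j : ℕ) := by positivity
  have h1 : Real.pi / (M i j : ℕ) < Real.pi := by
    rw [div_lt_iff₀ (by linarith)]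
    nlinarith
  have hα : ((M i j : ℕ) : ℝ) * (Real.pi / (M i j : ℕ)) = Real.pi := by
    field_simp
  rcases V with ⟨m, E⟩ | ⟨sw, f, t, v, u1, u2⟩ | ⟨sw, f, t, v, u1, u2⟩
  · exact hs m E rfl
  · rcases sw
    · exact Vsp_sym hz ex M hij hik hjk h0 h1 hα hcp f fes t v u1 u2 hV.1 hV.2.1 hV.2.2
    · rw [← hsy] at hcp'
      exact Vsp_sym' hz ex M hij.symm hjk hik h0 h1 hα hcp' f fes t v u1 u2 hV.1 hV.2.1 hV.2.2
  · rcases sw
    · exact Vsp_anti hz ex M hij hik hjk h0 h1 hα hcp f fes t v u1 u2 hV.1 hV.2.1 hV.2.2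
    · rw [← hsy] at hcp'
      exact Vsp_anti' hz ex M hij.symm hjk hik h0 h1 hα hcp' f fes t v u1 u2 hV.1 hV.2.1 hV.2.2

end

/-- The system of a cell: the states, the special facts, the descriptions of the vertices. -/
structure CS where
  st : List (ℕ × Fin 3)
  sp : List Fct
  vd : Fin 3 → Fin 3 → VD

def CS.sys (C : CS) (cd : CD) : Sys :=
  ⟨C.st, cd.cn.map CN.fct ++ (cd.pp.map PN.fct ++ C.sp), cd.pn.map PN.neg, fun i j => (C.vd i j).vsp⟩

/-- The environment of the triangle. -/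
noncomputable def tEv (p q r : ℕ) (θ : ℝ) (ex : List (Cx ℝ)) : Ev ℝ :=
  mkEv OR (Real.cos (Real.pi / p)) (Real.cos (Real.pi / q)) (Real.cos (Real.pi / r)) (zz (θ / 6)) ex

theorem tEv_ok (p q r : ℕ) (θ : ℝ) (ex : List (Cx ℝ)) : EvOK (tEv p q r θ ex) := mkEv_ok (zz_unit _) ex

/-- A checked cell implies discreteness and faithfulness. -/
theorem leaf {R P : Type} {A : Arp R P} {Rel : ℝ → R → Prop} {RelP : H9 ℝ → P → Prop} (hA : ArpOK A Rel RelP)
    (p q r : ℕ) (hp : 3 ≤ p) (hpq : p ≤ q) (hqr : q ≤ r) (hr : 4 ≤ r) (θ : ℝ) (n : Fin 3 → Fin 3 → ℂ)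
    (hT : IsTriangle p q r θ n)
    (hA' : 1 ≤ fA (Real.cos (Real.pi / p)) (Real.cos (Real.pi / q)) (Real.cos (Real.pi / r)) (Real.cos θ))
    (ex : List (Cx ℝ)) {e' : Ev R} (he : REv Rel (tEv p q r θ ex) e') (cd : CD) (hc : cd.chk A e' = true)
    (C : CS) (hS : (C.sys cd).ok = true)
    (hsp : ∀ f ∈ C.sp, f.Holds (gm (tEv p q r θ ex).g) (fun t => hm (frm OR (tEv p q r θ ex) cd.fes t))
      (cd.pt OR (tEv p q r θ ex)).vec)
    (hvd : ∀ i j, i ≠ j → (C.vd i j).Ok cd.fes i j)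
    (hcl : ∀ i j, i ≠ j → ∀ m E, C.vd i j = .small m E → mcox p q r (by omega) (by omega) (by omega) i j = m) :
    DF (mcox p q r (by omega) (by omega) (by omega)) n := by
  have hge : ∀ m : ℕ, 3 ≤ m → 0 ≤ Real.cos (Real.pi / m) := by
    intro m hm
    have hm' : (3 : ℝ) ≤ m := by exact_mod_cast hm
    have hpi := Real.pi_pos
    apply Real.cos_nonneg_of_neg_pi_div_two_le_of_le
    · have : 0 ≤ Real.pi / m := by positivity
      linarith
    · rw [div_le_iff₀ (by linarith)]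
      nlinarith
  obtain ⟨h1, h2, h3, h4⟩ := CD.sound hA he (tEv_ok p q r θ ex) cd hc
  refine Sys.sound p q r hp hpq hqr hr θ n hT hA' _
    (mkEv_tri (hge p hp) (hge q (by omega)) (hge r (by omega)) θ ex) (C.sys cd) hS
    (fun t => hm (frm OR (tEv p q r θ ex) cd.fes t)) (cd.pt OR (tEv p q r θ ex)).vec h4 ?_ ?_ ?_
  · intro f hf
    have hf' : f ∈ cd.cn.map CN.fct ++ (cd.pp.map PN.fct ++ C.sp) := hf
    rw [List.mem_append, List.mem_append, List.mem_map, List.mem_map] at hf'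
    rcases hf' with ⟨g, hg, rfl⟩ | ⟨g, hg, rfl⟩ | hf'
    · exact h1 g hg
    · exact h2 g hg
    · exact hsp f hf'
  · intro x hx
    have hx' : x ∈ cd.pn.map PN.neg := hx
    rw [List.mem_map] at hx'
    obtain ⟨g, hg, rfl⟩ := hx'
    exact h3 g hg
  · intro i j k hij hik hjk
    exact VD.holds p q r hp (by omega) (by omega) _ (zz_unit _) ex cd.fes hij hik hjk (C.vd i j) (hvd i j hij)
      (hcl i j hij)

end Pool.Agent.Work.MP_88b7aa_gt.PQ
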