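import Pool.Agent.Work.MP_88b7aa_gt.PQ.Lam
import Pool.Agent.Work.MP_88b7aa_gt.PQ.Fast
import Pool.Agent.Work.MP_88b7aa_gt.PQ.Leaf

/-!
# The environment with the eigenvalue and the functionals of the B forms, for an arbitrary arithmetic

`Xt R` is the additional interface of the arithmetic: forcing with rounding `fr`, forcing without rounding `fe`, enlarging of the error by
`r / 2^26`.
-/

noncomputable section

namespace Pool.Agent.Work.MP_88b7aa_gt.PQ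

open Pool.Agent.Work.MP_88b7aa_gt.CH
open ComplexConjugate Complex Matrix

/-- The additional interface. -/
structure Xt (R : Type) where
  O : Ops R
  pos : R → Bool
  fr : Cx R → (Cx R → Bool) → Bool
  fe : Cx R → (Cx R → Bool) → Bool
  rd : Cx R → Cx R
  ok : R → Bool
  adr : ℕ → R → R

/-- Soundness. -/
structure XtOK {R : Type} (X : Xt R) (Rel : ℝ → R → Prop) : Prop where
  rel : OpsRel X.O Rel
  pos : ∀ {x : ℝ} {t : R}, Rel x t → X.pos t = true → 0 < x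
  fr : ∀ z k, X.fr z k = k (X.rd z)
  fe : ∀ z k, X.fe z k = k z
  rd : ∀ {x : Cx ℝ} {z : Cx R}, RC Rel x z → RC Rel x (X.rd z)
  adr : ∀ {y y' : ℝ} {t : R} (r : ℕ), Rel y t → X.ok t = true → |y' - y| * 67108864 ≤ r → Rel y' (X.adr r t)

/-! ### Definitions -/

section defs

variable {R : Type} (X : Xt R)

def rwX (f : Rw R) (k : Rw R → Bool) : Bool := X.fr f.a fun a => X.fr f.b fun b => X.fr f.c fun c => k ⟨a, b, c⟩

def rdR (f : Rw R) : Rw R := ⟨X.rd f.a, X.rd f.b, X.rd f.c⟩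

/-- forcing of the spine of a list -/
def lsX {α : Type} : List α → (List α → Bool) → Bool
  | [], k => k []
  | a :: l, k => lsX l fun l => k (a :: l)

/-- three reflections of a row -/
def r3X (g : Gm R) (i j k m : Fin 3) (f : Rw R → Bool) : Bool :=
  rwX X (Rw.comp X.O g k (g.row X.O m)) fun x => rwX X (Rw.comp X.O g j x) fun x => rwX X (Rw.comp X.O g i x) f

/-- the entries of one index -/
def blX (g : Gm R) (l t : Cx R) (j : Fin 3) (k : List (Cx R) → Bool) : Bool :=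
  r3X X g (j + 1) j (j + 2) j fun m => r3X X g (j + 2) j (j + 1) j fun p =>
  rwX X (bf0 X.O g l j m) fun f0 => rwX X (bf1 X.O g l j p) fun f1 =>
  rwX X (bf2 X.O t f0 f1) fun f2 => rwX X (bf3 X.O t f0 f1) fun f3 =>
  rwX X (bf4 X.O g l t j m p) fun f4 => k (bls f0 f1 f2 f3 f4)

def hvX (T x : Cx R) (k : Cx R → Bool) : Bool :=
  X.fe (x.mul X.O x) fun a => X.fe (T.smul X.O (x.cml X.O x).re) fun b => X.fe (a.sub X.O b) fun c => X.fe (x.mul X.O c) k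

/-- the test of the eigenvalue -/
def ldT (D : LD) (e : Ev R) : Bool :=
  cond D.nat
    (X.fe (evS X.O e D.v) fun V => X.fe (evS X.O e TrS) fun T => X.fe (evS X.O e D.w) fun W => X.fe (V.mul X.O V) fun S =>
     X.fe (D.xp X.O V) fun xp => X.fe (D.xm X.O V) fun xm => hvX X T xp fun hp => hvX X T xm fun hm =>
     (D.ns X.O V S W hp hm).all X.pos)
    false

/-- the eigenvalue and `τ` -/
def ldX (D : LD) (e : Ev R) (k : Cx R → Cx R → Bool) : Bool :=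
  X.fe (evS X.O e TrS) fun T => X.fr (evS X.O e D.w) fun S => cond (and (X.ok S.re) (X.ok S.im))
    (X.fe ⟨X.adr D.rr S.re, X.adr D.ri S.im⟩ fun l => X.fr (T.sub X.O l) fun t => k l t)
    false

/-- the extended environment -/
def envX (D : LD) (e : Ev R) (k : Ev R → Bool) : Bool :=
  ldX X D e fun l t => blX X e.g l t 0 fun b0 => blX X e.g l t 1 fun b1 => blX X e.g l t 2 fun b2 =>
    lsX (e.ps ++ l :: t :: (b0 ++ (b1 ++ b2))) fun ps => k ⟨e.g, ps⟩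

/-- the parameters 5, 6, 7, 8 are replaced -/
def rpl (x0 x1 x2 x3 : Cx R) (ps : List (Cx R)) : List (Cx R) := ps.take 5 ++ (x0 :: x1 :: x2 :: x3 :: ps.drop 9)

end defs

/-- There is an eigenvalue close to `w`. -/
def LamE (e : Ev ℝ) (D : LD) : Prop := ∃ l : Cx ℝ, l.c * conj l.c = 1 ∧
  l.c ^ 3 - (evS OR e TrS).c * l.c ^ 2 + conj (evS OR e TrS).c * l.c - 1 = 0 ∧
  |l.re - (evS OR e D.w).re| * 67108864 ≤ D.rr ∧ |l.im - (evS OR e D.w).im| * 67108864 ≤ D.ri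

/-! ### Soundness -/

theorem lsX_eq {α : Type} (l : List α) : ∀ k : List α → Bool, lsX l k = k l := by
  induction l with
  | nil => intro k; rfl
  | cons a l ih =>
    intro k
    show lsX l (fun l => k (a :: l)) = _
    rw [ih]

theorem condX {b x : Bool} (h : cond b x false = true) : b = true ∧ x = true := by
  cases b
  · exact absurd h (by simp)
  · exact ⟨rfl, h⟩

section

variable {R : Type} {X : Xt R} {Rel : ℝ → R → Prop} (hX : XtOK X Rel)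

include hX

theorem rwX_eq (f : Rw R) (k : Rw R → Bool) : rwX X f k = k (rdR X f) := by
  unfold rwX
  rw [hX.fr, hX.fr, hX.fr]
  rfl

theorem rdR_ok {f : Rw ℝ} {f' : Rw R} (h : RRw Rel f f') : RRw Rel f (rdR X f') := ⟨hX.rd h.a, hX.rd h.b, hX.rd h.c⟩

theorem r3X_ok {g : Gm ℝ} {g' : Gm R} (hg : RG Rel g g') (i j k m : Fin 3) (f : Rw R → Bool) (h : r3X X g' i j k m f = true) :
    ∃ y : Rw R, RRw Rel (Rw.comp OR g i (Rw.comp OR g j (Rw.comp OR g k (g.row OR m)))) y ∧ f y = true := by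
  unfold r3X at h
  rw [rwX_eq hX, rwX_eq hX, rwX_eq hX] at h
  refine ⟨_, ?_, h⟩
  exact rdR_ok hX (RRw.comp hX.rel hg _ (rdR_ok hX (RRw.comp hX.rel hg _ (rdR_ok hX (RRw.comp hX.rel hg _ (RG.row hX.rel hg _))))))

theorem hvX_eq (T x : Cx R) (k : Cx R → Bool) : hvX X T x k = k (hvC X.O T x) := by
  unfold hvX
  rw [hX.fe, hX.fe, hX.fe, hX.fe]
  rfl

theorem hvC_rel {T y : Cx ℝ} {T' y' : Cx R} (hT : RC Rel T T') (hy : RC Rel y y') : RC Rel (hvC OR T y) (hvC X.O T' y') :=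
  RC.mul hX.rel hy (RC.sub hX.rel (RC.mul hX.rel hy hy) (RC.smul hX.rel (RC.cml hX.rel hy hy).re hT))

theorem blX_ok {g : Gm ℝ} {g' : Gm R} (hg : RG Rel g g') {l t : Cx ℝ} {l' t' : Cx R} (hl : RC Rel l l')
    (ht : RC Rel t t') (j : Fin 3) (k : List (Cx R) → Bool) (h : blX X g' l' t' j k = true) :
    ∃ y : List (Cx R), List.Forall₂ (RC Rel) (bl OR g l t j) y ∧ k y = true := by
  have hO := hX.rel
  unfold blX at h
  obtain ⟨m, rm, h⟩ := r3X_ok hX hg _ _ _ _ _ h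
  obtain ⟨p, rp, h⟩ := r3X_ok hX hg _ _ _ _ _ h
  rw [rwX_eq hX, rwX_eq hX, rwX_eq hX, rwX_eq hX, rwX_eq hX] at h
  have f0 := rdR_ok hX (RRw.sub hO rm (RRw.smul hO hl (RG.row hO hg j)))
  have f1 := rdR_ok hX (RRw.sub hO rp (RRw.smul hO (RC.cj hO hl) (RG.row hO hg j)))
  have f2 := rdR_ok hX (RRw.add hO f0 (RRw.smul hO (RC.cj hO ht) f1))
  have f3 := rdR_ok hX (RRw.add hO f1 (RRw.smul hO ht f0))
  have f4 := rdR_ok hX (RRw.add hO (RRw.smul hO (RC.cj hO hl) rp) (RRw.sub hO rm (RRw.smul hO ht (RG.row hO hg j))))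
  refine ⟨_, ?_, h⟩
  exact .cons f0.a (.cons f0.b (.cons f0.c (.cons f1.a (.cons f1.b (.cons f1.c (.cons f2.a (.cons f2.b (.cons f2.c
    (.cons f3.a (.cons f3.b (.cons f3.c (.cons f4.a (.cons f4.b (.cons f4.c .nil))))))))))))))

omit hX in
theorem allX {l : List ℝ} {l' : List R} (h : List.Forall₂ Rel l l') (hp : ∀ {y : ℝ} {t : R}, Rel y t → X.pos t = true → 0 < y)
    (ha : l'.all X.pos = true) : ∀ y ∈ l, 0 < y := by
  induction h with
  | nil => intro y hy; exact absurd hy (by simp)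
  | cons hx' _ ih =>
    rw [List.all_cons, Bool.and_eq_true] at ha
    intro y hy
    rcases List.mem_cons.1 hy with rfl | hy
    · exact hp hx' ha.1
    · exact ih ha.2 y hy

/-- Soundness of the test. -/
theorem ldT_ok {e : Ev ℝ} {e' : Ev R} (he : REv Rel e e') (D : LD) (h : ldT X D e' = true) : LamE e D := by
  have hO := hX.rel
  unfold ldT at h
  obtain ⟨h0, h⟩ := condX h
  rw [hX.fe, hX.fe, hX.fe, hX.fe, hX.fe, hX.fe, hvX_eq hX, hvX_eq hX] at h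
  have rV := RC.evS hO he D.v
  have rT := RC.evS hO he TrS
  have rW := RC.evS hO he D.w
  have rp : RC Rel (D.xp OR (evS OR e D.v)) (D.xp X.O (evS X.O e' D.v)) := RC.mul hO rV (RC.cst hO _ _)
  have rm : RC Rel (D.xm OR (evS OR e D.v)) (D.xm X.O (evS X.O e' D.v)) := RC.mul hO rV (RC.cst hO _ _)
  have rhp := hvC_rel hX rT rp
  have rhm := hvC_rel hX rT rm
  have rn := RC.cml hO rV rV
  have rS := RC.mul hO rV rV
  refine D.lam (evS OR e D.v) (evS OR e D.w) (evS OR e TrS) h0 (allX (X := X) ?_ hX.pos h)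
  refine .cons ?_ (.cons ?_ (.cons (hO.sub (hO.cst _) rn.re) (.cons (hO.sub rn.re (hO.cst _)) (.cons (hO.sub (hO.cst _) rS.re)
    (.cons (hO.add (hO.cst _) rS.re) (.cons (hO.sub (hO.cst _) rS.im) (.cons (hO.add (hO.cst _) rS.im)
      (.cons (hO.sub (hO.cst _) (hO.sub rS.re rW.re)) (.cons (hO.add (hO.cst _) (hO.sub rS.re rW.re))
        (.cons (hO.sub (hO.cst _) (hO.sub rS.im rW.im)) (.cons (hO.add (hO.cst _) (hO.sub rS.im rW.im)) .nil)))))))))))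
  · split_ifs
    · exact rhp.im
    · exact hO.neg rhp.im
  · split_ifs
    · exact hO.neg rhm.im
    · exact rhm.im

/-- Soundness of the eigenvalue. -/
theorem ldX_ok {e : Ev ℝ} {e' : Ev R} (he : REv Rel e e') (D : LD) (hL : LamE e D) (f : Cx R → Cx R → Bool) (h : ldX X D e' f = true) :
    ∃ l : Cx ℝ, l.c * conj l.c = 1 ∧
      l.c ^ 3 - (evS OR e TrS).c * l.c ^ 2 + conj (evS OR e TrS).c * l.c - 1 = 0 ∧ ∃ l' t' : Cx R, RC Rel l l' ∧
      RC Rel ((evS OR e TrS).sub OR l) t' ∧ f l' t' = true := by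
  have hO := hX.rel
  obtain ⟨l, l1, l2, l3, l4⟩ := hL
  unfold ldX at h
  rw [hX.fe, hX.fr] at h
  obtain ⟨h2, h⟩ := condX h
  rw [hX.fe, hX.fr] at h
  rw [Bool.and_eq_true] at h2
  obtain ⟨e1, e2⟩ := h2
  have rT := RC.evS hO he TrS
  have rW := hX.rd (RC.evS hO he D.w)
  have rl : RC Rel l ⟨X.adr D.rr (X.rd (evS X.O e' D.w)).re, X.adr D.ri (X.rd (evS X.O e' D.w)).im⟩ :=
    ⟨hX.adr _ rW.re e1 l3, hX.adr _ rW.im e2 l4⟩
  exact ⟨l, l1, l2, _, _, rl, hX.rd (RC.sub hO rT rl), h⟩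

/-- Soundness of the extended environment. -/
theorem envX_ok {e : Ev ℝ} {e' : Ev R} (he : REv Rel e e') (D : LD) (hL : LamE e D) (f : Ev R → Bool) (h : envX X D e' f = true) :
    ∃ l : Cx ℝ, l.c * conj l.c = 1 ∧
      l.c ^ 3 - (evS OR e TrS).c * l.c ^ 2 + conj (evS OR e TrS).c * l.c - 1 = 0 ∧ ∃ e'' : Ev R,
      REv Rel ⟨e.g, e.ps ++ exB OR e.g l ((evS OR e TrS).sub OR l)⟩ e'' ∧ f e'' = true := by
  unfold envX at h
  obtain ⟨l, l1, l2, l', t', l3, l4, h⟩ := ldX_ok hX he D hL _ h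
  obtain ⟨b0, r0, h⟩ := blX_ok hX he.g l3 l4 0 _ h
  obtain ⟨b1, r1, h⟩ := blX_ok hX he.g l3 l4 1 _ h
  obtain ⟨b2, r2, h⟩ := blX_ok hX he.g l3 l4 2 _ h
  rw [lsX_eq] at h
  have h2 : List.Forall₂ (RC Rel) (e.ps ++ exB OR e.g l ((evS OR e TrS).sub OR l)) (e'.ps ++ l' :: t' :: (b0 ++ (b1 ++ b2))) :=
    List.rel_append he.ps (.cons l3 (.cons l4 (List.rel_append r0 (List.rel_append r1 r2))))
  exact ⟨l, l1, l2, ⟨e'.g, e'.ps ++ l' :: t' :: (b0 ++ (b1 ++ b2))⟩, ⟨he.g, h2⟩, h⟩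

omit hX in
theorem rpl_ok {l : List (Cx ℝ)} {l' : List (Cx R)} (h : List.Forall₂ (RC Rel) l l') {y0 y1 y2 y3 : Cx ℝ} {x0 x1 x2 x3 : Cx R}
    (h0 : RC Rel y0 x0) (h1 : RC Rel y1 x1) (h2 : RC Rel y2 x2) (h3 : RC Rel y3 x3) :
    List.Forall₂ (RC Rel) (rpl y0 y1 y2 y3 l) (rpl x0 x1 x2 x3 l') :=
  List.rel_append (List.forall₂_take _ h) (.cons h0 (.cons h1 (.cons h2 (.cons h3 (List.forall₂_drop _ h)))))

end

/-! ### The theorem of a cell -/

/-- The facts of a list. -/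
def bkf : List BK → List Fct
  | [] => []
  | b :: l => b.fcts ++ bkf l

theorem bkf_mem {l : List BK} {f : Fct} (h : f ∈ bkf l) : ∃ b ∈ l, f ∈ b.fcts := by
  induction l with
  | nil => exact absurd h (by simp [bkf])
  | cons b l ih =>
    unfold bkf at h
    rcases List.mem_append.1 h with h | h
    · exact ⟨b, List.mem_cons_self, h⟩
    · obtain ⟨b', h1, h2⟩ := ih h
      exact ⟨b', List.mem_cons_of_mem _ h1, h2⟩

/-- The check of a cell in the given environment. -/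
def chkX {R P : Type} (A : Arp R P) (X : Xt R) (sk : List SK) (bk : List BK) (D : LD) (cd : CD) (e : Ev R) : Bool :=
  envX X D e fun e => cond (lamT A e) (cond (cd.chkF A e) (cond (allK (fun s => s.chk A e) sk) (allK (fun s => s.chk A e) bk) false) false) false

/-- A checked cell with B forms implies discreteness and faithfulness. -/
theorem leafL {R P : Type} {A : Arp R P} {X : Xt R} {Rel : ℝ → R → Prop} {RelP : H9 ℝ → P → Prop} (hA : ArpOK A Rel RelP)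
    (hX : XtOK X Rel)
    (p q r : ℕ) (hp : 3 ≤ p) (hpq : p ≤ q) (hqr : q ≤ r) (hr : 4 ≤ r) (θ : ℝ) (n : Fin 3 → Fin 3 → ℂ)
    (hT : IsTriangle p q r θ n)
    (hfA : 1 ≤ fA (Real.cos (Real.pi / p)) (Real.cos (Real.pi / q)) (Real.cos (Real.pi / r)) (Real.cos θ))
    (hfB : 0 ≤ fB (Real.cos (Real.pi / p)) (Real.cos (Real.pi / q)) (Real.cos (Real.pi / r)) (Real.cos θ))
    (y0 y1 y2 y3 y4 y5 y6 : Cx ℝ) {e' : Ev R} (he : REv Rel (tEv p q r θ [y0, y1, y2, y3, y4, y5, y6]) e')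
    (sk : List SK) (bk : List BK) (D : LD) (hLE : LamE (tEv p q r θ [y0, y1, y2, y3, y4, y5, y6]) D) (cd : CD) (h : chkX A X sk bk D cd e' = true) (hst : cd.stat = true)
    (C : CS) (hC : C.sp = sk.map SK.fct ++ bkf bk) (hS : (C.sys cd).ok = true) (lb oe : Fin 3 → Fin 3 → ℕ)
    (hlb : ∀ i j, i ≠ j → lb i j ≤ mcox p q r (by omega) (by omega) (by omega) i j)
    (hoe : ∀ i j, i ≠ j → oe i j ≠ 0 → mcox p q r (by omega) (by omega) (by omega) i j = oe i j)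
    (hok : ∀ s ∈ sk, s.Ok cd.fes lb oe) (hbk : ∀ s ∈ bk, s.Ok cd.fes)
    (hvd : ∀ i j, i ≠ j → (C.vd i j).Ok cd.fes i j)
    (hcl : ∀ i j, i ≠ j → ∀ m E, C.vd i j = .small m E → mcox p q r (by omega) (by omega) (by omega) i j = m) :
    DF (mcox p q r (by omega) (by omega) (by omega)) n := by
  unfold chkX at h
  obtain ⟨l, l1, l2, e'', he'', h⟩ := envX_ok hX he D hLE _ h
  simp only [allK_eq, Bool.cond_false_right, Bool.and_eq_true, List.all_eq_true] at h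
  obtain ⟨hlam, hc, hs, hbs⟩ := h
  have hc := CD.chkF_chk A hA.fH hA.fP _ cd hst hc
  have htri : TriG (Real.cos (Real.pi / p)) (Real.cos (Real.pi / q)) (Real.cos (Real.pi / r)) θ
      (gm (mkEv OR (Real.cos (Real.pi / p)) (Real.cos (Real.pi / q)) (Real.cos (Real.pi / r)) (zz (θ / 6)) []).g) := by
    have hge : ∀ m : ℕ, 3 ≤ m → 0 ≤ Real.cos (Real.pi / m) := by
      intro m hm
      have hm' : (3 : ℝ) ≤ m := by exact_mod_cast hm
      have hpi := Real.pi_pos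
      apply Real.cos_nonneg_of_neg_pi_div_two_le_of_le
      · have : 0 ≤ Real.pi / m := by positivity
        linarith
      · rw [div_le_iff₀ (by linarith)]
        nlinarith
    exact mkEv_tri (hge p hp) (hge q (by omega)) (hge r (by omega)) θ []
  have hTr : (evS OR (tEv p q r θ [y0, y1, y2, y3, y4, y5, y6]) TrS).c =
      (WM3 (gm (tEv p q r θ [y0, y1, y2, y3, y4, y5, y6]).g) 0 1 2).trace :=
    TrS_c (Real.cos (Real.pi / p)) (Real.cos (Real.pi / q)) (Real.cos (Real.pi / r)) (zz_unit _) _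
  set T := evS OR (tEv p q r θ [y0, y1, y2, y3, y4, y5, y6]) TrS with hTd
  set τ := T.sub OR l with hτ
  have hev := tEv_ok p q r θ ([y0, y1, y2, y3, y4, y5, y6] ++ exB OR (tEv p q r θ [y0, y1, y2, y3, y4, y5, y6]).g l τ)
  have hE : BEv (tEv p q r θ ([y0, y1, y2, y3, y4, y5, y6] ++ exB OR (tEv p q r θ [y0, y1, y2, y3, y4, y5, y6]).g l τ)) l τ :=
    BEv_mk _ _ _ _ _ _ _ _ _ _ _ l τ
  have he2 : REv Rel (tEv p q r θ ([y0, y1, y2, y3, y4, y5, y6] ++ exB OR (tEv p q r θ [y0, y1, y2, y3, y4, y5, y6]).g l τ)) e'' :=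
    he''
  rw [hTr] at l2
  have hL : LamOK (gm (tEv p q r θ ([y0, y1, y2, y3, y4, y5, y6] ++ exB OR (tEv p q r θ [y0, y1, y2, y3, y4, y5, y6]).g l τ)).g)
      l.c τ.c := by
    refine lamOK_of hA he2 hE (a := Real.cos (Real.pi / p)) (b := Real.cos (Real.pi / q)) (c := Real.cos (Real.pi / r)) (θ := θ)
      htri hfB l1 l2 ?_ hlam
    show (WM3 (gm (tEv p q r θ [y0, y1, y2, y3, y4, y5, y6]).g) 0 1 2).trace = _
    rw [← hTr, hτ, c_sub]
    ring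
  refine leaf hA p q r hp hpq hqr hr θ n hT hfA _ he2 cd hc C hS ?_ hvd hcl
  intro f hf
  rw [hC, List.mem_append, List.mem_map] at hf
  rcases hf with ⟨s, hs', rfl⟩ | hf
  · exact SK.sound hA p q r hp hpq hqr θ _ hfA he2 cd.fes _ lb oe hlb hoe s (hok s hs') (hs s hs')
  · obtain ⟨b, hb1, hb2⟩ := bkf_mem hf
    exact BK.sound hA he2 hev hE hL cd.fes _ b (hbk b hb1) (hbs b hb1) f hb2

/-! ### The sub-boxes -/

/-- A box with models of the four variables of the original box. -/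
structure Bx8 where
  B : Bx4
  x0 : Lin
  x1 : Lin
  x2 : Lin
  x3 : Lin

structure Bx8.Holds (b : Bx8) (x : Fin 4 → ℝ) (A B C t : ℝ) (X : Fin 4 → ℝ) : Prop where
  B : b.B.Holds x A B C t
  x0 : b.x0.Holds x (X 0)
  x1 : b.x1.Holds x (X 1)
  x2 : b.x2.Holds x (X 2)
  x3 : b.x3.Holds x (X 3)

def Bx8.half (j : Fin 4) (s : Bool) (b : Bx8) : Bx8 := ⟨b.B.half j s, b.x0.half j s, b.x1.half j s, b.x2.half j s, b.x3.half j s⟩

theorem Bx8.half_holds {b : Bx8} {k : ℕ} {x : Fin 4 → ℝ} {A B C t : ℝ} {X : Fin 4 → ℝ} (h : Cub k x) (j : Fin 4) (s : Bool)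
    (hb : b.Holds x A B C t X) : (b.half j s).Holds (hx j s x) A B C t X :=
  ⟨Bx4.half_holds h j s hb.B, Lin.half_holds j s (h.le j) hb.x0, Lin.half_holds j s (h.le j) hb.x1, Lin.half_holds j s (h.le j) hb.x2,
    Lin.half_holds j s (h.le j) hb.x3⟩

/-- The box with its own variables. -/
def Bx4.top8 (B : Bx4) : Bx8 := ⟨B, ⟨0, 281474976710656, 0, 0, 0, 0⟩, ⟨0, 0, 281474976710656, 0, 0, 0⟩, ⟨0, 0, 0, 281474976710656, 0, 0⟩,
  ⟨0, 0, 0, 0, 281474976710656, 0⟩⟩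

theorem Bx4.top8_holds {B : Bx4} {x : Fin 4 → ℝ} {a b c t : ℝ} (h : B.Holds x a b c t) : B.top8.Holds x a b c t x := by
  refine ⟨h, ?_, ?_, ?_, ?_⟩
  · show |x 0 * 281474976710656 - (((0 : ℤ) : ℝ) + ((281474976710656 : ℤ) : ℝ) * x 0 + ((0 : ℤ) : ℝ) * x 1 + ((0 : ℤ) : ℝ) * x 2 +
      ((0 : ℤ) : ℝ) * x 3)| ≤ ((0 : ℕ) : ℝ)
    push_cast
    rw [show x 0 * 281474976710656 - (0 + 281474976710656 * x 0 + 0 * x 1 + 0 * x 2 + 0 * x 3) = 0 by ring, abs_zero]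
  · show |x 1 * 281474976710656 - (((0 : ℤ) : ℝ) + ((0 : ℤ) : ℝ) * x 0 + ((281474976710656 : ℤ) : ℝ) * x 1 + ((0 : ℤ) : ℝ) * x 2 +
      ((0 : ℤ) : ℝ) * x 3)| ≤ ((0 : ℕ) : ℝ)
    push_cast
    rw [show x 1 * 281474976710656 - (0 + 0 * x 0 + 281474976710656 * x 1 + 0 * x 2 + 0 * x 3) = 0 by ring, abs_zero]
  · show |x 2 * 281474976710656 - (((0 : ℤ) : ℝ) + ((0 : ℤ) : ℝ) * x 0 + ((0 : ℤ) : ℝ) * x 1 + ((281474976710656 : ℤ) : ℝ) * x 2 +
      ((0 : ℤ) : ℝ) * x 3)| ≤ ((0 : ℕ) : ℝ)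
    push_cast
    rw [show x 2 * 281474976710656 - (0 + 0 * x 0 + 0 * x 1 + 281474976710656 * x 2 + 0 * x 3) = 0 by ring, abs_zero]
  · show |x 3 * 281474976710656 - (((0 : ℤ) : ℝ) + ((0 : ℤ) : ℝ) * x 0 + ((0 : ℤ) : ℝ) * x 1 + ((0 : ℤ) : ℝ) * x 2 +
      ((281474976710656 : ℤ) : ℝ) * x 3)| ≤ ((0 : ℕ) : ℝ)
    push_cast
    rw [show x 3 * 281474976710656 - (0 + 0 * x 0 + 0 * x 1 + 0 * x 2 + 281474976710656 * x 3) = 0 by ring, abs_zero]

/-- The test of all sub-boxes. -/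
def sub8 (k : ℕ) (f : Bx8 → Bool) : List (Fin 4) → Bx8 → Bool
  | [], b => f b
  | j :: l, b => cond (Nat.blt j.val k) (cond (sub8 k f l (b.half j false)) (sub8 k f l (b.half j true)) false) false

theorem sub8_ok {k : ℕ} {f : Bx8 → Bool} {Q : Prop} {A B C t : ℝ} {X : Fin 4 → ℝ}
    (hf : ∀ (b : Bx8) (x : Fin 4 → ℝ), Cub k x → b.Holds x A B C t X → f b = true → Q) (l : List (Fin 4)) :
    ∀ (b : Bx8) (x : Fin 4 → ℝ), Cub k x → b.Holds x A B C t X → sub8 k f l b = true → Q := by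
  induction l with
  | nil => exact hf
  | cons j l ih =>
    intro b x hx hb h
    unfold sub8 at h
    obtain ⟨h0, h⟩ := condX h
    obtain ⟨h1, h2⟩ := condX h
    obtain ⟨s, hs⟩ := hx_cub hx (by simpa using h0)
    cases s
    · exact ih _ _ hs (Bx8.half_holds hx j false hb) h1
    · exact ih _ _ hs (Bx8.half_holds hx j true hb) h2

/-- The test of a sub-box, in its environment `e`; `lin` is the constructor of linear models. -/
def lamF {R : Type} (X : Xt R) (lin : Lin → R) (D : LD) (b : Bx8) (e : Ev R) : Bool :=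
  X.fe ⟨lin b.x0, X.O.cst 0⟩ fun x0 => X.fe ⟨lin b.x1, X.O.cst 0⟩ fun x1 => X.fe ⟨lin b.x2, X.O.cst 0⟩ fun x2 =>
  X.fe ⟨lin b.x3, X.O.cst 0⟩ fun x3 => lsX (rpl x0 x1 x2 x3 e.ps) fun ps => ldT X D ⟨e.g, ps⟩

theorem lamF_ok {R : Type} {X : Xt R} {Rel : ℝ → R → Prop} (hX : XtOK X Rel) {lin : Lin → R} {x : Fin 4 → ℝ}
    (hlin : ∀ {L : Lin} {y : ℝ}, L.Holds x y → Rel y (lin L)) {b : Bx8} {A B C t : ℝ} {Y : Fin 4 → ℝ} (hb : b.Holds x A B C t Y)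
    {g : Gm ℝ} {ps : List (Cx ℝ)} {e' : Ev R} (he : REv Rel ⟨g, ps⟩ e') (D : LD) (h : lamF X lin D b e' = true) :
    LamE ⟨g, rpl ⟨Y 0, OR.cst 0⟩ ⟨Y 1, OR.cst 0⟩ ⟨Y 2, OR.cst 0⟩ ⟨Y 3, OR.cst 0⟩ ps⟩ D := by
  unfold lamF at h
  rw [hX.fe, hX.fe, hX.fe, hX.fe, lsX_eq] at h
  have hr := rpl_ok he.ps (⟨hlin hb.x0, hX.rel.cst 0⟩ : RC Rel ⟨Y 0, OR.cst 0⟩ ⟨lin b.x0, X.O.cst 0⟩)
    (⟨hlin hb.x1, hX.rel.cst 0⟩ : RC Rel ⟨Y 1, OR.cst 0⟩ ⟨lin b.x1, X.O.cst 0⟩)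
    (⟨hlin hb.x2, hX.rel.cst 0⟩ : RC Rel ⟨Y 2, OR.cst 0⟩ ⟨lin b.x2, X.O.cst 0⟩)
    (⟨hlin hb.x3, hX.rel.cst 0⟩ : RC Rel ⟨Y 3, OR.cst 0⟩ ⟨lin b.x3, X.O.cst 0⟩)
  have hr' : REv Rel ⟨g, rpl ⟨Y 0, OR.cst 0⟩ ⟨Y 1, OR.cst 0⟩ ⟨Y 2, OR.cst 0⟩ ⟨Y 3, OR.cst 0⟩ ps⟩
      (⟨e'.g, rpl ⟨lin b.x0, X.O.cst 0⟩ ⟨lin b.x1, X.O.cst 0⟩ ⟨lin b.x2, X.O.cst 0⟩ ⟨lin b.x3, X.O.cst 0⟩ e'.ps⟩ : Ev R) := ⟨he.g, hr⟩
  exact ldT_ok hX hr' D h

end Pool.Agent.Work.MP_88b7aa_gt.PQ
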