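import Pool.Agent.Work.MP_88b7aa_gt.CH.PP

/-!
# Decomposition of an element along a rank two parabolic subgroup, without a condition on the second descent.

Like `Dec` of `CH/Dec.lean`, but the second letter may also be a descent of `g`; then `n ≤ M i k` only.
PROOF.  `n` maximal with `g = alt k i n * g'`, `l g = n + l g'`.  As in `Dec`, `g'` has no left descent in `{i, k}`.  If `n > m = M i k`
then `alt k i (m + 1) = s_k alt i k m = s_k alt k i m = alt i k (m - 1)` is too short.
-/

namespace Pool.Agent.Work.MP_88b7aa_gt.PQ

open Pool.Agent.Work.MP_88b7aa_gt.CH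

variable {W : Type*} [Group W] {M : CoxeterMatrix (Fin 3)}

theorem alt_succ (cs : CoxeterSystem M W) (n : ℕ) : ∀ a b : Fin 3,
    alt cs a b (n + 1) = alt cs a b n * cs.simple (if Even n then a else b) := by
  induction n with
  | zero => intro a b; simp [alt]
  | succ n ih =>
    intro a b
    have h1 : alt cs a b (n + 1 + 1) = cs.simple a * alt cs b a (n + 1) := rfl
    have h2 : alt cs a b (n + 1) = cs.simple a * alt cs b a n := rfl
    rw [h1, ih b a, h2, mul_assoc]
    congr 3
    by_cases h : Even n
    · simp [h, Nat.even_add_one]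
    · simp [h, Nat.even_add_one]

theorem alt_len (cs : CoxeterSystem M W) (n : ℕ) : ∀ a b : Fin 3,
    cs.length (alt cs a b n) ≤ n := by
  induction n with
  | zero => intro a b; simp [alt]
  | succ n ih =>
    intro a b
    have h2 : alt cs a b (n + 1) = cs.simple a * alt cs b a n := rfl
    rw [h2]
    have h3 := cs.length_mul_le (cs.simple a) (alt cs b a n)
    rw [cs.length_simple] at h3
    have := ih b a
    omega

theorem alt_add (cs : CoxeterSystem M W) (a b : Fin 3) (p q : ℕ) :
    ∃ h : W, cs.length h ≤ q ∧ alt cs a b (p + q) = alt cs a b p * h := by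
  induction q with
  | zero => exact ⟨1, by simp, by simp⟩
  | succ q ih =>
    obtain ⟨h, hl, he⟩ := ih
    refine ⟨h * cs.simple (if Even (p + q) then a else b), ?_, ?_⟩
    · have h3 := cs.length_mul_le h (cs.simple (if Even (p + q) then a else b))
      rw [cs.length_simple] at h3
      omega
    · rw [← add_assoc, alt_succ, he, mul_assoc]

theorem alt_word (cs : CoxeterSystem M W) (a b : Fin 3) (n : ℕ) :
    alt cs a b n = cs.wordProd
      (CoxeterSystem.alternatingWord (if Even n then a else b) (if Even n then b else a) n) := by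
  induction n with
  | zero => simp [alt, CoxeterSystem.alternatingWord]
  | succ n ih =>
    rw [alt_succ, ih]
    by_cases h : Even n
    · simp only [h, Nat.even_add_one, if_true, not_true_eq_false, if_false]
      rw [CoxeterSystem.alternatingWord, List.concat_eq_append, cs.wordProd_append,
        cs.wordProd_singleton]
    · simp only [h, Nat.even_add_one, if_false, not_false_eq_true, if_true]
      rw [CoxeterSystem.alternatingWord, List.concat_eq_append, cs.wordProd_append,
        cs.wordProd_singleton]

theorem alt_braid (cs : CoxeterSystem M W) (a b : Fin 3) :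
    alt cs a b (M a b) = alt cs b a (M a b) := by
  have h := cs.wordProd_braidWord_eq a b
  unfold CoxeterSystem.braidWord at h
  rw [M.symmetric b a] at h
  rw [alt_word, alt_word]
  by_cases he : Even (M a b)
  · simp only [he, if_true]
    exact h
  · simp only [he, if_false]
    exact h.symm

theorem Dec2 (cs : CoxeterSystem M W) (i k : Fin 3) (hm : 2 ≤ M i k) (g : W)
    (hk : cs.IsLeftDescent g k) :
    ∃ (n : ℕ) (g' : W), 1 ≤ n ∧ n ≤ M i k ∧ g = alt cs k i n * g' ∧
      cs.length g = n + cs.length g' ∧ ¬ cs.IsLeftDescent g' i ∧ ¬ cs.IsLeftDescent g' k := by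
  classical
  let P : ℕ → Prop := fun n => ∃ g' : W, g = alt cs k i n * g' ∧ cs.length g = n + cs.length g'
  have hP1 : P 1 := by
    refine ⟨cs.simple k * g, ?_, ?_⟩
    · have : alt cs k i 1 = cs.simple k := by simp [alt]
      rw [this, cs.simple_mul_simple_cancel_left]
    · have := cs.isLeftDescent_iff.mp hk
      omega
  have hle : ∀ n, P n → n ≤ cs.length g := by
    rintro n ⟨g', -, h⟩
    omega
  set n := Nat.findGreatest P (cs.length g) with hn
  have hPn : P n := Nat.findGreatest_spec (hle 1 hP1) hP1
  have hn1 : 1 ≤ n := Nat.le_findGreatest (hle 1 hP1) hP1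
  have hmax : ¬ P (n + 1) := by
    intro h
    exact Nat.findGreatest_is_greatest (n := cs.length g) (k := n + 1) (P := P)
      (by rw [← hn]; omega) (hle _ h) h
  obtain ⟨g', hg, hlen⟩ := hPn
  have hj : ¬ cs.IsLeftDescent g' (if Even n then k else i) := by
    intro hd
    have h1 := cs.isLeftDescent_iff.mp hd
    refine hmax ⟨cs.simple (if Even n then k else i) * g', ?_, by omega⟩
    rw [alt_succ, mul_assoc, cs.simple_mul_simple_cancel_left]
    exact hg
  have hj' : ¬ cs.IsLeftDescent g' (if Even n then i else k) := by
    intro hd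
    have h1 := cs.isLeftDescent_iff.mp hd
    obtain ⟨n', hn'⟩ : ∃ n', n = n' + 1 := ⟨n - 1, by omega⟩
    have he : (if Even n then i else k) = (if Even n' then k else i) := by
      by_cases h : Even n'
      · simp [hn', h, Nat.even_add_one]
      · simp [hn', h, Nat.even_add_one]
    have h2 : g = alt cs k i n' * (cs.simple (if Even n then i else k) * g') := by
      rw [he, ← mul_assoc, ← alt_succ, ← hn']
      exact hg
    have h3 := cs.length_mul_le (alt cs k i n') (cs.simple (if Even n then i else k) * g')
    rw [← h2] at h3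
    have h4 := alt_len cs n' k i
    omega
  refine ⟨n, g', hn1, ?_, hg, hlen, ?_, ?_⟩
  · by_contra hcon
    have hmn : M i k + 1 ≤ n := by omega
    obtain ⟨q, hq⟩ := Nat.exists_eq_add_of_le hmn
    obtain ⟨h, hl, he⟩ := alt_add cs k i (M i k + 1) q
    obtain ⟨m', hm'⟩ : ∃ m', M i k = m' + 1 := ⟨M i k - 1, by omega⟩
    have hb : alt cs k i (M i k + 1) = alt cs i k m' := by
      have e1 : alt cs k i (M i k + 1) = cs.simple k * alt cs i k (M i k) := rfl
      rw [e1, alt_braid cs i k, hm']
      have e2 : alt cs k i (m' + 1) = cs.simple k * alt cs i k m' := rfl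
      rw [e2, cs.simple_mul_simple_cancel_left]
    have h2 : g = alt cs i k m' * (h * g') := by
      rw [hg, hq, he, hb, mul_assoc]
    have h3 := cs.length_mul_le (alt cs i k m') (h * g')
    have h4 := cs.length_mul_le h g'
    have h5 := alt_len cs m' i k
    rw [← h2] at h3
    omega
  · by_cases h : Even n
    · simpa [h] using hj'
    · simpa [h] using hj
  · by_cases h : Even n
    · simpa [h] using hj
    · simpa [h] using hj'

end Pool.Agent.Work.MP_88b7aa_gt.PQ
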