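import Pool.Agent.Work.MP_88b7aa_gt.PQ.Dec2

/-!
# Ping-pong for Coxeter groups of rank three with sets attached to the generators
-/

namespace Pool.Agent.Work.MP_88b7aa_gt.PQ

open Pool.Agent.Work.MP_88b7aa_gt.CH

variable {W : Type*} [Group W] {M : CoxeterMatrix (Fin 3)}

/-- The hypotheses of the ping-pong: `T i` receives everything with the single left descent `i`. -/
structure PPT (cs : CoxeterSystem M W) {X : Type*} (act : W → X → X) (T : Fin 3 → Set X) (O : Set X) : Prop where
  act_one : ∀ x, act 1 x = x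
  act_mul : ∀ g h x, act (g * h) x = act g (act h x)
  m2 : ∀ i j, i ≠ j → 2 ≤ M i j
  hA : ∀ i, ∀ x ∈ O, act (cs.simple i) x ∈ T i
  hB : ∀ i j k, i ≠ j → i ≠ k → j ≠ k → ∀ l, 2 ≤ l → l < M i j → ∀ x, x ∈ T k ∨ x ∈ O →
    act (alt cs i j l) x ∈ T i
  hC1 : ∀ i, ∀ x ∈ O, x ∉ T i
  hC2 : ∀ i j k, i ≠ j → i ≠ k → j ≠ k → ∀ x, x ∈ T k ∨ x ∈ O → act (alt cs i j (M i j)) x ∉ O

private theorem third (i j : Fin 3) (h : i ≠ j) : ∃ k, i ≠ k ∧ j ≠ k := by
  revert h; revert j; revert i; decide

private theorem only_third (i j k l : Fin 3) (hij : i ≠ j) (hik : i ≠ k) (hjk : j ≠ k) (hli : l ≠ i) (hlj : l ≠ j) :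
    l = k := by
  omega

/-- An element without left descents in `{i, j}` is `1` or has the single left descent `k`. -/
private theorem one_or (cs : CoxeterSystem M W) (i j k : Fin 3) (hij : i ≠ j) (hik : i ≠ k) (hjk : j ≠ k) (g : W)
    (hi : ¬ cs.IsLeftDescent g i) (hj : ¬ cs.IsLeftDescent g j) : g = 1 ∨ cs.IsLeftDescent g k := by
  by_cases hg : g = 1
  · exact Or.inl hg
  · right
    obtain ⟨l, hl⟩ := cs.exists_leftDescent_of_ne_one hg
    have hli : l ≠ i := fun e => hi (e ▸ hl)
    have hlj : l ≠ j := fun e => hj (e ▸ hl)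
    rw [only_third i j k l hij hik hjk hli hlj] at hl
    exact hl

variable {cs : CoxeterSystem M W} {X : Type*} {act : W → X → X} {T : Fin 3 → Set X} {O : Set X}

private theorem alt_one (cs : CoxeterSystem M W) (i j : Fin 3) : alt cs i j 1 = cs.simple i := by
  simp [alt]

/-- One step: `g` has the left descent `i`; the elements without descents in `{i,j}` which are shorter are known. -/
private theorem step (h : PPT cs act T O) (x : X) (hx : x ∈ O) (g : W) (i : Fin 3)
    (hi : cs.IsLeftDescent g i)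
    (IH : ∀ g' : W, cs.length g' < cs.length g → ∀ k, cs.IsLeftDescent g' k →
      (∀ l, l ≠ k → ¬ cs.IsLeftDescent g' l) → act g' x ∈ T k) :
    act g x ∈ T i ∨ ∃ j k, i ≠ j ∧ i ≠ k ∧ j ≠ k ∧ cs.IsLeftDescent g j ∧ ∃ y, (y ∈ T k ∨ y ∈ O) ∧
      act g x = act (alt cs i j (M i j)) y := by
  -- for each `j ≠ i`: either done or `n = 1`
  have key : ∀ j k, i ≠ j → i ≠ k → j ≠ k →
      (act g x ∈ T i ∨ (cs.IsLeftDescent g j ∧ ∃ y, (y ∈ T k ∨ y ∈ O) ∧ act g x = act (alt cs i j (M i j)) y)) ∨
        (¬ cs.IsLeftDescent (cs.simple i * g) j ∧ ¬ cs.IsLeftDescent (cs.simple i * g) i ∧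
          cs.length (cs.simple i * g) < cs.length g) := by
    intro j k hij hik hjk
    obtain ⟨n, g', hn1, hn2, hg, hl, hj', hi'⟩ := Dec2 cs j i (h.m2 j i hij.symm) g hi
    rw [M.symmetric j i] at hn2
    have hm2 := h.m2 i j hij
    have hy : act g' x ∈ T k ∨ act g' x ∈ O := by
      rcases one_or cs i j k hij hik hjk g' hi' hj' with h1 | h1
      · right
        rw [h1, h.act_one]
        exact hx
      · left
        refine IH g' (by omega) k h1 ?_
        intro l hlk hd
        by_cases hli : l = i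
        · exact hi' (hli ▸ hd)
        · by_cases hlj : l = j
          · exact hj' (hlj ▸ hd)
          · exact hlk (only_third i j k l hij hik hjk hli hlj)
    by_cases hn : n = 1
    · right
      subst hn
      have e : cs.simple i * g = g' := by
        rw [hg, alt_one, cs.simple_mul_simple_cancel_left]
      rw [e]
      exact ⟨hj', hi', by omega⟩
    · left
      by_cases hn' : n < M i j
      · left
        rw [hg, h.act_mul]
        exact h.hB i j k hij hik hjk n (by omega) hn' _ hy
      · right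
        have e : n = M i j := by omega
        subst e
        refine ⟨?_, act g' x, hy, by rw [hg, h.act_mul]⟩
        -- `j` is a left descent of `alt i j m * g'`
        obtain ⟨m', hm'⟩ : ∃ m', M i j = m' + 1 := ⟨M i j - 1, by omega⟩
        have e2 : cs.simple j * g = alt cs i j m' * g' := by
          rw [hg, alt_braid cs i j, hm']
          have e3 : alt cs j i (m' + 1) = cs.simple j * alt cs i j m' := rfl
          rw [e3, mul_assoc, cs.simple_mul_simple_cancel_left]
        unfold CoxeterSystem.IsLeftDescent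
        rw [e2]
        have h3 := cs.length_mul_le (alt cs i j m') g'
        have h4 := alt_len cs m' i j
        omega
  -- choose the two other indices
  obtain ⟨j, hj⟩ : ∃ j : Fin 3, i ≠ j := ⟨i + 1, by clear key hi; revert i; decide⟩
  obtain ⟨k, hik, hjk⟩ := third i j hj
  rcases key j k hj hik hjk with (h1 | ⟨h1, y, h2, h3⟩) | ⟨hj1, hi1, hl1⟩
  · exact Or.inl h1
  · exact Or.inr ⟨j, k, hj, hik, hjk, h1, y, h2, h3⟩
  · rcases key k j hik hj hjk.symm with (h1 | ⟨h1, y, h2, h3⟩) | ⟨hk1, -, -⟩
    · exact Or.inl h1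
    · exact Or.inr ⟨k, j, hik, hj, hjk.symm, h1, y, h2, h3⟩
    · left
      rcases one_or cs i j k hj hik hjk _ hi1 hj1 with h1 | h1
      · have e : g = cs.simple i := by
          have := congrArg (fun w => cs.simple i * w) h1
          simpa [cs.simple_mul_simple_cancel_left] using this
        rw [e]
        exact h.hA i x hx
      · exact absurd h1 hk1

theorem pp_claim (h : PPT cs act T O) (x : X) (hx : x ∈ O) (g : W) (i : Fin 3) (hi : cs.IsLeftDescent g i)
    (hn : ∀ l, l ≠ i → ¬ cs.IsLeftDescent g l) : act g x ∈ T i := by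
  induction hN : cs.length g using Nat.strong_induction_on generalizing g i with
  | _ N ih =>
    subst hN
    rcases step h x hx g i hi (fun g' hl k hk hn' => ih (cs.length g') hl g' k hk hn' rfl) with h1 | ⟨j, k, hij, -, -, hj, -⟩
    · exact h1
    · exact absurd hj (hn j hij.symm)

theorem pp_main (h : PPT cs act T O) (x : X) (hx : x ∈ O) (g : W) (hg : g ≠ 1) : act g x ∉ O := by
  obtain ⟨i, hi⟩ := cs.exists_leftDescent_of_ne_one hg
  rcases step h x hx g i hi (fun g' _ k hk hn' => pp_claim h x hx g' k hk hn') with h1 | ⟨j, k, hij, hik, hjk, -, y, hy, e⟩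
  · exact fun hO => h.hC1 i _ hO h1
  · rw [e]
    exact h.hC2 i j k hij hik hjk y hy

end Pool.Agent.Work.MP_88b7aa_gt.PQ
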