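import Pool.Agent.Work.MP_88b7aa_gt.PQ.T2P

/-!
# The arithmetic of Taylor models
-/

namespace Pool.Agent.Work.MP_88b7aa_gt.PQ

open ComplexConjugate Complex Matrix T2

/-- The dictionary. -/
def OT : Ops T2 := ⟨T2.add, T2.sub, T2.neg, T2.mul, fun n => T2.cst (Int.mul 1024 n), fun x => x⟩

theorem OT_rel (p : Pt) : OpsRel OT (Mem p) where
  add := mem_add
  sub := mem_sub
  neg := mem_neg
  mul := mem_mul
  cst := by
    intro n
    have h := mem_cst p (1024 * n)
    have e : ((1024 * n : Int) : ℝ) / 1099511627776 = (n : ℝ) / 1073741824 := by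
      push_cast
      rw [div_eq_div_iff (by norm_num) (by norm_num)]
      ring
    rw [e] at h
    exact h
  nrm := fun h => h

def cpos (t : T2) (a b c d : Bool) : Bool := decide (0 < Int.sub (t.co a b c d) (Int.ofNat t.er))

/-- The positivity test. -/
def tpos (T : T2) : Bool :=
  (((cpos T true true true true && cpos T true true true false) && (cpos T true true false true && cpos T true true false false)) &&
  ((cpos T true false true true && cpos T true false true false) && (cpos T true false false true && cpos T true false false false))) &&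
  (((cpos T false true true true && cpos T false true true false) && (cpos T false true false true && cpos T false true false false)) &&
  ((cpos T false false true true && cpos T false false true false) && (cpos T false false false true && cpos T false false false false)))

theorem conv1' {φ : ℝ → ℝ} (h : ∀ x, φ x = (1 + x) / 2 * φ 1 + (1 - x) / 2 * φ (-1)) {m : ℝ} (h1 : m ≤ φ 1) (h2 : m ≤ φ (-1))
    {x : ℝ} (hx : |x| ≤ 1) : m ≤ φ x := by
  have := conv1 (φ := fun x => φ x - m) (fun x => by rw [h x]; ring) (by linarith) (by linarith) hx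
  linarith

theorem ea_ge (t : T2) {m : ℝ} (h : ∀ a b c d : Bool, m ≤ t.ea (sgn a) (sgn b) (sgn c) (sgn d)) {x y z w : ℝ} (hx : |x| ≤ 1)
    (hy : |y| ≤ 1) (hz : |z| ≤ 1) (hw : |w| ≤ 1) : m ≤ t.ea x y z w := by
  have st : sgn true = 1 := rfl
  have sf : sgn false = -1 := rfl
  have h1 : ∀ a b c : Bool, m ≤ t.ea (sgn a) (sgn b) (sgn c) w := fun a b c =>
    conv1' (φ := fun w => t.ea (sgn a) (sgn b) (sgn c) w) (fun w => by unfold ea; ring)
      (by have := h a b c true; rwa [st] at this) (by have := h a b c false; rwa [sf] at this) hw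
  have h2 : ∀ a b : Bool, m ≤ t.ea (sgn a) (sgn b) z w := fun a b =>
    conv1' (φ := fun z => t.ea (sgn a) (sgn b) z w) (fun z => by unfold ea; ring)
      (by have := h1 a b true; rwa [st] at this) (by have := h1 a b false; rwa [sf] at this) hz
  have h3 : ∀ a : Bool, m ≤ t.ea (sgn a) y z w := fun a =>
    conv1' (φ := fun y => t.ea (sgn a) y z w) (fun y => by unfold ea; ring)
      (by have := h2 a true; rwa [st] at this) (by have := h2 a false; rwa [sf] at this) hy
  exact conv1' (φ := fun x => t.ea x y z w) (fun x => by unfold ea; ring)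
    (by have := h3 true; rwa [st] at this) (by have := h3 false; rwa [sf] at this) hx

theorem tpos_sound {p : Pt} {x : ℝ} {t : T2} (h : Mem p x t) (ht : tpos t = true) : 0 < x := by
  have hs : ∀ a b : Int, ((Int.sub a b : Int) : ℝ) = (a : ℝ) - b := fun a b => Int.cast_sub a b
  have hn : ∀ n : Nat, ((Int.ofNat n : Int) : ℝ) = n := fun n => Int.cast_natCast n
  have hc : ∀ a b c d, cpos t a b c d = true := by
    unfold tpos at ht
    simp only [Bool.and_eq_true] at ht
    intro a b c d
    cases a <;> cases b <;> cases c <;> cases d <;> simp only [ht]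
  have h0 : ∀ a b c d : Bool, (t.er : ℝ) + 1 ≤ t.ea (sgn a) (sgn b) (sgn c) (sgn d) := by
    intro a b c d
    have h1 := of_decide_eq_true (hc a b c d)
    have h2 : (1 : ℝ) ≤ ((Int.sub (t.co a b c d) (Int.ofNat t.er) : Int) : ℝ) := by exact_mod_cast h1
    rw [hs, hn, co_eq] at h2
    linarith
  have h1 := ea_ge t h0 p.hx p.hy p.hz p.hw
  have h2 := (abs_le.1 (ea_err h)).1
  linarith

/-- The arithmetic of Taylor models. -/
def AT : Ar T2 := ⟨OT, tpos, tpsd⟩

theorem AT_ok (p : Pt) : ArOK AT (Mem p) where
  rel := OT_rel p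
  pos := tpos_sound
  psd := fun h ht x => tpsd_sound h ht x

end Pool.Agent.Work.MP_88b7aa_gt.PQ
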