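import Pool.Agent.Work.MP_88b7aa_gt.PQ.Bset
import Pool.Agent.Work.MP_88b7aa_gt.PQ.Spec

/-!
# The B forms in the engine

The environment is extended by `λ` (parameter 12), `τ = tr W - λ` (parameter 13) and, for each index `j`, five functionals (three
parameters each): `F0 = ⟨z, W⁻¹ n_j⟩ - λ ⟨z, n_j⟩`, `F1 = ⟨z, W n_j⟩ - conj λ ⟨z, n_j⟩`, `F2 = F0 + conj τ F1`, `F3 = F1 + τ F0` and
`F4 = ⟨z, e⟩`, with `W = I_{j-1} I_j I_{j+1}`.
-/

noncomputable section

namespace Pool.Agent.Work.MP_88b7aa_gt.PQ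

open Pool.Agent.Work.MP_88b7aa_gt.CH
open ComplexConjugate Complex Matrix

/-- The trace of `I_0 I_1 I_2`. -/
def TrS : Sc := .sub (.sub (ic 3) (.mul (ic 4) (.add (.add (.mul (.par 0) (.par 0)) (.mul (.par 1) (.par 1))) (.mul (.par 2) (.par 2)))))
  (.mul (.mul (ic 8) (.mul (.mul (.par 0) (.par 1)) (.par 2))) W3)

/-! ### The parameters -/

section poly

variable {R : Type} (O : Ops R)

/-- `⟨z, W⁻¹ n_j⟩` -/
def bM (g : Gm R) (j : Fin 3) : Rw R := Rw.comp O g (j + 1) (Rw.comp O g j (Rw.comp O g (j + 2) (g.row O j)))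
/-- `⟨z, W n_j⟩` -/
def bP (g : Gm R) (j : Fin 3) : Rw R := Rw.comp O g (j + 2) (Rw.comp O g j (Rw.comp O g (j + 1) (g.row O j)))

def bf0 (g : Gm R) (l : Cx R) (j : Fin 3) (m : Rw R) : Rw R := Rw.sub O m (Rw.smul O l (g.row O j))
def bf1 (g : Gm R) (l : Cx R) (j : Fin 3) (p : Rw R) : Rw R := Rw.sub O p (Rw.smul O (l.cj O) (g.row O j))
def bf2 (t : Cx R) (f0 f1 : Rw R) : Rw R := Rw.add O f0 (Rw.smul O (t.cj O) f1)
def bf3 (t : Cx R) (f0 f1 : Rw R) : Rw R := Rw.add O f1 (Rw.smul O t f0)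
def bf4 (g : Gm R) (l t : Cx R) (j : Fin 3) (m p : Rw R) : Rw R :=
  Rw.add O (Rw.smul O (l.cj O) p) (Rw.sub O m (Rw.smul O t (g.row O j)))

/-- the entries -/
def bls (f0 f1 f2 f3 f4 : Rw R) : List (Cx R) :=
  [f0.a, f0.b, f0.c, f1.a, f1.b, f1.c, f2.a, f2.b, f2.c, f3.a, f3.b, f3.c, f4.a, f4.b, f4.c]

def bl (g : Gm R) (l t : Cx R) (j : Fin 3) : List (Cx R) :=
  bls (bf0 O g l j (bM O g j)) (bf1 O g l j (bP O g j))
    (bf2 O t (bf0 O g l j (bM O g j)) (bf1 O g l j (bP O g j))) (bf3 O t (bf0 O g l j (bM O g j)) (bf1 O g l j (bP O g j)))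
    (bf4 O g l t j (bM O g j) (bP O g j))

/-- All extra parameters. -/
def exB (g : Gm R) (l t : Cx R) : List (Cx R) := l :: t :: (bl O g l t 0 ++ (bl O g l t 1 ++ bl O g l t 2))

end poly

/-- The functional with the three parameters starting with `m`. -/
def pF (m : ℕ) : Fn := .add (.smul (.par m) (.crd 0)) (.add (.smul (.par (m + 1)) (.crd 1)) (.smul (.par (m + 2)) (.crd 2)))

/-- The number of the first parameter of the functional `s` of the index `j`. -/
def bN (j : Fin 3) (s : ℕ) : ℕ := 14 + 15 * j.val + 3 * s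

/-- The B form for the word `i j k`. -/
def FEB (i j _k : Fin 3) (al be A nu : Sc) : FE :=
  .add (.sub (.add (.smul al (.nsq (pF (bN j (if cyc i j then 0 else 1))))) (.smul (.sub be al) (.nsq (pF (bN j (if cyc i j then 1 else 0))))))
    (.smul be (.nsq (pF (bN j (if cyc i j then 2 else 3))))))
    (.add (.smul A (.nsq (pF (bN j 4)))) (.smul nu .gram))

/-! ### Semantics -/

theorem pF_v {e : Ev ℝ} {m : ℕ} {f : Rw ℝ} (h0 : (evS OR e (.par m)).c = f.a.c) (h1 : (evS OR e (.par (m + 1))).c = f.b.c)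
    (h2 : (evS OR e (.par (m + 2))).c = f.c.c) (x : Fin 3 → ℂ) : (evF OR e (pF m)).v x = f.v x := by
  show (Rw.add OR (Rw.smul OR (evS OR e (.par m)) (crd OR 0)) (Rw.add OR (Rw.smul OR (evS OR e (.par (m + 1))) (crd OR 1))
    (Rw.smul OR (evS OR e (.par (m + 2))) (crd OR 2)))).v x = _
  rw [v_add, v_add, v_smul, v_smul, v_smul, v_crd, v_crd, v_crd, h0, h1, h2]
  unfold Rw.v
  ring

/-- The base environment: at least 12 parameters exactly. -/
structure BEv (e : Ev ℝ) (l t : Cx ℝ) : Prop where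
  p12 : evS OR e (.par 12) = l
  p13 : evS OR e (.par 13) = t
  f0 : ∀ j x, (evF OR e (pF (bN j 0))).v x = (bf0 OR e.g l j (bM OR e.g j)).v x
  f1 : ∀ j x, (evF OR e (pF (bN j 1))).v x = (bf1 OR e.g l j (bP OR e.g j)).v x
  f2 : ∀ j x, (evF OR e (pF (bN j 2))).v x = (bf2 OR t (bf0 OR e.g l j (bM OR e.g j)) (bf1 OR e.g l j (bP OR e.g j))).v x
  f3 : ∀ j x, (evF OR e (pF (bN j 3))).v x = (bf3 OR t (bf0 OR e.g l j (bM OR e.g j)) (bf1 OR e.g l j (bP OR e.g j))).v x
  f4 : ∀ j x, (evF OR e (pF (bN j 4))).v x = (bf4 OR e.g l t j (bM OR e.g j) (bP OR e.g j)).v x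

/-- The environment with the extra parameters. -/
theorem BEv_mk (a b c : ℝ) (z : Cx ℝ) (y0 y1 y2 y3 y4 y5 y6 : Cx ℝ) (l t : Cx ℝ) :
    BEv (mkEv OR a b c z ([y0, y1, y2, y3, y4, y5, y6] ++ exB OR (mkEv OR a b c z []).g l t)) l t := by
  refine ⟨rfl, rfl, ?_, ?_, ?_, ?_, ?_⟩
  all_goals
    intro j x
    refine pF_v ?_ ?_ ?_ x <;> fin_cases j <;> rfl

theorem bM_v (g : Gm ℝ) (j : Fin 3) (x : Fin 3 → ℂ) : (bM OR g j).v x =
    (g.row OR j).v (Sg (gm g) (j + 2) *ᵥ (Sg (gm g) j *ᵥ (Sg (gm g) (j + 1) *ᵥ x))) := by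
  unfold bM
  rw [v_comp, v_comp, v_comp]

theorem bP_v (g : Gm ℝ) (j : Fin 3) (x : Fin 3 → ℂ) : (bP OR g j).v x =
    (g.row OR j).v (Sg (gm g) (j + 1) *ᵥ (Sg (gm g) j *ᵥ (Sg (gm g) (j + 2) *ᵥ x))) := by
  unfold bP
  rw [v_comp, v_comp, v_comp]

theorem row_hf (g : Gm ℝ) (j : Fin 3) (x : Fin 3 → ℂ) : (g.row OR j).v x = hf (gm g) x (Pi.single j 1) := by
  rw [v_row]
  unfold hf
  simp only [Fin.sum_univ_three]
  fin_cases j <;> simp

theorem bM_hf (g : Gm ℝ) (j : Fin 3) (x : Fin 3 → ℂ) : (bM OR g j).v x =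
    hf (gm g) x (WM3 (gm g) (j + 1) j (j + 2) *ᵥ Pi.single j 1) := by
  rw [bM_v, row_hf, ← WM3_mulVec, ← WM3_iso _ (gm_gram g) (j + 2) j (j + 1) x, WM3_inv _ (gm_gram g) (j + 1) j (j + 2)]

theorem bP_hf (g : Gm ℝ) (j : Fin 3) (x : Fin 3 → ℂ) : (bP OR g j).v x =
    hf (gm g) x (WM3 (gm g) (j + 2) j (j + 1) *ᵥ Pi.single j 1) := by
  rw [bP_v, row_hf, ← WM3_mulVec, ← WM3_iso _ (gm_gram g) (j + 1) j (j + 2) x, WM3_inv _ (gm_gram g) (j + 2) j (j + 1)]

/-! ### The hypotheses for all words -/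

/-- The hypotheses. -/
structure LamOK (G : Matrix (Fin 3) (Fin 3) ℂ) (l t : ℂ) : Prop where
  hG : IsGram G
  hl : l * conj l = 1
  ht : (WM3 G 0 1 2).trace = t + l
  htc : conj t = l * t
  hq : l ^ 2 - l * t + conj l ≠ 0
  hτ : 4 ≤ normSq t
  hc : ∀ j, hf G (Pi.single j 1) (bve G (j + 2) j (j + 1) l t) ≠ 0

theorem bve_swap (G : Matrix (Fin 3) (Fin 3) ℂ) (i j k : Fin 3) {l t : ℂ} (hl : l * conj l = 1) (htc : conj t = l * t) :
    bve G k j i (conj l) (conj t) = conj l • bve G i j k l t := by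
  unfold bve
  rw [Complex.conj_conj]
  have h1 : conj l * conj t = t := by
    rw [htc]
    linear_combination t * hl
  ext a
  simp only [Pi.add_apply, Pi.sub_apply, Pi.smul_apply, smul_eq_mul]
  linear_combination (-(WM3 G i j k *ᵥ Pi.single j 1) a) * hl + (Pi.single j (1 : ℂ) : Fin 3 → ℂ) a * h1

namespace LamOK

variable {G : Matrix (Fin 3) (Fin 3) ℂ} {l t : ℂ} (h : LamOK G l t)

include h

theorem trc (j : Fin 3) : (WM3 G (j + 2) j (j + 1)).trace = t + l := by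
  rw [← h.ht, WM3_tr G h.hG (by decide : (0 : Fin 3) ≠ 1) (by decide) (by decide)]
  fin_cases j
  · show (WM3 G 2 0 1).trace = _
    rw [WM3_tr G h.hG (by decide : (2 : Fin 3) ≠ 0) (by decide) (by decide)]
    ring
  · show (WM3 G 0 1 2).trace = _
    rw [WM3_tr G h.hG (by decide : (0 : Fin 3) ≠ 1) (by decide) (by decide)]
  · show (WM3 G 1 2 0).trace = _
    rw [WM3_tr G h.hG (by decide : (1 : Fin 3) ≠ 2) (by decide) (by decide)]
    ring

theorem bsc (j : Fin 3) : BS G (j + 2) j (j + 1) l t where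
  hG := h.hG
  hij := by revert j; decide
  hik := by revert j; decide
  hjk := by revert j; decide
  ht := h.trc j
  hl := h.hl
  htc := h.htc
  hq := h.hq
  hc := h.hc j
  hτ := h.hτ

theorem bsa (j : Fin 3) : BS G (j + 1) j (j + 2) (conj l) (conj t) where
  hG := h.hG
  hij := by revert j; decide
  hik := by revert j; decide
  hjk := by revert j; decide
  ht := by
    rw [← map_add, ← h.trc j]
    refine WM3_tr_conj G h.hG ?_ ?_ ?_ <;> revert j <;> decide
  hl := by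
    rw [Complex.conj_conj, mul_comm]
    exact h.hl
  htc := by
    have := h.hl
    rw [Complex.conj_conj, h.htc]
    linear_combination -t * this
  hq := by
    intro h0
    apply h.hq
    have := congrArg conj h0
    simp only [map_add, map_sub, map_mul, map_pow, Complex.conj_conj, map_zero] at this
    exact this
  hc := by
    rw [bve_swap G (j + 2) j (j + 1) h.hl h.htc, hf_smul_right, Complex.conj_conj]
    refine mul_ne_zero ?_ (h.hc j)
    rintro h0
    have := h.hl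
    rw [h0] at this
    simp at this
  hτ := by
    rw [normSq_conj]
    exact h.hτ

/-- The structure for the word `i j k`. -/
theorem bs {i j k : Fin 3} (hij : i ≠ j) (hik : i ≠ k) (hjk : j ≠ k) :
    BS G i j k (if cyc i j then l else conj l) (if cyc i j then t else conj t) := by
  fin_cases i <;> fin_cases j <;> fin_cases k <;>
    first
    | exact absurd rfl hij
    | exact absurd rfl hik
    | exact absurd rfl hjk
    | skip
  · exact h.bsc 1
  · exact h.bsa 2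
  · exact h.bsa 0
  · exact h.bsc 2
  · exact h.bsc 0
  · exact h.bsa 1

end LamOK

theorem cyc_c (j : Fin 3) : cyc (j + 2) j = true := by revert j; decide
theorem cyc_a (j : Fin 3) : cyc (j + 1) j = false := by revert j; decide

section sem

variable {e : Ev ℝ} {l t : Cx ℝ} (hE : BEv e l t)

include hE

theorem F0_v (j : Fin 3) (x : Fin 3 → ℂ) : (evF OR e (pF (bN j 0))).v x = bgm (gm e.g) (j + 2) j (j + 1) l.c x := by
  rw [hE.f0]
  unfold bf0 bgm
  rw [v_sub, v_smul, bM_hf, row_hf]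

theorem F1_v (j : Fin 3) (x : Fin 3 → ℂ) : (evF OR e (pF (bN j 1))).v x = bg0 (gm e.g) (j + 2) j (j + 1) l.c x := by
  rw [hE.f1]
  unfold bf1 bg0
  rw [v_sub, v_smul, c_cj, bP_hf, row_hf]

theorem F2_v (j : Fin 3) (x : Fin 3 → ℂ) : (evF OR e (pF (bN j 2))).v x =
    bgm (gm e.g) (j + 2) j (j + 1) l.c x + conj t.c * bg0 (gm e.g) (j + 2) j (j + 1) l.c x := by
  rw [hE.f2]
  unfold bf2
  rw [v_add, v_smul, c_cj, ← hE.f0, ← hE.f1, F0_v hE, F1_v hE]

theorem F3_v (j : Fin 3) (x : Fin 3 → ℂ) : (evF OR e (pF (bN j 3))).v x =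
    bg0 (gm e.g) (j + 2) j (j + 1) l.c x + t.c * bgm (gm e.g) (j + 2) j (j + 1) l.c x := by
  rw [hE.f3]
  unfold bf3
  rw [v_add, v_smul, ← hE.f0, ← hE.f1, F0_v hE, F1_v hE]

theorem F4_v (j : Fin 3) (x : Fin 3 → ℂ) : (evF OR e (pF (bN j 4))).v x = ble (gm e.g) (j + 2) j (j + 1) l.c t.c x := by
  rw [hE.f4]
  unfold bf4 ble
  rw [v_add, v_smul, c_cj, v_sub, v_smul, bM_hf, bP_hf, row_hf]

omit hE in
theorem bgm_swap (G : Matrix (Fin 3) (Fin 3) ℂ) (i j k : Fin 3) (l : ℂ) (x : Fin 3 → ℂ) :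
    bgm G k j i (conj l) x = bg0 G i j k l x := rfl

omit hE in
theorem bg0_swap (G : Matrix (Fin 3) (Fin 3) ℂ) (i j k : Fin 3) (l : ℂ) (x : Fin 3 → ℂ) :
    bg0 G k j i (conj l) x = bgm G i j k l x := by
  unfold bg0 bgm
  rw [Complex.conj_conj]

omit hE in
theorem ble_swap (G : Matrix (Fin 3) (Fin 3) ℂ) (i j k : Fin 3) {l t : ℂ} (hl : l * conj l = 1) (htc : conj t = l * t)
    (x : Fin 3 → ℂ) : normSq (ble G k j i (conj l) (conj t) x) = normSq (ble G i j k l t x) := by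
  have h1 : ble G k j i (conj l) (conj t) x = l * ble G i j k l t x := by
    unfold ble
    rw [Complex.conj_conj, htc]
    linear_combination (-(hf G x (WM3 G i j k *ᵥ Pi.single j 1))) * hl
  have h2 : normSq l = 1 := by
    rw [Complex.mul_conj] at hl
    exact_mod_cast hl
  rw [h1, normSq_mul, h2, one_mul]

/-- **The semantics of the B form.** -/
theorem qf_FEB (h : LamOK (gm e.g) l.c t.c) {i j k : Fin 3} (hij : i ≠ j) (hik : i ≠ k) (hjk : j ≠ k) (al be A nu : Sc)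
    (x : Fin 3 → ℂ) : qf (hm (evQ OR e (FEB i j k al be A nu))) x =
      Bv (gm e.g) i j k (if cyc i j then l.c else conj l.c) (if cyc i j then t.c else conj t.c) (evS OR e al).re (evS OR e be).re
        (evS OR e A).re (evS OR e nu).re x := by
  have key : ∀ m0 m1 m2 m4 : ℕ, qf (hm (evQ OR e (.add (.sub (.add (.smul al (.nsq (pF m0))) (.smul (.sub be al) (.nsq (pF m1))))
      (.smul be (.nsq (pF m2)))) (.add (.smul A (.nsq (pF m4))) (.smul nu .gram))))) x =
      (evS OR e al).re * (normSq ((evF OR e (pF m0)).v x) - normSq ((evF OR e (pF m1)).v x)) +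
      (evS OR e be).re * (normSq ((evF OR e (pF m1)).v x) - normSq ((evF OR e (pF m2)).v x)) +
      ((evS OR e A).re * normSq ((evF OR e (pF m4)).v x) + (evS OR e nu).re * qf (gm e.g) x) := by
    intro m0 m1 m2 m4
    show qf (hm (H9.add OR (H9.sub OR (H9.add OR (H9.smul OR (evS OR e al).re (H9.nsq OR (evF OR e (pF m0))))
      (H9.smul OR ((evS OR e be).re - (evS OR e al).re) (H9.nsq OR (evF OR e (pF m1)))))
      (H9.smul OR (evS OR e be).re (H9.nsq OR (evF OR e (pF m2)))))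
      (H9.add OR (H9.smul OR (evS OR e A).re (H9.nsq OR (evF OR e (pF m4)))) (H9.smul OR (evS OR e nu).re (H9.gram OR e.g))))) x = _
    rw [qf_hadd, qf_hsub, qf_hadd, qf_hadd, qf_hsmul, qf_hsmul, qf_hsmul, qf_hsmul, qf_hsmul, qf_nsq, qf_nsq, qf_nsq, qf_nsq,
      hm_gram]
    ring
  have kc : ∀ j : Fin 3, qf (hm (evQ OR e (.add (.sub (.add (.smul al (.nsq (pF (bN j 0)))) (.smul (.sub be al) (.nsq (pF (bN j 1)))))
      (.smul be (.nsq (pF (bN j 2))))) (.add (.smul A (.nsq (pF (bN j 4)))) (.smul nu .gram))))) x =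
      Bv (gm e.g) (j + 2) j (j + 1) l.c t.c (evS OR e al).re (evS OR e be).re (evS OR e A).re (evS OR e nu).re x := by
    intro j
    rw [key, F0_v hE, F1_v hE, F2_v hE, F4_v hE]
    rfl
  have ka : ∀ j : Fin 3, qf (hm (evQ OR e (.add (.sub (.add (.smul al (.nsq (pF (bN j 1)))) (.smul (.sub be al) (.nsq (pF (bN j 0)))))
      (.smul be (.nsq (pF (bN j 3))))) (.add (.smul A (.nsq (pF (bN j 4)))) (.smul nu .gram))))) x =
      Bv (gm e.g) (j + 1) j (j + 2) (conj l.c) (conj t.c) (evS OR e al).re (evS OR e be).re (evS OR e A).re (evS OR e nu).re x := by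
    intro j
    rw [key, F0_v hE, F1_v hE, F3_v hE, F4_v hE]
    unfold Bv
    rw [bgm_swap, bg0_swap, ble_swap _ _ _ _ h.hl h.htc, Complex.conj_conj]
  fin_cases i <;> fin_cases j <;> fin_cases k <;>
    first
    | exact absurd rfl hij
    | exact absurd rfl hik
    | exact absurd rfl hjk
    | skip
  · exact kc 1
  · exact ka 2
  · exact ka 0
  · exact kc 2
  · exact kc 0
  · exact ka 1

end sem

/-! ### The facts -/

/-- One half. -/
def hS : Sc := .cst 536870912 0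

/-- `|τ|² - 2` -/
def TTS : Sc := .sub (.mul (.par 13) (.cj (.par 13))) (ic 2)

/-- Facts of the B forms. -/
inductive BK
  | ch (i j k : Fin 3) (n12 n31 n23 : ℕ) (u0 u1 u2 A nu : Sc)
  | w2 (i j k : Fin 3) (s t : ℕ) (al be A nu : Sc)
  | w1 (i j k : Fin 3) (s t : ℕ) (al be A nu : Sc)
  | im (j k : Fin 3) (l s t : ℕ)

def BK.fcts : BK → List Fct
  | .ch i j k n12 n31 n23 _ _ _ _ _ => [⟨i, j, 2, some n31, n12⟩, ⟨k, i, 2, some n23, n31⟩, ⟨j, k, 2, some n12, n23⟩]
  | .w2 i j _ s t _ _ _ _ => [⟨i, j, 2, some s, t⟩]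
  | .w1 i _ k s t _ _ _ _ => [⟨k, i, 2, some s, t⟩]
  | .im j k l s t => [⟨j, k, l, some s, t⟩]

/-- The conditions on the forms. -/
def BK.Ok (fes : List FE) : BK → Prop
  | .ch i j k n12 n31 n23 u0 u1 u2 A nu => i ≠ j ∧ i ≠ k ∧ j ≠ k ∧ fes.getD n12 .gram = FEB i j k (.add hS u0) (.sub hS u0) A nu ∧
      fes.getD n31 .gram = FE.pushL [k] (FEB i j k (.add hS u1) (.sub hS u1) A nu) ∧
      fes.getD n23 .gram = FE.pushL [i] (FEB i j k (.add hS u2) (.sub hS u2) A nu)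
  | .w2 i j k s t al be A nu => i ≠ j ∧ i ≠ k ∧ j ≠ k ∧ fes.getD t .gram = FEB i j k al be A nu ∧
      fes.getD s .gram = FE.pushL [k] (FEB i j k (.sub (ic 0) be) (.add al (.mul TTS be)) A nu)
  | .w1 i j k s t al be A nu => i ≠ j ∧ i ≠ k ∧ j ≠ k ∧ (fes.getD s .gram = FE.pushL [k, j] (FEB i j k al be A nu) ∨
      fes.getD s .gram = .word k j 2 (FEB i j k al be A nu) ∨ fes.getD s .gram = (FEB i j k al be A nu).pushW k j 2) ∧
      fes.getD t .gram = FE.pushL [k] (FEB i j k (.sub (ic 0) be) (.add al (.mul TTS be)) A nu)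
  | .im j k l s t => fes.getD t .gram = FE.pushL (wrd (rv1 j k l) (rv2 j k l) l) (fes.getD s .gram)

/-- The numeric part of the check. -/
def BK.chk {R P : Type} (A : Arp R P) (e : Ev R) : BK → Bool
  | .ch _ _ _ _ _ _ u0 u1 u2 _ _ => A.pos (evS A.O e (.add hS u0)).re && (A.pos (evS A.O e (.sub hS u0)).re &&
      (A.pos (evS A.O e (.add hS u2)).re && (A.pos (evS A.O e (.sub hS u1)).re && A.pos (evS A.O e (.sub u1 u2)).re)))
  | .w2 _ _ _ _ _ al be _ _ => A.pos (evS A.O e al).re && A.pos (evS A.O e be).re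
  | .w1 _ _ _ _ _ _ _ _ _ => true
  | .im _ _ _ _ _ => true

theorem TTS_re {e : Ev ℝ} {t : Cx ℝ} (ht : evS OR e (.par 13) = t) (be : Sc) :
    (evS OR e (.mul TTS be)).re = (normSq t.c - 2) * (evS OR e be).re := by
  have h1 : (evS OR e TTS).c = ((normSq t.c - 2 : ℝ) : ℂ) := by
    unfold TTS
    rw [evS_sub, evS_mul, evS_cj, ht, ic_c, Complex.mul_conj]
    push_cast
    ring
  rw [← c_re, evS_mul, h1, Complex.re_ofReal_mul]
  rfl

/-- Soundness of the facts of the B forms. -/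
theorem BK.sound {R P : Type} {A : Arp R P} {Rel : ℝ → R → Prop} {RelP : H9 ℝ → P → Prop} (hA : ArpOK A Rel RelP)
    {e : Ev ℝ} {e' : Ev R} (he : REv Rel e e') (hev : EvOK e) {l t : Cx ℝ} (hE : BEv e l t) (h : LamOK (gm e.g) l.c t.c)
    (fes : List FE) (o : Fin 3 → ℂ) (S : BK) (hS : S.Ok fes) (hc : S.chk A e' = true) :
    ∀ f ∈ S.fcts, f.Holds (gm e.g) (fun t => hm (frm OR e fes t)) o := by
  have hG := gm_gram e.g
  have a2 : ∀ (i j : Fin 3) (x : Fin 3 → ℂ), altS (gm e.g) i j 2 *ᵥ x = Sg (gm e.g) i *ᵥ (Sg (gm e.g) j *ᵥ x) := by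
    intro i j x
    have : altS (gm e.g) i j 2 = Sg (gm e.g) i * (Sg (gm e.g) j * 1) := rfl
    rw [this, mul_one, Matrix.mulVec_mulVec]
  have p1 : ∀ (a : Fin 3) (F : FE) (x : Fin 3 → ℂ), qf (hm (evQ OR e (FE.pushL [a] F))) x = qf (hm (evQ OR e F)) (Sg (gm e.g) a *ᵥ x) := by
    intro a F x
    rw [pushL_qf]
    rfl
  have nt : ∀ i j : Fin 3, normSq (if cyc i j then t.c else conj t.c) = normSq t.c := by
    intro i j
    split_ifs
    · rfl
    · rw [normSq_conj]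
  have r1 : ∀ be, (evS OR e (.sub (ic 0) be)).re = -(evS OR e be).re := by
    intro be
    have h0 : (evS OR e (ic 0)).re = 0 := by
      rw [← c_re, ic_c]
      simp
    show (evS OR e (ic 0)).re - (evS OR e be).re = _
    rw [h0, zero_sub]
  have r2 : ∀ al be, (evS OR e (.add al (.mul TTS be))).re = (evS OR e al).re + (normSq t.c - 2) * (evS OR e be).re := by
    intro al be
    rw [← TTS_re hE.p13]
    rfl
  rcases S with ⟨i, j, k, n12, n31, n23, u0, u1, u2, A', nu⟩ | ⟨i, j, k, s, tt, al, be, A', nu⟩ | ⟨i, j, k, s, tt, al, be, A', nu⟩ |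
    ⟨j, k, l', s, tt⟩
  · obtain ⟨hij, hik, hjk, h1, h2, h3⟩ := hS
    unfold BK.chk at hc
    simp only [Bool.and_eq_true] at hc
    obtain ⟨c1, c2, c3, c4, c5⟩ := hc
    have d1 := hA.pos (RC.evS hA.rel he (.add PQ.hS u0)).re c1
    have d2 := hA.pos (RC.evS hA.rel he (.sub PQ.hS u0)).re c2
    have d3 := hA.pos (RC.evS hA.rel he (.add PQ.hS u2)).re c3
    have d4 := hA.pos (RC.evS hA.rel he (.sub PQ.hS u1)).re c4
    have d5 := hA.pos (RC.evS hA.rel he (.sub u1 u2)).re c5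
    have hB := h.bs hij hik hjk
    have ra : ∀ u, (evS OR e (.add PQ.hS u)).re = (evS OR e PQ.hS).re + (evS OR e u).re := fun _ => rfl
    have rs : ∀ u, (evS OR e (.sub PQ.hS u)).re = (evS OR e PQ.hS).re - (evS OR e u).re := fun _ => rfl
    have r5 : (evS OR e (.sub u1 u2)).re = (evS OR e u1).re - (evS OR e u2).re := rfl
    rw [r5] at d5
    rw [ra] at d1 d3
    rw [rs] at d2 d4
    have sem := fun al be => qf_FEB hE h hij hik hjk al be A' nu
    intro f hf
    simp only [BK.fcts, List.mem_cons, List.not_mem_nil, or_false] at hf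
    rcases hf with rfl | rfl | rfl
    · intro x _ hQ
      have hQ' : 0 < qf (hm (evQ OR e (fes.getD n31 .gram))) x := hQ
      show 0 < qf (hm (evQ OR e (fes.getD n12 .gram))) (altS (gm e.g) i j 2 *ᵥ x)
      rw [h2, p1, sem, ra, rs] at hQ'
      rw [h1, sem, a2, ra, rs]
      have key := hB.w1 (α := (evS OR e PQ.hS).re + (evS OR e u0).re) (β := (evS OR e PQ.hS).re - (evS OR e u0).re)
        (α' := (evS OR e PQ.hS).re + (evS OR e u1).re) (β' := (evS OR e PQ.hS).re - (evS OR e u1).re) d1.le d4.le (by ring)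
        (evS OR e A').re (evS OR e nu).re (Sg (gm e.g) k *ᵥ x)
      have e1 : WM3 (gm e.g) i j k *ᵥ (Sg (gm e.g) k *ᵥ x) = Sg (gm e.g) i *ᵥ (Sg (gm e.g) j *ᵥ x) := by
        rw [WM3_mulVec, Sg_sq _ hG]
      rw [e1] at key
      linarith
    · intro x _ hQ
      have hQ' : 0 < qf (hm (evQ OR e (fes.getD n23 .gram))) x := hQ
      show 0 < qf (hm (evQ OR e (fes.getD n31 .gram))) (altS (gm e.g) k i 2 *ᵥ x)
      rw [h3, p1, sem, ra, rs] at hQ'
      rw [h2, p1, sem, a2, ra, rs, Sg_sq _ hG]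
      have key := hB.w0 (α := (evS OR e PQ.hS).re + (evS OR e u1).re) (β := (evS OR e PQ.hS).re - (evS OR e u1).re)
        (α' := (evS OR e PQ.hS).re + (evS OR e u2).re) (β' := (evS OR e PQ.hS).re - (evS OR e u2).re) (by linarith) (by ring)
        (evS OR e A').re (evS OR e nu).re (Sg (gm e.g) i *ᵥ x)
      linarith
    · intro x _ hQ
      have hQ' : 0 < qf (hm (evQ OR e (fes.getD n12 .gram))) x := hQ
      show 0 < qf (hm (evQ OR e (fes.getD n23 .gram))) (altS (gm e.g) j k 2 *ᵥ x)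
      rw [h1, sem, ra, rs] at hQ'
      rw [h3, p1, sem, a2, ra, rs]
      have key := hB.w1 (α := (evS OR e PQ.hS).re + (evS OR e u2).re) (β := (evS OR e PQ.hS).re - (evS OR e u2).re)
        (α' := (evS OR e PQ.hS).re + (evS OR e u0).re) (β' := (evS OR e PQ.hS).re - (evS OR e u0).re) d3.le d2.le (by ring)
        (evS OR e A').re (evS OR e nu).re x
      rw [WM3_mulVec] at key
      linarith
  · obtain ⟨hij, hik, hjk, h1, h2⟩ := hS
    unfold BK.chk at hc
    simp only [Bool.and_eq_true] at hc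
    obtain ⟨c1, c2⟩ := hc
    have d1 := hA.pos (RC.evS hA.rel he al).re c1
    have d2 := hA.pos (RC.evS hA.rel he be).re c2
    have hB := h.bs hij hik hjk
    intro f hf
    simp only [BK.fcts, List.mem_cons, List.not_mem_nil, or_false] at hf
    subst hf
    intro x _ hQ
    have hQ' : 0 < qf (hm (evQ OR e (fes.getD s .gram))) x := hQ
    show 0 < qf (hm (evQ OR e (fes.getD tt .gram))) (altS (gm e.g) i j 2 *ᵥ x)
    rw [h2, p1, qf_FEB hE h hij hik hjk, r1, r2] at hQ'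
    rw [h1, qf_FEB hE h hij hik hjk, a2]
    set z := WM3 (gm e.g) k j i *ᵥ (Sg (gm e.g) k *ᵥ x) with hz
    have hWz : WM3 (gm e.g) i j k *ᵥ z = Sg (gm e.g) k *ᵥ x := WM3_inv _ hG k j i _
    have hWWz : WM3 (gm e.g) i j k *ᵥ (WM3 (gm e.g) i j k *ᵥ z) = Sg (gm e.g) i *ᵥ (Sg (gm e.g) j *ᵥ x) := by
      rw [hWz, WM3_mulVec, Sg_sq _ hG]
    have key := hB.w2 d1.le d2.le (evS OR e A').re (evS OR e nu).re z
    rw [hWWz] at key
    rw [← hWz, hB.shift, nt] at hQ'
    have e3 : (normSq t.c - 2) * -(evS OR e be).re + ((evS OR e al).re + (normSq t.c - 2) * (evS OR e be).re) = (evS OR e al).re := by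
      ring
    rw [e3, neg_neg] at hQ'
    linarith
  · obtain ⟨hij, hik, hjk, h1, h2⟩ := hS
    have hB := h.bs hij hik hjk
    intro f hf
    simp only [BK.fcts, List.mem_cons, List.not_mem_nil, or_false] at hf
    subst hf
    intro x _ hQ
    have hQ' : 0 < qf (hm (evQ OR e (fes.getD s .gram))) x := hQ
    show 0 < qf (hm (evQ OR e (fes.getD tt .gram))) (altS (gm e.g) k i 2 *ᵥ x)
    have hI : qf (hm (evQ OR e (fes.getD s .gram))) x =
        qf (hm (evQ OR e (FEB i j k al be A' nu))) (Sg (gm e.g) k *ᵥ (Sg (gm e.g) j *ᵥ x)) := by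
      rcases h1 with h1 | h1 | h1
      · rw [h1, pushL_qf]
        rfl
      · rw [h1, word_evQ hev, a2]
      · rw [h1, pushW_q hev, a2]
    rw [hI, qf_FEB hE h hij hik hjk] at hQ'
    rw [h2, p1, qf_FEB hE h hij hik hjk, a2, Sg_sq _ hG, r1, r2]
    set z := Sg (gm e.g) k *ᵥ (Sg (gm e.g) j *ᵥ x) with hz
    have hWz : WM3 (gm e.g) i j k *ᵥ z = Sg (gm e.g) i *ᵥ x := by
      rw [WM3_mulVec, hz, Sg_sq _ hG, Sg_sq _ hG]
    rw [← hWz, hB.shift, nt]
    have e3 : (normSq t.c - 2) * -(evS OR e be).re + ((evS OR e al).re + (normSq t.c - 2) * (evS OR e be).re) = (evS OR e al).re := by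
      ring
    rw [e3, neg_neg]
    exact hQ'
  · intro f hf
    simp only [BK.fcts, List.mem_cons, List.not_mem_nil, or_false] at hf
    subst hf
    have hS' : fes.getD tt .gram = FE.pushL (wrd (rv1 j k l') (rv2 j k l') l') (fes.getD s .gram) := hS
    intro x _ hQ
    have hQ' : 0 < qf (hm (evQ OR e (fes.getD s .gram))) x := hQ
    show 0 < qf (hm (evQ OR e (fes.getD tt .gram))) (altS (gm e.g) j k l' *ᵥ x)
    rw [hS', pushL_qf, actL_wrd, alt_inv _ hG]
    exact hQ'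

end Pool.Agent.Work.MP_88b7aa_gt.PQ
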