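import Pool.Agent.Work.MP_88b7aa_gt.PQ.SysB

/-!
# The B forms

`W = I_i I_j I_k`, `λ` a root of modulus one of the characteristic polynomial, `f = (W - λ) n_j`, `e = λ W n_j - conj τ n_j + W⁻¹ n_j`
with `τ = tr W - λ`.  Then `W e = λ e`, `f ⊥ e`, and the form

`Bv α β A ν = α (N₋₁ - N₀) + β (N₀ - N₁) + A |⟨z, e⟩|² + ν H`, `N_k = |⟨z, W^k f⟩|²`,

satisfies `Bv α β A ν (W z) = Bv (T α + β) (-α) A ν z`, `T = |τ|² - 2`.
-/

namespace Pool.Agent.Work.MP_88b7aa_gt.PQ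

open Pool.Agent.Work.MP_88b7aa_gt.CH
open ComplexConjugate Complex Matrix

theorem Sg_mul_Sg (G : Matrix (Fin 3) (Fin 3) ℂ) (hG : IsGram G) (j : Fin 3) : Sg G j * Sg G j = 1 := by
  ext a b
  have h := congrFun (Sg_sq G hG j (Pi.single b 1)) a
  rw [Matrix.mulVec_mulVec, Matrix.mulVec_single_one] at h
  rw [← Matrix.one_mulVec (Pi.single b (1 : ℂ)), Matrix.mulVec_single_one] at h
  exact h

theorem WM3_mul_inv (G : Matrix (Fin 3) (Fin 3) ℂ) (hG : IsGram G) (i j k : Fin 3) : WM3 G k j i * WM3 G i j k = 1 := by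
  unfold WM3
  calc Sg G k * (Sg G j * Sg G i) * (Sg G i * (Sg G j * Sg G k))
      = Sg G k * (Sg G j * (Sg G i * Sg G i) * Sg G j) * Sg G k := by simp only [Matrix.mul_assoc]
    _ = 1 := by rw [Sg_mul_Sg G hG, Matrix.mul_one, Sg_mul_Sg G hG, Matrix.mul_one, Sg_mul_Sg G hG]

theorem WM3_adj (G : Matrix (Fin 3) (Fin 3) ℂ) (hG : IsGram G) (i j k : Fin 3) : (WM3 G i j k).adjugate = WM3 G k j i := by
  have h := WM3_mul_inv G hG k j i
  calc (WM3 G i j k).adjugate = (WM3 G i j k).adjugate * (WM3 G i j k * WM3 G k j i) := by rw [h, Matrix.mul_one]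
    _ = (WM3 G i j k).adjugate * WM3 G i j k * WM3 G k j i := by rw [Matrix.mul_assoc]
    _ = WM3 G k j i := by rw [Matrix.adjugate_mul, WM3_det G hG, one_smul, Matrix.one_mul]

theorem WM3_tr (G : Matrix (Fin 3) (Fin 3) ℂ) (hG : IsGram G) {i j k : Fin 3} (hij : i ≠ j) (hik : i ≠ k) (hjk : j ≠ k) :
    (WM3 G i j k).trace = 8 * (G i j * G j k * G k i) - 4 * (G i j * G j i + G j k * G k j + G k i * G i k) + 3 := by
  simp only [WM3, Matrix.trace, Matrix.diag, Matrix.mul_apply, Fin.sum_univ_three, Sg]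
  fin_cases i <;> fin_cases j <;> fin_cases k <;>
    first
      | exact absurd rfl hij
      | exact absurd rfl hik
      | exact absurd rfl hjk
      | (simp [hG.dg]; ring)

theorem WM3_tr_conj (G : Matrix (Fin 3) (Fin 3) ℂ) (hG : IsGram G) {i j k : Fin 3} (hij : i ≠ j) (hik : i ≠ k) (hjk : j ≠ k) :
    (WM3 G k j i).trace = conj (WM3 G i j k).trace := by
  rw [WM3_tr G hG hij hik hjk, WM3_tr G hG hjk.symm hik.symm hij.symm]
  simp only [map_add, map_sub, map_mul, Complex.conj_ofNat, hG.hm]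
  ring

/-- Cayley-Hamilton. -/
theorem WM3_ch (G : Matrix (Fin 3) (Fin 3) ℂ) (hG : IsGram G) {i j k : Fin 3} (hij : i ≠ j) (hik : i ≠ k) (hjk : j ≠ k)
    (f : Fin 3 → ℂ) : WM3 G k j i *ᵥ f =
      WM3 G i j k *ᵥ (WM3 G i j k *ᵥ f) - (WM3 G i j k).trace • (WM3 G i j k *ᵥ f) + conj (WM3 G i j k).trace • f := by
  have h0 : ∀ (W : Matrix (Fin 3) (Fin 3) ℂ), W.adjugate *ᵥ f = W *ᵥ (W *ᵥ f) - W.trace • (W *ᵥ f) + W.adjugate.trace • f := by
    intro W
    ext i
    simp only [Matrix.adjugate_fin_three, Matrix.trace, Matrix.diag, Fin.sum_univ_three, Matrix.mulVec, dotProduct,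
      smul_eq_mul, Pi.add_apply, Pi.sub_apply, Pi.smul_apply]
    fin_cases i <;> simp <;> ring
  have h1 := h0 (WM3 G i j k)
  rw [WM3_adj G hG, WM3_tr_conj G hG hij hik hjk] at h1
  exact h1

/-- `(W - λ) n_j` -/
noncomputable def bvf (G : Matrix (Fin 3) (Fin 3) ℂ) (i j k : Fin 3) (l : ℂ) : Fin 3 → ℂ :=
  WM3 G i j k *ᵥ Pi.single j 1 - l • Pi.single j 1

/-- The eigenvector. -/
noncomputable def bve (G : Matrix (Fin 3) (Fin 3) ℂ) (i j k : Fin 3) (l t : ℂ) : Fin 3 → ℂ :=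
  l • (WM3 G i j k *ᵥ Pi.single j 1) - conj t • Pi.single j 1 + WM3 G k j i *ᵥ Pi.single j 1

/-- The hypotheses; `t` is `tr W - λ`. -/
structure BS (G : Matrix (Fin 3) (Fin 3) ℂ) (i j k : Fin 3) (l t : ℂ) : Prop where
  hG : IsGram G
  hij : i ≠ j
  hik : i ≠ k
  hjk : j ≠ k
  ht : (WM3 G i j k).trace = t + l
  hl : l * conj l = 1
  htc : conj t = l * t
  hq : l ^ 2 - l * t + conj l ≠ 0
  hc : hf G (Pi.single j 1) (bve G i j k l t) ≠ 0
  hτ : 4 ≤ normSq t

theorem htc_of {l t : ℂ} (hl : l * conj l = 1) (hP : l ^ 3 - (t + l) * l ^ 2 + conj (t + l) * l - 1 = 0) : conj t = l * t := by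
  rw [map_add] at hP
  have hl0 : l ≠ 0 := by
    rintro rfl
    simp at hl
  have : l * (conj t - l * t) = 0 := by linear_combination hP - hl
  have := (mul_eq_zero.1 this).resolve_left hl0
  linear_combination this

namespace BS

variable {G : Matrix (Fin 3) (Fin 3) ℂ} {i j k : Fin 3} {l t : ℂ} (h : BS G i j k l t)

include h

theorem VW (v : Fin 3 → ℂ) : WM3 G k j i *ᵥ (WM3 G i j k *ᵥ v) = v := WM3_inv G h.hG i j k v
theorem WV (v : Fin 3 → ℂ) : WM3 G i j k *ᵥ (WM3 G k j i *ᵥ v) = v := WM3_inv G h.hG k j i v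

theorem tcl : conj t * conj l = t := by
  rw [h.htc]
  linear_combination t * h.hl

theorem He : WM3 G i j k *ᵥ bve G i j k l t = l • bve G i j k l t := by
  have c := WM3_ch G h.hG h.hij h.hik h.hjk (Pi.single j 1)
  have v := h.WV (Pi.single j 1)
  have e1 : WM3 G i j k *ᵥ bve G i j k l t = l • (WM3 G i j k *ᵥ (WM3 G i j k *ᵥ Pi.single j 1)) -
      conj t • (WM3 G i j k *ᵥ Pi.single j 1) + Pi.single j 1 := by
    unfold bve
    rw [Matrix.mulVec_add, Matrix.mulVec_sub, Matrix.mulVec_smul, Matrix.mulVec_smul, v]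
  rw [e1]
  unfold bve
  rw [h.ht, map_add, h.htc] at c
  rw [h.htc]
  set x := WM3 G i j k *ᵥ (WM3 G i j k *ᵥ Pi.single j 1) with hx
  set y := WM3 G i j k *ᵥ Pi.single j 1 with hy
  set z := WM3 G k j i *ᵥ Pi.single j 1 with hz
  ext a
  have ca := congrFun c a
  simp only [Pi.add_apply, Pi.sub_apply, Pi.smul_apply, smul_eq_mul] at ca ⊢
  have hl := h.hl
  linear_combination -l * ca + (Pi.single j (1 : ℂ) : Fin 3 → ℂ) a * (-hl)

theorem hf_Wc (u v : Fin 3 → ℂ) : hf G (WM3 G i j k *ᵥ u) v = hf G u (WM3 G k j i *ᵥ v) := by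
  rw [← WM3_iso G h.hG k j i, h.VW]

theorem hf_Vc (u v : Fin 3 → ℂ) : hf G (WM3 G k j i *ᵥ u) v = hf G u (WM3 G i j k *ᵥ v) := by
  rw [← WM3_iso G h.hG i j k, h.WV]

theorem HVe : WM3 G k j i *ᵥ bve G i j k l t = conj l • bve G i j k l t := by
  have h1 := h.VW (bve G i j k l t)
  rw [h.He, Matrix.mulVec_smul] at h1
  calc WM3 G k j i *ᵥ bve G i j k l t = (conj l * l) • (WM3 G k j i *ᵥ bve G i j k l t) := by rw [mul_comm, h.hl, one_smul]
    _ = conj l • (l • WM3 G k j i *ᵥ bve G i j k l t) := by rw [smul_smul]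
    _ = conj l • bve G i j k l t := by rw [h1]

theorem Hfe : hf G (bvf G i j k l) (bve G i j k l t) = 0 := by
  unfold bvf
  rw [hf_sub_left, hf_smul_left, h.hf_Wc, h.HVe, hf_smul_right, Complex.conj_conj, sub_self]

theorem Hee : hf G (bve G i j k l t) (bve G i j k l t) = (l ^ 2 - l * t + conj l) * hf G (Pi.single j 1) (bve G i j k l t) := by
  have e : ∀ v, hf G (bve G i j k l t) v = l * hf G (WM3 G i j k *ᵥ Pi.single j 1) v - conj t * hf G (Pi.single j 1) v +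
      hf G (WM3 G k j i *ᵥ Pi.single j 1) v := by
    intro v
    unfold bve
    rw [hf_add_left, hf_sub_left, hf_smul_left, hf_smul_left]
  rw [e, h.hf_Wc, h.HVe, h.hf_Vc, h.He, hf_smul_right, hf_smul_right, Complex.conj_conj, h.htc]
  ring

theorem Hrec {g : Fin 3 → ℂ} (hg : hf G g (bve G i j k l t) = 0) :
    WM3 G i j k *ᵥ (WM3 G i j k *ᵥ g) = t • (WM3 G i j k *ᵥ g) - conj l • g := by
  have := rec_of G (WM3 G i j k) (WM3_iso G h.hG i j k) (WM3_det G h.hG i j k) h.hl h.He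
    (by rw [h.Hee]; exact mul_ne_zero h.hq h.hc)
    (by
      rw [h.ht]
      intro h0
      apply h.hq
      linear_combination h0) hg
  rw [h.ht, add_sub_cancel_right] at this
  exact this

end BS

/-! ### The functionals -/

/-- `⟨z, W⁻¹ n_j⟩ - λ ⟨z, n_j⟩` -/
noncomputable def bgm (G : Matrix (Fin 3) (Fin 3) ℂ) (i j k : Fin 3) (l : ℂ) (z : Fin 3 → ℂ) : ℂ :=
  hf G z (WM3 G k j i *ᵥ Pi.single j 1) - l * hf G z (Pi.single j 1)

/-- `⟨z, W n_j⟩ - conj λ ⟨z, n_j⟩` -/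
noncomputable def bg0 (G : Matrix (Fin 3) (Fin 3) ℂ) (i j k : Fin 3) (l : ℂ) (z : Fin 3 → ℂ) : ℂ :=
  hf G z (WM3 G i j k *ᵥ Pi.single j 1) - conj l * hf G z (Pi.single j 1)

/-- `conj λ ⟨z, W n_j⟩ + (⟨z, W⁻¹ n_j⟩ - t ⟨z, n_j⟩)` -/
noncomputable def ble (G : Matrix (Fin 3) (Fin 3) ℂ) (i j k : Fin 3) (l t : ℂ) (z : Fin 3 → ℂ) : ℂ :=
  conj l * hf G z (WM3 G i j k *ᵥ Pi.single j 1) + (hf G z (WM3 G k j i *ᵥ Pi.single j 1) - t * hf G z (Pi.single j 1))

/-- The B form. -/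
noncomputable def Bv (G : Matrix (Fin 3) (Fin 3) ℂ) (i j k : Fin 3) (l t : ℂ) (α β A ν : ℝ) (z : Fin 3 → ℂ) : ℝ :=
  α * (normSq (bgm G i j k l z) - normSq (bg0 G i j k l z)) +
  β * (normSq (bg0 G i j k l z) - normSq (bgm G i j k l z + conj t * bg0 G i j k l z)) +
  (A * normSq (ble G i j k l t z) + ν * qf G z)

namespace BS

variable {G : Matrix (Fin 3) (Fin 3) ℂ} {i j k : Fin 3} {l t : ℂ} (h : BS G i j k l t)

include h

omit h in
theorem g0_eq (z : Fin 3 → ℂ) : bg0 G i j k l z = hf G z (bvf G i j k l) := by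
  unfold bg0 bvf
  rw [hf_sub_right, hf_smul_right]

theorem gm_eq (z : Fin 3 → ℂ) : hf G z (WM3 G k j i *ᵥ bvf G i j k l) = -(conj l * bgm G i j k l z) := by
  unfold bgm bvf
  rw [Matrix.mulVec_sub, Matrix.mulVec_smul, h.VW, hf_sub_right, hf_smul_right]
  linear_combination -(hf G z (Pi.single j 1)) * h.hl

omit h in
theorem le_eq (z : Fin 3 → ℂ) : ble G i j k l t z = hf G z (bve G i j k l t) := by
  unfold ble bve
  rw [hf_add_right, hf_sub_right, hf_smul_right, hf_smul_right, Complex.conj_conj]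
  ring

theorem Vf_perp : hf G (WM3 G k j i *ᵥ bvf G i j k l) (bve G i j k l t) = 0 := by
  rw [h.hf_Vc, h.He, hf_smul_right, h.Hfe, mul_zero]

theorem VVf_perp : hf G (WM3 G k j i *ᵥ (WM3 G k j i *ᵥ bvf G i j k l)) (bve G i j k l t) = 0 := by
  rw [h.hf_Vc, h.He, hf_smul_right, h.Vf_perp, mul_zero]

/-- The action of `W` on the functionals. -/
theorem g0_W (z : Fin 3 → ℂ) : bg0 G i j k l (WM3 G i j k *ᵥ z) = -(conj l * bgm G i j k l z) := by
  rw [g0_eq (i := i) (j := j) (k := k) (l := l), h.hf_Wc, h.gm_eq]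

theorem gm_W (z : Fin 3 → ℂ) : bgm G i j k l (WM3 G i j k *ᵥ z) = t * bgm G i j k l z + bg0 G i j k l z := by
  have h1 := h.gm_eq (WM3 G i j k *ᵥ z)
  rw [h.hf_Wc] at h1
  have h2 := h.Hrec h.VVf_perp
  rw [h.WV, h.WV] at h2
  have h3 : hf G z (bvf G i j k l) = hf G z (t • (WM3 G k j i *ᵥ bvf G i j k l) -
      conj l • (WM3 G k j i *ᵥ (WM3 G k j i *ᵥ bvf G i j k l))) := by rw [← h2]
  rw [hf_sub_right, hf_smul_right, hf_smul_right, Complex.conj_conj, h1, h.gm_eq, ← g0_eq (i := i) (j := j) (k := k) (l := l)] at h3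
  have h4 := h.hl
  have h5 := h.tcl
  linear_combination -h3 + (bgm G i j k l (WM3 G i j k *ᵥ z)) * (-h4) + (bgm G i j k l z) * h5

theorem le_W (z : Fin 3 → ℂ) : ble G i j k l t (WM3 G i j k *ᵥ z) = l * ble G i j k l t z := by
  rw [le_eq (i := i) (j := j) (k := k) (l := l) (t := t), h.hf_Wc, h.HVe, hf_smul_right, Complex.conj_conj, ← le_eq (i := i) (j := j) (k := k) (l := l) (t := t)]

theorem nl : normSq l = 1 := by
  have := Complex.mul_conj l
  rw [h.hl] at this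
  exact_mod_cast this.symm

theorem qf_W (z : Fin 3 → ℂ) : qf G (WM3 G i j k *ᵥ z) = qf G z := by
  rw [WM3_mulVec, qf_gram_Sg G h.hG, qf_gram_Sg G h.hG, qf_gram_Sg G h.hG]

/-- **The shift.** -/
theorem shift (α β A ν : ℝ) (z : Fin 3 → ℂ) :
    Bv G i j k l t α β A ν (WM3 G i j k *ᵥ z) = Bv G i j k l t ((normSq t - 2) * α + β) (-α) A ν z := by
  unfold Bv
  rw [h.g0_W, h.gm_W, h.le_W, h.qf_W]
  have h1 : normSq (-(conj l * bgm G i j k l z)) = normSq (bgm G i j k l z) := by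
    rw [normSq_neg, normSq_mul, normSq_conj, h.nl, one_mul]
  have h2 : t * bgm G i j k l z + bg0 G i j k l z + conj t * -(conj l * bgm G i j k l z) = bg0 G i j k l z := by
    linear_combination -(bgm G i j k l z) * h.tcl
  rw [h1, h2, normSq_mul l, h.nl, one_mul]
  set a := bgm G i j k l z
  set b := bg0 G i j k l z
  have h3 : normSq (t * a + b) - normSq a = (normSq t - 2) * (normSq a - normSq b) - (normSq b - normSq (a + conj t * b)) := by
    simp only [normSq_apply, Complex.add_re, Complex.add_im, Complex.mul_re, Complex.mul_im, Complex.conj_re, Complex.conj_im]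
    ring
  rw [h3]
  ring

/-- The convexity. -/
theorem conv (z : Fin 3 → ℂ) : 0 ≤ Bv G i j k l t 1 (-1) 0 0 z := by
  unfold Bv
  set a := bgm G i j k l z
  set b := bg0 G i j k l z
  have h1 : normSq (conj t * b) = normSq t * normSq b := by rw [normSq_mul, normSq_conj]
  have h2 : 4 * normSq b ≤ normSq t * normSq b := mul_le_mul_of_nonneg_right h.hτ (normSq_nonneg b)
  have h3 : normSq (conj t * b) ≤ 2 * (normSq a + normSq (a + conj t * b)) := by
    have := normSq_nonneg (a + (a + conj t * b))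
    have e : normSq (a + (a + conj t * b)) + normSq (conj t * b) = 2 * (normSq a + normSq (a + conj t * b)) := by
      simp only [normSq_apply, Complex.add_re, Complex.add_im, Complex.mul_re, Complex.mul_im, Complex.conj_re, Complex.conj_im]
      ring
    linarith
  linarith

omit h in
theorem lin (α β A ν α' β' A' ν' : ℝ) (z : Fin 3 → ℂ) : Bv G i j k l t (α + α') (β + β') (A + A') (ν + ν') z =
    Bv G i j k l t α β A ν z + Bv G i j k l t α' β' A' ν' z := by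
  unfold Bv
  ring

omit h in
theorem smul (r α β A ν : ℝ) (z : Fin 3 → ℂ) : Bv G i j k l t (r * α) (r * β) (r * A) (r * ν) z = r * Bv G i j k l t α β A ν z := by
  unfold Bv
  ring

/-- `W² {B > 0} ⊆ {B > 0}`. -/
theorem w2 {α β : ℝ} (hα : 0 ≤ α) (hβ : 0 ≤ β) (A ν : ℝ) (z : Fin 3 → ℂ) :
    Bv G i j k l t α β A ν z ≤ Bv G i j k l t α β A ν (WM3 G i j k *ᵥ (WM3 G i j k *ᵥ z)) := by
  have c0 := h.conv z
  have c1 := h.conv (WM3 G i j k *ᵥ z)
  have c2 := h.conv (WM3 G i j k *ᵥ (WM3 G i j k *ᵥ z))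
  rw [h.shift] at c1
  rw [h.shift, h.shift] at c2
  rw [h.shift, h.shift]
  have p1 := mul_nonneg hα c2
  have p2 := mul_nonneg hα c1
  have p3 := mul_nonneg hβ c1
  have p4 := mul_nonneg hβ c0
  unfold Bv at *
  linarith

/-- The comparison with one shift. -/
theorem w1 {α β α' β' : ℝ} (hα : 0 ≤ α) (hβ : 0 ≤ β') (hs : α + β = α' + β') (A ν : ℝ) (z : Fin 3 → ℂ) :
    Bv G i j k l t α' β' A ν z ≤ Bv G i j k l t α β A ν (WM3 G i j k *ᵥ z) := by
  have c0 := h.conv z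
  have c1 := h.conv (WM3 G i j k *ᵥ z)
  rw [h.shift] at c1
  rw [h.shift]
  have p1 := mul_nonneg hα c1
  have p2 := mul_nonneg hβ c0
  have e : α' = α + β - β' := by linarith
  subst e
  unfold Bv at *
  linarith

/-- The comparison without shift. -/
theorem w0 {α β α' β' : ℝ} (hα : α' ≤ α) (hs : α + β = α' + β') (A ν : ℝ) (z : Fin 3 → ℂ) :
    Bv G i j k l t α' β' A ν z ≤ Bv G i j k l t α β A ν z := by
  have c0 := h.conv z
  have p1 := mul_nonneg (sub_nonneg.2 hα) c0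
  have e : β' = α + β - α' := by linarith
  subst e
  unfold Bv at *
  linarith

end BS

end Pool.Agent.Work.MP_88b7aa_gt.PQ
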