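import Pool.Agent.Work.MP_88b7aa_gt.PQ.S2

/-!
# The forced conditions in closed form

`CC_incl`: `I_i I_j {Q_k > 0} ⊆ {Q_i > 0}` (`Q_i = QP G i`) if `g = |⟨n_i, I_j n_k⟩|² ≥ 1` and two polynomials in `|G i j|²`, `|G j k|²`,
`|G i k|²`, `g` are positive (nonnegative).

`star_incl`: `I_i R_m {Q_i > 0} ⊆ {Q_i > 0}` for the reflection `R_m` in a unit vector `m` of the span of the two other polar vectors,
if `|⟨n_i, m⟩| ≥ 1`.
-/

namespace Pool.Agent.Work.MP_88b7aa_gt.PQ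

open Pool.Agent.Work.MP_88b7aa_gt.CH
open ComplexConjugate Complex Matrix

/-- The identity behind `CC_incl` (primes are conjugates). -/
theorem CC_ring (A B E A' B' E' x0 x1 x2 y0 y1 y2 γ γ' g zi zj zk wi wj wk yi yj yk vi vj vk : ℂ)
    (hγ : γ = 2 * A' * B' - E') (hγ' : γ' = 2 * A * B - E) (hg : g = γ * γ')
    (hzi : zi = x0 + x1) (hzj : zj = -2 * γ * B * x0 + x2) (hzk : zk = γ * x0)
    (hwi : wi = y0 + y1) (hwj : wj = -2 * γ' * B' * y0 + y2) (hwk : wk = γ' * y0)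
    (hyi : yi = zi + A * zj + E * zk) (hyj : yj = A' * zi + zj + B * zk) (hyk : yk = E' * zi + B' * zj + zk)
    (hvi : vi = wi + A' * wj + E' * wk) (hvj : vj = A * wi + wj + B' * wk) (hvk : vk = E * wi + B * wj + wk) :
    (1 + g) * (wi * yi + wj * yj + wk * yk) - 2 * (vi * (zi - yi) + yi * (wi - vi)) -
      2 * ((-vk + 2 * B * vj) * (-zk - (-yk + 2 * B' * yj)) + (-yk + 2 * B' * yj) * (-wk - (-vk + 2 * B * vj))) =
      (1 + 5 * g) * (x1 * y1) + (1 + g + 4 * (A * A' + B * B')) * (x2 * y2) + (g - 1) * (3 * g - 1) * (x0 * y0) -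
      (g - 1) * (1 + g) * (x0 * y1 + x1 * y0) +
      (((g + 3) * A + 4 * γ' * B') * (y1 * x2) + ((g + 3) * A' + 4 * γ * B) * (x1 * y2)) -
      (g - 1) * ((3 * A + γ' * B') * (y0 * x2) + (3 * A' + γ * B) * (x0 * y2)) := by
  subst hyi hyj hyk hvi hvj hvk hzi hzj hzk hwi hwj hwk hg hγ hγ'
  ring

theorem sum3 {M : Type*} [AddCommMonoid M] {i j k : Fin 3} (hij : i ≠ j) (hik : i ≠ k) (hjk : j ≠ k) (f : Fin 3 → M) :
    ∑ x, f x = f i + f j + f k := by
  rw [Fin.sum_univ_three]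
  fin_cases i <;> fin_cases j <;> fin_cases k <;> simp_all <;> abel

/-- The real inequality. -/
theorem CC_real (A B γ x0 x1 x2 : ℂ) {a b c g : ℝ} (ha : a = normSq A) (hb : b = normSq B) (hg : g = normSq γ)
    (hc : c = normSq (2 * A * B - conj γ)) (h1 : 1 ≤ g)
    (hD : 0 < 1 + 3 * g ^ 2 + 2 * c * (g + 3) + a * (14 * g - 5 - g ^ 2) + b * (4 + 4 * g) - 8 * a * b * (g + 3))
    (hK : 0 ≤ -g ^ 3 + 10 * g ^ 2 + 53 * g + 18 + (c - 4 * a * b) * (12 * g + 21 - g ^ 2) +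
      (2 - a - b) * (2 * g ^ 2 - 24 * g - 10)) :
    0 ≤ ((1 + 5 * (g : ℂ)) * (x1 * conj x1) + (1 + g + 4 * (a + b)) * (x2 * conj x2) +
      (g - 1) * (3 * g - 1) * (x0 * conj x0) - (g - 1) * (1 + g) * (x0 * conj x1 + x1 * conj x0) +
      (((g + 3) * A + 4 * conj γ * conj B) * (conj x1 * x2) + ((g + 3) * conj A + 4 * γ * B) * (x1 * conj x2)) -
      (g - 1) * ((3 * A + conj γ * conj B) * (conj x0 * x2) + (3 * conj A + γ * B) * (x0 * conj x2))).re := by
  obtain ⟨A1, A2⟩ := A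
  obtain ⟨B1, B2⟩ := B
  obtain ⟨c1, c2⟩ := γ
  simp only [normSq_mk] at ha hb hg
  have hR : c = 4 * (a * b) - 4 * ((A1 * B1 - A2 * B2) * c1 - (A1 * B2 + A2 * B1) * c2) + g := by
    rw [hc, ha, hb, hg, normSq_apply]
    simp only [Complex.sub_re, Complex.sub_im, Complex.mul_re, Complex.mul_im, Complex.conj_re, Complex.conj_im, Complex.re_ofNat,
      Complex.im_ofNat]
    ring
  set P1 := c1 * B1 - c2 * B2 with hP1
  set P2 := c1 * B2 + c2 * B1 with hP2
  have e1 : (A1 * B1 - A2 * B2) * c1 - (A1 * B2 + A2 * B1) * c2 = A1 * P1 - A2 * P2 := by rw [hP1, hP2]; ring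
  have e2 : g * b = P1 ^ 2 + P2 ^ 2 := by rw [hg, hb, hP1, hP2]; ring
  rw [e1] at hR
  have e3 : a = A1 ^ 2 + A2 ^ 2 := by rw [ha]; ring
  set R := A1 * P1 - A2 * P2 with hRd
  have hd0 : 0 < 1 + 5 * g := by linarith
  have hA : (1 + 5 * g) * (1 + g + 4 * (a + b)) - (((g + 3) * A1 + 4 * P1) ^ 2 + ((g + 3) * A2 - 4 * P2) ^ 2) =
      1 + 3 * g ^ 2 + 2 * c * (g + 3) + a * (14 * g - 5 - g ^ 2) + b * (4 + 4 * g) - 8 * a * b * (g + 3) := by
    have : ((g + 3) * A1 + 4 * P1) ^ 2 + ((g + 3) * A2 - 4 * P2) ^ 2 = (g + 3) ^ 2 * a + 16 * (g * b) + 8 * (g + 3) * R := by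
      rw [e2, e3, hRd]
      ring
    rw [this, hR]
    ring
  have h := psd_Hm (1 + 5 * g) (1 + g + 4 * (a + b)) ((g - 1) * (3 * g - 1)) ((g + 3) * A1 + 4 * P1) ((g + 3) * A2 - 4 * P2)
    (-((g - 1) * (1 + g))) 0 (-((g - 1) * (3 * A1 + P1))) (-((g - 1) * (-(3 * A2) + P2))) hd0 (by rw [hA]; exact hD) (by
      have e5 : ((1 + 5 * g) * (1 + g + 4 * (a + b)) - (((g + 3) * A1 + 4 * P1) ^ 2 + ((g + 3) * A2 - 4 * P2) ^ 2)) *
          ((1 + 5 * g) * ((g - 1) * (3 * g - 1)) - ((-((g - 1) * (1 + g))) ^ 2 + 0 ^ 2)) -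
          (((1 + 5 * g) * -((g - 1) * (3 * A1 + P1)) - (((g + 3) * A1 + 4 * P1) * -((g - 1) * (1 + g)) +
            ((g + 3) * A2 - 4 * P2) * 0)) ^ 2 + ((1 + 5 * g) * -((g - 1) * (-(3 * A2) + P2)) - (((g + 3) * A1 + 4 * P1) * 0 -
            ((g + 3) * A2 - 4 * P2) * -((g - 1) * (1 + g)))) ^ 2) =
          (1 + 5 * g) * (g - 1) * (g * (-g ^ 3 + 10 * g ^ 2 + 53 * g + 18 + (c - 4 * a * b) * (12 * g + 21 - g ^ 2) +
            (2 - a - b) * (2 * g ^ 2 - 24 * g - 10)) / 2) := by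
        rw [hR, e3]
        have : P1 ^ 2 = g * b - P2 ^ 2 := by linarith
        rw [hRd]
        linear_combination (-(9 - 8 * g - 218 * g ^ 2 + 232 * g ^ 3 - 15 * g ^ 4)) * this
      have h6 : 0 ≤ (1 + 5 * g) * (g - 1) * (g * (-g ^ 3 + 10 * g ^ 2 + 53 * g + 18 + (c - 4 * a * b) * (12 * g + 21 - g ^ 2) +
            (2 - a - b) * (2 * g ^ 2 - 24 * g - 10)) / 2) := by
        have : 0 ≤ g - 1 := by linarith
        positivity
      linarith) ![x1, x2, x0]
  rw [qf_Hm] at h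
  refine h.trans (le_of_eq ?_)
  simp only [Matrix.cons_val_zero, Matrix.cons_val_one, Matrix.cons_val]
  simp only [Complex.add_re, Complex.sub_re, Complex.mul_re, Complex.mul_im, Complex.conj_re, Complex.conj_im, Complex.ofReal_re,
    Complex.ofReal_im, Complex.add_im, Complex.sub_im, Complex.one_re, Complex.one_im, Complex.re_ofNat, Complex.im_ofNat]
  rw [hP1, hP2]
  ring

/-- The reflection of a point. -/
theorem Sg_mul (G : Matrix (Fin 3) (Fin 3) ℂ) (j a : Fin 3) (x : Fin 3 → ℂ) :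
    (Sg G j *ᵥ x) a = (if a = j then 2 * ∑ b, G j b * x b else 0) - x a := by
  simp only [Matrix.mulVec, dotProduct, Sg, sub_mul, Finset.sum_sub_distrib]
  congr 1
  · by_cases h : a = j
    · simp only [h, if_true, mul_assoc, ← Finset.mul_sum]
    · simp [h]
  · simp

theorem G_Sg (G : Matrix (Fin 3) (Fin 3) ℂ) (j a : Fin 3) (x : Fin 3 → ℂ) :
    ∑ b, G a b * (Sg G j *ᵥ x) b = 2 * G a j * (∑ b, G j b * x b) - ∑ b, G a b * x b := by
  simp only [Sg_mul, mul_sub, Finset.sum_sub_distrib, mul_ite, mul_zero, Finset.sum_ite_eq', Finset.mem_univ, if_true]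
  ring

theorem Sg_sq (G : Matrix (Fin 3) (Fin 3) ℂ) (hG : IsGram G) (j : Fin 3) (x : Fin 3 → ℂ) :
    Sg G j *ᵥ (Sg G j *ᵥ x) = x := by
  ext a
  rw [Sg_mul, G_Sg, hG.dg, Sg_mul]
  by_cases h : a = j
  · simp only [h, if_true]
    ring
  · simp [h]

/-- The inequality for all points. -/
theorem CC_pt (G : Matrix (Fin 3) (Fin 3) ℂ) (hG : IsGram G) {i j k : Fin 3} (hij : i ≠ j) (hik : i ≠ k) (hjk : j ≠ k)
    {a b c g : ℝ} (ha : a = normSq (G i j)) (hb : b = normSq (G j k)) (hc : c = normSq (G i k))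
    (hg : g = normSq (2 * conj (G i j) * conj (G j k) - conj (G i k))) (h1 : 1 ≤ g)
    (hD : 0 < 1 + 3 * g ^ 2 + 2 * c * (g + 3) + a * (14 * g - 5 - g ^ 2) + b * (4 + 4 * g) - 8 * a * b * (g + 3))
    (hK : 0 ≤ -g ^ 3 + 10 * g ^ 2 + 53 * g + 18 + (c - 4 * a * b) * (12 * g + 21 - g ^ 2) +
      (2 - a - b) * (2 * g ^ 2 - 24 * g - 10)) (z : Fin 3 → ℂ) :
    0 ≤ (1 + g) * qf G z - 4 * qf (QP G i) z - 4 * qf (QP G k) (Sg G j *ᵥ z) := by
  set A := G i j with hA
  set B := G j k with hB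
  set E := G i k with hE
  set γ := 2 * conj A * conj B - conj E with hγ
  have hγ0 : γ ≠ 0 := by
    intro h
    rw [h, map_zero] at hg
    linarith
  have hcγ : conj γ = 2 * A * B - E := by
    rw [hγ]
    simp only [map_sub, map_mul, Complex.conj_conj, Complex.conj_ofNat]
  have hgg : γ * conj γ = g := by rw [Complex.mul_conj, hg]
  have hji : G j i = conj A := (hG.hm i j).symm
  have hkj : G k j = conj B := (hG.hm j k).symm
  have hki : G k i = conj E := (hG.hm i k).symm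
  have hr := CC_real A B γ (z k / γ) (z i - z k / γ) (z j + 2 * B * z k) ha hb hg
    (by rw [hcγ]; simpa using hc) h1 hD hK
  have e1 : z j = -2 * γ * B * (z k / γ) + (z j + 2 * B * z k) := by field_simp; ring
  have e2 : z k = γ * (z k / γ) := by field_simp
  have hring := CC_ring A B E (conj A) (conj B) (conj E) (z k / γ) (z i - z k / γ) (z j + 2 * B * z k)
    (conj (z k / γ)) (conj (z i - z k / γ)) (conj (z j + 2 * B * z k)) γ (conj γ) g (z i) (z j) (z k) (conj (z i)) (conj (z j))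
    (conj (z k)) (z i + A * z j + E * z k) (conj A * z i + z j + B * z k) (conj E * z i + conj B * z j + z k)
    (conj (z i) + conj A * conj (z j) + conj E * conj (z k)) (A * conj (z i) + conj (z j) + conj B * conj (z k))
    (E * conj (z i) + B * conj (z j) + conj (z k)) hγ hcγ hgg.symm (by ring) e1 e2 (by rw [← map_add]; ring_nf)
    (by conv_lhs => rw [e1]
        simp only [map_add, map_mul, map_neg, Complex.conj_ofNat])
    (by conv_lhs => rw [e2]
        rw [map_mul]) rfl rfl rfl rfl rfl rfl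
  have haa : A * conj A = a := by rw [Complex.mul_conj, ha]
  have hbb : B * conj B = b := by rw [Complex.mul_conj, hb]
  rw [haa, hbb] at hring
  rw [← hring] at hr
  refine hr.trans (le_of_eq ?_)
  have hyi : ∑ b, G i b * z b = z i + A * z j + E * z k := by rw [sum3 hij hik hjk, hG.dg, one_mul]
  have hyj : ∑ b, G j b * z b = conj A * z i + z j + B * z k := by rw [sum3 hij hik hjk, hG.dg, one_mul, hji]
  have hyk : ∑ b, G k b * z b = conj E * z i + conj B * z j + z k := by rw [sum3 hij hik hjk, hG.dg, one_mul, hki, hkj]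
  have hH : qf G z = (conj (z i) * (z i + A * z j + E * z k) + conj (z j) * (conj A * z i + z j + B * z k) +
      conj (z k) * (conj E * z i + conj B * z j + z k)).re := by
    unfold qf
    simp only [mul_assoc, ← Finset.mul_sum]
    rw [sum3 hij hik hjk, hyi, hyj, hyk]
  have hvi : conj (z i) + conj A * conj (z j) + conj E * conj (z k) = conj (z i + A * z j + E * z k) := by
    simp only [map_add, map_mul]
  have hVk : -(E * conj (z i) + B * conj (z j) + conj (z k)) + 2 * B * (A * conj (z i) + conj (z j) + conj B * conj (z k)) =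
      conj (-(conj E * z i + conj B * z j + z k) + 2 * conj B * (conj A * z i + z j + B * z k)) := by
    simp only [map_add, map_mul, map_neg, Complex.conj_conj, Complex.conj_ofNat]
  rw [qf_QP, qf_QP, G_Sg, Sg_mul, if_neg hjk.symm, hyi, hyj, hyk, hkj, hH, hvi, hVk]
  set y := z i + A * z j + E * z k
  set Y := -(conj E * z i + conj B * z j + z k) + 2 * conj B * (conj A * z i + z j + B * z k) with hY
  have hY' : 2 * conj B * (conj A * z i + z j + B * z k) - (conj E * z i + conj B * z j + z k) = Y := by rw [hY]; ring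
  rw [hY']
  have r1 : (conj y * (z i - y) + y * (conj (z i) - conj y)).re = 2 * (conj y * (z i - y)).re := by
    simp only [Complex.add_re, Complex.sub_re, Complex.mul_re, Complex.conj_re, Complex.conj_im, Complex.sub_im]
    ring
  have r2 : (conj Y * (-z k - Y) + Y * (-conj (z k) - conj Y)).re = 2 * (conj Y * (0 - z k - Y)).re := by
    simp only [Complex.add_re, Complex.sub_re, Complex.mul_re, Complex.conj_re, Complex.conj_im, Complex.sub_im, Complex.neg_re,
      Complex.neg_im, Complex.zero_re, Complex.zero_im]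
    ring
  have r3 : ∀ w : ℂ, ((1 + (g : ℂ)) * w).re = (1 + g) * w.re := by
    intro w
    simp
  have r4 : ∀ w : ℂ, (2 * w).re = 2 * w.re := by
    intro w
    simp
  rw [Complex.sub_re, Complex.sub_re, r3, r4, r4, r1, r2]
  ring

/-- `I_i I_j {Q_k > 0} ⊆ {Q_i > 0}`. -/
theorem CC_incl (G : Matrix (Fin 3) (Fin 3) ℂ) (hG : IsGram G) {i j k : Fin 3} (hij : i ≠ j) (hik : i ≠ k) (hjk : j ≠ k)
    {a b c g : ℝ} (ha : a = normSq (G i j)) (hb : b = normSq (G j k)) (hc : c = normSq (G i k))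
    (hg : g = normSq (2 * conj (G i j) * conj (G j k) - conj (G i k))) (h1 : 1 ≤ g)
    (hD : 0 < 1 + 3 * g ^ 2 + 2 * c * (g + 3) + a * (14 * g - 5 - g ^ 2) + b * (4 + 4 * g) - 8 * a * b * (g + 3))
    (hK : 0 ≤ -g ^ 3 + 10 * g ^ 2 + 53 * g + 18 + (c - 4 * a * b) * (12 * g + 21 - g ^ 2) +
      (2 - a - b) * (2 * g ^ 2 - 24 * g - 10)) : Incl G (altS G i j 2) (QP G k) (QP G i) := by
  intro x hx hQ
  have e : altS G i j 2 *ᵥ x = Sg G i *ᵥ (Sg G j *ᵥ x) := by
    have : altS G i j 2 = Sg G i * (Sg G j * 1) := rfl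
    rw [this, mul_one, Matrix.mulVec_mulVec]
  rw [e, QP_anti G hG]
  have h := CC_pt G hG hij hik hjk ha hb hc hg h1 hD hK (Sg G j *ᵥ x)
  rw [Sg_sq G hG, qf_gram_Sg G hG] at h
  have : (1 + g) * qf G x < 0 := mul_neg_of_pos_of_neg (by linarith) hx
  linarith

end Pool.Agent.Work.MP_88b7aa_gt.PQ
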