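import Pool.Agent.Work.MP_88b7aa_gt.PQ.CertF
import Pool.Agent.Work.MP_88b7aa_gt.CH.Nrm
import Pool.Agent.Work.MP_88b7aa_gt.Cb.DelA
import Pool.Agent.Work.MP_88b7aa_gt.Cb.Exi

/-!
# The certificate theorem for a triangle

`TriG a b c θ G`: `G` is a possible Gram matrix (`G i j = ⟨n j, n i⟩`) of the triangle; the phases of the three polar vectors
are free, only the product of the three entries is prescribed.
-/

namespace Pool.Agent.Work.MP_88b7aa_gt.PQ

open Pool.Agent.Work.MP_88b7aa_gt.CH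
open ComplexConjugate Complex Matrix

/-- `a = cos (π/p)` belongs to the pair `1, 2`, `b = cos (π/q)` to `0, 1`, `c = cos (π/r)` to `2, 0`. -/
structure TriG (a b c θ : ℝ) (G : Matrix (Fin 3) (Fin 3) ℂ) : Prop where
  gram : IsGram G
  h01 : ‖G 1 0‖ = b
  h12 : ‖G 2 1‖ = a
  h20 : ‖G 0 2‖ = c
  prod : G 1 0 * G 2 1 * G 0 2 = -((a * b * c : ℝ) : ℂ) * exp (θ * I)

/-- The symmetric choice of the phases, `w = e^{-iθ/3}`. -/
def Gx (a b c : ℝ) (w : ℂ) : Matrix (Fin 3) (Fin 3) ℂ :=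
  !![1, -(b : ℂ) * w, -(c : ℂ) * conj w; -(b : ℂ) * conj w, 1, -(a : ℂ) * w; -(c : ℂ) * w, -(a : ℂ) * conj w, 1]

theorem Gx_tri (a b c θ : ℝ) (ha : 0 ≤ a) (hb : 0 ≤ b) (hc : 0 ≤ c) :
    TriG a b c θ (Gx a b c (exp ((-(θ / 3) : ℝ) * I))) := by
  have hw : ‖exp ((-(θ / 3) : ℝ) * I)‖ = 1 := Complex.norm_exp_ofReal_mul_I _
  have hcw : conj (exp ((-(θ / 3) : ℝ) * I)) = exp ((θ / 3 : ℝ) * I) := by
    rw [← Complex.exp_conj, map_mul, Complex.conj_I, Complex.conj_ofReal]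
    congr 1
    push_cast
    ring
  refine ⟨⟨?_, ?_⟩, ?_, ?_, ?_, ?_⟩
  · intro i j
    fin_cases i <;> fin_cases j <;> simp [Gx, Complex.conj_ofReal]
  · intro i
    fin_cases i <;> simp [Gx]
  · have : ‖exp ((-(θ / 3) : ℝ) * I)‖ = 1 := hw
    simp only [Gx, Matrix.of_apply, Matrix.cons_val', Matrix.cons_val_zero, Matrix.cons_val_one]
    rw [norm_mul, norm_neg, Complex.norm_real, Real.norm_eq_abs, abs_of_nonneg hb, RCLike.norm_conj, hw, mul_one]
  · simp only [Gx, Matrix.of_apply, Matrix.cons_val', Matrix.cons_val_one, Matrix.cons_val]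
    rw [norm_mul, norm_neg, Complex.norm_real, Real.norm_eq_abs, abs_of_nonneg ha, RCLike.norm_conj, hw, mul_one]
  · simp only [Gx, Matrix.of_apply, Matrix.cons_val', Matrix.cons_val_zero, Matrix.cons_val]
    rw [norm_mul, norm_neg, Complex.norm_real, Real.norm_eq_abs, abs_of_nonneg hc, RCLike.norm_conj, hw, mul_one]
  · have e : exp ((θ : ℝ) * I) = exp ((θ / 3 : ℝ) * I) * exp ((θ / 3 : ℝ) * I) * exp ((θ / 3 : ℝ) * I) := by
      rw [← Complex.exp_add, ← Complex.exp_add]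
      congr 1
      push_cast
      ring
    simp only [Gx, Matrix.of_apply, Matrix.cons_val', Matrix.cons_val_zero, Matrix.cons_val_one, Matrix.cons_val]
    rw [hcw, e]
    push_cast
    ring

private lemma unit_mul {u : ℂ} (hu : ‖u‖ = 1) : u * conj u = 1 := by
  rw [Complex.mul_conj', hu]
  norm_num

private lemma herm_sl (a : ℂ) (z w : Fin 3 → ℂ) : herm (a • z) w = a * herm z w := by
  simp only [herm, Pi.smul_apply, smul_eq_mul]
  ring

private lemma herm_sr (a : ℂ) (z w : Fin 3 → ℂ) : herm z (a • w) = conj a * herm z w := by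
  simp only [herm, Pi.smul_apply, smul_eq_mul, map_mul]
  ring

private lemma herm_cj (z w : Fin 3 → ℂ) : conj (herm z w) = herm w z := by
  simp only [herm, map_add, map_sub, map_mul, Complex.conj_conj]
  ring

theorem cos_pos3 {p : ℕ} (hp : 3 ≤ p) : 0 < Real.cos (Real.pi / p) := by
  have h3 : (3 : ℝ) ≤ p := by exact_mod_cast hp
  have hpi := Real.pi_pos
  apply Real.cos_pos_of_mem_Ioo
  constructor
  · have : 0 < Real.pi / p := by positivity
    linarith
  · rw [div_lt_div_iff₀ (by linarith) (by norm_num)]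
    nlinarith

/-- The phases of the polar vectors can be chosen such that the Gram matrix is `G`. -/
theorem GrN (p q r : ℕ) (hp : 3 ≤ p) (hq : 3 ≤ q) (hr : 3 ≤ r) (θ : ℝ) (n : Fin 3 → Fin 3 → ℂ)
    (hT : IsTriangle p q r θ n) (G : Matrix (Fin 3) (Fin 3) ℂ)
    (hG : TriG (Real.cos (Real.pi / p)) (Real.cos (Real.pi / q)) (Real.cos (Real.pi / r)) θ G) :
    ∃ n' : Fin 3 → Fin 3 → ℂ, Gr n' = G ∧ ∀ i, CH.refl (n' i) = CH.refl (n i) := by
  have c0 := cos_pos3 hq
  have c1 := cos_pos3 hp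
  have c2 := cos_pos3 hr
  set h01 := herm (n 0) (n 1) with e01
  set h12 := herm (n 1) (n 2) with e12
  set h20 := herm (n 2) (n 0) with e20
  have k01 : h01 ≠ 0 := by
    intro h
    have := hT.h12
    rw [← e01, h, norm_zero] at this
    linarith
  have k12 : h12 ≠ 0 := by
    intro h
    have := hT.h23
    rw [← e12, h, norm_zero] at this
    linarith
  have k20 : h20 ≠ 0 := by
    intro h
    have := hT.h31
    rw [← e20, h, norm_zero] at this
    linarith
  set u1 : ℂ := conj (G 1 0 / h01) with hu1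
  have n1 : ‖u1‖ = 1 := by
    rw [hu1, RCLike.norm_conj, norm_div, hG.h01, e01, hT.h12, div_self c0.ne']
  have k1 : u1 ≠ 0 := by
    intro h
    rw [h, norm_zero] at n1
    exact zero_ne_one n1
  set u2 : ℂ := conj (G 2 1 / (u1 * h12)) with hu2
  have n2 : ‖u2‖ = 1 := by
    rw [hu2, RCLike.norm_conj, norm_div, hG.h12, norm_mul, n1, one_mul, e12, hT.h23, div_self c1.ne']
  have k2 : u2 ≠ 0 := by
    intro h
    rw [h, norm_zero] at n2
    exact zero_ne_one n2
  have g10 : conj u1 * h01 = G 1 0 := by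
    rw [hu1, Complex.conj_conj]
    field_simp
  have g21 : u1 * (conj u2 * h12) = G 2 1 := by
    rw [hu2, Complex.conj_conj]
    field_simp
  have g02 : u2 * h20 = G 0 2 := by
    have h1 := hG.prod
    have h2 := hT.angle
    rw [← e01, ← e12, ← e20] at h2
    have h3 : G 1 0 * G 2 1 * G 0 2 = h01 * h12 * h20 := by
      rw [h1, h2]
    rw [← g10, ← g21] at h3
    have h4 := unit_mul n1
    have h5 := unit_mul n2
    have h6 : h01 * h12 * (conj u2 * G 0 2) = h01 * h12 * h20 := by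
      rw [← h3]
      linear_combination (-(h01 * h12 * conj u2 * G 0 2)) * h4
    have h7 := mul_left_cancel₀ (mul_ne_zero k01 k12) h6
    rw [← h7]
    linear_combination G 0 2 * h5
  refine ⟨![n 0, u1 • n 1, u2 • n 2], ?_, ?_⟩
  · have hd : ∀ i, G i i = 1 := hG.gram.dg
    have hm := hG.gram.hm
    have m0 : (![n 0, u1 • n 1, u2 • n 2] : Fin 3 → Fin 3 → ℂ) 0 = n 0 := rfl
    have m1 : (![n 0, u1 • n 1, u2 • n 2] : Fin 3 → Fin 3 → ℂ) 1 = u1 • n 1 := rfl
    have m2 : (![n 0, u1 • n 1, u2 • n 2] : Fin 3 → Fin 3 → ℂ) 2 = u2 • n 2 := rfl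
    have e10' : herm (n 0) (u1 • n 1) = G 1 0 := by rw [herm_sr, ← e01, g10]
    have e21' : herm (u1 • n 1) (u2 • n 2) = G 2 1 := by rw [herm_sl, herm_sr, ← e12, g21]
    have e02' : herm (u2 • n 2) (n 0) = G 0 2 := by rw [herm_sl, ← e20, g02]
    ext i j
    fin_cases i <;> fin_cases j
    · show herm (n 0) (n 0) = G 0 0
      rw [hT.unit, hd]
    · show herm (u1 • n 1) (n 0) = G 0 1
      rw [← herm_cj, e10', hm]
    · show herm (u2 • n 2) (n 0) = G 0 2
      exact e02'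
    · show herm (n 0) (u1 • n 1) = G 1 0
      exact e10'
    · show herm (u1 • n 1) (u1 • n 1) = G 1 1
      rw [herm_sl, herm_sr, hT.unit, hd, mul_one]
      exact unit_mul n1
    · show herm (u2 • n 2) (u1 • n 1) = G 1 2
      rw [← herm_cj, e21', hm]
    · show herm (n 0) (u2 • n 2) = G 2 0
      rw [← herm_cj, e02', hm]
    · show herm (u1 • n 1) (u2 • n 2) = G 2 1
      exact e21'
    · show herm (u2 • n 2) (u2 • n 2) = G 2 2
      rw [herm_sl, herm_sr, hT.unit, hd, mul_one]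
      exact unit_mul n2
  · intro i
    fin_cases i
    · rfl
    · exact refl_smul u1 n1 (n 1)
    · exact refl_smul u2 n2 (n 2)

private theorem two_ang (m : ℕ) : 2 * (Real.pi / (2 * m)) = Real.pi / m := by
  rcases Nat.eq_zero_or_pos m with rfl | hm
  · simp
  · field_simp

/-- The determinant of the polar vectors does not vanish in the relevant range. -/
theorem Dt_ne (p q r : ℕ) (hp : 3 ≤ p) (hpq : p ≤ q) (hqr : q ≤ r) (hr : 4 ≤ r) (θ : ℝ) (n : Fin 3 → Fin 3 → ℂ)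
    (hT : IsTriangle p q r θ n)
    (hA : 1 ≤ fA (Real.cos (Real.pi / p)) (Real.cos (Real.pi / q)) (Real.cos (Real.pi / r)) (Real.cos θ)) : Dt n ≠ 0 := by
  have hD : 0 < Del (ang p q r) (θ / 2) := Cb.DelA p q r hp hpq hqr hr θ hA
  have e0 : 2 * ang p q r 0 = Real.pi / q := by
    show 2 * (Real.pi / (2 * q)) = _
    exact two_ang q
  have e1 : 2 * ang p q r 1 = Real.pi / p := by
    show 2 * (Real.pi / (2 * p)) = _
    exact two_ang p
  have e2 : 2 * ang p q r 2 = Real.pi / r := by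
    show 2 * (Real.pi / (2 * r)) = _
    exact two_ang r
  unfold Del at hD
  rw [e0, e1, e2, show 2 * (θ / 2) = θ by ring] at hD
  set a := Real.cos (Real.pi / p) with ha
  set b := Real.cos (Real.pi / q) with hb
  set c := Real.cos (Real.pi / r) with hc
  have key : (Dt n * conj (Dt n)) =
      -(herm (n 0) (n 0) * (herm (n 1) (n 1) * herm (n 2) (n 2) - herm (n 1) (n 2) * herm (n 2) (n 1)) -
      herm (n 0) (n 1) * (herm (n 1) (n 0) * herm (n 2) (n 2) - herm (n 1) (n 2) * herm (n 2) (n 0)) +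
      herm (n 0) (n 2) * (herm (n 1) (n 0) * herm (n 2) (n 1) - herm (n 1) (n 1) * herm (n 2) (n 0))) := by
    unfold Dt
    rw [Matrix.det_fin_three]
    simp only [Matrix.of_apply, herm, map_add, map_sub, map_mul]
    ring
  have f01 : herm (n 0) (n 1) * herm (n 1) (n 0) = (b : ℂ) ^ 2 := by
    rw [← herm_cj (n 0) (n 1), Complex.mul_conj', hT.h12]
  have f12 : herm (n 1) (n 2) * herm (n 2) (n 1) = (a : ℂ) ^ 2 := by
    rw [← herm_cj (n 1) (n 2), Complex.mul_conj', hT.h23]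
  have f20 : herm (n 2) (n 0) * herm (n 0) (n 2) = (c : ℂ) ^ 2 := by
    rw [← herm_cj (n 2) (n 0), Complex.mul_conj', hT.h31]
  have g1 : herm (n 0) (n 1) * herm (n 1) (n 2) * herm (n 2) (n 0) =
      -((a * b * c : ℝ) : ℂ) * exp (θ * I) := hT.angle
  have g2 : herm (n 1) (n 0) * herm (n 2) (n 1) * herm (n 0) (n 2) =
      -((a * b * c : ℝ) : ℂ) * exp ((-θ : ℝ) * I) := by
    have h := congrArg conj g1
    simp only [map_mul, herm_cj, map_neg, Complex.conj_ofReal, ← Complex.exp_conj, Complex.conj_I] at h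
    rw [h]
    congr 2
    push_cast
    ring
  have hre : Dt n * conj (Dt n) = ((b ^ 2 + a ^ 2 + c ^ 2 + 2 * (b * a * c) * Real.cos θ - 1 : ℝ) : ℂ) := by
    have h3 : exp ((θ : ℝ) * I) + exp ((-θ : ℝ) * I) = ((2 * Real.cos θ : ℝ) : ℂ) := by
      push_cast
      rw [Complex.two_cos]
    rw [key, hT.unit, hT.unit, hT.unit]
    push_cast
    have h4 : ((2 * Real.cos θ : ℝ) : ℂ) = 2 * Complex.cos θ := by push_cast; rfl
    rw [h4] at h3
    push_cast at g1 g2 h3
    linear_combination f12 + f01 + f20 - g1 - g2 + ((a : ℂ) * b * c) * h3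
  intro h0
  rw [h0, zero_mul] at hre
  have h5 : b ^ 2 + a ^ 2 + c ^ 2 + 2 * (b * a * c) * Real.cos θ - 1 = 0 := by
    exact_mod_cast hre.symm
  linarith

/-- Transport from coordinates: `DFw` for one Gram matrix of the triangle implies `DF`. -/
theorem DF_of_G (p q r : ℕ) (hp : 3 ≤ p) (hpq : p ≤ q) (hqr : q ≤ r) (hr : 4 ≤ r) (θ : ℝ) (n : Fin 3 → Fin 3 → ℂ)
    (hT : IsTriangle p q r θ n)
    (hA : 1 ≤ fA (Real.cos (Real.pi / p)) (Real.cos (Real.pi / q)) (Real.cos (Real.pi / r)) (Real.cos θ))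
    (G : Matrix (Fin 3) (Fin 3) ℂ)
    (hG : TriG (Real.cos (Real.pi / p)) (Real.cos (Real.pi / q)) (Real.cos (Real.pi / r)) θ G)
    (ε : ℝ) (hε : 0 < ε) (h : DFw (mcox p q r (by omega) (by omega) (by omega)) G ε) :
    DF (mcox p q r (by omega) (by omega) (by omega)) n := by
  obtain ⟨n', hn', hr'⟩ := GrN p q r hp (by omega) (by omega) θ n hT G hG
  have hT' : IsTriangle p q r θ n' := by
    have hh : ∀ i j, herm (n' j) (n' i) = G i j := fun i j => by rw [← hn']; rfl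
    refine ⟨fun i => by rw [hh, hG.gram.dg], ?_, ?_, ?_, ?_⟩
    · rw [hh]; exact hG.h12
    · rw [hh]; exact hG.h01
    · rw [hh]; exact hG.h20
    · rw [hh, hh, hh]; exact hG.prod
  obtain ⟨ρ, hρ, -⟩ := Rep p q r hp (by omega) (by omega) n' hT'.unit hT'.h12 hT'.h23 hT'.h31
  refine DF_congr _ n n' hr' ?_
  have hD := Dt_ne p q r hp hpq hqr hr θ n' hT' hA
  refine DF_of_DFw _ n' hD ρ hρ ε hε ?_
  rw [hn']
  exact h

/-- The representation in the coordinates of `G`. -/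
theorem rho_exists (p q r : ℕ) (hp : 3 ≤ p) (hpq : p ≤ q) (hqr : q ≤ r) (hr : 4 ≤ r) (θ : ℝ)
    (hA : 1 ≤ fA (Real.cos (Real.pi / p)) (Real.cos (Real.pi / q)) (Real.cos (Real.pi / r)) (Real.cos θ))
    (G : Matrix (Fin 3) (Fin 3) ℂ)
    (hG : TriG (Real.cos (Real.pi / p)) (Real.cos (Real.pi / q)) (Real.cos (Real.pi / r)) θ G) :
    ∃ ρ : (mcox p q r (by omega) (by omega) (by omega)).Group →* Matrix (Fin 3) (Fin 3) ℂ,
      ∀ i, ρ ((mcox p q r (by omega) (by omega) (by omega)).simple i) = Sg G i := by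
  have hD : 0 < Del (ang p q r) (θ / 2) := Cb.DelA p q r hp hpq hqr hr θ hA
  have hs : 0 < Real.sin (2 * ang p q r 0) := by
    have e : 2 * ang p q r 0 = Real.pi / q := two_ang q
    rw [e]
    apply Real.sin_pos_of_pos_of_lt_pi
    · have : 0 < q := by omega
      positivity
    · have : (1 : ℝ) < q := by exact_mod_cast (by omega : 1 < q)
      exact div_lt_self Real.pi_pos this
  obtain ⟨n, hn⟩ := Cb.Exi (ang p q r) (θ / 2) hs hD
  have hT := Cb.NTri_tri p q r hp (by omega) (by omega) θ n hn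
  obtain ⟨n', hn', -⟩ := GrN p q r hp (by omega) (by omega) θ n hT G hG
  have hh : ∀ i j, herm (n' j) (n' i) = G i j := fun i j => by rw [← hn']; rfl
  have hT' : IsTriangle p q r θ n' := by
    refine ⟨fun i => by rw [hh, hG.gram.dg], ?_, ?_, ?_, ?_⟩
    · rw [hh]; exact hG.h12
    · rw [hh]; exact hG.h01
    · rw [hh]; exact hG.h20
    · rw [hh, hh, hh]; exact hG.prod
  obtain ⟨ρ, hρ, -⟩ := Rep p q r hp (by omega) (by omega) n' hT'.unit hT'.h12 hT'.h23 hT'.h31
  have hD' := Dt_ne p q r hp hpq hqr hr θ n' hT' hA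
  have hdet : IsUnit (Nm n').det := by rw [Nm_det]; exact isUnit_iff_ne_zero.2 hD'
  refine ⟨⟨⟨fun g => (Nm n')⁻¹ * ρ g * Nm n', ?_⟩, ?_⟩, ?_⟩
  · show (Nm n')⁻¹ * ρ 1 * Nm n' = 1
    rw [map_one, Matrix.mul_one, Matrix.nonsing_inv_mul _ hdet]
  · intro g g'
    show (Nm n')⁻¹ * ρ (g * g') * Nm n' = ((Nm n')⁻¹ * ρ g * Nm n') * ((Nm n')⁻¹ * ρ g' * Nm n')
    rw [map_mul]
    calc (Nm n')⁻¹ * (ρ g * ρ g') * Nm n' = (Nm n')⁻¹ * ρ g * 1 * ρ g' * Nm n' := by
          simp only [Matrix.mul_one, Matrix.mul_assoc]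
      _ = (Nm n')⁻¹ * ρ g * (Nm n' * (Nm n')⁻¹) * ρ g' * Nm n' := by
          rw [Matrix.mul_nonsing_inv _ hdet]
      _ = _ := by simp only [Matrix.mul_assoc]
  · intro i
    show (Nm n')⁻¹ * ρ _ * Nm n' = Sg G i
    rw [hρ, Matrix.mul_assoc, refl_Nm, ← Matrix.mul_assoc, Matrix.nonsing_inv_mul _ hdet, Matrix.one_mul, hn']

/-- THE CERTIFICATE THEOREM. -/
theorem cert (p q r : ℕ) (hp : 3 ≤ p) (hpq : p ≤ q) (hqr : q ≤ r) (hr : 4 ≤ r) (θ : ℝ) (n : Fin 3 → Fin 3 → ℂ)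
    (hT : IsTriangle p q r θ n)
    (hA : 1 ≤ fA (Real.cos (Real.pi / p)) (Real.cos (Real.pi / q)) (Real.cos (Real.pi / r)) (Real.cos θ))
    (G : Matrix (Fin 3) (Fin 3) ℂ)
    (hG : TriG (Real.cos (Real.pi / p)) (Real.cos (Real.pi / q)) (Real.cos (Real.pi / r)) θ G)
    {ι : Type*} [Finite ι] (lab : ι → Fin 3) (F : ι → Matrix (Fin 3) (Fin 3) ℂ) (o : Fin 3 → ℂ)
    (h : FHyp (mcox p q r (by omega) (by omega) (by omega)) G lab F o) :
    DF (mcox p q r (by omega) (by omega) (by omega)) n := by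
  obtain ⟨ρ, hρ⟩ := rho_exists p q r hp hpq hqr hr θ hA G hG
  obtain ⟨ε, hε, hDF⟩ := certF _ G ρ hρ lab F o h
  exact DF_of_G p q r hp hpq hqr hr θ n hT hA G hG ε hε hDF

end Pool.Agent.Work.MP_88b7aa_gt.PQ
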