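import Pool.Agent.Work.MP_88b7aa_gt.PQ.CertT

/-!
# The ping-pong with quadratic forms

States `s : ι` with a label `lab s` and a form `F s`; `T i` is the set of the negative `x` at which some form of label `i` is
positive.  `Inc G A Q Q'`: `x` negative and `Q x > 0` imply `Q' (A x) > 0`.
-/

namespace Pool.Agent.Work.MP_88b7aa_gt.PQ

open Pool.Agent.Work.MP_88b7aa_gt.CH
open ComplexConjugate Complex Matrix

/-- `G` is Hermitian with unit diagonal. -/
structure IsGram (G : Matrix (Fin 3) (Fin 3) ℂ) : Prop where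
  hm : ∀ i j, conj (G i j) = G j i
  dg : ∀ i, G i i = 1

/-- The certified inclusion `A ({Q > 0} ∩ B) ⊆ {Q' > 0}`. -/
def Inc (G A Q Q' : Matrix (Fin 3) (Fin 3) ℂ) : Prop :=
  ∃ a b : ℝ, 0 ≤ a ∧ 0 ≤ b ∧ 0 < a + b ∧ ∀ x : Fin 3 → ℂ, 0 ≤ qf Q' (A *ᵥ x) - a * qf Q x + b * qf G x

theorem Inc.pos {G A Q Q' : Matrix (Fin 3) (Fin 3) ℂ} (h : Inc G A Q Q') {x : Fin 3 → ℂ} (hx : qf G x < 0)
    (hQ : 0 < qf Q x) : 0 < qf Q' (A *ᵥ x) := by
  obtain ⟨a, b, ha, hb, hab, h⟩ := h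
  have h1 := h x
  rcases ha.eq_or_lt with ha' | ha'
  · have hb' : 0 < b := by linarith
    nlinarith [mul_pos hb' (neg_pos.2 hx)]
  · nlinarith [mul_pos ha' hQ, mul_nonneg hb (neg_pos.2 hx).le]

/-- The inclusion `A ({Q > 0} ∩ B) ⊆ {Q' > 0}`. -/
def Incl (G A Q Q' : Matrix (Fin 3) (Fin 3) ℂ) : Prop :=
  ∀ x : Fin 3 → ℂ, qf G x < 0 → 0 < qf Q x → 0 < qf Q' (A *ᵥ x)

theorem Inc.incl {G A Q Q' : Matrix (Fin 3) (Fin 3) ℂ} (h : Inc G A Q Q') : Incl G A Q Q' :=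
  fun _ hx hQ => h.pos hx hQ

/-- The form `Q ∘ I_i`. -/
def cmp (G Q : Matrix (Fin 3) (Fin 3) ℂ) (i : Fin 3) : Matrix (Fin 3) (Fin 3) ℂ := fun a b =>
  Q a b - 2 * conj (G i a) * Q i b - 2 * Q a i * G i b + 4 * conj (G i a) * Q i i * G i b

theorem qf_cmp (G Q : Matrix (Fin 3) (Fin 3) ℂ) (i : Fin 3) (x : Fin 3 → ℂ) :
    qf (cmp G Q i) x = qf Q (Sg G i *ᵥ x) := by
  have h2 : conj (2 : ℂ) = 2 := Complex.conj_ofNat 2
  unfold qf
  congr 1
  simp only [Matrix.mulVec, dotProduct, Fin.sum_univ_three, Sg, cmp]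
  fin_cases i <;> simp [h2] <;> ring

/-- The form `Q ∘ (I_i I_j I_i ...)` (`l` factors). -/
def chn (G : Matrix (Fin 3) (Fin 3) ℂ) : Matrix (Fin 3) (Fin 3) ℂ → Fin 3 → Fin 3 → ℕ → Matrix (Fin 3) (Fin 3) ℂ
  | Q, _, _, 0 => Q
  | Q, i, j, l + 1 => chn G (cmp G Q i) j i l

theorem qf_chn (G : Matrix (Fin 3) (Fin 3) ℂ) (x : Fin 3 → ℂ) (l : ℕ) : ∀ (Q : Matrix (Fin 3) (Fin 3) ℂ) (i j : Fin 3),
    qf (chn G Q i j l) x = qf Q (altS G i j l *ᵥ x) := by
  induction l with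
  | zero =>
    intro Q i j
    simp [chn, altS]
  | succ l ih =>
    intro Q i j
    have e : chn G Q i j (l + 1) = chn G (cmp G Q i) j i l := rfl
    have e2 : altS G i j (l + 1) = Sg G i * altS G j i l := rfl
    rw [e, ih, qf_cmp, e2, Matrix.mulVec_mulVec]

theorem cmp_gram (G : Matrix (Fin 3) (Fin 3) ℂ) (hG : IsGram G) (i : Fin 3) : cmp G G i = G := by
  ext a b
  unfold cmp
  rw [hG.hm i a, hG.dg i]
  ring

theorem qf_gram_Sg (G : Matrix (Fin 3) (Fin 3) ℂ) (hG : IsGram G) (i : Fin 3) (x : Fin 3 → ℂ) :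
    qf G (Sg G i *ᵥ x) = qf G x := by
  rw [← qf_cmp, cmp_gram G hG]

theorem qf_gram_alt (G : Matrix (Fin 3) (Fin 3) ℂ) (hG : IsGram G) (x : Fin 3 → ℂ) (l : ℕ) : ∀ i j : Fin 3,
    qf G (altS G i j l *ᵥ x) = qf G x := by
  induction l with
  | zero => intro i j; simp [altS]
  | succ l ih =>
    intro i j
    have e2 : altS G i j (l + 1) = Sg G i * altS G j i l := rfl
    rw [e2, ← Matrix.mulVec_mulVec, qf_gram_Sg G hG, ih]

/-- The set of a label. -/
def TF (G : Matrix (Fin 3) (Fin 3) ℂ) {ι : Type*} (lab : ι → Fin 3) (F : ι → Matrix (Fin 3) (Fin 3) ℂ) (i : Fin 3) :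
    Set (Fin 3 → ℂ) := {x | qf G x < 0 ∧ ∃ s, lab s = i ∧ 0 < qf (F s) x}

/-- The condition on the longest element `w` of the dihedral group of `i, j`, `k` the third index: either the point `w o` is
outside `T k` and different from `o`, or `T k` and `o` lie in the half spaces `E > 0` and `E' > 0`, `E ∘ w = - E'`. -/
def LongC (M : CoxeterMatrix (Fin 3)) (G : Matrix (Fin 3) (Fin 3) ℂ) {ι : Type*} (lab : ι → Fin 3)
    (F : ι → Matrix (Fin 3) (Fin 3) ℂ) (o : Fin 3 → ℂ) (i j k : Fin 3) : Prop :=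
  ((∀ t, lab t = k → qf (F t) (altS G i j (M i j) *ᵥ o) < 0) ∧
    ∃ E : Matrix (Fin 3) (Fin 3) ℂ, qf E o < 0 ∧ 0 < qf E (altS G i j (M i j) *ᵥ o)) ∨
  (∃ E E' : Matrix (Fin 3) (Fin 3) ℂ, 0 < qf E o ∧ 0 < qf E' o ∧
    (∀ s, lab s = k → Incl G 1 (F s) E') ∧ ∀ x, qf E (altS G i j (M i j) *ᵥ x) = -qf E' x)

/-- The hypotheses on the forms. -/
structure FHyp (M : CoxeterMatrix (Fin 3)) (G : Matrix (Fin 3) (Fin 3) ℂ) {ι : Type*} (lab : ι → Fin 3)
    (F : ι → Matrix (Fin 3) (Fin 3) ℂ) (o : Fin 3 → ℂ) : Prop where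
  m2 : ∀ i j, i ≠ j → 2 ≤ M i j
  gram : IsGram G
  hB : ∀ i j k, i ≠ j → i ≠ k → j ≠ k → ∀ l, 2 ≤ l → l < M i j → ∀ s, lab s = k →
    ∃ t, lab t = i ∧ Incl G (altS G i j l) (F s) (F t)
  ho : qf G o < 0
  hA : ∀ i, ∃ t, lab t = i ∧ 0 < qf (F t) (Sg G i *ᵥ o)
  hB' : ∀ i j, i ≠ j → ∀ l, 2 ≤ l → l < M i j → ∃ t, lab t = i ∧ 0 < qf (F t) (altS G i j l *ᵥ o)
  hC1 : ∀ t, qf (F t) o < 0
  hC2 : ∀ i j k, i ≠ j → i ≠ k → j ≠ k → LongC M G lab F o i j k

private theorem alt_rev {W : Type*} [Group W] {M : CoxeterMatrix (Fin 3)} (cs : CoxeterSystem M W) (n : ℕ) :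
    ∀ a b : Fin 3, alt cs a b n * alt cs (if Even n then b else a) (if Even n then a else b) n = 1 := by
  induction n with
  | zero => intro a b; simp [alt]
  | succ n ih =>
    intro a b
    have h2 : alt cs a b (n + 1) = cs.simple a * alt cs b a n := rfl
    by_cases h : Even n
    · have h3 : ¬ Even (n + 1) := by simpa [Nat.even_add_one] using h
      rw [if_neg h3, if_neg h3, h2]
      have h4 : alt cs a b (n + 1) = alt cs a b n * cs.simple a := by
        rw [alt_succ, if_pos h]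
      rw [← h2, h4, ← h4, h2]
      have h5 := ih b a
      rw [if_pos h, if_pos h] at h5
      calc cs.simple a * alt cs b a n * (cs.simple a * alt cs b a n)
          = cs.simple a * alt cs b a n * (alt cs a b (n + 1)) := by rw [h2]
        _ = cs.simple a * (alt cs b a n * alt cs a b n) * cs.simple a := by rw [h4]; group
        _ = 1 := by rw [h5, mul_one, cs.simple_mul_simple_self]
    · have h3 : Even (n + 1) := by simpa [Nat.even_add_one] using h
      rw [if_pos h3, if_pos h3, h2]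
      have h4 : alt cs b a (n + 1) = alt cs b a n * cs.simple a := by
        rw [alt_succ, if_neg h]
      have h5 := ih b a
      rw [if_neg h, if_neg h] at h5
      calc cs.simple a * alt cs b a n * alt cs b a (n + 1)
          = cs.simple a * (alt cs b a n * alt cs b a n) * cs.simple a := by rw [h4]; group
        _ = 1 := by rw [h5, mul_one, cs.simple_mul_simple_self]

theorem alt_long_sq {W : Type*} [Group W] {M : CoxeterMatrix (Fin 3)} (cs : CoxeterSystem M W) (i j : Fin 3) :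
    alt cs i j (M i j) * alt cs i j (M i j) = 1 := by
  have h := alt_rev cs (M i j) i j
  by_cases he : Even (M i j)
  · rw [if_pos he, if_pos he, ← alt_braid cs i j] at h
    exact h
  · rw [if_neg he, if_neg he] at h
    exact h

theorem FHyp.toHyp {M : CoxeterMatrix (Fin 3)} {G : Matrix (Fin 3) (Fin 3) ℂ} {ι : Type*} [Finite ι]
    {lab : ι → Fin 3} {F : ι → Matrix (Fin 3) (Fin 3) ℂ} {o : Fin 3 → ℂ}
    (ρ : M.Group →* Matrix (Fin 3) (Fin 3) ℂ) (hρ : ∀ i, ρ (M.simple i) = Sg G i)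
    (h : FHyp M G lab F o) : Hyp M G (TF G lab F) o := by
  have hww : ∀ i j : Fin 3, ∀ x, altS G i j (M i j) *ᵥ (altS G i j (M i j) *ᵥ x) = x := by
    intro i j x
    rw [Matrix.mulVec_mulVec, ← rho_alt ρ hρ, ← map_mul, alt_long_sq, map_one, Matrix.one_mulVec]
  refine ⟨h.m2, ?_, ?_, ?_, ?_, ?_, ?_, ?_⟩
  · intro i
    have e : TF G lab F i = {x | qf G x < 0} ∩ ⋃ s, ⋃ _ : lab s = i, {x | 0 < qf (F s) x} := by
      ext x
      simp [TF]
    rw [e]
    refine (isOpen_lt (qf_cont G) continuous_const).inter (isOpen_iUnion fun s => isOpen_iUnion fun _ => ?_)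
    exact isOpen_lt continuous_const (qf_cont (F s))
  · intro i μ hμ x hx
    obtain ⟨h1, s, hs, h2⟩ := hx
    refine ⟨by rw [qf_smul G μ hμ]; exact h1, s, hs, by rw [qf_smul _ μ hμ]; exact h2⟩
  · intro i j k hij hik hjk l hl hl' x hx
    obtain ⟨h1, s, hs, h2⟩ := hx
    obtain ⟨t, ht, hI⟩ := h.hB i j k hij hik hjk l hl hl' s hs
    exact ⟨by rw [qf_gram_alt G h.gram]; exact h1, t, ht, hI x h1 h2⟩
  · intro i
    obtain ⟨t, ht, h1⟩ := h.hA i
    exact ⟨by rw [qf_gram_Sg G h.gram]; exact h.ho, t, ht, h1⟩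
  · intro i j hij l hl hl'
    obtain ⟨t, ht, h1⟩ := h.hB' i j hij l hl hl'
    exact ⟨by rw [qf_gram_alt G h.gram]; exact h.ho, t, ht, h1⟩
  · refine ⟨{x | ∀ t, qf (F t) x < 0}, ?_, ?_, h.hC1, ?_⟩
    · have e : {x : Fin 3 → ℂ | ∀ t, qf (F t) x < 0} = ⋂ t, {x | qf (F t) x < 0} := by
        ext x
        simp
      rw [e]
      exact isOpen_iInter_of_finite fun t => isOpen_lt (qf_cont (F t)) continuous_const
    · intro μ hμ x hx t
      rw [qf_smul _ μ hμ]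
      exact hx t
    · rintro i x hx ⟨-, s, -, h2⟩
      exact absurd (hx s) (not_lt.2 h2.le)
  · intro i j k hij hik hjk
    have hcw : Continuous fun x : Fin 3 → ℂ => altS G i j (M i j) *ᵥ x := by
      refine continuous_pi fun a => ?_
      simp only [Matrix.mulVec, dotProduct]
      fun_prop
    rcases h.hC2 i j k hij hik hjk with ⟨h1, E, h2, h3⟩ | ⟨E, E', h1, h2, h3, h4⟩
    · refine ⟨{x | (∀ t, lab t = k → qf (F t) (altS G i j (M i j) *ᵥ x) < 0) ∧ qf E x < 0 ∧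
          0 < qf E (altS G i j (M i j) *ᵥ x)}, ?_, ?_, ⟨h1, h2, h3⟩, ?_⟩
      · have e : {x : Fin 3 → ℂ | (∀ t, lab t = k → qf (F t) (altS G i j (M i j) *ᵥ x) < 0) ∧ qf E x < 0 ∧
            0 < qf E (altS G i j (M i j) *ᵥ x)} =
            (⋂ t, ⋂ _ : lab t = k, {x | qf (F t) (altS G i j (M i j) *ᵥ x) < 0}) ∩
              ({x | qf E x < 0} ∩ {x | 0 < qf E (altS G i j (M i j) *ᵥ x)}) := by
          ext x
          simp
        rw [e]
        refine (isOpen_iInter_of_finite fun t => isOpen_iInter_of_finite fun _ => ?_).inter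
          ((isOpen_lt (qf_cont E) continuous_const).inter ?_)
        · exact isOpen_lt ((qf_cont (F t)).comp hcw) continuous_const
        · exact isOpen_lt continuous_const ((qf_cont E).comp hcw)
      · rintro μ hμ x ⟨a1, a2, a3⟩
        refine ⟨?_, by rw [qf_smul _ μ hμ]; exact a2, by rw [Matrix.mulVec_smul, qf_smul _ μ hμ]; exact a3⟩
        intro t ht
        rw [Matrix.mulVec_smul, qf_smul _ μ hμ]
        exact a1 t ht
      · rintro x (⟨-, s, hs, a2⟩ | ⟨-, -, a3⟩) ⟨b1, b2, -⟩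
        · have := b1 s hs
          rw [hww] at this
          linarith
        · linarith
    · refine ⟨{x | qf G x < 0 ∧ 0 < qf E x ∧ 0 < qf E' x}, ?_, ?_, ⟨h.ho, h1, h2⟩, ?_⟩
      · exact (isOpen_lt (qf_cont G) continuous_const).inter
          ((isOpen_lt continuous_const (qf_cont E)).inter (isOpen_lt continuous_const (qf_cont E')))
      · rintro μ hμ x ⟨a1, a2, a3⟩
        exact ⟨by rw [qf_smul _ μ hμ]; exact a1, by rw [qf_smul _ μ hμ]; exact a2, by rw [qf_smul _ μ hμ]; exact a3⟩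
      · rintro x (⟨a1, s, hs, a2⟩ | ⟨-, -, a3⟩) ⟨-, b2, -⟩
        · have := h3 s hs x a1 a2
          rw [Matrix.one_mulVec] at this
          rw [h4] at b2
          linarith
        · rw [h4] at b2
          linarith

theorem certF (M : CoxeterMatrix (Fin 3)) (G : Matrix (Fin 3) (Fin 3) ℂ)
    (ρ : M.Group →* Matrix (Fin 3) (Fin 3) ℂ) (hρ : ∀ i, ρ (M.simple i) = Sg G i)
    {ι : Type*} [Finite ι] (lab : ι → Fin 3) (F : ι → Matrix (Fin 3) (Fin 3) ℂ) (o : Fin 3 → ℂ)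
    (h : FHyp M G lab F o) : ∃ ε : ℝ, 0 < ε ∧ DFw M G ε :=
  certT M G ρ hρ _ o (h.toHyp ρ hρ)

end Pool.Agent.Work.MP_88b7aa_gt.PQ
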