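import Pool.Agent.Work.MP_88b7aa_gt.PQ.Dfw

/-!
# The ping-pong with open sets `T i` and a point `o`
-/

namespace Pool.Agent.Work.MP_88b7aa_gt.PQ

open Pool.Agent.Work.MP_88b7aa_gt.CH
open ComplexConjugate Complex Matrix

/-- The hypotheses: everything about `o` is a pointwise condition. -/
structure Hyp (M : CoxeterMatrix (Fin 3)) (G : Matrix (Fin 3) (Fin 3) ℂ) (T : Fin 3 → Set (Fin 3 → ℂ))
    (o : Fin 3 → ℂ) : Prop where
  m2 : ∀ i j, i ≠ j → 2 ≤ M i j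
  hTo : ∀ i, IsOpen (T i)
  hTs : ∀ i, UI (T i)
  hB : ∀ i j k, i ≠ j → i ≠ k → j ≠ k → ∀ l, 2 ≤ l → l < M i j → ∀ x ∈ T k, altS G i j l *ᵥ x ∈ T i
  hA : ∀ i, Sg G i *ᵥ o ∈ T i
  hB' : ∀ i j, i ≠ j → ∀ l, 2 ≤ l → l < M i j → altS G i j l *ᵥ o ∈ T i
  hC1 : ∃ P : Set (Fin 3 → ℂ), IsOpen P ∧ UI P ∧ o ∈ P ∧ ∀ i, ∀ x ∈ P, x ∉ T i
  hC2 : ∀ i j k, i ≠ j → i ≠ k → j ≠ k → ∃ P : Set (Fin 3 → ℂ), IsOpen P ∧ UI P ∧ o ∈ P ∧
    ∀ x, x ∈ T k ∨ x ∈ P → altS G i j (M i j) *ᵥ x ∉ P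

private theorem mulVec_cont (A : Matrix (Fin 3) (Fin 3) ℂ) : Continuous fun x : Fin 3 → ℂ => A *ᵥ x := by
  refine continuous_pi fun i => ?_
  simp only [Matrix.mulVec, dotProduct]
  fun_prop

theorem certT (M : CoxeterMatrix (Fin 3)) (G : Matrix (Fin 3) (Fin 3) ℂ)
    (ρ : M.Group →* Matrix (Fin 3) (Fin 3) ℂ) (hρ : ∀ i, ρ (M.simple i) = Sg G i)
    (T : Fin 3 → Set (Fin 3 → ℂ)) (o : Fin 3 → ℂ) (h : Hyp M G T o) : ∃ ε : ℝ, 0 < ε ∧ DFw M G ε := by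
  classical
  obtain ⟨P1, hP1o, hP1s, hP1, hP1T⟩ := h.hC1
  have hth : ∀ i j : Fin 3, ∃ k, i ≠ j → i ≠ k ∧ j ≠ k := by decide
  choose th hthr using hth
  have hC2' : ∀ i j : Fin 3, ∃ P : Set (Fin 3 → ℂ), i ≠ j → IsOpen P ∧ UI P ∧ o ∈ P ∧
      ∀ x, x ∈ T (th i j) ∨ x ∈ P → altS G i j (M i j) *ᵥ x ∉ P := by
    intro i j
    by_cases hij : i = j
    · exact ⟨∅, fun h => absurd hij h⟩
    · obtain ⟨P, hP⟩ := h.hC2 i j (th i j) hij (hthr i j hij).1 (hthr i j hij).2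
      exact ⟨P, fun _ => hP⟩
  choose P2 hP2 using hC2'
  have hthu : ∀ i j k : Fin 3, i ≠ j → i ≠ k → j ≠ k → k = th i j := by
    intro i j k hij hik hjk
    obtain ⟨h1, h2⟩ := hthr i j hij
    omega
  set O : Set (Fin 3 → ℂ) := {x | (∀ i, Sg G i *ᵥ x ∈ T i) ∧
    (∀ i j, i ≠ j → ∀ l, l < M i j → 2 ≤ l → altS G i j l *ᵥ x ∈ T i) ∧ x ∈ P1 ∧
    ∀ i j, i ≠ j → x ∈ P2 i j} with hO
  have hOo : IsOpen O := by
    have e : O = (⋂ i, (fun x => Sg G i *ᵥ x) ⁻¹' T i) ∩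
        ((⋂ i, ⋂ j, ⋂ _ : i ≠ j, ⋂ l ∈ Finset.range (M i j), ⋂ _ : 2 ≤ l, (fun x => altS G i j l *ᵥ x) ⁻¹' T i) ∩
          (P1 ∩ ⋂ i, ⋂ j, ⋂ _ : i ≠ j, P2 i j)) := by
      ext x
      simp only [hO, Set.mem_setOf_eq, Set.mem_inter_iff, Set.mem_iInter, Set.mem_preimage, Finset.mem_range]
    rw [e]
    refine (isOpen_iInter_of_finite fun i => (h.hTo i).preimage (mulVec_cont _)).inter
      ((isOpen_iInter_of_finite fun i => isOpen_iInter_of_finite fun j => isOpen_iInter_of_finite fun _ =>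
        isOpen_biInter_finset fun l _ => isOpen_iInter_of_finite fun _ => (h.hTo i).preimage (mulVec_cont _)).inter
        (hP1o.inter (isOpen_iInter_of_finite fun i => isOpen_iInter_of_finite fun j =>
          isOpen_iInter_of_finite fun hij => (hP2 i j hij).1)))
  have hOs : UI O := by
    intro μ hμ x hx
    obtain ⟨h1, h2, h3, h4⟩ := hx
    refine ⟨?_, ?_, hP1s μ hμ x h3, ?_⟩
    · intro i
      rw [Matrix.mulVec_smul]
      exact h.hTs i μ hμ _ (h1 i)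
    · intro i j hij l hl hl'
      rw [Matrix.mulVec_smul]
      exact h.hTs i μ hμ _ (h2 i j hij l hl hl')
    · intro i j hij
      exact (hP2 i j hij).2.1 μ hμ x (h4 i j hij)
  have hoO : o ∈ O :=
    ⟨h.hA, fun i j hij l hl hl' => h.hB' i j hij l hl' hl, hP1, fun i j hij => (hP2 i j hij).2.2.1⟩
  obtain ⟨δ, hδ, hball⟩ := Metric.isOpen_iff.1 hOo o hoO
  have hP : PPT M.toCoxeterSystem (fun g x => ρ g *ᵥ x) T O := by
    refine ⟨?_, ?_, h.m2, ?_, ?_, ?_, ?_⟩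
    · intro x
      simp only [map_one, Matrix.one_mulVec]
    · intro g g' x
      simp only [map_mul, Matrix.mulVec_mulVec]
    · intro i x hx
      show ρ (M.toCoxeterSystem.simple i) *ᵥ x ∈ T i
      rw [CoxeterMatrix.toCoxeterSystem_simple, hρ]
      exact hx.1 i
    · intro i j k hij hik hjk l hl hl' x hx
      show ρ (alt M.toCoxeterSystem i j l) *ᵥ x ∈ T i
      rw [rho_alt ρ hρ]
      rcases hx with hx | hx
      · exact h.hB i j k hij hik hjk l hl hl' x hx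
      · exact hx.2.1 i j hij l hl' hl
    · intro i x hx
      exact hP1T i x hx.2.2.1
    · intro i j k hij hik hjk x hx hcon
      have hcon' : ρ (alt M.toCoxeterSystem i j (M i j)) *ᵥ x ∈ O := hcon
      rw [rho_alt ρ hρ] at hcon'
      have hk := hthu i j k hij hik hjk
      refine (hP2 i j hij).2.2.2 x ?_ (hcon'.2.2.2 i j hij)
      rcases hx with hx | hx
      · left
        rw [← hk]
        exact hx
      · right
        exact hx.2.2.2 i j hij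
  exact ⟨_, by positivity, DFw_of_set M G ρ hρ O o δ hδ hball hOs fun g hg x hx => pp_main hP x hx g hg⟩

end Pool.Agent.Work.MP_88b7aa_gt.PQ
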