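import Pool.Agent.Work.MP_88b7aa_gt.PQ.Leaf
import Pool.Agent.Work.MP_88b7aa_gt.Cb.Itv

/-!
# Boxes, trees, columns

A box is a linear model for `a = cos (π/p)`, `b = cos (π/q)`, `c = cos (π/r)` and `t = θ/6` in the variables `x 0, ..., x 3` of
`[-1, 1]`; `x 0` is the variable of `θ`.
-/

namespace Pool.Agent.Work.MP_88b7aa_gt.PQ

open Pool.Agent.Work.MP_88b7aa_gt.CH
open ComplexConjugate Complex Matrix

/-- A box. -/
structure Bx4 where
  a : Lin
  b : Lin
  c : Lin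
  t : Lin

/-- The meaning of a box. -/
structure Bx4.Holds (B : Bx4) (x : Fin 4 → ℝ) (a b c t : ℝ) : Prop where
  a : B.a.Holds x a
  b : B.b.Holds x b
  c : B.c.Holds x c
  t : B.t.Holds x t

/-- The points of the cube with `k` active variables. -/
structure Cub (k : ℕ) (x : Fin 4 → ℝ) : Prop where
  le : ∀ i, |x i| ≤ 1
  zr : ∀ i : Fin 4, k ≤ (i : ℕ) → x i = 0

/-- Discreteness on a box, for the triples with the property `K`. -/
def Good (K : ℕ → ℕ → ℕ → Prop) (k : ℕ) (B : Bx4) : Prop :=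
  ∀ (p q r : ℕ) (hp : 3 ≤ p) (_ : p ≤ q) (_ : q ≤ r) (_ : 4 ≤ r), K p q r →
    ∀ (θ : ℝ) (n : Fin 3 → Fin 3 → ℂ) (x : Fin 4 → ℝ), Cub k x →
      B.Holds x (Real.cos (Real.pi / p)) (Real.cos (Real.pi / q)) (Real.cos (Real.pi / r)) (θ / 6) →
      IsTriangle p q r θ n →
      1 ≤ fA (Real.cos (Real.pi / p)) (Real.cos (Real.pi / q)) (Real.cos (Real.pi / r)) (Real.cos θ) →
      0 ≤ fB (Real.cos (Real.pi / p)) (Real.cos (Real.pi / q)) (Real.cos (Real.pi / r)) (Real.cos θ) →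
      DF (mcox p q r (by omega) (by omega) (by omega)) n

/-- Outside: no triple with the property `K` satisfies both inequalities on the box. -/
def Outs (K : ℕ → ℕ → ℕ → Prop) (k : ℕ) (B : Bx4) : Prop :=
  ∀ (p q r : ℕ), 3 ≤ p → p ≤ q → q ≤ r → K p q r → ∀ (θ : ℝ) (x : Fin 4 → ℝ), Cub k x →
      B.Holds x (Real.cos (Real.pi / p)) (Real.cos (Real.pi / q)) (Real.cos (Real.pi / r)) (θ / 6) →
      ¬ (1 ≤ fA (Real.cos (Real.pi / p)) (Real.cos (Real.pi / q)) (Real.cos (Real.pi / r)) (Real.cos θ) ∧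
        0 ≤ fB (Real.cos (Real.pi / p)) (Real.cos (Real.pi / q)) (Real.cos (Real.pi / r)) (Real.cos θ))

theorem Outs.good {K : ℕ → ℕ → ℕ → Prop} {k : ℕ} {B : Bx4} (h : Outs K k B) : Good K k B := by
  intro p q r hp hpq hqr hr hK θ n x hx hB hT hA hBB
  exact absurd ⟨hA, hBB⟩ (h p q r hp hpq hqr hK θ x hx hB)

/-! ### Halving -/

/-- The coefficient. -/
def Lin.cf (L : Lin) (j : Fin 4) : Int := match j with
  | 0 => L.a1
  | 1 => L.a2
  | 2 => L.a3
  | 3 => L.a4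

/-- Half of the box, `s = true` is the upper half. -/
def Lin.half (j : Fin 4) (s : Bool) (L : Lin) : Lin :=
  let h := L.cf j / 2
  let v := if s then L.v + h else L.v - h
  let r := L.r + (L.cf j - 2 * h).toNat
  match j with
  | 0 => ⟨v, h, L.a2, L.a3, L.a4, r⟩
  | 1 => ⟨v, L.a1, h, L.a3, L.a4, r⟩
  | 2 => ⟨v, L.a1, L.a2, h, L.a4, r⟩
  | 3 => ⟨v, L.a1, L.a2, L.a3, h, r⟩

def Bx4.half (j : Fin 4) (s : Bool) (B : Bx4) : Bx4 := ⟨B.a.half j s, B.b.half j s, B.c.half j s, B.t.half j s⟩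

/-- The new coordinate. -/
noncomputable def hx (j : Fin 4) (s : Bool) (x : Fin 4 → ℝ) : Fin 4 → ℝ :=
  Function.update x j (if s then 2 * x j - 1 else 2 * x j + 1)

/-- The value of the affine function. -/
noncomputable def Lin.val (L : Lin) (x : Fin 4 → ℝ) : ℝ := L.v + L.a1 * x 0 + L.a2 * x 1 + L.a3 * x 2 + L.a4 * x 3

theorem Lin.half_val (L : Lin) (x : Fin 4 → ℝ) (j : Fin 4) (s : Bool) :
    (L.half j s).val (hx j s x) = L.val x - ((L.cf j - 2 * (L.cf j / 2) : Int) : ℝ) * x j := by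
  obtain ⟨v, a1, a2, a3, a4, r⟩ := L
  fin_cases j
  · cases s
    · show ((v - a1 / 2 : Int) : ℝ) + (a1 / 2 : Int) * (2 * x 0 + 1) + a2 * x 1 + a3 * x 2 + a4 * x 3 =
        (v + a1 * x 0 + a2 * x 1 + a3 * x 2 + a4 * x 3) - ((a1 - 2 * (a1 / 2) : Int) : ℝ) * x 0
      push_cast
      ring
    · show ((v + a1 / 2 : Int) : ℝ) + (a1 / 2 : Int) * (2 * x 0 - 1) + a2 * x 1 + a3 * x 2 + a4 * x 3 =
        (v + a1 * x 0 + a2 * x 1 + a3 * x 2 + a4 * x 3) - ((a1 - 2 * (a1 / 2) : Int) : ℝ) * x 0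
      push_cast
      ring
  · cases s
    · show ((v - a2 / 2 : Int) : ℝ) + a1 * x 0 + (a2 / 2 : Int) * (2 * x 1 + 1) + a3 * x 2 + a4 * x 3 =
        (v + a1 * x 0 + a2 * x 1 + a3 * x 2 + a4 * x 3) - ((a2 - 2 * (a2 / 2) : Int) : ℝ) * x 1
      push_cast
      ring
    · show ((v + a2 / 2 : Int) : ℝ) + a1 * x 0 + (a2 / 2 : Int) * (2 * x 1 - 1) + a3 * x 2 + a4 * x 3 =
        (v + a1 * x 0 + a2 * x 1 + a3 * x 2 + a4 * x 3) - ((a2 - 2 * (a2 / 2) : Int) : ℝ) * x 1
      push_cast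
      ring
  · cases s
    · show ((v - a3 / 2 : Int) : ℝ) + a1 * x 0 + a2 * x 1 + (a3 / 2 : Int) * (2 * x 2 + 1) + a4 * x 3 =
        (v + a1 * x 0 + a2 * x 1 + a3 * x 2 + a4 * x 3) - ((a3 - 2 * (a3 / 2) : Int) : ℝ) * x 2
      push_cast
      ring
    · show ((v + a3 / 2 : Int) : ℝ) + a1 * x 0 + a2 * x 1 + (a3 / 2 : Int) * (2 * x 2 - 1) + a4 * x 3 =
        (v + a1 * x 0 + a2 * x 1 + a3 * x 2 + a4 * x 3) - ((a3 - 2 * (a3 / 2) : Int) : ℝ) * x 2
      push_cast
      ring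
  · cases s
    · show ((v - a4 / 2 : Int) : ℝ) + a1 * x 0 + a2 * x 1 + a3 * x 2 + (a4 / 2 : Int) * (2 * x 3 + 1) =
        (v + a1 * x 0 + a2 * x 1 + a3 * x 2 + a4 * x 3) - ((a4 - 2 * (a4 / 2) : Int) : ℝ) * x 3
      push_cast
      ring
    · show ((v + a4 / 2 : Int) : ℝ) + a1 * x 0 + a2 * x 1 + a3 * x 2 + (a4 / 2 : Int) * (2 * x 3 - 1) =
        (v + a1 * x 0 + a2 * x 1 + a3 * x 2 + a4 * x 3) - ((a4 - 2 * (a4 / 2) : Int) : ℝ) * x 3
      push_cast
      ring

theorem Lin.half_r (L : Lin) (j : Fin 4) (s : Bool) : (L.half j s).r = L.r + (L.cf j - 2 * (L.cf j / 2)).toNat := by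
  fin_cases j <;> rfl

theorem Lin.half_holds {L : Lin} {x : Fin 4 → ℝ} {y : ℝ} (j : Fin 4) (s : Bool) (hj : |x j| ≤ 1) (h : L.Holds x y) :
    (L.half j s).Holds (hx j s x) y := by
  have hr0 : 0 ≤ L.cf j - 2 * (L.cf j / 2) := by omega
  have hnat : (((L.cf j - 2 * (L.cf j / 2)).toNat : ℕ) : ℝ) = ((L.cf j - 2 * (L.cf j / 2) : Int) : ℝ) := by
    have : (((L.cf j - 2 * (L.cf j / 2)).toNat : ℕ) : Int) = L.cf j - 2 * (L.cf j / 2) := Int.toNat_of_nonneg hr0
    exact_mod_cast congrArg (fun z : Int => (z : ℝ)) this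
  have hρ0 : (0 : ℝ) ≤ ((L.cf j - 2 * (L.cf j / 2) : Int) : ℝ) := by exact_mod_cast hr0
  have h' : |y * 281474976710656 - L.val x| ≤ L.r := h
  show |y * 281474976710656 - (L.half j s).val (hx j s x)| ≤ (L.half j s).r
  rw [L.half_val, L.half_r]
  push_cast
  push_cast at hnat hρ0
  rw [hnat]
  set ρ : ℝ := ((L.cf j : Int) : ℝ) - 2 * ((L.cf j / 2 : Int) : ℝ) with hρ
  have hb : |ρ * x j| ≤ ρ := by
    rw [abs_mul, abs_of_nonneg hρ0]
    nlinarith
  rw [abs_le] at hb h' ⊢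
  constructor <;> linarith [hb.1, hb.2, h'.1, h'.2]

theorem hx_cub {k : ℕ} {x : Fin 4 → ℝ} (h : Cub k x) {j : Fin 4} (hj : (j : ℕ) < k) :
    ∃ s, Cub k (hx j s x) := by
  have h1 := h.le j
  rw [abs_le] at h1
  rcases le_total (x j) 0 with h0 | h0
  · refine ⟨false, ⟨fun i => ?_, fun i hi => ?_⟩⟩
    · unfold hx
      by_cases hij : i = j
      · subst hij
        rw [Function.update_self, abs_le]
        constructor <;> simp <;> linarith
      · rw [Function.update_of_ne hij]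
        exact h.le i
    · unfold hx
      have hij : i ≠ j := by
        rintro rfl
        omega
      rw [Function.update_of_ne hij]
      exact h.zr i hi
  · refine ⟨true, ⟨fun i => ?_, fun i hi => ?_⟩⟩
    · unfold hx
      by_cases hij : i = j
      · subst hij
        rw [Function.update_self, abs_le]
        constructor <;> simp <;> linarith
      · rw [Function.update_of_ne hij]
        exact h.le i
    · unfold hx
      have hij : i ≠ j := by
        rintro rfl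
        omega
      rw [Function.update_of_ne hij]
      exact h.zr i hi

theorem Bx4.half_holds {B : Bx4} {k : ℕ} {x : Fin 4 → ℝ} {a b c t : ℝ} (h : Cub k x) (j : Fin 4) (s : Bool)
    (hB : B.Holds x a b c t) : (B.half j s).Holds (hx j s x) a b c t :=
  ⟨Lin.half_holds j s (h.le j) hB.a, Lin.half_holds j s (h.le j) hB.b, Lin.half_holds j s (h.le j) hB.c,
    Lin.half_holds j s (h.le j) hB.t⟩

theorem Good.split {K : ℕ → ℕ → ℕ → Prop} {k : ℕ} {B : Bx4} (j : Fin 4) (hj : (j : ℕ) < k)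
    (h0 : Good K k (B.half j false)) (h1 : Good K k (B.half j true)) : Good K k B := by
  intro p q r hp hpq hqr hr hK θ n x hx hB hT hA hBB
  obtain ⟨s, hs⟩ := hx_cub hx hj
  cases s
  · exact h0 p q r hp hpq hqr hr hK θ n _ hs (B.half_holds hx j false hB) hT hA hBB
  · exact h1 p q r hp hpq hqr hr hK θ n _ hs (B.half_holds hx j true hB) hT hA hBB

theorem Outs.split {K : ℕ → ℕ → ℕ → Prop} {k : ℕ} {B : Bx4} (j : Fin 4) (hj : (j : ℕ) < k)
    (h0 : Outs K k (B.half j false)) (h1 : Outs K k (B.half j true)) : Outs K k B := by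
  intro p q r hp hpq hqr hK θ x hx hB
  obtain ⟨s, hs⟩ := hx_cub hx hj
  cases s
  · exact h0 p q r hp hpq hqr hK θ _ hs (B.half_holds hx j false hB)
  · exact h1 p q r hp hpq hqr hK θ _ hs (B.half_holds hx j true hB)

/-- Trees with data at the leaves. -/
inductive Tr (D : Type)
  | leaf (d : D)
  | node (j : Fin 4) (l r : Tr D)

/-- The check of a tree. -/
def Tr.chk {D : Type} (k : ℕ) (f : Bx4 → D → Bool) : Tr D → Bx4 → Bool
  | .leaf d, B => f B d
  | .node j l r, B => Nat.blt j.val k && (l.chk k f (B.half j false) && r.chk k f (B.half j true))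

theorem Tr.good {D : Type} {K : ℕ → ℕ → ℕ → Prop} {k : ℕ} {f : Bx4 → D → Bool} (hf : ∀ B d, f B d = true → Good K k B)
    (T : Tr D) : ∀ B, T.chk k f B = true → Good K k B := by
  induction T with
  | leaf d => intro B h; exact hf B d h
  | node j l r ihl ihr =>
    intro B h
    unfold Tr.chk at h
    simp only [Bool.and_eq_true] at h
    exact Good.split j (by simpa using h.1) (ihl _ h.2.1) (ihr _ h.2.2)

theorem Tr.outs {D : Type} {K : ℕ → ℕ → ℕ → Prop} {k : ℕ} {f : Bx4 → D → Bool} (hf : ∀ B d, f B d = true → Outs K k B)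
    (T : Tr D) : ∀ B, T.chk k f B = true → Outs K k B := by
  induction T with
  | leaf d => intro B h; exact hf B d h
  | node j l r ihl ihr =>
    intro B h
    unfold Tr.chk at h
    simp only [Bool.and_eq_true] at h
    exact Outs.split j (by simpa using h.1) (ihl _ h.2.1) (ihr _ h.2.2)

end Pool.Agent.Work.MP_88b7aa_gt.PQ
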