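import Pool.Agent.Work.MP_88b7aa_gt.PQ.Col

/-!
# Columns
-/

namespace Pool.Agent.Work.MP_88b7aa_gt.PQ

open Pool.Agent.Work.MP_88b7aa_gt.CH
open ComplexConjugate Complex Matrix

/-- Discreteness above a box of `(a, b, c)`, for all `θ ≥ 6 P / 2^48`. -/
def CGood (K : ℕ → ℕ → ℕ → Prop) (k : ℕ) (A B C P : Lin) : Prop :=
  ∀ (p q r : ℕ) (hp : 3 ≤ p) (_ : p ≤ q) (_ : q ≤ r) (_ : 4 ≤ r), K p q r → ∀ x : Fin 4 → ℝ, Cub k x →
    A.Holds x (Real.cos (Real.pi / p)) → B.Holds x (Real.cos (Real.pi / q)) → C.Holds x (Real.cos (Real.pi / r)) →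
    ∀ (θ : ℝ) (n : Fin 3 → Fin 3 → ℂ), P.val x / 281474976710656 ≤ θ / 6 → θ ≤ Real.pi → IsTriangle p q r θ n →
      1 ≤ fA (Real.cos (Real.pi / p)) (Real.cos (Real.pi / q)) (Real.cos (Real.pi / r)) (Real.cos θ) →
      0 ≤ fB (Real.cos (Real.pi / p)) (Real.cos (Real.pi / q)) (Real.cos (Real.pi / r)) (Real.cos θ) →
      DF (mcox p q r (by omega) (by omega) (by omega)) n

/-- The top of a linear model in the direction `x 0`. -/
def Lin.top (L : Lin) : Lin := ⟨L.v + L.a1, 0, L.a2, L.a3, L.a4, 0⟩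

/-- `L` at `x 0 = -1` is at most `P` on the cube; `P` does not depend on `x 0`. -/
def Lin.bot (L P : Lin) : Bool :=
  decide (0 < L.a1) && (decide (P.a1 = 0) &&
    decide (L.v - L.a1 - P.v + |L.a2 - P.a2| + |L.a3 - P.a3| + |L.a4 - P.a4| ≤ 0))

/-- `P ≥ 0` on the cube. -/
def Lin.nng (P : Lin) : Bool := decide (P.a1 = 0) && decide (|P.a2| + |P.a3| + |P.a4| ≤ P.v)

/-- A stack of boxes and the top. -/
def stk {D E : Type} (k : ℕ) (f : Bx4 → D → Bool) (g : Bx4 → E → Bool) (A B C : Lin) : Lin → List (Lin × Tr D) → Tr E → Bool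
  | P, [], T => P.nng && T.chk k g ⟨A, B, C, P⟩
  | P, (L, S) :: l, T => L.bot P && (S.chk k f ⟨A, B, C, L⟩ && stk k f g A B C L.top l T)

theorem Lin.val_update {L : Lin} (h : L.a1 = 0) (x : Fin 4 → ℝ) (y : ℝ) : L.val (Function.update x 0 y) = L.val x := by
  unfold Lin.val
  rw [h, Function.update_of_ne (show (1 : Fin 4) ≠ 0 by decide), Function.update_of_ne (show (2 : Fin 4) ≠ 0 by decide),
    Function.update_of_ne (show (3 : Fin 4) ≠ 0 by decide)]
  simp

theorem Lin.holds_update {L : Lin} (h : L.a1 = 0) {x : Fin 4 → ℝ} {z : ℝ} (hL : L.Holds x z) (y : ℝ) :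
    L.Holds (Function.update x 0 y) z := by
  have h' : |z * 281474976710656 - L.val x| ≤ L.r := hL
  show |z * 281474976710656 - L.val (Function.update x 0 y)| ≤ L.r
  rw [Lin.val_update h]
  exact h'

theorem cub_update {k : ℕ} (hk : 0 < k) {x : Fin 4 → ℝ} (h : Cub k x) {y : ℝ} (hy : |y| ≤ 1) : Cub k (Function.update x 0 y) := by
  refine ⟨fun i => ?_, fun i hi => ?_⟩
  · by_cases h0 : i = 0
    · subst h0
      rw [Function.update_self]
      exact hy
    · rw [Function.update_of_ne h0]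
      exact h.le i
  · have h0 : i ≠ 0 := by
      rintro rfl
      have : k ≤ 0 := hi
      omega
    rw [Function.update_of_ne h0]
    exact h.zr i hi

private theorem abs_mul_le {a : Int} {y : ℝ} (hy : |y| ≤ 1) : |(a : ℝ) * y| ≤ ((|a| : Int) : ℝ) := by
  rw [abs_mul]
  push_cast
  nlinarith [abs_nonneg (a : ℝ)]

/-- One slab. -/
theorem slab_good {K : ℕ → ℕ → ℕ → Prop} {k : ℕ} (hk : 0 < k) {A B C : Lin} (hA : A.a1 = 0) (hB : B.a1 = 0) (hC : C.a1 = 0)
    {L P : Lin} (hpos : 0 < L.a1) (hP0 : P.a1 = 0)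
    (hbot : L.v - L.a1 - P.v + |L.a2 - P.a2| + |L.a3 - P.a3| + |L.a4 - P.a4| ≤ 0) (hG : Good K k ⟨A, B, C, L⟩)
    (hI : CGood K k A B C L.top) : CGood K k A B C P := by
  intro p q r hp hpq hqr hr hK x hx ha hb hc θ n hθ hθπ hT hfA hfB
  have hposR : (0 : ℝ) < L.a1 := by exact_mod_cast hpos
  set y : ℝ := (θ / 6 * 281474976710656 - (L.v + L.a2 * x 1 + L.a3 * x 2 + L.a4 * x 3)) / L.a1 with hy
  have hy' : L.a1 * y = θ / 6 * 281474976710656 - (L.v + L.a2 * x 1 + L.a3 * x 2 + L.a4 * x 3) := by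
    rw [hy]
    field_simp
  rcases le_total y 1 with h1' | h1'
  · have hlow : -1 ≤ y := by
      have e1 := abs_mul_le (a := L.a2 - P.a2) (hx.le 1)
      have e2 := abs_mul_le (a := L.a3 - P.a3) (hx.le 2)
      have e3 := abs_mul_le (a := L.a4 - P.a4) (hx.le 3)
      have e4 : ((L.v - L.a1 - P.v + |L.a2 - P.a2| + |L.a3 - P.a3| + |L.a4 - P.a4| : Int) : ℝ) ≤ 0 := by exact_mod_cast hbot
      have e5 : P.val x ≤ θ / 6 * 281474976710656 := by
        have := hθ
        rw [div_le_iff₀ (by norm_num)] at this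
        exact this
      unfold Lin.val at e5
      rw [hP0] at e5
      rw [abs_le] at e1 e2 e3
      push_cast at e1 e2 e3 e4 e5
      have e6 : (L.a1 : ℝ) * (-1) ≤ L.a1 * y := by
        rw [hy']
        nlinarith [e1.2, e2.2, e3.2]
      exact le_of_mul_le_mul_left e6 hposR
    have hyy : |y| ≤ 1 := abs_le.mpr ⟨hlow, h1'⟩
    refine hG p q r hp hpq hqr hr hK θ n (Function.update x 0 y) (cub_update hk hx hyy)
      ⟨Lin.holds_update hA ha y, Lin.holds_update hB hb y, Lin.holds_update hC hc y, ?_⟩ hT hfA hfB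
    show |θ / 6 * 281474976710656 - L.val (Function.update x 0 y)| ≤ L.r
    have : θ / 6 * 281474976710656 - L.val (Function.update x 0 y) = 0 := by
      unfold Lin.val
      rw [Function.update_self, Function.update_of_ne (show (1 : Fin 4) ≠ 0 by decide),
        Function.update_of_ne (show (2 : Fin 4) ≠ 0 by decide), Function.update_of_ne (show (3 : Fin 4) ≠ 0 by decide), hy']
      ring
    rw [this, abs_zero]
    positivity
  · refine hI p q r hp hpq hqr hr hK x hx ha hb hc θ n ?_ hθπ hT hfA hfB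
    rw [div_le_iff₀ (by norm_num)]
    show ((L.v + L.a1 : Int) : ℝ) + ((0 : Int) : ℝ) * x 0 + L.a2 * x 1 + L.a3 * x 2 + L.a4 * x 3 ≤ _
    have : (L.a1 : ℝ) * 1 ≤ L.a1 * y := mul_le_mul_of_nonneg_left h1' hposR.le
    rw [hy'] at this
    push_cast
    linarith

theorem stk_good {D E : Type} {K : ℕ → ℕ → ℕ → Prop} {k : ℕ} (hk : 0 < k) {f : Bx4 → D → Bool} {g : Bx4 → E → Bool}
    (hf : ∀ B d, f B d = true → Good K k B) (hg : ∀ B d, g B d = true → Outs K k B) {A B C : Lin} (hA : A.a1 = 0)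
    (hB : B.a1 = 0) (hC : C.a1 = 0) (T : Tr E) (l : List (Lin × Tr D)) :
    ∀ P : Lin, stk k f g A B C P l T = true → CGood K k A B C P := by
  induction l with
  | nil =>
    intro P h
    unfold stk at h
    simp only [Bool.and_eq_true] at h
    obtain ⟨h1, h2⟩ := h
    unfold Lin.nng at h1
    simp only [Bool.and_eq_true, decide_eq_true_eq] at h1
    have hO := Tr.outs hg T _ h2
    intro p q r hp hpq hqr hr hK x hx ha hb hc θ n hθ hθπ hT hfA hfB
    exfalso
    set θ' : ℝ := 6 * (P.val x / 281474976710656) with hθ'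
    have hle : θ' ≤ θ := by rw [hθ']; linarith
    have h0 : 0 ≤ θ' := by
      have : 0 ≤ P.val x := by
        unfold Lin.val
        rw [h1.1]
        have e1 := abs_mul_le (a := P.a2) (hx.le 1)
        have e2 := abs_mul_le (a := P.a3) (hx.le 2)
        have e3 := abs_mul_le (a := P.a4) (hx.le 3)
        have e4 : (((|P.a2| : Int) : ℝ) + ((|P.a3| : Int) : ℝ) + ((|P.a4| : Int) : ℝ)) ≤ (P.v : ℝ) := by exact_mod_cast h1.2
        rw [abs_le] at e1 e2 e3
        simp only [Int.cast_zero, zero_mul]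
        linarith [e1.1, e2.1, e3.1]
      positivity
    obtain ⟨us, hu1, hu2, hus⟩ := Cb.Itv p q r hp hpq hqr hr
    have h3 := (hus (Real.cos θ) (Real.neg_one_le_cos θ) (Real.cos_le_one θ)).mp ⟨hfA, hfB⟩
    have h4 : Real.cos θ ≤ Real.cos θ' := Real.cos_le_cos_of_nonneg_of_le_pi h0 hθπ hle
    have h5 := (hus (Real.cos θ') (Real.neg_one_le_cos θ') (Real.cos_le_one θ')).mpr (h3.trans h4)
    refine hO p q r hp hpq hqr hK θ' x hx ⟨ha, hb, hc, ?_⟩ h5
    show |θ' / 6 * 281474976710656 - P.val x| ≤ P.r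
    have : θ' / 6 * 281474976710656 - P.val x = 0 := by
      rw [hθ']
      field_simp
      ring
    rw [this, abs_zero]
    positivity
  | cons y l ih =>
    obtain ⟨L, S⟩ := y
    intro P h
    unfold stk at h
    simp only [Bool.and_eq_true] at h
    obtain ⟨h1, h2, h3⟩ := h
    unfold Lin.bot at h1
    simp only [Bool.and_eq_true, decide_eq_true_eq] at h1
    obtain ⟨hpos, hP0, hbot⟩ := h1
    exact slab_good hk hA hB hC hpos hP0 hbot (Tr.good hf S _ h2) (ih _ h3)

/-- Columns: a stack, or two halves. -/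
inductive Cl (D E : Type)
  | stack (l : List (Lin × Tr D)) (T : Tr E)
  | node (j : Fin 4) (l r : Cl D E)

def Cl.chk {D E : Type} (k : ℕ) (f : Bx4 → D → Bool) (g : Bx4 → E → Bool) : Cl D E → Lin → Lin → Lin → Bool
  | .stack l T, A, B, C => stk k f g A B C ⟨0, 0, 0, 0, 0, 0⟩ l T
  | .node j l r, A, B, C => Nat.blt j.val k && (l.chk k f g (A.half j false) (B.half j false) (C.half j false) &&
      r.chk k f g (A.half j true) (B.half j true) (C.half j true))

theorem Lin.half_a1 {L : Lin} (h : L.a1 = 0) (j : Fin 4) (s : Bool) : (L.half j s).a1 = 0 := by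
  fin_cases j
  · show L.a1 / 2 = 0
    rw [h]
    rfl
  · exact h
  · exact h
  · exact h

theorem Cl.good {D E : Type} {K : ℕ → ℕ → ℕ → Prop} {k : ℕ} (hk : 0 < k) {f : Bx4 → D → Bool} {g : Bx4 → E → Bool}
    (hf : ∀ B d, f B d = true → Good K k B) (hg : ∀ B d, g B d = true → Outs K k B) (T : Cl D E) :
    ∀ A B C : Lin, A.a1 = 0 → B.a1 = 0 → C.a1 = 0 → T.chk k f g A B C = true → CGood K k A B C ⟨0, 0, 0, 0, 0, 0⟩ := by
  induction T with
  | stack l T =>
    intro A B C hA hB hC h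
    exact stk_good hk hf hg hA hB hC T l _ h
  | node j l r ihl ihr =>
    intro A B C hA hB hC h
    unfold Cl.chk at h
    simp only [Bool.and_eq_true] at h
    obtain ⟨h1, h2, h3⟩ := h
    have g0 := ihl _ _ _ (Lin.half_a1 hA j false) (Lin.half_a1 hB j false) (Lin.half_a1 hC j false) h2
    have g1 := ihr _ _ _ (Lin.half_a1 hA j true) (Lin.half_a1 hB j true) (Lin.half_a1 hC j true) h3
    intro p q r hp hpq hqr hr hK x hx ha hb hc θ n hθ hθπ hT hfA hfB
    have hz : ∀ x : Fin 4 → ℝ, Lin.val ⟨0, 0, 0, 0, 0, 0⟩ x = 0 := by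
      intro x
      unfold Lin.val
      simp
    rw [hz] at hθ
    obtain ⟨s, hs⟩ := hx_cub hx (j := j) (by simpa using h1)
    cases s
    · exact g0 p q r hp hpq hqr hr hK _ hs (Lin.half_holds j false (hx.le j) ha) (Lin.half_holds j false (hx.le j) hb)
        (Lin.half_holds j false (hx.le j) hc) θ n (by rw [hz]; exact hθ) hθπ hT hfA hfB
    · exact g1 p q r hp hpq hqr hr hK _ hs (Lin.half_holds j true (hx.le j) ha) (Lin.half_holds j true (hx.le j) hb)
        (Lin.half_holds j true (hx.le j) hc) θ n (by rw [hz]; exact hθ) hθπ hT hfA hfB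

end Pool.Agent.Work.MP_88b7aa_gt.PQ
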