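import Pool.Agent.Work.MP_88b7aa_gt.PQ.Col2

/-!
# Classes of triples
-/

namespace Pool.Agent.Work.MP_88b7aa_gt.PQ

open Pool.Agent.Work.MP_88b7aa_gt.CH
open ComplexConjugate Complex Matrix

/-- The order of a vertex: exactly `m`, or between `lo` and `hi` (`hi = 0`: at least `lo`). -/
inductive Side
  | ex (m : ℕ)
  | iv (lo hi : ℕ)

def Side.mem : Side → ℕ → Prop
  | .ex m, n => n = m
  | .iv lo hi, n => lo ≤ n ∧ (hi = 0 ∨ n ≤ hi)

/-- All coefficients except the one of `x i` vanish. -/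
def Lin.only (L : Lin) (i : Fin 4) : Bool :=
  (i == 0 || L.a1 == 0) && ((i == 1 || L.a2 == 0) && ((i == 2 || L.a3 == 0) && (i == 3 || L.a4 == 0)))

/-- The check of the model of a side; `cN m` is the numerator of `cos (π/m)` over `2^48`. -/
def Side.chk (cN : ℕ → Int) (i : Fin 4) (k : ℕ) (L : Lin) : Side → Bool
  | .ex m => decide (3 ≤ m) && (decide (m ≤ 20) && (L.only i && (decide (L.cf i = 0) && decide (|cN m - L.v| + 4 ≤ L.r))))
  | .iv lo hi => decide (3 ≤ lo) && (decide (lo ≤ 20) && (decide (hi = 0 ∨ (lo ≤ hi ∧ hi ≤ 20)) && (Nat.blt i.val k && (L.only i &&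
      (decide (0 < L.cf i) && (decide (L.v - L.cf i + 4 ≤ cN lo) &&
        decide (if hi = 0 then 281474976710656 ≤ L.v + L.cf i else cN hi + 4 ≤ L.v + L.cf i)))))))

/-- The numerators are correct. -/
def CosN (cN : ℕ → Int) : Prop := ∀ m : ℕ, 3 ≤ m → m ≤ 20 → |Real.cos (Real.pi / m) * 281474976710656 - cN m| ≤ 4

theorem Lin.only_val {L : Lin} {i : Fin 4} (h : L.only i = true) (x : Fin 4 → ℝ) : L.val x = L.v + L.cf i * x i := by
  unfold Lin.only at h
  simp only [Bool.and_eq_true, Bool.or_eq_true, beq_iff_eq] at h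
  obtain ⟨h0, h1, h2, h3⟩ := h
  unfold Lin.val
  fin_cases i
  · have e1 := h1.resolve_left (by decide)
    have e2 := h2.resolve_left (by decide)
    have e3 := h3.resolve_left (by decide)
    rw [e1, e2, e3]
    show (L.v : ℝ) + L.a1 * x 0 + _ * x 1 + _ * x 2 + _ * x 3 = L.v + L.a1 * x 0
    simp
  · have e1 := h0.resolve_left (by decide)
    have e2 := h2.resolve_left (by decide)
    have e3 := h3.resolve_left (by decide)
    rw [e1, e2, e3]
    show (L.v : ℝ) + _ * x 0 + L.a2 * x 1 + _ * x 2 + _ * x 3 = L.v + L.a2 * x 1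
    simp
  · have e1 := h0.resolve_left (by decide)
    have e2 := h1.resolve_left (by decide)
    have e3 := h3.resolve_left (by decide)
    rw [e1, e2, e3]
    show (L.v : ℝ) + _ * x 0 + _ * x 1 + L.a3 * x 2 + _ * x 3 = L.v + L.a3 * x 2
    simp
  · have e1 := h0.resolve_left (by decide)
    have e2 := h1.resolve_left (by decide)
    have e3 := h2.resolve_left (by decide)
    rw [e1, e2, e3]
    show (L.v : ℝ) + _ * x 0 + _ * x 1 + _ * x 2 + L.a4 * x 3 = L.v + L.a4 * x 3
    simp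

theorem cos_mono {m n : ℕ} (hm : 3 ≤ m) (h : m ≤ n) : Real.cos (Real.pi / m) ≤ Real.cos (Real.pi / n) := by
  have hm' : (3 : ℝ) ≤ m := by exact_mod_cast hm
  have hn' : (m : ℝ) ≤ n := by exact_mod_cast h
  have hpi := Real.pi_pos
  apply Real.cos_le_cos_of_nonneg_of_le_pi
  · positivity
  · rw [div_le_iff₀ (by linarith)]
    nlinarith
  · exact div_le_div_of_nonneg_left hpi.le (by linarith) hn'

theorem side_ex {cN : ℕ → Int} (hcN : CosN cN) {S : Side} {i : Fin 4} {k : ℕ} {L : Lin} (h : S.chk cN i k L = true) {n : ℕ}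
    (hn : S.mem n) : ∃ y : ℝ, |y| ≤ 1 ∧ (k ≤ (i : ℕ) → y = 0) ∧ ∀ x : Fin 4 → ℝ, x i = y → L.Holds x (Real.cos (Real.pi / n)) := by
  rcases S with m | ⟨lo, hi⟩
  · have hn' : n = m := hn
    subst hn'
    unfold Side.chk at h
    simp only [Bool.and_eq_true, decide_eq_true_eq] at h
    obtain ⟨h1, h2, h3, h4, h5⟩ := h
    refine ⟨0, by simp, fun _ => rfl, fun x hx => ?_⟩
    show |_ - L.val x| ≤ _
    rw [Lin.only_val h3, hx, mul_zero, add_zero]
    have e := hcN n h1 h2
    have e5 : |((cN n : Int) : ℝ) - L.v| + 4 ≤ L.r := by exact_mod_cast h5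
    rw [abs_le] at e ⊢
    have e6 := abs_le.mp (le_refl |((cN n : Int) : ℝ) - L.v|)
    constructor <;> linarith [e.1, e.2, e6.1, e6.2]
  · unfold Side.chk at h
    simp only [Bool.and_eq_true, decide_eq_true_eq] at h
    obtain ⟨h1, h2, h3, h4, h5, h6, h7, h8⟩ := h
    have hn' : lo ≤ n ∧ (hi = 0 ∨ n ≤ hi) := hn
    have hik : (i : ℕ) < k := by simpa using h4
    have hpos : (0 : ℝ) < L.cf i := by exact_mod_cast h6
    have elo := abs_le.mp (hcN lo h1 h2)
    have m1 := cos_mono h1 hn'.1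
    have e7 : ((L.v : Int) : ℝ) - L.cf i + 4 ≤ cN lo := by exact_mod_cast h7
    have low : (L.v : ℝ) - L.cf i ≤ Real.cos (Real.pi / n) * 281474976710656 := by linarith [elo.1]
    have upp : Real.cos (Real.pi / n) * 281474976710656 ≤ (L.v : ℝ) + L.cf i := by
      by_cases h0 : hi = 0
      · rw [if_pos h0] at h8
        have e8 : (281474976710656 : ℝ) ≤ (L.v : ℝ) + L.cf i := by exact_mod_cast h8
        have := Real.cos_le_one (Real.pi / n)
        linarith
      · rw [if_neg h0] at h8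
        have e8 : ((cN hi : Int) : ℝ) + 4 ≤ (L.v : ℝ) + L.cf i := by exact_mod_cast h8
        have h3' := h3.resolve_left h0
        have ehi := abs_le.mp (hcN hi (by omega) h3'.2)
        have m2 := cos_mono (m := n) (by omega) (hn'.2.resolve_left h0)
        linarith [ehi.2]
    refine ⟨(Real.cos (Real.pi / n) * 281474976710656 - L.v) / L.cf i, ?_, fun hh => absurd hh (by omega), fun x hx => ?_⟩
    · rw [abs_le]
      constructor
      · rw [le_div_iff₀ hpos]
        linarith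
      · rw [div_le_iff₀ hpos]
        linarith
    · show |_ - L.val x| ≤ _
      rw [Lin.only_val h5, hx]
      have : Real.cos (Real.pi / n) * 281474976710656 -
          (L.v + L.cf i * ((Real.cos (Real.pi / n) * 281474976710656 - L.v) / L.cf i)) = 0 := by
        field_simp
        ring
      rw [this, abs_zero]
      positivity

/-- The triples of a class. -/
def KS (SP SQ SR : Side) (p q r : ℕ) : Prop := SP.mem p ∧ SQ.mem q ∧ SR.mem r

/-- The final conclusion for a class. -/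
def Done (K : ℕ → ℕ → ℕ → Prop) : Prop :=
  ∀ (p q r : ℕ) (hp : 3 ≤ p) (_ : p ≤ q) (_ : q ≤ r) (_ : 4 ≤ r), K p q r →
    ∀ (θ : ℝ) (n : Fin 3 → Fin 3 → ℂ), 0 ≤ θ → θ ≤ Real.pi → IsTriangle p q r θ n →
      1 ≤ fA (Real.cos (Real.pi / p)) (Real.cos (Real.pi / q)) (Real.cos (Real.pi / r)) (Real.cos θ) →
      0 ≤ fB (Real.cos (Real.pi / p)) (Real.cos (Real.pi / q)) (Real.cos (Real.pi / r)) (Real.cos θ) →
      DF (mcox p q r (by omega) (by omega) (by omega)) n

theorem Side.chk_a1 {cN : ℕ → Int} {S : Side} {i : Fin 4} {k : ℕ} {L : Lin} (hi : i ≠ 0) (hS : S.chk cN i k L = true) :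
    L.a1 = 0 := by
  have ho : L.only i = true := by
    rcases S with m | ⟨lo, hi⟩
    · unfold Side.chk at hS
      simp only [Bool.and_eq_true] at hS
      exact hS.2.2.1
    · unfold Side.chk at hS
      simp only [Bool.and_eq_true] at hS
      exact hS.2.2.2.2.1
  unfold Lin.only at ho
  simp only [Bool.and_eq_true, Bool.or_eq_true, beq_iff_eq] at ho
  exact ho.1.resolve_left hi

/-- A class is done. -/
theorem CGood.done {cN : ℕ → Int} (hcN : CosN cN) {k : ℕ} {SP SQ SR : Side} {A B C : Lin} (h1 : SP.chk cN 3 k A = true)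
    (h2 : SQ.chk cN 2 k B = true) (h3 : SR.chk cN 1 k C = true) (hC : CGood (KS SP SQ SR) k A B C ⟨0, 0, 0, 0, 0, 0⟩) :
    Done (KS SP SQ SR) := by
  intro p q r hp hpq hqr hr hK θ n h0 hπ hT hA hB
  obtain ⟨ya, ya1, ya2, ya3⟩ := side_ex hcN h1 hK.1
  obtain ⟨yb, yb1, yb2, yb3⟩ := side_ex hcN h2 hK.2.1
  obtain ⟨yc, yc1, yc2, yc3⟩ := side_ex hcN h3 hK.2.2
  refine hC p q r hp hpq hqr hr hK ![0, yc, yb, ya] ⟨?_, ?_⟩ (ya3 _ rfl) (yb3 _ rfl) (yc3 _ rfl) θ n ?_ hπ hT hA hB
  · intro i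
    fin_cases i
    · show |(0 : ℝ)| ≤ 1
      simp
    · exact yc1
    · exact yb1
    · exact ya1
  · intro i hi
    fin_cases i
    · rfl
    · exact yc2 hi
    · exact yb2 hi
    · exact ya2 hi
  · have : Lin.val ⟨0, 0, 0, 0, 0, 0⟩ ![0, yc, yb, ya] = 0 := by
      unfold Lin.val
      simp
    rw [this]
    simp only [zero_div]
    linarith

/-- A class is done. -/
theorem column {D E : Type} {cN : ℕ → Int} (hcN : CosN cN) {k : ℕ} (hk : 0 < k) {f : Bx4 → D → Bool} {g : Bx4 → E → Bool}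
    (SP SQ SR : Side) (hf : ∀ B d, f B d = true → Good (KS SP SQ SR) k B) (hg : ∀ B d, g B d = true → Outs (KS SP SQ SR) k B)
    (A B C : Lin) (T : Cl D E)
    (h : (SP.chk cN 3 k A && (SQ.chk cN 2 k B && (SR.chk cN 1 k C && T.chk k f g A B C))) = true) :
    Done (KS SP SQ SR) := by
  simp only [Bool.and_eq_true] at h
  obtain ⟨h1, h2, h3, h4⟩ := h
  exact CGood.done hcN h1 h2 h3
    (Cl.good hk hf hg T A B C (Side.chk_a1 (by decide) h1) (Side.chk_a1 (by decide) h2) (Side.chk_a1 (by decide) h3) h4)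

end Pool.Agent.Work.MP_88b7aa_gt.PQ
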