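import Pool.Agent.Work.MP_88b7aa_gt.PQ.Abs
import Pool.Agent.Work.MP_88b7aa_gt.CH.Obj
import Pool.Agent.Work.MP_88b7aa_gt.CH.Disc

/-!
# Coordinates in the basis of the polar vectors

`z = x 0 • n 0 + x 1 • n 1 + x 2 • n 2`.  A form is a matrix `Q`, its value is `Re (x^* Q x)`; the Hermitian form is the Gram
matrix `Gr n`, `(Gr n) i j = ⟨n j, n i⟩`; the reflection `I_i` is `x ↦ -x + 2 (∑_b G i b x b) e_i`.
-/

namespace Pool.Agent.Work.MP_88b7aa_gt.PQ

open Pool.Agent.Work.MP_88b7aa_gt.CH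
open ComplexConjugate Complex Matrix

/-- The Gram matrix. -/
def Gr (n : Fin 3 → Fin 3 → ℂ) : Matrix (Fin 3) (Fin 3) ℂ := fun i j => herm (n j) (n i)

/-- The value of the form `Q` at `x`. -/
def qf (Q : Matrix (Fin 3) (Fin 3) ℂ) (x : Fin 3 → ℂ) : ℝ := (∑ i, ∑ j, conj (x i) * Q i j * x j).re

/-- The matrix of the reflection `I_i`. -/
def Sg (G : Matrix (Fin 3) (Fin 3) ℂ) (i : Fin 3) : Matrix (Fin 3) (Fin 3) ℂ :=
  fun a b => (if a = i then 2 * G i b else 0) - (if a = b then 1 else 0)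

/-- `I_i I_j I_i ...` (`m` factors). -/
def altS (G : Matrix (Fin 3) (Fin 3) ℂ) : Fin 3 → Fin 3 → ℕ → Matrix (Fin 3) (Fin 3) ℂ
  | _, _, 0 => 1
  | i, j, m + 1 => Sg G i * altS G j i m

/-- The matrix with columns `n 0`, `n 1`, `n 2`. -/
def Nm (n : Fin 3 → Fin 3 → ℂ) : Matrix (Fin 3) (Fin 3) ℂ := fun a i => n i a

theorem Nm_det (n : Fin 3 → Fin 3 → ℂ) : (Nm n).det = Dt n := by
  have : Nm n = (Matrix.of n)ᵀ := rfl
  rw [this, Matrix.det_transpose]
  rfl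

theorem refl_Nm (n : Fin 3 → Fin 3 → ℂ) (i : Fin 3) : refl (n i) * Nm n = Nm n * Sg (Gr n) i := by
  ext a b
  simp only [Matrix.mul_apply, Fin.sum_univ_three, CH.refl, Nm, Sg, Gr, herm]
  fin_cases i <;> fin_cases a <;> fin_cases b <;> simp <;> ring

theorem qf_Gr (n : Fin 3 → Fin 3 → ℂ) (x : Fin 3 → ℂ) :
    qf (Gr n) x = (herm (Nm n *ᵥ x) (Nm n *ᵥ x)).re := by
  unfold qf
  congr 1
  simp only [Matrix.mulVec, dotProduct, Fin.sum_univ_three, Nm, Gr, herm, map_add, map_mul]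
  ring

theorem qf_cont (Q : Matrix (Fin 3) (Fin 3) ℂ) : Continuous (qf Q) := by
  unfold qf
  fun_prop

theorem qf_smul (Q : Matrix (Fin 3) (Fin 3) ℂ) (μ : ℂ) (hμ : ‖μ‖ = 1) (x : Fin 3 → ℂ) : qf Q (μ • x) = qf Q x := by
  unfold qf
  congr 1
  refine Finset.sum_congr rfl fun i _ => Finset.sum_congr rfl fun j _ => ?_
  have h : μ * conj μ = 1 := by
    rw [Complex.mul_conj, Complex.normSq_eq_norm_sq, hμ]
    norm_num
  simp only [Pi.smul_apply, smul_eq_mul, map_mul]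
  linear_combination (conj (x i) * Q i j * x j) * h

/-- invariant under multiplication by unit scalars -/
def UI (P : Set (Fin 3 → ℂ)) : Prop := ∀ μ : ℂ, ‖μ‖ = 1 → ∀ x ∈ P, μ • x ∈ P

theorem act_alt {M : CoxeterMatrix (Fin 3)} (n : Fin 3 → Fin 3 → ℂ) (hD : Dt n ≠ 0)
    (ρ : M.Group →* Matrix (Fin 3) (Fin 3) ℂ) (hρ : ∀ i, ρ (M.simple i) = refl (n i)) (l : ℕ) : ∀ i j : Fin 3,
    (Nm n)⁻¹ * ρ (alt M.toCoxeterSystem i j l) * Nm n = altS (Gr n) i j l := by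
  have hdet : IsUnit (Nm n).det := by rw [Nm_det]; exact isUnit_iff_ne_zero.2 hD
  induction l with
  | zero =>
    intro i j
    have e : alt M.toCoxeterSystem i j 0 = 1 := rfl
    rw [e, map_one, Matrix.mul_one, Matrix.nonsing_inv_mul _ hdet]
    rfl
  | succ l ih =>
    intro i j
    have e : alt M.toCoxeterSystem i j (l + 1) = M.simple i * alt M.toCoxeterSystem j i l := by
      show M.toCoxeterSystem.simple i * _ = _
      rw [CoxeterMatrix.toCoxeterSystem_simple]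
    have e2 : altS (Gr n) i j (l + 1) = Sg (Gr n) i * altS (Gr n) j i l := rfl
    have e3 : (Nm n)⁻¹ * refl (n i) = Sg (Gr n) i * (Nm n)⁻¹ := by
      have h := refl_Nm n i
      calc (Nm n)⁻¹ * refl (n i) = (Nm n)⁻¹ * (refl (n i) * Nm n) * (Nm n)⁻¹ := by
            rw [Matrix.mul_assoc, Matrix.mul_assoc, Matrix.mul_nonsing_inv _ hdet, Matrix.mul_one]
        _ = Sg (Gr n) i * (Nm n)⁻¹ := by
            rw [h, ← Matrix.mul_assoc, Matrix.nonsing_inv_mul _ hdet, Matrix.one_mul]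
    rw [e, map_mul, hρ, ← Matrix.mul_assoc, e3, Matrix.mul_assoc, Matrix.mul_assoc, e2]
    congr 1
    rw [← Matrix.mul_assoc]
    exact ih j i

end Pool.Agent.Work.MP_88b7aa_gt.PQ
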