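import Pool.Agent.Work.MP_88b7aa_gt.PQ.Crd
import Pool.Agent.Work.MP_88b7aa_gt.CH.Rep

/-!
# Discreteness in coordinates, with an explicit constant

`DFw M G ε`: in the basis of the polar vectors (Gram matrix `G`), every word which is not `1` in the Coxeter group is at distance
at least `ε` from the unit scalars.  It is a closed condition on `G`.
-/

namespace Pool.Agent.Work.MP_88b7aa_gt.PQ

open Pool.Agent.Work.MP_88b7aa_gt.CH
open ComplexConjugate Complex Matrix

def DFw (M : CoxeterMatrix (Fin 3)) (G : Matrix (Fin 3) (Fin 3) ℂ) (ε : ℝ) : Prop :=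
  ∀ l : List (Fin 3), M.toCoxeterSystem.wordProd l ≠ 1 → ∀ μ : ℂ, ‖μ‖ = 1 →
    ∃ i j : Fin 3, ε ≤ ‖(l.map (Sg G)).prod i j - (if i = j then μ else 0)‖

theorem rho_word {M : CoxeterMatrix (Fin 3)} {G : Matrix (Fin 3) (Fin 3) ℂ}
    (ρ : M.Group →* Matrix (Fin 3) (Fin 3) ℂ) (hρ : ∀ i, ρ (M.simple i) = Sg G i) (l : List (Fin 3)) :
    ρ (M.toCoxeterSystem.wordProd l) = (l.map (Sg G)).prod := by
  induction l with
  | nil => simp
  | cons a l ih =>
    rw [CoxeterSystem.wordProd_cons, map_mul, ih, List.map_cons, List.prod_cons,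
      CoxeterMatrix.toCoxeterSystem_simple, hρ]

theorem rho_alt {M : CoxeterMatrix (Fin 3)} {G : Matrix (Fin 3) (Fin 3) ℂ}
    (ρ : M.Group →* Matrix (Fin 3) (Fin 3) ℂ) (hρ : ∀ i, ρ (M.simple i) = Sg G i) (l : ℕ) : ∀ i j : Fin 3,
    ρ (alt M.toCoxeterSystem i j l) = altS G i j l := by
  induction l with
  | zero =>
    intro i j
    have e : alt M.toCoxeterSystem i j 0 = 1 := rfl
    rw [e, map_one]
    rfl
  | succ l ih =>
    intro i j
    have e : alt M.toCoxeterSystem i j (l + 1) = M.simple i * alt M.toCoxeterSystem j i l := by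
      show M.toCoxeterSystem.simple i * _ = _
      rw [CoxeterMatrix.toCoxeterSystem_simple]
    have e2 : altS G i j (l + 1) = Sg G i * altS G j i l := rfl
    rw [e, map_mul, hρ, ih, e2]

/-- A ping-pong set around `o` gives the explicit constant. -/
theorem DFw_of_set (M : CoxeterMatrix (Fin 3)) (G : Matrix (Fin 3) (Fin 3) ℂ)
    (ρ : M.Group →* Matrix (Fin 3) (Fin 3) ℂ) (hρ : ∀ i, ρ (M.simple i) = Sg G i)
    (O : Set (Fin 3 → ℂ)) (o : Fin 3 → ℂ) (δ : ℝ) (hδ : 0 < δ) (hball : Metric.ball o δ ⊆ O)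
    (hU : UI O) (hpp : ∀ g : M.Group, g ≠ 1 → ∀ x ∈ O, (ρ g).mulVec x ∉ O) :
    DFw M G (δ / (4 * (‖o‖ + 1))) := by
  intro w hw μ hμ
  by_contra hcon
  push Not at hcon
  set g := M.toCoxeterSystem.wordProd w with hg
  rw [← rho_word ρ hρ w] at hcon
  set L : ℝ := ‖o‖ + 1 with hL
  have hL0 : 0 < L := by positivity
  set ε : ℝ := δ / (4 * L) with hε
  have hε0 : 0 < ε := by positivity
  have hμ0 : μ ≠ 0 := by
    intro h
    rw [h] at hμ
    simp at hμ
  have hz : ∀ j, ‖o j‖ ≤ L := fun j => (norm_le_pi_norm o j).trans (by rw [hL]; linarith)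
  have key : ∀ i, ‖((ρ g).mulVec o i) - μ * o i‖ ≤ 3 * ε * L := by
    intro i
    have e1 : ((ρ g).mulVec o i) - μ * o i =
        ∑ j, (ρ g i j - (if i = j then μ else 0)) * o j := by
      simp only [Matrix.mulVec, dotProduct, sub_mul, Finset.sum_sub_distrib]
      congr 1
      simp [ite_mul]
    rw [e1]
    calc ‖∑ j, (ρ g i j - (if i = j then μ else 0)) * o j‖
        ≤ ∑ j : Fin 3, ‖(ρ g i j - (if i = j then μ else 0)) * o j‖ := norm_sum_le _ _
      _ ≤ ∑ j : Fin 3, ε * L := by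
          apply Finset.sum_le_sum
          intro j _
          rw [norm_mul]
          exact mul_le_mul (hcon i j).le (hz j) (norm_nonneg _) hε0.le
      _ = 3 * ε * L := by simp; ring
  have h3 : 3 * ε * L < δ := by
    have : ε * (4 * L) = δ := by
      rw [hε]
      field_simp
    nlinarith [mul_pos hε0 hL0]
  have hmem : μ⁻¹ • (ρ g).mulVec o ∈ O := by
    apply hball
    rw [Metric.mem_ball, dist_eq_norm, pi_norm_lt_iff hδ]
    intro i
    have e2 : (μ⁻¹ • (ρ g).mulVec o - o) i = μ⁻¹ * (((ρ g).mulVec o i) - μ * o i) := by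
      simp only [Pi.sub_apply, Pi.smul_apply, smul_eq_mul]
      field_simp
    rw [e2, norm_mul, norm_inv, hμ, inv_one, one_mul]
    exact (key i).trans_lt h3
  have hmem2 : (ρ g).mulVec o ∈ O := by
    have := hU μ hμ _ hmem
    rwa [smul_smul, mul_inv_cancel₀ hμ0, one_smul] at this
  exact hpp g hw o (hball (Metric.mem_ball_self hδ)) hmem2

/-- The condition is closed. -/
theorem DFw_lim (M : CoxeterMatrix (Fin 3)) (G : Matrix (Fin 3) (Fin 3) ℂ) (Gk : ℕ → Matrix (Fin 3) (Fin 3) ℂ)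
    (hG : ∀ i j, Filter.Tendsto (fun k => Gk k i j) Filter.atTop (nhds (G i j))) (ε : ℝ)
    (h : ∀ k, DFw M (Gk k) ε) : DFw M G ε := by
  intro w hw μ hμ
  by_contra hcon
  push Not at hcon
  have hS : ∀ i a b, Filter.Tendsto (fun k => Sg (Gk k) i a b) Filter.atTop (nhds (Sg G i a b)) := by
    intro i a b
    unfold Sg
    refine Filter.Tendsto.sub ?_ tendsto_const_nhds
    by_cases ha : a = i
    · simp only [ha, if_true]
      exact (hG i b).const_mul 2
    · simp only [ha, if_false]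
      exact tendsto_const_nhds
  have hP : ∀ l : List (Fin 3), ∀ a b, Filter.Tendsto (fun k => (l.map (Sg (Gk k))).prod a b) Filter.atTop
      (nhds ((l.map (Sg G)).prod a b)) := by
    intro l
    induction l with
    | nil => intro a b; simp only [List.map_nil, List.prod_nil]; exact tendsto_const_nhds
    | cons i l ih =>
      intro a b
      simp only [List.map_cons, List.prod_cons, Matrix.mul_apply]
      refine tendsto_finsetSum _ fun c _ => ?_
      exact (hS i a c).mul (ih c b)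
  have hev : ∀ i j, ∀ᶠ k in Filter.atTop, ‖(w.map (Sg (Gk k))).prod i j - (if i = j then μ else 0)‖ < ε := by
    intro i j
    have h1 := ((hP w i j).sub (tendsto_const_nhds (x := (if i = j then μ else 0)))).norm
    exact h1.eventually (gt_mem_nhds (hcon i j))
  have hev2 : ∀ᶠ k in Filter.atTop, ∀ i j, ‖(w.map (Sg (Gk k))).prod i j - (if i = j then μ else 0)‖ < ε := by
    rw [Filter.eventually_all]
    intro i
    rw [Filter.eventually_all]
    exact hev i
  obtain ⟨k, hk⟩ := hev2.exists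
  obtain ⟨i, j, hij⟩ := h k w hw μ hμ
  exact absurd (hk i j) (not_lt.2 hij)

/-- Transport to the standard coordinates. -/
theorem DF_of_DFw (M : CoxeterMatrix (Fin 3)) (n : Fin 3 → Fin 3 → ℂ) (hD : Dt n ≠ 0)
    (ρ : M.Group →* Matrix (Fin 3) (Fin 3) ℂ) (hρ : ∀ i, ρ (M.simple i) = CH.refl (n i))
    (ε : ℝ) (hε : 0 < ε) (h : DFw M (Gr n) ε) : DF M n := by
  have hdet : IsUnit (Nm n).det := by rw [Nm_det]; exact isUnit_iff_ne_zero.2 hD
  set N := Nm n with hN
  set A : ℝ := 1 + ∑ i, ∑ a, ‖N⁻¹ i a‖ with hA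
  set B : ℝ := 1 + ∑ b, ∑ j, ‖N b j‖ with hB
  have hA0 : 0 < A := by positivity
  have hB0 : 0 < B := by positivity
  refine ⟨ρ, hρ, ε / (2 * (A * B)), by positivity, ?_⟩
  intro g hg μ hμ
  by_contra hcon
  push Not at hcon
  obtain ⟨w, hw⟩ := M.toCoxeterSystem.wordProd_surjective g
  have hword : ∀ l : List (Fin 3), N⁻¹ * ρ (M.toCoxeterSystem.wordProd l) * N = (l.map (Sg (Gr n))).prod := by
    intro l
    induction l with
    | nil => simp [Matrix.nonsing_inv_mul _ hdet]
    | cons a l ih =>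
      have h1 : N⁻¹ * CH.refl (n a) = Sg (Gr n) a * N⁻¹ := by
        have h := refl_Nm n a
        calc N⁻¹ * CH.refl (n a) = N⁻¹ * (CH.refl (n a) * N) * N⁻¹ := by
              rw [Matrix.mul_assoc, Matrix.mul_assoc, Matrix.mul_nonsing_inv _ hdet, Matrix.mul_one]
          _ = Sg (Gr n) a * N⁻¹ := by
              rw [h, ← Matrix.mul_assoc, Matrix.nonsing_inv_mul _ hdet, Matrix.one_mul]
      rw [CoxeterSystem.wordProd_cons, map_mul, CoxeterMatrix.toCoxeterSystem_simple, hρ, List.map_cons,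
        List.prod_cons, ← ih, ← Matrix.mul_assoc, h1]
      simp only [Matrix.mul_assoc]
  obtain ⟨i, j, hij⟩ := h w (by rw [hw]; exact hg) μ hμ
  set E : Matrix (Fin 3) (Fin 3) ℂ := ρ g - μ • 1 with hE
  have hEe : ∀ a b, ‖E a b‖ ≤ ε / (2 * (A * B)) := by
    intro a b
    have := (hcon a b).le
    rw [hE, Matrix.sub_apply, Matrix.smul_apply, Matrix.one_apply]
    simpa [smul_eq_mul, mul_ite] using this
  have e1 : (w.map (Sg (Gr n))).prod i j - (if i = j then μ else 0) = (N⁻¹ * E * N) i j := by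
    rw [← hword w, hw, hE]
    have e2 : N⁻¹ * (ρ g - μ • (1 : Matrix (Fin 3) (Fin 3) ℂ)) * N = N⁻¹ * ρ g * N - μ • (1 : Matrix (Fin 3) (Fin 3) ℂ) := by
      rw [Matrix.mul_sub, Matrix.sub_mul, Matrix.mul_smul, Matrix.mul_one, Matrix.smul_mul,
        Matrix.nonsing_inv_mul _ hdet]
    rw [e2, Matrix.sub_apply, Matrix.smul_apply, Matrix.one_apply]
    simp [smul_eq_mul, mul_ite]
  rw [e1] at hij
  have e3 : (N⁻¹ * E * N) i j = ∑ b, ∑ a, N⁻¹ i a * E a b * N b j := by
    simp only [Matrix.mul_apply, Finset.sum_mul]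
  have h4 : ‖(N⁻¹ * E * N) i j‖ ≤ ε / (2 * (A * B)) * (A * B) := by
    rw [e3]
    calc ‖∑ b, ∑ a, N⁻¹ i a * E a b * N b j‖ ≤ ∑ b, ∑ a, ‖N⁻¹ i a‖ * (ε / (2 * (A * B))) * ‖N b j‖ := by
          refine (norm_sum_le _ _).trans (Finset.sum_le_sum fun b _ => ?_)
          refine (norm_sum_le _ _).trans (Finset.sum_le_sum fun a _ => ?_)
          rw [norm_mul, norm_mul]
          exact mul_le_mul_of_nonneg_right (mul_le_mul_of_nonneg_left (hEe a b) (norm_nonneg _)) (norm_nonneg _)
      _ = ε / (2 * (A * B)) * ((∑ a, ‖N⁻¹ i a‖) * (∑ b, ‖N b j‖)) := by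
          rw [Finset.sum_mul_sum, Finset.sum_comm, Finset.mul_sum]
          refine Finset.sum_congr rfl fun a _ => ?_
          rw [Finset.mul_sum]
          refine Finset.sum_congr rfl fun b _ => ?_
          ring
      _ ≤ ε / (2 * (A * B)) * (A * B) := by
          refine mul_le_mul_of_nonneg_left ?_ (by positivity)
          refine mul_le_mul ?_ ?_ (by positivity) hA0.le
          · rw [hA]
            have : ∑ a, ‖N⁻¹ i a‖ ≤ ∑ i, ∑ a, ‖N⁻¹ i a‖ :=
              Finset.single_le_sum (f := fun i : Fin 3 => ∑ a, ‖N⁻¹ i a‖) (fun i _ => by positivity) (Finset.mem_univ i)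
            linarith
          · rw [hB, Finset.sum_comm]
            have : ∑ b, ‖N b j‖ ≤ ∑ j, ∑ b, ‖N b j‖ :=
              Finset.single_le_sum (f := fun j : Fin 3 => ∑ b, ‖N b j‖) (fun i _ => by positivity) (Finset.mem_univ j)
            linarith
  have h5 : ε / (2 * (A * B)) * (A * B) = ε / 2 := by
    field_simp
  rw [h5] at h4
  linarith

end Pool.Agent.Work.MP_88b7aa_gt.PQ
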