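import Pool.Agent.Work.MP_88b7aa_gt.PQ.Wrd

/-!
# Expressions and numeric facts

`Sc`, `Fn`, `FE` are expressions for complex numbers, functionals and forms.  `NF` is a numeric fact: a word, its decomposition, the numbers
of the source and of the target and the multipliers; `NF.chk` is the test over an arithmetic `Ar R`; `NF.sound` its soundness.
-/

namespace Pool.Agent.Work.MP_88b7aa_gt.PQ

open Pool.Agent.Work.MP_88b7aa_gt.CH
open ComplexConjugate Complex Matrix

/-- Complex expressions. -/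
inductive Sc
  | cst (m n : Int)
  | par (k : ℕ)
  | add (a b : Sc)
  | sub (a b : Sc)
  | mul (a b : Sc)
  | cj (a : Sc)

/-- Expressions for functionals. -/
inductive Fn
  | row (i : Fin 3)
  | crd (i : Fin 3)
  | add (f g : Fn)
  | sub (f g : Fn)
  | smul (c : Sc) (f : Fn)
  | comp (j : Fin 3) (f : Fn)
  | word (i j : Fin 3) (l : ℕ) (f : Fn)

/-- Expressions for forms; `mat` are constants (numerators over `2^30`), `mats` are six expressions (three real parts on the diagonal),
`smul` multiplies by the real part. -/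
inductive FE
  | gram
  | mat (d0 d1 d2 p01 q01 p02 q02 p12 q12 : Int)
  | mats (d0 d1 d2 e01 e02 e12 : Sc)
  | nsq (f : Fn)
  | re2 (f g : Fn)
  | add (F H : FE)
  | sub (F H : FE)
  | smul (c : Sc) (F : FE)
  | comp (j : Fin 3) (F : FE)
  | word (i j : Fin 3) (l : ℕ) (F : FE)

/-- `j = i + 1`. -/
def cyc (i j : Fin 3) : Bool := j == i + 1

/-- The number of the parameter `c_ij`. -/
def cpar (i j : Fin 3) : ℕ := if i + j = 0 then 0 else if i + j = 1 then 1 else 2

/-- The phase `W`, `G i j = - c_ij W`. -/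
def wph (i j : Fin 3) : Sc := if cyc i j then .par 4 else .cj (.par 4)

/-- Access to a list, with few reductions. -/
noncomputable def gt {α : Type} (d : α) (L : List α) : ℕ → α :=
  List.rec (motive := fun _ => ℕ → α) (fun _ => d) (fun a _ ih n => Nat.rec (motive := fun _ => α) a (fun m _ => ih m) n) L

theorem gt_eq {α : Type} (d : α) (L : List α) : ∀ n, gt d L n = L.getD n d := by
  induction L with
  | nil => intro n; simp [gt]
  | cons a L ih =>
    intro n
    cases n with
    | zero => rfl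
    | succ n => exact ih n

/-- The environment. -/
structure Ev (R : Type) where
  g : Gm R
  ps : List (Cx R)

section poly

variable {R : Type} (O : Ops R)

noncomputable def evS (e : Ev R) (t : Sc) : Cx R :=
  Sc.rec (motive := fun _ => Cx R)
    (fun m n => Cx.cst O m n)
    (fun k => gt (zero' O) e.ps k)
    (fun _ _ a b => a.add O b)
    (fun _ _ a b => a.sub O b)
    (fun _ _ a b => a.mul O b)
    (fun _ a => a.cj O) t

noncomputable def evF (e : Ev R) (t : Fn) : Rw R :=
  Fn.rec (motive := fun _ => Rw R)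
    (fun i => e.g.row O i)
    (fun i => crd O i)
    (fun _ _ f g => Rw.add O f g)
    (fun _ _ f g => Rw.sub O f g)
    (fun c _ f => Rw.smul O (evS O e c) f)
    (fun j _ f => Rw.comp O e.g j f)
    (fun i j l _ f => Rw.word O e.g i j (evS O e (.par (cpar i j))).re (evS O e (wph i j)) l f) t

noncomputable def evQ (e : Ev R) (t : FE) : H9 R :=
  FE.rec (motive := fun _ => H9 R)
    (H9.gram O e.g)
    (fun d0 d1 d2 p01 q01 p02 q02 p12 q12 => ⟨O.cst d0, O.cst d1, O.cst d2, Cx.cst O p01 q01, Cx.cst O p02 q02, Cx.cst O p12 q12⟩)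
    (fun d0 d1 d2 e01 e02 e12 => ⟨(evS O e d0).re, (evS O e d1).re, (evS O e d2).re, evS O e e01, evS O e e02, evS O e e12⟩)
    (fun f => H9.nsq O (evF O e f))
    (fun f g => H9.re2 O (evF O e f) (evF O e g))
    (fun _ _ F H => F.add O H)
    (fun _ _ F H => F.sub O H)
    (fun c _ F => F.smul O (evS O e c).re)
    (fun j _ F => F.comp O e.g j)
    (fun i j l _ F => F.word O e.g i j (evS O e (.par (cpar i j))).re (evS O e (wph i j)) l) t

end poly

/-- The words of the environment have a closed form. -/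
structure EvOK (e : Ev ℝ) : Prop where
  key : ∀ i j, i ≠ j → gm e.g i j = -((evS OR e (.par (cpar i j))).re : ℂ) * (evS OR e (wph i j)).c
  unit : ∀ i j, (evS OR e (wph i j)).c * conj (evS OR e (wph i j)).c = 1

section poly

variable {R : Type} (O : Ops R)

/-- The reflection of a point. -/
def vrf (g : Gm R) (j : Fin 3) (v : Rw R) : Rw R :=
  let r := g.row O j
  let t := (((r.a.mul O v.a).add O (r.b.mul O v.b)).add O (r.c.mul O v.c)).dbl O
  match j with
  | 0 => ⟨t.sub O v.a, v.b.neg O, v.c.neg O⟩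
  | 1 => ⟨v.a.neg O, t.sub O v.b, v.c.neg O⟩
  | 2 => ⟨v.a.neg O, v.b.neg O, t.sub O v.c⟩

def vrfL (g : Gm R) : List (Fin 3) → Rw R → Rw R
  | [], v => v
  | a :: w, v => vrf O g a (vrfL g w v)

/-- The value of a form at a point. -/
def val (Q : H9 R) (v : Rw R) : R :=
  O.add (O.add (O.add (O.mul Q.d0 (v.a.cml O v.a).re) (O.mul Q.d1 (v.b.cml O v.b).re)) (O.mul Q.d2 (v.c.cml O v.c).re))
    (((v.a.cml O ((Q.e01.mul O v.b).add O (Q.e02.mul O v.c))).add O (v.b.cml O (Q.e12.mul O v.c))).dbl O).re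

end poly

theorem word_ev {e : Ev ℝ} (he : EvOK e) (i j : Fin 3) (l : ℕ) (Q : H9 ℝ) (x : Fin 3 → ℂ) :
    qf (hm (Q.word OR e.g i j (evS OR e (.par (cpar i j))).re (evS OR e (wph i j)) l)) x =
      qf (hm Q) (altS (gm e.g) i j l *ᵥ x) :=
  word_qf e.g (he.unit i j) (he.key i j) l Q x

theorem word_evF {e : Ev ℝ} (he : EvOK e) (i j : Fin 3) (l : ℕ) (f : Fn) (x : Fin 3 → ℂ) :
    (evF OR e (.word i j l f)).v x = (evF OR e f).v (altS (gm e.g) i j l *ᵥ x) :=
  word_v e.g (he.unit i j) (he.key i j) l _ x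

theorem word_evQ {e : Ev ℝ} (he : EvOK e) (i j : Fin 3) (l : ℕ) (F : FE) (x : Fin 3 → ℂ) :
    qf (hm (evQ OR e (.word i j l F))) x = qf (hm (evQ OR e F)) (altS (gm e.g) i j l *ᵥ x) :=
  word_ev he i j l _ x

/-- The point as a vector. -/
noncomputable def Rw.vec (v : Rw ℝ) : Fin 3 → ℂ := ![v.a.c, v.b.c, v.c.c]

theorem vrf_vec (g : Gm ℝ) (j : Fin 3) (v : Rw ℝ) : (vrf OR g j v).vec = Sg (gm g) j *ᵥ v.vec := by
  have hr : ∀ i, (((((g.row OR i).a.mul OR v.a).add OR ((g.row OR i).b.mul OR v.b)).add OR ((g.row OR i).c.mul OR v.c)).dbl OR).c =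
      2 * ∑ b, gm g i b * v.vec b := by
    intro i
    rw [c_dbl, c_add, c_add, c_mul, c_mul, c_mul, ← v_row]
    rfl
  ext a
  rw [Sg_mul, ← hr]
  fin_cases j <;> fin_cases a
  · rfl
  · show -v.b.c = _
    simp [Rw.vec]
  · show -v.c.c = _
    simp [Rw.vec]
  · show -v.a.c = _
    simp [Rw.vec]
  · rfl
  · show -v.c.c = _
    simp [Rw.vec]
  · show -v.a.c = _
    simp [Rw.vec]
  · show -v.b.c = _
    simp [Rw.vec]
  · rfl

theorem vrfL_vec (g : Gm ℝ) (w : List (Fin 3)) (v : Rw ℝ) : (vrfL OR g w v).vec = actL (gm g) w v.vec := by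
  induction w with
  | nil => rfl
  | cons a w ih =>
    show (vrf OR g a (vrfL OR g w v)).vec = Sg (gm g) a *ᵥ actL (gm g) w v.vec
    rw [vrf_vec, ih]

theorem val_vec (Q : H9 ℝ) (v : Rw ℝ) : val OR Q v = qf (hm Q) v.vec := by
  rw [qf_hm]
  have h0 : (v.a.cml OR v.a).re = (conj v.a.c * v.a.c).re := by rw [← c_cml]; rfl
  have h1 : (v.b.cml OR v.b).re = (conj v.b.c * v.b.c).re := by rw [← c_cml]; rfl
  have h2 : (v.c.cml OR v.c).re = (conj v.c.c * v.c.c).re := by rw [← c_cml]; rfl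
  have h3 : (((v.a.cml OR ((Q.e01.mul OR v.b).add OR (Q.e02.mul OR v.c))).add OR (v.b.cml OR (Q.e12.mul OR v.c))).dbl OR).re =
      (2 * (conj v.a.c * (Q.e01.c * v.b.c + Q.e02.c * v.c.c) + conj v.b.c * (Q.e12.c * v.c.c))).re := by
    rw [← c_mul, ← c_mul, ← c_mul, ← c_add, ← c_cml, ← c_cml, ← c_add, ← c_dbl]
    rfl
  show Q.d0 * (v.a.cml OR v.a).re + Q.d1 * (v.b.cml OR v.b).re + Q.d2 * (v.c.cml OR v.c).re +
    (((v.a.cml OR ((Q.e01.mul OR v.b).add OR (Q.e02.mul OR v.c))).add OR (v.b.cml OR (Q.e12.mul OR v.c))).dbl OR).re = _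
  rw [h0, h1, h2, h3]
  unfold Rw.vec
  simp only [Matrix.cons_val_zero, Matrix.cons_val_one, Matrix.cons_val, normSq_apply, Complex.add_re, Complex.add_im,
    Complex.mul_re, Complex.mul_im, Complex.conj_re, Complex.conj_im, Complex.re_ofNat, Complex.im_ofNat]
  ring

end Pool.Agent.Work.MP_88b7aa_gt.PQ
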