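import Pool.Agent.Work.MP_88b7aa_gt.PQ.Prog

/-!
# Environments and standard forms

`mkEv O a b c h ex`: the parameters are `a, b, c, h, w = conj h²` and then the list `ex`; the Gram matrix is the symmetric one,
`G i (i+1) = - c_{i,i+1} w`.  `FEQ i` is twice `QP i`; `FEV i j f P Q` is twice the vertex form `P A + Q B` with the phase `f`.
-/

namespace Pool.Agent.Work.MP_88b7aa_gt.PQ

open Pool.Agent.Work.MP_88b7aa_gt.CH
open ComplexConjugate Complex Matrix

/-- The environment of a cell. -/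
def mkEv {R : Type} (O : Ops R) (a b c : R) (h : Cx R) (ex : List (Cx R)) : Ev R :=
  ⟨⟨(((h.cj O).mul O (h.cj O)).smul O b).neg O, (((((h.cj O).mul O (h.cj O))).cj O).smul O c).neg O,
    (((h.cj O).mul O (h.cj O)).smul O a).neg O⟩,
    ⟨a, O.cst 0⟩ :: ⟨b, O.cst 0⟩ :: ⟨c, O.cst 0⟩ :: h :: ((h.cj O).mul O (h.cj O)) :: ex⟩

theorem REv_mk {R : Type} {O : Ops R} {Rel : ℝ → R → Prop} (h : OpsRel O Rel) {a b c : ℝ} {a' b' c' : R} (ha : Rel a a')
    (hb : Rel b b') (hc : Rel c c') {z : Cx ℝ} {z' : Cx R} (hz : RC Rel z z') {ex : List (Cx ℝ)} {ex' : List (Cx R)}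
    (hex : List.Forall₂ (RC Rel) ex ex') : REv Rel (mkEv OR a b c z ex) (mkEv O a' b' c' z' ex') := by
  have hw : RC Rel ((z.cj OR).mul OR (z.cj OR)) ((z'.cj O).mul O (z'.cj O)) := RC.mul h (RC.cj h hz) (RC.cj h hz)
  refine ⟨⟨RC.neg h (RC.smul h hb hw), RC.neg h (RC.smul h hc (RC.cj h hw)), RC.neg h (RC.smul h ha hw)⟩, ?_⟩
  exact .cons ⟨ha, h.cst 0⟩ (.cons ⟨hb, h.cst 0⟩ (.cons ⟨hc, h.cst 0⟩ (.cons hz (.cons hw hex))))

theorem c_neg (x : Cx ℝ) : (x.neg OR).c = -x.c := rfl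

section real

variable (a b c : ℝ) (z : Cx ℝ) (ex : List (Cx ℝ))

/-- `w = conj h²`. -/
theorem mkEv_w : (evS OR (mkEv OR a b c z ex) (.par 4)).c = conj z.c * conj z.c := by
  show ((z.cj OR).mul OR (z.cj OR)).c = _
  rw [c_mul, c_cj]

theorem mkEv_a : (evS OR (mkEv OR a b c z ex) (.par 0)).c = a := by
  show (⟨a, OR.cst 0⟩ : Cx ℝ).c = _
  rw [OR_zero]
  rfl

theorem mkEv_b : (evS OR (mkEv OR a b c z ex) (.par 1)).c = b := by
  show (⟨b, OR.cst 0⟩ : Cx ℝ).c = _
  rw [OR_zero]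
  rfl

theorem mkEv_c : (evS OR (mkEv OR a b c z ex) (.par 2)).c = c := by
  show (⟨c, OR.cst 0⟩ : Cx ℝ).c = _
  rw [OR_zero]
  rfl

/-- The Gram matrix of the environment. -/
theorem mkEv_gm : gm (mkEv OR a b c z ex).g = Gx a b c (conj z.c * conj z.c) := by
  have h01 : (mkEv OR a b c z ex).g.g01.c = -(b : ℂ) * (conj z.c * conj z.c) := by
    show ((((z.cj OR).mul OR (z.cj OR)).smul OR b).neg OR).c = _
    rw [c_neg, c_smul, c_mul, c_cj]
    ring
  have h02 : (mkEv OR a b c z ex).g.g02.c = -(c : ℂ) * (z.c * z.c) := by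
    show ((((((z.cj OR).mul OR (z.cj OR))).cj OR).smul OR c).neg OR).c = _
    rw [c_neg, c_smul, c_cj, c_mul, c_cj, map_mul, Complex.conj_conj]
    ring
  have h12 : (mkEv OR a b c z ex).g.g12.c = -(a : ℂ) * (conj z.c * conj z.c) := by
    show ((((z.cj OR).mul OR (z.cj OR)).smul OR a).neg OR).c = _
    rw [c_neg, c_smul, c_mul, c_cj]
    ring
  unfold gm Gx
  rw [h01, h02, h12]
  simp only [map_mul, map_neg, Complex.conj_conj, Complex.conj_ofReal]

end real

/-- Twice `QP i`. -/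
def FEQ (i : Fin 3) : FE := .sub (.re2 (.row i) (.crd i)) (.add (.nsq (.row i)) (.nsq (.row i)))

theorem qf_FEQ (e : Ev ℝ) (i : Fin 3) (x : Fin 3 → ℂ) : qf (hm (evQ OR e (FEQ i))) x = 2 * qf (QP (gm e.g) i) x := by
  show qf (hm ((H9.re2 OR (e.g.row OR i) (crd OR i)).sub OR ((H9.nsq OR (e.g.row OR i)).add OR (H9.nsq OR (e.g.row OR i))))) x = _
  rw [qf_hsub, qf_hadd, qf_re2, qf_nsq, v_row, v_crd, qf_QP]
  simp only [normSq_apply, Complex.mul_re, Complex.conj_re, Complex.conj_im, Complex.sub_re, Complex.sub_im]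
  ring

/-- Twice the vertex form at `i, j` with the phase `f` of `i`. -/
def FEV (i j : Fin 3) (f P Q : Sc) : FE :=
  .re2 (.add (.smul (.mul P (.cj (.mul f (.cj (wph i j))))) (.row j)) (.smul (.mul Q (.cj f)) (.row i))) (.crd (Sys.third i j))

theorem evS_mul (e : Ev ℝ) (x y : Sc) : (evS OR e (.mul x y)).c = (evS OR e x).c * (evS OR e y).c := c_mul _ _
theorem evS_cj (e : Ev ℝ) (x : Sc) : (evS OR e (.cj x)).c = conj (evS OR e x).c := rfl
theorem evS_add (e : Ev ℝ) (x y : Sc) : (evS OR e (.add x y)).c = (evS OR e x).c + (evS OR e y).c := rfl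
theorem evS_sub (e : Ev ℝ) (x y : Sc) : (evS OR e (.sub x y)).c = (evS OR e x).c - (evS OR e y).c := rfl
theorem evS_cst (e : Ev ℝ) (m : Int) : (evS OR e (.cst m 0)).c = (((m : ℝ) / 1073741824 : ℝ) : ℂ) := by
  show (⟨OR.cst m, OR.cst 0⟩ : Cx ℝ).c = _
  rw [OR_zero]
  rfl

theorem qf_FEV (e : Ev ℝ) {i j k : Fin 3} (hk : Sys.third i j = k) (f P Q : Sc) {P' Q' : ℝ} (hP : (evS OR e P).c = (P' : ℂ))
    (hQ : (evS OR e Q).c = (Q' : ℂ)) (x : Fin 3 → ℂ) : qf (hm (evQ OR e (FEV i j f P Q))) x =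
      2 * qf (VV (gm e.g) i j k (evS OR e f).c ((evS OR e f).c * conj (evS OR e (wph i j)).c) P' Q') x := by
  show qf (hm (H9.re2 OR (Rw.add OR (Rw.smul OR (evS OR e (.mul P (.cj (.mul f (.cj (wph i j)))))) (e.g.row OR j))
    (Rw.smul OR (evS OR e (.mul Q (.cj f))) (e.g.row OR i))) (crd OR (Sys.third i j)))) x = _
  rw [qf_re2, v_add, v_smul, v_smul, v_row, v_row, v_crd, qf_VV, qf_VF, qf_VF, evS_mul, evS_cj, evS_mul, evS_cj, evS_mul, evS_cj,
    hP, hQ, hk]
  simp only [map_add, map_mul, Complex.conj_conj, Complex.conj_ofReal]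
  simp only [Complex.add_re, Complex.add_im, Complex.mul_re, Complex.mul_im, Complex.ofReal_re, Complex.ofReal_im]
  ring

/-- The words of the environment have a closed form. -/
theorem mkEv_ok {a b c : ℝ} {z : Cx ℝ} (hz : z.c * conj z.c = 1) (ex : List (Cx ℝ)) : EvOK (mkEv OR a b c z ex) := by
  have hw : (conj z.c * conj z.c) * (z.c * z.c) = 1 := by linear_combination (z.c * conj z.c + 1) * hz
  have e4 := mkEv_w a b c z ex
  refine ⟨fun i j hij => ?_, fun i j => ?_⟩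
  · have ra : (evS OR (mkEv OR a b c z ex) (.par 0)).re = a := rfl
    have rb : (evS OR (mkEv OR a b c z ex) (.par 1)).re = b := rfl
    have rc : (evS OR (mkEv OR a b c z ex) (.par 2)).re = c := rfl
    rw [mkEv_gm]
    have w0 : ∀ i j : Fin 3, wph i j = if cyc i j then .par 4 else .cj (.par 4) := fun _ _ => rfl
    fin_cases i <;> fin_cases j <;> first | exact absurd rfl hij | skip
    all_goals
      simp [w0, cyc, cpar, Gx, evS_cj, e4, ra, rb, rc]
  · have w0 : wph i j = if cyc i j then .par 4 else .cj (.par 4) := rfl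
    rw [w0]
    split_ifs
    · rw [e4]
      simp only [map_mul, Complex.conj_conj]
      exact hw
    · rw [evS_cj, e4]
      simp only [map_mul, Complex.conj_conj]
      linear_combination hw

/-- The vertex data of an environment. -/
theorem Vx_mk {a b c : ℝ} {z : Cx ℝ} (hz : z.c * conj z.c = 1) (ex : List (Cx ℝ)) {i j k : Fin 3} (hij : i ≠ j) (hik : i ≠ k)
    (hjk : j ≠ k) (f : ℂ) :
    Vx (gm (mkEv OR a b c z ex).g) i j k f (f * conj (evS OR (mkEv OR a b c z ex) (wph i j)).c)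
      (evS OR (mkEv OR a b c z ex) (.par (cpar i j))).re := by
  have hG := gm_gram (mkEv OR a b c z ex).g
  have key := (mkEv_ok hz ex (a := a) (b := b) (c := c)).key i j hij
  have hu := (mkEv_ok hz ex (a := a) (b := b) (c := c)).unit i j
  refine ⟨hG, hij, hik, hjk, ?_, ?_⟩
  · rw [hG.hm j i, key]
    linear_combination (-f * ((evS OR (mkEv OR a b c z ex) (.par (cpar i j))).re : ℂ)) * hu
  · rw [key]
    simp only [map_mul, map_neg, Complex.conj_ofReal]
    ring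

end Pool.Agent.Work.MP_88b7aa_gt.PQ
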