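import Pool.Agent.Work.MP_88b7aa_gt.PQ.Arr
import Pool.Agent.Work.MP_88b7aa_gt.PQ.Lib

/-!
# Forced evaluation for the plain Taylor models
-/

namespace Pool.Agent.Work.MP_88b7aa_gt.PQ

open ComplexConjugate Complex Matrix T2

/-- Forces the evaluation of a natural number. -/
@[reducible] noncomputable def evN (n : Nat) (k : Nat → Bool) : Bool :=
  Nat.rec (motive := fun _ => Bool) (k (nat_lit 0)) (fun m _ => k (Nat.succ m)) n

theorem evN_eq (n : Nat) (k : Nat → Bool) : evN n k = k n := by
  cases n <;> rfl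

/-- Forces the evaluation of an integer. -/
noncomputable def evI (z : Int) (k : Int → Bool) : Bool := match z with
  | .ofNat n => evN n fun n => k (.ofNat n)
  | .negSucc n => evN n fun n => k (.negSucc n)

theorem evI_eq (z : Int) (k : Int → Bool) : evI z k = k z := by
  cases z with
  | ofNat n => exact evN_eq n fun n => k (.ofNat n)
  | negSucc n => exact evN_eq n fun n => k (.negSucc n)

noncomputable def ekT (t : T2) (k : T2 → Bool) : Bool :=
  evI t.v fun v => evI t.a fun a => evI t.b fun b => evI t.c fun c => evI t.d fun d => evI t.aa fun aa => evI t.ab fun ab =>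
  evI t.ac fun ac => evI t.ad fun ad => evI t.bb fun bb => evI t.bc fun bc => evI t.bd fun bd => evI t.cc fun cc =>
  evI t.cd fun cd => evI t.dd fun dd => evN t.r fun r => k ⟨v, a, b, c, d, aa, ab, ac, ad, bb, bc, bd, cc, cd, dd, r⟩

theorem ekT_eq (t : T2) (k : T2 → Bool) : ekT t k = k t := by
  unfold ekT
  simp only [evI_eq, evN_eq]

noncomputable def ekC (t : Cx T2) (k : Cx T2 → Bool) : Bool := ekT t.re fun x => ekT t.im fun y => k ⟨x, y⟩

theorem ekC_eq (t : Cx T2) (k : Cx T2 → Bool) : ekC t k = k t := by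
  unfold ekC
  simp only [ekT_eq]

noncomputable def ekH (t : H9 T2) (k : H9 T2 → Bool) : Bool :=
  ekT t.d0 fun x0 => ekT t.d1 fun x1 => ekT t.d2 fun x2 => ekC t.e01 fun y0 => ekC t.e02 fun y1 => ekC t.e12 fun y2 =>
    k ⟨x0, x1, x2, y0, y1, y2⟩

theorem ekH_eq (t : H9 T2) (k : H9 T2 → Bool) : ekH t k = k t := by
  unfold ekH
  simp only [ekT_eq, ekC_eq]

/-- The test of a condition. -/
noncomputable def ttst (t x g : H9 T2) (l m : T2) : Bool :=
  ekH ((t.sub OT (x.smul OT l)).add OT (g.smul OT m)) tpsd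

/-- The plain Taylor models. -/
noncomputable def AP : Arp T2 (H9 T2) := ⟨OT, tpos, fun Q => Q, ttst, ekH, ekH⟩

theorem AP_ok (p : Pt) : ArpOK AP (Mem p) (RH (Mem p)) where
  rel := OT_rel p
  pos := tpos_sound
  pk := fun h => h
  tst := by
    intro T X G t x g lam mu l m hT hX hG hl hm h v
    have h' : tpsd ((t.sub OT (x.smul OT l)).add OT (g.smul OT m)) = true := by
      have : ttst t x g l m = true := h
      unfold ttst at this
      rwa [ekH_eq] at this
    have hr : RH (Mem p) ((T.sub OR (X.smul OR lam)).add OR (G.smul OR mu)) ((t.sub OT (x.smul OT l)).add OT (g.smul OT m)) :=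
      RH.add (OT_rel p) (RH.sub (OT_rel p) hT (RH.smul (OT_rel p) hl hX)) (RH.smul (OT_rel p) hm hG)
    have := tpsd_sound hr h' v
    rwa [qf_hadd, qf_hsub, qf_hsmul, qf_hsmul] at this
  fH := ekH_eq
  fP := ekH_eq

end Pool.Agent.Work.MP_88b7aa_gt.PQ
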