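import Pool.Agent.Work.MP_88b7aa_gt.PQ.Bset

/-!
# The eigenvalue of modulus one: existence and enclosure
-/

namespace Pool.Agent.Work.MP_88b7aa_gt.PQ

open Pool.Agent.Work.MP_88b7aa_gt.CH
open ComplexConjugate Complex Matrix

/-- `v (v² - |v|² T)`; for `|v| = 1` it is `v³ (λ³ - ...)`. -/
noncomputable def Hv (T v : ℂ) : ℂ := v * (v * v - (normSq v : ℂ) * T)

theorem cub_of {T x : ℂ} (hx : x ≠ 0) (h : (Hv T x).im = 0) :
    (x ^ 2 / normSq x) * conj (x ^ 2 / normSq x : ℂ) = 1 ∧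
    (x ^ 2 / normSq x : ℂ) ^ 3 - T * (x ^ 2 / normSq x) ^ 2 + conj T * (x ^ 2 / normSq x) - 1 = 0 := by
  have hn : (normSq x : ℂ) = x * conj x := (Complex.mul_conj x).symm
  have hc : conj x ≠ 0 := by simpa using hx
  have h1 : conj (Hv T x) = Hv T x := Complex.conj_eq_iff_im.2 h
  unfold Hv at h1
  rw [map_mul, map_sub, map_mul, map_mul, Complex.conj_ofReal, hn] at h1
  rw [map_div₀, map_pow, Complex.conj_ofReal, hn]
  constructor
  · field_simp
  · field_simp
    linear_combination -h1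

theorem lam_exists {T v : ℂ} {d ε s : ℝ} (hd : 0 < d) (hd1 : d ≤ 1 / 64) (hε : ε ≤ 1 / 64) (he1 : normSq v - 1 ≤ ε)
    (he2 : -ε ≤ normSq v - 1) (h1 : 0 < s * (Hv T (v * (1 + d * I))).im) (h2 : s * (Hv T (v * (1 + (-d : ℝ) * I))).im < 0) :
    ∃ l : ℂ, l * conj l = 1 ∧ l ^ 3 - T * l ^ 2 + conj T * l - 1 = 0 ∧
      |l.re - (v * v).re| ≤ 5 / 4 * ε + 3 * d ^ 2 + 2 * d * |(v * v).im| ∧
      |l.im - (v * v).im| ≤ 5 / 4 * ε + 3 * d ^ 2 + 2 * d * |(v * v).re| := by
  have hε0 : 0 ≤ ε := by linarith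
  have hv0 : v ≠ 0 := by
    rintro rfl
    simp at he2
    linarith
  have hφ : Continuous fun r : ℝ => s * (Hv T (v * (1 + r * I))).im := by
    unfold Hv
    simp only [normSq_mul]
    have c1 : Continuous fun r : ℝ => (v * (1 + (r : ℂ) * I) : ℂ) := by fun_prop
    have c2 : Continuous fun r : ℝ => ((normSq v * normSq (1 + (r : ℂ) * I) : ℝ) : ℂ) := by
      refine Complex.continuous_ofReal.comp (continuous_const.mul (Complex.continuous_normSq.comp ?_))
      fun_prop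
    exact continuous_const.mul (Complex.continuous_im.comp (c1.mul ((c1.mul c1).sub (c2.mul continuous_const))))
  obtain ⟨r, ⟨hr1, hr2⟩, hr⟩ := intermediate_value_Icc (by linarith : -d ≤ d) hφ.continuousOn ⟨h2.le, h1.le⟩
  have hs : s ≠ 0 := by
    rintro rfl
    simp at h1
  have him : (Hv T (v * (1 + r * I))).im = 0 := (mul_eq_zero.1 hr).resolve_left hs
  have h1r : (1 + (r : ℂ) * I) ≠ 0 := by
    intro h0
    have := congrArg Complex.re h0
    simp at this
  set x := v * (1 + (r : ℂ) * I) with hx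
  have hx0 : x ≠ 0 := mul_ne_zero hv0 h1r
  obtain ⟨k1, k2⟩ := cub_of hx0 him
  have hn : normSq x = normSq v * (1 + r ^ 2) := by
    rw [hx, normSq_mul]
    congr 1
    simp [normSq_apply]
    ring
  set N := normSq v with hN
  have hNp : 0 < N := by
    rw [hN]
    exact normSq_pos.2 hv0
  have hr2' : r ^ 2 ≤ d ^ 2 := by nlinarith
  have hM : 0 < N * (1 + r ^ 2) := by positivity
  set κ := 1 / (N * (1 + r ^ 2)) with hκ
  have hκ0 : 0 < κ := by positivity
  have hκN : κ * (N * (1 + r ^ 2)) = 1 := by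
    rw [hκ]
    field_simp
  have hκ1 : κ ≤ 1 + 65 / 63 * ε := by
    rw [hκ, div_le_iff₀ hM]
    have a1 : 1 - ε ≤ N * (1 + r ^ 2) := by nlinarith [sq_nonneg r]
    nlinarith
  set a := (1 - r ^ 2) * κ - 1 with ha
  set b := 2 * r * κ with hb
  have hl : (x ^ 2 / normSq x : ℂ) = (v * v) * (1 + a + b * I) := by
    have e1 : (x ^ 2 / normSq x : ℂ) = x ^ 2 * (κ : ℂ) := by
      rw [hn, hκ]
      push_cast
      rw [div_eq_mul_one_div]
    rw [e1, hx, ha, hb]
    push_cast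
    have : (I : ℂ) ^ 2 = -1 := Complex.I_sq
    linear_combination (v ^ 2 * (r : ℂ) ^ 2 * κ) * this
  have ha1 : |a| ≤ 65 / 64 * (1 + 1 / 62) * ε + 21 / 10 * d ^ 2 := by
    have e : a = κ * ((1 - N) - r ^ 2 * (1 + N)) := by
      rw [ha]
      linear_combination hκN
    rw [e, abs_mul, abs_of_pos hκ0]
    have hb1 : |(1 - N) - r ^ 2 * (1 + N)| ≤ ε + d ^ 2 * (129 / 64) := by
      rw [abs_le]
      constructor
      · nlinarith [sq_nonneg r]
      · nlinarith [sq_nonneg r]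
    have hb2 : κ ≤ 1 + 1 / 62 := by
      refine hκ1.trans ?_
      linarith
    calc κ * |(1 - N) - r ^ 2 * (1 + N)| ≤ (1 + 1 / 62) * (ε + d ^ 2 * (129 / 64)) :=
          mul_le_mul hb2 hb1 (abs_nonneg _) (by norm_num)
      _ ≤ _ := by nlinarith [sq_nonneg d]
  have hb1 : |b| ≤ 2 * d + 21 / 10 * d * ε := by
    rw [hb, abs_mul, abs_mul, abs_of_pos hκ0, abs_of_pos (by norm_num : (0 : ℝ) < 2)]
    have : |r| ≤ d := abs_le.2 ⟨hr1, hr2⟩
    calc 2 * |r| * κ ≤ 2 * d * (1 + 65 / 63 * ε) := by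
          apply mul_le_mul (by linarith) hκ1 hκ0.le (by linarith)
      _ ≤ _ := by nlinarith [mul_nonneg hd.le hε0]
  have hvv : normSq (v * v) = N * N := by rw [normSq_mul]
  have hvN : ∀ y : ℝ, y ^ 2 ≤ normSq (v * v) → |y| ≤ 65 / 64 := by
    intro y hy
    rw [hvv] at hy
    have hN1 : N ≤ 65 / 64 := by linarith
    have : y ^ 2 ≤ (65 / 64) ^ 2 := hy.trans (by nlinarith)
    exact abs_le_of_sq_le_sq' this (by norm_num) |> fun h => abs_le.2 h
  have hre : |(v * v).re| ≤ 65 / 64 := hvN _ (by rw [normSq_apply]; nlinarith [sq_nonneg (v * v).im])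
  have him' : |(v * v).im| ≤ 65 / 64 := hvN _ (by rw [normSq_apply]; nlinarith [sq_nonneg (v * v).re])
  refine ⟨x ^ 2 / normSq x, k1, k2, ?_, ?_⟩
  · rw [hl]
    have e : ((v * v) * (1 + a + b * I) : ℂ).re - (v * v).re = (v * v).re * a - (v * v).im * b := by
      rw [Complex.mul_re]
      simp
      ring
    rw [e]
    refine (abs_sub _ _).trans ?_
    rw [abs_mul, abs_mul]
    have p1 : |(v * v).re| * |a| ≤ 65 / 64 * (65 / 64 * (1 + 1 / 62) * ε + 21 / 10 * d ^ 2) :=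
      mul_le_mul hre ha1 (abs_nonneg _) (by norm_num)
    have p2 : |(v * v).im| * |b| ≤ |(v * v).im| * (2 * d + 21 / 10 * d * ε) := mul_le_mul_of_nonneg_left hb1 (abs_nonneg _)
    have p3 : |(v * v).im| * (21 / 10 * d * ε) ≤ 65 / 64 * (21 / 10 * d * ε) := mul_le_mul_of_nonneg_right him' (by positivity)
    have p4 : d * ε ≤ 1 / 64 * ε := mul_le_mul_of_nonneg_right hd1 hε0
    nlinarith [sq_nonneg d]
  · rw [hl]
    have e : ((v * v) * (1 + a + b * I) : ℂ).im - (v * v).im = (v * v).im * a + (v * v).re * b := by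
      rw [Complex.mul_im]
      simp
      ring
    rw [e]
    refine (abs_add_le _ _).trans ?_
    rw [abs_mul, abs_mul]
    have p1 : |(v * v).im| * |a| ≤ 65 / 64 * (65 / 64 * (1 + 1 / 62) * ε + 21 / 10 * d ^ 2) :=
      mul_le_mul him' ha1 (abs_nonneg _) (by norm_num)
    have p2 : |(v * v).re| * |b| ≤ |(v * v).re| * (2 * d + 21 / 10 * d * ε) := mul_le_mul_of_nonneg_left hb1 (abs_nonneg _)
    have p3 : |(v * v).re| * (21 / 10 * d * ε) ≤ 65 / 64 * (21 / 10 * d * ε) := mul_le_mul_of_nonneg_right hre (by positivity)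
    have p4 : d * ε ≤ 1 / 64 * ε := mul_le_mul_of_nonneg_right hd1 hε0
    nlinarith [sq_nonneg d]

end Pool.Agent.Work.MP_88b7aa_gt.PQ
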