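import Pool.Agent.Work.MP_88b7aa_gt.PQ.Bfe
import Pool.Agent.Work.MP_88b7aa_gt.PQ.Upar

/-!
# The check of the eigenvalue
-/

noncomputable section

namespace Pool.Agent.Work.MP_88b7aa_gt.PQ

open Pool.Agent.Work.MP_88b7aa_gt.CH
open ComplexConjugate Complex Matrix

/-- The trace. -/
theorem TrS_c (a b c : ℝ) {z : Cx ℝ} (hz : z.c * conj z.c = 1) (ex : List (Cx ℝ)) : (evS OR (mkEv OR a b c z ex) TrS).c =
    (WM3 (gm (mkEv OR a b c z ex).g) 0 1 2).trace := by
  have ha := mkEv_a a b c z ex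
  have hb := mkEv_b a b c z ex
  have hc := mkEv_c a b c z ex
  have hw := mkEv_w a b c z ex
  unfold TrS W3
  rw [WM3_tr _ (gm_gram _) (by decide : (0 : Fin 3) ≠ 1) (by decide) (by decide), mkEv_gm]
  simp only [evS_add, evS_sub, evS_mul, ic_c, ha, hb, hc, hw]
  have hww : (conj z.c * conj z.c) * conj (conj z.c * conj z.c) = 1 := by
    simp only [map_mul, Complex.conj_conj]
    linear_combination (z.c * conj z.c + 1) * hz
  set w := conj z.c * conj z.c with hwd
  have e0 : Gx a b c w 0 1 = -(b : ℂ) * w := rfl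
  have e0' : Gx a b c w 1 0 = -(b : ℂ) * conj w := rfl
  have e1 : Gx a b c w 1 2 = -(a : ℂ) * w := rfl
  have e1' : Gx a b c w 2 1 = -(a : ℂ) * conj w := rfl
  have e2 : Gx a b c w 2 0 = -(c : ℂ) * w := rfl
  have e2' : Gx a b c w 0 2 = -(c : ℂ) * conj w := rfl
  rw [e0, e0', e1, e1', e2, e2']
  push_cast
  linear_combination 4 * ((a : ℂ) * a + b * b + c * c) * hww

/-- `|x|²` -/
def nS (x : Sc) : Sc := .mul x (.cj x)
def qS : Sc := .add (.sub (.mul (.par 12) (.par 12)) (.mul (.par 12) (.par 13))) (.cj (.par 12))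

/-- The tests of the structure. -/
def lamT {R P : Type} (A : Arp R P) (e : Ev R) : Bool :=
  A.pos (evS A.O e (nS qS)).re && (A.pos (evS A.O e (nS (.par 26))).re && (A.pos (evS A.O e (nS (.par 42))).re &&
    A.pos (evS A.O e (nS (.par 58))).re))

theorem nS_ne {e : Ev ℝ} {x : Sc} (h : 0 < (evS OR e (nS x)).re) : (evS OR e x).c ≠ 0 := by
  intro h0
  rw [← c_re] at h
  unfold nS at h
  rw [evS_mul, evS_cj, h0] at h
  simp at h

/-- The hypotheses from the tests. -/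
theorem lamOK_of {R P : Type} {A : Arp R P} {Rel : ℝ → R → Prop} {RelP : H9 ℝ → P → Prop} (hA : ArpOK A Rel RelP)
    {e : Ev ℝ} {e' : Ev R} (he : REv Rel e e') {l t : Cx ℝ} (hE : BEv e l t) {a b c θ : ℝ} (hG : TriG a b c θ (gm e.g))
    (hB : 0 ≤ fB a b c (Real.cos θ)) (hl : l.c * conj l.c = 1)
    (hP : l.c ^ 3 - (WM3 (gm e.g) 0 1 2).trace * l.c ^ 2 + conj (WM3 (gm e.g) 0 1 2).trace * l.c - 1 = 0)
    (ht : (WM3 (gm e.g) 0 1 2).trace = t.c + l.c) (hc : lamT A e' = true) : LamOK (gm e.g) l.c t.c := by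
  unfold lamT at hc
  simp only [Bool.and_eq_true] at hc
  obtain ⟨c0, c1, c2, c3⟩ := hc
  have d0 := nS_ne (hA.pos (RC.evS hA.rel he (nS qS)).re c0)
  have d1 := nS_ne (hA.pos (RC.evS hA.rel he (nS (.par 26))).re c1)
  have d2 := nS_ne (hA.pos (RC.evS hA.rel he (nS (.par 42))).re c2)
  have d3 := nS_ne (hA.pos (RC.evS hA.rel he (nS (.par 58))).re c3)
  have hq : l.c ^ 2 - l.c * t.c + conj l.c ≠ 0 := by
    unfold qS at d0
    rw [evS_add, evS_sub, evS_mul, evS_mul, evS_cj, hE.p12, hE.p13] at d0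
    rwa [pow_two]
  have htc : conj t.c = l.c * t.c := htc_of hl (by rw [← ht]; exact hP)
  refine ⟨gm_gram _, hl, ht, htc, hq, ?_, ?_⟩
  · have := tau_ge hG hl hP ?_ hB
    · rwa [ht, add_sub_cancel_right] at this
    · rw [ht]
      intro h0
      apply hq
      linear_combination h0
  · intro j
    have h1 : hf (gm e.g) (Pi.single j 1) (bve (gm e.g) (j + 2) j (j + 1) l.c t.c) =
        (evF OR e (pF (bN j 4))).v (Pi.single j 1) := by
      rw [F4_v hE, BS.le_eq]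
    rw [h1]
    show (Rw.add OR (Rw.smul OR (evS OR e (.par (bN j 4))) (crd OR 0)) (Rw.add OR (Rw.smul OR (evS OR e (.par (bN j 4 + 1))) (crd OR 1))
      (Rw.smul OR (evS OR e (.par (bN j 4 + 2))) (crd OR 2)))).v _ ≠ 0
    rw [v_add, v_add, v_smul, v_smul, v_smul, v_crd, v_crd, v_crd]
    fin_cases j
    · have d1' : (evS OR e (.par (bN 0 4))).c ≠ 0 := d1
      simpa using d1'
    · have d2' : (evS OR e (.par (bN 1 4 + 1))).c ≠ 0 := d2
      simpa using d2'
    · have d3' : (evS OR e (.par (bN 2 4 + 2))).c ≠ 0 := d3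
      simpa using d3'

/-! ### The enclosure -/

/-- `Hv` -/
def hvC {R : Type} (O : Ops R) (T x : Cx R) : Cx R := x.mul O ((x.mul O x).sub O (T.smul O (x.cml O x).re))

theorem hvC_c (T x : Cx ℝ) : (hvC OR T x).c = Hv T.c x.c := by
  unfold hvC Hv
  have h : (x.cml OR x).re = normSq x.c := by
    rw [← c_re, c_cml, normSq_apply]
    simp only [Complex.mul_re, Complex.conj_re, Complex.conj_im]
    ring
  rw [c_mul, c_sub, c_mul, c_smul, h]

/-- The data of the eigenvalue: `v` is an approximation of its square root, `w` of the eigenvalue itself, the numbers over `2^30`, the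
radii `rr`, `ri` over `2^26`; the tests are made on the sub-boxes obtained by halving the variables `js`. -/
structure LD where
  v : Sc
  w : Sc
  js : List (Fin 4)
  dn : ℕ
  en : ℕ
  sg : Bool
  mr : ℕ
  mi : ℕ
  er : ℕ
  ei : ℕ
  rr : ℕ
  ri : ℕ

/-- The integer part of the test. -/
def LD.nat (D : LD) : Bool := Nat.ble 1 D.dn && (Nat.ble D.dn 16777216 && (Nat.ble D.en 16777216 &&
  (Nat.ble (5 * D.en * 1073741824 + 12 * D.dn * D.dn + 8 * D.dn * D.mi + 4 * D.er * 1073741824) (D.rr * 68719476736) &&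
    Nat.ble (5 * D.en * 1073741824 + 12 * D.dn * D.dn + 8 * D.dn * D.mr + 4 * D.ei * 1073741824) (D.ri * 68719476736))))

/-- `v (1 ± i d)` -/
def LD.xp {R : Type} (O : Ops R) (D : LD) (V : Cx R) : Cx R := V.mul O (Cx.cst O 1073741824 (Int.ofNat D.dn))
def LD.xm {R : Type} (O : Ops R) (D : LD) (V : Cx R) : Cx R := V.mul O (Cx.cst O 1073741824 (Int.neg (Int.ofNat D.dn)))

/-- The numbers which must be positive; `S` is the square of `V`. -/
def LD.ns {R : Type} (O : Ops R) (D : LD) (V S W : Cx R) (hp hm : Cx R) : List R :=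
  [if D.sg then hp.im else O.neg hp.im, if D.sg then O.neg hm.im else hm.im,
    O.sub (O.cst (1073741824 + Int.ofNat D.en)) (V.cml O V).re, O.sub (V.cml O V).re (O.cst (1073741824 - Int.ofNat D.en)),
    O.sub (O.cst (Int.ofNat D.mr)) S.re, O.add (O.cst (Int.ofNat D.mr)) S.re,
    O.sub (O.cst (Int.ofNat D.mi)) S.im, O.add (O.cst (Int.ofNat D.mi)) S.im,
    O.sub (O.cst (Int.ofNat D.er)) (O.sub S.re W.re), O.add (O.cst (Int.ofNat D.er)) (O.sub S.re W.re),
    O.sub (O.cst (Int.ofNat D.ei)) (O.sub S.im W.im), O.add (O.cst (Int.ofNat D.ei)) (O.sub S.im W.im)]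

theorem LD.lam (D : LD) (V W T : Cx ℝ) (hn : D.nat = true)
    (hp : ∀ y ∈ D.ns OR V (V.mul OR V) W (hvC OR T (D.xp OR V)) (hvC OR T (D.xm OR V)), 0 < y) :
    ∃ l : Cx ℝ, l.c * conj l.c = 1 ∧ l.c ^ 3 - T.c * l.c ^ 2 + conj T.c * l.c - 1 = 0 ∧
      |l.re - W.re| * 67108864 ≤ D.rr ∧ |l.im - W.im| * 67108864 ≤ D.ri := by
  unfold LD.nat at hn
  simp only [Bool.and_eq_true, Nat.ble_eq] at hn
  obtain ⟨n1, n2, n3, n4, n5⟩ := hn
  simp only [LD.ns, List.mem_cons, List.not_mem_nil, or_false, forall_eq_or_imp, forall_eq] at hp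
  obtain ⟨h1, h2, h3, h4, h5, h6, h7, h8, g1, g2, g3, g4⟩ := hp
  have m1 : (1 : ℝ) ≤ D.dn := by exact_mod_cast n1
  have m2 : (D.dn : ℝ) ≤ 16777216 := by exact_mod_cast n2
  have m3 : (D.en : ℝ) ≤ 16777216 := by exact_mod_cast n3
  have m4 : 5 * (D.en : ℝ) * 1073741824 + 12 * D.dn * D.dn + 8 * D.dn * D.mi + 4 * D.er * 1073741824 ≤ D.rr * 68719476736 := by
    exact_mod_cast n4
  have m5 : 5 * (D.en : ℝ) * 1073741824 + 12 * D.dn * D.dn + 8 * D.dn * D.mr + 4 * D.ei * 1073741824 ≤ D.ri * 68719476736 := by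
    exact_mod_cast n5
  have cs : ∀ z : Int, OR.cst z = (z : ℝ) / 1073741824 := fun _ => rfl
  have hVV : (V.cml OR V).re = normSq V.c := by
    rw [← c_re, c_cml, normSq_apply]
    simp only [Complex.mul_re, Complex.conj_re, Complex.conj_im]
    ring
  have xpc : (D.xp OR V).c = V.c * (1 + (((D.dn : ℝ) / 1073741824 : ℝ) : ℂ) * I) := by
    unfold LD.xp
    rw [c_mul]
    congr 1
    apply Complex.ext
    · show OR.cst 1073741824 = _
      rw [OR_one]
      simp
    · show OR.cst (Int.ofNat D.dn) = _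
      rw [cs]
      simp
  have xmc : (D.xm OR V).c = V.c * (1 + ((-((D.dn : ℝ) / 1073741824) : ℝ) : ℂ) * I) := by
    unfold LD.xm
    rw [c_mul]
    congr 1
    apply Complex.ext
    · show OR.cst 1073741824 = _
      rw [OR_one]
      simp
    · show OR.cst (Int.neg (Int.ofNat D.dn)) = _
      rw [cs]
      have : ((Int.neg (Int.ofNat D.dn) : ℤ) : ℝ) = -(D.dn : ℝ) := by
        show ((-(D.dn : ℤ) : ℤ) : ℝ) = _
        push_cast
        ring
      rw [this]
      simp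
      ring
  have hpi : (hvC OR T (D.xp OR V)).im = (Hv T.c (V.c * (1 + (((D.dn : ℝ) / 1073741824 : ℝ) : ℂ) * I))).im := by
    rw [← xpc, ← hvC_c]
    rfl
  have hmi : (hvC OR T (D.xm OR V)).im = (Hv T.c (V.c * (1 + ((-((D.dn : ℝ) / 1073741824) : ℝ) : ℂ) * I))).im := by
    rw [← xmc, ← hvC_c]
    rfl
  rw [hpi] at h1
  rw [hmi] at h2
  have on : ∀ y, OR.neg y = -y := fun _ => rfl
  have os : ∀ y z, OR.sub y z = y - z := fun _ _ => rfl
  have oa : ∀ y z, OR.add y z = y + z := fun _ _ => rfl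
  rw [os, cs, hVV] at h3 h4
  rw [os, cs] at h5 h7
  rw [oa, cs] at h6 h8
  rw [os, cs, os] at g1 g3
  rw [oa, cs, os] at g2 g4
  rw [on] at h1 h2
  have i0 : ((Int.ofNat D.mr : ℤ) : ℝ) = D.mr := rfl
  have i1 : ((Int.ofNat D.mi : ℤ) : ℝ) = D.mi := rfl
  have i4 : ((Int.ofNat D.er : ℤ) : ℝ) = D.er := rfl
  have i5 : ((Int.ofNat D.ei : ℤ) : ℝ) = D.ei := rfl
  have i2 : ((1073741824 + Int.ofNat D.en : ℤ) : ℝ) = 1073741824 + D.en := by push_cast; rfl
  have i3 : ((1073741824 - Int.ofNat D.en : ℤ) : ℝ) = 1073741824 - D.en := by push_cast; rfl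
  rw [i0] at h5 h6
  rw [i1] at h7 h8
  rw [i4] at g1 g2
  rw [i5] at g3 g4
  rw [i2] at h3
  rw [i3] at h4
  set s : ℝ := if D.sg then 1 else -1 with hs
  have k1 : 0 < s * (Hv T.c (V.c * (1 + (((D.dn : ℝ) / 1073741824 : ℝ) : ℂ) * I))).im := by
    rw [hs]
    split_ifs at h1 ⊢ <;> linarith
  have k2 : s * (Hv T.c (V.c * (1 + ((-((D.dn : ℝ) / 1073741824) : ℝ) : ℂ) * I))).im < 0 := by
    rw [hs]
    split_ifs at h2 ⊢ <;> linarith
  obtain ⟨l, l1, l2, l3, l4⟩ := lam_exists (T := T.c) (v := V.c) (d := (D.dn : ℝ) / 1073741824) (ε := (D.en : ℝ) / 1073741824) (s := s)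
    (by positivity) (by linarith) (by linarith) (by
      rw [add_div] at h3
      norm_num at h3
      linarith) (by
      rw [sub_div] at h4
      norm_num at h4
      linarith) k1 k2
  have vr : (V.c * V.c).re = (V.mul OR V).re := by
    rw [← c_mul]
    rfl
  have vi : (V.c * V.c).im = (V.mul OR V).im := by
    rw [← c_mul]
    rfl
  rw [vr, vi] at l3 l4
  have tri : ∀ x y z : ℝ, |x - z| ≤ |x - y| + |y - z| := fun x y z => by
    have := abs_add_le (x - y) (y - z)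
    rwa [sub_add_sub_cancel] at this
  refine ⟨⟨l.re, l.im⟩, l1, l2, ?_, ?_⟩
  · have hb : |(V.mul OR V).im| ≤ (D.mi : ℝ) / 1073741824 := abs_le.2 ⟨by linarith, by linarith⟩
    have hd0 : (0 : ℝ) ≤ 2 * ((D.dn : ℝ) / 1073741824) := by positivity
    have h9 := mul_le_mul_of_nonneg_left hb hd0
    have hw : |(V.mul OR V).re - W.re| ≤ (D.er : ℝ) / 1073741824 := abs_le.2 ⟨by linarith, by linarith⟩
    have ht := tri l.re (V.mul OR V).re W.re
    show |l.re - W.re| * 67108864 ≤ D.rr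
    nlinarith
  · have hb : |(V.mul OR V).re| ≤ (D.mr : ℝ) / 1073741824 := abs_le.2 ⟨by linarith, by linarith⟩
    have hd0 : (0 : ℝ) ≤ 2 * ((D.dn : ℝ) / 1073741824) := by positivity
    have h9 := mul_le_mul_of_nonneg_left hb hd0
    have hw : |(V.mul OR V).im - W.im| ≤ (D.ei : ℝ) / 1073741824 := abs_le.2 ⟨by linarith, by linarith⟩
    have ht := tri l.im (V.mul OR V).im W.im
    show |l.im - W.im| * 67108864 ≤ D.ri
    nlinarith

end Pool.Agent.Work.MP_88b7aa_gt.PQ
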