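import Pool.Agent.Work.MP_88b7aa_gt.PQ.Lib

/-!
# Vertex specifications and cells
-/

namespace Pool.Agent.Work.MP_88b7aa_gt.PQ

open Pool.Agent.Work.MP_88b7aa_gt.CH
open ComplexConjugate Complex Matrix

theorem VPk.dbl {α : ℝ} {l0 : ℕ} {P Q P' Q' : ℝ} (h : VPk α l0 P Q P' Q') : VPk α l0 (2 * P) (2 * Q) (2 * P') (2 * Q') := by
  obtain ⟨κ, κ0, h1, h2, h3, ⟨σ, hσ, s1, s2⟩, ⟨τ, hτ, t1, t2⟩⟩ := h.ex
  exact ⟨⟨κ, κ0, h1, h2, h3, ⟨σ / 2, by positivity, by rw [s1]; ring, by rw [s2]; ring⟩,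
    ⟨τ / 2, by positivity, by rw [t1]; ring, by rw [t2]; ring⟩⟩⟩

theorem qf_VV_dbl (G : Matrix (Fin 3) (Fin 3) ℂ) (i j k : Fin 3) (fi fj : ℂ) (P Q : ℝ) (x : Fin 3 → ℂ) :
    qf (VV G i j k fi fj (2 * P) (2 * Q)) x = 2 * qf (VV G i j k fi fj P Q) x := by
  rw [qf_VV, qf_VV]
  ring

/-- The polynomials `D_t` as expressions. -/
def DpS (c : Sc) : ℕ → Sc
  | 0 => .cst 1073741824 0
  | 1 => .add (.cst 1073741824 0) (.add c c)
  | t + 2 => .sub (.mul (.add c c) (DpS c (t + 1))) (DpS c t)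

/-- The polynomials `U_t` as expressions. -/
def UpS (c : Sc) : ℕ → Sc
  | 0 => .cst 0 0
  | 1 => .cst 1073741824 0
  | t + 2 => .sub (.mul (.add c c) (UpS c (t + 1))) (UpS c t)

/-- Negation. -/
def ngS (c : Sc) : Sc := .sub (.cst 0 0) c

theorem evS_one (e : Ev ℝ) : (evS OR e (.cst 1073741824 0)).c = ((1 : ℝ) : ℂ) := by
  rw [evS_cst]
  norm_num

theorem evS_zero (e : Ev ℝ) : (evS OR e (.cst 0 0)).c = ((0 : ℝ) : ℂ) := by
  rw [evS_cst]
  norm_num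

theorem ngS_c (e : Ev ℝ) {c : Sc} {x : ℝ} (h : (evS OR e c).c = (x : ℂ)) : (evS OR e (ngS c)).c = ((-x : ℝ) : ℂ) := by
  show (evS OR e (.sub (.cst 0 0) c)).c = _
  rw [evS_sub, evS_zero, h]
  push_cast
  ring

theorem DpS_c (e : Ev ℝ) {c : Sc} {x : ℝ} (h : (evS OR e c).c = (x : ℂ)) (t : ℕ) :
    (evS OR e (DpS c t)).c = (Dp x t : ℂ) ∧ (evS OR e (DpS c (t + 1))).c = (Dp x (t + 1) : ℂ) := by
  induction t with
  | zero =>
    refine ⟨evS_one e, ?_⟩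
    show (evS OR e (.add (.cst 1073741824 0) (.add c c))).c = ((1 + 2 * x : ℝ) : ℂ)
    rw [evS_add, evS_add, evS_one, h]
    push_cast
    ring
  | succ t ih =>
    refine ⟨ih.2, ?_⟩
    show (evS OR e (.sub (.mul (.add c c) (DpS c (t + 1))) (DpS c t))).c = ((2 * x * Dp x (t + 1) - Dp x t : ℝ) : ℂ)
    rw [evS_sub, evS_mul, evS_add, ih.1, ih.2, h]
    push_cast
    ring

theorem UpS_c (e : Ev ℝ) {c : Sc} {x : ℝ} (h : (evS OR e c).c = (x : ℂ)) (t : ℕ) :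
    (evS OR e (UpS c t)).c = (Up x t : ℂ) ∧ (evS OR e (UpS c (t + 1))).c = (Up x (t + 1) : ℂ) := by
  induction t with
  | zero => exact ⟨evS_zero e, evS_one e⟩
  | succ t ih =>
    refine ⟨ih.2, ?_⟩
    show (evS OR e (.sub (.mul (.add c c) (UpS c (t + 1))) (UpS c t))).c = ((2 * x * Up x (t + 1) - Up x t : ℝ) : ℂ)
    rw [evS_sub, evS_mul, evS_add, ih.1, ih.2, h]
    push_cast
    ring

theorem cpar_c {a b c : ℝ} {z : Cx ℝ} {ex : List (Cx ℝ)} (i j : Fin 3) :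
    (evS OR (mkEv OR a b c z ex) (.par (cpar i j))).c = ((evS OR (mkEv OR a b c z ex) (.par (cpar i j))).re : ℂ) := by
  have ha := mkEv_a a b c z ex
  have hb := mkEv_b a b c z ex
  have hc := mkEv_c a b c z ex
  have ra : (evS OR (mkEv OR a b c z ex) (.par 0)).re = a := rfl
  have rb : (evS OR (mkEv OR a b c z ex) (.par 1)).re = b := rfl
  have rc : (evS OR (mkEv OR a b c z ex) (.par 2)).re = c := rfl
  have w : cpar i j = 0 ∨ cpar i j = 1 ∨ cpar i j = 2 := by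
    unfold cpar
    split_ifs <;> simp
  rcases w with w | w | w <;> rw [w]
  · rw [ha, ra]
  · rw [hb, rb]
  · rw [hc, rc]

/-- The symmetric vertex forms. -/
theorem Vsp_sym {a b c : ℝ} {z : Cx ℝ} (hz : z.c * conj z.c = 1) (ex : List (Cx ℝ)) (M : CoxeterMatrix (Fin 3)) {i j k : Fin 3}
    (hij : i ≠ j) (hik : i ≠ k) (hjk : j ≠ k) {α : ℝ} (h0 : 0 < α) (h1 : α < Real.pi) (hα : (M i j : ℕ) * α = Real.pi)
    (hc : (evS OR (mkEv OR a b c z ex) (.par (cpar i j))).re = Real.cos α) (f : Sc) (fes : List FE) (t v u1 u2 : ℕ)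
    (hv : fes.getD v .gram = FEV i j f (ngS (DpS (.par (cpar i j)) t)) (ngS (DpS (.par (cpar i j)) (t + 1))))
    (hu1 : fes.getD u1 .gram = FEV i j f (DpS (.par (cpar i j)) (t + 2)) (DpS (.par (cpar i j)) (t + 1)))
    (hu2 : fes.getD u2 .gram = FEV i j f (DpS (.par (cpar i j)) (t + 1)) (DpS (.par (cpar i j)) (t + 2))) :
    (Vsp.big (2 * t + 3) v u1 u2).Holds M (gm (mkEv OR a b c z ex).g) (fun t => hm (frm OR (mkEv OR a b c z ex) fes t)) i j k := by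
  have hk := third_eq hij hik hjk
  have hcc := cpar_c (a := a) (b := b) (c := c) (z := z) (ex := ex) i j
  obtain ⟨d0, d1⟩ := DpS_c (mkEv OR a b c z ex) hcc t
  obtain ⟨-, d2⟩ := DpS_c (mkEv OR a b c z ex) hcc (t + 1)
  have hx := Vx_mk (a := a) (b := b) (c := c) hz ex hij hik hjk (evS OR (mkEv OR a b c z ex) f).c
  rw [hc] at hx d0 d1 d2
  refine ⟨_, _, α, _, _, _, _, hx, hα, (VPk_sym α h0 h1 t).dbl, fun x => ?_, fun x => ?_, fun x => ?_⟩
  · show qf (hm (evQ OR (mkEv OR a b c z ex) (fes.getD v .gram))) x = _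
    rw [hv, qf_FEV _ hk f _ _ (ngS_c _ d0) (ngS_c _ d1), qf_VV_dbl]
  · show qf (hm (evQ OR (mkEv OR a b c z ex) (fes.getD u1 .gram))) x = _
    rw [hu1, qf_FEV _ hk f _ _ d2 d1, qf_VV_dbl]
  · show qf (hm (evQ OR (mkEv OR a b c z ex) (fes.getD u2 .gram))) x = _
    rw [hu2, qf_FEV _ hk f _ _ d1 d2, qf_VV_dbl]

/-- The antiinvariant vertex forms. -/
theorem Vsp_anti {a b c : ℝ} {z : Cx ℝ} (hz : z.c * conj z.c = 1) (ex : List (Cx ℝ)) (M : CoxeterMatrix (Fin 3)) {i j k : Fin 3}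
    (hij : i ≠ j) (hik : i ≠ k) (hjk : j ≠ k) {α : ℝ} (h0 : 0 < α) (h1 : α < Real.pi) (hα : (M i j : ℕ) * α = Real.pi)
    (hc : (evS OR (mkEv OR a b c z ex) (.par (cpar i j))).re = Real.cos α) (f : Sc) (fes : List FE) (t v u1 u2 : ℕ)
    (hv : fes.getD v .gram = FEV i j f (ngS (UpS (.par (cpar i j)) t)) (ngS (UpS (.par (cpar i j)) (t + 1))))
    (hu1 : fes.getD u1 .gram = FEV i j f (UpS (.par (cpar i j)) (t + 1)) (UpS (.par (cpar i j)) t))
    (hu2 : fes.getD u2 .gram = FEV i j f (UpS (.par (cpar i j)) t) (UpS (.par (cpar i j)) (t + 1))) :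
    (Vsp.big (2 * t + 1) v u1 u2).Holds M (gm (mkEv OR a b c z ex).g) (fun t => hm (frm OR (mkEv OR a b c z ex) fes t)) i j k := by
  have hk := third_eq hij hik hjk
  have hcc := cpar_c (a := a) (b := b) (c := c) (z := z) (ex := ex) i j
  obtain ⟨d0, d1⟩ := UpS_c (mkEv OR a b c z ex) hcc t
  have hx := Vx_mk (a := a) (b := b) (c := c) hz ex hij hik hjk (evS OR (mkEv OR a b c z ex) f).c
  rw [hc] at hx d0 d1
  refine ⟨_, _, α, _, _, _, _, hx, hα, (VPk_anti α h0 h1 t).dbl, fun x => ?_, fun x => ?_, fun x => ?_⟩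
  · show qf (hm (evQ OR (mkEv OR a b c z ex) (fes.getD v .gram))) x = _
    rw [hv, qf_FEV _ hk f _ _ (ngS_c _ d0) (ngS_c _ d1), qf_VV_dbl]
  · show qf (hm (evQ OR (mkEv OR a b c z ex) (fes.getD u1 .gram))) x = _
    rw [hu1, qf_FEV _ hk f _ _ d1 d0, qf_VV_dbl]
  · show qf (hm (evQ OR (mkEv OR a b c z ex) (fes.getD u2 .gram))) x = _
    rw [hu2, qf_FEV _ hk f _ _ d0 d1, qf_VV_dbl]

theorem qf_VV_swap (G : Matrix (Fin 3) (Fin 3) ℂ) (i j k : Fin 3) (fi fj : ℂ) (P Q : ℝ) (x : Fin 3 → ℂ) :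
    qf (VV G i j k fi fj P Q) x = qf (VV G j i k fj fi Q P) x := by
  rw [qf_VV, qf_VV]
  ring

/-- The symmetric vertex forms of the opposite ordered pair, written with the functions of `(i, j)`. -/
theorem Vsp_sym' {a b c : ℝ} {z : Cx ℝ} (hz : z.c * conj z.c = 1) (ex : List (Cx ℝ)) (M : CoxeterMatrix (Fin 3)) {i j k : Fin 3}
    (hij : i ≠ j) (hik : i ≠ k) (hjk : j ≠ k) {α : ℝ} (h0 : 0 < α) (h1 : α < Real.pi) (hα : (M j i : ℕ) * α = Real.pi)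
    (hc : (evS OR (mkEv OR a b c z ex) (.par (cpar i j))).re = Real.cos α) (f : Sc) (fes : List FE) (t v u1 u2 : ℕ)
    (hv : fes.getD v .gram = FEV i j f (ngS (DpS (.par (cpar i j)) (t + 1))) (ngS (DpS (.par (cpar i j)) t)))
    (hu1 : fes.getD u1 .gram = FEV i j f (DpS (.par (cpar i j)) (t + 2)) (DpS (.par (cpar i j)) (t + 1)))
    (hu2 : fes.getD u2 .gram = FEV i j f (DpS (.par (cpar i j)) (t + 1)) (DpS (.par (cpar i j)) (t + 2))) :
    (Vsp.big (2 * t + 3) v u2 u1).Holds M (gm (mkEv OR a b c z ex).g) (fun t => hm (frm OR (mkEv OR a b c z ex) fes t)) j i k := by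
  have hk := third_eq hij hik hjk
  have hcc := cpar_c (a := a) (b := b) (c := c) (z := z) (ex := ex) i j
  obtain ⟨d0, d1⟩ := DpS_c (mkEv OR a b c z ex) hcc t
  obtain ⟨-, d2⟩ := DpS_c (mkEv OR a b c z ex) hcc (t + 1)
  have hx := Vx_mk (a := a) (b := b) (c := c) hz ex hij hik hjk (evS OR (mkEv OR a b c z ex) f).c
  rw [hc] at hx d0 d1 d2
  refine ⟨_, _, α, _, _, _, _, hx.symm, hα, (VPk_sym α h0 h1 t).dbl, fun x => ?_, fun x => ?_, fun x => ?_⟩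
  · show qf (hm (evQ OR (mkEv OR a b c z ex) (fes.getD v .gram))) x = _
    rw [hv, qf_FEV _ hk f _ _ (ngS_c _ d1) (ngS_c _ d0), qf_VV_dbl, qf_VV_swap]
  · show qf (hm (evQ OR (mkEv OR a b c z ex) (fes.getD u2 .gram))) x = _
    rw [hu2, qf_FEV _ hk f _ _ d1 d2, qf_VV_dbl, qf_VV_swap]
  · show qf (hm (evQ OR (mkEv OR a b c z ex) (fes.getD u1 .gram))) x = _
    rw [hu1, qf_FEV _ hk f _ _ d2 d1, qf_VV_dbl, qf_VV_swap]

/-- The antiinvariant vertex forms of the opposite ordered pair, written with the functions of `(i, j)`. -/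
theorem Vsp_anti' {a b c : ℝ} {z : Cx ℝ} (hz : z.c * conj z.c = 1) (ex : List (Cx ℝ)) (M : CoxeterMatrix (Fin 3)) {i j k : Fin 3}
    (hij : i ≠ j) (hik : i ≠ k) (hjk : j ≠ k) {α : ℝ} (h0 : 0 < α) (h1 : α < Real.pi) (hα : (M j i : ℕ) * α = Real.pi)
    (hc : (evS OR (mkEv OR a b c z ex) (.par (cpar i j))).re = Real.cos α) (f : Sc) (fes : List FE) (t v u1 u2 : ℕ)
    (hv : fes.getD v .gram = FEV i j f (ngS (UpS (.par (cpar i j)) (t + 1))) (ngS (UpS (.par (cpar i j)) t)))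
    (hu1 : fes.getD u1 .gram = FEV i j f (UpS (.par (cpar i j)) (t + 1)) (UpS (.par (cpar i j)) t))
    (hu2 : fes.getD u2 .gram = FEV i j f (UpS (.par (cpar i j)) t) (UpS (.par (cpar i j)) (t + 1))) :
    (Vsp.big (2 * t + 1) v u2 u1).Holds M (gm (mkEv OR a b c z ex).g) (fun t => hm (frm OR (mkEv OR a b c z ex) fes t)) j i k := by
  have hk := third_eq hij hik hjk
  have hcc := cpar_c (a := a) (b := b) (c := c) (z := z) (ex := ex) i j
  obtain ⟨d0, d1⟩ := UpS_c (mkEv OR a b c z ex) hcc t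
  have hx := Vx_mk (a := a) (b := b) (c := c) hz ex hij hik hjk (evS OR (mkEv OR a b c z ex) f).c
  rw [hc] at hx d0 d1
  refine ⟨_, _, α, _, _, _, _, hx.symm, hα, (VPk_anti α h0 h1 t).dbl, fun x => ?_, fun x => ?_, fun x => ?_⟩
  · show qf (hm (evQ OR (mkEv OR a b c z ex) (fes.getD v .gram))) x = _
    rw [hv, qf_FEV _ hk f _ _ (ngS_c _ d1) (ngS_c _ d0), qf_VV_dbl, qf_VV_swap]
  · show qf (hm (evQ OR (mkEv OR a b c z ex) (fes.getD u2 .gram))) x = _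
    rw [hu2, qf_FEV _ hk f _ _ d0 d1, qf_VV_dbl, qf_VV_swap]
  · show qf (hm (evQ OR (mkEv OR a b c z ex) (fes.getD u1 .gram))) x = _
    rw [hu1, qf_FEV _ hk f _ _ d1 d0, qf_VV_dbl, qf_VV_swap]

end Pool.Agent.Work.MP_88b7aa_gt.PQ
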