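import Pool.Agent.Work.MP_88b7aa_gt.PQ.Out

/-!
# The mirrors of a dihedral subgroup

The alternating word of length `2n+1` is the reflection in `m = U_{n+1} c_i + U_n (conj f) c_j`.  If `fA ≥ 1` then all mirrors other than
`c_i`, `c_j` satisfy `|⟨c_k, m⟩| ≥ 1`.
-/

namespace Pool.Agent.Work.MP_88b7aa_gt.PQ

open Pool.Agent.Work.MP_88b7aa_gt.CH
open ComplexConjugate Complex Matrix

theorem Up_succ (a : ℝ) (t : ℕ) : Up a (t + 2) = 2 * a * Up a (t + 1) - Up a t := rfl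

theorem Up_id (a : ℝ) (n : ℕ) : Up a (n + 1) ^ 2 + Up a n ^ 2 - 2 * a * (Up a n * Up a (n + 1)) = 1 := by
  induction n with
  | zero => simp [Up]
  | succ n ih =>
    rw [Up_succ]
    linear_combination ih

/-- The coefficients in closed form. -/
theorem wc_even_odd (a : ℝ) (n : ℕ) :
    ((wc OR a (2 * n)).p = -2 * Up a n ^ 2 ∧ (wc OR a (2 * n)).q = -2 * (Up a n * Up a (n + 1)) ∧
      (wc OR a (2 * n)).r = 2 * (Up a n * Up a (n + 1)) - 4 * a * Up a n ^ 2 ∧ (wc OR a (2 * n)).s = -2 * Up a n ^ 2) ∧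
    ((wc OR a (2 * n + 1)).p = 2 * Up a (n + 1) ^ 2 ∧ (wc OR a (2 * n + 1)).q = 2 * (Up a n * Up a (n + 1)) ∧
      (wc OR a (2 * n + 1)).r = 2 * (Up a n * Up a (n + 1)) ∧ (wc OR a (2 * n + 1)).s = 2 * Up a n ^ 2) := by
  have step : ∀ n, ((wc OR a (2 * n)).p = -2 * Up a n ^ 2 ∧ (wc OR a (2 * n)).q = -2 * (Up a n * Up a (n + 1)) ∧
      (wc OR a (2 * n)).r = 2 * (Up a n * Up a (n + 1)) - 4 * a * Up a n ^ 2 ∧ (wc OR a (2 * n)).s = -2 * Up a n ^ 2) →
    ((wc OR a (2 * n + 1)).p = 2 * Up a (n + 1) ^ 2 ∧ (wc OR a (2 * n + 1)).q = 2 * (Up a n * Up a (n + 1)) ∧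
      (wc OR a (2 * n + 1)).r = 2 * (Up a n * Up a (n + 1)) ∧ (wc OR a (2 * n + 1)).s = 2 * Up a n ^ 2) := by
    rintro n ⟨h1, h2, h3, h4⟩
    obtain ⟨e1, e2, e3, e4⟩ := wc_succ a (2 * n)
    have hs : (-1 : ℝ) ^ (2 * n) = 1 := by rw [pow_mul]; simp
    have hu := Up_id a n
    rw [e1, e2, e3, e4, h1, h2, h3, h4, hs]
    refine ⟨?_, ?_, ?_, ?_⟩
    · linear_combination (-2) * hu
    · ring
    · ring
    · ring
  induction n with
  | zero =>
    obtain ⟨h1, h2, h3, h4⟩ := wc_zero a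
    have h0 : ((wc OR a (2 * 0)).p = -2 * Up a 0 ^ 2 ∧ (wc OR a (2 * 0)).q = -2 * (Up a 0 * Up a (0 + 1)) ∧
      (wc OR a (2 * 0)).r = 2 * (Up a 0 * Up a (0 + 1)) - 4 * a * Up a 0 ^ 2 ∧ (wc OR a (2 * 0)).s = -2 * Up a 0 ^ 2) := by
      have e : 2 * 0 = 0 := rfl
      rw [e, h1, h2, h3, h4]
      simp [Up]
    exact ⟨h0, step 0 h0⟩
  | succ n ih =>
    obtain ⟨-, h1, h2, h3, h4⟩ := ih
    obtain ⟨e1, e2, e3, e4⟩ := wc_succ a (2 * n + 1)
    have hs : (-1 : ℝ) ^ (2 * n + 1) = -1 := by rw [pow_succ, pow_mul]; simp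
    have hu := Up_id a n
    have hE : 2 * (n + 1) = 2 * n + 1 + 1 := by ring
    have h0 : ((wc OR a (2 * (n + 1))).p = -2 * Up a (n + 1) ^ 2 ∧
        (wc OR a (2 * (n + 1))).q = -2 * (Up a (n + 1) * Up a (n + 1 + 1)) ∧
      (wc OR a (2 * (n + 1))).r = 2 * (Up a (n + 1) * Up a (n + 1 + 1)) - 4 * a * Up a (n + 1) ^ 2 ∧
      (wc OR a (2 * (n + 1))).s = -2 * Up a (n + 1) ^ 2) := by
      rw [hE, e1, e2, e3, e4, h1, h2, h3, h4, hs, Up_succ]
      refine ⟨?_, ?_, ?_, ?_⟩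
      · linear_combination 2 * hu
      · ring
      · ring
      · ring
    exact ⟨h0, step (n + 1) h0⟩

/-- The mirror. -/
def mv (a : ℝ) (f : ℂ) (i j : Fin 3) (n : ℕ) : Fin 3 → ℂ := fun c =>
  if c = i then (Up a (n + 1) : ℂ) else if c = j then (Up a n : ℂ) * conj f else 0

theorem third_ck : ∀ c i j k : Fin 3, i ≠ j → i ≠ k → j ≠ k → c ≠ i → c ≠ j → c = k := by decide

/-- The alternating word of odd length is a reflection. -/
theorem altS_odd {G : Matrix (Fin 3) (Fin 3) ℂ} (hG : IsGram G) {a : ℝ} {f : ℂ} {i j k : Fin 3} (hij : i ≠ j) (hik : i ≠ k)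
    (hjk : j ≠ k) (hf1 : f * conj f = 1) (h : G i j = -(a : ℂ) * f) (n : ℕ) (x : Fin 3 → ℂ) :
    altS G i j (2 * n + 1) *ᵥ x = Rm G (mv a f i j n) x := by
  obtain ⟨-, h1, h2, h3, h4⟩ := wc_even_odd a n
  have hmi : mv a f i j n i = (Up a (n + 1) : ℂ) := if_pos rfl
  have hmj : mv a f i j n j = (Up a n : ℂ) * conj f := by
    unfold mv
    rw [if_neg hij.symm, if_pos rfl]
  have hmk : mv a f i j n k = 0 := by
    unfold mv
    rw [if_neg hik.symm, if_neg hjk.symm]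
  have hhf : hf G x (mv a f i j n) = (Up a (n + 1) : ℂ) * (∑ b, G i b * x b) + (Up a n : ℂ) * f * (∑ b, G j b * x b) := by
    unfold hf
    rw [sum3 hij hik hjk, hmi, hmj, hmk]
    simp only [map_mul, Complex.conj_ofReal, Complex.conj_conj, map_zero]
    ring
  have hs : ((((-1) ^ (2 * n + 1) : ℝ)) : ℂ) = -1 := by
    rw [pow_succ, pow_mul]
    simp
  ext c
  rw [altS_closed hG (2 * n + 1) hf1 h x c, h1, h2, h3, h4, hs]
  unfold Rm
  rw [hhf]
  set X := ∑ b, G i b * x b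
  set Y := ∑ b, G j b * x b
  push_cast
  by_cases hci : c = i
  · subst hci
    rw [if_pos rfl, if_neg hij, hmi]
    ring
  · by_cases hcj : c = j
    · subst hcj
      rw [if_neg hij.symm, if_pos rfl, hmj]
      linear_combination (-2 * (Up a n : ℂ) ^ 2 * Y) * hf1
    · have hck := third_ck c i j k hij hik hjk hci hcj
      subst hck
      rw [if_neg hci, if_neg hcj, hmk]
      ring

/-- The mirror is a unit vector. -/
theorem mv_unit {G : Matrix (Fin 3) (Fin 3) ℂ} (hG : IsGram G) {a : ℝ} {f : ℂ} {i j k : Fin 3} (hij : i ≠ j) (hik : i ≠ k)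
    (hjk : j ≠ k) (hf' : f * conj f = 1) (h : G i j = -(a : ℂ) * f) (n : ℕ) : hf G (mv a f i j n) (mv a f i j n) = 1 := by
  have hmi : mv a f i j n i = (Up a (n + 1) : ℂ) := if_pos rfl
  have hmj : mv a f i j n j = (Up a n : ℂ) * conj f := by
    unfold mv
    rw [if_neg hij.symm, if_pos rfl]
  have hmk : mv a f i j n k = 0 := by
    unfold mv
    rw [if_neg hik.symm, if_neg hjk.symm]
  have hji : G j i = -(a : ℂ) * conj f := by
    rw [← hG.hm i j, h]
    simp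
  have hu : ((Up a (n + 1) : ℂ)) ^ 2 + (Up a n : ℂ) ^ 2 - 2 * a * ((Up a n : ℂ) * Up a (n + 1)) = 1 := by
    exact_mod_cast congrArg (fun z : ℝ => (z : ℂ)) (Up_id a n)
  unfold hf
  rw [sum3 hij hik hjk, sum3 hij hik hjk (fun b => G i b * mv a f i j n b), sum3 hij hik hjk (fun b => G j b * mv a f i j n b),
    hmi, hmj, hmk, hG.dg, hG.dg, h, hji]
  simp only [map_mul, Complex.conj_ofReal, Complex.conj_conj, map_zero]
  linear_combination hu + ((Up a n : ℂ) ^ 2 - 2 * a * (Up a n : ℂ) * Up a (n + 1)) * hf'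

/-- The inequality. -/
theorem mir_ge {a P Q X Y Z : ℝ} (ha : 1 / 2 ≤ a) (hP : 0 ≤ P) (hQ : 0 ≤ Q) (h1 : P ^ 2 + Q ^ 2 - 2 * a * (Q * P) = 1)
    (h2 : Q ≤ 2 * a * P) (h3 : P ≤ 2 * a * Q) (hY : 0 ≤ Y) (g1 : 4 * a ^ 2 * X + Y ≤ 4 * a * Z) (g2 : X + 4 * a ^ 2 * Y ≤ 4 * a * Z) :
    P ^ 2 * X + Q ^ 2 * Y ≤ 2 * (P * Q) * Z := by
  rcases eq_or_lt_of_le ha with h | h
  · subst h
    have e : P = Q := by linarith
    subst e
    have e2 : P ^ 2 = 1 := by linarith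
    have e3 : P * P = 1 := by rw [← e2]; ring
    rw [e2, e3]
    linarith
  · have hD : 0 < 4 * a ^ 2 - 1 := by nlinarith
    have k1 : 0 ≤ P * (2 * a * P - Q) * (4 * a * Z - 4 * a ^ 2 * X - Y) :=
      mul_nonneg (mul_nonneg hP (by linarith)) (by linarith)
    have k2 : 0 ≤ 2 * a * P * (2 * a * Q - P) * (4 * a * Z - X - 4 * a ^ 2 * Y) :=
      mul_nonneg (mul_nonneg (mul_nonneg (by linarith) hP) (by linarith)) (by linarith)
    have k3 : 0 ≤ (4 * a ^ 2 - 1) * (Y * ((2 * a * P - Q) * (2 * a * Q - P))) :=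
      mul_nonneg hD.le (mul_nonneg hY (mul_nonneg (by linarith) (by linarith)))
    have key : (4 * a ^ 2 - 1) * (2 * a) * (2 * (P * Q) * Z - P ^ 2 * X - Q ^ 2 * Y) =
        P * (2 * a * P - Q) * (4 * a * Z - 4 * a ^ 2 * X - Y) + 2 * a * P * (2 * a * Q - P) * (4 * a * Z - X - 4 * a ^ 2 * Y) +
        (4 * a ^ 2 - 1) * (Y * ((2 * a * P - Q) * (2 * a * Q - P))) := by
      ring
    have k4 : 0 ≤ (4 * a ^ 2 - 1) * (2 * a) * (2 * (P * Q) * Z - P ^ 2 * X - Q ^ 2 * Y) := by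
      rw [key]
      positivity
    have k5 : 0 < (4 * a ^ 2 - 1) * (2 * a) := mul_pos hD (by linarith)
    have := nonneg_of_mul_nonneg_right k4 k5
    linarith

theorem Up_nonneg {p : ℕ} (hp : 3 ≤ p) {n : ℕ} (h : n ≤ p) : 0 ≤ Up (Real.cos (Real.pi / p)) n := by
  have hp' : (3 : ℝ) ≤ p := by exact_mod_cast hp
  have hn' : (n : ℝ) ≤ p := by exact_mod_cast h
  have hpi := Real.pi_pos
  have hs : 0 < Real.sin (Real.pi / p) := by
    apply Real.sin_pos_of_pos_of_lt_pi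
    · positivity
    · rw [div_lt_iff₀ (by linarith)]
      nlinarith
  have h1 := (sin_Up (Real.pi / p) n).1
  have h2 : 0 ≤ Real.sin (n * (Real.pi / p)) := by
    apply Real.sin_nonneg_of_nonneg_of_le_pi
    · positivity
    · have : (n : ℝ) * (Real.pi / p) = Real.pi * (n / p) := by ring
      rw [this]
      have : (n : ℝ) / p ≤ 1 := by
        rw [div_le_one (by linarith)]
        exact hn'
      nlinarith
  rw [h1] at h2
  exact nonneg_of_mul_nonneg_left h2 hs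

theorem perm_ge {a b c u : ℝ} (ha : 1 / 2 ≤ a) (hab : a ≤ b) (hbc : b ≤ c) (h : 1 ≤ fA a b c u) :
    1 ≤ 4 * a ^ 2 * b ^ 2 + c ^ 2 + 4 * (a * (b * c)) * u ∧ 1 ≤ 4 * a ^ 2 * c ^ 2 + b ^ 2 + 4 * (a * (b * c)) * u ∧
      1 ≤ 4 * b ^ 2 * c ^ 2 + a ^ 2 + 4 * (a * (b * c)) * u := by
  have h0 : 1 ≤ 4 * a ^ 2 * b ^ 2 + c ^ 2 + 4 * (a * (b * c)) * u := by
    unfold fA at h
    linarith
  have h1 : 0 ≤ 4 * a ^ 2 - 1 := by nlinarith
  have h2 : 0 ≤ 4 * b ^ 2 - 1 := by nlinarith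
  have h3 : 0 ≤ c ^ 2 - b ^ 2 := by nlinarith
  have h4 : 0 ≤ c ^ 2 - a ^ 2 := by nlinarith
  refine ⟨h0, ?_, ?_⟩
  · nlinarith [mul_nonneg h1 h3]
  · nlinarith [mul_nonneg h2 h4]

theorem nsq_mir (x y P Q : ℝ) {w : ℂ} (hw : normSq w = 1) :
    normSq (-(x : ℂ) * w * P + -(y : ℂ) * conj w * (Q * conj w)) =
      P ^ 2 * x ^ 2 + Q ^ 2 * y ^ 2 + 2 * (P * Q) * (x * y) * (w * w * w).re := by
  have e : normSq (-(x : ℂ) * w * P + -(y : ℂ) * conj w * (Q * conj w)) =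
      P ^ 2 * x ^ 2 * normSq w + Q ^ 2 * y ^ 2 * (normSq w * normSq w) + 2 * (P * Q) * (x * y) * (w * w * w).re := by
    simp only [normSq_apply, Complex.add_re, Complex.add_im, Complex.mul_re, Complex.mul_im, Complex.neg_re, Complex.neg_im,
      Complex.ofReal_re, Complex.ofReal_im, Complex.conj_re, Complex.conj_im]
    ring
  rw [e, hw]
  ring

theorem mir_core {G : Matrix (Fin 3) (Fin 3) ℂ} (hG : IsGram G) {i j k : Fin 3} (hij : i ≠ j) (hik : i ≠ k) (hjk : j ≠ k)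
    {x y u : ℝ} {w : ℂ} (hw : normSq w = 1) (hu : (w * w * w).re = u) (e1 : G k i = -(x : ℂ) * w) (e2 : G k j = -(y : ℂ) * conj w)
    (hy : y ^ 2 ≤ 1) (m n : ℕ) (hge : 3 ≤ m) (hn : 1 ≤ n) (hm : 2 * n + 1 ≤ m)
    (g1 : 1 ≤ 4 * Real.cos (Real.pi / m) ^ 2 * x ^ 2 + y ^ 2 + 4 * (Real.cos (Real.pi / m) * (x * y)) * u)
    (g2 : 1 ≤ 4 * Real.cos (Real.pi / m) ^ 2 * y ^ 2 + x ^ 2 + 4 * (Real.cos (Real.pi / m) * (x * y)) * u) :
    1 ≤ normSq (∑ b, G k b * mv (Real.cos (Real.pi / m)) w i j n b) := by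
  have ha : 1 / 2 ≤ Real.cos (Real.pi / m) := by
    have := cos_mono (le_refl 3) hge
    have e : Real.cos (Real.pi / (3 : ℕ)) = 1 / 2 := by
      push_cast
      exact Real.cos_pi_div_three
    rw [e] at this
    exact this
  have hP := Up_nonneg hge (show n + 1 ≤ m by omega)
  have hQ := Up_nonneg hge (show n ≤ m by omega)
  have h2 := Up_nonneg hge (show n + 2 ≤ m by omega)
  have h3 := Up_nonneg hge (show n - 1 ≤ m by omega)
  have hid := Up_id (Real.cos (Real.pi / m)) n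
  rw [Up_succ] at h2
  have h3' : Up (Real.cos (Real.pi / m)) (n + 1) ≤ 2 * Real.cos (Real.pi / m) * Up (Real.cos (Real.pi / m)) n := by
    obtain ⟨n', rfl⟩ : ∃ n', n = n' + 1 := ⟨n - 1, by omega⟩
    have e : n' + 1 - 1 = n' := by omega
    rw [e] at h3
    rw [Up_succ]
    linarith
  have hmi : mv (Real.cos (Real.pi / m)) w i j n i = (Up (Real.cos (Real.pi / m)) (n + 1) : ℂ) := if_pos rfl
  have hmj : mv (Real.cos (Real.pi / m)) w i j n j = (Up (Real.cos (Real.pi / m)) n : ℂ) * conj w := by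
    unfold mv
    rw [if_neg hij.symm, if_pos rfl]
  have hmk : mv (Real.cos (Real.pi / m)) w i j n k = 0 := by
    unfold mv
    rw [if_neg hik.symm, if_neg hjk.symm]
  rw [sum3 hij hik hjk, hmi, hmj, hmk, e1, e2, mul_zero, add_zero, nsq_mir x y _ _ hw, hu]
  set a' := Real.cos (Real.pi / m)
  set P := Up a' (n + 1)
  set Q := Up a' n
  have key := mir_ge (a := a') (P := P) (Q := Q) (X := 1 - x ^ 2) (Y := 1 - y ^ 2) (Z := x * y * u + a') ha hP hQ hid
    (by linarith) h3' (by linarith) (by nlinarith) (by nlinarith)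
  nlinarith

/-- The inequality for the mirrors of the environment. -/
theorem mir_env (p q r : ℕ) (hp : 3 ≤ p) (hpq : p ≤ q) (hqr : q ≤ r) (θ : ℝ) (ex : List (Cx ℝ))
    (hfA : 1 ≤ fA (Real.cos (Real.pi / p)) (Real.cos (Real.pi / q)) (Real.cos (Real.pi / r)) (Real.cos θ))
    {i j k : Fin 3} (hij : i ≠ j) (hik : i ≠ k) (hjk : j ≠ k) (n : ℕ) (hn : 1 ≤ n)
    (hm : 2 * n + 1 ≤ mcox p q r (by omega) (by omega) (by omega) i j) :
    1 ≤ normSq (∑ b, gm (tEv p q r θ ex).g k b * mv (Real.cos (Real.pi / mcox p q r (by omega) (by omega) (by omega) i j))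
      (evS OR (tEv p q r θ ex) (wph i j)).c i j n b) := by
  have hG := gm_gram (tEv p q r θ ex).g
  have hge := mcox_ge p q r hp (by omega) (by omega) hij
  have hab := cos_mono hp hpq
  have hbc := cos_mono (show 3 ≤ q by omega) hqr
  have ha : 1 / 2 ≤ Real.cos (Real.pi / p) := by
    have := cos_mono (le_refl 3) hp
    have e : Real.cos (Real.pi / (3 : ℕ)) = 1 / 2 := by
      push_cast
      exact Real.cos_pi_div_three
    rw [e] at this
    exact this
  have hc1 : Real.cos (Real.pi / r) ≤ 1 := Real.cos_le_one _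
  obtain ⟨g0, g1, g2⟩ := perm_ge ha hab hbc hfA
  set a := Real.cos (Real.pi / p) with had
  set b := Real.cos (Real.pi / q) with hbd
  set c := Real.cos (Real.pi / r) with hcd
  have hw : (evS OR (tEv p q r θ ex) (.par 4)).c = conj (zz (θ / 6)).c * conj (zz (θ / 6)).c := mkEv_w a b c (zz (θ / 6)) ex
  have hgx : gm (tEv p q r θ ex).g = Gx a b c (conj (zz (θ / 6)).c * conj (zz (θ / 6)).c) := mkEv_gm a b c (zz (θ / 6)) ex
  have hz := zz_unit (θ / 6)
  have hw3 : ((conj (zz (θ / 6)).c * conj (zz (θ / 6)).c) * (conj (zz (θ / 6)).c * conj (zz (θ / 6)).c) *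
      (conj (zz (θ / 6)).c * conj (zz (θ / 6)).c)).re = Real.cos θ := by
    have := W3_c a b c (θ / 6) ex
    have e : (evS OR (mkEv OR a b c (zz (θ / 6)) ex) W3).c = (conj (zz (θ / 6)).c * conj (zz (θ / 6)).c) *
        (conj (zz (θ / 6)).c * conj (zz (θ / 6)).c) * (conj (zz (θ / 6)).c * conj (zz (θ / 6)).c) := by
      show (evS OR _ (.mul (.mul (.par 4) (.par 4)) (.par 4))).c = _
      rw [evS_mul, evS_mul, mkEv_w]
    rw [← e, this]
    show Real.cos (6 * (θ / 6)) = _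
    congr 1
    ring
  have hwn : normSq (conj (zz (θ / 6)).c * conj (zz (θ / 6)).c) = 1 := by
    have h1 : normSq (zz (θ / 6)).c = 1 := by
      have := hz
      rw [Complex.mul_conj] at this
      exact_mod_cast this
    rw [map_mul, Complex.normSq_conj, h1]
    norm_num
  set w := conj (zz (θ / 6)).c * conj (zz (θ / 6)).c with hwd
  have hwn' : normSq (conj w) = 1 := by rw [Complex.normSq_conj]; exact hwn
  have hw3' : (conj w * conj w * conj w).re = Real.cos θ := by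
    rw [← map_mul, ← map_mul, Complex.conj_re]
    exact hw3
  have ha0 : 0 ≤ a := by linarith
  have hb0 : 0 ≤ b := by linarith
  have hc0 : 0 ≤ c := by linarith
  have ha2 : a ^ 2 ≤ 1 := by nlinarith
  have hb2 : b ^ 2 ≤ 1 := by nlinarith
  have hc2 : c ^ 2 ≤ 1 := by nlinarith
  have w1 : ∀ i j : Fin 3, cyc i j = true → (evS OR (tEv p q r θ ex) (wph i j)).c = w := by
    intro i j h
    have e : wph i j = .par 4 := if_pos h
    rw [e, hw]
  have w2 : ∀ i j : Fin 3, cyc i j = false → (evS OR (tEv p q r θ ex) (wph i j)).c = conj w := by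
    intro i j h
    have e : wph i j = .cj (.par 4) := if_neg (by rw [h]; decide)
    rw [e, evS_cj, hw]
  fin_cases i <;> fin_cases j <;> fin_cases k <;>
    first
    | exact absurd rfl hij
    | exact absurd rfl hik
    | exact absurd rfl hjk
    | skip
  · have hf := w1 0 1 rfl
    show 1 ≤ normSq (∑ b, gm (tEv p q r θ ex).g 2 b * mv (Real.cos (Real.pi / q)) (evS OR (tEv p q r θ ex) (wph 0 1)).c 0 1 n b)
    rw [hf]
    refine mir_core hG hij hik hjk (x := c) (y := a) hwn hw3 ?_ ?_ ha2 q n hge hn hm ?_ ?_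
    · rw [hgx]; simp [Gx]
    · rw [hgx]; simp [Gx]
    · nlinarith
    · nlinarith
  · have hf := w2 0 2 rfl
    show 1 ≤ normSq (∑ b, gm (tEv p q r θ ex).g 1 b * mv (Real.cos (Real.pi / r)) (evS OR (tEv p q r θ ex) (wph 0 2)).c 0 2 n b)
    rw [hf]
    refine mir_core hG hij hik hjk (x := b) (y := a) hwn' hw3' ?_ ?_ ha2 r n hge hn hm ?_ ?_
    · rw [hgx]; simp [Gx]
    · rw [hgx]; simp [Gx]
    · nlinarith
    · nlinarith
  · have hf := w2 1 0 rfl
    show 1 ≤ normSq (∑ b, gm (tEv p q r θ ex).g 2 b * mv (Real.cos (Real.pi / q)) (evS OR (tEv p q r θ ex) (wph 1 0)).c 1 0 n b)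
    rw [hf]
    refine mir_core hG hij hik hjk (x := a) (y := c) hwn' hw3' ?_ ?_ hc2 q n hge hn hm ?_ ?_
    · rw [hgx]; simp [Gx]
    · rw [hgx]; simp [Gx]
    · nlinarith
    · nlinarith
  · have hf := w1 1 2 rfl
    show 1 ≤ normSq (∑ b, gm (tEv p q r θ ex).g 0 b * mv (Real.cos (Real.pi / p)) (evS OR (tEv p q r θ ex) (wph 1 2)).c 1 2 n b)
    rw [hf]
    refine mir_core hG hij hik hjk (x := b) (y := c) hwn hw3 ?_ ?_ hc2 p n hge hn hm ?_ ?_
    · rw [hgx]; simp [Gx]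
    · rw [hgx]; simp [Gx]
    · nlinarith
    · nlinarith
  · have hf := w1 2 0 rfl
    show 1 ≤ normSq (∑ b, gm (tEv p q r θ ex).g 1 b * mv (Real.cos (Real.pi / r)) (evS OR (tEv p q r θ ex) (wph 2 0)).c 2 0 n b)
    rw [hf]
    refine mir_core hG hij hik hjk (x := a) (y := b) hwn hw3 ?_ ?_ hb2 r n hge hn hm ?_ ?_
    · rw [hgx]; simp [Gx]
    · rw [hgx]; simp [Gx]
    · nlinarith
    · nlinarith
  · have hf := w2 2 1 rfl
    show 1 ≤ normSq (∑ b, gm (tEv p q r θ ex).g 0 b * mv (Real.cos (Real.pi / p)) (evS OR (tEv p q r θ ex) (wph 2 1)).c 2 1 n b)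
    rw [hf]
    refine mir_core hG hij hik hjk (x := c) (y := b) hwn' hw3' ?_ ?_ hb2 p n hge hn hm ?_ ?_
    · rw [hgx]; simp [Gx]
    · rw [hgx]; simp [Gx]
    · nlinarith
    · nlinarith

/-- The star condition for the mirrors of the environment. -/
theorem mir_star (p q r : ℕ) (hp : 3 ≤ p) (hpq : p ≤ q) (hqr : q ≤ r) (θ : ℝ) (ex : List (Cx ℝ))
    (hfA : 1 ≤ fA (Real.cos (Real.pi / p)) (Real.cos (Real.pi / q)) (Real.cos (Real.pi / r)) (Real.cos θ))
    {i j k : Fin 3} (hij : i ≠ j) (hik : i ≠ k) (hjk : j ≠ k) (n : ℕ) (hn : 1 ≤ n)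
    (hm : 2 * n + 1 ≤ mcox p q r (by omega) (by omega) (by omega) i j) (z : Fin 3 → ℂ)
    (hz : qf (gm (tEv p q r θ ex).g) z < 0) (hQ : 0 < qf (QP (gm (tEv p q r θ ex).g) k) z) :
    qf (QP (gm (tEv p q r θ ex).g) k) (altS (gm (tEv p q r θ ex).g) i j (2 * n + 1) *ᵥ z) < 0 := by
  have hG := gm_gram (tEv p q r θ ex).g
  have hev := tEv_ok p q r θ ex
  have hcp := cpar_val p q r (by omega) (by omega) (by omega) (zz (θ / 6)) ex hij
  have hkey := hev.key i j hij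
  have hunit := hev.unit i j
  have hcp' : (evS OR (tEv p q r θ ex) (.par (cpar i j))).re =
    Real.cos (Real.pi / mcox p q r (by omega) (by omega) (by omega) i j) := hcp
  rw [hcp'] at hkey
  rw [altS_odd hG hij hik hjk hunit hkey]
  have hmk : mv (Real.cos (Real.pi / mcox p q r (by omega) (by omega) (by omega) i j))
      (evS OR (tEv p q r θ ex) (wph i j)).c i j n k = 0 := by
    unfold mv
    rw [if_neg hik.symm, if_neg hjk.symm]
  refine star_neg _ hG hik.symm hjk.symm hij _ hmk (mv_unit hG hij hik hjk hunit hkey n) ?_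
    (mir_env p q r hp hpq hqr θ ex hfA hij hik hjk n hn hm) z hz hQ
  rw [hkey]
  have h1 : normSq (evS OR (tEv p q r θ ex) (wph i j)).c = 1 := by
    have := hunit
    rw [Complex.mul_conj] at this
    exact_mod_cast this
  rw [map_mul, h1, mul_one, ← Complex.ofReal_neg, Complex.normSq_ofReal]
  have h2 := Real.cos_le_one (Real.pi / mcox p q r (by omega) (by omega) (by omega) i j)
  have h3 := Real.neg_one_le_cos (Real.pi / mcox p q r (by omega) (by omega) (by omega) i j)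
  nlinarith

end Pool.Agent.Work.MP_88b7aa_gt.PQ
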