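import Pool.Agent.Work.MP_88b7aa_gt.PQ.Rel

/-!
# Numeric facts

An arithmetic `Ar R` has operations and two tests: `pos` (the number is positive) and `psd` (the Hermitian matrix is semidefinite).
A numeric fact `NF` consists of the word, the length `l1` of its first part, the source, the target and the two multipliers (over `2^30`).
-/

noncomputable section

namespace Pool.Agent.Work.MP_88b7aa_gt.PQ

open Pool.Agent.Work.MP_88b7aa_gt.CH
open ComplexConjugate Complex Matrix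

/-- An arithmetic with tests. -/
structure Ar (R : Type) where
  O : Ops R
  pos : R → Bool
  psd : H9 R → Bool

/-- Soundness of an arithmetic. -/
structure ArOK {R : Type} (A : Ar R) (Rel : ℝ → R → Prop) : Prop where
  rel : OpsRel A.O Rel
  pos : ∀ {x : ℝ} {t : R}, Rel x t → A.pos t = true → 0 < x
  psd : ∀ {Q : H9 ℝ} {t : H9 R}, RH Rel Q t → A.psd t = true → ∀ x, 0 ≤ qf (hm Q) x

/-- A numeric fact. -/
structure NF where
  i : Fin 3
  j : Fin 3
  l : ℕ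
  l1 : ℕ
  s : Option ℕ
  t : ℕ
  lam : Int
  mu : Int

def NF.fct (f : NF) : Fct := ⟨f.i, f.j, f.l, f.s, f.t⟩

section
variable {R : Type} (A : Ar R)

/-- The form number `t` of a list. -/
def frm (O : Ops R) (e : Ev R) (fes : List FE) (t : ℕ) : H9 R := evQ O e (fes.getD t .gram)

/-- The value of the form `t` at the image of `o`. -/
def pval (e : Ev R) (Q : ℕ → H9 R) (o : Rw R) (i j : Fin 3) (l l1 t : ℕ) : R :=
  val A.O ((Q t).cmpL A.O e.g ((wrd i j l).take l1)) (vrfL A.O e.g ((wrd i j l).drop l1) o)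

/-- The matrix of a fact. -/
def fmat (e : Ev R) (Q : ℕ → H9 R) (i j : Fin 3) (l l1 s t : ℕ) (lam mu : Int) : H9 R :=
  (((Q t).cmpL A.O e.g ((wrd i j l).take l1)).sub A.O
    (((Q s).cmpL A.O e.g ((wrd i j l).drop l1).reverse).smul A.O (A.O.cst lam))).add A.O
    ((H9.gram A.O e.g).smul A.O (A.O.cst mu))

def NF.chk (e : Ev R) (Q : ℕ → H9 R) (o : Rw R) (f : NF) : Bool :=
  match f.s with
  | none => A.pos (pval A e Q o f.i f.j f.l f.l1 f.t)
  | some s => A.psd (fmat A e Q f.i f.j f.l f.l1 s f.t f.lam f.mu) &&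
      (decide (0 ≤ f.lam) && (decide (0 ≤ f.mu) && decide (0 < f.lam + f.mu)))

end

section
variable {R : Type} {A : Ar R} {Rel : ℝ → R → Prop}

/-- The dictionary of the real numbers as an arithmetic (the tests are not used). -/
noncomputable def AR : Ar ℝ := ⟨OR, fun _ => true, fun _ => true⟩

theorem pval_real (e : Ev ℝ) (Q : ℕ → H9 ℝ) (o : Rw ℝ) (i j : Fin 3) (l l1 t : ℕ) :
    pval AR e Q o i j l l1 t = qf (hm (Q t)) (altS (gm e.g) i j l *ᵥ o.vec) := by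
  show val OR ((Q t).cmpL OR e.g ((wrd i j l).take l1)) (vrfL OR e.g ((wrd i j l).drop l1) o) = _
  rw [val_vec, cmpL_qf, vrfL_vec, ← actL_append, List.take_append_drop, actL_wrd]

theorem fmat_real (e : Ev ℝ) (Q : ℕ → H9 ℝ) (i j : Fin 3) (l l1 s t : ℕ) (lam mu : Int) (x : Fin 3 → ℂ) :
    qf (hm (fmat AR e Q i j l l1 s t lam mu)) (actL (gm e.g) ((wrd i j l).drop l1) x) =
      qf (hm (Q t)) (altS (gm e.g) i j l *ᵥ x) - (lam : ℝ) / 1073741824 * qf (hm (Q s)) x + (mu : ℝ) / 1073741824 * qf (gm e.g) x := by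
  show qf (hm ((((Q t).cmpL OR e.g ((wrd i j l).take l1)).sub OR
    (((Q s).cmpL OR e.g ((wrd i j l).drop l1).reverse).smul OR (OR.cst lam))).add OR
    ((H9.gram OR e.g).smul OR (OR.cst mu)))) (actL (gm e.g) ((wrd i j l).drop l1) x) = _
  have hG := gm_gram e.g
  rw [qf_hadd, qf_hsub, qf_hsmul, qf_hsmul, cmpL_qf, cmpL_qf, hm_gram, ← actL_append, List.take_append_drop, actL_wrd,
    actL_reverse _ hG, qf_gram_actL _ hG]
  rfl

theorem Rpval (hA : ArOK A Rel) {e : Ev ℝ} {e' : Ev R} (he : REv Rel e e') {Q : ℕ → H9 ℝ} {Q' : ℕ → H9 R}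
    (hQ : ∀ t, RH Rel (Q t) (Q' t)) {o : Rw ℝ} {o' : Rw R} (ho : RRw Rel o o') (i j : Fin 3) (l l1 t : ℕ) :
    Rel (pval AR e Q o i j l l1 t) (pval A e' Q' o' i j l l1 t) :=
  Rval hA.rel (RH.cmpL hA.rel he.g _ (hQ t)) (RRw.vrfL hA.rel he.g _ ho)

theorem Rfmat (hA : ArOK A Rel) {e : Ev ℝ} {e' : Ev R} (he : REv Rel e e') {Q : ℕ → H9 ℝ} {Q' : ℕ → H9 R}
    (hQ : ∀ t, RH Rel (Q t) (Q' t)) (i j : Fin 3) (l l1 s t : ℕ) (lam mu : Int) :
    RH Rel (fmat AR e Q i j l l1 s t lam mu) (fmat A e' Q' i j l l1 s t lam mu) :=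
  RH.add hA.rel (RH.sub hA.rel (RH.cmpL hA.rel he.g _ (hQ t)) (RH.smul hA.rel (hA.rel.cst lam) (RH.cmpL hA.rel he.g _ (hQ s))))
    (RH.smul hA.rel (hA.rel.cst mu) (RH.gram hA.rel he.g))

/-- Soundness of numeric facts. -/
theorem NF.sound (hA : ArOK A Rel) {e : Ev ℝ} {e' : Ev R} (he : REv Rel e e') {Q : ℕ → H9 ℝ} {Q' : ℕ → H9 R}
    (hQ : ∀ t, RH Rel (Q t) (Q' t)) {o : Rw ℝ} {o' : Rw R} (ho : RRw Rel o o') (f : NF) (hc : f.chk A e' Q' o' = true) :
    f.fct.Holds (gm e.g) (fun t => hm (Q t)) o.vec := by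
  obtain ⟨i, j, l, l1, s, t, lam, mu⟩ := f
  rcases s with _ | s
  · show 0 < qf (hm (Q t)) (altS (gm e.g) i j l *ᵥ o.vec)
    rw [← pval_real e Q o i j l l1 t]
    exact hA.pos (Rpval hA he hQ ho i j l l1 t) hc
  · show Incl (gm e.g) (altS (gm e.g) i j l) (hm (Q s)) (hm (Q t))
    have hc' : (A.psd (fmat A e' Q' i j l l1 s t lam mu) &&
      (decide (0 ≤ lam) && (decide (0 ≤ mu) && decide (0 < lam + mu)))) = true := hc
    simp only [Bool.and_eq_true, decide_eq_true_eq] at hc'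
    obtain ⟨h1, h2, h3, h4⟩ := hc'
    have h2' : (0 : ℝ) ≤ lam := by exact_mod_cast h2
    have h3' : (0 : ℝ) ≤ mu := by exact_mod_cast h3
    have h4' : (0 : ℝ) < (lam : ℝ) + mu := by exact_mod_cast h4
    refine Inc.incl ⟨(lam : ℝ) / 1073741824, (mu : ℝ) / 1073741824, by positivity, by positivity, ?_, fun x => ?_⟩
    · rw [← add_div]
      positivity
    · have := hA.psd (Rfmat hA he hQ i j l l1 s t lam mu) h1 (actL (gm e.g) ((wrd i j l).drop l1) x)
      rw [fmat_real] at this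
      exact this

/-- A negativity fact: `i, j, l, l1, t`. -/
structure NN where
  i : Fin 3
  j : Fin 3
  l : ℕ
  l1 : ℕ
  t : ℕ

def NN.neg (f : NN) : Fin 3 × Fin 3 × ℕ × ℕ := (f.i, f.j, f.l, f.t)

def NN.chk (A : Ar R) (e : Ev R) (Q : ℕ → H9 R) (o : Rw R) (f : NN) : Bool := A.pos (A.O.neg (pval A e Q o f.i f.j f.l f.l1 f.t))

theorem NN.sound (hA : ArOK A Rel) {e : Ev ℝ} {e' : Ev R} (he : REv Rel e e') {Q : ℕ → H9 ℝ} {Q' : ℕ → H9 R}
    (hQ : ∀ t, RH Rel (Q t) (Q' t)) {o : Rw ℝ} {o' : Rw R} (ho : RRw Rel o o') (f : NN) (hc : f.chk A e' Q' o' = true) :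
    qf (hm (Q f.t)) (altS (gm e.g) f.i f.j f.l *ᵥ o.vec) < 0 := by
  have := hA.pos (hA.rel.neg (Rpval hA he hQ ho f.i f.j f.l f.l1 f.t)) hc
  rw [pval_real] at this
  linarith

/-- The numeric part of a certificate. -/
structure Cert where
  fes : List FE
  o : Sc × Sc × Sc
  pf : List NF
  nf : List NN

def Cert.pt (O : Ops R) (e : Ev R) (c : Cert) : Rw R := ⟨evS O e c.o.1, evS O e c.o.2.1, evS O e c.o.2.2⟩

def Cert.chk (A : Ar R) (e : Ev R) (c : Cert) : Bool :=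
  c.pf.all (fun f => f.chk A e (frm A.O e c.fes) (c.pt A.O e)) &&
  (c.nf.all (fun f => f.chk A e (frm A.O e c.fes) (c.pt A.O e)) &&
    A.pos (A.O.neg (val A.O (H9.gram A.O e.g) (c.pt A.O e))))

theorem Cert.sound (hA : ArOK A Rel) {e : Ev ℝ} {e' : Ev R} (he : REv Rel e e') (c : Cert) (hc : c.chk A e' = true) :
    (∀ f ∈ c.pf, f.fct.Holds (gm e.g) (fun t => hm (frm OR e c.fes t)) (c.pt OR e).vec) ∧
    (∀ f ∈ c.nf, qf (hm (frm OR e c.fes f.t)) (altS (gm e.g) f.i f.j f.l *ᵥ (c.pt OR e).vec) < 0) ∧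
    qf (gm e.g) (c.pt OR e).vec < 0 := by
  unfold Cert.chk at hc
  simp only [Bool.and_eq_true, List.all_eq_true] at hc
  obtain ⟨h1, h2, h3⟩ := hc
  have hQ : ∀ t, RH Rel (frm OR e c.fes t) (frm A.O e' c.fes t) := fun t => RH.evQ hA.rel he _
  have ho : RRw Rel (c.pt OR e) (c.pt A.O e') := ⟨RC.evS hA.rel he _, RC.evS hA.rel he _, RC.evS hA.rel he _⟩
  refine ⟨fun f hf => NF.sound hA he hQ ho f (h1 f hf), fun f hf => NN.sound hA he hQ ho f (h2 f hf), ?_⟩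
  have h4 := hA.pos (hA.rel.neg (Rval hA.rel (RH.gram hA.rel he.g) ho)) h3
  rw [val_vec, hm_gram] at h4
  linarith

end

end Pool.Agent.Work.MP_88b7aa_gt.PQ
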