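import Pool.Agent.Work.MP_88b7aa_gt.PQ.Eng2

/-!
# Transport along an enclosure relation, numeric facts
-/

namespace Pool.Agent.Work.MP_88b7aa_gt.PQ

open Pool.Agent.Work.MP_88b7aa_gt.CH
open ComplexConjugate Complex Matrix

section rel

variable {R : Type} {O : Ops R} {Rel : ℝ → R → Prop}

/-- The relation for complex numbers. -/
structure RC (Rel : ℝ → R → Prop) (x : Cx ℝ) (t : Cx R) : Prop where
  re : Rel x.re t.re
  im : Rel x.im t.im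

structure RRw (Rel : ℝ → R → Prop) (x : Rw ℝ) (t : Rw R) : Prop where
  a : RC Rel x.a t.a
  b : RC Rel x.b t.b
  c : RC Rel x.c t.c

structure RH (Rel : ℝ → R → Prop) (x : H9 ℝ) (t : H9 R) : Prop where
  d0 : Rel x.d0 t.d0
  d1 : Rel x.d1 t.d1
  d2 : Rel x.d2 t.d2
  e01 : RC Rel x.e01 t.e01
  e02 : RC Rel x.e02 t.e02
  e12 : RC Rel x.e12 t.e12

structure RG (Rel : ℝ → R → Prop) (x : Gm ℝ) (t : Gm R) : Prop where
  g01 : RC Rel x.g01 t.g01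
  g02 : RC Rel x.g02 t.g02
  g12 : RC Rel x.g12 t.g12

structure REv (Rel : ℝ → R → Prop) (x : Ev ℝ) (t : Ev R) : Prop where
  g : RG Rel x.g t.g
  ps : List.Forall₂ (RC Rel) x.ps t.ps

variable (h : OpsRel O Rel)

include h

theorem RC.add {x y : Cx ℝ} {s t : Cx R} (hx : RC Rel x s) (hy : RC Rel y t) : RC Rel (x.add OR y) (s.add O t) :=
  ⟨h.add hx.re hy.re, h.add hx.im hy.im⟩

theorem RC.sub {x y : Cx ℝ} {s t : Cx R} (hx : RC Rel x s) (hy : RC Rel y t) : RC Rel (x.sub OR y) (s.sub O t) :=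
  ⟨h.sub hx.re hy.re, h.sub hx.im hy.im⟩

theorem RC.neg {x : Cx ℝ} {s : Cx R} (hx : RC Rel x s) : RC Rel (x.neg OR) (s.neg O) := ⟨h.neg hx.re, h.neg hx.im⟩

theorem RC.nrm {x : Cx ℝ} {s : Cx R} (hx : RC Rel x s) : RC Rel (x.nrm OR) (s.nrm O) := ⟨h.nrm hx.re, h.nrm hx.im⟩

theorem RC.cj {x : Cx ℝ} {s : Cx R} (hx : RC Rel x s) : RC Rel (x.cj OR) (s.cj O) := ⟨hx.re, h.neg hx.im⟩

theorem RC.mul {x y : Cx ℝ} {s t : Cx R} (hx : RC Rel x s) (hy : RC Rel y t) : RC Rel (x.mul OR y) (s.mul O t) :=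
  ⟨h.sub (h.mul hx.re hy.re) (h.mul hx.im hy.im), h.add (h.mul hx.re hy.im) (h.mul hx.im hy.re)⟩

theorem RC.cml {x y : Cx ℝ} {s t : Cx R} (hx : RC Rel x s) (hy : RC Rel y t) : RC Rel (x.cml OR y) (s.cml O t) :=
  ⟨h.add (h.mul hx.re hy.re) (h.mul hx.im hy.im), h.sub (h.mul hx.re hy.im) (h.mul hx.im hy.re)⟩

theorem RC.smul {r : ℝ} {ρ : R} {x : Cx ℝ} {s : Cx R} (hr : Rel r ρ) (hx : RC Rel x s) : RC Rel (x.smul OR r) (s.smul O ρ) :=
  ⟨h.mul hr hx.re, h.mul hr hx.im⟩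

theorem RC.dbl {x : Cx ℝ} {s : Cx R} (hx : RC Rel x s) : RC Rel (x.dbl OR) (s.dbl O) := ⟨h.add hx.re hx.re, h.add hx.im hx.im⟩

theorem RC.cst (m n : Int) : RC Rel (Cx.cst OR m n) (Cx.cst O m n) := ⟨h.cst m, h.cst n⟩

theorem RC.one : RC Rel (one' OR) (one' O) := ⟨h.cst _, h.cst _⟩

theorem RC.zero : RC Rel (zero' OR) (zero' O) := ⟨h.cst _, h.cst _⟩

theorem RRw.add {x y : Rw ℝ} {s t : Rw R} (hx : RRw Rel x s) (hy : RRw Rel y t) : RRw Rel (Rw.add OR x y) (Rw.add O s t) :=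
  ⟨.add h hx.a hy.a, .add h hx.b hy.b, .add h hx.c hy.c⟩

theorem RRw.sub {x y : Rw ℝ} {s t : Rw R} (hx : RRw Rel x s) (hy : RRw Rel y t) : RRw Rel (Rw.sub OR x y) (Rw.sub O s t) :=
  ⟨.sub h hx.a hy.a, .sub h hx.b hy.b, .sub h hx.c hy.c⟩

theorem RRw.smul {r : Cx ℝ} {ρ : Cx R} {y : Rw ℝ} {t : Rw R} (hx : RC Rel r ρ) (hy : RRw Rel y t) :
    RRw Rel (Rw.smul OR r y) (Rw.smul O ρ t) :=
  ⟨.mul h hx hy.a, .mul h hx hy.b, .mul h hx hy.c⟩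

omit h in
theorem RRw.get {x : Rw ℝ} {s : Rw R} (hx : RRw Rel x s) (i : Fin 3) : RC Rel (x.get i) (s.get i) := by
  fin_cases i
  · exact hx.a
  · exact hx.b
  · exact hx.c

theorem RG.row {x : Gm ℝ} {s : Gm R} (hx : RG Rel x s) (i : Fin 3) : RRw Rel (x.row OR i) (s.row O i) := by
  fin_cases i
  · exact ⟨.one h, hx.g01, hx.g02⟩
  · exact ⟨.cj h hx.g01, .one h, hx.g12⟩
  · exact ⟨.cj h hx.g02, .cj h hx.g12, .one h⟩

theorem RRw.crd (i : Fin 3) : RRw Rel (PQ.crd OR i) (PQ.crd O i) := by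
  fin_cases i
  · exact ⟨.one h, .zero h, .zero h⟩
  · exact ⟨.zero h, .one h, .zero h⟩
  · exact ⟨.zero h, .zero h, .one h⟩

theorem RRw.comp {g : Gm ℝ} {g' : Gm R} (hg : RG Rel g g') (j : Fin 3) {x : Rw ℝ} {s : Rw R} (hx : RRw Rel x s) :
    RRw Rel (Rw.comp OR g j x) (Rw.comp O g' j s) :=
  .sub h (.smul h (.dbl h (hx.get j)) (RG.row h hg j)) hx

theorem RH.add {x y : H9 ℝ} {s t : H9 R} (hx : RH Rel x s) (hy : RH Rel y t) : RH Rel (x.add OR y) (s.add O t) :=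
  ⟨h.add hx.d0 hy.d0, h.add hx.d1 hy.d1, h.add hx.d2 hy.d2, .add h hx.e01 hy.e01, .add h hx.e02 hy.e02, .add h hx.e12 hy.e12⟩

theorem RH.sub {x y : H9 ℝ} {s t : H9 R} (hx : RH Rel x s) (hy : RH Rel y t) : RH Rel (x.sub OR y) (s.sub O t) :=
  ⟨h.sub hx.d0 hy.d0, h.sub hx.d1 hy.d1, h.sub hx.d2 hy.d2, .sub h hx.e01 hy.e01, .sub h hx.e02 hy.e02, .sub h hx.e12 hy.e12⟩

theorem RH.smul {r : ℝ} {ρ : R} (hr : Rel r ρ) {x : H9 ℝ} {s : H9 R} (hx : RH Rel x s) : RH Rel (x.smul OR r) (s.smul O ρ) :=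
  ⟨h.mul hr hx.d0, h.mul hr hx.d1, h.mul hr hx.d2, .smul h hr hx.e01, .smul h hr hx.e02, .smul h hr hx.e12⟩

theorem RH.gram {g : Gm ℝ} {g' : Gm R} (hg : RG Rel g g') : RH Rel (H9.gram OR g) (H9.gram O g') :=
  ⟨h.cst _, h.cst _, h.cst _, hg.g01, hg.g02, hg.g12⟩

theorem RH.nsq {f : Rw ℝ} {f' : Rw R} (hf : RRw Rel f f') : RH Rel (H9.nsq OR f) (H9.nsq O f') :=
  ⟨(RC.cml h hf.a hf.a).re, (RC.cml h hf.b hf.b).re, (RC.cml h hf.c hf.c).re, .cml h hf.a hf.b, .cml h hf.a hf.c, .cml h hf.b hf.c⟩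

theorem RH.re2 {f k : Rw ℝ} {f' k' : Rw R} (hf : RRw Rel f f') (hk : RRw Rel k k') : RH Rel (H9.re2 OR f k) (H9.re2 O f' k') :=
  ⟨(RC.dbl h (RC.cml h hf.a hk.a)).re, (RC.dbl h (RC.cml h hf.b hk.b)).re, (RC.dbl h (RC.cml h hf.c hk.c)).re,
    .add h (.cml h hf.a hk.b) (.cml h hk.a hf.b), .add h (.cml h hf.a hk.c) (.cml h hk.a hf.c),
    .add h (.cml h hf.b hk.c) (.cml h hk.b hf.c)⟩

theorem RH.rot {x : H9 ℝ} {s : H9 R} (hx : RH Rel x s) : RH Rel (x.rot OR) (s.rot O) :=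
  ⟨hx.d1, hx.d2, hx.d0, hx.e12, .cj h hx.e01, .cj h hx.e02⟩

theorem RG.rot {x : Gm ℝ} {s : Gm R} (hx : RG Rel x s) : RG Rel (x.rot OR) (s.rot O) :=
  ⟨hx.g12, .cj h hx.g01, .cj h hx.g02⟩

theorem RH.cmp0 {g : Gm ℝ} {g' : Gm R} (hg : RG Rel g g') {x : H9 ℝ} {s : H9 R} (hx : RH Rel x s) :
    RH Rel (x.cmp0 OR g) (s.cmp0 O g') := by
  have u1 : RC Rel ((x.e01.sub OR (g.g01.smul OR x.d0)).dbl OR) ((s.e01.sub O (g'.g01.smul O s.d0)).dbl O) :=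
    .dbl h (.sub h hx.e01 (.smul h hx.d0 hg.g01))
  have u2 : RC Rel ((x.e02.sub OR (g.g02.smul OR x.d0)).dbl OR) ((s.e02.sub O (g'.g02.smul O s.d0)).dbl O) :=
    .dbl h (.sub h hx.e02 (.smul h hx.d0 hg.g02))
  exact ⟨hx.d0, h.sub hx.d1 (RC.dbl h (RC.cml h hg.g01 u1)).re, h.sub hx.d2 (RC.dbl h (RC.cml h hg.g02 u2)).re,
    .sub h hx.e01 u1, .sub h hx.e02 u2, .sub h (.sub h hx.e12 (.cml h hg.g01 u2)) (.cml h u1 hg.g02)⟩

theorem RH.comp {g : Gm ℝ} {g' : Gm R} (hg : RG Rel g g') (j : Fin 3) {x : H9 ℝ} {s : H9 R} (hx : RH Rel x s) :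
    RH Rel (x.comp OR g j) (s.comp O g' j) := by
  fin_cases j
  · exact RH.cmp0 h hg hx
  · exact RH.rot h (RH.rot h (RH.cmp0 h (RG.rot h hg) (RH.rot h hx)))
  · exact RH.rot h (RH.cmp0 h (RG.rot h (RG.rot h hg)) (RH.rot h (RH.rot h hx)))

theorem RH.cmpL {g : Gm ℝ} {g' : Gm R} (hg : RG Rel g g') (w : List (Fin 3)) : ∀ {x : H9 ℝ} {s : H9 R}, RH Rel x s →
    RH Rel (x.cmpL OR g w) (s.cmpL O g' w) := by
  induction w with
  | nil => intro x s hx; exact hx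
  | cons a w ih => intro x s hx; exact ih (RH.comp h hg a hx)

theorem RsgR (l : ℕ) {x : ℝ} {t : R} (hx : Rel x t) : Rel (PQ.sgR OR l x) (PQ.sgR O l t) := by
  unfold PQ.sgR
  split_ifs
  · exact hx
  · exact h.neg hx

theorem RC.sgC (l : ℕ) {x : Cx ℝ} {t : Cx R} (hx : RC Rel x t) : RC Rel (PQ.sgC OR l x) (PQ.sgC O l t) := by
  unfold PQ.sgC
  split_ifs
  · exact hx
  · exact .neg h hx

theorem RC.addr {r : ℝ} {ρ : R} (hr : Rel r ρ) {x : Cx ℝ} {t : Cx R} (hx : RC Rel x t) :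
    RC Rel (Cx.addr OR r x) (Cx.addr O ρ t) := ⟨h.add hr hx.re, hx.im⟩

/-- The relation for the coefficients. -/
structure RW4 (Rel : ℝ → R → Prop) (x : W4 ℝ) (t : W4 R) : Prop where
  p : Rel x.p t.p
  q : Rel x.q t.q
  r : Rel x.r t.r
  s : Rel x.s t.s

theorem RW4.wc {a : ℝ} {a' : R} (ha : Rel a a') (l : ℕ) : RW4 Rel (PQ.wc OR a l) (PQ.wc O a' l) := by
  induction l with
  | zero => exact ⟨h.cst _, h.cst _, h.cst _, h.cst _⟩
  | succ l ih =>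
    exact ⟨h.nrm (h.sub (h.add ih.s (RsgR h l (h.cst _))) (h.mul (h.add ha ha) ih.q)),
      h.nrm (h.sub ih.r (h.mul (h.add ha ha) ih.p)), h.neg ih.q, h.neg ih.p⟩

structure RWM (Rel : ℝ → R → Prop) (x : WM ℝ) (t : WM R) : Prop where
  m0 : Rel x.m0 t.m0
  m1 : Rel x.m1 t.m1
  m01 : RC Rel x.m01 t.m01
  m10 : RC Rel x.m10 t.m10
  A : RC Rel x.A t.A
  B : RC Rel x.B t.B

theorem RWM.mk' {a : ℝ} {a' : R} (ha : Rel a a') {f : Cx ℝ} {f' : Cx R} (hf : RC Rel f f') {u v : Cx ℝ} {u' v' : Cx R}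
    (hu : RC Rel u u') (hv : RC Rel v v') (l : ℕ) {w : W4 ℝ} {w' : W4 R} (hw : RW4 Rel w w') :
    RWM Rel (WM.mk' OR a f u v l w) (WM.mk' O a' f' u' v' l w') :=
  ⟨h.nrm (h.add (RsgR h l (h.cst _)) (h.sub hw.p (h.mul ha hw.q))), h.nrm (h.add (RsgR h l (h.cst _)) (h.sub hw.s (h.mul ha hw.r))),
    .smul h (h.nrm (h.sub hw.q (h.mul ha hw.p))) hf, .smul h (h.nrm (h.sub hw.r (h.mul ha hw.s))) (.cj h hf),
    .nrm h (.add h (.smul h hw.p hu) (.mul h (.smul h hw.q hf) hv)),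
    .nrm h (.add h (.mul h (.smul h hw.r (.cj h hf)) hu) (.smul h hw.s hv))⟩

theorem RH.cgr {W : WM ℝ} {W' : WM R} (hW : RWM Rel W W') (l : ℕ) {x : H9 ℝ} {s : H9 R} (hx : RH Rel x s) :
    RH Rel (x.cgr OR W l) (s.cgr O W' l) := by
  have P0 : RC Rel ((Cx.addr OR (OR.mul x.d0 W.m0) (x.e01.mul OR W.m10)).nrm OR)
      ((Cx.addr O (O.mul s.d0 W'.m0) (s.e01.mul O W'.m10)).nrm O) :=
    .nrm h (.addr h (h.mul hx.d0 hW.m0) (.mul h hx.e01 hW.m10))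
  have P1 : RC Rel ((((x.e01.cj OR).smul OR W.m0).add OR (W.m10.smul OR x.d1)).nrm OR)
      ((((s.e01.cj O).smul O W'.m0).add O (W'.m10.smul O s.d1)).nrm O) :=
    .nrm h (.add h (.smul h hW.m0 (.cj h hx.e01)) (.smul h hx.d1 hW.m10))
  have R0 : RC Rel (((W.m01.smul OR x.d0).add OR (x.e01.smul OR W.m1)).nrm OR)
      (((W'.m01.smul O s.d0).add O (s.e01.smul O W'.m1)).nrm O) :=
    .nrm h (.add h (.smul h hx.d0 hW.m01) (.smul h hW.m1 hx.e01))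
  have R1 : RC Rel ((Cx.addr OR (OR.mul x.d1 W.m1) (x.e01.cml OR W.m01)).nrm OR)
      ((Cx.addr O (O.mul s.d1 W'.m1) (s.e01.cml O W'.m01)).nrm O) :=
    .nrm h (.addr h (h.mul hx.d1 hW.m1) (.cml h hx.e01 hW.m01))
  have U : RC Rel (((sgC OR l x.e02).add OR ((W.A.smul OR x.d0).add OR (x.e01.mul OR W.B))).nrm OR)
      (((sgC O l s.e02).add O ((W'.A.smul O s.d0).add O (s.e01.mul O W'.B))).nrm O) :=
    .nrm h (.add h (.sgC h l hx.e02) (.add h (.smul h hx.d0 hW.A) (.mul h hx.e01 hW.B)))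
  have V : RC Rel (((sgC OR l x.e12).add OR ((x.e01.cml OR W.A).add OR (W.B.smul OR x.d1))).nrm OR)
      (((sgC O l s.e12).add O ((s.e01.cml O W'.A).add O (W'.B.smul O s.d1))).nrm O) :=
    .nrm h (.add h (.sgC h l hx.e12) (.add h (.cml h hx.e01 hW.A) (.smul h hx.d1 hW.B)))
  have Z : RC Rel ((Cx.addr OR (sgR OR l x.d2) ((x.e02.cml OR W.A).add OR (x.e12.cml OR W.B))).nrm OR)
      ((Cx.addr O (sgR O l s.d2) ((s.e02.cml O W'.A).add O (s.e12.cml O W'.B))).nrm O) :=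
    .nrm h (.addr h (RsgR h l hx.d2) (.add h (.cml h hx.e02 hW.A) (.cml h hx.e12 hW.B)))
  exact ⟨h.nrm (h.add (h.mul P0.re hW.m0) (RC.cml h hW.m10 P1).re), h.nrm (h.add (RC.cml h hW.m01 R0).re (h.mul R1.re hW.m1)),
    h.nrm (h.add (h.add (RC.cml h hW.A U).re (RC.cml h hW.B V).re) (RsgR h l Z.re)),
    .nrm h (.add h (.smul h hW.m0 R0) (.cml h hW.m10 R1)), .nrm h (.add h (.smul h hW.m0 U) (.cml h hW.m10 V)),
    .nrm h (.add h (.cml h hW.m01 U) (.smul h hW.m1 V))⟩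

theorem RRw.cgr {W : WM ℝ} {W' : WM R} (hW : RWM Rel W W') (l : ℕ) {x : Rw ℝ} {s : Rw R} (hx : RRw Rel x s) :
    RRw Rel (x.cgr OR W l) (s.cgr O W' l) :=
  ⟨.nrm h (.add h (.smul h hW.m0 hx.a) (.mul h hx.b hW.m10)), .nrm h (.add h (.mul h hx.a hW.m01) (.smul h hW.m1 hx.b)),
    .nrm h (.add h (.add h (.mul h hx.a hW.A) (.mul h hx.b hW.B)) (.sgC h l hx.c))⟩

theorem RH.swp {x : H9 ℝ} {s : H9 R} (hx : RH Rel x s) : RH Rel (x.swp OR) (s.swp O) :=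
  ⟨hx.d1, hx.d0, hx.d2, .cj h hx.e01, hx.e12, hx.e02⟩

theorem RG.swp {x : Gm ℝ} {s : Gm R} (hx : RG Rel x s) : RG Rel (x.swp OR) (s.swp O) :=
  ⟨.cj h hx.g01, hx.g12, hx.g02⟩

omit h in
theorem RRw.swp {x : Rw ℝ} {s : Rw R} (hx : RRw Rel x s) : RRw Rel x.swp s.swp := ⟨hx.b, hx.a, hx.c⟩

omit h in
theorem RRw.rot {x : Rw ℝ} {s : Rw R} (hx : RRw Rel x s) : RRw Rel x.rot s.rot := ⟨hx.b, hx.c, hx.a⟩

theorem RH.w01 {g : Gm ℝ} {g' : Gm R} (hg : RG Rel g g') {a : ℝ} {a' : R} (ha : Rel a a') {f : Cx ℝ} {f' : Cx R}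
    (hf : RC Rel f f') (l : ℕ) {x : H9 ℝ} {s : H9 R} (hx : RH Rel x s) : RH Rel (x.w01 OR g a f l) (s.w01 O g' a' f' l) :=
  .cgr h (.mk' h ha hf hg.g02 hg.g12 l (.wc h ha l)) l hx

theorem RRw.w01 {g : Gm ℝ} {g' : Gm R} (hg : RG Rel g g') {a : ℝ} {a' : R} (ha : Rel a a') {f : Cx ℝ} {f' : Cx R}
    (hf : RC Rel f f') (l : ℕ) {x : Rw ℝ} {s : Rw R} (hx : RRw Rel x s) : RRw Rel (x.w01 OR g a f l) (s.w01 O g' a' f' l) :=
  .cgr h (.mk' h ha hf hg.g02 hg.g12 l (.wc h ha l)) l hx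

theorem RRw.comp' {g : Gm ℝ} {g' : Gm R} (hg : RG Rel g g') (w : List (Fin 3)) : ∀ {x : Rw ℝ} {s : Rw R}, RRw Rel x s →
    RRw Rel (x.comp' OR g w) (s.comp' O g' w) := by
  induction w with
  | nil => intro x s hx; exact hx
  | cons a w ih => intro x s hx; exact ih (RRw.comp h hg a hx)

theorem RH.word {g : Gm ℝ} {g' : Gm R} (hg : RG Rel g g') (i j : Fin 3) {a : ℝ} {a' : R} (ha : Rel a a') {f : Cx ℝ}
    {f' : Cx R} (hf : RC Rel f f') (l : ℕ) {x : H9 ℝ} {s : H9 R} (hx : RH Rel x s) :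
    RH Rel (x.word OR g i j a f l) (s.word O g' i j a' f' l) := by
  have g1 := RG.rot h hg
  have g2 := RG.rot h g1
  have x1 := RH.rot h hx
  have x2 := RH.rot h x1
  fin_cases i <;> fin_cases j
  · exact RH.cmpL h hg _ hx
  · exact RH.w01 h hg ha hf l hx
  · exact RH.rot h (RH.swp h (RH.w01 h (RG.swp h g2) ha hf l (RH.swp h x2)))
  · exact RH.swp h (RH.w01 h (RG.swp h hg) ha hf l (RH.swp h hx))
  · exact RH.cmpL h hg _ hx
  · exact RH.rot h (RH.rot h (RH.w01 h g1 ha hf l x1))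
  · exact RH.rot h (RH.w01 h g2 ha hf l x2)
  · exact RH.rot h (RH.rot h (RH.swp h (RH.w01 h (RG.swp h g1) ha hf l (RH.swp h x1))))
  · exact RH.cmpL h hg _ hx

theorem RRw.word {g : Gm ℝ} {g' : Gm R} (hg : RG Rel g g') (i j : Fin 3) {a : ℝ} {a' : R} (ha : Rel a a') {f : Cx ℝ}
    {f' : Cx R} (hf : RC Rel f f') (l : ℕ) {x : Rw ℝ} {s : Rw R} (hx : RRw Rel x s) :
    RRw Rel (x.word OR g i j a f l) (s.word O g' i j a' f' l) := by
  have g1 := RG.rot h hg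
  have g2 := RG.rot h g1
  have x1 := hx.rot
  have x2 := x1.rot
  fin_cases i <;> fin_cases j
  · exact RRw.comp' h hg _ hx
  · exact RRw.w01 h hg ha hf l hx
  · exact (RRw.w01 h (RG.swp h g2) ha hf l x2.swp).swp.rot
  · exact (RRw.w01 h (RG.swp h hg) ha hf l hx.swp).swp
  · exact RRw.comp' h hg _ hx
  · exact (RRw.w01 h g1 ha hf l x1).rot.rot
  · exact (RRw.w01 h g2 ha hf l x2).rot
  · exact (RRw.w01 h (RG.swp h g1) ha hf l x1.swp).swp.rot.rot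
  · exact RRw.comp' h hg _ hx

theorem RC.evS {e : Ev ℝ} {e' : Ev R} (he : REv Rel e e') (c : Sc) : RC Rel (PQ.evS OR e c) (PQ.evS O e' c) := by
  induction c with
  | cst m n => exact .cst h m n
  | par k =>
    show RC Rel (gt (zero' OR) e.ps k) (gt (zero' O) e'.ps k)
    rw [gt_eq, gt_eq]
    have : ∀ (l : List (Cx ℝ)) (l' : List (Cx R)), List.Forall₂ (RC Rel) l l' → ∀ k,
        RC Rel (l.getD k (zero' OR)) (l'.getD k (zero' O)) := by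
      intro l l' hl
      induction hl with
      | nil => intro k; simpa using RC.zero h
      | cons hx hl ih =>
        intro k
        cases k with
        | zero => simpa using hx
        | succ k => simpa using ih k
    exact this _ _ he.ps k
  | add a b iha ihb => exact .add h iha ihb
  | sub a b iha ihb => exact .sub h iha ihb
  | mul a b iha ihb => exact .mul h iha ihb
  | cj a iha => exact .cj h iha

theorem RRw.evF {e : Ev ℝ} {e' : Ev R} (he : REv Rel e e') (f : Fn) : RRw Rel (PQ.evF OR e f) (PQ.evF O e' f) := by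
  induction f with
  | row i => exact RG.row h he.g i
  | crd i => exact RRw.crd h i
  | add a b iha ihb => exact .add h iha ihb
  | sub a b iha ihb => exact .sub h iha ihb
  | smul c a iha => exact .smul h (RC.evS h he c) iha
  | comp j a iha => exact .comp h he.g j iha
  | word i j l a iha => exact .word h he.g i j (RC.evS h he _).re (RC.evS h he _) l iha

theorem RH.evQ {e : Ev ℝ} {e' : Ev R} (he : REv Rel e e') (F : FE) : RH Rel (PQ.evQ OR e F) (PQ.evQ O e' F) := by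
  induction F with
  | gram => exact .gram h he.g
  | mat => exact ⟨h.cst _, h.cst _, h.cst _, .cst h _ _, .cst h _ _, .cst h _ _⟩
  | mats => exact ⟨(RC.evS h he _).re, (RC.evS h he _).re, (RC.evS h he _).re, .evS h he _, .evS h he _, .evS h he _⟩
  | nsq f => exact .nsq h (RRw.evF h he f)
  | re2 f g => exact .re2 h (RRw.evF h he f) (RRw.evF h he g)
  | add a b iha ihb => exact .add h iha ihb
  | sub a b iha ihb => exact .sub h iha ihb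
  | smul c a iha => exact .smul h (RC.evS h he c).re iha
  | comp j a iha => exact .comp h he.g j iha
  | word i j l a iha => exact .word h he.g i j (RC.evS h he _).re (RC.evS h he _) l iha

theorem RRw.vrf {g : Gm ℝ} {g' : Gm R} (hg : RG Rel g g') (j : Fin 3) {v : Rw ℝ} {v' : Rw R} (hv : RRw Rel v v') :
    RRw Rel (PQ.vrf OR g j v) (PQ.vrf O g' j v') := by
  have hr := RG.row h hg j
  have ht := RC.dbl h (RC.add h (RC.add h (RC.mul h hr.a hv.a) (RC.mul h hr.b hv.b)) (RC.mul h hr.c hv.c))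
  fin_cases j
  · exact ⟨.sub h ht hv.a, .neg h hv.b, .neg h hv.c⟩
  · exact ⟨.neg h hv.a, .sub h ht hv.b, .neg h hv.c⟩
  · exact ⟨.neg h hv.a, .neg h hv.b, .sub h ht hv.c⟩

theorem RRw.vrfL {g : Gm ℝ} {g' : Gm R} (hg : RG Rel g g') (w : List (Fin 3)) {v : Rw ℝ} {v' : Rw R} (hv : RRw Rel v v') :
    RRw Rel (PQ.vrfL OR g w v) (PQ.vrfL O g' w v') := by
  induction w with
  | nil => exact hv
  | cons a w ih => exact .vrf h hg a ih

theorem Rval {Q : H9 ℝ} {Q' : H9 R} (hQ : RH Rel Q Q') {v : Rw ℝ} {v' : Rw R} (hv : RRw Rel v v') :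
    Rel (val OR Q v) (val O Q' v') :=
  h.add (h.add (h.add (h.mul hQ.d0 (RC.cml h hv.a hv.a).re) (h.mul hQ.d1 (RC.cml h hv.b hv.b).re))
    (h.mul hQ.d2 (RC.cml h hv.c hv.c).re))
    (RC.dbl h (RC.add h (RC.cml h hv.a (RC.add h (RC.mul h hQ.e01 hv.b) (RC.mul h hQ.e02 hv.c)))
      (RC.cml h hv.b (RC.mul h hQ.e12 hv.c)))).re

end rel

end Pool.Agent.Work.MP_88b7aa_gt.PQ
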