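import Pool.Agent.Work.MP_88b7aa_gt.PQ.Wrap
import Pool.Agent.Work.MP_88b7aa_gt.PQ.Psd

/-!
# The explicit structure S2 (helper51)

`QP G i x = Re (conj y_i (x_i - y_i))`, `y_i = ⟨z, n_i⟩`: the bisector half space of the mirror `L_i` and the opposite vertex; it is
antiinvariant under `I_i`.  States: `(i, i)`: the form `QP G i`; `(i, j)`, `i ≠ j`, if the order of `I_i I_j` is at least 4: the vertex form
`V_ij = - (A + (1 + 2 cos α) B)` at the vertex of `i, j`, with a free complex number `f i j` (its phase).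
-/

namespace Pool.Agent.Work.MP_88b7aa_gt.PQ

open Pool.Agent.Work.MP_88b7aa_gt.CH
open ComplexConjugate Complex Matrix

/-- The form `Re (conj y_i (x_i - y_i))`. -/
def QP (G : Matrix (Fin 3) (Fin 3) ℂ) (i : Fin 3) : Matrix (Fin 3) (Fin 3) ℂ :=
  fun a b => conj (G i a) * ((if b = i then 1 else 0) - G i b)

theorem qf_QP (G : Matrix (Fin 3) (Fin 3) ℂ) (i : Fin 3) (x : Fin 3 → ℂ) :
    qf (QP G i) x = (conj (∑ b, G i b * x b) * (x i - ∑ b, G i b * x b)).re := by
  unfold qf QP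
  congr 1
  rw [map_sum, Finset.sum_mul]
  refine Finset.sum_congr rfl fun a _ => ?_
  have : x i = ∑ b, (if b = i then 1 else 0) * x b := by simp
  rw [this, ← Finset.sum_sub_distrib, Finset.mul_sum]
  refine Finset.sum_congr rfl fun b _ => ?_
  rw [map_mul]
  ring

theorem QP_anti (G : Matrix (Fin 3) (Fin 3) ℂ) (hG : IsGram G) (i : Fin 3) (x : Fin 3 → ℂ) :
    qf (QP G i) (Sg G i *ᵥ x) = -qf (QP G i) x := by
  have h1 : (Sg G i *ᵥ x) i = 2 * ∑ b, G i b * x b - x i := by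
    simp only [Matrix.mulVec, dotProduct, Sg, sub_mul, Finset.sum_sub_distrib, if_true]
    congr 1
    · rw [Finset.mul_sum]
      refine Finset.sum_congr rfl fun b _ => ?_
      ring
    · simp
  have h2 : ∑ b, G i b * (Sg G i *ᵥ x) b = ∑ b, G i b * x b := by
    have e : ∀ b, (Sg G i *ᵥ x) b = (if b = i then 2 * ∑ c, G i c * x c else 0) - x b := by
      intro b
      simp only [Matrix.mulVec, dotProduct, Sg, sub_mul, Finset.sum_sub_distrib]
      congr 1
      · by_cases h : b = i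
        · simp only [h, if_true, mul_assoc, ← Finset.mul_sum]
        · simp [h]
      · simp
    simp only [e, mul_sub, Finset.sum_sub_distrib, mul_ite, mul_zero, Finset.sum_ite_eq', Finset.mem_univ, if_true, hG.dg]
    ring
  rw [qf_QP, qf_QP, h1, h2, ← Complex.neg_re]
  congr 1
  ring

/-- The second phase at the vertex of `i, j`. -/
noncomputable def gph (G : Matrix (Fin 3) (Fin 3) ℂ) (cc : Fin 3 → Fin 3 → ℝ) (f : Fin 3 → Fin 3 → ℂ) (i j : Fin 3) : ℂ :=
  -(f i j * conj (G i j)) / (cc i j : ℂ)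

/-- The vertex form with the coefficients `P, Q` at the vertex of `i, j`. -/
noncomputable def Vf (G : Matrix (Fin 3) (Fin 3) ℂ) (cc : Fin 3 → Fin 3 → ℝ) (f : Fin 3 → Fin 3 → ℂ) (i j : Fin 3) (P Q : ℝ) :
    Matrix (Fin 3) (Fin 3) ℂ := VV G i j (-(i + j)) (f i j) (gph G cc f i j) P Q

/-- The form of a state. -/
noncomputable def F2 (G : Matrix (Fin 3) (Fin 3) ℂ) (cc : Fin 3 → Fin 3 → ℝ) (f : Fin 3 → Fin 3 → ℂ) (s : Fin 3 × Fin 3) :
    Matrix (Fin 3) (Fin 3) ℂ := if s.1 = s.2 then QP G s.1 else Vf G cc f s.1 s.2 (-1) (-(1 + 2 * cc s.1 s.2))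

/-- The active states. -/
def Act (M : CoxeterMatrix (Fin 3)) (s : Fin 3 × Fin 3) : Prop := s.1 = s.2 ∨ 4 ≤ M s.1 s.2

/-- The conditions at one parameter. -/
structure S2H (M : CoxeterMatrix (Fin 3)) (G : Matrix (Fin 3) (Fin 3) ℂ) (cc : Fin 3 → Fin 3 → ℝ) (f : Fin 3 → Fin 3 → ℂ)
    (o : Fin 3 → ℂ) : Prop where
  word : ∀ i j k, i ≠ j → i ≠ k → j ≠ k → ∀ l, Act M (k, l) → Incl G (altS G i j 2) (F2 G cc f (k, l)) (QP G i)
  vtx : ∀ i j k, i ≠ j → i ≠ k → j ≠ k → 4 ≤ M i j → ∀ l, Act M (k, l) →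
    Incl G 1 (F2 G cc f (k, l)) (Vf G cc f i j (4 * cc i j ^ 2 + 2 * cc i j - 1) (1 + 2 * cc i j)) ∧
    Incl G 1 (F2 G cc f (k, l)) (Vf G cc f i j (1 + 2 * cc i j) (4 * cc i j ^ 2 + 2 * cc i j - 1))
  o_neg : qf G o < 0
  o_out : ∀ i l, Act M (i, l) → qf (F2 G cc f (i, l)) o < 0
  o_two : ∀ i j, i ≠ j → qf (QP G i) (Sg G j *ᵥ o) < 0
  o_vtx : ∀ i j, i ≠ j → 4 ≤ M i j → 0 < qf (Vf G cc f i j (4 * cc i j ^ 2 + 2 * cc i j - 1) (1 + 2 * cc i j)) o ∧
    0 < qf (Vf G cc f i j (1 + 2 * cc i j) (4 * cc i j ^ 2 + 2 * cc i j - 1)) o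
  o_three : ∀ i j k, i ≠ j → i ≠ k → j ≠ k → M i j = 3 → 0 < qf (QP G i) (altS G i j 3 *ᵥ o) ∧
    ∀ l, Act M (k, l) → qf (F2 G cc f (k, l)) (altS G i j 3 *ᵥ o) < 0

private theorem third_eq (i j k : Fin 3) (hij : i ≠ j) (hik : i ≠ k) (hjk : j ≠ k) : -(i + j) = k := by
  revert hij hik hjk
  revert k
  revert j
  revert i
  decide

theorem S2_vx {G : Matrix (Fin 3) (Fin 3) ℂ} (hG : IsGram G) {cc : Fin 3 → Fin 3 → ℝ} (f : Fin 3 → Fin 3 → ℂ)
    {i j k : Fin 3} (hij : i ≠ j) (hik : i ≠ k) (hjk : j ≠ k) (hc : 0 < cc i j) (hn : ‖G i j‖ = cc i j) :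
    Vx G i j k (f i j) (gph G cc f i j) (cc i j) := by
  have hcC : (cc i j : ℂ) ≠ 0 := by exact_mod_cast hc.ne'
  refine ⟨hG, hij, hik, hjk, ?_, ?_⟩
  · have h1 : conj (G i j) * conj (G j i) = (cc i j : ℂ) ^ 2 := by
      rw [hG.hm j i, mul_comm, Complex.mul_conj', hn]
    unfold gph
    rw [neg_mul, neg_div, neg_mul, div_mul_eq_mul_div, mul_assoc, h1]
    field_simp
  · unfold gph
    field_simp

/-- The theorem: the conditions S2 imply `DF`. -/
theorem certS2 (p q r : ℕ) (hp : 3 ≤ p) (hpq : p ≤ q) (hqr : q ≤ r) (hr : 4 ≤ r) (θ : ℝ) (n : Fin 3 → Fin 3 → ℂ)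
    (hT : IsTriangle p q r θ n)
    (hA' : 1 ≤ fA (Real.cos (Real.pi / p)) (Real.cos (Real.pi / q)) (Real.cos (Real.pi / r)) (Real.cos θ))
    (G : Matrix (Fin 3) (Fin 3) ℂ)
    (hG : TriG (Real.cos (Real.pi / p)) (Real.cos (Real.pi / q)) (Real.cos (Real.pi / r)) θ G)
    (f : Fin 3 → Fin 3 → ℂ) (o : Fin 3 → ℂ)
    (h : S2H (mcox p q r (by omega) (by omega) (by omega)) G (fun i j => ‖G i j‖) f o) :
    DF (mcox p q r (by omega) (by omega) (by omega)) n := by
  set M := mcox p q r (by omega) (by omega) (by omega) with hM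
  set cc : Fin 3 → Fin 3 → ℝ := fun i j => ‖G i j‖ with hcc
  have hsym : ∀ i j, ‖G j i‖ = ‖G i j‖ := fun i j => by rw [← hG.gram.hm i j, RCLike.norm_conj]
  have hm3 : ∀ i j : Fin 3, i ≠ j → 3 ≤ M i j := by
    intro i j hij
    fin_cases i <;> fin_cases j <;> first | exact absurd rfl hij | skip
    · show 3 ≤ q; omega
    · show 3 ≤ r; omega
    · show 3 ≤ q; omega
    · show 3 ≤ p; omega
    · show 3 ≤ r; omega
    · show 3 ≤ p; omega
  have hcos : ∀ i j : Fin 3, i ≠ j → cc i j = Real.cos (Real.pi / M i j) := by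
    intro i j hij
    fin_cases i <;> fin_cases j <;> first | exact absurd rfl hij | skip
    · show ‖G 0 1‖ = Real.cos (Real.pi / q)
      rw [hsym 1 0]; exact hG.h01
    · show ‖G 0 2‖ = Real.cos (Real.pi / r)
      exact hG.h20
    · show ‖G 1 0‖ = Real.cos (Real.pi / q)
      exact hG.h01
    · show ‖G 1 2‖ = Real.cos (Real.pi / p)
      rw [hsym 2 1]; exact hG.h12
    · show ‖G 2 0‖ = Real.cos (Real.pi / r)
      rw [hsym 0 2]; exact hG.h20
    · show ‖G 2 1‖ = Real.cos (Real.pi / p)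
      exact hG.h12
  have hpos : ∀ i j : Fin 3, i ≠ j → 0 < cc i j := fun i j hij => by
    rw [hcos i j hij]; exact cos_pos3 (hm3 i j hij)
  let ι := {s : Fin 3 × Fin 3 // Act M s}
  have hfin : Finite ι := inferInstance
  refine certV p q r hp hpq hqr hr θ n hT hA' G hG (ι := ι) (fun s => s.1.1) (fun s => F2 G cc f s.1) o h.o_neg ?_ ?_ ?_
  · intro i
    refine ⟨⟨(i, i), Or.inl rfl⟩, rfl, ?_⟩
    have e : F2 G cc f (i, i) = QP G i := by simp [F2]
    show 0 < qf (F2 G cc f (i, i)) _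
    have h1 := h.o_out i i (Or.inl rfl)
    rw [e] at h1 ⊢
    rw [QP_anti G hG.gram]
    linarith
  · rintro ⟨⟨i, l⟩, hs⟩
    exact h.o_out i l hs
  · intro i j k hij hik hjk
    have e : F2 G cc f (i, i) = QP G i := by simp [F2]
    have hB2 : ∀ s : ι, s.1.1 = k → ∃ t : ι, t.1.1 = i ∧ Incl G (altS G i j 2) (F2 G cc f s.1) (F2 G cc f t.1) := by
      rintro ⟨⟨k', l⟩, hs⟩ rfl
      refine ⟨⟨(i, i), Or.inl rfl⟩, rfl, ?_⟩
      show Incl G _ (F2 G cc f (k', l)) (F2 G cc f (i, i))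
      rw [e]
      exact h.word i j k' hij hik hjk l hs
    have hB2' : ∃ t : ι, t.1.1 = i ∧ 0 < qf (F2 G cc f t.1) (altS G i j 2 *ᵥ o) := by
      refine ⟨⟨(i, i), Or.inl rfl⟩, rfl, ?_⟩
      show 0 < qf (F2 G cc f (i, i)) _
      rw [e]
      have e2 : altS G i j 2 = Sg G i * Sg G j := by simp [altS]
      rw [e2, ← Matrix.mulVec_mulVec, QP_anti G hG.gram]
      have := h.o_two i j hij
      linarith
    by_cases h3 : M i j = 3
    · obtain ⟨t1, t2⟩ := h.o_three i j k hij hik hjk h3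
      refine Vert_small ?_ ?_ ?_ (QP G i) ?_ ?_
      · intro l hl hl' s hs
        have hl3 : l < 3 := lt_of_lt_of_eq hl' h3
        have : l = 2 := by omega
        subst this
        exact hB2 s hs
      · intro l hl hl'
        have hl3 : l < 3 := lt_of_lt_of_eq hl' h3
        have : l = 2 := by omega
        subst this
        exact hB2'
      · rintro ⟨⟨k', l⟩, hs⟩ rfl
        show qf (F2 G cc f (k', l)) _ < 0
        rw [h3]
        exact t2 l hs
      · have h1 := h.o_out i i (Or.inl rfl)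
        rwa [e] at h1
      · rw [h3]
        exact t1
    · have h4 : 4 ≤ M i j := by have := hm3 i j hij; omega
      obtain ⟨v1, v2⟩ := h.o_vtx i j hij h4
      have hk : -(i + j) = k := third_eq i j k hij hik hjk
      have hMpos : (0 : ℝ) < (M i j : ℕ) := by
        have : 0 < M i j := by omega
        exact_mod_cast this
      set α : ℝ := Real.pi / M i j with hα
      have hα1 : (M i j : ℕ) * α = Real.pi := by rw [hα]; field_simp
      have hα0 : 0 < α := div_pos Real.pi_pos hMpos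
      have hαpi : α < Real.pi := by
        rw [hα]
        have : (1 : ℝ) < (M i j : ℕ) := by
          have : 1 < M i j := by omega
          exact_mod_cast this
        exact div_lt_self Real.pi_pos this
      have hcα : cc i j = Real.cos α := hcos i j hij
      have hVx : Vx G i j k (f i j) (gph G cc f i j) (Real.cos α) := by
        rw [← hcα]
        exact S2_vx hG.gram f hij hik hjk (hpos i j hij) rfl
      have hpk := VPk_sym α hα0 hαpi 0
      have d0 : Dp (Real.cos α) 0 = 1 := rfl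
      have d1 : Dp (Real.cos α) (0 + 1) = 1 + 2 * cc i j := by rw [hcα]; rfl
      have d2 : Dp (Real.cos α) (0 + 2) = 4 * cc i j ^ 2 + 2 * cc i j - 1 := by
        rw [hcα]
        show 2 * Real.cos α * (1 + 2 * Real.cos α) - 1 = _
        ring
      rw [d0, d1, d2] at hpk
      have hVfe : ∀ P Q, Vf G cc f i j P Q = VV G i j k (f i j) (gph G cc f i j) P Q := by
        intro P Q
        unfold Vf
        rw [hk]
      have hact : Act M (i, j) := Or.inr h4
      refine Vert_big hVx hα1 (2 * 0 + 3) hpk ⟨(i, j), hact⟩ rfl ?_ ?_ ?_ ?_ ?_ ?_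
      · show F2 G cc f (i, j) = _
        unfold F2
        rw [if_neg hij, hVfe]
      · intro l hl hl' s hs
        have : l = 2 := by omega
        subst this
        exact hB2 s hs
      · intro l hl hl'
        have : l = 2 := by omega
        subst this
        exact hB2'
      · rw [← hVfe]; exact v1
      · rw [← hVfe]; exact v2
      · rintro ⟨⟨k', l⟩, hs⟩ rfl
        have := h.vtx i j k' hij hik hjk h4 l hs
        rw [← hVfe, ← hVfe]
        exact this

end Pool.Agent.Work.MP_88b7aa_gt.PQ
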