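import Pool.Agent.Work.MP_88b7aa_gt.PQ.Wrap
import Pool.Agent.Work.MP_88b7aa_gt.PQ.Psd

/-!
# Certificates as data

Forms are numbered.  A fact `⟨i, j, l, s, t⟩` says that `I_i I_j ...` (`l` factors) maps the source `s` (`none` is the base point `o`,
`some s` the set of the negative `x` with `F s x > 0`) into `F t > 0`.  A system is a list of states (number of a form, label), a list of
facts, a list of negativity facts for the base point, and for each ordered pair `(i, j)` the specification of the vertex.  `Sys.ok`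
checks that the facts suffice for `FHyp`.
-/

namespace Pool.Agent.Work.MP_88b7aa_gt.PQ

open Pool.Agent.Work.MP_88b7aa_gt.CH
open ComplexConjugate Complex Matrix

/-- A fact. -/
structure Fct where
  i : Fin 3
  j : Fin 3
  l : ℕ
  s : Option ℕ
  t : ℕ

/-- The meaning of a fact. -/
def Fct.Holds (G : Matrix (Fin 3) (Fin 3) ℂ) (F : ℕ → Matrix (Fin 3) (Fin 3) ℂ) (o : Fin 3 → ℂ) (f : Fct) : Prop :=
  match f.s with
  | none => 0 < qf (F f.t) (altS G f.i f.j f.l *ᵥ o)
  | some s => Incl G (altS G f.i f.j f.l) (F s) (F f.t)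

/-- The specification of the vertex of the ordered pair `(i, j)`: either the order `m` is known and `E` is the number of a form which
is negative at `o` and positive at `w o`; or the order is larger than `l0`, `v` is the number of the vertex form and `a`, `b` are the
numbers of the source conditions. -/
inductive Vsp
  | small (m E : ℕ)
  | big (l0 v a b : ℕ)

/-- A system. -/
structure Sys where
  st : List (ℕ × Fin 3)
  facts : List Fct
  neg : List (Fin 3 × Fin 3 × ℕ × ℕ)
  vx : Fin 3 → Fin 3 → Vsp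

namespace Sys

/-- There is a fact without a word from `s` to `t`. -/
def has0 (fs : List Fct) (s : Option ℕ) (t : ℕ) : Bool :=
  fs.any fun f => f.l == 0 && (f.s == s && f.t == t)

def le0 (fs : List Fct) (s t : ℕ) : Bool := s == t || has0 fs (some s) t

/-- There is a fact with the word from `s` to `t`, up to inclusions. -/
def reach (fs : List Fct) (i j : Fin 3) (l : ℕ) (s : Option ℕ) (t : ℕ) : Bool :=
  fs.any fun f => f.i == i && (f.j == j && (f.l == l && ((match f.s with
    | none => s == none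
    | some u => match s with
      | none => has0 fs none u
      | some v => le0 fs v u) && le0 fs f.t t)))

/-- The sources of label `k`. -/
def src (S : Sys) (k : Fin 3) : List (Option ℕ) :=
  none :: (S.st.filterMap fun x => if x.2 = k then some (some x.1) else none)

/-- The targets of label `i`. -/
def tgt (S : Sys) (i : Fin 3) : List ℕ := S.st.filterMap fun x => if x.2 = i then some x.1 else none

/-- From `s` to `t` without a word, through at most two further sets. -/
def has2 (fs : List Fct) (s : Option ℕ) (t : ℕ) : Bool :=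
  has0 fs s t || fs.any fun f => f.l == 0 && ((match f.s with
    | none => s == none
    | some u => match s with
      | none => has0 fs none u
      | some v => le0 fs v u) && le0 fs f.t t)

def third (i j : Fin 3) : Fin 3 := -(i + j)

/-- The words of the length `l`. -/
def okW (S : Sys) (i j : Fin 3) (l : ℕ) : Bool :=
  (S.src (third i j)).all fun s => (S.tgt i).any fun t => reach S.facts i j l s t

def isNeg (S : Sys) (i j : Fin 3) (l t : ℕ) : Bool :=
  S.neg.any fun x => x.1 == i && (x.2.1 == j && (x.2.2.1 == l && x.2.2.2 == t))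

def isNeg0 (S : Sys) (t : ℕ) : Bool := S.neg.any fun x => x.2.2.1 == 0 && x.2.2.2 == t

def okV (S : Sys) (i j : Fin 3) : Bool :=
  match S.vx i j with
  | .small m E => (List.range m).all (fun l => l < 2 || S.okW i j l) &&
      ((S.tgt (third i j)).all (fun t => S.isNeg i j m t) && (S.isNeg0 E && reach S.facts i j m none E))
  | .big l0 v a b => (List.range l0).all (fun l => l < 2 || S.okW i j l) &&
      ((S.src (third i j)).all (fun s => has2 S.facts s a && has2 S.facts s b) &&
        (S.tgt i).any fun t => le0 S.facts v t)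

def ok (S : Sys) : Bool :=
  (S.okV 0 1 && (S.okV 0 2 && (S.okV 1 0 && (S.okV 1 2 && (S.okV 2 0 && S.okV 2 1))))) &&
  (((S.tgt 0).any (fun t => reach S.facts 0 1 1 none t) && ((S.tgt 1).any (fun t => reach S.facts 1 2 1 none t) &&
    (S.tgt 2).any (fun t => reach S.facts 2 0 1 none t))) && S.st.all fun x => S.isNeg0 x.1)

end Sys

variable {G : Matrix (Fin 3) (Fin 3) ℂ} {F : ℕ → Matrix (Fin 3) (Fin 3) ℂ} {o : Fin 3 → ℂ}

/-- The meaning of an inclusion from a source. -/
def SrcIn (G : Matrix (Fin 3) (Fin 3) ℂ) (F : ℕ → Matrix (Fin 3) (Fin 3) ℂ) (o : Fin 3 → ℂ) (A : Matrix (Fin 3) (Fin 3) ℂ)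
    (s : Option ℕ) (t : ℕ) : Prop :=
  match s with
  | none => 0 < qf (F t) (A *ᵥ o)
  | some s => Incl G A (F s) (F t)

theorem has0_sound {fs : List Fct} (h : ∀ f ∈ fs, f.Holds G F o) {s : Option ℕ} {t : ℕ} (hs : Sys.has0 fs s t = true) :
    SrcIn G F o 1 s t := by
  unfold Sys.has0 at hs
  rw [List.any_eq_true] at hs
  obtain ⟨f, hf, hh⟩ := hs
  simp only [Bool.and_eq_true, beq_iff_eq] at hh
  obtain ⟨h1, h2, h3⟩ := hh
  have := h f hf
  unfold Fct.Holds at this
  have e : altS G f.i f.j f.l = 1 := by rw [h1]; rfl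
  rw [e, h2, h3] at this
  exact this

theorem le0_sound {fs : List Fct} (h : ∀ f ∈ fs, f.Holds G F o) {s t : ℕ} (hs : Sys.le0 fs s t = true) :
    Incl G 1 (F s) (F t) := by
  unfold Sys.le0 at hs
  rw [Bool.or_eq_true, beq_iff_eq] at hs
  rcases hs with hs | hs
  · rw [hs]
    intro x _ hx
    rwa [Matrix.one_mulVec]
  · exact has0_sound h hs

theorem reach_sound (hG : IsGram G) {fs : List Fct} (h : ∀ f ∈ fs, f.Holds G F o) (ho : qf G o < 0) {i j : Fin 3} {l : ℕ}
    {s : Option ℕ} {t : ℕ} (hs : Sys.reach fs i j l s t = true) : SrcIn G F o (altS G i j l) s t := by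
  unfold Sys.reach at hs
  rw [List.any_eq_true] at hs
  obtain ⟨f, hf, hh⟩ := hs
  simp only [Bool.and_eq_true, beq_iff_eq] at hh
  obtain ⟨h1, h2, h3, h4, h5⟩ := hh
  have hF := h f hf
  unfold Fct.Holds at hF
  rw [h1, h2, h3] at hF
  have h5' := le0_sound h h5
  rcases hfs : f.s with _ | u
  · rw [hfs] at hF h4
    simp only [beq_iff_eq] at h4
    subst h4
    show 0 < qf (F t) (altS G i j l *ᵥ o)
    have h6 := h5' (altS G i j l *ᵥ o) (by rw [qf_gram_alt G hG]; exact ho) hF
    rwa [Matrix.one_mulVec] at h6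
  · rw [hfs] at hF h4
    rcases s with _ | v
    · simp only at h4
      have h7 : 0 < qf (F u) ((1 : Matrix (Fin 3) (Fin 3) ℂ) *ᵥ o) := has0_sound h h4
      rw [Matrix.one_mulVec] at h7
      have h8 := hF o ho h7
      show 0 < qf (F t) (altS G i j l *ᵥ o)
      have h6 := h5' (altS G i j l *ᵥ o) (by rw [qf_gram_alt G hG]; exact ho) h8
      rwa [Matrix.one_mulVec] at h6
    · simp only at h4
      exact ((le0_sound h h4).trans_left hF).trans_right hG h5'

theorem has2_sound (hG : IsGram G) {fs : List Fct} (h : ∀ f ∈ fs, f.Holds G F o) (ho : qf G o < 0)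
    {s : Option ℕ} {t : ℕ} (hs : Sys.has2 fs s t = true) : SrcIn G F o 1 s t := by
  unfold Sys.has2 at hs
  rw [Bool.or_eq_true] at hs
  rcases hs with hs | hs
  · exact has0_sound h hs
  rw [List.any_eq_true] at hs
  obtain ⟨f, hf, hh⟩ := hs
  simp only [Bool.and_eq_true, beq_iff_eq] at hh
  obtain ⟨h3, h4, h5⟩ := hh
  have hF := h f hf
  unfold Fct.Holds at hF
  have e : altS G f.i f.j f.l = 1 := by rw [h3]; rfl
  rw [e] at hF
  have h5' := le0_sound h h5
  rcases hfs : f.s with _ | u
  · rw [hfs] at hF h4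
    simp only [beq_iff_eq] at h4
    subst h4
    show 0 < qf (F t) ((1 : Matrix (Fin 3) (Fin 3) ℂ) *ᵥ o)
    have hF' : 0 < qf (F f.t) ((1 : Matrix (Fin 3) (Fin 3) ℂ) *ᵥ o) := hF
    rw [Matrix.one_mulVec] at hF'
    exact h5' o ho hF'
  · rw [hfs] at hF h4
    rcases s with _ | v
    · simp only at h4
      have h7 : 0 < qf (F u) ((1 : Matrix (Fin 3) (Fin 3) ℂ) *ᵥ o) := has0_sound h h4
      rw [Matrix.one_mulVec] at h7
      have h8 := hF o ho h7
      rw [Matrix.one_mulVec] at h8
      show 0 < qf (F t) ((1 : Matrix (Fin 3) (Fin 3) ℂ) *ᵥ o)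
      exact h5' o ho h8
    · simp only at h4
      have hF' : Incl G 1 (F u) (F f.t) := hF
      have h6 : Incl G 1 (F v) (F u) := le0_sound h h4
      show Incl G 1 (F v) (F t)
      intro x hx hq
      have g1 := h6 x hx hq
      rw [Matrix.one_mulVec] at g1
      have g2 := hF' x hx g1
      rw [Matrix.one_mulVec] at g2
      exact h5' x hx g2

/-- The meaning of the specification of a vertex. -/
def Vsp.Holds (M : CoxeterMatrix (Fin 3)) (G : Matrix (Fin 3) (Fin 3) ℂ) (F : ℕ → Matrix (Fin 3) (Fin 3) ℂ) (i j k : Fin 3) :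
    Vsp → Prop
  | .small m _ => M i j = m
  | .big l0 v a b => ∃ (fi fj : ℂ) (α P Q P' Q' : ℝ), Vx G i j k fi fj (Real.cos α) ∧ (M i j : ℕ) * α = Real.pi ∧
      VPk α l0 P Q P' Q' ∧ (∀ x, qf (F v) x = qf (VV G i j k fi fj P Q) x) ∧
      (∀ x, qf (F a) x = qf (VV G i j k fi fj P' Q') x) ∧ (∀ x, qf (F b) x = qf (VV G i j k fi fj Q' P') x)

theorem third_eq {i j k : Fin 3} (hij : i ≠ j) (hik : i ≠ k) (hjk : j ≠ k) : Sys.third i j = k := by
  revert i j k
  decide

theorem third_ne {i j : Fin 3} (hij : i ≠ j) : i ≠ Sys.third i j ∧ j ≠ Sys.third i j := by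
  revert i j
  decide

theorem mem_src_none (S : Sys) (k : Fin 3) : none ∈ S.src k := List.mem_cons_self

theorem mem_src (S : Sys) {k : Fin 3} (n : Fin S.st.length) (h : (S.st.get n).2 = k) : some (S.st.get n).1 ∈ S.src k := by
  unfold Sys.src
  refine List.mem_cons_of_mem _ (List.mem_filterMap.2 ⟨S.st.get n, List.get_mem _ _, ?_⟩)
  rw [if_pos h]

theorem mem_tgt (S : Sys) {i : Fin 3} {t : ℕ} (h : t ∈ S.tgt i) : ∃ n : Fin S.st.length, (S.st.get n).2 = i ∧ (S.st.get n).1 = t := by
  unfold Sys.tgt at h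
  rw [List.mem_filterMap] at h
  obtain ⟨x, hx, hh⟩ := h
  split_ifs at hh with hi
  obtain ⟨n, hn⟩ := List.get_of_mem hx
  refine ⟨n, by rw [hn]; exact hi, ?_⟩
  rw [hn]
  exact Option.some.inj hh

theorem tgt_mem (S : Sys) {i : Fin 3} (n : Fin S.st.length) (h : (S.st.get n).2 = i) : (S.st.get n).1 ∈ S.tgt i := by
  unfold Sys.tgt
  refine List.mem_filterMap.2 ⟨S.st.get n, List.get_mem _ _, ?_⟩
  rw [if_pos h]

/-- Negativity facts. -/
def NegH (S : Sys) (G : Matrix (Fin 3) (Fin 3) ℂ) (F : ℕ → Matrix (Fin 3) (Fin 3) ℂ) (o : Fin 3 → ℂ) : Prop :=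
  ∀ x ∈ S.neg, qf (F x.2.2.2) (altS G x.1 x.2.1 x.2.2.1 *ᵥ o) < 0

theorem isNeg_sound {S : Sys} (h : NegH S G F o) {i j : Fin 3} {l t : ℕ} (hs : S.isNeg i j l t = true) :
    qf (F t) (altS G i j l *ᵥ o) < 0 := by
  unfold Sys.isNeg at hs
  rw [List.any_eq_true] at hs
  obtain ⟨x, hx, hh⟩ := hs
  simp only [Bool.and_eq_true, beq_iff_eq] at hh
  obtain ⟨h1, h2, h3, h4⟩ := hh
  have := h x hx
  rwa [h1, h2, h3, h4] at this

theorem isNeg0_sound {S : Sys} (h : NegH S G F o) {t : ℕ} (hs : S.isNeg0 t = true) : qf (F t) o < 0 := by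
  unfold Sys.isNeg0 at hs
  rw [List.any_eq_true] at hs
  obtain ⟨x, hx, hh⟩ := hs
  simp only [Bool.and_eq_true, beq_iff_eq] at hh
  obtain ⟨h3, h4⟩ := hh
  have := h x hx
  rw [h3, h4] at this
  have e : altS G x.1 x.2.1 0 = 1 := rfl
  rwa [e, Matrix.one_mulVec] at this

theorem okW_sound (hG : IsGram G) {S : Sys} (h : ∀ f ∈ S.facts, f.Holds G F o) (ho : qf G o < 0) {i j k : Fin 3}
    (hk : Sys.third i j = k) {l : ℕ} (hs : S.okW i j l = true) :
    (∀ s : Fin S.st.length, (S.st.get s).2 = k → ∃ t : Fin S.st.length, (S.st.get t).2 = i ∧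
      Incl G (altS G i j l) (F (S.st.get s).1) (F (S.st.get t).1)) ∧
    ∃ t : Fin S.st.length, (S.st.get t).2 = i ∧ 0 < qf (F (S.st.get t).1) (altS G i j l *ᵥ o) := by
  unfold Sys.okW at hs
  rw [List.all_eq_true, hk] at hs
  constructor
  · intro s hs'
    have h1 := hs _ (mem_src S s hs')
    rw [List.any_eq_true] at h1
    obtain ⟨t, ht, hr⟩ := h1
    obtain ⟨n, hn, hn'⟩ := mem_tgt S ht
    refine ⟨n, hn, ?_⟩
    rw [hn']
    exact reach_sound hG h ho hr
  · have h1 := hs _ (mem_src_none S k)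
    rw [List.any_eq_true] at h1
    obtain ⟨t, ht, hr⟩ := h1
    obtain ⟨n, hn, hn'⟩ := mem_tgt S ht
    refine ⟨n, hn, ?_⟩
    rw [hn']
    exact reach_sound hG h ho hr

theorem okV_sound (hG : IsGram G) {S : Sys} {M : CoxeterMatrix (Fin 3)} (h : ∀ f ∈ S.facts, f.Holds G F o)
    (hneg : NegH S G F o) (ho : qf G o < 0) {i j k : Fin 3} (hij : i ≠ j) (hik : i ≠ k) (hjk : j ≠ k)
    (hv : (S.vx i j).Holds M G F i j k) (hs : S.okV i j = true) :
    Vert M G (fun n : Fin S.st.length => (S.st.get n).2) (fun n => F (S.st.get n).1) o i j k := by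
  have hk := third_eq hij hik hjk
  unfold Sys.okV at hs
  rcases hc : S.vx i j with ⟨m, E⟩ | ⟨l0, v, a, b⟩
  · rw [hc] at hs hv
    simp only [Bool.and_eq_true, hk] at hs
    have hm : M i j = m := hv
    obtain ⟨h1, h2, h3, h4⟩ := hs
    rw [List.all_eq_true] at h1 h2
    have hw : ∀ l, 2 ≤ l → l < M i j → S.okW i j l = true := by
      intro l hl hl'
      have := h1 l (List.mem_range.2 (by omega))
      rw [Bool.or_eq_true] at this
      rcases this with h5 | h5
      · exact absurd (of_decide_eq_true h5) (by omega)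
      · exact h5
    refine Vert_small (fun l hl hl' => (okW_sound hG h ho hk (hw l hl hl')).1) (fun l hl hl' => (okW_sound hG h ho hk (hw l hl hl')).2)
      (fun t ht => ?_) (F E) (isNeg0_sound hneg h3) ?_
    · rw [hm]
      exact isNeg_sound hneg (h2 _ (tgt_mem S t ht))
    · rw [hm]
      exact reach_sound hG h ho h4
  · rw [hc] at hs hv
    simp only [Bool.and_eq_true, hk] at hs
    obtain ⟨fi, fj, α, P, Q, P', Q', hx, hα, hp, e1, e2, e3⟩ := hv
    obtain ⟨h1, h2, h3⟩ := hs
    rw [List.all_eq_true] at h1 h2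
    rw [List.any_eq_true] at h3
    obtain ⟨t, ht, h3⟩ := h3
    obtain ⟨n, hn, hn'⟩ := mem_tgt S ht
    have h3 := le0_sound h h3
    have hw : ∀ l, 2 ≤ l → l < l0 → S.okW i j l = true := by
      intro l hl hl'
      have := h1 l (List.mem_range.2 (by omega))
      rw [Bool.or_eq_true] at this
      rcases this with h5 | h5
      · exact absurd (of_decide_eq_true h5) (by omega)
      · exact h5
    have hab : ∀ s : Fin S.st.length, (S.st.get s).2 = k →
        Incl G 1 (F (S.st.get s).1) (VV G i j k fi fj P' Q') ∧ Incl G 1 (F (S.st.get s).1) (VV G i j k fi fj Q' P') := by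
      intro s hs'
      have h5 := h2 _ (mem_src S s hs')
      rw [Bool.and_eq_true] at h5
      have h6 : Incl G 1 (F (S.st.get s).1) (F a) := has2_sound hG h ho h5.1
      have h7 : Incl G 1 (F (S.st.get s).1) (F b) := has2_sound hG h ho h5.2
      constructor
      · intro x hx' hq
        rw [← e2]
        exact h6 x hx' hq
      · intro x hx' hq
        rw [← e3]
        exact h7 x hx' hq
    have hoab := h2 _ (mem_src_none S k)
    rw [Bool.and_eq_true] at hoab
    have ha : 0 < qf (VV G i j k fi fj P' Q') o := by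
      have : 0 < qf (F a) ((1 : Matrix (Fin 3) (Fin 3) ℂ) *ᵥ o) := has2_sound hG h ho hoab.1
      rwa [Matrix.one_mulVec, e2] at this
    have hb : 0 < qf (VV G i j k fi fj Q' P') o := by
      have : 0 < qf (F b) ((1 : Matrix (Fin 3) (Fin 3) ℂ) *ᵥ o) := has2_sound hG h ho hoab.2
      rwa [Matrix.one_mulVec, e3] at this
    refine ⟨?_, ?_, hx.longC hα l0 hp _ _ o ha hb hab⟩
    · intro l hl hl' s hs'
      by_cases hll : l < l0
      · exact (okW_sound hG h ho hk (hw l hl hll)).1 s hs'
      · refine ⟨n, hn, ?_⟩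
        rw [hn']
        have h8 := hx.incl hα l0 hp (F (S.st.get s).1) (hab s hs').1 (hab s hs').2 l (by omega) hl'
        have h9 : Incl G (altS G i j l) (F (S.st.get s).1) (F v) := by
          intro x hx' hq
          rw [e1]
          exact h8 x hx' hq
        exact h9.trans_right hG h3
    · intro l hl hl'
      by_cases hll : l < l0
      · exact (okW_sound hG h ho hk (hw l hl hll)).2
      · refine ⟨n, hn, ?_⟩
        rw [hn']
        have h8 := hx.point hα l0 hp o ha hb l (by omega) hl'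
        rw [← e1] at h8
        have h6 := h3 (altS G i j l *ᵥ o) (by rw [qf_gram_alt G hG]; exact ho) h8
        rwa [Matrix.one_mulVec] at h6

/-- The soundness of systems. -/
theorem Sys.sound (p q r : ℕ) (hp : 3 ≤ p) (hpq : p ≤ q) (hqr : q ≤ r) (hr : 4 ≤ r) (θ : ℝ) (n : Fin 3 → Fin 3 → ℂ)
    (hT : IsTriangle p q r θ n)
    (hA' : 1 ≤ fA (Real.cos (Real.pi / p)) (Real.cos (Real.pi / q)) (Real.cos (Real.pi / r)) (Real.cos θ))
    (G : Matrix (Fin 3) (Fin 3) ℂ)
    (hG : TriG (Real.cos (Real.pi / p)) (Real.cos (Real.pi / q)) (Real.cos (Real.pi / r)) θ G)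
    (S : Sys) (hS : S.ok = true) (F : ℕ → Matrix (Fin 3) (Fin 3) ℂ) (o : Fin 3 → ℂ) (ho : qf G o < 0)
    (hf : ∀ f ∈ S.facts, f.Holds G F o) (hneg : NegH S G F o)
    (hv : ∀ i j k, i ≠ j → i ≠ k → j ≠ k →
      (S.vx i j).Holds (mcox p q r (by omega) (by omega) (by omega)) G F i j k) :
    DF (mcox p q r (by omega) (by omega) (by omega)) n := by
  have hS' := hS
  unfold Sys.ok at hS'
  simp only [Bool.and_eq_true] at hS'
  obtain ⟨⟨v01, v02, v10, v12, v20, v21⟩, ⟨t0, t1, t2⟩, hst⟩ := hS'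
  rw [List.all_eq_true] at hst
  have hA1 : ∀ i j : Fin 3, ((S.tgt i).any fun t => Sys.reach S.facts i j 1 none t) = true →
      ∃ t : Fin S.st.length, (S.st.get t).2 = i ∧ 0 < qf (F (S.st.get t).1) (Sg G i *ᵥ o) := by
    intro i j h
    rw [List.any_eq_true] at h
    obtain ⟨t, ht, hr⟩ := h
    obtain ⟨m, hm, hm'⟩ := mem_tgt S ht
    refine ⟨m, hm, ?_⟩
    rw [hm']
    have h1 : 0 < qf (F t) (altS G i j 1 *ᵥ o) := reach_sound hG.gram hf ho hr
    have e : altS G i j 1 = Sg G i := by
      show Sg G i * 1 = _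
      rw [mul_one]
    rwa [e] at h1
  refine certV p q r hp hpq hqr hr θ n hT hA' G hG (fun n : Fin S.st.length => (S.st.get n).2)
    (fun n => F (S.st.get n).1) o ho ?_ ?_ ?_
  · intro i
    fin_cases i
    · exact hA1 0 1 t0
    · exact hA1 1 2 t1
    · exact hA1 2 0 t2
  · intro t
    exact isNeg0_sound hneg (hst _ (List.get_mem _ _))
  · intro i j k hij hik hjk
    refine okV_sound hG.gram hf hneg ho hij hik hjk (hv i j k hij hik hjk) ?_
    fin_cases i <;> fin_cases j <;> first | exact absurd rfl hij | assumption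

end Pool.Agent.Work.MP_88b7aa_gt.PQ
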