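import Pool.Agent.Work.MP_88b7aa_gt.PQ.Star

/-!
# System B: the exact chain of the triangles of type B

`W = I_i I_j I_k`, `e` a positive eigenvector of `W` with the eigenvalue `λ` on the unit circle, `f` orthogonal to `e`.  On the orthogonal
complement of `e` we have `W² f = τ W f - λ⁻¹ f`, `τ = tr W - λ`, and if `|τ| ≥ 2` the numbers `|⟨z, W^k f⟩|²` are a convex function of
`k`.  So the forms `E_k = |⟨z, W^k f⟩|² - |⟨z, W^{k+1} f⟩|²` decrease with `k` and the three inclusions of the chain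
`C_ij ⊇ I_i I_j C_ki`, `C_ki ⊇ I_k I_i C_jk`, `C_jk ⊇ I_j I_k C_ij` are exact.
-/

namespace Pool.Agent.Work.MP_88b7aa_gt.PQ

open Pool.Agent.Work.MP_88b7aa_gt.CH
open ComplexConjugate Complex Matrix

/-! ### The Hermitian form -/

theorem hf_add_left (G : Matrix (Fin 3) (Fin 3) ℂ) (u v w : Fin 3 → ℂ) : hf G (u + v) w = hf G u w + hf G v w := by
  simp only [hf, Pi.add_apply, mul_add, Finset.sum_add_distrib]

theorem hf_smul_left (G : Matrix (Fin 3) (Fin 3) ℂ) (a : ℂ) (u w : Fin 3 → ℂ) : hf G (a • u) w = a * hf G u w := by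
  simp only [hf, Pi.smul_apply, smul_eq_mul, Finset.mul_sum]
  refine Finset.sum_congr rfl fun i _ => Finset.sum_congr rfl fun j _ => ?_
  ring

theorem hf_add_right (G : Matrix (Fin 3) (Fin 3) ℂ) (u v w : Fin 3 → ℂ) : hf G u (v + w) = hf G u v + hf G u w := by
  simp only [hf, Pi.add_apply, map_add, add_mul, Finset.sum_add_distrib]

theorem hf_smul_right (G : Matrix (Fin 3) (Fin 3) ℂ) (a : ℂ) (u w : Fin 3 → ℂ) : hf G u (a • w) = conj a * hf G u w := by
  simp only [hf, Pi.smul_apply, smul_eq_mul, map_mul, Finset.mul_sum]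
  refine Finset.sum_congr rfl fun i _ => Finset.sum_congr rfl fun j _ => ?_
  ring

theorem hf_sub_right (G : Matrix (Fin 3) (Fin 3) ℂ) (u v w : Fin 3 → ℂ) : hf G u (v - w) = hf G u v - hf G u w := by
  simp only [hf, Pi.sub_apply, map_sub, sub_mul, Finset.sum_sub_distrib]

theorem hf_sub_left (G : Matrix (Fin 3) (Fin 3) ℂ) (u v w : Fin 3 → ℂ) : hf G (u - v) w = hf G u w - hf G v w := by
  simp only [hf, Pi.sub_apply, mul_sub, Finset.sum_sub_distrib]

theorem hf_conj (G : Matrix (Fin 3) (Fin 3) ℂ) (hG : IsGram G) (u v : Fin 3 → ℂ) : conj (hf G u v) = hf G v u := by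
  unfold hf
  simp only [map_sum, map_mul, Complex.conj_conj, Finset.mul_sum]
  rw [Finset.sum_comm]
  refine Finset.sum_congr rfl fun i _ => Finset.sum_congr rfl fun j _ => ?_
  rw [hG.hm]
  ring

private theorem hf_Sg1 (G : Matrix (Fin 3) (Fin 3) ℂ) (k : Fin 3) (u v : Fin 3 → ℂ) :
    hf G (Sg G k *ᵥ u) v = 2 * (∑ b, G k b * u b) * (∑ a, conj (v a) * G a k) - hf G u v := by
  unfold hf
  simp only [G_Sg, mul_sub, Finset.sum_sub_distrib]
  congr 1
  rw [Finset.mul_sum]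
  refine Finset.sum_congr rfl fun a _ => ?_
  ring

/-- The reflections are self-adjoint. -/
theorem hf_Sg (G : Matrix (Fin 3) (Fin 3) ℂ) (hG : IsGram G) (k : Fin 3) (u v : Fin 3 → ℂ) :
    hf G (Sg G k *ᵥ u) v = hf G u (Sg G k *ᵥ v) := by
  rw [← hf_conj G hG (Sg G k *ᵥ v) u, hf_Sg1, hf_Sg1, map_sub, hf_conj G hG]
  congr 1
  simp only [map_mul, map_sum, Complex.conj_ofNat, Complex.conj_conj]
  have e1 : ∑ x, conj (G k x) * conj (v x) = ∑ a, conj (v a) * G a k := by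
    refine Finset.sum_congr rfl fun a _ => ?_
    rw [hG.hm]; ring
  have e2 : ∑ x, u x * conj (G x k) = ∑ b, G k b * u b := by
    refine Finset.sum_congr rfl fun a _ => ?_
    rw [hG.hm]; ring
  rw [e1, e2]
  ring

/-- The form `|⟨z, v⟩|²`. -/
def sqf (G : Matrix (Fin 3) (Fin 3) ℂ) (v : Fin 3 → ℂ) : Matrix (Fin 3) (Fin 3) ℂ := fun a b =>
  conj (∑ c, conj (v c) * G c a) * ∑ c, conj (v c) * G c b

theorem qf_sqf (G : Matrix (Fin 3) (Fin 3) ℂ) (v z : Fin 3 → ℂ) : qf (sqf G v) z = normSq (hf G z v) := by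
  have h : (∑ i, ∑ j, conj (z i) * sqf G v i j * z j) = conj (hf G z v) * hf G z v := by
    have e : hf G z v = ∑ j, (∑ c, conj (v c) * G c j) * z j := by
      unfold hf
      simp only [Finset.mul_sum, Finset.sum_mul]
      rw [Finset.sum_comm]
      refine Finset.sum_congr rfl fun i _ => Finset.sum_congr rfl fun j _ => ?_
      ring
    rw [e, map_sum, Finset.sum_mul_sum]
    refine Finset.sum_congr rfl fun i _ => Finset.sum_congr rfl fun j _ => ?_
    unfold sqf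
    rw [map_mul]
    ring
  unfold qf
  rw [h, mul_comm, Complex.mul_conj, Complex.ofReal_re]

/-! ### The recursion -/

/-- `adj (W - λ) = W² - (tr W - λ) W + (c₂ - λ tr W + λ²)` and `det (W - λ)`. -/
private theorem adj_sub (W : Matrix (Fin 3) (Fin 3) ℂ) (l : ℂ) (f : Fin 3 → ℂ) :
    (W - l • (1 : Matrix (Fin 3) (Fin 3) ℂ)).adjugate *ᵥ f = W *ᵥ (W *ᵥ f) - (W.trace - l) • (W *ᵥ f) +
      (W.adjugate.trace - l * W.trace + l ^ 2) • f := by
  ext i
  simp only [Matrix.adjugate_fin_three, Matrix.trace, Matrix.diag, Fin.sum_univ_three, Matrix.mulVec, dotProduct, Matrix.sub_apply,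
    Matrix.smul_apply, smul_eq_mul, Pi.add_apply, Pi.sub_apply, Pi.smul_apply, Matrix.one_apply]
  fin_cases i <;> simp <;> ring

private theorem det_sub (W : Matrix (Fin 3) (Fin 3) ℂ) (l : ℂ) :
    (W - l • (1 : Matrix (Fin 3) (Fin 3) ℂ)).det = W.det - l * W.adjugate.trace + l ^ 2 * W.trace - l ^ 3 := by
  simp only [Matrix.adjugate_fin_three, Matrix.trace, Matrix.diag, Fin.sum_univ_three, Matrix.det_fin_three, Matrix.sub_apply,
    Matrix.smul_apply, smul_eq_mul, Matrix.one_apply]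
  simp
  ring

/-- Two images of a matrix of rank one are parallel. -/
private theorem rank_one (B : Matrix (Fin 3) (Fin 3) ℂ) (hB : B.adjugate = 0) (f e : Fin 3 → ℂ) (i j : Fin 3) :
    (B *ᵥ f) i * (B *ᵥ e) j = (B *ᵥ f) j * (B *ᵥ e) i := by
  have h : ∀ a b, B.adjugate a b = 0 := fun a b => by rw [hB]; rfl
  rw [Matrix.adjugate_fin_three] at h
  have h00 := h 0 0
  have h01 := h 0 1
  have h02 := h 0 2
  have h10 := h 1 0
  have h11 := h 1 1
  have h12 := h 1 2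
  have h20 := h 2 0
  have h21 := h 2 1
  have h22 := h 2 2
  simp at h00 h01 h02 h10 h11 h12 h20 h21 h22
  simp only [Matrix.mulVec, dotProduct, Fin.sum_univ_three]
  have k01 : (B 0 0 * f 0 + B 0 1 * f 1 + B 0 2 * f 2) * (B 1 0 * e 0 + B 1 1 * e 1 + B 1 2 * e 2) =
      (B 1 0 * f 0 + B 1 1 * f 1 + B 1 2 * f 2) * (B 0 0 * e 0 + B 0 1 * e 1 + B 0 2 * e 2) := by
    linear_combination (f 0 * e 1 - f 1 * e 0) * h22 - (f 0 * e 2 - f 2 * e 0) * h12 + (f 1 * e 2 - f 2 * e 1) * h02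
  have k02 : (B 0 0 * f 0 + B 0 1 * f 1 + B 0 2 * f 2) * (B 2 0 * e 0 + B 2 1 * e 1 + B 2 2 * e 2) =
      (B 2 0 * f 0 + B 2 1 * f 1 + B 2 2 * f 2) * (B 0 0 * e 0 + B 0 1 * e 1 + B 0 2 * e 2) := by
    linear_combination -(f 0 * e 1 - f 1 * e 0) * h21 + (f 0 * e 2 - f 2 * e 0) * h11 - (f 1 * e 2 - f 2 * e 1) * h01
  have k12 : (B 1 0 * f 0 + B 1 1 * f 1 + B 1 2 * f 2) * (B 2 0 * e 0 + B 2 1 * e 1 + B 2 2 * e 2) =
      (B 2 0 * f 0 + B 2 1 * f 1 + B 2 2 * f 2) * (B 1 0 * e 0 + B 1 1 * e 1 + B 1 2 * e 2) := by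
    linear_combination (f 0 * e 1 - f 1 * e 0) * h20 - (f 0 * e 2 - f 2 * e 0) * h10 + (f 1 * e 2 - f 2 * e 1) * h00
  fin_cases i <;> fin_cases j
  · rfl
  · exact k01
  · exact k02
  · exact k01.symm
  · rfl
  · exact k12
  · exact k02.symm
  · exact k12.symm
  · rfl

/-- The recursion on the orthogonal complement of `e`. -/
theorem rec_of (G W : Matrix (Fin 3) (Fin 3) ℂ) (hiso : ∀ u v, hf G (W *ᵥ u) (W *ᵥ v) = hf G u v)
    (hdet : W.det = 1) {e : Fin 3 → ℂ} {l : ℂ} (hl : l * conj l = 1) (he : W *ᵥ e = l • e) (hN : hf G e e ≠ 0)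
    (hs : 2 * l ^ 2 - W.trace * l + conj l ≠ 0) {f : Fin 3 → ℂ} (hfe : hf G f e = 0) :
    W *ᵥ (W *ᵥ f) = (W.trace - l) • (W *ᵥ f) - conj l • f := by
  set A := W - l • (1 : Matrix (Fin 3) (Fin 3) ℂ) with hA
  have he0 : e ≠ 0 := by
    rintro rfl
    exact hN (by simp [hf])
  have hAe : A *ᵥ e = 0 := by
    rw [hA, Matrix.sub_mulVec, he, Matrix.smul_mulVec, Matrix.one_mulVec, sub_self]
  have hdA : A.det = 0 := Matrix.exists_mulVec_eq_zero_iff.1 ⟨e, he0, hAe⟩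
  have hc : W.adjugate.trace - l * W.trace + l ^ 2 = conj l := by
    have h1 := det_sub W l
    rw [← hA, hdA, hdet] at h1
    have h2 : l * (W.adjugate.trace - l * W.trace + l ^ 2) = 1 := by linear_combination h1
    calc W.adjugate.trace - l * W.trace + l ^ 2 = l * conj l * (W.adjugate.trace - l * W.trace + l ^ 2) := by rw [hl, one_mul]
      _ = conj l * (l * (W.adjugate.trace - l * W.trace + l ^ 2)) := by ring
      _ = conj l := by rw [h2, mul_one]
  have hadj : A.adjugate.adjugate = 0 := by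
    rw [Matrix.adjugate_adjugate A (by simp), hdA]
    simp
  have hBe : A.adjugate *ᵥ e = (2 * l ^ 2 - W.trace * l + conj l) • e := by
    rw [hA, adj_sub, he, Matrix.mulVec_smul, he, hc]
    ext a
    simp only [Pi.add_apply, Pi.sub_apply, Pi.smul_apply, smul_eq_mul]
    ring
  have hBf : A.adjugate *ᵥ f = W *ᵥ (W *ᵥ f) - (W.trace - l) • (W *ᵥ f) + conj l • f := by
    rw [hA, adj_sub, hc]
  have hWe : ∀ g, hf G g e = 0 → hf G (W *ᵥ g) e = 0 := by
    intro g hg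
    have e1 : e = W *ᵥ (conj l • e) := by
      rw [Matrix.mulVec_smul, he, smul_smul, mul_comm, hl, one_smul]
    have e2 : hf G (W *ᵥ g) e = hf G (W *ᵥ g) (W *ᵥ (conj l • e)) := by rw [← e1]
    rw [e2, hiso, hf_smul_right, hg, mul_zero]
  have hv : hf G (A.adjugate *ᵥ f) e = 0 := by
    rw [hBf, hf_add_left, hf_sub_left, hf_smul_left, hf_smul_left, hWe _ (hWe _ hfe), hWe _ hfe, hfe]
    ring
  have hz : ∀ j, (A.adjugate *ᵥ f) j = 0 := by
    intro j
    have h1 : hf G (A.adjugate *ᵥ e) e * (A.adjugate *ᵥ f) j = hf G (A.adjugate *ᵥ f) e * (A.adjugate *ᵥ e) j := by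
      unfold hf
      simp only [Finset.sum_mul, Finset.mul_sum]
      refine Finset.sum_congr rfl fun a _ => Finset.sum_congr rfl fun b _ => ?_
      have := rank_one A.adjugate hadj f e b j
      linear_combination -(conj (e a) * G a b) * this
    rw [hv, zero_mul, hBe, hf_smul_left] at h1
    exact (mul_eq_zero.1 h1).resolve_left (mul_ne_zero hs hN)
  have h0 : A.adjugate *ᵥ f = 0 := funext hz
  rw [hBf] at h0
  have : W *ᵥ (W *ᵥ f) - (W.trace - l) • (W *ᵥ f) = -(conj l • f) := eq_neg_of_add_eq_zero_left h0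
  rw [sub_eq_iff_eq_add] at this
  rw [this]
  abel

/-- Convexity. -/
theorem conv_of (G W : Matrix (Fin 3) (Fin 3) ℂ) {l τ : ℂ} (hl : l * conj l = 1) (hτ : 4 ≤ normSq τ) {f : Fin 3 → ℂ}
    (h : W *ᵥ (W *ᵥ f) = τ • (W *ᵥ f) - conj l • f) (z : Fin 3 → ℂ) :
    2 * normSq (hf G z (W *ᵥ f)) ≤ normSq (hf G z f) + normSq (hf G z (W *ᵥ (W *ᵥ f))) := by
  have hl1 : normSq l = 1 := by
    have := Complex.mul_conj l
    rw [hl] at this
    exact_mod_cast this.symm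
  set a := hf G z f with ha
  set b := hf G z (W *ᵥ f) with hb
  rw [h, hf_sub_right, hf_smul_right, hf_smul_right, Complex.conj_conj, ← ha, ← hb]
  have e1 : normSq a = normSq (l * a) := by rw [normSq_mul, hl1, one_mul]
  have e2 : normSq (conj τ * b) = normSq τ * normSq b := by rw [normSq_mul, normSq_conj]
  have e3 : normSq (conj τ * b) ≤ 2 * (normSq (l * a) + normSq (conj τ * b - l * a)) := by
    have := normSq_nonneg (conj τ * b - 2 * (l * a))
    have e : normSq (conj τ * b - 2 * (l * a)) + normSq (conj τ * b) = 2 * (normSq (l * a) + normSq (conj τ * b - l * a)) := by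
      simp only [normSq_apply, Complex.sub_re, Complex.sub_im, Complex.mul_re, Complex.mul_im, Complex.re_ofNat, Complex.im_ofNat]
      ring
    linarith
  have e4 : 4 * normSq b ≤ normSq τ * normSq b := mul_le_mul_of_nonneg_right hτ (normSq_nonneg b)
  rw [e1]
  linarith

/-! ### The trace -/

/-- Goldman's discriminant. -/
theorem gold_eq {l t : ℂ} (hl : l * conj l = 1) (hP : l ^ 3 - t * l ^ 2 + conj t * l - 1 = 0) :
    ((normSq t ^ 2 - 8 * (t ^ 3).re + 18 * normSq t - 27 : ℝ) : ℂ) =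
      (((normSq (t - l) - 4) * normSq (2 * l ^ 2 - t * l + conj l) : ℝ) : ℂ) := by
  have hc : conj t = l * t - l ^ 2 + conj l := by
    linear_combination (conj l) * hP - (l ^ 2 - t * l + conj t) * hl
  have hr : ((t ^ 3).re : ℂ) = (t ^ 3 + (conj t) ^ 3) / 2 := by
    rw [← map_pow, Complex.add_conj]
    push_cast
    ring
  have h1 : (normSq t : ℂ) = t * conj t := (Complex.mul_conj t).symm
  have h2 : (normSq (t - l) : ℂ) = (t - l) * conj (t - l) := (Complex.mul_conj _).symm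
  have h3 : (normSq (2 * l ^ 2 - t * l + conj l) : ℂ) = (2 * l ^ 2 - t * l + conj l) * conj (2 * l ^ 2 - t * l + conj l) :=
    (Complex.mul_conj _).symm
  push_cast
  rw [hr, h1, h2, h3]
  simp only [map_sub, map_add, map_mul, map_pow, Complex.conj_conj, Complex.conj_ofNat]
  have hl0 : l ≠ 0 := by
    rintro rfl
    simp at hl
  have hl' : conj l = l⁻¹ := by
    field_simp
    linear_combination hl
  rw [hc, hl']
  field_simp
  ring

/-! ### The product of the three reflections -/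

/-- `W = I_i I_j I_k`. -/
def WM3 (G : Matrix (Fin 3) (Fin 3) ℂ) (i j k : Fin 3) : Matrix (Fin 3) (Fin 3) ℂ := Sg G i * (Sg G j * Sg G k)

theorem WM3_mulVec (G : Matrix (Fin 3) (Fin 3) ℂ) (i j k : Fin 3) (v : Fin 3 → ℂ) :
    WM3 G i j k *ᵥ v = Sg G i *ᵥ (Sg G j *ᵥ (Sg G k *ᵥ v)) := by
  unfold WM3
  rw [← Matrix.mulVec_mulVec, ← Matrix.mulVec_mulVec]

theorem WM3_iso (G : Matrix (Fin 3) (Fin 3) ℂ) (hG : IsGram G) (i j k : Fin 3) (u v : Fin 3 → ℂ) :
    hf G (WM3 G i j k *ᵥ u) (WM3 G i j k *ᵥ v) = hf G u v := by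
  rw [WM3_mulVec, WM3_mulVec, hf_Sg G hG, Sg_sq G hG, hf_Sg G hG, Sg_sq G hG, hf_Sg G hG, Sg_sq G hG]

theorem WM3_inv (G : Matrix (Fin 3) (Fin 3) ℂ) (hG : IsGram G) (i j k : Fin 3) (v : Fin 3 → ℂ) :
    WM3 G k j i *ᵥ (WM3 G i j k *ᵥ v) = v := by
  rw [WM3_mulVec, WM3_mulVec, Sg_sq G hG, Sg_sq G hG, Sg_sq G hG]

theorem Sg_det (G : Matrix (Fin 3) (Fin 3) ℂ) (hG : IsGram G) (i : Fin 3) : (Sg G i).det = 1 := by
  rw [Matrix.det_fin_three]
  have h := hG.dg i
  fin_cases i <;> simp [Sg] at h ⊢ <;> rw [h] <;> ring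

theorem WM3_det (G : Matrix (Fin 3) (Fin 3) ℂ) (hG : IsGram G) (i j k : Fin 3) : (WM3 G i j k).det = 1 := by
  unfold WM3
  rw [Matrix.det_mul, Matrix.det_mul, Sg_det G hG, Sg_det G hG, Sg_det G hG]
  ring

theorem WM3_trace (G : Matrix (Fin 3) (Fin 3) ℂ) (hG : IsGram G) : (WM3 G 0 1 2).trace =
    8 * (G 0 1 * G 1 2 * G 2 0) - 4 * (G 0 1 * G 1 0 + G 1 2 * G 2 1 + G 2 0 * G 0 2) + 3 := by
  simp only [WM3, Matrix.trace, Matrix.diag, Matrix.mul_apply, Fin.sum_univ_three, Sg]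
  simp [hG.dg]
  ring

/-- The chain of the cycle `i j k`. -/
theorem chain_of (G : Matrix (Fin 3) (Fin 3) ℂ) (hG : IsGram G) {i j k : Fin 3} {e f : Fin 3 → ℂ} {l τ : ℂ}
    (hl : l * conj l = 1) (hτ : 4 ≤ normSq τ) (he : WM3 G i j k *ᵥ e = l • e) (hfe : hf G f e = 0)
    (hrec : ∀ g, hf G g e = 0 → WM3 G i j k *ᵥ (WM3 G i j k *ᵥ g) = τ • (WM3 G i j k *ᵥ g) - conj l • g)
    {t r a1 a2 : ℝ} (ht0 : 0 ≤ t) (ht1 : t ≤ 1) (hr0 : 0 ≤ r) (hr1 : r ≤ 1) {Q12 Q31 Q23 : Matrix (Fin 3) (Fin 3) ℂ}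
    (h12 : ∀ x, qf Q12 x = (normSq (hf G x f) - normSq (hf G x (WM3 G i j k *ᵥ f))) + a1 * normSq (hf G x e) + a2 * qf G x)
    (h31 : ∀ x, qf Q31 x = (1 - t) * (normSq (hf G x (Sg G k *ᵥ f)) - normSq (hf G x (Sg G k *ᵥ (WM3 G i j k *ᵥ f)))) +
      t * (normSq (hf G x (Sg G k *ᵥ (WM3 G k j i *ᵥ f))) - normSq (hf G x (Sg G k *ᵥ f))) +
      a1 * normSq (hf G x (Sg G k *ᵥ e)) + a2 * qf G x)
    (h23 : ∀ x, qf Q23 x = (1 - r) * (normSq (hf G x (Sg G i *ᵥ f)) - normSq (hf G x (Sg G i *ᵥ (WM3 G i j k *ᵥ f)))) +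
      r * (normSq (hf G x (Sg G i *ᵥ (WM3 G i j k *ᵥ f))) -
        normSq (hf G x (Sg G i *ᵥ (WM3 G i j k *ᵥ (WM3 G i j k *ᵥ f))))) +
      a1 * normSq (hf G x (Sg G i *ᵥ e)) + a2 * qf G x) :
    Incl G (altS G i j 2) Q31 Q12 ∧ Incl G (altS G k i 2) Q23 Q31 ∧ Incl G (altS G j k 2) Q12 Q23 := by
  have hl1 : normSq l = 1 := by
    have := Complex.mul_conj l
    rw [hl] at this
    exact_mod_cast this.symm
  set W := WM3 G i j k with hW
  set V := WM3 G k j i with hV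
  have hVW : ∀ v, V *ᵥ (W *ᵥ v) = v := fun v => WM3_inv G hG i j k v
  have hWV : ∀ v, W *ᵥ (V *ᵥ v) = v := fun v => WM3_inv G hG k j i v
  -- `V e = l⁻¹ e`
  have hVe : V *ᵥ e = conj l • e := by
    have h1 : V *ᵥ (W *ᵥ e) = e := hVW e
    rw [he, Matrix.mulVec_smul] at h1
    calc V *ᵥ e = (conj l * l) • (V *ᵥ e) := by rw [mul_comm, hl, one_smul]
      _ = conj l • (l • (V *ᵥ e)) := by rw [smul_smul]
      _ = conj l • e := by rw [h1]
  -- the complement is invariant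
  have hWp : ∀ g, hf G g e = 0 → hf G (W *ᵥ g) e = 0 := by
    intro g hg
    have e1 : e = W *ᵥ (conj l • e) := by
      rw [Matrix.mulVec_smul, he, smul_smul, mul_comm, hl, one_smul]
    have e2 : hf G (W *ᵥ g) e = hf G (W *ᵥ g) (W *ᵥ (conj l • e)) := by rw [← e1]
    rw [e2, WM3_iso G hG, hf_smul_right, hg, mul_zero]
  have hVp : ∀ g, hf G g e = 0 → hf G (V *ᵥ g) e = 0 := by
    intro g hg
    have e1 : e = V *ᵥ (l • e) := by
      rw [Matrix.mulVec_smul, hVe, smul_smul, hl, one_smul]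
    have e2 : hf G (V *ᵥ g) e = hf G (V *ᵥ g) (V *ᵥ (l • e)) := by rw [← e1]
    rw [e2, hV, WM3_iso G hG, hf_smul_right, hg, mul_zero]
  -- the differences
  have hD0 : ∀ z, normSq (hf G z f) - normSq (hf G z (W *ᵥ f)) ≤ normSq (hf G z (V *ᵥ f)) - normSq (hf G z f) := by
    intro z
    have h := conv_of G W hl hτ (hrec (V *ᵥ f) (hVp f hfe)) z
    rw [hWV] at h
    linarith
  have hD1 : ∀ z, normSq (hf G z (W *ᵥ f)) - normSq (hf G z (W *ᵥ (W *ᵥ f))) ≤
      normSq (hf G z f) - normSq (hf G z (W *ᵥ f)) := by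
    intro z
    have h := conv_of G W hl hτ (hrec f hfe) z
    linarith
  have hqG : ∀ (a b : Fin 3) (x : Fin 3 → ℂ), qf G (altS G a b 2 *ᵥ x) = qf G x := fun a b x => qf_gram_alt G hG x 2 a b
  have halt : ∀ (a b : Fin 3) (x : Fin 3 → ℂ), altS G a b 2 *ᵥ x = Sg G a *ᵥ (Sg G b *ᵥ x) := by
    intro a b x
    simp only [altS, mul_one]
    rw [← Matrix.mulVec_mulVec]
  refine ⟨?_, ?_, ?_⟩
  · intro x _ hQ
    rw [h31] at hQ
    rw [h12, hqG, halt]
    have e1 : ∀ v, hf G (Sg G i *ᵥ (Sg G j *ᵥ x)) v = hf G x (Sg G k *ᵥ (V *ᵥ v)) := by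
      intro v
      rw [hf_Sg G hG, hf_Sg G hG, hV, WM3_mulVec, Sg_sq G hG]
    rw [e1, e1, e1, hVW, hVe, Matrix.mulVec_smul, hf_smul_right, normSq_mul, Complex.conj_conj, hl1, one_mul]
    have h := hD0 (Sg G k *ᵥ x)
    simp only [hf_Sg G hG] at h
    nlinarith
  · intro x _ hQ
    rw [h23] at hQ
    rw [h31, hqG, halt]
    have e1 : ∀ v, hf G (Sg G k *ᵥ (Sg G i *ᵥ x)) (Sg G k *ᵥ v) = hf G x (Sg G i *ᵥ v) := by
      intro v
      rw [hf_Sg G hG, hf_Sg G hG, Sg_sq G hG]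
    rw [e1, e1, e1, e1]
    have h := hD0 (Sg G i *ᵥ x)
    have h' := hD1 (Sg G i *ᵥ x)
    simp only [hf_Sg G hG] at h h'
    nlinarith
  · intro x _ hQ
    rw [h12] at hQ
    rw [h23, hqG, halt]
    have e1 : ∀ v, hf G (Sg G j *ᵥ (Sg G k *ᵥ x)) (Sg G i *ᵥ v) = hf G x (V *ᵥ v) := by
      intro v
      rw [hf_Sg G hG, hf_Sg G hG, hV, WM3_mulVec]
    rw [e1, e1, e1, e1, hVW, hVW, hVe, hf_smul_right, normSq_mul, Complex.conj_conj, hl1, one_mul]
    have h := hD0 x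
    nlinarith

/-- The trace of `W` on the orthogonal complement of `e` has absolute value at least two. -/
theorem tau_ge {a b c θ : ℝ} {G : Matrix (Fin 3) (Fin 3) ℂ} (hG : TriG a b c θ G) {l : ℂ} (hl : l * conj l = 1)
    (hP : l ^ 3 - (WM3 G 0 1 2).trace * l ^ 2 + conj (WM3 G 0 1 2).trace * l - 1 = 0)
    (hs : 2 * l ^ 2 - (WM3 G 0 1 2).trace * l + conj l ≠ 0) (hB : 0 ≤ fB a b c (Real.cos θ)) :
    4 ≤ normSq ((WM3 G 0 1 2).trace - l) := by
  have hp : G 0 1 * G 1 2 * G 2 0 = -((a * b * c : ℝ) : ℂ) * exp (-(θ * I)) := by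
    have h := congrArg conj hG.prod
    simp only [map_mul, map_neg, Complex.conj_ofReal, hG.gram.hm] at h
    rw [h, ← Complex.exp_conj]
    simp
  have h01 : G 0 1 * G 1 0 = ((b ^ 2 : ℝ) : ℂ) := by
    rw [← hG.gram.hm 1 0, mul_comm, Complex.mul_conj, Complex.normSq_eq_norm_sq, hG.h01]
  have h12 : G 1 2 * G 2 1 = ((a ^ 2 : ℝ) : ℂ) := by
    rw [← hG.gram.hm 2 1, mul_comm, Complex.mul_conj, Complex.normSq_eq_norm_sq, hG.h12]
  have h20 : G 2 0 * G 0 2 = ((c ^ 2 : ℝ) : ℂ) := by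
    rw [← hG.gram.hm 0 2, mul_comm, Complex.mul_conj, Complex.normSq_eq_norm_sq, hG.h20]
  set t := (WM3 G 0 1 2).trace with ht
  have htr : t = ((reB a b c (Real.cos θ) : ℝ) : ℂ) + ((8 * (a * b * c) * Real.sin θ : ℝ) : ℂ) * I := by
    rw [ht, WM3_trace G hG.gram, hp, h01, h12, h20]
    have he : exp (-(θ * I)) = ((Real.cos θ : ℝ) : ℂ) - ((Real.sin θ : ℝ) : ℂ) * I := by
      have : -((θ : ℂ) * I) = ((-θ : ℝ) : ℂ) * I := by push_cast; ring
      rw [this, Complex.exp_mul_I, ← Complex.ofReal_cos, ← Complex.ofReal_sin, Real.cos_neg, Real.sin_neg]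
      push_cast
      ring
    rw [he]
    unfold reB
    push_cast
    ring
  have hre : t.re = reB a b c (Real.cos θ) := by
    rw [htr]
    simp only [Complex.add_re, Complex.mul_re, Complex.ofReal_re, Complex.ofReal_im, Complex.I_im, Complex.I_re]
    ring
  have him : t.im = 8 * (a * b * c) * Real.sin θ := by
    rw [htr]
    simp only [Complex.add_im, Complex.mul_im, Complex.ofReal_re, Complex.ofReal_im, Complex.I_im, Complex.I_re]
    ring
  have him2 : t.im ^ 2 = im2B a b c (Real.cos θ) := by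
    rw [him]
    unfold im2B
    have := Real.sin_sq_add_cos_sq θ
    have e : Real.sin θ ^ 2 = 1 - Real.cos θ ^ 2 := by linarith
    rw [mul_pow, e]
    ring
  have hg := gold_eq hl hP
  have hg' : (normSq t ^ 2 - 8 * (t ^ 3).re + 18 * normSq t - 27 : ℝ) =
      (normSq (t - l) - 4) * normSq (2 * l ^ 2 - t * l + conj l) := by exact_mod_cast hg
  have hfB : fB a b c (Real.cos θ) = normSq t ^ 2 - 8 * (t ^ 3).re + 18 * normSq t - 27 := by
    have h1 : normSq t = reB a b c (Real.cos θ) ^ 2 + im2B a b c (Real.cos θ) := by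
      rw [normSq_apply, ← him2, ← hre]
      ring
    have h2 : (t ^ 3).re = reB a b c (Real.cos θ) * (reB a b c (Real.cos θ) ^ 2 - 3 * im2B a b c (Real.cos θ)) := by
      rw [← him2, ← hre]
      simp only [pow_succ, pow_zero, one_mul, Complex.mul_re, Complex.mul_im]
      ring
    rw [h1, h2]
    unfold fB
    ring
  rw [hfB, hg'] at hB
  have hpos : 0 < normSq (2 * l ^ 2 - t * l + conj l) := normSq_pos.2 hs
  by_contra hlt
  push Not at hlt
  nlinarith

end Pool.Agent.Work.MP_88b7aa_gt.PQ
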