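import Mathlib

/-!
# Taylor models of the second order in four variables

The model `t` at the point `p ∈ [-1, 1]^4` encloses the real number `x` if `|2^40 x - P(p)| ≤ t.r`, `P` the polynomial of `t`.
-/

namespace Pool.Agent.Work.MP_88b7aa_gt.PQ

/-- A point of the cube. -/
structure Pt where
  x : ℝ
  y : ℝ
  z : ℝ
  w : ℝ
  hx : |x| ≤ 1
  hy : |y| ≤ 1
  hz : |z| ≤ 1
  hw : |w| ≤ 1

/-- A Taylor model. -/
structure T2 where
  v : Int
  a : Int
  b : Int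
  c : Int
  d : Int
  aa : Int
  ab : Int
  ac : Int
  ad : Int
  bb : Int
  bc : Int
  bd : Int
  cc : Int
  cd : Int
  dd : Int
  r : Nat

namespace T2

/-- The polynomial, affine in `(x, x2)`, `(y, y2)`, `(z, z2)`, `(w, w2)`. -/
def ev (t : T2) (x y z w x2 y2 z2 w2 : ℝ) : ℝ :=
  t.v + t.a * x + t.b * y + t.c * z + t.d * w + t.ab * (x * y) + t.ac * (x * z) + t.ad * (x * w) + t.bc * (y * z) +
    t.bd * (y * w) + t.cd * (z * w) + t.aa * x2 + t.bb * y2 + t.cc * z2 + t.dd * w2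

/-- The enclosure. -/
def Mem (p : Pt) (x : ℝ) (t : T2) : Prop :=
  |x * 1099511627776 - t.ev p.x p.y p.z p.w (p.x ^ 2) (p.y ^ 2) (p.z ^ 2) (p.w ^ 2)| ≤ t.r

/-- floor of `z / 2^40`. -/
def fl : Int → Int
  | .ofNat n => .ofNat (n / 1099511627776)
  | .negSucc n => .negSucc (n / 1099511627776)

/-- absolute value. -/
def ab' : Int → Nat
  | .ofNat n => n
  | .negSucc n => n + 1

/-- the constant `n / 2^40`. -/
def cst (n : Int) : T2 := ⟨n, 0, 0, 0, 0, 0, 0, 0, 0, 0, 0, 0, 0, 0, 0, 0⟩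

def add (s t : T2) : T2 :=
  ⟨Int.add s.v t.v, Int.add s.a t.a, Int.add s.b t.b, Int.add s.c t.c, Int.add s.d t.d, Int.add s.aa t.aa, Int.add s.ab t.ab,
    Int.add s.ac t.ac, Int.add s.ad t.ad, Int.add s.bb t.bb, Int.add s.bc t.bc, Int.add s.bd t.bd, Int.add s.cc t.cc,
    Int.add s.cd t.cd, Int.add s.dd t.dd, s.r + t.r⟩

def sub (s t : T2) : T2 :=
  ⟨Int.sub s.v t.v, Int.sub s.a t.a, Int.sub s.b t.b, Int.sub s.c t.c, Int.sub s.d t.d, Int.sub s.aa t.aa, Int.sub s.ab t.ab,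
    Int.sub s.ac t.ac, Int.sub s.ad t.ad, Int.sub s.bb t.bb, Int.sub s.bc t.bc, Int.sub s.bd t.bd, Int.sub s.cc t.cc,
    Int.sub s.cd t.cd, Int.sub s.dd t.dd, s.r + t.r⟩

def neg (t : T2) : T2 :=
  ⟨Int.neg t.v, Int.neg t.a, Int.neg t.b, Int.neg t.c, Int.neg t.d, Int.neg t.aa, Int.neg t.ab,
    Int.neg t.ac, Int.neg t.ad, Int.neg t.bb, Int.neg t.bc, Int.neg t.bd, Int.neg t.cc,
    Int.neg t.cd, Int.neg t.dd, t.r⟩

/-- sum of the absolute values of the linear coefficients. -/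
def sg (t : T2) : Nat := ab' t.a + ab' t.b + ab' t.c + ab' t.d

/-- sum of the absolute values of the quadratic coefficients. -/
def sh (t : T2) : Nat :=
  ab' t.aa + ab' t.ab + ab' t.ac + ab' t.ad + ab' t.bb + ab' t.bc + ab' t.bd + ab' t.cc + ab' t.cd + ab' t.dd

def mul (s t : T2) : T2 :=
  ⟨fl (Int.mul s.v t.v),
   fl (Int.add (Int.mul s.v t.a) (Int.mul s.a t.v)),
   fl (Int.add (Int.mul s.v t.b) (Int.mul s.b t.v)),
   fl (Int.add (Int.mul s.v t.c) (Int.mul s.c t.v)),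
   fl (Int.add (Int.mul s.v t.d) (Int.mul s.d t.v)),
   fl (Int.add (Int.add (Int.mul s.v t.aa) (Int.mul s.aa t.v)) (Int.mul s.a t.a)),
   fl (Int.add (Int.add (Int.mul s.v t.ab) (Int.mul s.ab t.v)) (Int.add (Int.mul s.a t.b) (Int.mul s.b t.a))),
   fl (Int.add (Int.add (Int.mul s.v t.ac) (Int.mul s.ac t.v)) (Int.add (Int.mul s.a t.c) (Int.mul s.c t.a))),
   fl (Int.add (Int.add (Int.mul s.v t.ad) (Int.mul s.ad t.v)) (Int.add (Int.mul s.a t.d) (Int.mul s.d t.a))),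
   fl (Int.add (Int.add (Int.mul s.v t.bb) (Int.mul s.bb t.v)) (Int.mul s.b t.b)),
   fl (Int.add (Int.add (Int.mul s.v t.bc) (Int.mul s.bc t.v)) (Int.add (Int.mul s.b t.c) (Int.mul s.c t.b))),
   fl (Int.add (Int.add (Int.mul s.v t.bd) (Int.mul s.bd t.v)) (Int.add (Int.mul s.b t.d) (Int.mul s.d t.b))),
   fl (Int.add (Int.add (Int.mul s.v t.cc) (Int.mul s.cc t.v)) (Int.mul s.c t.c)),
   fl (Int.add (Int.add (Int.mul s.v t.cd) (Int.mul s.cd t.v)) (Int.add (Int.mul s.c t.d) (Int.mul s.d t.c))),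
   fl (Int.add (Int.add (Int.mul s.v t.dd) (Int.mul s.dd t.v)) (Int.mul s.d t.d)),
   (s.r * (ab' t.v + t.sg + t.sh + t.r) + t.r * (ab' s.v + s.sg + s.sh) + (s.sg * t.sh + s.sh * (t.sg + t.sh))) / 1099511627776 +
     16⟩

theorem fl_eq (z : Int) : fl z = z / 1099511627776 := by
  unfold fl
  rcases z with n | n
  · have h1 : (Int.ofNat n : ℤ) = (n : ℤ) := rfl
    have h2 : (Int.ofNat (n / 1099511627776) : ℤ) = ((n / 1099511627776 : ℕ) : ℤ) := rfl
    simp only []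
    rw [h1, h2]
    omega
  · have h1 : (Int.negSucc n : ℤ) = -((n : ℤ) + 1) := Int.negSucc_eq n
    have h2 : (Int.negSucc (n / 1099511627776) : ℤ) = -(((n / 1099511627776 : ℕ) : ℤ) + 1) := Int.negSucc_eq _
    simp only []
    rw [h1, h2]
    omega

/-- The rounding error. -/
theorem fl_err (z : Int) : 0 ≤ (z : ℝ) / 1099511627776 - ((fl z : Int) : ℝ) ∧ (z : ℝ) / 1099511627776 - ((fl z : Int) : ℝ) ≤ 1 := by
  rw [fl_eq]
  have h1 : (z / 1099511627776) * 1099511627776 ≤ z := by omega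
  have h2 : z ≤ (z / 1099511627776) * 1099511627776 + 1099511627776 := by omega
  have h1' : (((z / 1099511627776 : Int)) : ℝ) * 1099511627776 ≤ z := by exact_mod_cast h1
  have h2' : (z : ℝ) ≤ (((z / 1099511627776 : Int)) : ℝ) * 1099511627776 + 1099511627776 := by exact_mod_cast h2
  constructor
  · rw [sub_nonneg, le_div_iff₀ (by norm_num)]
    exact h1'
  · rw [sub_le_iff_le_add, div_le_iff₀ (by norm_num)]
    linarith

theorem ab'_eq (z : Int) : ((ab' z : Nat) : ℝ) = |(z : ℝ)| := by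
  rcases z with n | n
  · have h1 : (Int.ofNat n : ℤ) = (n : ℤ) := rfl
    show ((n : Nat) : ℝ) = _
    rw [h1, Int.cast_natCast, abs_of_nonneg (Nat.cast_nonneg n)]
  · show ((n + 1 : Nat) : ℝ) = _
    rw [Int.cast_negSucc, abs_neg, abs_of_nonneg (Nat.cast_nonneg _)]

theorem mem_cst (p : Pt) (n : Int) : Mem p ((n : ℝ) / 1099511627776) (cst n) := by
  unfold Mem ev cst
  simp

theorem mem_add {p : Pt} {x y : ℝ} {s t : T2} (hx : Mem p x s) (hy : Mem p y t) : Mem p (x + y) (add s t) := by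
  unfold Mem at *
  have e : (add s t).ev p.x p.y p.z p.w (p.x ^ 2) (p.y ^ 2) (p.z ^ 2) (p.w ^ 2) =
      s.ev p.x p.y p.z p.w (p.x ^ 2) (p.y ^ 2) (p.z ^ 2) (p.w ^ 2) +
      t.ev p.x p.y p.z p.w (p.x ^ 2) (p.y ^ 2) (p.z ^ 2) (p.w ^ 2) := by
    have h : ∀ a b : Int, ((Int.add a b : Int) : ℝ) = (a : ℝ) + b := fun a b => Int.cast_add a b
    unfold ev add
    simp only [h]
    ring
  have er : ((add s t).r : ℝ) = s.r + t.r := by
    show ((s.r + t.r : Nat) : ℝ) = _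
    push_cast
    ring
  rw [e, er]
  rw [abs_le] at *
  constructor <;> linarith [hx.1, hx.2, hy.1, hy.2]

theorem mem_neg {p : Pt} {x : ℝ} {t : T2} (hx : Mem p x t) : Mem p (-x) (neg t) := by
  unfold Mem at *
  have e : (neg t).ev p.x p.y p.z p.w (p.x ^ 2) (p.y ^ 2) (p.z ^ 2) (p.w ^ 2) =
      -t.ev p.x p.y p.z p.w (p.x ^ 2) (p.y ^ 2) (p.z ^ 2) (p.w ^ 2) := by
    have h : ∀ a : Int, ((Int.neg a : Int) : ℝ) = -(a : ℝ) := fun a => Int.cast_neg a
    unfold ev neg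
    simp only [h]
    ring
  have er : ((neg t).r : ℝ) = t.r := rfl
  rw [e, er]
  rw [abs_le] at *
  constructor <;> linarith [hx.1, hx.2]

theorem mem_sub {p : Pt} {x y : ℝ} {s t : T2} (hx : Mem p x s) (hy : Mem p y t) : Mem p (x - y) (sub s t) := by
  unfold Mem at *
  have e : (sub s t).ev p.x p.y p.z p.w (p.x ^ 2) (p.y ^ 2) (p.z ^ 2) (p.w ^ 2) =
      s.ev p.x p.y p.z p.w (p.x ^ 2) (p.y ^ 2) (p.z ^ 2) (p.w ^ 2) -
      t.ev p.x p.y p.z p.w (p.x ^ 2) (p.y ^ 2) (p.z ^ 2) (p.w ^ 2) := by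
    have h : ∀ a b : Int, ((Int.sub a b : Int) : ℝ) = (a : ℝ) - b := fun a b => Int.cast_sub a b
    unfold ev sub
    simp only [h]
    ring
  have er : ((sub s t).r : ℝ) = s.r + t.r := by
    show ((s.r + t.r : Nat) : ℝ) = _
    push_cast
    ring
  rw [e, er]
  rw [abs_le] at *
  constructor <;> linarith [hx.1, hx.2, hy.1, hy.2]

/-- `|a x| ≤ |a|` for `|x| ≤ 1`. -/
theorem abs_mul_one {a x : ℝ} (h : |x| ≤ 1) : |a * x| ≤ |a| := by
  rw [abs_mul]
  exact mul_le_of_le_one_right (abs_nonneg a) h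

theorem mem_mul {p : Pt} {x y : ℝ} {s t : T2} (hx : Mem p x s) (hy : Mem p y t) : Mem p (x * y) (mul s t) := by
  obtain ⟨X, Y, Z, W, hX, hY, hZ, hW⟩ := p
  unfold Mem at *
  simp only at *
  have hXY : |X * Y| ≤ 1 := by rw [abs_mul]; exact mul_le_one₀ hX (abs_nonneg _) hY
  have hXZ : |X * Z| ≤ 1 := by rw [abs_mul]; exact mul_le_one₀ hX (abs_nonneg _) hZ
  have hXW : |X * W| ≤ 1 := by rw [abs_mul]; exact mul_le_one₀ hX (abs_nonneg _) hW
  have hYZ : |Y * Z| ≤ 1 := by rw [abs_mul]; exact mul_le_one₀ hY (abs_nonneg _) hZ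
  have hYW : |Y * W| ≤ 1 := by rw [abs_mul]; exact mul_le_one₀ hY (abs_nonneg _) hW
  have hZW : |Z * W| ≤ 1 := by rw [abs_mul]; exact mul_le_one₀ hZ (abs_nonneg _) hW
  have hX2 : |X ^ 2| ≤ 1 := by rw [abs_pow]; exact pow_le_one₀ (abs_nonneg _) hX
  have hY2 : |Y ^ 2| ≤ 1 := by rw [abs_pow]; exact pow_le_one₀ (abs_nonneg _) hY
  have hZ2 : |Z ^ 2| ≤ 1 := by rw [abs_pow]; exact pow_le_one₀ (abs_nonneg _) hZ
  have hW2 : |W ^ 2| ≤ 1 := by rw [abs_pow]; exact pow_le_one₀ (abs_nonneg _) hW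
  set g1 : ℝ := s.a * X + s.b * Y + s.c * Z + s.d * W with hg1
  set g2 : ℝ := t.a * X + t.b * Y + t.c * Z + t.d * W with hg2
  set h1 : ℝ := s.ab * (X * Y) + s.ac * (X * Z) + s.ad * (X * W) + s.bc * (Y * Z) + s.bd * (Y * W) + s.cd * (Z * W) +
    s.aa * X ^ 2 + s.bb * Y ^ 2 + s.cc * Z ^ 2 + s.dd * W ^ 2 with hh1
  set h2 : ℝ := t.ab * (X * Y) + t.ac * (X * Z) + t.ad * (X * W) + t.bc * (Y * Z) + t.bd * (Y * W) + t.cd * (Z * W) +
    t.aa * X ^ 2 + t.bb * Y ^ 2 + t.cc * Z ^ 2 + t.dd * W ^ 2 with hh2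
  have es : s.ev X Y Z W (X ^ 2) (Y ^ 2) (Z ^ 2) (W ^ 2) = s.v + g1 + h1 := by rw [hg1, hh1]; unfold ev; ring
  have et : t.ev X Y Z W (X ^ 2) (Y ^ 2) (Z ^ 2) (W ^ 2) = t.v + g2 + h2 := by rw [hg2, hh2]; unfold ev; ring
  have bsg : ∀ u : T2, |(u.a : ℝ) * X + u.b * Y + u.c * Z + u.d * W| ≤ (u.sg : ℝ) := by
    intro u
    have : ((u.sg : Nat) : ℝ) = |(u.a : ℝ)| + |(u.b : ℝ)| + |(u.c : ℝ)| + |(u.d : ℝ)| := by
      unfold sg
      push_cast
      rw [ab'_eq, ab'_eq, ab'_eq, ab'_eq]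
    rw [this]
    refine (abs_add_le _ _).trans (add_le_add ((abs_add_le _ _).trans (add_le_add ((abs_add_le _ _).trans (add_le_add ?_ ?_)) ?_)) ?_)
    · exact abs_mul_one hX
    · exact abs_mul_one hY
    · exact abs_mul_one hZ
    · exact abs_mul_one hW
  have bsh : ∀ u : T2, |(u.ab : ℝ) * (X * Y) + u.ac * (X * Z) + u.ad * (X * W) + u.bc * (Y * Z) + u.bd * (Y * W) + u.cd * (Z * W) +
      u.aa * X ^ 2 + u.bb * Y ^ 2 + u.cc * Z ^ 2 + u.dd * W ^ 2| ≤ (u.sh : ℝ) := by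
    intro u
    have : ((u.sh : Nat) : ℝ) = |(u.ab : ℝ)| + |(u.ac : ℝ)| + |(u.ad : ℝ)| + |(u.bc : ℝ)| + |(u.bd : ℝ)| + |(u.cd : ℝ)| +
        |(u.aa : ℝ)| + |(u.bb : ℝ)| + |(u.cc : ℝ)| + |(u.dd : ℝ)| := by
      unfold sh
      push_cast
      rw [ab'_eq, ab'_eq, ab'_eq, ab'_eq, ab'_eq, ab'_eq, ab'_eq, ab'_eq, ab'_eq, ab'_eq]
      ring
    rw [this]
    refine (abs_add_le _ _).trans (add_le_add ((abs_add_le _ _).trans (add_le_add ((abs_add_le _ _).trans (add_le_add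
      ((abs_add_le _ _).trans (add_le_add ((abs_add_le _ _).trans (add_le_add ((abs_add_le _ _).trans (add_le_add
      ((abs_add_le _ _).trans (add_le_add ((abs_add_le _ _).trans (add_le_add ((abs_add_le _ _).trans (add_le_add ?_ ?_)) ?_)) ?_)) ?_))
      ?_)) ?_)) ?_)) ?_)) ?_)
    · exact abs_mul_one hXY
    · exact abs_mul_one hXZ
    · exact abs_mul_one hXW
    · exact abs_mul_one hYZ
    · exact abs_mul_one hYW
    · exact abs_mul_one hZW
    · exact abs_mul_one hX2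
    · exact abs_mul_one hY2
    · exact abs_mul_one hZ2
    · exact abs_mul_one hW2
  have bg1 := bsg s
  have bg2 := bsg t
  have bh1 := bsh s
  have bh2 := bsh t
  rw [← hg1] at bg1
  rw [← hg2] at bg2
  rw [← hh1] at bh1
  rw [← hh2] at bh2
  rw [es] at hx
  rw [et] at hy
  -- the product of the polynomials
  set q : ℝ := s.v * t.v + (s.v * g2 + g1 * t.v) + (s.v * h2 + h1 * t.v + g1 * g2) with hq
  set E : ℝ := ((s.r : ℝ) * (ab' t.v + t.sg + t.sh + t.r : ℕ) + t.r * (ab' s.v + s.sg + s.sh : ℕ) +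
      ((s.sg : ℝ) * t.sh + s.sh * (t.sg + t.sh : ℕ))) with hE
  have key : |x * y * 1099511627776 ^ 2 - q| ≤ E := by
    set e := x * 1099511627776 - (s.v + g1 + h1) with he
    set f := y * 1099511627776 - (t.v + g2 + h2) with hf
    have e1 : x * y * 1099511627776 ^ 2 - q = e * (t.v + g2 + h2 + f) + f * (s.v + g1 + h1) + (g1 * h2 + h1 * (g2 + h2)) := by
      rw [hq, he, hf]
      ring
    have b1 : |(t.v : ℝ) + g2 + h2 + f| ≤ (ab' t.v + t.sg + t.sh + t.r : ℕ) := by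
      push_cast
      rw [ab'_eq]
      exact (abs_add_le _ _).trans (add_le_add ((abs_add_le _ _).trans (add_le_add ((abs_add_le _ _).trans
        (add_le_add le_rfl bg2)) bh2)) hy)
    have b2 : |(s.v : ℝ) + g1 + h1| ≤ (ab' s.v + s.sg + s.sh : ℕ) := by
      push_cast
      rw [ab'_eq]
      exact (abs_add_le _ _).trans (add_le_add ((abs_add_le _ _).trans (add_le_add le_rfl bg1)) bh1)
    have b3 : |g2 + h2| ≤ (t.sg + t.sh : ℕ) := by
      push_cast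
      exact (abs_add_le _ _).trans (add_le_add bg2 bh2)
    rw [e1, hE]
    refine (abs_add_le _ _).trans (add_le_add ((abs_add_le _ _).trans (add_le_add ?_ ?_)) ((abs_add_le _ _).trans (add_le_add ?_ ?_)))
    · rw [abs_mul]
      exact mul_le_mul hx b1 (abs_nonneg _) (Nat.cast_nonneg _)
    · rw [abs_mul]
      exact mul_le_mul hy b2 (abs_nonneg _) (Nat.cast_nonneg _)
    · rw [abs_mul]
      exact mul_le_mul bg1 bh2 (abs_nonneg _) (Nat.cast_nonneg _)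
    · rw [abs_mul]
      exact mul_le_mul bh1 b3 (abs_nonneg _) (Nat.cast_nonneg _)
  -- the rounding
  have hm : ∀ a b : Int, ((Int.mul a b : Int) : ℝ) = (a : ℝ) * b := fun a b => Int.cast_mul a b
  have ha : ∀ a b : Int, ((Int.add a b : Int) : ℝ) = (a : ℝ) + b := fun a b => Int.cast_add a b
  have rd : ∀ (z : Int) (m : ℝ), |m| ≤ 1 → |((z : ℝ) / 1099511627776 - ((fl z : Int) : ℝ)) * m| ≤ 1 := by
    intro z m hm'
    obtain ⟨f1, f2⟩ := fl_err z
    rw [abs_mul, abs_of_nonneg f1]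
    exact mul_le_one₀ f2 (abs_nonneg _) hm'
  have h1one : |(1 : ℝ)| ≤ 1 := by rw [abs_one]
  have rnd : |q / 1099511627776 - (mul s t).ev X Y Z W (X ^ 2) (Y ^ 2) (Z ^ 2) (W ^ 2)| ≤ 15 := by
    have k_v := rd (Int.mul s.v t.v) (1) h1one
    have k_a := rd (Int.add (Int.mul s.v t.a) (Int.mul s.a t.v)) (X) hX
    have k_b := rd (Int.add (Int.mul s.v t.b) (Int.mul s.b t.v)) (Y) hY
    have k_c := rd (Int.add (Int.mul s.v t.c) (Int.mul s.c t.v)) (Z) hZ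
    have k_d := rd (Int.add (Int.mul s.v t.d) (Int.mul s.d t.v)) (W) hW
    have k_aa := rd (Int.add (Int.add (Int.mul s.v t.aa) (Int.mul s.aa t.v)) (Int.mul s.a t.a)) (X ^ 2) hX2
    have k_ab := rd (Int.add (Int.add (Int.mul s.v t.ab) (Int.mul s.ab t.v)) (Int.add (Int.mul s.a t.b) (Int.mul s.b t.a))) ((X * Y)) hXY
    have k_ac := rd (Int.add (Int.add (Int.mul s.v t.ac) (Int.mul s.ac t.v)) (Int.add (Int.mul s.a t.c) (Int.mul s.c t.a))) ((X * Z)) hXZ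
    have k_ad := rd (Int.add (Int.add (Int.mul s.v t.ad) (Int.mul s.ad t.v)) (Int.add (Int.mul s.a t.d) (Int.mul s.d t.a))) ((X * W)) hXW
    have k_bb := rd (Int.add (Int.add (Int.mul s.v t.bb) (Int.mul s.bb t.v)) (Int.mul s.b t.b)) (Y ^ 2) hY2
    have k_bc := rd (Int.add (Int.add (Int.mul s.v t.bc) (Int.mul s.bc t.v)) (Int.add (Int.mul s.b t.c) (Int.mul s.c t.b))) ((Y * Z)) hYZ
    have k_bd := rd (Int.add (Int.add (Int.mul s.v t.bd) (Int.mul s.bd t.v)) (Int.add (Int.mul s.b t.d) (Int.mul s.d t.b))) ((Y * W)) hYW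
    have k_cc := rd (Int.add (Int.add (Int.mul s.v t.cc) (Int.mul s.cc t.v)) (Int.mul s.c t.c)) (Z ^ 2) hZ2
    have k_cd := rd (Int.add (Int.add (Int.mul s.v t.cd) (Int.mul s.cd t.v)) (Int.add (Int.mul s.c t.d) (Int.mul s.d t.c))) ((Z * W)) hZW
    have k_dd := rd (Int.add (Int.add (Int.mul s.v t.dd) (Int.mul s.dd t.v)) (Int.mul s.d t.d)) (W ^ 2) hW2
    have e : q / 1099511627776 - (mul s t).ev X Y Z W (X ^ 2) (Y ^ 2) (Z ^ 2) (W ^ 2) =
      (((Int.mul s.v t.v) : Int) / 1099511627776 - ((fl (Int.mul s.v t.v) : Int) : ℝ)) * (1) +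
      (((Int.add (Int.mul s.v t.a) (Int.mul s.a t.v)) : Int) / 1099511627776 - ((fl (Int.add (Int.mul s.v t.a) (Int.mul s.a t.v)) : Int) : ℝ)) * (X) +
      (((Int.add (Int.mul s.v t.b) (Int.mul s.b t.v)) : Int) / 1099511627776 - ((fl (Int.add (Int.mul s.v t.b) (Int.mul s.b t.v)) : Int) : ℝ)) * (Y) +
      (((Int.add (Int.mul s.v t.c) (Int.mul s.c t.v)) : Int) / 1099511627776 - ((fl (Int.add (Int.mul s.v t.c) (Int.mul s.c t.v)) : Int) : ℝ)) * (Z) +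
      (((Int.add (Int.mul s.v t.d) (Int.mul s.d t.v)) : Int) / 1099511627776 - ((fl (Int.add (Int.mul s.v t.d) (Int.mul s.d t.v)) : Int) : ℝ)) * (W) +
      (((Int.add (Int.add (Int.mul s.v t.aa) (Int.mul s.aa t.v)) (Int.mul s.a t.a)) : Int) / 1099511627776 - ((fl (Int.add (Int.add (Int.mul s.v t.aa) (Int.mul s.aa t.v)) (Int.mul s.a t.a)) : Int) : ℝ)) * (X ^ 2) +
      (((Int.add (Int.add (Int.mul s.v t.ab) (Int.mul s.ab t.v)) (Int.add (Int.mul s.a t.b) (Int.mul s.b t.a))) : Int) / 1099511627776 - ((fl (Int.add (Int.add (Int.mul s.v t.ab) (Int.mul s.ab t.v)) (Int.add (Int.mul s.a t.b) (Int.mul s.b t.a))) : Int) : ℝ)) * ((X * Y)) +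
      (((Int.add (Int.add (Int.mul s.v t.ac) (Int.mul s.ac t.v)) (Int.add (Int.mul s.a t.c) (Int.mul s.c t.a))) : Int) / 1099511627776 - ((fl (Int.add (Int.add (Int.mul s.v t.ac) (Int.mul s.ac t.v)) (Int.add (Int.mul s.a t.c) (Int.mul s.c t.a))) : Int) : ℝ)) * ((X * Z)) +
      (((Int.add (Int.add (Int.mul s.v t.ad) (Int.mul s.ad t.v)) (Int.add (Int.mul s.a t.d) (Int.mul s.d t.a))) : Int) / 1099511627776 - ((fl (Int.add (Int.add (Int.mul s.v t.ad) (Int.mul s.ad t.v)) (Int.add (Int.mul s.a t.d) (Int.mul s.d t.a))) : Int) : ℝ)) * ((X * W)) +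
      (((Int.add (Int.add (Int.mul s.v t.bb) (Int.mul s.bb t.v)) (Int.mul s.b t.b)) : Int) / 1099511627776 - ((fl (Int.add (Int.add (Int.mul s.v t.bb) (Int.mul s.bb t.v)) (Int.mul s.b t.b)) : Int) : ℝ)) * (Y ^ 2) +
      (((Int.add (Int.add (Int.mul s.v t.bc) (Int.mul s.bc t.v)) (Int.add (Int.mul s.b t.c) (Int.mul s.c t.b))) : Int) / 1099511627776 - ((fl (Int.add (Int.add (Int.mul s.v t.bc) (Int.mul s.bc t.v)) (Int.add (Int.mul s.b t.c) (Int.mul s.c t.b))) : Int) : ℝ)) * ((Y * Z)) +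
      (((Int.add (Int.add (Int.mul s.v t.bd) (Int.mul s.bd t.v)) (Int.add (Int.mul s.b t.d) (Int.mul s.d t.b))) : Int) / 1099511627776 - ((fl (Int.add (Int.add (Int.mul s.v t.bd) (Int.mul s.bd t.v)) (Int.add (Int.mul s.b t.d) (Int.mul s.d t.b))) : Int) : ℝ)) * ((Y * W)) +
      (((Int.add (Int.add (Int.mul s.v t.cc) (Int.mul s.cc t.v)) (Int.mul s.c t.c)) : Int) / 1099511627776 - ((fl (Int.add (Int.add (Int.mul s.v t.cc) (Int.mul s.cc t.v)) (Int.mul s.c t.c)) : Int) : ℝ)) * (Z ^ 2) +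
      (((Int.add (Int.add (Int.mul s.v t.cd) (Int.mul s.cd t.v)) (Int.add (Int.mul s.c t.d) (Int.mul s.d t.c))) : Int) / 1099511627776 - ((fl (Int.add (Int.add (Int.mul s.v t.cd) (Int.mul s.cd t.v)) (Int.add (Int.mul s.c t.d) (Int.mul s.d t.c))) : Int) : ℝ)) * ((Z * W)) +
      (((Int.add (Int.add (Int.mul s.v t.dd) (Int.mul s.dd t.v)) (Int.mul s.d t.d)) : Int) / 1099511627776 - ((fl (Int.add (Int.add (Int.mul s.v t.dd) (Int.mul s.dd t.v)) (Int.mul s.d t.d)) : Int) : ℝ)) * (W ^ 2) := by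
      unfold ev mul
      simp only [hm, ha]
      rw [hq, hg1, hg2, hh1, hh2]
      ring
    rw [e]
    rw [abs_le] at *
    constructor <;> linarith [k_v.1, k_v.2, k_a.1, k_a.2, k_b.1, k_b.2, k_c.1, k_c.2, k_d.1, k_d.2, k_aa.1, k_aa.2, k_ab.1, k_ab.2, k_ac.1, k_ac.2, k_ad.1, k_ad.2, k_bb.1, k_bb.2, k_bc.1, k_bc.2, k_bd.1, k_bd.2, k_cc.1, k_cc.2, k_cd.1, k_cd.2, k_dd.1, k_dd.2]
  have er : ((mul s t).r : ℝ) = (((s.r * (ab' t.v + t.sg + t.sh + t.r) + t.r * (ab' s.v + s.sg + s.sh) +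
      (s.sg * t.sh + s.sh * (t.sg + t.sh))) / 1099511627776 : ℕ) : ℝ) + 16 := by
    unfold mul
    push_cast
    ring
  set K : ℕ := s.r * (ab' t.v + t.sg + t.sh + t.r) + t.r * (ab' s.v + s.sg + s.sh) + (s.sg * t.sh + s.sh * (t.sg + t.sh)) with hK
  have hEK : E = (K : ℝ) := by
    rw [hE, hK]
    push_cast
    ring
  have hdiv : (K : ℝ) / 1099511627776 ≤ ((K / 1099511627776 : ℕ) : ℝ) + 1 := by
    rw [div_le_iff₀ (by norm_num)]
    have : K ≤ (K / 1099511627776 + 1) * 1099511627776 := by omega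
    exact_mod_cast this
  have k2 : |x * y * 1099511627776 - q / 1099511627776| ≤ (K : ℝ) / 1099511627776 := by
    rw [hEK] at key
    have e3 : x * y * 1099511627776 - q / 1099511627776 = (x * y * 1099511627776 ^ 2 - q) / 1099511627776 := by
      field_simp
    rw [e3, abs_div, abs_of_pos (by norm_num : (0 : ℝ) < 1099511627776)]
    exact div_le_div_of_nonneg_right key (by norm_num)
  rw [er]
  rw [abs_le] at *
  constructor <;> linarith [k2.1, k2.2, rnd.1, rnd.2]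

end T2

end Pool.Agent.Work.MP_88b7aa_gt.PQ
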