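import Pool.Agent.Work.MP_88b7aa_gt.PQ.T2
import Pool.Agent.Work.MP_88b7aa_gt.PQ.Num

/-!
# The semidefiniteness test for Taylor models

`2 P - ea = ∑ h_ii (2 ξ_i² - 1)`, `ea` affine in each variable: it is enough to look at the 16 corners, with the error `er` on the
diagonal.
-/

namespace Pool.Agent.Work.MP_88b7aa_gt.PQ

open ComplexConjugate Complex Matrix

namespace T2

/-- The multiaffine part of the doubled polynomial. -/
def ea (t : T2) (x y z w : ℝ) : ℝ :=
  ((t.v + t.v + (t.aa + t.bb + (t.cc + t.dd)) : Int) : ℝ) + 2 * (t.a * x + t.b * y + t.c * z + t.d * w + t.ab * (x * y) + t.ac * (x * z) +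
    t.ad * (x * w) + t.bc * (y * z) + t.bd * (y * w) + t.cd * (z * w))

/-- Its error. -/
def er (t : T2) : Nat := ab' t.aa + ab' t.bb + (ab' t.cc + ab' t.dd) + (t.r + t.r)

def dv (t : T2) : Int := Int.add (Int.add t.v t.v) (Int.add (Int.add t.aa t.bb) (Int.add t.cc t.dd))

def pm (s : Bool) (x y : Int) : Int := match s with
  | true => Int.add x y
  | false => Int.sub x y

/-- The value of `ea` at a corner. -/
def co (t : T2) (x y z w : Bool) : Int :=
  let u := pm w (pm z (pm y (pm x 0 t.a) t.b) t.c) t.d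
  let v := pm (x == y) 0 t.ab
  let v := pm (x == z) v t.ac
  let v := pm (x == w) v t.ad
  let v := pm (y == z) v t.bc
  let v := pm (y == w) v t.bd
  let v := pm (z == w) v t.cd
  let s := Int.add u v
  Int.add t.dv (Int.add s s)

def sgn (s : Bool) : ℝ := if s then 1 else -1

theorem pm_eq (s : Bool) (x y : Int) : ((pm s x y : Int) : ℝ) = x + sgn s * y := by
  cases s
  · show ((x - y : Int) : ℝ) = _
    simp [sgn]
    ring
  · show ((x + y : Int) : ℝ) = _
    simp [sgn]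

theorem sgn_beq (s t : Bool) : sgn (s == t) = sgn s * sgn t := by
  cases s <;> cases t <;> simp [sgn]

theorem co_eq (t : T2) (x y z w : Bool) : ((co t x y z w : Int) : ℝ) = ea t (sgn x) (sgn y) (sgn z) (sgn w) := by
  have ha : ∀ a b : Int, ((Int.add a b : Int) : ℝ) = (a : ℝ) + b := fun a b => Int.cast_add a b
  unfold co ea dv
  simp only [ha, pm_eq, sgn_beq]
  push_cast
  ring

theorem ea_err {p : Pt} {X : ℝ} {t : T2} (h : Mem p X t) : |2 * 1099511627776 * X - ea t p.x p.y p.z p.w| ≤ t.er := by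
  obtain ⟨x, y, z, w, hx, hy, hz, hw⟩ := p
  unfold Mem at h
  simp only at h ⊢
  have sq : ∀ {u : ℝ}, |u| ≤ 1 → |2 * u ^ 2 - 1| ≤ 1 := by
    intro u hu
    have h1 : u ^ 2 ≤ 1 := by
      rw [← sq_abs]
      exact pow_le_one₀ (abs_nonneg _) hu
    rw [abs_le]
    constructor <;> nlinarith [sq_nonneg u]
  have e : 2 * 1099511627776 * X - ea t x y z w = 2 * (X * 1099511627776 - t.ev x y z w (x ^ 2) (y ^ 2) (z ^ 2) (w ^ 2)) +
      (t.aa * (2 * x ^ 2 - 1) + t.bb * (2 * y ^ 2 - 1) + (t.cc * (2 * z ^ 2 - 1) + t.dd * (2 * w ^ 2 - 1))) := by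
    unfold ea ev
    push_cast
    ring
  have er' : ((t.er : Nat) : ℝ) = |(t.aa : ℝ)| + |(t.bb : ℝ)| + (|(t.cc : ℝ)| + |(t.dd : ℝ)|) + (t.r + t.r) := by
    unfold er
    push_cast
    rw [ab'_eq, ab'_eq, ab'_eq, ab'_eq]
  rw [e, er']
  have k1 := abs_mul_one (a := (t.aa : ℝ)) (sq hx)
  have k2 := abs_mul_one (a := (t.bb : ℝ)) (sq hy)
  have k3 := abs_mul_one (a := (t.cc : ℝ)) (sq hz)
  have k4 := abs_mul_one (a := (t.dd : ℝ)) (sq hw)
  rw [abs_le] at *
  constructor <;> linarith [h.1, h.2, k1.1, k1.2, k2.1, k2.2, k3.1, k3.2, k4.1, k4.2]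

end T2

open T2

/-- The nine entries as a function. -/
def H9.fn {R : Type} (H : H9 R) : Fin 9 → R :=
  ![H.d0, H.d1, H.d2, H.e01.re, H.e01.im, H.e02.re, H.e02.im, H.e12.re, H.e12.im]

/-- The coefficients of the value at `x`. -/
noncomputable def cf9 (x : Fin 3 → ℂ) : Fin 9 → ℝ :=
  ![normSq (x 0), normSq (x 1), normSq (x 2), 2 * (conj (x 0) * x 1).re, -2 * (conj (x 0) * x 1).im,
    2 * (conj (x 0) * x 2).re, -2 * (conj (x 0) * x 2).im, 2 * (conj (x 1) * x 2).re, -2 * (conj (x 1) * x 2).im]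

theorem qf_lin9 (H : H9 ℝ) (x : Fin 3 → ℂ) : qf (hm H) x = ∑ i, cf9 x i * H.fn i := by
  rw [qf_hm]
  unfold cf9 H9.fn
  simp only [Cx.c, Fin.sum_univ_succ, Matrix.cons_val_zero, Matrix.cons_val_succ, Fin.sum_univ_zero, add_zero, Complex.mul_re,
    Complex.mul_im, Complex.conj_re, Complex.conj_im]
  simp
  ring

/-- The matrix of the multiaffine parts, with the errors on the diagonal. -/
def eaH (T : H9 T2) (m0 m1 m2 : ℝ) (x y z w : ℝ) : H9 ℝ :=
  ⟨ea T.d0 x y z w - m0, ea T.d1 x y z w - m1, ea T.d2 x y z w - m2, ⟨ea T.e01.re x y z w, ea T.e01.im x y z w⟩,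
    ⟨ea T.e02.re x y z w, ea T.e02.im x y z w⟩, ⟨ea T.e12.re x y z w, ea T.e12.im x y z w⟩⟩

theorem conv1 {φ : ℝ → ℝ} (h : ∀ x, φ x = (1 + x) / 2 * φ 1 + (1 - x) / 2 * φ (-1)) (h1 : 0 ≤ φ 1) (h2 : 0 ≤ φ (-1)) {x : ℝ}
    (hx : |x| ≤ 1) : 0 ≤ φ x := by
  rw [abs_le] at hx
  rw [h]
  have a1 : 0 ≤ (1 + x) / 2 := by linarith [hx.1]
  have a2 : 0 ≤ (1 - x) / 2 := by linarith [hx.2]
  positivity

theorem eaH_x (T : H9 T2) (m0 m1 m2 y z w : ℝ) (Z : Fin 3 → ℂ) (x : ℝ) : qf (hm (eaH T m0 m1 m2 x y z w)) Z =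
    (1 + x) / 2 * qf (hm (eaH T m0 m1 m2 1 y z w)) Z + (1 - x) / 2 * qf (hm (eaH T m0 m1 m2 (-1) y z w)) Z := by
  simp only [qf_lin9, Finset.mul_sum, ← Finset.sum_add_distrib]
  refine Finset.sum_congr rfl fun i _ => ?_
  have key : (eaH T m0 m1 m2 x y z w).fn i =
      (1 + x) / 2 * (eaH T m0 m1 m2 1 y z w).fn i + (1 - x) / 2 * (eaH T m0 m1 m2 (-1) y z w).fn i := by
    fin_cases i <;> simp [H9.fn, eaH, ea] <;> ring
  rw [key]
  ring

theorem eaH_y (T : H9 T2) (m0 m1 m2 x z w : ℝ) (Z : Fin 3 → ℂ) (y : ℝ) : qf (hm (eaH T m0 m1 m2 x y z w)) Z =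
    (1 + y) / 2 * qf (hm (eaH T m0 m1 m2 x 1 z w)) Z + (1 - y) / 2 * qf (hm (eaH T m0 m1 m2 x (-1) z w)) Z := by
  simp only [qf_lin9, Finset.mul_sum, ← Finset.sum_add_distrib]
  refine Finset.sum_congr rfl fun i _ => ?_
  have key : (eaH T m0 m1 m2 x y z w).fn i =
      (1 + y) / 2 * (eaH T m0 m1 m2 x 1 z w).fn i + (1 - y) / 2 * (eaH T m0 m1 m2 x (-1) z w).fn i := by
    fin_cases i <;> simp [H9.fn, eaH, ea] <;> ring
  rw [key]
  ring

theorem eaH_z (T : H9 T2) (m0 m1 m2 x y w : ℝ) (Z : Fin 3 → ℂ) (z : ℝ) : qf (hm (eaH T m0 m1 m2 x y z w)) Z =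
    (1 + z) / 2 * qf (hm (eaH T m0 m1 m2 x y 1 w)) Z + (1 - z) / 2 * qf (hm (eaH T m0 m1 m2 x y (-1) w)) Z := by
  simp only [qf_lin9, Finset.mul_sum, ← Finset.sum_add_distrib]
  refine Finset.sum_congr rfl fun i _ => ?_
  have key : (eaH T m0 m1 m2 x y z w).fn i =
      (1 + z) / 2 * (eaH T m0 m1 m2 x y 1 w).fn i + (1 - z) / 2 * (eaH T m0 m1 m2 x y (-1) w).fn i := by
    fin_cases i <;> simp [H9.fn, eaH, ea] <;> ring
  rw [key]
  ring

theorem eaH_w (T : H9 T2) (m0 m1 m2 x y z : ℝ) (Z : Fin 3 → ℂ) (w : ℝ) : qf (hm (eaH T m0 m1 m2 x y z w)) Z =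
    (1 + w) / 2 * qf (hm (eaH T m0 m1 m2 x y z 1)) Z + (1 - w) / 2 * qf (hm (eaH T m0 m1 m2 x y z (-1))) Z := by
  simp only [qf_lin9, Finset.mul_sum, ← Finset.sum_add_distrib]
  refine Finset.sum_congr rfl fun i _ => ?_
  have key : (eaH T m0 m1 m2 x y z w).fn i =
      (1 + w) / 2 * (eaH T m0 m1 m2 x y z 1).fn i + (1 - w) / 2 * (eaH T m0 m1 m2 x y z (-1)).fn i := by
    fin_cases i <;> simp [H9.fn, eaH, ea] <;> ring
  rw [key]
  ring

/-- It is enough to look at the corners. -/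
theorem eaH_pos (T : H9 T2) (m0 m1 m2 : ℝ) (Z : Fin 3 → ℂ)
    (h : ∀ a b c d : Bool, 0 ≤ qf (hm (eaH T m0 m1 m2 (sgn a) (sgn b) (sgn c) (sgn d))) Z) {x y z w : ℝ} (hx : |x| ≤ 1)
    (hy : |y| ≤ 1) (hz : |z| ≤ 1) (hw : |w| ≤ 1) : 0 ≤ qf (hm (eaH T m0 m1 m2 x y z w)) Z := by
  have st : sgn true = 1 := rfl
  have sf : sgn false = -1 := rfl
  have h1 : ∀ a b c : Bool, 0 ≤ qf (hm (eaH T m0 m1 m2 (sgn a) (sgn b) (sgn c) w)) Z := fun a b c =>
    conv1 (φ := fun w => qf (hm (eaH T m0 m1 m2 (sgn a) (sgn b) (sgn c) w)) Z) (eaH_w T m0 m1 m2 _ _ _ Z)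
      (by have := h a b c true; rwa [st] at this) (by have := h a b c false; rwa [sf] at this) hw
  have h2 : ∀ a b : Bool, 0 ≤ qf (hm (eaH T m0 m1 m2 (sgn a) (sgn b) z w)) Z := fun a b =>
    conv1 (φ := fun z => qf (hm (eaH T m0 m1 m2 (sgn a) (sgn b) z w)) Z) (eaH_z T m0 m1 m2 _ _ _ Z)
      (by have := h1 a b true; rwa [st] at this) (by have := h1 a b false; rwa [sf] at this) hz
  have h3 : ∀ a : Bool, 0 ≤ qf (hm (eaH T m0 m1 m2 (sgn a) y z w)) Z := fun a =>
    conv1 (φ := fun y => qf (hm (eaH T m0 m1 m2 (sgn a) y z w)) Z) (eaH_y T m0 m1 m2 _ _ _ Z)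
      (by have := h2 a true; rwa [st] at this) (by have := h2 a false; rwa [sf] at this) hy
  exact conv1 (φ := fun x => qf (hm (eaH T m0 m1 m2 x y z w)) Z) (eaH_x T m0 m1 m2 _ _ _ Z)
    (by have := h3 true; rwa [st] at this) (by have := h3 false; rwa [sf] at this) hx

/-- `|2 Re (conj u (α + i β) v)| ≤ (|α| + |β|) (|u|² + |v|²)`. -/
theorem cross_le (u v : ℂ) (α β : ℝ) {A B : ℝ} (hα : |α| ≤ A) (hβ : |β| ≤ B) :
    -((A + B) * (normSq u + normSq v)) ≤ 2 * (conj u * v).re * α + (-2 * (conj u * v).im) * β := by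
  have h1 : |2 * (conj u * v).re| ≤ normSq u + normSq v := by
    rw [abs_le]
    simp only [Complex.mul_re, Complex.conj_re, Complex.conj_im, normSq_apply]
    constructor <;> nlinarith [sq_nonneg (u.re - v.re), sq_nonneg (u.re + v.re), sq_nonneg (u.im - v.im), sq_nonneg (u.im + v.im)]
  have h2 : |-2 * (conj u * v).im| ≤ normSq u + normSq v := by
    rw [abs_le]
    simp only [Complex.mul_im, Complex.conj_re, Complex.conj_im, normSq_apply]
    constructor <;> nlinarith [sq_nonneg (u.re - v.im), sq_nonneg (u.re + v.im), sq_nonneg (u.im - v.re), sq_nonneg (u.im + v.re)]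
  have hA : 0 ≤ A := (abs_nonneg _).trans hα
  have hB : 0 ≤ B := (abs_nonneg _).trans hβ
  have hn : 0 ≤ normSq u + normSq v := add_nonneg (normSq_nonneg _) (normSq_nonneg _)
  have k1 : |2 * (conj u * v).re * α| ≤ (normSq u + normSq v) * A := by
    rw [abs_mul]
    exact mul_le_mul h1 hα (abs_nonneg _) hn
  have k2 : |-2 * (conj u * v).im * β| ≤ (normSq u + normSq v) * B := by
    rw [abs_mul]
    exact mul_le_mul h2 hβ (abs_nonneg _) hn
  rw [abs_le] at k1 k2
  linarith [k1.1, k2.1]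

/-- The test for integer entries. -/
def ipsd (d0 d1 d2 p q r s t w : Int) : Bool :=
  let A := Int.sub (Int.mul d0 d1) (Int.add (Int.mul p p) (Int.mul q q))
  let C := Int.sub (Int.mul d0 d2) (Int.add (Int.mul r r) (Int.mul s s))
  let b1 := Int.sub (Int.mul d0 t) (Int.add (Int.mul p r) (Int.mul q s))
  let b2 := Int.sub (Int.mul d0 w) (Int.sub (Int.mul p s) (Int.mul q r))
  decide (0 < d0) && (decide (0 < A) && decide (0 ≤ Int.sub (Int.mul A C) (Int.add (Int.mul b1 b1) (Int.mul b2 b2))))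

theorem ipsd_sound {d0 d1 d2 p q r s t w : Int} (h : ipsd d0 d1 d2 p q r s t w = true) (x : Fin 3 → ℂ) :
    0 ≤ qf (hm ⟨(d0 : ℝ), d1, d2, ⟨p, q⟩, ⟨r, s⟩, ⟨t, w⟩⟩) x := by
  have ha : ∀ a b : Int, ((Int.add a b : Int) : ℝ) = (a : ℝ) + b := fun a b => Int.cast_add a b
  have hs : ∀ a b : Int, ((Int.sub a b : Int) : ℝ) = (a : ℝ) - b := fun a b => Int.cast_sub a b
  have hm' : ∀ a b : Int, ((Int.mul a b : Int) : ℝ) = (a : ℝ) * b := fun a b => Int.cast_mul a b
  unfold ipsd at h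
  simp only [Bool.and_eq_true, decide_eq_true_eq] at h
  obtain ⟨h1, h2, h3⟩ := h
  have h1' : (0 : ℝ) < d0 := by exact_mod_cast h1
  have h2' : (0 : ℝ) < ((Int.sub (Int.mul d0 d1) (Int.add (Int.mul p p) (Int.mul q q)) : Int) : ℝ) := by exact_mod_cast h2
  have h3' : (0 : ℝ) ≤ ((Int.sub (Int.mul (Int.sub (Int.mul d0 d1) (Int.add (Int.mul p p) (Int.mul q q)))
      (Int.sub (Int.mul d0 d2) (Int.add (Int.mul r r) (Int.mul s s)))) (Int.add (Int.mul (Int.sub (Int.mul d0 t)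
      (Int.add (Int.mul p r) (Int.mul q s))) (Int.sub (Int.mul d0 t) (Int.add (Int.mul p r) (Int.mul q s))))
      (Int.mul (Int.sub (Int.mul d0 w) (Int.sub (Int.mul p s) (Int.mul q r))) (Int.sub (Int.mul d0 w) (Int.sub (Int.mul p s) (Int.mul q r))))) :
      Int) : ℝ) := by exact_mod_cast h3
  simp only [ha, hs, hm'] at h2' h3'
  have key := psd_Hm d0 d1 d2 p q r s t w h1' (by linarith [h2']) (by linarith [h3']) x
  rw [qf_Hm] at key
  rw [qf_hm]
  refine key.trans (le_of_eq ?_)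
  simp only [Cx.c, normSq_apply, Complex.mul_re, Complex.mul_im, Complex.conj_re, Complex.conj_im]
  ring

/-- The errors moved to the diagonal. -/
def m0 (T : H9 T2) : Nat := T.d0.er + ((T.e01.re.er + T.e01.im.er) + (T.e02.re.er + T.e02.im.er))
def m1 (T : H9 T2) : Nat := T.d1.er + ((T.e01.re.er + T.e01.im.er) + (T.e12.re.er + T.e12.im.er))
def m2 (T : H9 T2) : Nat := T.d2.er + ((T.e02.re.er + T.e02.im.er) + (T.e12.re.er + T.e12.im.er))

def crn (T : H9 T2) (a b c d : Bool) : Bool :=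
  ipsd (Int.sub (T.d0.co a b c d) (Int.ofNat (m0 T))) (Int.sub (T.d1.co a b c d) (Int.ofNat (m1 T)))
    (Int.sub (T.d2.co a b c d) (Int.ofNat (m2 T))) (T.e01.re.co a b c d) (T.e01.im.co a b c d) (T.e02.re.co a b c d)
    (T.e02.im.co a b c d) (T.e12.re.co a b c d) (T.e12.im.co a b c d)

def tpsd (T : H9 T2) : Bool :=
  (((crn T true true true true && crn T true true true false) && (crn T true true false true && crn T true true false false)) &&
  ((crn T true false true true && crn T true false true false) && (crn T true false false true && crn T true false false false))) &&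
  (((crn T false true true true && crn T false true true false) && (crn T false true false true && crn T false true false false)) &&
  ((crn T false false true true && crn T false false true false) && (crn T false false false true && crn T false false false false)))

theorem tpsd_sound {p : Pt} {Q : H9 ℝ} {T : H9 T2} (h : RH (Mem p) Q T) (ht : tpsd T = true) (x : Fin 3 → ℂ) :
    0 ≤ qf (hm Q) x := by
  have hs : ∀ a b : Int, ((Int.sub a b : Int) : ℝ) = (a : ℝ) - b := fun a b => Int.cast_sub a b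
  have hn : ∀ n : Nat, ((Int.ofNat n : Int) : ℝ) = n := fun n => Int.cast_natCast n
  have hcrn : ∀ a b c d, crn T a b c d = true := by
    unfold tpsd at ht
    simp only [Bool.and_eq_true] at ht
    intro a b c d
    cases a <;> cases b <;> cases c <;> cases d <;> simp only [ht]
  have hc : 0 ≤ qf (hm (eaH T (m0 T) (m1 T) (m2 T) p.x p.y p.z p.w)) x := by
    refine eaH_pos T _ _ _ x (fun a b c d => ?_) p.hx p.hy p.hz p.hw
    have := ipsd_sound (hcrn a b c d) x
    simp only [hs, hn, co_eq] at this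
    exact this
  have hd : 0 ≤ 2 * 1099511627776 * qf (hm Q) x - qf (hm (eaH T (m0 T) (m1 T) (m2 T) p.x p.y p.z p.w)) x := by
    rw [qf_lin9, qf_lin9]
    have e0 := ea_err h.d0
    have e1 := ea_err h.d1
    have e2 := ea_err h.d2
    have k01 := cross_le (x 0) (x 1) _ _ (ea_err h.e01.re) (ea_err h.e01.im)
    have k02 := cross_le (x 0) (x 2) _ _ (ea_err h.e02.re) (ea_err h.e02.im)
    have k12 := cross_le (x 1) (x 2) _ _ (ea_err h.e12.re) (ea_err h.e12.im)
    have n0 := normSq_nonneg (x 0)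
    have n1 := normSq_nonneg (x 1)
    have n2 := normSq_nonneg (x 2)
    have a0 : -(normSq (x 0) * T.d0.er) ≤ normSq (x 0) * (2 * 1099511627776 * Q.d0 - ea T.d0 p.x p.y p.z p.w) := by
      rw [← mul_neg]
      exact mul_le_mul_of_nonneg_left (abs_le.1 e0).1 n0
    have a1 : -(normSq (x 1) * T.d1.er) ≤ normSq (x 1) * (2 * 1099511627776 * Q.d1 - ea T.d1 p.x p.y p.z p.w) := by
      rw [← mul_neg]
      exact mul_le_mul_of_nonneg_left (abs_le.1 e1).1 n1
    have a2 : -(normSq (x 2) * T.d2.er) ≤ normSq (x 2) * (2 * 1099511627776 * Q.d2 - ea T.d2 p.x p.y p.z p.w) := by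
      rw [← mul_neg]
      exact mul_le_mul_of_nonneg_left (abs_le.1 e2).1 n2
    have em0 : ((m0 T : Nat) : ℝ) = T.d0.er + ((T.e01.re.er + T.e01.im.er) + (T.e02.re.er + T.e02.im.er)) := by
      unfold m0
      push_cast
      ring
    have em1 : ((m1 T : Nat) : ℝ) = T.d1.er + ((T.e01.re.er + T.e01.im.er) + (T.e12.re.er + T.e12.im.er)) := by
      unfold m1
      push_cast
      ring
    have em2 : ((m2 T : Nat) : ℝ) = T.d2.er + ((T.e02.re.er + T.e02.im.er) + (T.e12.re.er + T.e12.im.er)) := by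
      unfold m2
      push_cast
      ring
    unfold cf9 H9.fn eaH
    simp only [Fin.sum_univ_succ, Matrix.cons_val_zero, Matrix.cons_val_succ, Fin.sum_univ_zero, add_zero]
    rw [em0, em1, em2]
    linarith
  have h3 : 0 ≤ 2 * 1099511627776 * qf (hm Q) x := by linarith
  exact nonneg_of_mul_nonneg_right h3 (by norm_num)

end Pool.Agent.Work.MP_88b7aa_gt.PQ
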