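import Pool.Agent.Work.MP_88b7aa_gt.PQ.Prog

/-!
# The border test

A Hermitian form `M` with `M(η, v) = δ conj (φ v)`, `φ η = al`, `δ al ≥ 0`, `al ≠ 0` is semidefinite as soon as `M + c |φ|²` is, for one
real number `c` (`bord_core`).  Instance (system AB5): the form
`T = 2 A Re (conj (γ l_i) f) + 2 B Re (conj (γ' l_i) f') + a |l_i|² + ν H` and the word `I_i I_j I_k I_j`.
-/

namespace Pool.Agent.Work.MP_88b7aa_gt.PQ

open Pool.Agent.Work.MP_88b7aa_gt.CH
open ComplexConjugate Complex Matrix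

set_option linter.unusedSectionVars false

/-- The border test. -/
theorem bord_core {M : (Fin 3 → ℂ) → ℝ} {φ : (Fin 3 → ℂ) → ℂ} {η : Fin 3 → ℂ} {δ al c : ℝ}
    (hM : ∀ z (t : ℂ), M (z + t • η) = M z + 2 * δ * (t * conj (φ z)).re + normSq t * (δ * al))
    (hφ : ∀ z (t : ℂ), φ (z + t • η) = φ z + t * al) (hal : al ≠ 0) (hd : 0 ≤ δ * al)
    (hN : ∀ z, 0 ≤ M z + c * normSq (φ z)) (z : Fin 3 → ℂ) : 0 ≤ M z := by
  have hal' : (al : ℂ) ≠ 0 := by exact_mod_cast hal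
  obtain ⟨t, ht⟩ : ∃ t : ℂ, φ z = t * al := ⟨φ z / al, by field_simp⟩
  have hz : (z + (-t) • η) + t • η = z := by
    rw [add_assoc, ← add_smul]
    simp
  have h0 : φ (z + (-t) • η) = 0 := by
    rw [hφ, ht]
    ring
  have h1 := hM (z + (-t) • η) t
  rw [hz, h0, map_zero, mul_zero, Complex.zero_re, mul_zero, add_zero] at h1
  have h2 := hN (z + (-t) • η)
  rw [h0, map_zero, mul_zero, add_zero] at h2
  rw [h1]
  have h3 := mul_nonneg (normSq_nonneg t) hd
  linarith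

/-- The Hermitian form along a line. -/
theorem qf_line (G : Matrix (Fin 3) (Fin 3) ℂ) (hG : IsGram G) (z η : Fin 3 → ℂ) (t : ℂ) :
    qf G (z + t • η) = qf G z + 2 * (t * conj (hf G z η)).re + normSq t * (hf G η η).re := by
  have h1 : hf G (z + t • η) (z + t • η) = hf G z z + conj t * hf G z η + t * hf G η z + conj t * t * hf G η η := by
    unfold hf
    simp only [Fin.sum_univ_three, Pi.add_apply, Pi.smul_apply, smul_eq_mul, map_add, map_mul]
    ring
  have h2 : hf G η z = conj (hf G z η) := by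
    unfold hf
    simp only [Fin.sum_univ_three, map_add, map_mul, Complex.conj_conj]
    rw [hG.hm, hG.hm, hG.hm, hG.hm, hG.hm, hG.hm, hG.hm, hG.hm, hG.hm]
    ring
  rw [qf_hf, h1, h2, qf_hf]
  have h3 : conj t * t = (normSq t : ℂ) := by rw [mul_comm, Complex.mul_conj]
  rw [h3]
  simp only [Complex.add_re, Complex.mul_re, Complex.conj_re, Complex.conj_im, Complex.ofReal_re, Complex.ofReal_im]
  ring

/-- `⟨z, I_j n_k⟩` -/
def lmG (G : Matrix (Fin 3) (Fin 3) ℂ) (j k : Fin 3) (z : Fin 3 → ℂ) : ℂ :=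
  2 * G k j * (∑ b, G j b * z b) - ∑ b, G k b * z b

/-- `⟨n_i, I_j n_k⟩` -/
def gaG (G : Matrix (Fin 3) (Fin 3) ℂ) (i j k : Fin 3) : ℂ := 2 * G k j * G j i - G k i

/-- The functional `z_k + 2 ⟨n_j, n_k⟩ z_j`, zero at `n_i` and at `I_k n_j`. -/
def ffG (G : Matrix (Fin 3) (Fin 3) ℂ) (j k : Fin 3) (z : Fin 3 → ℂ) : ℂ := z k + 2 * G k j * z j

/-- The point `I_j n_k`. -/
def mmG (G : Matrix (Fin 3) (Fin 3) ℂ) (j k : Fin 3) : Fin 3 → ℂ := fun a => (if a = j then 2 * G j k else 0) - if a = k then 1 else 0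

/-- `I_j I_k I_j` is the reflection in `I_j n_k`. -/
theorem actL_jkj (G : Matrix (Fin 3) (Fin 3) ℂ) (hG : IsGram G) {j k : Fin 3} (hjk : j ≠ k) (z : Fin 3 → ℂ) (a : Fin 3) :
    actL G [j, k, j] z a = 2 * lmG G j k z * mmG G j k a - z a := by
  have r1 : ∑ b, G k b * (Sg G j *ᵥ z) b = lmG G j k z := by
    rw [G_Sg]
    rfl
  have r2 : ∑ b, G j b * (Sg G j *ᵥ z) b = ∑ b, G j b * z b := by
    rw [G_Sg, hG.dg]
    ring
  have r3 : ∑ b, G j b * (Sg G k *ᵥ (Sg G j *ᵥ z)) b = 2 * G j k * lmG G j k z - ∑ b, G j b * z b := by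
    rw [G_Sg, r1, r2]
  show (Sg G j *ᵥ (Sg G k *ᵥ (Sg G j *ᵥ z))) a = _
  rw [Sg_mul, r3, Sg_mul, r1, Sg_mul]
  unfold mmG
  by_cases h1 : a = j
  · have h2 : a ≠ k := fun h => hjk (h1.symm.trans h)
    simp only [if_pos h1, if_neg h2]
    ring
  · by_cases h2 : a = k
    · simp only [if_neg h1, if_pos h2]
      ring
    · simp only [if_neg h1, if_neg h2]
      ring

theorem conj_gaG (G : Matrix (Fin 3) (Fin 3) ℂ) (hG : IsGram G) (i j k : Fin 3) :
    conj (gaG G i j k) = 2 * G j k * G i j - G i k := by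
  unfold gaG
  rw [map_sub, map_mul, map_mul, hG.hm, hG.hm, hG.hm, Complex.conj_ofNat]

/-- The vector `η = n_i - γ I_j n_k`. -/
def etG (G : Matrix (Fin 3) (Fin 3) ℂ) (i j k : Fin 3) : Fin 3 → ℂ :=
  fun a => (if a = i then 1 else 0) - gaG G i j k * mmG G j k a

section

variable (G : Matrix (Fin 3) (Fin 3) ℂ) (hG : IsGram G) {i j k : Fin 3} (hij : i ≠ j) (hik : i ≠ k) (hjk : j ≠ k)

include hij hik hjk

theorem etG_i : etG G i j k i = 1 := by
  unfold etG mmG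
  simp [hij, hik]

theorem etG_j : etG G i j k j = -(gaG G i j k * (2 * G j k)) := by
  unfold etG mmG
  simp [hij.symm, hjk]

theorem etG_k : etG G i j k k = gaG G i j k := by
  unfold etG mmG
  simp [hik.symm, hjk.symm]

include hG

theorem row_et (a : Fin 3) : ∑ b, G a b * etG G i j k b = G a i - gaG G i j k * (2 * G a j * G j k - G a k) := by
  rw [sum3 hij hik hjk, etG_i G hij hik hjk, etG_j G hij hik hjk, etG_k G hij hik hjk]
  ring

theorem li_et : ∑ b, G i b * etG G i j k b = 1 - normSq (gaG G i j k) := by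
  rw [row_et G hG hij hik hjk, hG.dg, ← Complex.mul_conj, conj_gaG G hG]
  ring

theorem lm_et : lmG G j k (etG G i j k) = 0 := by
  unfold lmG
  rw [row_et G hG hij hik hjk, row_et G hG hij hik hjk, hG.dg, hG.dg]
  unfold gaG
  ring

/-- The value `4 |⟨n_j, n_k⟩|² - 1`. -/
theorem ff_et : ffG G j k (etG G i j k) = -(gaG G i j k * ((4 * normSq (G j k) - 1 : ℝ) : ℂ)) := by
  unfold ffG
  rw [etG_j G hij hik hjk, etG_k G hij hik hjk]
  have : (normSq (G j k) : ℂ) = G j k * G k j := by rw [← hG.hm j k, Complex.mul_conj]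
  push_cast
  rw [this]
  ring

theorem ff'_et : ffG G k j (etG G i j k) = 0 := by
  unfold ffG
  rw [etG_j G hij hik hjk, etG_k G hij hik hjk]
  ring

/-- `⟨z, η⟩` -/
theorem hf_et (z : Fin 3 → ℂ) : hf G z (etG G i j k) = (∑ b, G i b * z b) - conj (gaG G i j k) * lmG G j k z := by
  unfold hf lmG
  rw [sum3 hij hik hjk (fun a => conj (etG G i j k a) * ∑ b, G a b * z b), etG_i G hij hik hjk, etG_j G hij hik hjk,
    etG_k G hij hik hjk]
  simp only [map_neg, map_mul, Complex.conj_ofNat, hG.hm, map_one]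
  ring

theorem hf_et_et : hf G (etG G i j k) (etG G i j k) = 1 - normSq (gaG G i j k) := by
  rw [hf_et G hG hij hik hjk, lm_et G hG hij hik hjk, li_et G hG hij hik hjk]
  ring

theorem qf_et (z : Fin 3 → ℂ) (t : ℂ) : qf G (z + t • etG G i j k) =
    qf G z + 2 * (t * conj ((∑ b, G i b * z b) - conj (gaG G i j k) * lmG G j k z)).re -
      normSq t * (normSq (gaG G i j k) - 1) := by
  rw [qf_line G hG, hf_et G hG hij hik hjk, hf_et_et G hG hij hik hjk]
  simp only [Complex.sub_re, Complex.one_re, Complex.ofReal_re]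
  ring

end


theorem row_line (G : Matrix (Fin 3) (Fin 3) ℂ) (a : Fin 3) (z η : Fin 3 → ℂ) (t : ℂ) :
    ∑ b, G a b * (z + t • η) b = (∑ b, G a b * z b) + t * ∑ b, G a b * η b := by
  simp only [Fin.sum_univ_three, Pi.add_apply, Pi.smul_apply, smul_eq_mul]
  ring

theorem lm_line (G : Matrix (Fin 3) (Fin 3) ℂ) (j k : Fin 3) (z η : Fin 3 → ℂ) (t : ℂ) :
    lmG G j k (z + t • η) = lmG G j k z + t * lmG G j k η := by
  unfold lmG
  rw [row_line, row_line]
  ring

theorem ff_line (G : Matrix (Fin 3) (Fin 3) ℂ) (j k : Fin 3) (z η : Fin 3 → ℂ) (t : ℂ) :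
    ffG G j k (z + t • η) = ffG G j k z + t * ffG G j k η := by
  unfold ffG
  simp only [Pi.add_apply, Pi.smul_apply, smul_eq_mul]
  ring

/-! ## The form `T` -/

/-- The form `T`. -/
def TfG (G : Matrix (Fin 3) (Fin 3) ℂ) (i j k : Fin 3) (A B a ν : ℝ) (z : Fin 3 → ℂ) : ℝ :=
  A * (2 * (conj (gaG G i j k * ∑ b, G i b * z b) * ffG G j k z).re) +
    B * (2 * (conj (gaG G i k j * ∑ b, G i b * z b) * ffG G k j z).re) + a * normSq (∑ b, G i b * z b) + ν * qf G z

/-- The functional `φ`. -/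
def phG (G : Matrix (Fin 3) (Fin 3) ℂ) (i j k : Fin 3) (A B a : ℝ) (z : Fin 3 → ℂ) : ℂ :=
  2 * A * conj (gaG G i j k) * (ffG G j k z - ((4 * normSq (G j k) - 1 : ℝ) : ℂ) * lmG G j k z) +
    2 * B * conj (gaG G i k j) * ffG G k j z - 2 * a * conj (gaG G i j k) * lmG G j k z

/-- The number `μ₀`. -/
def muG (G : Matrix (Fin 3) (Fin 3) ℂ) (i j k : Fin 3) (A : ℝ) : ℝ :=
  -(2 * A * normSq (gaG G i j k) * (4 * normSq (G j k) - 1))

/-- The form `M = T ∘ I_i - T ∘ R + μ₀ H`, `R` the reflection in `I_j n_k`. -/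
def MfG (G : Matrix (Fin 3) (Fin 3) ℂ) (i j k : Fin 3) (A B a : ℝ) (z : Fin 3 → ℂ) : ℝ :=
  muG G i j k A * (2 * normSq (lmG G j k z) + qf G z) -
    2 * (conj ((∑ b, G i b * z b) - conj (gaG G i j k) * lmG G j k z) * phG G i j k A B a z).re

theorem T_ring (x y f h g g' : ℂ) (A B a F ν H : ℝ) :
    (A * (2 * (conj (g * x) * -f).re) + B * (2 * (conj (g' * x) * -h).re) + a * normSq x + ν * H) -
      (A * (2 * (conj (g * (2 * y * conj g - x)) * (2 * y * F - f)).re) +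
        B * (2 * (conj (g' * (2 * y * conj g - x)) * -h).re) + a * normSq (2 * y * conj g - x) + ν * H) +
      (-(2 * A * normSq g * F)) * H =
    (-(2 * A * normSq g * F)) * (2 * normSq y + H) -
      2 * (conj (x - conj g * y) * (2 * A * conj g * (f - (F : ℂ) * y) + 2 * B * conj g' * h - 2 * a * conj g * y)).re := by
  obtain ⟨x1, x2⟩ := x
  obtain ⟨y1, y2⟩ := y
  obtain ⟨f1, f2⟩ := f
  obtain ⟨h1, h2⟩ := h
  obtain ⟨g1, g2⟩ := g
  obtain ⟨k1, k2⟩ := g'
  simp only [normSq_apply, Complex.add_re, Complex.sub_re, Complex.mul_re, Complex.mul_im, Complex.conj_re, Complex.conj_im,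
    Complex.ofReal_re, Complex.ofReal_im, Complex.add_im, Complex.sub_im, Complex.neg_re, Complex.neg_im, Complex.re_ofNat,
    Complex.im_ofNat]
  ring

theorem M_ring (x y p z t : ℂ) (δ μ H : ℝ) :
    μ * (2 * normSq y + (H + 2 * (t * conj (x - z * y)).re - normSq t * δ)) -
      2 * (conj ((x + t * -δ) - z * y) * (p + t * μ)).re =
    (μ * (2 * normSq y + H) - 2 * (conj (x - z * y) * p).re) + 2 * δ * (t * conj p).re + normSq t * (δ * μ) := by
  obtain ⟨x1, x2⟩ := x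
  obtain ⟨y1, y2⟩ := y
  obtain ⟨p1, p2⟩ := p
  obtain ⟨z1, z2⟩ := z
  obtain ⟨t1, t2⟩ := t
  simp only [normSq_apply, Complex.add_re, Complex.sub_re, Complex.mul_re, Complex.mul_im, Complex.conj_re, Complex.conj_im,
    Complex.ofReal_re, Complex.ofReal_im, Complex.add_im, Complex.sub_im, Complex.neg_re, Complex.neg_im]
  ring

section

variable (G : Matrix (Fin 3) (Fin 3) ℂ) (hG : IsGram G) {i j k : Fin 3} (hij : i ≠ j) (hik : i ≠ k) (hjk : j ≠ k)

include hG hij hik hjk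

theorem ff_Sg (z : Fin 3 → ℂ) : ffG G j k (Sg G i *ᵥ z) = -ffG G j k z := by
  unfold ffG
  rw [Sg_mul, Sg_mul, if_neg hik.symm, if_neg hij.symm]
  ring

theorem row_Sg (z : Fin 3 → ℂ) : ∑ b, G i b * (Sg G i *ᵥ z) b = ∑ b, G i b * z b := by
  rw [G_Sg, hG.dg]
  ring

theorem row_R (z : Fin 3 → ℂ) : ∑ b, G i b * actL G [j, k, j] z b =
    2 * lmG G j k z * conj (gaG G i j k) - ∑ b, G i b * z b := by
  simp only [actL_jkj G hG hjk]
  rw [conj_gaG G hG, sum3 hij hik hjk, sum3 hij hik hjk (fun b => G i b * z b)]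
  unfold mmG
  simp only [hij, hik, hjk, hjk.symm, if_true, if_false]
  ring

theorem ff_R (z : Fin 3 → ℂ) : ffG G j k (actL G [j, k, j] z) =
    2 * lmG G j k z * ((4 * normSq (G j k) - 1 : ℝ) : ℂ) - ffG G j k z := by
  unfold ffG
  rw [actL_jkj G hG hjk, actL_jkj G hG hjk]
  have : (normSq (G j k) : ℂ) = G j k * G k j := by rw [← hG.hm j k, Complex.mul_conj]
  unfold mmG
  simp only [hjk, hjk.symm, if_true, if_false]
  push_cast
  rw [this]
  ring

theorem ff'_R (z : Fin 3 → ℂ) : ffG G k j (actL G [j, k, j] z) = -ffG G k j z := by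
  unfold ffG
  rw [actL_jkj G hG hjk, actL_jkj G hG hjk]
  unfold mmG
  simp only [hjk, hjk.symm, if_true, if_false]
  ring

/-- The form `M`. -/
theorem TfG_M (A B a ν : ℝ) (z : Fin 3 → ℂ) :
    TfG G i j k A B a ν (Sg G i *ᵥ z) - TfG G i j k A B a ν (actL G [j, k, j] z) + muG G i j k A * qf G z =
      MfG G i j k A B a z := by
  unfold TfG
  rw [row_Sg G hG hij hik hjk, ff_Sg G hG hij hik hjk, ff_Sg G hG hik hij hjk.symm, qf_gram_Sg G hG, row_R G hG hij hik hjk,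
    ff_R G hG hij hik hjk, ff'_R G hG hij hik hjk, qf_gram_actL G hG]
  exact T_ring _ _ _ _ _ _ A B a _ ν _

theorem ph_line (A B a : ℝ) (z : Fin 3 → ℂ) (t : ℂ) :
    phG G i j k A B a (z + t • etG G i j k) = phG G i j k A B a z + t * (muG G i j k A : ℝ) := by
  unfold phG
  rw [ff_line, ff_line, lm_line, lm_et G hG hij hik hjk, ff_et G hG hij hik hjk, ff'_et G hG hij hik hjk]
  have : ((muG G i j k A : ℝ) : ℂ) = -(2 * A * (gaG G i j k * conj (gaG G i j k)) * ((4 * normSq (G j k) - 1 : ℝ) : ℂ)) := by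
    unfold muG
    rw [Complex.mul_conj]
    push_cast
    ring
  rw [this]
  ring

theorem MfG_line (A B a : ℝ) (z : Fin 3 → ℂ) (t : ℂ) : MfG G i j k A B a (z + t • etG G i j k) = MfG G i j k A B a z +
    2 * (normSq (gaG G i j k) - 1) * (t * conj (phG G i j k A B a z)).re +
      normSq t * ((normSq (gaG G i j k) - 1) * muG G i j k A) := by
  unfold MfG
  rw [lm_line, lm_et G hG hij hik hjk, mul_zero, add_zero, row_line, li_et G hG hij hik hjk, ph_line G hG hij hik hjk,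
    qf_et G hG hij hik hjk]
  have : (1 - (normSq (gaG G i j k) : ℂ)) = -((normSq (gaG G i j k) - 1 : ℝ) : ℂ) := by
    push_cast
    ring
  rw [this]
  exact M_ring _ _ _ _ _ _ _ _

/-- The border test for `T`. -/
theorem bordT (A B a ν c : ℝ) (hμ : 0 < muG G i j k A) (hδ : 1 ≤ normSq (gaG G i j k))
    (hN : ∀ z, 0 ≤ MfG G i j k A B a z + c * normSq (phG G i j k A B a z)) {z : Fin 3 → ℂ} (hz : qf G z < 0)
    (hT : 0 < TfG G i j k A B a ν z) : 0 < TfG G i j k A B a ν (actL G [i, j, k, j] z) := by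
  have h0 : 0 ≤ (normSq (gaG G i j k) - 1) * muG G i j k A := mul_nonneg (by linarith) hμ.le
  have h1 := bord_core (M := MfG G i j k A B a) (φ := phG G i j k A B a) (η := etG G i j k) (MfG_line G hG hij hik hjk A B a)
    (ph_line G hG hij hik hjk A B a) hμ.ne' h0 hN (actL G [j, k, j] z)
  have h2 := TfG_M G hG hij hik hjk A B a ν (actL G [j, k, j] z)
  have h3 : actL G [j, k, j] (actL G [j, k, j] z) = z := actL_reverse G hG [j, k, j] z
  rw [h3, qf_gram_actL G hG] at h2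
  have h4 : actL G [i, j, k, j] z = Sg G i *ᵥ actL G [j, k, j] z := rfl
  rw [h4]
  have h5 : muG G i j k A * qf G z < 0 := mul_neg_of_pos_of_neg hμ hz
  linarith

end

/-! ## Expressions -/

/-- Twice the real part. -/
def tre (a : Sc) : Sc := .add a (.cj a)

/-- The number `2`. -/
def twS : Sc := .cst 2147483648 0

/-- The entry `G i j`, `i ≠ j`. -/
def gS (i j : Fin 3) : Sc := .mul (.mul (.cst (-536870912) 0) (tre (.par (cpar i j)))) (wph i j)

/-- `γ = ⟨n_i, I_j n_k⟩` -/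
def gaS (i j k : Fin 3) : Sc := .sub (.mul (.mul twS (gS k j)) (gS j i)) (gS k i)

/-- `⟨z, I_j n_k⟩` -/
def lmF (j k : Fin 3) : Fn := .comp j (.row k)

/-- `z_k + 2 ⟨n_j, n_k⟩ z_j` -/
def ffF (j k : Fin 3) : Fn := .add (.crd k) (.smul (.mul twS (gS k j)) (.crd j))

/-- `4 |⟨n_j, n_k⟩|² - 1` -/
def FvS (j k : Fin 3) : Sc := .sub (.mul (.cst 4294967296 0) (.mul (gS j k) (gS k j))) (.cst 1073741824 0)

/-- The form `T`; `A`, `B`, `a`, `nu` are real (only the real parts are used). -/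
def TFE (i j k : Fin 3) (A B a nu : Sc) : FE :=
  .add (.add (.smul A (.re2 (.smul (gaS i j k) (.row i)) (ffF j k))) (.smul B (.re2 (.smul (gaS i k j) (.row i)) (ffF k j))))
    (.add (.smul a (.nsq (.row i))) (.smul nu .gram))

/-- The functional `φ`. -/
def phF (i j k : Fin 3) (A B a : Sc) : Fn :=
  .sub (.add (.smul (.mul (tre A) (.cj (gaS i j k))) (.sub (ffF j k) (.smul (FvS j k) (lmF j k))))
    (.smul (.mul (tre B) (.cj (gaS i k j))) (ffF k j))) (.smul (.mul (tre a) (.cj (gaS i j k))) (lmF j k))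

/-- The number `μ₀` (to be tested: it is positive). -/
def muS (i j k : Fin 3) (A : Sc) : Sc :=
  .sub (.cst 0 0) (.mul (.mul (tre A) (.mul (gaS i j k) (.cj (gaS i j k)))) (FvS j k))

/-- The form `M + c |φ|²` (to be tested: it is semidefinite). -/
def NFE (i j k : Fin 3) (A B a c : Sc) : FE :=
  .add (.sub (.smul (muS i j k A) (.add (.add (.nsq (lmF j k)) (.nsq (lmF j k))) .gram))
    (.re2 (.sub (.row i) (.smul (.cj (gaS i j k)) (lmF j k))) (phF i j k A B a))) (.smul c (.nsq (phF i j k A B a)))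

section

variable {e : Ev ℝ}

theorem ev_add (a b : Sc) : (evS OR e (.add a b)).c = (evS OR e a).c + (evS OR e b).c := rfl
theorem ev_sub (a b : Sc) : (evS OR e (.sub a b)).c = (evS OR e a).c - (evS OR e b).c := rfl
theorem ev_mul (a b : Sc) : (evS OR e (.mul a b)).c = (evS OR e a).c * (evS OR e b).c := c_mul _ _
theorem ev_cj (a : Sc) : (evS OR e (.cj a)).c = conj (evS OR e a).c := rfl

theorem ev_cst (m n : Int) : (evS OR e (.cst m n)).c = ⟨(m : ℝ) / 1073741824, (n : ℝ) / 1073741824⟩ := rfl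

theorem ev_cst0 (m : Int) : (evS OR e (.cst m 0)).c = ((m : ℝ) / 1073741824 : ℝ) := by
  rw [ev_cst]
  apply Complex.ext <;> simp

theorem ev_tre (a : Sc) : (evS OR e (tre a)).c = 2 * ((evS OR e a).re : ℂ) := by
  unfold tre
  rw [ev_add, ev_cj]
  apply Complex.ext
  · show (evS OR e a).re + (evS OR e a).re = _
    simp
    ring
  · show (evS OR e a).im + -(evS OR e a).im = _
    simp

theorem ev_two : (evS OR e twS).c = 2 := by
  unfold twS
  rw [ev_cst0]
  norm_num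

theorem ev_g (hk : EvOK e) {i j : Fin 3} (h : i ≠ j) : (evS OR e (gS i j)).c = gm e.g i j := by
  unfold gS
  rw [ev_mul, ev_mul, ev_tre, ev_cst0, hk.key i j h]
  have : ((((-536870912 : Int) : ℝ) / 1073741824 : ℝ) : ℂ) = -(1 / 2) := by norm_num
  rw [this]
  ring

theorem ev_ga (hk : EvOK e) {i j k : Fin 3} (hij : i ≠ j) (hik : i ≠ k) (hjk : j ≠ k) :
    (evS OR e (gaS i j k)).c = gaG (gm e.g) i j k := by
  unfold gaS gaG
  rw [ev_sub, ev_mul, ev_mul, ev_two, ev_g hk hjk.symm, ev_g hk hij.symm, ev_g hk hik.symm]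

theorem ev_Fv (hk : EvOK e) {j k : Fin 3} (hjk : j ≠ k) :
    (evS OR e (FvS j k)).c = ((4 * normSq (gm e.g j k) - 1 : ℝ) : ℂ) := by
  unfold FvS
  rw [ev_sub, ev_mul, ev_mul, ev_cst0, ev_cst0, ev_g hk hjk, ev_g hk hjk.symm, ← (gm_gram e.g).hm j k, Complex.mul_conj]
  have h1 : ((((4294967296 : Int) : ℝ) / 1073741824 : ℝ) : ℂ) = 4 := by norm_num
  have h2 : ((((1073741824 : Int) : ℝ) / 1073741824 : ℝ) : ℂ) = 1 := by norm_num
  rw [h1, h2]
  push_cast
  ring

theorem ev_lm (j k : Fin 3) (z : Fin 3 → ℂ) : (evF OR e (lmF j k)).v z = lmG (gm e.g) j k z := by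
  show (Rw.comp OR e.g j (e.g.row OR k)).v z = _
  rw [v_comp, v_row, G_Sg]
  rfl

theorem ev_ff (hk : EvOK e) {j k : Fin 3} (hjk : j ≠ k) (z : Fin 3 → ℂ) :
    (evF OR e (ffF j k)).v z = ffG (gm e.g) j k z := by
  show (Rw.add OR (crd OR k) (Rw.smul OR (evS OR e (.mul twS (gS k j))) (crd OR j))).v z = _
  rw [v_add, v_smul, v_crd, v_crd, ev_mul, ev_two, ev_g hk hjk.symm]
  rfl

theorem ev_ph (hk : EvOK e) {i j k : Fin 3} (hij : i ≠ j) (hik : i ≠ k) (hjk : j ≠ k) (A B a : Sc) (z : Fin 3 → ℂ) :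
    (evF OR e (phF i j k A B a)).v z =
      phG (gm e.g) i j k (evS OR e A).re (evS OR e B).re (evS OR e a).re z := by
  show (Rw.sub OR (Rw.add OR (Rw.smul OR (evS OR e (.mul (tre A) (.cj (gaS i j k))))
    (Rw.sub OR (evF OR e (ffF j k)) (Rw.smul OR (evS OR e (FvS j k)) (evF OR e (lmF j k)))))
    (Rw.smul OR (evS OR e (.mul (tre B) (.cj (gaS i k j)))) (evF OR e (ffF k j))))
    (Rw.smul OR (evS OR e (.mul (tre a) (.cj (gaS i j k)))) (evF OR e (lmF j k)))).v z = _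
  rw [v_sub, v_add, v_smul, v_sub, v_smul, v_smul, v_smul, ev_lm, ev_ff hk hjk, ev_ff hk hjk.symm, ev_mul, ev_mul, ev_mul,
    ev_tre, ev_tre, ev_tre, ev_cj, ev_cj, ev_ga hk hij hik hjk, ev_ga hk hik hij hjk.symm, ev_Fv hk hjk]
  rfl

theorem ev_mu (hk : EvOK e) {i j k : Fin 3} (hij : i ≠ j) (hik : i ≠ k) (hjk : j ≠ k) (A : Sc) :
    (evS OR e (muS i j k A)).re = muG (gm e.g) i j k (evS OR e A).re := by
  have h : (evS OR e (muS i j k A)).c = ((muG (gm e.g) i j k (evS OR e A).re : ℝ) : ℂ) := by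
    unfold muS muG
    rw [ev_sub, ev_mul, ev_mul, ev_mul, ev_tre, ev_cj, ev_ga hk hij hik hjk, ev_Fv hk hjk, ev_cst0, Complex.mul_conj]
    push_cast
    ring
  rw [← c_re, h, Complex.ofReal_re]

theorem ev_T (hk : EvOK e) {i j k : Fin 3} (hij : i ≠ j) (hik : i ≠ k) (hjk : j ≠ k) (A B a nu : Sc) (z : Fin 3 → ℂ) :
    qf (hm (evQ OR e (TFE i j k A B a nu))) z =
      TfG (gm e.g) i j k (evS OR e A).re (evS OR e B).re (evS OR e a).re (evS OR e nu).re z := by
  show qf (hm ((((H9.re2 OR (Rw.smul OR (evS OR e (gaS i j k)) (e.g.row OR i)) (evF OR e (ffF j k))).smul OR (evS OR e A).re).add OR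
    ((H9.re2 OR (Rw.smul OR (evS OR e (gaS i k j)) (e.g.row OR i)) (evF OR e (ffF k j))).smul OR (evS OR e B).re)).add OR
    (((H9.nsq OR (e.g.row OR i)).smul OR (evS OR e a).re).add OR ((H9.gram OR e.g).smul OR (evS OR e nu).re)))) z = _
  rw [qf_hadd, qf_hadd, qf_hadd, qf_hsmul, qf_hsmul, qf_hsmul, qf_hsmul, qf_re2, qf_re2, qf_nsq, hm_gram, v_smul, v_smul, v_row,
    ev_ff hk hjk, ev_ff hk hjk.symm, ev_ga hk hij hik hjk, ev_ga hk hik hij hjk.symm]
  unfold TfG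
  ring

theorem ev_N (hk : EvOK e) {i j k : Fin 3} (hij : i ≠ j) (hik : i ≠ k) (hjk : j ≠ k) (A B a c : Sc) (z : Fin 3 → ℂ) :
    qf (hm (evQ OR e (NFE i j k A B a c))) z =
      MfG (gm e.g) i j k (evS OR e A).re (evS OR e B).re (evS OR e a).re z +
        (evS OR e c).re * normSq (phG (gm e.g) i j k (evS OR e A).re (evS OR e B).re (evS OR e a).re z) := by
  show qf (hm (((((((H9.nsq OR (evF OR e (lmF j k))).add OR (H9.nsq OR (evF OR e (lmF j k)))).add OR
    (H9.gram OR e.g)).smul OR (evS OR e (muS i j k A)).re).sub OR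
    (H9.re2 OR (Rw.sub OR (e.g.row OR i) (Rw.smul OR (evS OR e (.cj (gaS i j k))) (evF OR e (lmF j k))))
      (evF OR e (phF i j k A B a)))).add OR ((H9.nsq OR (evF OR e (phF i j k A B a))).smul OR (evS OR e c).re)))) z = _
  rw [qf_hadd, qf_hsub, qf_hsmul, qf_hadd, qf_hadd, qf_hsmul, qf_re2, qf_nsq, qf_nsq, hm_gram, v_sub, v_smul, v_row, ev_lm,
    ev_ph hk hij hik hjk, ev_mu hk hij hik hjk, ev_cj, ev_ga hk hij hik hjk]
  unfold MfG
  ring

/-- The border test for `T` and the word `I_i I_j I_k I_j`. -/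
theorem bordT_ev (hk : EvOK e) {i j k : Fin 3} (hij : i ≠ j) (hik : i ≠ k) (hjk : j ≠ k) (A B a nu c : Sc)
    (hμ : 0 < (evS OR e (muS i j k A)).re) (hδ : 1 ≤ normSq (gaG (gm e.g) i j k))
    (hN : ∀ v, 0 ≤ qf (hm (evQ OR e (NFE i j k A B a c))) v) (x : Fin 3 → ℂ) (hx : qf (gm e.g) x < 0)
    (hT : 0 < qf (hm (evQ OR e (TFE i j k A B a nu))) x) :
    0 < qf (hm (evQ OR e (TFE i j k A B a nu))) (actL (gm e.g) [i, j, k, j] x) := by
  rw [ev_T hk hij hik hjk] at hT ⊢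
  rw [ev_mu hk hij hik hjk] at hμ
  exact bordT _ (gm_gram e.g) hij hik hjk _ _ _ _ _ hμ hδ
    (fun z => by have := hN z; rwa [ev_N hk hij hik hjk] at this) hx hT

theorem TfG_swap (G : Matrix (Fin 3) (Fin 3) ℂ) (i j k : Fin 3) (A B a ν : ℝ) (z : Fin 3 → ℂ) :
    TfG G i j k A B a ν z = TfG G i k j B A a ν z := by
  unfold TfG
  ring

/-- The border test for `T` and the word `I_i I_k I_j I_k`. -/
theorem bordT'_ev (hk : EvOK e) {i j k : Fin 3} (hij : i ≠ j) (hik : i ≠ k) (hjk : j ≠ k) (A B a nu c : Sc)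
    (hμ : 0 < (evS OR e (muS i k j B)).re) (hδ : 1 ≤ normSq (gaG (gm e.g) i k j))
    (hN : ∀ v, 0 ≤ qf (hm (evQ OR e (NFE i k j B A a c))) v) (x : Fin 3 → ℂ) (hx : qf (gm e.g) x < 0)
    (hT : 0 < qf (hm (evQ OR e (TFE i j k A B a nu))) x) :
    0 < qf (hm (evQ OR e (TFE i j k A B a nu))) (actL (gm e.g) [i, k, j, k] x) := by
  rw [ev_T hk hij hik hjk, TfG_swap] at hT ⊢
  rw [ev_mu hk hik hij hjk.symm] at hμ
  exact bordT _ (gm_gram e.g) hik hij hjk.symm _ _ _ _ _ hμ hδ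
    (fun z => by have := hN z; rwa [ev_N hk hik hij hjk.symm] at this) hx hT

end

end Pool.Agent.Work.MP_88b7aa_gt.PQ
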