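import Pool.Agent.Work.MP_88b7aa_gt.PQ.CertF

/-!
# The vertex forms and the cone argument

`i, j` a pair of generators with `|⟨n_i, n_j⟩| = cos α`, `m α = π`, `k` the third index.  `fi, fj` complex numbers with
`fj conj (G j i) = - cos α fi`, `fi conj (G i j) = - cos α fj`.  `VV P Q = P A + Q B`, where
`A x = Re (fj conj ⟨x, n_j⟩ x_k)`, `B x = Re (fi conj ⟨x, n_i⟩ x_k)`.  The half plane with the upper boundary of angle `ψ` at the
vertex is `VV (sin ψ) (sin (ψ - α)) > 0`.  The word `I_i I_j I_i ..` (`l` letters) turns `ψ` to `ψ + l α` (and exchanges the roles of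
`i` and `j` if `l` is odd).  All words of length `l0 ≤ l < m` follow from two conditions.
-/

namespace Pool.Agent.Work.MP_88b7aa_gt.PQ

open Pool.Agent.Work.MP_88b7aa_gt.CH
open ComplexConjugate Complex Matrix

/-- The form `Re (β conj ⟨x, n_i⟩ x_k)`. -/
def VF (G : Matrix (Fin 3) (Fin 3) ℂ) (i k : Fin 3) (β : ℂ) : Matrix (Fin 3) (Fin 3) ℂ :=
  fun a b => if b = k then β * conj (G i a) else 0

/-- `P A + Q B`. -/
def VV (G : Matrix (Fin 3) (Fin 3) ℂ) (i j k : Fin 3) (fi fj : ℂ) (P Q : ℝ) : Matrix (Fin 3) (Fin 3) ℂ :=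
  VF G j k (P * fj) + VF G i k (Q * fi)

theorem qf_VF (G : Matrix (Fin 3) (Fin 3) ℂ) (i k : Fin 3) (β : ℂ) (x : Fin 3 → ℂ) :
    qf (VF G i k β) x = (β * conj (∑ b, G i b * x b) * x k).re := by
  unfold qf VF
  congr 1
  rw [map_sum, Finset.mul_sum, Finset.sum_mul]
  refine Finset.sum_congr rfl fun a _ => ?_
  simp only [mul_ite, mul_zero, ite_mul, zero_mul, Finset.sum_ite_eq', Finset.mem_univ, if_true, map_mul]
  ring

theorem qf_add (Q Q' : Matrix (Fin 3) (Fin 3) ℂ) (x : Fin 3 → ℂ) : qf (Q + Q') x = qf Q x + qf Q' x := by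
  unfold qf
  rw [← Complex.add_re, ← Finset.sum_add_distrib]
  congr 1
  refine Finset.sum_congr rfl fun a _ => ?_
  rw [← Finset.sum_add_distrib]
  refine Finset.sum_congr rfl fun b _ => ?_
  rw [Matrix.add_apply]
  ring

theorem qf_VF_real (G : Matrix (Fin 3) (Fin 3) ℂ) (i k : Fin 3) (β : ℂ) (P : ℝ) (x : Fin 3 → ℂ) :
    qf (VF G i k (P * β)) x = P * qf (VF G i k β) x := by
  rw [qf_VF, qf_VF, mul_assoc, mul_assoc, Complex.re_ofReal_mul, ← mul_assoc]

theorem qf_VV (G : Matrix (Fin 3) (Fin 3) ℂ) (i j k : Fin 3) (fi fj : ℂ) (P Q : ℝ) (x : Fin 3 → ℂ) :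
    qf (VV G i j k fi fj P Q) x = P * qf (VF G j k fj) x + Q * qf (VF G i k fi) x := by
  unfold VV
  rw [qf_add, qf_VF_real, qf_VF_real]

/-- The vertex data: `f i` at the vertex opposite to `k`. -/
structure Vx (G : Matrix (Fin 3) (Fin 3) ℂ) (i j k : Fin 3) (fi fj : ℂ) (c : ℝ) : Prop where
  gram : IsGram G
  hij : i ≠ j
  hik : i ≠ k
  hjk : j ≠ k
  hj : fj * conj (G j i) = -(c : ℂ) * fi
  hi : fi * conj (G i j) = -(c : ℂ) * fj

theorem Vx.symm {G : Matrix (Fin 3) (Fin 3) ℂ} {i j k : Fin 3} {fi fj : ℂ} {c : ℝ} (h : Vx G i j k fi fj c) :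
    Vx G j i k fj fi c := ⟨h.gram, h.hij.symm, h.hjk, h.hik, h.hi, h.hj⟩

private theorem Sg_apply (G : Matrix (Fin 3) (Fin 3) ℂ) (i a : Fin 3) (x : Fin 3 → ℂ) :
    (Sg G i *ᵥ x) a = (if a = i then 2 * ∑ b, G i b * x b else 0) - x a := by
  simp only [Matrix.mulVec, dotProduct, Sg, sub_mul, Finset.sum_sub_distrib]
  congr 1
  · by_cases h : a = i
    · simp only [h, if_true, mul_assoc, ← Finset.mul_sum]
    · simp [h]
  · simp

private theorem Sg_row (G : Matrix (Fin 3) (Fin 3) ℂ) (i a : Fin 3) (x : Fin 3 → ℂ) :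
    ∑ b, G a b * (Sg G i *ᵥ x) b = 2 * G a i * (∑ b, G i b * x b) - ∑ b, G a b * x b := by
  simp only [Sg_apply, mul_sub, Finset.sum_sub_distrib, mul_ite, mul_zero, Finset.sum_ite_eq', Finset.mem_univ, if_true]
  ring

theorem Vx.B_i {G : Matrix (Fin 3) (Fin 3) ℂ} {i j k : Fin 3} {fi fj : ℂ} {c : ℝ} (h : Vx G i j k fi fj c)
    (x : Fin 3 → ℂ) : qf (VF G i k fi) (Sg G i *ᵥ x) = -qf (VF G i k fi) x := by
  rw [qf_VF, qf_VF, Sg_row, Sg_apply, if_neg h.hik.symm, h.gram.dg]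
  rw [← Complex.neg_re]
  congr 1
  have e : 2 * 1 * (∑ b, G i b * x b) - ∑ b, G i b * x b = ∑ b, G i b * x b := by ring
  rw [e]
  ring

theorem Vx.A_i {G : Matrix (Fin 3) (Fin 3) ℂ} {i j k : Fin 3} {fi fj : ℂ} {c : ℝ} (h : Vx G i j k fi fj c)
    (x : Fin 3 → ℂ) : qf (VF G j k fj) (Sg G i *ᵥ x) = qf (VF G j k fj) x + 2 * c * qf (VF G i k fi) x := by
  rw [qf_VF, qf_VF, qf_VF, Sg_row, Sg_apply, if_neg h.hik.symm]
  rw [show (2 * c * (fi * conj (∑ b, G i b * x b) * x k).re : ℝ) =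
    (((2 * c : ℝ) : ℂ) * (fi * conj (∑ b, G i b * x b) * x k)).re from (Complex.re_ofReal_mul _ _).symm]
  rw [← Complex.add_re]
  congr 1
  have h2 : conj (2 : ℂ) = 2 := Complex.conj_ofNat 2
  rw [map_sub, map_mul, map_mul, h2]
  have hj := h.hj
  push_cast
  linear_combination (-2 * conj (∑ b, G i b * x b) * x k) * hj

/-- the value of the half plane form -/
noncomputable def hp (α ψ P Q : ℝ) : ℝ := Real.sin ψ * P + Real.sin (ψ - α) * Q

/-- One letter: the roles of `i` and `j` are exchanged and `ψ` becomes `ψ + α`. -/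
theorem Vx.step {G : Matrix (Fin 3) (Fin 3) ℂ} {i j k : Fin 3} {fi fj : ℂ} {α : ℝ}
    (h : Vx G i j k fi fj (Real.cos α)) (ψ : ℝ) (x : Fin 3 → ℂ) :
    hp α ψ (qf (VF G j k fj) (Sg G i *ᵥ x)) (qf (VF G i k fi) (Sg G i *ᵥ x)) =
      hp α (ψ + α) (qf (VF G i k fi) x) (qf (VF G j k fj) x) := by
  rw [h.B_i, h.A_i]
  unfold hp
  rw [show ψ + α - α = ψ by ring, Real.sin_add, Real.sin_sub]
  ring

/-- The word of length `l`. -/
theorem Vx.word {G : Matrix (Fin 3) (Fin 3) ℂ} {α : ℝ} (l : ℕ) : ∀ {i j k : Fin 3} {fi fj : ℂ},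
    Vx G i j k fi fj (Real.cos α) → ∀ (ψ : ℝ) (x : Fin 3 → ℂ),
    hp α ψ (qf (VF G j k fj) (altS G i j l *ᵥ x)) (qf (VF G i k fi) (altS G i j l *ᵥ x)) =
      if Even l then hp α (ψ + l * α) (qf (VF G j k fj) x) (qf (VF G i k fi) x)
      else hp α (ψ + l * α) (qf (VF G i k fi) x) (qf (VF G j k fj) x) := by
  induction l with
  | zero =>
    intro i j k fi fj h ψ x
    simp [altS]
  | succ l ih =>
    intro i j k fi fj h ψ x
    have e2 : altS G i j (l + 1) = Sg G i * altS G j i l := rfl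
    rw [e2, ← Matrix.mulVec_mulVec, h.step, ih h.symm]
    have e3 : ψ + α + l * α = ψ + ((l + 1 : ℕ) : ℝ) * α := by push_cast; ring
    rw [e3]
    by_cases he : Even l
    · have h3 : ¬ Even (l + 1) := by simpa [Nat.even_add_one] using he
      rw [if_pos he, if_neg h3]
    · have h3 : Even (l + 1) := by simpa [Nat.even_add_one] using he
      rw [if_neg he, if_pos h3]

/-- The convex cone. -/
theorem hp_cone (α ψa ψb ψ P Q : ℝ) (h1 : ψa ≤ ψ) (h2 : ψ ≤ ψb) (h3 : ψb < ψa + Real.pi)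
    (ha : 0 < hp α ψa P Q) (hb : 0 < hp α ψb P Q) : 0 < hp α ψ P Q := by
  rcases (h1.trans h2).eq_or_lt with h4 | h4
  · have : ψ = ψa := by linarith
    rw [this]
    exact ha
  · have hs : 0 < Real.sin (ψb - ψa) := Real.sin_pos_of_pos_of_lt_pi (by linarith) (by linarith)
    have s1 : 0 ≤ Real.sin (ψb - ψ) := Real.sin_nonneg_of_nonneg_of_le_pi (by linarith) (by linarith)
    have s2 : 0 ≤ Real.sin (ψ - ψa) := Real.sin_nonneg_of_nonneg_of_le_pi (by linarith) (by linarith)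
    have key : Real.sin (ψb - ψa) * hp α ψ P Q =
        Real.sin (ψb - ψ) * hp α ψa P Q + Real.sin (ψ - ψa) * hp α ψb P Q := by
      unfold hp
      simp only [Real.sin_sub]
      have c1 := Real.sin_sq_add_cos_sq ψ
      have c2 := Real.sin_sq_add_cos_sq ψa
      have c3 := Real.sin_sq_add_cos_sq ψb
      ring
    have hpos : 0 < Real.sin (ψb - ψ) * hp α ψa P Q + Real.sin (ψ - ψa) * hp α ψb P Q := by
      rcases s1.eq_or_lt with e1 | e1
      · -- then `ψ = ψb`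
        have : ψ = ψb := by
          by_contra hne
          have hlt : 0 < ψb - ψ := by
            rcases h2.eq_or_lt with h | h
            · exact absurd h hne
            · linarith
          have := Real.sin_pos_of_pos_of_lt_pi hlt (by linarith)
          linarith
        rw [← e1, zero_mul, zero_add, this]
        exact mul_pos hs hb
      · have := mul_pos e1 ha
        have h6 := mul_nonneg s2 hb.le
        linarith
    rw [← key] at hpos
    exact (mul_pos_iff_of_pos_left hs).1 hpos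

/-- exchanging the roles -/
theorem hp_swap (α ψ P Q : ℝ) : hp α ψ Q P = hp α (Real.pi + α - ψ) P Q := by
  unfold hp
  rw [show Real.pi + α - ψ - α = Real.pi - ψ by ring, Real.sin_pi_sub,
    show Real.pi + α - ψ = Real.pi - (ψ - α) by ring, Real.sin_pi_sub]
  ring

theorem hp_pi (α ψ P Q : ℝ) : hp α (ψ + Real.pi) P Q = -hp α ψ P Q := by
  unfold hp
  rw [show ψ + Real.pi - α = ψ - α + Real.pi by ring, Real.sin_add_pi, Real.sin_add_pi]
  ring

/-- THE CONE ARGUMENT.  If `x` satisfies the two conditions `ψ = κ α` (for `i, j` and for `j, i`), then every word of length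
`l0 ≤ l < m` starting with `i` maps it to the half plane `ψ = κ0 α`, provided `κ ≤ κ0 + l0`, `κ ≤ 2 - κ0`. -/
theorem Vx.cone {G : Matrix (Fin 3) (Fin 3) ℂ} {i j k : Fin 3} {fi fj : ℂ} {α : ℝ} {m : ℕ}
    (h : Vx G i j k fi fj (Real.cos α)) (hα : m * α = Real.pi) (l0 : ℕ) (κ κ0 : ℝ) (h1 : κ ≤ κ0 + l0)
    (h2 : κ ≤ 2 - κ0) (h3 : 1 / 2 < κ) (x : Fin 3 → ℂ)
    (ha : 0 < hp α (κ * α) (qf (VF G j k fj) x) (qf (VF G i k fi) x))
    (hb : 0 < hp α (κ * α) (qf (VF G i k fi) x) (qf (VF G j k fj) x))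
    (l : ℕ) (hl : l0 ≤ l) (hl' : l < m) :
    0 < hp α (κ0 * α) (qf (VF G j k fj) (altS G i j l *ᵥ x)) (qf (VF G i k fi) (altS G i j l *ᵥ x)) := by
  have hm : (0 : ℝ) < m := by
    have : 0 < m := by omega
    exact_mod_cast this
  have hα0 : 0 < α := by
    by_contra hcon
    push Not at hcon
    have := Real.pi_pos
    nlinarith
  have r1 : (l0 : ℝ) ≤ l := by exact_mod_cast hl
  have r2 : (l : ℝ) + 1 ≤ m := by exact_mod_cast hl'
  have r0 : (0 : ℝ) ≤ l0 := Nat.cast_nonneg l0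
  rw [hp_swap] at hb
  rw [h.word]
  have e1 : κ0 * α + l * α = (κ0 + l) * α := by ring
  have e2 : Real.pi + α - κ * α = (m + 1 - κ) * α := by rw [← hα]; ring
  rw [e2] at hb
  have hlt : (m + 1 - κ) * α < κ * α + Real.pi := by
    rw [← hα]
    nlinarith
  by_cases he : Even l
  · rw [if_pos he, e1]
    refine hp_cone α _ _ _ _ _ ?_ ?_ hlt ha hb
    · exact mul_le_mul_of_nonneg_right (by linarith) hα0.le
    · exact mul_le_mul_of_nonneg_right (by linarith) hα0.le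
  · rw [if_neg he, e1, hp_swap]
    have e3 : Real.pi + α - (κ0 + l) * α = (m + 1 - κ0 - l) * α := by rw [← hα]; ring
    rw [e3]
    refine hp_cone α _ _ _ _ _ ?_ ?_ hlt ha hb
    · exact mul_le_mul_of_nonneg_right (by linarith) hα0.le
    · exact mul_le_mul_of_nonneg_right (by linarith) hα0.le

/-- The longest element. -/
theorem Vx.long {G : Matrix (Fin 3) (Fin 3) ℂ} {i j k : Fin 3} {fi fj : ℂ} {α : ℝ} {m : ℕ}
    (h : Vx G i j k fi fj (Real.cos α)) (hα : m * α = Real.pi) (ψ : ℝ) (x : Fin 3 → ℂ) :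
    hp α ψ (qf (VF G j k fj) (altS G i j m *ᵥ x)) (qf (VF G i k fi) (altS G i j m *ᵥ x)) =
      -(if Even m then hp α ψ (qf (VF G j k fj) x) (qf (VF G i k fi) x)
      else hp α ψ (qf (VF G i k fi) x) (qf (VF G j k fj) x)) := by
  rw [h.word, hα]
  split_ifs
  · rw [hp_pi]
  · rw [hp_pi]

/-- The numbers of a vertex: the target form `VV P Q` is the half plane `κ0 α`, the source condition `VV P' Q'` the half plane
`κ α`; the words of length `≥ l0` are covered. -/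
structure VPk (α : ℝ) (l0 : ℕ) (P Q P' Q' : ℝ) : Prop where
  ex : ∃ κ κ0 : ℝ, κ ≤ κ0 + l0 ∧ κ ≤ 2 - κ0 ∧ 1 / 2 < κ ∧
    (∃ σ : ℝ, 0 < σ ∧ Real.sin (κ * α) = σ * P' ∧ Real.sin ((κ - 1) * α) = σ * Q') ∧
    (∃ τ : ℝ, 0 < τ ∧ Real.sin (κ0 * α) = τ * P ∧ Real.sin ((κ0 - 1) * α) = τ * Q)

/-- All words of length `l0 ≤ l < m`, for a point. -/
theorem Vx.point {G : Matrix (Fin 3) (Fin 3) ℂ} {i j k : Fin 3} {fi fj : ℂ} {α : ℝ} {m : ℕ}
    (h : Vx G i j k fi fj (Real.cos α)) (hα : m * α = Real.pi) (l0 : ℕ) {P Q P' Q' : ℝ}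
    (hp' : VPk α l0 P Q P' Q') (o : Fin 3 → ℂ)
    (ha : 0 < qf (VV G i j k fi fj P' Q') o) (hb : 0 < qf (VV G i j k fi fj Q' P') o)
    (l : ℕ) (hl : l0 ≤ l) (hl' : l < m) : 0 < qf (VV G i j k fi fj P Q) (altS G i j l *ᵥ o) := by
  obtain ⟨κ, κ0, h1, h2, h3, ⟨σ, hσ, s1, s2⟩, ⟨τ, hτ, t1, t2⟩⟩ := hp'.ex
  rw [qf_VV] at ha hb
  have e1 : κ * α - α = (κ - 1) * α := by ring
  have e2 : κ0 * α - α = (κ0 - 1) * α := by ring
  have key := h.cone hα l0 κ κ0 h1 h2 h3 o (by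
    unfold hp
    rw [e1, s1, s2]
    have := mul_pos hσ ha
    linarith) (by
    unfold hp
    rw [e1, s1, s2]
    have := mul_pos hσ hb
    linarith) l hl hl'
  unfold hp at key
  rw [e2, t1, t2] at key
  rw [qf_VV]
  have k2 : 0 < τ * (P * qf (VF G j k fj) (altS G i j l *ᵥ o) + Q * qf (VF G i k fi) (altS G i j l *ᵥ o)) := by
    linarith
  exact (mul_pos_iff_of_pos_left hτ).1 k2

/-- All words of length `l0 ≤ l < m` from two conditions on the source `X`. -/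
theorem Vx.incl {G : Matrix (Fin 3) (Fin 3) ℂ} {i j k : Fin 3} {fi fj : ℂ} {α : ℝ} {m : ℕ}
    (h : Vx G i j k fi fj (Real.cos α)) (hα : m * α = Real.pi) (l0 : ℕ) {P Q P' Q' : ℝ}
    (hp' : VPk α l0 P Q P' Q') (X : Matrix (Fin 3) (Fin 3) ℂ)
    (ha : Incl G 1 X (VV G i j k fi fj P' Q')) (hb : Incl G 1 X (VV G i j k fi fj Q' P'))
    (l : ℕ) (hl : l0 ≤ l) (hl' : l < m) : Incl G (altS G i j l) X (VV G i j k fi fj P Q) := by
  intro x hx hX
  have a1 := ha x hx hX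
  have b1 := hb x hx hX
  rw [Matrix.one_mulVec] at a1 b1
  exact h.point hα l0 hp' x a1 b1 l hl hl'

/-- The condition on the longest element. -/
theorem Vx.longC {M : CoxeterMatrix (Fin 3)} {G : Matrix (Fin 3) (Fin 3) ℂ} {i j k : Fin 3} {fi fj : ℂ} {α : ℝ}
    (h : Vx G i j k fi fj (Real.cos α)) (hα : (M i j : ℕ) * α = Real.pi) (l0 : ℕ) {P Q P' Q' : ℝ}
    (hp' : VPk α l0 P Q P' Q') {ι : Type*} (lab : ι → Fin 3) (F : ι → Matrix (Fin 3) (Fin 3) ℂ)
    (o : Fin 3 → ℂ) (ha : 0 < qf (VV G i j k fi fj P' Q') o) (hb : 0 < qf (VV G i j k fi fj Q' P') o)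
    (hF : ∀ s, lab s = k → Incl G 1 (F s) (VV G i j k fi fj P' Q') ∧ Incl G 1 (F s) (VV G i j k fi fj Q' P')) :
    LongC M G lab F o i j k := by
  right
  obtain ⟨κ, κ0, -, -, -, ⟨σ, hσ, s1, s2⟩, -⟩ := hp'.ex
  have e1 : κ * α - α = (κ - 1) * α := by ring
  have hlong : ∀ x, σ * qf (VV G i j k fi fj P' Q') (altS G i j (M i j) *ᵥ x) =
      -(σ * (if Even (M i j) then qf (VV G i j k fi fj P' Q') x else qf (VV G i j k fi fj Q' P') x)) := by
    intro x
    have key := h.long hα (κ * α) x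
    unfold hp at key
    rw [e1, s1, s2] at key
    rw [qf_VV, qf_VV, qf_VV]
    split_ifs at key ⊢ with he
    · linarith
    · linarith
  by_cases he : Even (M i j)
  · refine ⟨VV G i j k fi fj P' Q', VV G i j k fi fj P' Q', ha, ha, fun s hs => (hF s hs).1, fun x => ?_⟩
    have := hlong x
    rw [if_pos he] at this
    exact mul_left_cancel₀ hσ.ne' (by linarith)
  · refine ⟨VV G i j k fi fj P' Q', VV G i j k fi fj Q' P', ha, hb, fun s hs => (hF s hs).2, fun x => ?_⟩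
    have := hlong x
    rw [if_neg he] at this
    exact mul_left_cancel₀ hσ.ne' (by linarith)

/-- `sin ((t + 1/2) α) / sin (α / 2)` as a polynomial in `c = cos α`: `1, 1 + 2c, 4c² + 2c - 1, ...` -/
def Dp (c : ℝ) : ℕ → ℝ
  | 0 => 1
  | 1 => 1 + 2 * c
  | t + 2 => 2 * c * Dp c (t + 1) - Dp c t

theorem sin_Dp (α : ℝ) (t : ℕ) : Real.sin ((t + 1 / 2) * α) = Dp (Real.cos α) t * Real.sin (α / 2) ∧
    Real.sin ((t + 1 + 1 / 2) * α) = Dp (Real.cos α) (t + 1) * Real.sin (α / 2) := by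
  induction t with
  | zero =>
    constructor
    · simp only [Nat.cast_zero, Dp]
      rw [one_mul]
      congr 1
      ring
    · have e : (((0 : ℕ) : ℝ) + 1 + 1 / 2) * α = 3 * (α / 2) := by push_cast; ring
      have e2 : Real.cos α = 1 - 2 * Real.sin (α / 2) ^ 2 := by
        have h1 := Real.cos_sq' (α / 2)
        have h2 : Real.cos α = 2 * Real.cos (α / 2) ^ 2 - 1 := by
          rw [← Real.cos_two_mul]
          congr 1
          ring
        rw [h2, h1]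
        ring
      rw [e, Real.sin_three_mul]
      show _ = (1 + 2 * Real.cos α) * Real.sin (α / 2)
      rw [e2]
      ring
  | succ t ih =>
    obtain ⟨h1, h2⟩ := ih
    refine ⟨by rw [← h2]; push_cast; ring_nf, ?_⟩
    have e : (((t + 1 : ℕ) : ℝ) + 1 + 1 / 2) * α = (t + 1 + 1 / 2) * α + α := by push_cast; ring
    have e2 : ((t : ℝ) + 1 / 2) * α = (t + 1 + 1 / 2) * α - α := by ring
    rw [e2, Real.sin_sub] at h1
    rw [e, Real.sin_add]
    show _ = (2 * Real.cos α * Dp (Real.cos α) (t + 1) - Dp (Real.cos α) t) * Real.sin (α / 2)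
    rw [sub_mul, mul_assoc, ← h2, ← h1]
    ring

/-- `sin (t α) / sin α`: `0, 1, 2c, 4c² - 1, ...` -/
def Up (c : ℝ) : ℕ → ℝ
  | 0 => 0
  | 1 => 1
  | t + 2 => 2 * c * Up c (t + 1) - Up c t

theorem sin_Up (α : ℝ) (t : ℕ) : Real.sin (t * α) = Up (Real.cos α) t * Real.sin α ∧
    Real.sin ((t + 1) * α) = Up (Real.cos α) (t + 1) * Real.sin α := by
  induction t with
  | zero => constructor <;> simp [Up]
  | succ t ih =>
    obtain ⟨h1, h2⟩ := ih
    refine ⟨by rw [← h2]; push_cast; ring_nf, ?_⟩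
    have e : (((t + 1 : ℕ) : ℝ) + 1) * α = (t + 1) * α + α := by push_cast; ring
    have e2 : (t : ℝ) * α = (t + 1) * α - α := by ring
    rw [e2, Real.sin_sub] at h1
    rw [e, Real.sin_add]
    show _ = (2 * Real.cos α * Up (Real.cos α) (t + 1) - Up (Real.cos α) t) * Real.sin α
    rw [sub_mul, mul_assoc, ← h2, ← h1]
    ring

/-- Symmetric choice `κ0 = 1 - l0/2`, `κ = 1 + l0/2`, `l0 = 2 t + 3`. -/
theorem VPk_sym (α : ℝ) (h0 : 0 < α) (h1 : α < Real.pi) (t : ℕ) :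
    VPk α (2 * t + 3) (-Dp (Real.cos α) t) (-Dp (Real.cos α) (t + 1)) (Dp (Real.cos α) (t + 2))
      (Dp (Real.cos α) (t + 1)) := by
  have hs : 0 < Real.sin (α / 2) := Real.sin_pos_of_pos_of_lt_pi (by linarith) (by linarith)
  have a1 := (sin_Dp α t).1
  have a2 := (sin_Dp α (t + 1)).1
  have a3 := (sin_Dp α (t + 1)).2
  push_cast at a2 a3
  have ht : (0 : ℝ) ≤ t := Nat.cast_nonneg t
  refine ⟨⟨1 + ((2 * t + 3 : ℕ) : ℝ) / 2, 1 - ((2 * t + 3 : ℕ) : ℝ) / 2, ?_, ?_, ?_, ⟨_, hs, ?_, ?_⟩, ⟨_, hs, ?_, ?_⟩⟩⟩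
  · push_cast; linarith
  · push_cast; linarith
  · push_cast; linarith
  · have e1 : (1 + ((2 * t + 3 : ℕ) : ℝ) / 2) * α = (t + 1 + 1 + 1 / 2) * α := by push_cast; ring
    rw [e1, a3, mul_comm]
  · have e2 : (1 + ((2 * t + 3 : ℕ) : ℝ) / 2 - 1) * α = (t + 1 + 1 / 2) * α := by push_cast; ring
    rw [e2, a2, mul_comm]
  · have e3 : (1 - ((2 * t + 3 : ℕ) : ℝ) / 2) * α = -((t + 1 / 2) * α) := by push_cast; ring
    rw [e3, Real.sin_neg, a1, mul_neg, mul_comm]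
  · have e3 : (1 - ((2 * t + 3 : ℕ) : ℝ) / 2 - 1) * α = -((t + 1 + 1 / 2) * α) := by push_cast; ring
    rw [e3, Real.sin_neg, a2, mul_neg, mul_comm]

/-- Antiinvariant choice `κ0 = - t`, `κ = t + 1`, `l0 = 2 t + 1`: the source conditions are `- V_ij > 0` and `- V_ji > 0`
(`V_ij = VV (- U_t) (- U_{t+1})`, `V_ji = VV (- U_{t+1}) (- U_t)` with `U_s = sin (s α) / sin α`). -/
theorem VPk_anti (α : ℝ) (h0 : 0 < α) (h1 : α < Real.pi) (t : ℕ) :
    VPk α (2 * t + 1) (-Up (Real.cos α) t) (-Up (Real.cos α) (t + 1)) (Up (Real.cos α) (t + 1))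
      (Up (Real.cos α) t) := by
  have hs : 0 < Real.sin α := Real.sin_pos_of_pos_of_lt_pi h0 h1
  have a1 := (sin_Up α t).1
  have a2 := (sin_Up α t).2
  have ht : (0 : ℝ) ≤ t := Nat.cast_nonneg t
  refine ⟨⟨t + 1, -t, ?_, ?_, ?_, ⟨_, hs, ?_, ?_⟩, ⟨_, hs, ?_, ?_⟩⟩⟩
  · push_cast; linarith
  · linarith
  · linarith
  · rw [a2, mul_comm]
  · rw [show ((t : ℝ) + 1 - 1) * α = t * α by ring, a1, mul_comm]
  · rw [show -(t : ℝ) * α = -(t * α) by ring, Real.sin_neg, a1, mul_neg, mul_comm]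
  · rw [show (-(t : ℝ) - 1) * α = -((t + 1) * α) by ring, Real.sin_neg, a2, mul_neg, mul_comm]

end Pool.Agent.Work.MP_88b7aa_gt.PQ
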