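import Pool.Agent.Work.MP_88b7aa_gt.PQ.Cert
import Pool.Agent.Work.MP_88b7aa_gt.PQ.Vtx

/-!
# The certificate, vertex by vertex

`Vert M G lab F o i j k` collects the conditions for the words starting with `i` at the vertex of `i, j` (`k` the third index).
`Vert_small`: every length `2 ≤ l < m` explicitly.  `Vert_big`: the lengths `2 ≤ l < l0` explicitly, the others by a vertex form.
-/

namespace Pool.Agent.Work.MP_88b7aa_gt.PQ

open Pool.Agent.Work.MP_88b7aa_gt.CH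
open ComplexConjugate Complex Matrix

/-- The conditions for the words starting with `i` in the dihedral group of `i, j`. -/
structure Vert (M : CoxeterMatrix (Fin 3)) (G : Matrix (Fin 3) (Fin 3) ℂ) {ι : Type*} (lab : ι → Fin 3)
    (F : ι → Matrix (Fin 3) (Fin 3) ℂ) (o : Fin 3 → ℂ) (i j k : Fin 3) : Prop where
  hB : ∀ l, 2 ≤ l → l < M i j → ∀ s, lab s = k → ∃ t, lab t = i ∧ Incl G (altS G i j l) (F s) (F t)
  hB' : ∀ l, 2 ≤ l → l < M i j → ∃ t, lab t = i ∧ 0 < qf (F t) (altS G i j l *ᵥ o)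
  hC2 : LongC M G lab F o i j k

theorem FHyp_of_Vert {M : CoxeterMatrix (Fin 3)} {G : Matrix (Fin 3) (Fin 3) ℂ} {ι : Type*} {lab : ι → Fin 3}
    {F : ι → Matrix (Fin 3) (Fin 3) ℂ} {o : Fin 3 → ℂ} (hm : ∀ i j, i ≠ j → 2 ≤ M i j) (hG : IsGram G)
    (ho : qf G o < 0) (hA : ∀ i, ∃ t, lab t = i ∧ 0 < qf (F t) (Sg G i *ᵥ o)) (hC1 : ∀ t, qf (F t) o < 0)
    (hV : ∀ i j k, i ≠ j → i ≠ k → j ≠ k → Vert M G lab F o i j k) : FHyp M G lab F o where
  m2 := hm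
  gram := hG
  hB := fun i j k hij hik hjk => (hV i j k hij hik hjk).hB
  ho := ho
  hA := hA
  hB' := by
    intro i j hij
    obtain ⟨k, hik, hjk⟩ : ∃ k, i ≠ k ∧ j ≠ k := by
      clear hV hA hC1 ho hG
      revert hij
      revert j
      revert i
      clear hm
      decide
    exact (hV i j k hij hik hjk).hB'
  hC1 := hC1
  hC2 := fun i j k hij hik hjk => (hV i j k hij hik hjk).hC2

/-- A vertex with small order. -/
theorem Vert_small {M : CoxeterMatrix (Fin 3)} {G : Matrix (Fin 3) (Fin 3) ℂ} {ι : Type*} {lab : ι → Fin 3}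
    {F : ι → Matrix (Fin 3) (Fin 3) ℂ} {o : Fin 3 → ℂ} {i j k : Fin 3}
    (hB : ∀ l, 2 ≤ l → l < M i j → ∀ s, lab s = k → ∃ t, lab t = i ∧ Incl G (altS G i j l) (F s) (F t))
    (hB' : ∀ l, 2 ≤ l → l < M i j → ∃ t, lab t = i ∧ 0 < qf (F t) (altS G i j l *ᵥ o))
    (hw : ∀ t, lab t = k → qf (F t) (altS G i j (M i j) *ᵥ o) < 0)
    (E : Matrix (Fin 3) (Fin 3) ℂ) (hE : qf E o < 0) (hE' : 0 < qf E (altS G i j (M i j) *ᵥ o)) :
    Vert M G lab F o i j k :=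
  ⟨hB, hB', Or.inl ⟨hw, E, hE, hE'⟩⟩

/-- A vertex with a vertex form: `t` is the state with the form `V_ij`. -/
theorem Vert_big {M : CoxeterMatrix (Fin 3)} {G : Matrix (Fin 3) (Fin 3) ℂ} {ι : Type*} {lab : ι → Fin 3}
    {F : ι → Matrix (Fin 3) (Fin 3) ℂ} {o : Fin 3 → ℂ} {i j k : Fin 3} {fi fj : ℂ} {α : ℝ}
    (h : Vx G i j k fi fj (Real.cos α)) (hα : (M i j : ℕ) * α = Real.pi) (l0 : ℕ) {P Q P' Q' : ℝ}
    (hp : VPk α l0 P Q P' Q') (t : ι) (ht : lab t = i) (hFt : F t = VV G i j k fi fj P Q)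
    (hB : ∀ l, 2 ≤ l → l < l0 → ∀ s, lab s = k → ∃ t, lab t = i ∧ Incl G (altS G i j l) (F s) (F t))
    (hB' : ∀ l, 2 ≤ l → l < l0 → ∃ t, lab t = i ∧ 0 < qf (F t) (altS G i j l *ᵥ o))
    (ha : 0 < qf (VV G i j k fi fj P' Q') o) (hb : 0 < qf (VV G i j k fi fj Q' P') o)
    (hF : ∀ s, lab s = k → Incl G 1 (F s) (VV G i j k fi fj P' Q') ∧ Incl G 1 (F s) (VV G i j k fi fj Q' P')) :
    Vert M G lab F o i j k := by
  refine ⟨?_, ?_, h.longC hα l0 hp lab F o ha hb hF⟩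
  · intro l hl hl' s hs
    by_cases hll : l < l0
    · exact hB l hl hll s hs
    · refine ⟨t, ht, ?_⟩
      rw [hFt]
      exact h.incl hα l0 hp (F s) (hF s hs).1 (hF s hs).2 l (by omega) hl'
  · intro l hl hl'
    by_cases hll : l < l0
    · exact hB' l hl hll
    · refine ⟨t, ht, ?_⟩
      rw [hFt]
      exact h.point hα l0 hp o ha hb l (by omega) hl'

/-- THE CERTIFICATE THEOREM, vertex by vertex. -/
theorem certV (p q r : ℕ) (hp : 3 ≤ p) (hpq : p ≤ q) (hqr : q ≤ r) (hr : 4 ≤ r) (θ : ℝ) (n : Fin 3 → Fin 3 → ℂ)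
    (hT : IsTriangle p q r θ n)
    (hA' : 1 ≤ fA (Real.cos (Real.pi / p)) (Real.cos (Real.pi / q)) (Real.cos (Real.pi / r)) (Real.cos θ))
    (G : Matrix (Fin 3) (Fin 3) ℂ)
    (hG : TriG (Real.cos (Real.pi / p)) (Real.cos (Real.pi / q)) (Real.cos (Real.pi / r)) θ G)
    {ι : Type*} [Finite ι] (lab : ι → Fin 3) (F : ι → Matrix (Fin 3) (Fin 3) ℂ) (o : Fin 3 → ℂ)
    (ho : qf G o < 0) (hA : ∀ i, ∃ t, lab t = i ∧ 0 < qf (F t) (Sg G i *ᵥ o)) (hC1 : ∀ t, qf (F t) o < 0)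
    (hV : ∀ i j k, i ≠ j → i ≠ k → j ≠ k → Vert (mcox p q r (by omega) (by omega) (by omega)) G lab F o i j k) :
    DF (mcox p q r (by omega) (by omega) (by omega)) n := by
  have hm : ∀ i j : Fin 3, i ≠ j → 2 ≤ (mcox p q r (by omega) (by omega) (by omega)) i j := by
    intro i j hij
    fin_cases i <;> fin_cases j <;> first | exact absurd rfl hij | skip
    · show 2 ≤ q; omega
    · show 2 ≤ r; omega
    · show 2 ≤ q; omega
    · show 2 ≤ p; omega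
    · show 2 ≤ r; omega
    · show 2 ≤ p; omega
  exact cert p q r hp hpq hqr hr θ n hT hA' G hG lab F o (FHyp_of_Vert hm hG.gram ho hA hC1 hV)

end Pool.Agent.Work.MP_88b7aa_gt.PQ
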