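import Pool.Agent.Work.MP_88b7aa_gt.PQ.Eng

/-!
# Words in closed form

The alternating product of `l` reflections is `z ↦ ε z + A(z) c_i + B(z) c_j` with `ε = (-1)^l`, `A = p x_i + q f x_j`,
`B = r (conj f) x_i + s x_j`, `x_i = ⟨z, n_i⟩`, `G i j = - a f`, `|f| = 1`; the real numbers `p, q, r, s` are polynomials in `a`.
-/

namespace Pool.Agent.Work.MP_88b7aa_gt.PQ

open Pool.Agent.Work.MP_88b7aa_gt.CH
open ComplexConjugate Complex Matrix

/-- The coefficients. -/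
structure W4 (R : Type) where
  p : R
  q : R
  r : R
  s : R

/-- The matrix of a word: the columns of `c_i`, `c_j` and `c_k`. -/
structure WM (R : Type) where
  m0 : R
  m1 : R
  m01 : Cx R
  m10 : Cx R
  A : Cx R
  B : Cx R

section poly

variable {R : Type} (O : Ops R)

/-- `(-1)^l` times a number. -/
def sgR (l : ℕ) (x : R) : R := if l % 2 = 0 then x else O.neg x

def sgC (l : ℕ) (x : Cx R) : Cx R := if l % 2 = 0 then x else x.neg O

def wc (a : R) : ℕ → W4 R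
  | 0 => ⟨O.cst 0, O.cst 0, O.cst 0, O.cst 0⟩
  | l + 1 => ⟨O.nrm (O.sub (O.add (wc a l).s (sgR O l (O.cst 2147483648))) (O.mul (O.add a a) (wc a l).q)),
      O.nrm (O.sub (wc a l).r (O.mul (O.add a a) (wc a l).p)), O.neg (wc a l).q, O.neg (wc a l).p⟩

def Cx.addr (r : R) (x : Cx R) : Cx R := ⟨O.add r x.re, x.im⟩

def WM.mk' (a : R) (f g02 g12 : Cx R) (l : ℕ) (w : W4 R) : WM R :=
  ⟨O.nrm (O.add (sgR O l (O.cst 1073741824)) (O.sub w.p (O.mul a w.q))), O.nrm (O.add (sgR O l (O.cst 1073741824)) (O.sub w.s (O.mul a w.r))),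
    f.smul O (O.nrm (O.sub w.q (O.mul a w.p))), (f.cj O).smul O (O.nrm (O.sub w.r (O.mul a w.s))),
    ((g02.smul O w.p).add O ((f.smul O w.q).mul O g12)).nrm O, ((((f.cj O).smul O w.r).mul O g02).add O (g12.smul O w.s)).nrm O⟩

/-- The form composed with the word. -/
def H9.cgr (W : WM R) (l : ℕ) (Q : H9 R) : H9 R :=
  let P0 := (Cx.addr O (O.mul Q.d0 W.m0) (Q.e01.mul O W.m10)).nrm O
  let P1 := (((Q.e01.cj O).smul O W.m0).add O (W.m10.smul O Q.d1)).nrm O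
  let R0 := ((W.m01.smul O Q.d0).add O (Q.e01.smul O W.m1)).nrm O
  let R1 := (Cx.addr O (O.mul Q.d1 W.m1) (Q.e01.cml O W.m01)).nrm O
  let U := ((sgC O l Q.e02).add O ((W.A.smul O Q.d0).add O (Q.e01.mul O W.B))).nrm O
  let V := ((sgC O l Q.e12).add O ((Q.e01.cml O W.A).add O (W.B.smul O Q.d1))).nrm O
  let Z := (Cx.addr O (sgR O l Q.d2) ((Q.e02.cml O W.A).add O (Q.e12.cml O W.B))).nrm O
  ⟨O.nrm (O.add (O.mul P0.re W.m0) (W.m10.cml O P1).re), O.nrm (O.add (W.m01.cml O R0).re (O.mul R1.re W.m1)),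
    O.nrm (O.add (O.add (W.A.cml O U).re (W.B.cml O V).re) (sgR O l Z.re)),
    ((R0.smul O W.m0).add O (W.m10.cml O R1)).nrm O, ((U.smul O W.m0).add O (W.m10.cml O V)).nrm O,
    ((W.m01.cml O U).add O (V.smul O W.m1)).nrm O⟩

/-- The functional composed with the word. -/
def Rw.cgr (W : WM R) (l : ℕ) (f : Rw R) : Rw R :=
  ⟨((f.a.smul O W.m0).add O (f.b.mul O W.m10)).nrm O, ((f.a.mul O W.m01).add O (f.b.smul O W.m1)).nrm O,
    (((f.a.mul O W.A).add O (f.b.mul O W.B)).add O (sgC O l f.c)).nrm O⟩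

/-- exchange of the indices 0 and 1 -/
def H9.swp (x : H9 R) : H9 R := ⟨x.d1, x.d0, x.d2, x.e01.cj O, x.e12, x.e02⟩
def Gm.swp (x : Gm R) : Gm R := ⟨x.g01.cj O, x.g12, x.g02⟩
def Rw.swp (x : Rw R) : Rw R := ⟨x.b, x.a, x.c⟩
def Rw.rot (x : Rw R) : Rw R := ⟨x.b, x.c, x.a⟩

/-- The word in the order `0, 1`. -/
def H9.w01 (g : Gm R) (a : R) (f : Cx R) (l : ℕ) (Q : H9 R) : H9 R :=
  Q.cgr O (WM.mk' O a f g.g02 g.g12 l (wc O a l)) l

def Rw.w01 (g : Gm R) (a : R) (f : Cx R) (l : ℕ) (v : Rw R) : Rw R :=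
  v.cgr O (WM.mk' O a f g.g02 g.g12 l (wc O a l)) l

def Rw.comp' (g : Gm R) (w : List (Fin 3)) : Rw R → Rw R := match w with
  | [] => fun v => v
  | a :: w => fun v => Rw.comp' g w (Rw.comp O g a v)

/-- The form composed with the word `i j i ...` of length `l`. -/
def H9.word (g : Gm R) (i j : Fin 3) (a : R) (f : Cx R) (l : ℕ) (Q : H9 R) : H9 R := match i, j with
  | 0, 1 => Q.w01 O g a f l
  | 1, 2 => (((Q.rot O).w01 O (g.rot O) a f l).rot O).rot O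
  | 2, 0 => (((Q.rot O).rot O).w01 O ((g.rot O).rot O) a f l).rot O
  | 1, 0 => ((Q.swp O).w01 O (g.swp O) a f l).swp O
  | 2, 1 => (((((Q.rot O).swp O).w01 O ((g.rot O).swp O) a f l).swp O).rot O).rot O
  | 0, 2 => (((((Q.rot O).rot O).swp O).w01 O (((g.rot O).rot O).swp O) a f l).swp O).rot O
  | _, _ => Q.cmpL O g (wrd i j l)

/-- The functional composed with the word. -/
def Rw.word (g : Gm R) (i j : Fin 3) (a : R) (f : Cx R) (l : ℕ) (v : Rw R) : Rw R := match i, j with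
  | 0, 1 => v.w01 O g a f l
  | 1, 2 => ((v.rot).w01 O (g.rot O) a f l).rot.rot
  | 2, 0 => ((v.rot.rot).w01 O ((g.rot O).rot O) a f l).rot
  | 1, 0 => ((v.swp).w01 O (g.swp O) a f l).swp
  | 2, 1 => ((v.rot.swp).w01 O ((g.rot O).swp O) a f l).swp.rot.rot
  | 0, 2 => ((v.rot.rot.swp).w01 O (((g.rot O).rot O).swp O) a f l).swp.rot
  | _, _ => v.comp' O g (wrd i j l)

end poly

theorem sgR_c (l : ℕ) (x : ℝ) : sgR OR l x = (-1) ^ l * x := by
  unfold sgR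
  split_ifs with h
  · rw [(Nat.even_iff.mpr h).neg_one_pow, one_mul]
  · rw [(Nat.odd_iff.mpr (by omega)).neg_one_pow, neg_one_mul]
    rfl

theorem sgC_c (l : ℕ) (x : Cx ℝ) : (sgC OR l x).c = (((-1) ^ l : ℝ) : ℂ) * x.c := by
  unfold sgC
  split_ifs with h
  · rw [(Nat.even_iff.mpr h).neg_one_pow]
    simp
  · rw [(Nat.odd_iff.mpr (by omega)).neg_one_pow]
    show -x.c = _
    simp

theorem OR_two : OR.cst 2147483648 = 2 := by
  show ((2147483648 : Int) : ℝ) / 1073741824 = 2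
  norm_num

/-- The coefficients over the real numbers. -/
theorem wc_succ (a : ℝ) (l : ℕ) : (wc OR a (l + 1)).p = (wc OR a l).s + 2 * (-1) ^ l - 2 * a * (wc OR a l).q ∧
    (wc OR a (l + 1)).q = (wc OR a l).r - 2 * a * (wc OR a l).p ∧
    (wc OR a (l + 1)).r = -(wc OR a l).q ∧ (wc OR a (l + 1)).s = -(wc OR a l).p := by
  refine ⟨?_, ?_, rfl, rfl⟩
  · show (wc OR a l).s + sgR OR l (OR.cst 2147483648) - (a + a) * (wc OR a l).q = _
    rw [sgR_c, OR_two]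
    ring
  · show (wc OR a l).r - (a + a) * (wc OR a l).p = _
    ring

theorem wc_zero (a : ℝ) : (wc OR a 0).p = 0 ∧ (wc OR a 0).q = 0 ∧ (wc OR a 0).r = 0 ∧ (wc OR a 0).s = 0 :=
  ⟨OR_zero, OR_zero, OR_zero, OR_zero⟩

/-- The alternating product in closed form. -/
theorem altS_closed {G : Matrix (Fin 3) (Fin 3) ℂ} (hG : IsGram G) {a : ℝ} (l : ℕ) :
    ∀ {f : ℂ} {i j : Fin 3}, f * conj f = 1 → G i j = -(a : ℂ) * f → ∀ (x : Fin 3 → ℂ) (c : Fin 3),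
    (altS G i j l *ᵥ x) c = (((-1) ^ l : ℝ) : ℂ) * x c +
      (if c = i then ((wc OR a l).p : ℂ) * (∑ b, G i b * x b) + ((wc OR a l).q : ℂ) * f * (∑ b, G j b * x b) else 0) +
      (if c = j then ((wc OR a l).r : ℂ) * conj f * (∑ b, G i b * x b) + ((wc OR a l).s : ℂ) * (∑ b, G j b * x b) else 0) := by
  induction l with
  | zero =>
    intro f i j hf hij x c
    obtain ⟨h1, h2, h3, h4⟩ := wc_zero a
    rw [h1, h2, h3, h4]
    show ((1 : Matrix (Fin 3) (Fin 3) ℂ) *ᵥ x) c = _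
    simp
  | succ l ih =>
    intro f i j hf hij x c
    have hji : G j i = -(a : ℂ) * conj f := by
      rw [← hG.hm i j, hij]
      simp
    have hf' : conj f * conj (conj f) = 1 := by
      rw [Complex.conj_conj, mul_comm]
      exact hf
    obtain ⟨h1, h2, h3, h4⟩ := wc_succ a l
    show ((Sg G i * altS G j i l) *ᵥ x) c = _
    rw [← Matrix.mulVec_mulVec, h1, h2, h3, h4, Sg_mul]
    have IH := ih (i := j) (j := i) hf' hji x
    rw [Complex.conj_conj] at IH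
    have hs : ∑ b, G i b * (altS G j i l *ᵥ x) b = (((-1) ^ l : ℝ) : ℂ) * (∑ b, G i b * x b) +
        G i j * (((wc OR a l).p : ℂ) * (∑ b, G j b * x b) + ((wc OR a l).q : ℂ) * conj f * (∑ b, G i b * x b)) +
        G i i * (((wc OR a l).r : ℂ) * f * (∑ b, G j b * x b) + ((wc OR a l).s : ℂ) * (∑ b, G i b * x b)) := by
      simp only [IH, mul_add, mul_ite, mul_zero, Finset.sum_add_distrib, Finset.sum_ite_eq', Finset.mem_univ, if_true]
      have : ∑ b, G i b * ((((-1) ^ l : ℝ) : ℂ) * x b) = (((-1) ^ l : ℝ) : ℂ) * ∑ b, G i b * x b := by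
        rw [Finset.mul_sum]
        exact Finset.sum_congr rfl fun b _ => by ring
      rw [this]
    rw [hs, IH c, hij, hG.dg i]
    have e1 : (((-1) ^ (l + 1) : ℝ) : ℂ) = -(((-1) ^ l : ℝ) : ℂ) := by
      rw [pow_succ]
      push_cast
      ring
    rw [e1]
    set X := ∑ b, G i b * x b
    set Y := ∑ b, G j b * x b
    push_cast
    by_cases hi : c = i <;> by_cases hj : c = j
    · simp only [if_pos hi, if_pos hj]
      linear_combination (-2 * (a : ℂ) * ((wc OR a l).q : ℂ) * X) * hf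
    · simp only [if_pos hi, if_neg hj]
      linear_combination (-2 * (a : ℂ) * ((wc OR a l).q : ℂ) * X) * hf
    · simp only [if_neg hi, if_pos hj]
      ring
    · simp only [if_neg hi, if_neg hj]
      ring

theorem c_addr (r : ℝ) (x : Cx ℝ) : (Cx.addr OR r x).c = r + x.c := by
  apply Complex.ext <;> simp [Cx.c, Cx.addr, OR]

/-- The action of the matrix. -/
noncomputable def WM.act (W : WM ℝ) (l : ℕ) (x : Fin 3 → ℂ) : Fin 3 → ℂ :=
  ![(W.m0 : ℂ) * x 0 + W.m01.c * x 1 + W.A.c * x 2, W.m10.c * x 0 + (W.m1 : ℂ) * x 1 + W.B.c * x 2,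
    (((-1) ^ l : ℝ) : ℂ) * x 2]

theorem cgr_qf (W : WM ℝ) (l : ℕ) (Q : H9 ℝ) (x : Fin 3 → ℂ) : qf (hm (Q.cgr OR W l)) x = qf (hm Q) (W.act l x) := by
  have hP0 : (Cx.addr OR (OR.mul Q.d0 W.m0) (Q.e01.mul OR W.m10)).c = Q.d0 * W.m0 + Q.e01.c * W.m10.c := by
    rw [c_addr, c_mul]
    show ((Q.d0 * W.m0 : ℝ) : ℂ) + _ = _
    push_cast
    ring
  have hP1 : (((Q.e01.cj OR).smul OR W.m0).add OR (W.m10.smul OR Q.d1)).c = W.m0 * conj Q.e01.c + Q.d1 * W.m10.c := by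
    rw [c_add, c_smul, c_smul, c_cj]
  have hR0 : ((W.m01.smul OR Q.d0).add OR (Q.e01.smul OR W.m1)).c = Q.d0 * W.m01.c + W.m1 * Q.e01.c := by
    rw [c_add, c_smul, c_smul]
  have hR1 : (Cx.addr OR (OR.mul Q.d1 W.m1) (Q.e01.cml OR W.m01)).c = Q.d1 * W.m1 + conj Q.e01.c * W.m01.c := by
    rw [c_addr, c_cml]
    show ((Q.d1 * W.m1 : ℝ) : ℂ) + _ = _
    push_cast
    ring
  have hU : ((sgC OR l Q.e02).add OR ((W.A.smul OR Q.d0).add OR (Q.e01.mul OR W.B))).c =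
      (((-1) ^ l : ℝ) : ℂ) * Q.e02.c + (Q.d0 * W.A.c + Q.e01.c * W.B.c) := by
    rw [c_add, c_add, sgC_c, c_smul, c_mul]
  have hV : ((sgC OR l Q.e12).add OR ((Q.e01.cml OR W.A).add OR (W.B.smul OR Q.d1))).c =
      (((-1) ^ l : ℝ) : ℂ) * Q.e12.c + (conj Q.e01.c * W.A.c + Q.d1 * W.B.c) := by
    rw [c_add, c_add, sgC_c, c_smul, c_cml]
  have hZ : (Cx.addr OR (sgR OR l Q.d2) ((Q.e02.cml OR W.A).add OR (Q.e12.cml OR W.B))).c =
      (((-1) ^ l * Q.d2 : ℝ) : ℂ) + (conj Q.e02.c * W.A.c + conj Q.e12.c * W.B.c) := by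
    rw [c_addr, c_add, c_cml, c_cml, sgR_c]
  set P0 := Cx.addr OR (OR.mul Q.d0 W.m0) (Q.e01.mul OR W.m10)
  set P1 := ((Q.e01.cj OR).smul OR W.m0).add OR (W.m10.smul OR Q.d1)
  set R0 := (W.m01.smul OR Q.d0).add OR (Q.e01.smul OR W.m1)
  set R1 := Cx.addr OR (OR.mul Q.d1 W.m1) (Q.e01.cml OR W.m01)
  set U := (sgC OR l Q.e02).add OR ((W.A.smul OR Q.d0).add OR (Q.e01.mul OR W.B))
  set V := (sgC OR l Q.e12).add OR ((Q.e01.cml OR W.A).add OR (W.B.smul OR Q.d1))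
  set Z := Cx.addr OR (sgR OR l Q.d2) ((Q.e02.cml OR W.A).add OR (Q.e12.cml OR W.B))
  have h0 : (Q.cgr OR W l).d0 = P0.c.re * W.m0 + (conj W.m10.c * P1.c).re := by rw [← c_cml]; rfl
  have h1 : (Q.cgr OR W l).d1 = (conj W.m01.c * R0.c).re + R1.c.re * W.m1 := by rw [← c_cml]; rfl
  have h2 : (Q.cgr OR W l).d2 = (conj W.A.c * U.c).re + (conj W.B.c * V.c).re + (-1) ^ l * Z.c.re := by
    rw [← c_cml, ← c_cml, c_re Z, ← sgR_c]; rfl
  have h3 : (Q.cgr OR W l).e01.c = W.m0 * R0.c + conj W.m10.c * R1.c := by rw [← c_cml, ← c_smul, ← c_add]; rfl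
  have h4 : (Q.cgr OR W l).e02.c = W.m0 * U.c + conj W.m10.c * V.c := by rw [← c_cml, ← c_smul, ← c_add]; rfl
  have h5 : (Q.cgr OR W l).e12.c = conj W.m01.c * U.c + W.m1 * V.c := by rw [← c_cml, ← c_smul, ← c_add]; rfl
  rw [qf_hm, qf_hm, h0, h1, h2, h3, h4, h5, hP0, hP1, hR0, hR1, hU, hV, hZ]
  unfold WM.act
  simp only [Matrix.cons_val_zero, Matrix.cons_val_one, Matrix.cons_val, normSq_apply, Complex.add_re, Complex.add_im,
    Complex.mul_re, Complex.mul_im, Complex.conj_re, Complex.conj_im, Complex.ofReal_re, Complex.ofReal_im]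
  generalize (-1 : ℝ) ^ l = ε
  ring

/-- The matrix of the word is the action of the word. -/
theorem mk_act (g : Gm ℝ) {a : ℝ} {f : Cx ℝ} (hf : f.c * conj f.c = 1) (h : gm g 0 1 = -(a : ℂ) * f.c) (l : ℕ)
    (x : Fin 3 → ℂ) : (WM.mk' OR a f g.g02 g.g12 l (wc OR a l)).act l x = altS (gm g) 0 1 l *ᵥ x := by
  have hG := gm_gram g
  have h10 : gm g 1 0 = -(a : ℂ) * conj f.c := by
    rw [← hG.hm 0 1, h]
    simp
  have c0 : ∀ W : WM ℝ, ∀ y : Fin 3 → ℂ, W.act l y 0 = (W.m0 : ℂ) * y 0 + W.m01.c * y 1 + W.A.c * y 2 := fun _ _ => rfl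
  have c1 : ∀ W : WM ℝ, ∀ y : Fin 3 → ℂ, W.act l y 1 = W.m10.c * y 0 + (W.m1 : ℂ) * y 1 + W.B.c * y 2 := fun _ _ => rfl
  have c2 : ∀ W : WM ℝ, ∀ y : Fin 3 → ℂ, W.act l y 2 = (((-1) ^ l : ℝ) : ℂ) * y 2 := fun _ _ => rfl
  set w := wc OR a l with hw
  have hm0 : ((WM.mk' OR a f g.g02 g.g12 l w).m0 : ℂ) = (((-1) ^ l : ℝ) : ℂ) + (w.p - a * w.q) := by
    show ((sgR OR l (OR.cst 1073741824) + (w.p - a * w.q) : ℝ) : ℂ) = _
    rw [sgR_c, OR_one]
    push_cast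
    ring
  have hm1 : ((WM.mk' OR a f g.g02 g.g12 l w).m1 : ℂ) = (((-1) ^ l : ℝ) : ℂ) + (w.s - a * w.r) := by
    show ((sgR OR l (OR.cst 1073741824) + (w.s - a * w.r) : ℝ) : ℂ) = _
    rw [sgR_c, OR_one]
    push_cast
    ring
  have hm01 : (WM.mk' OR a f g.g02 g.g12 l w).m01.c = (w.q - a * w.p) * f.c := by
    show (f.smul OR (OR.sub w.q (OR.mul a w.p))).c = _
    rw [c_smul]
    show ((w.q - a * w.p : ℝ) : ℂ) * _ = _
    push_cast
    ring
  have hm10 : (WM.mk' OR a f g.g02 g.g12 l w).m10.c = (w.r - a * w.s) * conj f.c := by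
    show ((f.cj OR).smul OR (OR.sub w.r (OR.mul a w.s))).c = _
    rw [c_smul, c_cj]
    show ((w.r - a * w.s : ℝ) : ℂ) * _ = _
    push_cast
    ring
  have hA : (WM.mk' OR a f g.g02 g.g12 l w).A.c = w.p * g.g02.c + w.q * f.c * g.g12.c := by
    show ((g.g02.smul OR w.p).add OR ((f.smul OR w.q).mul OR g.g12)).c = _
    rw [c_add, c_smul, c_mul, c_smul]
  have hB : (WM.mk' OR a f g.g02 g.g12 l w).B.c = w.r * conj f.c * g.g02.c + w.s * g.g12.c := by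
    show ((((f.cj OR).smul OR w.r).mul OR g.g02).add OR (g.g12.smul OR w.s)).c = _
    rw [c_add, c_mul, c_smul, c_smul, c_cj]
  have r0 : ∑ b, gm g 0 b * x b = x 0 - a * f.c * x 1 + g.g02.c * x 2 := by
    rw [Fin.sum_univ_three, h, hG.dg 0]
    show 1 * x 0 + -(a : ℂ) * f.c * x 1 + g.g02.c * x 2 = _
    ring
  have r1 : ∑ b, gm g 1 b * x b = -(a * conj f.c) * x 0 + x 1 + g.g12.c * x 2 := by
    rw [Fin.sum_univ_three, h10, hG.dg 1]
    show -(a : ℂ) * conj f.c * x 0 + 1 * x 1 + g.g12.c * x 2 = _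
    ring
  ext c
  rw [altS_closed hG l hf h x c, r0, r1]
  fin_cases c
  · show WM.act _ l x 0 = (((-1) ^ l : ℝ) : ℂ) * x 0 + (if (0 : Fin 3) = 0 then _ else 0) + (if (0 : Fin 3) = 1 then _ else 0)
    rw [c0, hm0, hm01, hA, if_pos rfl, if_neg (by decide)]
    linear_combination (w.q * a * x 0 : ℂ) * hf
  · show WM.act _ l x 1 = (((-1) ^ l : ℝ) : ℂ) * x 1 + (if (1 : Fin 3) = 0 then _ else 0) + (if (1 : Fin 3) = 1 then _ else 0)
    rw [c1, hm1, hm10, hB, if_pos rfl, if_neg (by decide)]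
    linear_combination (w.r * a * x 1 : ℂ) * hf
  · show WM.act _ l x 2 = (((-1) ^ l : ℝ) : ℂ) * x 2 + (if (2 : Fin 3) = 0 then _ else 0) + (if (2 : Fin 3) = 1 then _ else 0)
    rw [c2, if_neg (by decide), if_neg (by decide)]
    ring

theorem w01_qf (g : Gm ℝ) {a : ℝ} {f : Cx ℝ} (hf : f.c * conj f.c = 1) (h : gm g 0 1 = -(a : ℂ) * f.c) (l : ℕ) (Q : H9 ℝ)
    (x : Fin 3 → ℂ) : qf (hm (Q.w01 OR g a f l)) x = qf (hm Q) (altS (gm g) 0 1 l *ᵥ x) := by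
  show qf (hm (Q.cgr OR (WM.mk' OR a f g.g02 g.g12 l (wc OR a l)) l)) x = _
  rw [cgr_qf, mk_act g hf h]

/-! ### Permutations of the indices -/

/-- The cyclic permutation of a point. -/
def rt (x : Fin 3 → ℂ) : Fin 3 → ℂ := ![x 1, x 2, x 0]
/-- The transposition. -/
def sw (x : Fin 3 → ℂ) : Fin 3 → ℂ := ![x 1, x 0, x 2]

theorem rt_rt_rt (x : Fin 3 → ℂ) : rt (rt (rt x)) = x := by
  ext a
  fin_cases a <;> rfl

theorem sw_sw (x : Fin 3 → ℂ) : sw (sw x) = x := by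
  ext a
  fin_cases a <;> rfl

theorem qrot (Q : H9 ℝ) (x : Fin 3 → ℂ) : qf (hm (Q.rot OR)) (rt x) = qf (hm Q) x := hm_rot Q x

theorem qswp (Q : H9 ℝ) (x : Fin 3 → ℂ) : qf (hm (Q.swp OR)) (sw x) = qf (hm Q) x := by
  rw [qf_hm, qf_hm]
  have h0 : (Q.swp OR).d0 = Q.d1 := rfl
  have h1 : (Q.swp OR).d1 = Q.d0 := rfl
  have h2 : (Q.swp OR).d2 = Q.d2 := rfl
  have h3 : (Q.swp OR).e01.c = conj Q.e01.c := rfl
  have h4 : (Q.swp OR).e02.c = Q.e12.c := rfl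
  have h5 : (Q.swp OR).e12.c = Q.e02.c := rfl
  rw [h0, h1, h2, h3, h4, h5]
  simp only [sw, Matrix.cons_val_zero, Matrix.cons_val_one, Matrix.cons_val, Complex.mul_re, Complex.mul_im, Complex.conj_re,
    Complex.conj_im]
  ring

/-- The cyclic permutation of an index. -/
def ri (j : Fin 3) : Fin 3 := j + 1
/-- The transposition of an index. -/
def si (j : Fin 3) : Fin 3 := if j = 0 then 1 else if j = 1 then 0 else 2

theorem Sg_rt (g : Gm ℝ) (j : Fin 3) (x : Fin 3 → ℂ) : Sg (gm (g.rot OR)) j *ᵥ rt x = rt (Sg (gm g) (ri j) *ᵥ x) :=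
  rot_Sg g j x

theorem Sg_sw (g : Gm ℝ) (j : Fin 3) (x : Fin 3 → ℂ) : Sg (gm (g.swp OR)) j *ᵥ sw x = sw (Sg (gm g) (si j) *ᵥ x) := by
  have h3 : (g.swp OR).g01.c = conj g.g01.c := rfl
  have h4 : (g.swp OR).g02.c = g.g12.c := rfl
  have h5 : (g.swp OR).g12.c = g.g02.c := rfl
  unfold sw
  ext a
  fin_cases j <;> fin_cases a <;>
    simp [Sg_mul, gm, h3, h4, h5, Fin.sum_univ_three, si] <;> ring

theorem altS_rt (g : Gm ℝ) (l : ℕ) : ∀ (i j : Fin 3) (x : Fin 3 → ℂ),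
    altS (gm (g.rot OR)) i j l *ᵥ rt x = rt (altS (gm g) (ri i) (ri j) l *ᵥ x) := by
  induction l with
  | zero =>
    intro i j x
    show (1 : Matrix (Fin 3) (Fin 3) ℂ) *ᵥ rt x = rt ((1 : Matrix (Fin 3) (Fin 3) ℂ) *ᵥ x)
    rw [Matrix.one_mulVec, Matrix.one_mulVec]
  | succ l ih =>
    intro i j x
    show (Sg _ i * altS _ j i l) *ᵥ rt x = rt ((Sg _ (ri i) * altS _ (ri j) (ri i) l) *ᵥ x)
    rw [← Matrix.mulVec_mulVec, ← Matrix.mulVec_mulVec, ih, Sg_rt]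

theorem altS_sw (g : Gm ℝ) (l : ℕ) : ∀ (i j : Fin 3) (x : Fin 3 → ℂ),
    altS (gm (g.swp OR)) i j l *ᵥ sw x = sw (altS (gm g) (si i) (si j) l *ᵥ x) := by
  induction l with
  | zero =>
    intro i j x
    show (1 : Matrix (Fin 3) (Fin 3) ℂ) *ᵥ sw x = sw ((1 : Matrix (Fin 3) (Fin 3) ℂ) *ᵥ x)
    rw [Matrix.one_mulVec, Matrix.one_mulVec]
  | succ l ih =>
    intro i j x
    show (Sg _ i * altS _ j i l) *ᵥ sw x = sw ((Sg _ (si i) * altS _ (si j) (si i) l) *ᵥ x)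
    rw [← Matrix.mulVec_mulVec, ← Matrix.mulVec_mulVec, ih, Sg_sw]

theorem gm_rrs (g : Gm ℝ) : gm (((g.rot OR).rot OR).swp OR) 0 1 = gm g 0 2 := by
  show ((g.g02.cj OR).cj OR).c = g.g02.c
  rw [c_cj, c_cj, Complex.conj_conj]

/-- The semantics of the closed form. -/
theorem word_qf (g : Gm ℝ) {i j : Fin 3} {a : ℝ} {f : Cx ℝ} (hf : f.c * conj f.c = 1)
    (h : i ≠ j → gm g i j = -(a : ℂ) * f.c) (l : ℕ) (Q : H9 ℝ) (x : Fin 3 → ℂ) :
    qf (hm (Q.word OR g i j a f l)) x = qf (hm Q) (altS (gm g) i j l *ᵥ x) := by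
  have r3 := rt_rt_rt x
  fin_cases i <;> fin_cases j
  · show qf (hm (Q.cmpL OR g (wrd 0 0 l))) x = _
    rw [cmpL_qf, actL_wrd]
    rfl
  · exact w01_qf g hf (h (by decide)) l Q x
  · show qf (hm (((((((Q.rot OR).rot OR).swp OR).w01 OR (((g.rot OR).rot OR).swp OR) a f l).swp OR).rot OR))) x = _
    have e : x = rt (sw (sw (rt (rt x)))) := by rw [sw_sw, r3]
    conv_lhs => rw [e]
    rw [qrot, qswp, w01_qf _ hf ((gm_rrs g).trans (h (by decide))), altS_sw, qswp, altS_rt, qrot, altS_rt, qrot]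
    rfl
  · show qf (hm (((Q.swp OR).w01 OR (g.swp OR) a f l).swp OR)) x = _
    have e : x = sw (sw x) := by rw [sw_sw]
    conv_lhs => rw [e]
    rw [qswp, w01_qf _ hf (h (by decide)), altS_sw, qswp]
    rfl
  · show qf (hm (Q.cmpL OR g (wrd 1 1 l))) x = _
    rw [cmpL_qf, actL_wrd]
    rfl
  · show qf (hm (((((Q.rot OR).w01 OR (g.rot OR) a f l).rot OR).rot OR))) x = _
    have e : x = rt (rt (rt x)) := r3.symm
    conv_lhs => rw [e]
    rw [qrot, qrot, w01_qf _ hf (h (by decide)), altS_rt, qrot]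
    rfl
  · show qf (hm ((((Q.rot OR).rot OR).w01 OR ((g.rot OR).rot OR) a f l).rot OR)) x = _
    have e : x = rt (rt (rt x)) := r3.symm
    conv_lhs => rw [e]
    rw [qrot, w01_qf _ hf (h (by decide)), altS_rt, qrot, altS_rt, qrot]
    rfl
  · show qf (hm ((((((Q.rot OR).swp OR).w01 OR ((g.rot OR).swp OR) a f l).swp OR).rot OR).rot OR)) x = _
    have e : x = rt (rt (sw (sw (rt x)))) := by rw [sw_sw, r3]
    conv_lhs => rw [e]
    rw [qrot, qrot, qswp, w01_qf _ hf (h (by decide)), altS_sw, qswp, altS_rt, qrot]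
    rfl
  · show qf (hm (Q.cmpL OR g (wrd 2 2 l))) x = _
    rw [cmpL_qf, actL_wrd]
    rfl

/-! ### Functionals -/

theorem cgr_v (W : WM ℝ) (l : ℕ) (v : Rw ℝ) (x : Fin 3 → ℂ) : (v.cgr OR W l).v x = v.v (W.act l x) := by
  have ha : (v.cgr OR W l).a.c = W.m0 * v.a.c + v.b.c * W.m10.c := by rw [← c_smul, ← c_mul, ← c_add]; rfl
  have hb : (v.cgr OR W l).b.c = v.a.c * W.m01.c + W.m1 * v.b.c := by rw [← c_smul, ← c_mul, ← c_add]; rfl
  have hc : (v.cgr OR W l).c.c = v.a.c * W.A.c + v.b.c * W.B.c + (((-1) ^ l : ℝ) : ℂ) * v.c.c := by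
    rw [← c_mul, ← c_mul, ← c_add, ← sgC_c, ← c_add]
    rfl
  unfold Rw.v
  rw [ha, hb, hc]
  unfold WM.act
  simp only [Matrix.cons_val_zero, Matrix.cons_val_one, Matrix.cons_val]
  ring

theorem w01_v (g : Gm ℝ) {a : ℝ} {f : Cx ℝ} (hf : f.c * conj f.c = 1) (h : gm g 0 1 = -(a : ℂ) * f.c) (l : ℕ) (v : Rw ℝ)
    (x : Fin 3 → ℂ) : (v.w01 OR g a f l).v x = v.v (altS (gm g) 0 1 l *ᵥ x) := by
  show (v.cgr OR (WM.mk' OR a f g.g02 g.g12 l (wc OR a l)) l).v x = _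
  rw [cgr_v, mk_act g hf h]

theorem v_rot (v : Rw ℝ) (x : Fin 3 → ℂ) : v.rot.v (rt x) = v.v x := by
  show v.b.c * x 1 + v.c.c * x 2 + v.a.c * x 0 = v.a.c * x 0 + v.b.c * x 1 + v.c.c * x 2
  ring

theorem v_swp (v : Rw ℝ) (x : Fin 3 → ℂ) : v.swp.v (sw x) = v.v x := by
  show v.b.c * x 1 + v.a.c * x 0 + v.c.c * x 2 = v.a.c * x 0 + v.b.c * x 1 + v.c.c * x 2
  ring

theorem comp'_v (g : Gm ℝ) (w : List (Fin 3)) : ∀ (v : Rw ℝ) (x : Fin 3 → ℂ), (v.comp' OR g w).v x = v.v (actL (gm g) w x) := by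
  induction w with
  | nil => intro v x; rfl
  | cons a w ih =>
    intro v x
    show ((Rw.comp OR g a v).comp' OR g w).v x = _
    rw [ih, v_comp]
    rfl

/-- The semantics of the closed form. -/
theorem word_v (g : Gm ℝ) {i j : Fin 3} {a : ℝ} {f : Cx ℝ} (hf : f.c * conj f.c = 1)
    (h : i ≠ j → gm g i j = -(a : ℂ) * f.c) (l : ℕ) (v : Rw ℝ) (x : Fin 3 → ℂ) :
    (v.word OR g i j a f l).v x = v.v (altS (gm g) i j l *ᵥ x) := by
  have r3 := rt_rt_rt x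
  fin_cases i <;> fin_cases j
  · show (v.comp' OR g (wrd 0 0 l)).v x = _
    rw [comp'_v, actL_wrd]
    rfl
  · exact w01_v g hf (h (by decide)) l v x
  · show (((v.rot.rot.swp).w01 OR (((g.rot OR).rot OR).swp OR) a f l).swp.rot).v x = _
    have e : x = rt (sw (sw (rt (rt x)))) := by rw [sw_sw, r3]
    conv_lhs => rw [e]
    rw [v_rot, v_swp, w01_v _ hf ((gm_rrs g).trans (h (by decide))), altS_sw, v_swp, altS_rt, v_rot, altS_rt, v_rot]
    rfl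
  · show ((v.swp.w01 OR (g.swp OR) a f l).swp).v x = _
    have e : x = sw (sw x) := by rw [sw_sw]
    conv_lhs => rw [e]
    rw [v_swp, w01_v _ hf (h (by decide)), altS_sw, v_swp]
    rfl
  · show (v.comp' OR g (wrd 1 1 l)).v x = _
    rw [comp'_v, actL_wrd]
    rfl
  · show ((v.rot.w01 OR (g.rot OR) a f l).rot.rot).v x = _
    have e : x = rt (rt (rt x)) := r3.symm
    conv_lhs => rw [e]
    rw [v_rot, v_rot, w01_v _ hf (h (by decide)), altS_rt, v_rot]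
    rfl
  · show ((v.rot.rot.w01 OR ((g.rot OR).rot OR) a f l).rot).v x = _
    have e : x = rt (rt (rt x)) := r3.symm
    conv_lhs => rw [e]
    rw [v_rot, w01_v _ hf (h (by decide)), altS_rt, v_rot, altS_rt, v_rot]
    rfl
  · show ((v.rot.swp.w01 OR ((g.rot OR).swp OR) a f l).swp.rot.rot).v x = _
    have e : x = rt (rt (sw (sw (rt x)))) := by rw [sw_sw, r3]
    conv_lhs => rw [e]
    rw [v_rot, v_rot, v_swp, w01_v _ hf (h (by decide)), altS_sw, v_swp, altS_rt, v_rot]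
    rfl
  · show (v.comp' OR g (wrd 2 2 l)).v x = _
    rw [comp'_v, actL_wrd]
    rfl

end Pool.Agent.Work.MP_88b7aa_gt.PQ
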